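import Pool.Agent.P.MP_c53d0e_pr.Defs

set_option autoImplicit false

namespace Pool.Agent.SemiRandom

/-- The hypergraph on `Fin k` whose edges are listed in `L`. -/
def graphOf (k : ℕ) (L : List (List ℕ)) : Finset (Finset (Fin k)) :=
  (L.map fun e => Finset.univ.filter fun v : Fin k => (v : ℕ) ∈ e).toFinset

end Pool.Agent.SemiRandom
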