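import Pool.Agent.P.MP_c53d0e_pr.Clique

set_option autoImplicit false

namespace Pool.Agent.SemiRandom

open Finset Filter Topology

lemma choose_lim {a : ℕ → ℕ} {α : ℝ} (hα : 0 < α)
    (ha : Tendsto (fun k : ℕ => (a k : ℝ) / k) atTop (𝓝 α)) (m : ℕ) :
    Tendsto (fun k : ℕ => ((a k).choose m : ℝ) / (k : ℝ) ^ m) atTop
      (𝓝 (α ^ m / m.factorial)) := by
  have h1 : Tendsto (fun k : ℕ => (a k : ℝ)) atTop atTop := by
    refine (ha.pos_mul_atTop hα tendsto_natCast_atTop_atTop).congr' ?_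
    filter_upwards [eventually_gt_atTop 0] with k hk
    field_simp
  have h2 : Tendsto a atTop atTop := tendsto_natCast_atTop_iff.1 h1
  have h3 := ((isEquivalent_choose m).comp_tendsto h2).div
    (Asymptotics.IsEquivalent.refl (u := fun k : ℕ => (k : ℝ) ^ m))
  refine h3.symm.tendsto_nhds (((ha.pow m).div_const (m.factorial : ℝ)).congr fun k => ?_)
  simp only [Pi.div_apply, Function.comp, div_pow]
  ring

lemma bottleneck_clique {r s : ℕ} (hrs : r < s) (hs : 2 ≤ s) {ε : ℝ} (hε : 0 < ε) :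
    ∀ᶠ k : ℕ in atTop, Bottleneck (clique k s) r ((1 + ε) / (k - 1).choose (s - 1)) := by
  set d := s - 1 with hd
  have hsd : s = d + 1 := by omega
  have hd1 : d ≠ 0 := by omega
  -- choice of `lam`
  obtain ⟨lam, hl0, hl1, hl2⟩ : ∃ lam : ℝ, 0 < lam ∧ lam < 1 / 2 ∧
      1 + ε / 2 < (1 + ε) * (1 - 2 * lam) ^ d := by
    have c : Continuous fun x : ℝ => (1 + ε) * (1 - 2 * x) ^ d := by fun_prop
    have e1 : ∀ᶠ x in 𝓝 (0 : ℝ), 1 + ε / 2 < (1 + ε) * (1 - 2 * x) ^ d :=
      (c.tendsto 0).eventually (lt_mem_nhds (by simp; linarith))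
    have e2 : ∀ᶠ x in 𝓝 (0 : ℝ), x < 1 / 2 := gt_mem_nhds (by norm_num)
    obtain ⟨x, hx1, hx2⟩ := (((e1.and e2).filter_mono nhdsWithin_le_nhds).and
      (self_mem_nhdsWithin (a := (0 : ℝ)) (s := Set.Ioi 0))).exists
    exact ⟨x, hx2, hx1.2, hx1.1⟩
  have hf : (0 : ℝ) < d.factorial := by exact_mod_cast d.factorial_pos
  have hfs : (0 : ℝ) < s.factorial := by exact_mod_cast s.factorial_pos
  set μ := min (ε * lam / 2) ((1 + ε) * (lam ^ s / s.factorial) / (1 / d.factorial)) with hμ
  have hμ0 : 0 < μ := lt_min (by positivity) (by positivity)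
  obtain ⟨η, hη0, hη1, hη2⟩ : ∃ η : ℝ, 0 < η ∧ η ≤ 1 ∧
      (1 + ε) * (2 * lam) * η / (1 / d.factorial) ≤ μ / 3 := by
    set c := (1 + ε) * (2 * lam) / (1 / d.factorial) with hc
    have hc0 : 0 < c := by positivity
    refine ⟨min 1 (μ / 3 / c), lt_min one_pos (by positivity), min_le_left _ _, ?_⟩
    have := min_le_right 1 (μ / 3 / c)
    rw [le_div_iff₀ hc0] at this
    refine le_trans (le_of_eq ?_) this
    rw [hc]; ring
  obtain ⟨M, hM⟩ := exists_pow_lt_of_lt_one (show 0 < μ / 3 by positivity)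
    (show 1 - η < 1 by linarith)
  let h : ℕ → ℕ := fun k => ⌊lam * k⌋₊
  have t0 : Tendsto (fun k : ℕ => 1 / (k : ℝ)) atTop (𝓝 0) := tendsto_one_div_atTop_nhds_zero_nat
  have t1 : Tendsto (fun k : ℕ => (h k : ℝ) / k) atTop (𝓝 lam) :=
    (tendsto_nat_floor_mul_div_atTop hl0.le).comp tendsto_natCast_atTop_atTop
  have h2k : ∀ k, 2 * h k ≤ k := fun k => by
    have a : (h k : ℝ) ≤ lam * k := Nat.floor_le (by positivity)
    have b : (0 : ℝ) ≤ k := k.cast_nonneg
    have : (2 * h k : ℝ) ≤ k := by nlinarith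
    exact_mod_cast this
  have t2 : Tendsto (fun k : ℕ => ((k - 2 * h k : ℕ) : ℝ) / k) atTop (𝓝 (1 - 2 * lam)) := by
    refine ((t1.const_mul 2).const_sub 1).congr' ?_
    filter_upwards [eventually_gt_atTop 0] with k hk
    rw [Nat.cast_sub (h2k k)]; push_cast; field_simp
  have t3 : Tendsto (fun k : ℕ => ((k - 1 : ℕ) : ℝ) / k) atTop (𝓝 1) := by
    have := t0.const_sub 1
    rw [sub_zero] at this
    refine this.congr' ?_
    filter_upwards [eventually_gt_atTop 0] with k hk
    rw [Nat.cast_sub hk]; push_cast; field_simp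
  have c1 := choose_lim one_pos t3 d
  have c2 := choose_lim (by linarith) t2 d
  have c3 := choose_lim hl0 t1 s
  rw [one_pow] at c1
  have ne1 : (1 : ℝ) / d.factorial ≠ 0 := by positivity
  have t4 : Tendsto (fun k : ℕ => (1 / (k : ℝ)) ^ d) atTop (𝓝 0) := by
    have := t0.pow d
    rwa [zero_pow hd1] at this
  have tX := (((t0.const_mul (r * M : ℝ)).add_const ((1 - η) ^ M)).add t0).add
    ((((t1.const_mul 2).const_mul (1 + ε)).mul (t4.const_add η)).div c1 ne1)
  have tI := (c2.const_mul (1 + ε)).div c1 ne1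
  have tII := t1.const_mul (ε / 2)
  have tIII := (c3.const_mul (1 + ε)).div c1 ne1
  have lt1 : r * M * 0 + (1 - η) ^ M + 0 + (1 + ε) * (2 * lam) * (η + 0) / (1 / d.factorial)
      < μ := by
    simp only [mul_zero, zero_add, add_zero]; linarith
  have eI := tI.eventually (lt_mem_nhds (show 1 + ε / 2 <
      (1 + ε) * ((1 - 2 * lam) ^ d / d.factorial) / (1 / d.factorial) by
    refine hl2.trans_le (le_of_eq ?_); field_simp))
  have eII := tX.eventually_lt tII (lt1.trans_le ((min_le_left _ _).trans (le_of_eq (by ring))))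
  have eIII := tX.eventually_lt tIII (lt1.trans_le (min_le_right _ _))
  filter_upwards [eI, eII, eIII, eventually_ge_atTop s] with k eI eII eIII hk
  have hk0 : (0 : ℝ) < k := by exact_mod_cast (by omega : 0 < k)
  have hC : (0 : ℝ) < (k - 1).choose d := by exact_mod_cast Nat.choose_pos (by omega)
  simp only [Pi.div_apply] at eI eII eIII
  set δ := (1 + ε) / ((k - 1).choose d : ℝ) with hδ
  have hδ0 : 0 < δ := by positivity
  set X := r * M + (1 - η) ^ M * k + 1 + δ * ((2 * h k : ℕ) * (η * (k : ℝ) ^ d + 1)) with hX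
  have eX : (r * M : ℝ) * (1 / k) + (1 - η) ^ M + 1 / k + (1 + ε) * (2 * ((h k : ℝ) / k)) *
      (η + (1 / (k : ℝ)) ^ d) / (((k - 1).choose d : ℝ) / (k : ℝ) ^ d) = X / k := by
    rw [hX, hδ, one_div_pow]; push_cast; field_simp
  rw [eX] at eII eIII
  have fI : 1 + ε / 2 ≤ δ * (k - 2 * h k).choose d := by
    refine eI.le.trans (le_of_eq ?_); rw [hδ]; field_simp
  have fII : X ≤ ε / 2 * h k := by
    rw [← mul_div_assoc, div_lt_div_iff_of_pos_right hk0] at eII
    exact eII.le
  have fIII : X ≤ δ * (h k).choose s := by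
    rw [div_lt_iff₀ hk0] at eIII
    refine eIII.le.trans (le_of_eq ?_)
    rw [hδ]
    conv_lhs => rw [hsd, pow_succ, ← hsd]
    field_simp
  have p1 : 0 ≤ (1 - η) ^ M * k := by have : 0 ≤ 1 - η := by linarith
                                      positivity
  have p2 : (0 : ℝ) ≤ r * M := by positivity
  have mono : ∀ l, h k ≤ l → δ * (h k).choose s ≤ δ * l.choose s := fun l hl =>
    mul_le_mul_of_nonneg_left (by exact_mod_cast Nat.choose_le_choose s hl) hδ0.le
  refine bottleneck_of (l0 := 2 * h k) (M := M) hrs (by omega) (by omega) (h2k k) hη0 hη1 hδ0.le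
    ?_ fun l' hl' => ?_
  · refine lt_of_mul_lt_mul_left ?_ hδ0.le
    have a := fIII.trans (mono (2 * h k) (by omega))
    have b : 0 ≤ δ * (2 * h k : ℕ) := by positivity
    rw [hX] at a
    rw [← hd]
    linarith
  · rw [← hd]
    have a := mul_le_mul_of_nonneg_left fI (l'.cast_nonneg (α := ℝ))
    have b : 0 ≤ δ * (2 * h k - l').choose s := by positivity
    have c : (0 : ℝ) ≤ ε / 2 * l' := by positivity
    rw [hX] at fII fIII
    rcases le_total (h k) l' with hh | hh
    · have : ε / 2 * h k ≤ ε / 2 * l' :=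
        mul_le_mul_of_nonneg_left (by exact_mod_cast hh) (by positivity)
      linarith
    · have := mono (2 * h k - l') (by omega)
      linarith

end Pool.Agent.SemiRandom
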