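import Pool.Agent.P.MP_c53d0e_pr.Lower

set_option autoImplicit false
set_option linter.unusedSectionVars false

namespace Pool.Agent.SemiRandom

open Finset Filter Topology

variable {k : ℕ}

lemma clo_mono (P : Finset (Finset (Fin k))) (u : Finset (Fin k) → Finset (Fin k))
    {g g' : Finset (Fin k)} (h : g ⊆ g') : clo P u g ⊆ clo P u g' := by
  intro x hx
  simp only [clo, mem_filter, mem_univ, true_and] at hx ⊢
  rcases hx with hx | ⟨e, he, h1, h2⟩
  · exact Or.inl (h hx)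
  · exact Or.inr ⟨e, he, h1.trans h, h2⟩

lemma greedy {r s : ℕ} (hrs : r < s) (hrk : r ≤ k) (hk : 0 < k) {P : Finset (Finset (Fin k))}
    {u : Finset (Fin k) → Finset (Fin k)} (hP : ∀ e ∈ P, e.card = s ∧ u e ⊆ e ∧ (u e).card = r)
    {η : ℝ} (hη : 0 ≤ η) (hη1 : η ≤ 1) {H : Finset (Fin k)}
    (hH : ∀ x ∈ H, η * (k : ℝ) ^ (s - 1) ≤ #{e ∈ P | x ∈ e ∧ x ∉ u e}) (M : ℕ) :
    ∃ g : Finset (Fin k), g.card ≤ r * M ∧ (#(H \ clo P u g) : ℝ) ≤ (1 - η) ^ M * k := by
  classical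
  set 𝒮 : Finset (Finset (Fin k)) := univ.powersetCard r with h𝒮
  have c𝒮 : 𝒮.card = k.choose r := by simp [h𝒮]
  have cov : ∀ x ∈ H, η * 𝒮.card ≤ #{U ∈ 𝒮 | ∃ e ∈ P, u e = U ∧ x ∈ e} := by
    intro x hx
    have h1 : #{e ∈ P | x ∈ e ∧ x ∉ u e} ≤
        k ^ (s - r - 1) * #{U ∈ 𝒮 | ∃ e ∈ P, u e = U ∧ x ∈ e} := by
      refine card_le_mul_card_image_of_maps_to (f := u) (fun e he => ?_) _ fun U _ => ?_
      · obtain ⟨h1, h2, -⟩ := mem_filter.1 he
        exact mem_filter.2 ⟨mem_powersetCard.2 ⟨subset_univ _, (hP e h1).2.2⟩, e, h1, rfl, h2⟩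
      · refine le_trans (card_le_card_of_injOn (t := univ.powersetCard (s - r - 1))
          (fun e => (e \ U).erase x) (fun e he => ?_) fun e he e' he' hh => ?_) ?_
        · simp only [coe_filter, mem_filter, Set.mem_ofPred_eq] at he
          obtain ⟨⟨h1, h2, h3⟩, rfl⟩ := he
          obtain ⟨a, b, c⟩ := hP e h1
          simp only [mem_coe, mem_powersetCard, subset_univ, true_and]
          rw [card_erase_of_mem (mem_sdiff.2 ⟨h2, h3⟩), card_sdiff_of_subset b, a, c]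
        · simp only [coe_filter, mem_filter, Set.mem_ofPred_eq] at he he'
          obtain ⟨⟨h1, h2, h3⟩, h4⟩ := he
          obtain ⟨⟨h1', h2', h3'⟩, h4'⟩ := he'
          have a := insert_erase (mem_sdiff.2 ⟨h2, h4 ▸ h3⟩ : x ∈ e \ U)
          have a' := insert_erase (mem_sdiff.2 ⟨h2', h4' ▸ h3'⟩ : x ∈ e' \ U)
          dsimp only at hh
          rw [hh, a'] at a
          rw [← sdiff_union_of_subset (h4 ▸ (hP e h1).2.1 : U ⊆ e), ← a,
            sdiff_union_of_subset (h4' ▸ (hP e' h1').2.1 : U ⊆ e')]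
        · simp only [card_powersetCard, card_univ, Fintype.card_fin]
          exact Nat.choose_le_pow _ _
    have h2 : (#{e ∈ P | x ∈ e ∧ x ∉ u e} : ℝ) ≤
        k ^ (s - r - 1) * #{U ∈ 𝒮 | ∃ e ∈ P, u e = U ∧ x ∈ e} := by exact_mod_cast h1
    have h3 := (hH x hx).trans h2
    have h4 : (k : ℝ) ^ (s - 1) = k ^ (s - r - 1) * k ^ r := by
      rw [← pow_add]; congr 1; omega
    have h5 : (0 : ℝ) < k ^ (s - r - 1) := by positivity
    rw [h4, mul_left_comm] at h3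
    have h6 := le_of_mul_le_mul_left h3 h5
    have h7 : (𝒮.card : ℝ) ≤ k ^ r := by rw [c𝒮]; exact_mod_cast Nat.choose_le_pow k r
    exact (mul_le_mul_of_nonneg_left h7 hη).trans h6
  have one : ∀ H' ⊆ H, ∃ U ∈ 𝒮, η * H'.card ≤ #{x ∈ H' | ∃ e ∈ P, u e = U ∧ x ∈ e} := by
    intro H' hH'
    refine exists_le_of_sum_le (card_pos.1 (by rw [c𝒮]; exact Nat.choose_pos hrk)) ?_
    have : ∑ U ∈ 𝒮, (#{x ∈ H' | ∃ e ∈ P, u e = U ∧ x ∈ e} : ℝ) =
        ∑ x ∈ H', (#{U ∈ 𝒮 | ∃ e ∈ P, u e = U ∧ x ∈ e} : ℝ) := by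
      simp only [card_filter, Nat.cast_sum]
      exact sum_comm
    rw [this]
    refine le_trans (le_of_eq ?_) (sum_le_sum fun x hx => cov x (hH' hx))
    simp only [sum_const, nsmul_eq_mul]; ring
  induction M with
  | zero =>
    refine ⟨∅, by simp, ?_⟩
    have := card_le_univ (H \ clo P u ∅)
    rw [Fintype.card_fin] at this
    simpa using this
  | succ M ih =>
    obtain ⟨g, hg, hc⟩ := ih
    obtain ⟨U, hU, h1⟩ := one (H \ clo P u g) sdiff_subset
    refine ⟨g ∪ U, ?_, ?_⟩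
    · have := card_union_le g U
      rw [(mem_powersetCard.1 hU).2] at this
      rw [mul_add]; omega
    · have h2 : #(H \ clo P u (g ∪ U)) + #{x ∈ H \ clo P u g | ∃ e ∈ P, u e = U ∧ x ∈ e} ≤
          #(H \ clo P u g) := by
        rw [← card_union_of_disjoint]
        · exact card_le_card (union_subset
            (sdiff_subset_sdiff Subset.rfl (clo_mono P u subset_union_left)) (filter_subset _ _))
        · rw [disjoint_left]
          intro x hx hx'
          obtain ⟨e, he, h3, h4⟩ := (mem_filter.1 hx').2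
          exact (mem_sdiff.1 hx).2 (mem_filter.2 ⟨mem_univ _,
            Or.inr ⟨e, he, h3 ▸ subset_union_right, h4⟩⟩)
      have h3 : (#(H \ clo P u (g ∪ U)) : ℝ) + #{x ∈ H \ clo P u g | ∃ e ∈ P, u e = U ∧ x ∈ e} ≤
          #(H \ clo P u g) := by exact_mod_cast h2
      have h4 := mul_le_mul_of_nonneg_left hc (sub_nonneg.2 hη1)
      rw [pow_succ]
      nlinarith

lemma count_F {s : ℕ} (hs : 1 ≤ s) {L L' : Finset (Fin k)} (h : L' ⊆ L) :
    L'.card * (k - L.card).choose (s - 1) ≤ #{e ∈ clique k s | ¬ Disjoint e L'} := by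
  have : L'.card * (k - L.card).choose (s - 1) = #(L' ×ˢ Lᶜ.powersetCard (s - 1)) := by
    simp [card_compl]
  rw [this]
  have nm : ∀ p ∈ L' ×ˢ Lᶜ.powersetCard (s - 1), ∀ z ∈ L, z ∉ p.2 := fun p hp z hz hz' =>
    mem_compl.1 ((mem_powersetCard.1 (mem_product.1 hp).2).1 hz') hz
  refine card_le_card_of_injOn (fun p => insert p.1 p.2) (fun p hp => ?_) fun p hp q hq hh => ?_
  · have hp' := mem_product.1 hp
    simp only [coe_filter, clique, mem_powersetCard, subset_univ, true_and, Set.mem_ofPred_eq]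
    refine ⟨?_, not_disjoint_iff.2 ⟨p.1, mem_insert_self _ _, hp'.1⟩⟩
    rw [card_insert_of_notMem (nm p hp _ (h hp'.1)), (mem_powersetCard.1 hp'.2).2]; omega
  · dsimp only at hh
    have hp' := mem_product.1 hp
    have hq' := mem_product.1 hq
    have e1 : p.1 = q.1 := by
      have : p.1 ∈ insert q.1 q.2 := hh ▸ mem_insert_self _ _
      exact (mem_insert.1 this).resolve_right (nm q hq _ (h hp'.1))
    refine Prod.ext e1 ?_
    rw [← erase_insert (nm p hp _ (h hp'.1)), hh, e1, erase_insert (nm q hq _ (h hq'.1))]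

lemma bottleneck_of {r s l0 M : ℕ} (hrs : r < s) (hrk : r ≤ k) (hk : 0 < k) (hl : l0 ≤ k)
    {η δ : ℝ} (hη : 0 < η) (hη1 : η ≤ 1) (hδ : 0 ≤ δ)
    (hb : l0 * (η * (k : ℝ) ^ (s - 1)) < l0.choose s)
    (hc : ∀ l' ≤ l0, r * M + (1 - η) ^ M * k + l' + 1 ≤
      δ * (l' * (k - l0).choose (s - 1) + (l0 - l').choose s - l0 * (η * (k : ℝ) ^ (s - 1) + 1))) :
    Bottleneck (clique k s) r δ := by
  classical
  intro j u hj hu
  set E := clique k s with hE
  have hEs : ∀ e ∈ E, e.card = s := fun e he => (mem_powersetCard.1 he).2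
  let D : ℕ → Fin k → Finset (Finset (Fin k)) := fun θ x =>
    {e ∈ ({e ∈ E | j e < θ} : Finset _) | x ∈ e ∧ x ∉ u e}
  let Lt : ℕ → Finset (Fin k) := fun θ => {x | (#(D θ x) : ℝ) < η * (k : ℝ) ^ (s - 1)}
  have out : ∀ e ∈ E, ∃ x ∈ e, x ∉ u e := fun e he =>
    exists_mem_notMem_of_card_lt_card (by rw [(hu e he).2, hEs e he]; exact hrs)
  have hex : ∃ θ, #(Lt θ) < l0 := by
    refine ⟨E.sup j + 1, ?_⟩
    by_contra hcon
    obtain ⟨L, hL, hcard⟩ := exists_subset_card_eq (not_lt.1 hcon)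
    have h1 : L.powersetCard s ⊆ L.biUnion (D (E.sup j + 1)) := by
      intro e he
      obtain ⟨h1, h2⟩ := mem_powersetCard.1 he
      have heE : e ∈ E := mem_powersetCard.2 ⟨subset_univ _, h2⟩
      obtain ⟨x, hx, hx'⟩ := out e heE
      exact mem_biUnion.2 ⟨x, h1 hx, mem_filter.2
        ⟨mem_filter.2 ⟨heE, Nat.lt_succ_of_le (le_sup heE)⟩, hx, hx'⟩⟩
    have h2 := (card_le_card h1).trans card_biUnion_le
    rw [card_powersetCard, hcard] at h2
    have h3 : (l0.choose s : ℝ) ≤ ∑ x ∈ L, (#(D (E.sup j + 1) x) : ℝ) := by exact_mod_cast h2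
    have h4 := sum_le_sum fun x (hx : x ∈ L) => (mem_filter.1 (hL hx)).2.le
    rw [sum_const, hcard, nsmul_eq_mul] at h4
    linarith
  have h0 : ¬ #(Lt 0) < l0 := by
    have : Lt 0 = univ := by
      ext x
      simp only [Lt, D, Nat.not_lt_zero, filter_false, filter_empty, card_empty, mem_filter,
        mem_univ, true_and, iff_true, Nat.cast_zero]
      positivity
    rw [this, card_univ, Fintype.card_fin]; omega
  obtain ⟨θ, hθ⟩ : ∃ θ, Nat.find hex = θ + 1 := Nat.exists_eq_succ_of_ne_zero fun h =>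
    h0 (h ▸ Nat.find_spec hex)
  have a1 : #(Lt (θ + 1)) < l0 := hθ ▸ Nat.find_spec hex
  have a2 : l0 ≤ #(Lt θ) := not_lt.1 (Nat.find_min hex (by omega))
  have Dm : ∀ x, D θ x ⊆ D (θ + 1) x := fun x =>
    filter_subset_filter _ (monotone_filter_right _ fun e _ h => Nat.lt_succ_of_lt h)
  have a3 : Lt (θ + 1) ⊆ Lt θ := fun x hx => mem_filter.2 ⟨mem_univ _,
    lt_of_le_of_lt (by exact_mod_cast card_le_card (Dm x)) (mem_filter.1 hx).2⟩
  obtain ⟨L, hL1, hL2, hLc⟩ := exists_subsuperset_card_eq a3 a1.le a2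
  have D1 : ∀ x, #(D (θ + 1) x) ≤ #(D θ x) + 1 := by
    intro x
    have h1 : D (θ + 1) x ⊆ D θ x ∪ {e ∈ E | j e = θ} := by
      intro e he
      obtain ⟨h1, h2⟩ := mem_filter.1 he
      obtain ⟨h3, h4⟩ := mem_filter.1 h1
      rcases Nat.lt_succ_iff_lt_or_eq.1 h4 with h | h
      · exact mem_union_left _ (mem_filter.2 ⟨mem_filter.2 ⟨h3, h⟩, h2⟩)
      · exact mem_union_right _ (mem_filter.2 ⟨h3, h⟩)
    have h2 : #{e ∈ E | j e = θ} ≤ 1 := card_le_one.2 fun a ha b hb =>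
      hj (mem_filter.1 ha).1 (mem_filter.1 hb).1
        ((mem_filter.1 ha).2.trans (mem_filter.1 hb).2.symm)
    have := (card_le_card h1).trans (card_union_le _ _)
    omega
  set P : Finset (Finset (Fin k)) := {e ∈ E | j e < θ + 1} with hP
  obtain ⟨g0, hg0, hg1⟩ := greedy hrs hrk hk (P := P) (u := u)
    (fun e he => ⟨hEs e (mem_filter.1 he).1, hu e (mem_filter.1 he).1⟩) hη.le hη1 (H := Lᶜ)
    (fun x hx => not_lt.1 fun h => mem_compl.1 hx (hL1 (mem_filter.2 ⟨mem_univ _, h⟩))) M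
  refine ⟨θ + 1, g0 ∪ (Lᶜ \ clo P u g0), fun R hR => ?_⟩
  have hR' : Rᶜ ⊆ L := by
    rw [← compl_compl L, compl_subset_compl]
    refine Subset.trans (fun x hx => ?_) hR
    by_cases h : x ∈ clo P u g0
    · exact clo_mono P u subset_union_left h
    · exact mem_filter.2 ⟨mem_univ _, Or.inl (mem_union_right _ (mem_sdiff.2 ⟨hx, h⟩))⟩
  have cR : #Rᶜ = k - #R := by rw [card_compl, Fintype.card_fin]
  have b1 := count_F (by omega : 1 ≤ s) hR'
  have b2 : {e ∈ E | ¬ Disjoint e Rᶜ} ∪ (L \ Rᶜ).powersetCard s ⊆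
      ({e ∈ P | ¬ u e ⊆ R} ∪ (E \ P)) ∪ L.biUnion (D (θ + 1)) := by
    intro e he
    have heE : e ∈ E := by
      rcases mem_union.1 he with h | h
      · exact (mem_filter.1 h).1
      · exact mem_powersetCard.2 ⟨subset_univ _, (mem_powersetCard.1 h).2⟩
    by_cases h1 : e ∈ P
    · by_cases h2 : u e ⊆ R
      · refine mem_union_right _ (mem_biUnion.2 ?_)
        rcases mem_union.1 he with h | h
        · obtain ⟨x, hx, hx'⟩ := not_disjoint_iff.1 (mem_filter.1 h).2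
          exact ⟨x, hR' hx', mem_filter.2 ⟨h1, hx, fun hh => mem_compl.1 hx' (h2 hh)⟩⟩
        · obtain ⟨x, hx, hx'⟩ := out e heE
          exact ⟨x, (mem_sdiff.1 ((mem_powersetCard.1 h).1 hx)).1, mem_filter.2 ⟨h1, hx, hx'⟩⟩
      · exact mem_union_left _ (mem_union_left _ (mem_filter.2 ⟨h1, h2⟩))
    · exact mem_union_left _ (mem_union_right _ (mem_sdiff.2 ⟨heE, h1⟩))
  have b3 : Disjoint {e ∈ E | ¬ Disjoint e Rᶜ} ((L \ Rᶜ).powersetCard s) := by
    rw [disjoint_left]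
    intro e h1 h2
    exact (mem_filter.1 h1).2 (disjoint_of_subset_left (mem_powersetCard.1 h2).1 sdiff_disjoint)
  have b4 := (card_le_card b2).trans ((card_union_le _ _).trans
    (add_le_add (card_union_le _ _) card_biUnion_le))
  rw [card_union_of_disjoint b3, card_powersetCard, card_sdiff_of_subset hR', hLc] at b4
  rw [hLc] at b1
  have b5 : (#Rᶜ * (k - l0).choose (s - 1) + (l0 - #Rᶜ).choose s : ℝ) ≤
      #{e ∈ P | ¬ u e ⊆ R} + #(E \ P) + ∑ x ∈ L, (#(D (θ + 1) x) : ℝ) := by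
    exact_mod_cast (add_le_add_left b1 _).trans b4
  have b6 : ∑ x ∈ L, (#(D (θ + 1) x) : ℝ) ≤ l0 * (η * (k : ℝ) ^ (s - 1) + 1) := by
    rw [← hLc, ← nsmul_eq_mul, ← sum_const]
    refine sum_le_sum fun x hx => ?_
    have h1 : (#(D (θ + 1) x) : ℝ) ≤ #(D θ x) + 1 := by exact_mod_cast D1 x
    linarith [(mem_filter.1 (hL2 hx)).2]
  have b7 := hc #Rᶜ (hLc ▸ card_le_card hR')
  have b8 : (#(g0 ∪ (Lᶜ \ clo P u g0)) : ℝ) ≤ r * M + #(Lᶜ \ clo P u g0) := by
    exact_mod_cast (card_union_le _ _).trans (add_le_add_left hg0 _)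
  rw [← cR]
  refine le_trans (by linarith) (b7.trans (mul_le_mul_of_nonneg_left (by linarith) hδ))

end Pool.Agent.SemiRandom
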