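import Mathlib

set_option autoImplicit false

/-! The `(r,s)` semi-random hypergraph process and its subgraph threshold exponent. -/

namespace Pool.Agent.SemiRandom

open Filter Topology

/-- A randomised strategy: after history `h` and random draw `U`, answer `V` with probability
`w h U V`. -/
structure Strategy (α β : Type) [Fintype β] where
  w : List (α × β) → α → β → ℝ
  nonneg : ∀ h U V, 0 ≤ w h U V
  sum_one : ∀ h U, ∑ V, w h U V = 1

/-- Expectation of `f` at the history reached from `h` after `t` more rounds: each round `U` is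
uniform and independent of the past, and `V` is drawn by the strategy. -/
noncomputable def Ex {α β : Type} [Fintype α] [Fintype β] (S : Strategy α β) :
    ℕ → List (α × β) → (List (α × β) → ℝ) → ℝ
  | 0, h, f => f h
  | t + 1, h, f => (∑ U, ∑ V, S.w h U V * Ex S t (h ++ [(U, V)]) f) / Fintype.card α

/-- `r`-element subsets of `[n]`. -/
abbrev RSet (n r : ℕ) : Type := {U : Finset (Fin n) // U.card = r}

/-- Multisets of `s - r` vertices of `[n]`. -/
abbrev Move (n r s : ℕ) : Type := Sym (Fin n) (s - r)

/-- The edge `U ∪ V` of a round, as a multiset. -/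
def edge {n r s : ℕ} (x : RSet n r × Move n r s) : Multiset (Fin n) := x.1.1.val + x.2.1

/-- The hypergraph built by history `h` contains a copy of `G`. -/
def Contains {n r s k : ℕ} (G : Finset (Finset (Fin k))) (h : List (RSet n r × Move n r s)) :
    Prop :=
  ∃ φ : Fin k ↪ Fin n, ∀ e ∈ G, ∃ x ∈ h, edge x = (e.map φ).val

open Classical in
/-- Probability that `H_t` contains `G`. -/
noncomputable def winProb {n r s k : ℕ} (G : Finset (Finset (Fin k)))
    (S : Strategy (RSet n r) (Move n r s)) (t : ℕ) : ℝ :=
  Ex S t [] (fun h => if Contains G h then 1 else 0)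

/-- `τ(q,n)`: infimum over strategies of the least `t` with success probability at least `q`. -/
noncomputable def tauN {k : ℕ} (G : Finset (Finset (Fin k))) (r s : ℕ) (q : ℝ) (n : ℕ) : ℕ∞ :=
  ⨅ S : Strategy (RSet n r) (Move n r s), ⨅ (t : ℕ) (_ : q ≤ winProb G S t), (t : ℕ∞)

/-- `limsup_n ln τ(q,n) / ln n`. -/
noncomputable def tauQ {k : ℕ} (G : Finset (Finset (Fin k))) (r s : ℕ) (q : ℝ) : EReal :=
  limsup (fun n : ℕ => ENNReal.log (tauN G r s q n) / (Real.log n : EReal)) atTop

/-- The threshold exponent: the limit of `tauQ` as `q → 1⁻`. -/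
noncomputable def tau {k : ℕ} (G : Finset (Finset (Fin k))) (r s : ℕ) : EReal :=
  limUnder (𝓝[<] (1 : ℝ)) (tauQ G r s)

/-- The complete `s`-graph on `k` vertices. -/
def clique (k s : ℕ) : Finset (Finset (Fin k)) := Finset.univ.powersetCard s

end Pool.Agent.SemiRandom
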