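import Pool.Agent.P.MP_c53d0e_pr.Defs

set_option autoImplicit false
set_option linter.unusedSectionVars false

namespace Pool.Agent.SemiRandom

open Finset

variable {α β : Type} [Fintype α] [Fintype β] [Nonempty α] (S : Strategy α β)

lemma card_pos' : (0 : ℝ) < Fintype.card α := by exact_mod_cast Fintype.card_pos

lemma Ex_mono (t : ℕ) : ∀ (h : List (α × β)) (f g : List (α × β) → ℝ),
    (∀ l : List (α × β), l.length = t → f (h ++ l) ≤ g (h ++ l)) → Ex S t h f ≤ Ex S t h g := by
  induction t with
  | zero => intro h f g H; simpa [Ex] using H [] rfl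
  | succ t ih =>
    intro h f g H
    simp only [Ex]
    refine div_le_div_of_nonneg_right (sum_le_sum fun U _ => sum_le_sum fun V _ =>
      mul_le_mul_of_nonneg_left (ih _ _ _ fun l hl => ?_) (S.nonneg _ _ _)) card_pos'.le
    rw [List.append_assoc]
    exact H _ (by simp [hl])

lemma Ex_const (t : ℕ) : ∀ (h : List (α × β)) (c : ℝ), Ex S t h (fun _ => c) = c := by
  induction t with
  | zero => intro h c; rfl
  | succ t ih =>
    intro h c
    simp only [Ex, ih, ← sum_mul, S.sum_one, one_mul, sum_const, card_univ, nsmul_eq_mul]
    exact mul_div_cancel_left₀ _ card_pos'.ne'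

lemma Ex_add (t : ℕ) : ∀ (h : List (α × β)) (f g : List (α × β) → ℝ),
    Ex S t h (fun l => f l + g l) = Ex S t h f + Ex S t h g := by
  induction t with
  | zero => intro h f g; rfl
  | succ t ih =>
    intro h f g
    simp only [Ex, ih, mul_add, sum_add_distrib, add_div]

lemma Ex_mul (c : ℝ) (t : ℕ) : ∀ (h : List (α × β)) (f : List (α × β) → ℝ),
    Ex S t h (fun l => c * f l) = c * Ex S t h f := by
  induction t with
  | zero => intro h f; rfl
  | succ t ih =>
    intro h f
    simp only [Ex, ih, mul_left_comm _ c, ← mul_sum, mul_div_assoc]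

lemma Ex_sum {ι : Type*} (I : Finset ι) (t : ℕ) (h : List (α × β)) (f : ι → List (α × β) → ℝ) :
    Ex S t h (fun l => ∑ i ∈ I, f i l) = ∑ i ∈ I, Ex S t h (f i) := by
  classical
  induction I using Finset.induction_on with
  | empty => simpa using Ex_const S t h 0
  | insert a I ha ih => simp only [sum_insert ha, Ex_add, ih]

lemma Ex_nonneg (t : ℕ) (h : List (α × β)) (f : List (α × β) → ℝ) (hf : ∀ l, 0 ≤ f l) :
    0 ≤ Ex S t h f := by
  rw [← Ex_const S t h 0]; exact Ex_mono S t h _ _ fun l _ => hf _

variable {γ : Type} [DecidableEq γ] (ι : α → γ)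

/-- The multiset of random draws of a history. -/
def draws (l : List (α × β)) : Multiset γ := (l.map fun x => ι x.1 : List γ)

lemma draws_cons (x : α × β) (l : List (α × β)) : draws ι (x :: l) = ι x.1 ::ₘ draws ι l := rfl

lemma hit (hι : Function.Injective ι) (t : ℕ) : ∀ (h : List (α × β)) (w : Multiset γ),
    Ex S t h (fun l => if w ≤ draws ι (l.drop h.length) then 1 else 0) ≤
      ((t : ℝ) / Fintype.card α) ^ w.card := by
  induction t with
  | zero =>
    intro h w
    simp only [Ex, List.drop_length, draws, List.map_nil, Multiset.coe_nil, Multiset.le_zero]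
    split_ifs with hw
    · simp [hw]
    · positivity
  | succ t ih =>
    intro h w
    have hN : (0 : ℝ) < Fintype.card α := card_pos'
    set a : ℝ := t / Fintype.card α with ha
    have ha0 : 0 ≤ a := by positivity
    have step : ∀ U V, Ex S t (h ++ [(U, V)])
        (fun l => if w ≤ draws ι (l.drop h.length) then 1 else 0) ≤
        a ^ w.card + if ι U ∈ w then a ^ (w.card - 1) else 0 := by
      intro U V
      refine (Ex_mono S t _ _ _ fun l _ => ?_).trans ((ih (h ++ [(U, V)]) (w.erase (ι U))).trans ?_)
      · rw [List.drop_left, List.append_assoc, List.drop_left]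
        simp only [List.singleton_append, draws_cons, Multiset.erase_le_iff_le_cons]
        exact le_of_eq (by congr)
      · split_ifs with hU
        · rw [Multiset.card_erase_of_mem hU, Nat.pred_eq_sub_one]
          linarith [pow_nonneg ha0 w.card]
        · rw [Multiset.erase_of_notMem hU, add_zero]
    simp only [Ex]
    rw [div_le_iff₀ hN]
    have h1 : ∑ U, ∑ V, S.w h U V * Ex S t (h ++ [(U, V)])
        (fun l => if w ≤ draws ι (l.drop h.length) then 1 else 0) ≤
        ∑ U, (a ^ w.card + if ι U ∈ w then a ^ (w.card - 1) else 0) := by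
      refine sum_le_sum fun U _ => ?_
      refine (sum_le_sum fun V _ => mul_le_mul_of_nonneg_left (step U V) (S.nonneg _ _ _)).trans ?_
      rw [← sum_mul, S.sum_one, one_mul]
    refine h1.trans ?_
    rw [sum_add_distrib, sum_const, card_univ, nsmul_eq_mul, ← sum_filter, sum_const, nsmul_eq_mul]
    have h2 : (#{U | ι U ∈ w} : ℝ) ≤ w.card := by
      have : #{U | ι U ∈ w} ≤ w.toFinset.card :=
        card_le_card_of_injOn ι (fun U hU => by simpa using hU) hι.injOn
      exact_mod_cast this.trans w.toFinset_card_le
    have h3 := pow_add_mul_le_add_pow ha0 (b := (1 : ℝ) / Fintype.card α) (by positivity) w.card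
    have h4 : ((t + 1 : ℕ) : ℝ) / Fintype.card α = a + 1 / Fintype.card α := by
      rw [ha]; push_cast; ring
    rw [h4]
    have h5 := mul_le_mul_of_nonneg_right h3 hN.le
    have h6 := mul_le_mul_of_nonneg_right h2 (pow_nonneg ha0 (w.card - 1))
    have h7 : (w.card : ℝ) * a ^ (w.card - 1) * (1 / Fintype.card α) * Fintype.card α =
        w.card * a ^ (w.card - 1) := by field_simp
    nlinarith

open Classical in
lemma stop (hι : Function.Injective ι) (C : List (α × β) → Prop)
    (hC : ∀ h l, C h → C (h ++ l)) (w : Multiset γ) (t : ℕ) : ∀ h : List (α × β),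
    Ex S t h (fun l => if ∃ l1 l2, l = h ++ l1 ++ l2 ∧ C (h ++ l1) ∧ w ≤ draws ι l2 then 1 else 0)
      ≤ ((t : ℝ) / Fintype.card α) ^ w.card * Ex S t h (fun l => if C l then 1 else 0) := by
  have yes : ∀ (t : ℕ) (h : List (α × β)), C h →
      Ex S t h (fun l => if ∃ l1 l2, l = h ++ l1 ++ l2 ∧ C (h ++ l1) ∧ w ≤ draws ι l2 then 1 else 0)
      ≤ ((t : ℝ) / Fintype.card α) ^ w.card * Ex S t h (fun l => if C l then 1 else 0) := by
    intro t h hh
    have h1 : (1 : ℝ) ≤ Ex S t h (fun l => if C l then 1 else 0) := by
      rw [← Ex_const S t h 1]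
      exact (Ex_mono S t h _ _ fun l _ => by rw [Ex_const, if_pos (hC h l hh)])
    refine le_trans ?_ (le_mul_of_one_le_right (by positivity) h1)
    refine (Ex_mono S t h _ _ fun l _ => ?_).trans (hit S ι hι t h w)
    rw [List.drop_left]
    split_ifs with a b
    · exact le_rfl
    · exfalso
      obtain ⟨l1, l2, e, -, hw⟩ := a
      rw [List.append_assoc, List.append_cancel_left_eq] at e
      refine b (hw.trans ?_)
      rw [e, draws, draws, List.map_append, ← Multiset.coe_add]
      exact Multiset.le_add_left _ _
    · exact zero_le_one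
    · exact le_rfl
  induction t with
  | zero =>
    intro h
    by_cases hh : C h
    · exact yes 0 h hh
    · simp only [Ex, if_neg hh, mul_zero]
      rw [if_neg]
      rintro ⟨l1, l2, e, hc, -⟩
      rw [List.append_assoc, List.self_eq_append_right, List.append_eq_nil_iff] at e
      rw [e.1, List.append_nil] at hc
      exact hh hc
  | succ t ih =>
    intro h
    by_cases hh : C h
    · exact yes _ h hh
    simp only [Ex]
    rw [← mul_div_assoc, mul_sum]
    refine div_le_div_of_nonneg_right (sum_le_sum fun U _ => ?_) card_pos'.le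
    rw [mul_sum]
    refine sum_le_sum fun V _ => ?_
    rw [mul_left_comm]
    refine mul_le_mul_of_nonneg_left ?_ (S.nonneg _ _ _)
    refine (Ex_mono S t _ _ _ fun l _ => ?_).trans ((ih (h ++ [(U, V)])).trans ?_)
    · split_ifs with a b
      · exact le_rfl
      · exfalso
        obtain ⟨l1, l2, e, hc, hw⟩ := a
        cases l1 with
        | nil => exact hh (by simpa using hc)
        | cons x l1 =>
          simp only [List.append_assoc, List.append_cancel_left_eq, List.cons_append,
            List.nil_append, List.cons.injEq] at e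
          obtain ⟨rfl, rfl⟩ := e
          exact b ⟨l1, l2, by simp, by simpa using hc, hw⟩
      · exact zero_le_one
      · exact le_rfl
    · refine mul_le_mul_of_nonneg_right (pow_le_pow_left₀ (by positivity) ?_ _)
        (Ex_nonneg S _ _ _ fun l => by positivity)
      refine div_le_div_of_nonneg_right ?_ card_pos'.le
      push_cast; linarith

/-- The value of the game for a player maximising the expectation of `f`. -/
noncomputable def val [Nonempty β] : ℕ → List (α × β) → (List (α × β) → ℝ) → ℝ
  | 0, h, f => f h
  | t + 1, h, f => (∑ U, univ.sup' univ_nonempty fun V => val t (h ++ [(U, V)]) f) / Fintype.card α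

lemma exists_strategy [Nonempty β] (T : ℕ) (f : List (α × β) → ℝ) :
    ∃ S : Strategy α β, Ex S T [] f = val T [] f := by
  classical
  have : ∀ (h : List (α × β)) (U : α), ∃ V, (univ.sup' univ_nonempty fun V =>
      val (T - h.length - 1) (h ++ [(U, V)]) f) = val (T - h.length - 1) (h ++ [(U, V)]) f :=
    fun h U => by
      obtain ⟨V, -, hV⟩ := exists_mem_eq_sup' univ_nonempty
        fun V => val (T - h.length - 1) (h ++ [(U, V)]) f
      exact ⟨V, hV⟩
  choose σ hσ using this
  let S : Strategy α β := ⟨fun h U V => if V = σ h U then 1 else 0,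
    fun h U V => by positivity, fun h U => by simp⟩
  have key : ∀ t (h : List (α × β)), h.length + t = T → Ex S t h f = val t h f := by
    intro t
    induction t with
    | zero => intro h _; rfl
    | succ t ih =>
      intro h hh
      simp only [Ex, val]
      congr 1
      refine sum_congr rfl fun U _ => ?_
      have e : T - h.length - 1 = t := by omega
      have := hσ h U
      rw [e] at this
      rw [this]
      simp only [S, ite_mul, one_mul, zero_mul, sum_ite_eq', mem_univ, if_true]
      exact ih _ (by simp; omega)
  exact ⟨S, key T [] (by simp)⟩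

lemma val_add [Nonempty β] (a b : ℕ) : ∀ (h : List (α × β)) (f : List (α × β) → ℝ),
    val (a + b) h f = val a h (fun l => val b l f) := by
  induction a with
  | zero => intro h f; simp [val]
  | succ a ih =>
    intro h f
    rw [Nat.add_right_comm]
    simp only [val, ih]

lemma val_mono [Nonempty β] (t : ℕ) : ∀ (h : List (α × β)) (f g : List (α × β) → ℝ),
    (∀ l : List (α × β), f (h ++ l) ≤ g (h ++ l)) → val t h f ≤ val t h g := by
  induction t with
  | zero => intro h f g H; simpa [val] using H []
  | succ t ih =>
    intro h f g H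
    simp only [val]
    refine div_le_div_of_nonneg_right (sum_le_sum fun U _ => ?_) card_pos'.le
    refine sup'_le _ _ fun V _ => le_trans (ih _ _ _ fun l => ?_)
      (le_sup' (fun V => val t (h ++ [(U, V)]) g) (mem_univ V))
    rw [List.append_assoc]
    exact H _

lemma val_sub_const [Nonempty β] (c : ℝ) (t : ℕ) : ∀ (h : List (α × β)) (f : List (α × β) → ℝ),
    val t h f - c ≤ val t h (fun l => f l - c) := by
  induction t with
  | zero => intro h f; exact le_rfl
  | succ t ih =>
    intro h f
    simp only [val]
    have hN : (0 : ℝ) < Fintype.card α := card_pos'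
    rw [le_div_iff₀ hN, sub_mul, div_mul_cancel₀ _ hN.ne']
    have : c * Fintype.card α = ∑ _U : α, c := by simp [mul_comm]
    rw [this, ← sum_sub_distrib]
    refine sum_le_sum fun U _ => ?_
    rw [sub_le_iff_le_add]
    refine sup'_le _ _ fun V _ => ?_
    have := (ih (h ++ [(U, V)]) f).trans
      (le_sup' (fun V => val t (h ++ [(U, V)]) fun l => f l - c) (mem_univ V))
    linarith

lemma val_const_le [Nonempty β] (c : ℝ) (t : ℕ) : ∀ h : List (α × β),
    c ≤ val t h (fun _ => c) := by
  induction t with
  | zero => intro h; exact le_rfl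
  | succ t ih =>
    intro h
    simp only [val]
    have hN : (0 : ℝ) < Fintype.card α := card_pos'
    rw [le_div_iff₀ hN]
    have : c * Fintype.card α = ∑ _U : α, c := by simp [mul_comm]
    rw [this]
    refine sum_le_sum fun U _ => ?_
    obtain ⟨V⟩ := ‹Nonempty β›
    exact (ih _).trans (le_sup' (fun V => val t (h ++ [(U, V)]) fun _ => c) (mem_univ V))

end Pool.Agent.SemiRandom
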