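import Pool.Agent.P.MP_c53d0e_pr.UC1

set_option autoImplicit false
set_option linter.unusedSectionVars false

namespace Pool.Agent.SemiRandom.Und

open Finset

variable {V E : Type} [DecidableEq V] {ed : E → Finset V} {r : ℕ} {δ ε : ℝ}
  {ν : List (E × Finset V) → Finset V → Finset V → ℝ}

/-- Total duty paid by the vertex `v` on the edges of `l`. -/
noncomputable def paid (d : E → V → ℝ) (l : List (E × Finset V)) (v : V) : ℝ :=
  (l.map fun p => d p.1 v).sum

@[simp] lemma paid_nil (d : E → V → ℝ) (v : V) : paid d [] v = 0 := rfl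

lemma paid_cons (d : E → V → ℝ) (p : E × Finset V) (l : List (E × Finset V)) (v : V) :
    paid d (p :: l) v = d p.1 v + paid d l v := by simp [paid]

lemma paid_append (d : E → V → ℝ) (l l' : List (E × Finset V)) (v : V) :
    paid d (l ++ l') v = paid d l v + paid d l' v := by simp [paid]

lemma paid_eq_sum [Fintype E] [DecidableEq E] (d : E → V → ℝ) {l : List (E × Finset V)}
    (hl : (l.map Prod.fst).Nodup) (v : V) :
    paid d l v = ∑ e ∈ univ.filter (fun e => e ∈ l.map Prod.fst), d e v := by
  have h1 : univ.filter (fun e => e ∈ l.map Prod.fst) = (l.map Prod.fst).toFinset := by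
    ext e; simp
  rw [h1, List.sum_toFinset _ hl, List.map_map]
  rfl

/-- A played edge is determined by its random part. -/
lemma Calc.fd (H : Calc ed r δ ε ν) (hδ : 0 ≤ δ) (l : List (E × Finset V)) (hl : Valid ed r l)
    (p : E × Finset V) (hp : p ∈ l) (A B : Finset V) (hA : p.2 ⊆ A) (hB : B ⊆ A ∪ ed p.1) :
    ν l A B ≤ ε := by
  induction l with
  | nil => simp at hp
  | cons q l ih =>
    rcases List.mem_cons.1 hp with rfl | hp'
    · have h1 := H.stepU_UC1 A (ed p.1) p l hl le_rfl
      have h2 := H.mono (p :: l) A A B (ed p.1) le_rfl hB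
      have h3 := H.cap l A p.2
      rw [sdiff_eq_empty_iff_subset.2 hA] at h3
      have h4 : max (ν l A p.2 - δ) 0 ≤ 0 := max_le (by simp at h3; linarith) le_rfl
      linarith
    · exact (H.time q l A B).trans (ih hl.tail hp')

/-- The duty lemma. -/
lemma Calc.lemG (H : Calc ed r δ ε ν) {D ζ : ℝ} (hε : 0 ≤ ε) (hεζ : ε ≤ ζ) (hδ : D - ζ ≤ δ)
    (d : E → V → ℝ) (h0 : ∀ e v, 0 ≤ d e v) (hs : ∀ e v, v ∉ ed e → d e v = 0) (W : Finset V)
    (ht : ∀ e, ∑ v ∈ W, d e v ≤ D) (l : List (E × Finset V)) (hl : Valid ed r l) (A : Finset V)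
    (hk : ∀ p ∈ l, (∃ v ∈ W, d p.1 v ≠ 0) → p.2 ⊆ A ∪ W) :
    ν l A W ≤ ∑ v ∈ W \ A, max 0 (1 - paid d l v) + 2 * ζ * l.length := by
  have hζ : 0 ≤ ζ := hε.trans hεζ
  induction l generalizing A with
  | nil => simpa using H.cap [] A W
  | cons p l ih =>
    have hk' : ∀ q ∈ l, (∃ v ∈ W, d q.1 v ≠ 0) → q.2 ⊆ A ∪ W :=
      fun q hq => hk q (List.mem_cons_of_mem _ hq)
    have i1 := ih hl.tail A hk'
    rw [List.length_cons]
    push_cast
    by_cases hp : ∃ v ∈ W, d p.1 v ≠ 0
    · have a1 := H.mono (p :: l) A A W (W ∪ ed p.1) le_rfl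
        (subset_union_left.trans subset_union_right)
      have a2 := H.step p l A W hl
      have a3 := H.mono l A A (W ∪ p.2) W le_rfl
        (union_subset subset_union_right (hk p List.mem_cons_self hp))
      have a4 : ∑ v ∈ W \ A, max 0 (1 - paid d l v) ≤
          ∑ v ∈ W \ A, max 0 (1 - paid d (p :: l) v) + D := by
        have b1 : ∑ v ∈ W \ A, d p.1 v ≤ D :=
          (sum_le_sum_of_subset_of_nonneg sdiff_subset fun v _ _ => h0 _ v).trans (ht p.1)
        refine le_trans (sum_le_sum (g := fun v => max 0 (1 - paid d (p :: l) v) + d p.1 v)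
          fun v _ => ?_) (by rw [sum_add_distrib]; linarith)
        rw [paid_cons]
        have c1 := le_max_left 0 (1 - (d p.1 v + paid d l v))
        have c2 := le_max_right 0 (1 - (d p.1 v + paid d l v))
        have c3 := h0 p.1 v
        exact max_le (by linarith) (by linarith)
      have i2 := ih hl.tail (A ∪ ed p.1) fun q hq h =>
        (hk' q hq h).trans (union_subset_union subset_union_left le_rfl)
      have a5 : ∑ v ∈ W \ (A ∪ ed p.1), max 0 (1 - paid d l v) ≤
          ∑ v ∈ W \ A, max 0 (1 - paid d (p :: l) v) := by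
        refine le_trans (le_of_eq (sum_congr rfl fun v hv => ?_))
          (sum_le_sum_of_subset_of_nonneg (sdiff_subset_sdiff le_rfl subset_union_left)
            fun v _ _ => le_max_left _ _)
        rw [paid_cons, hs _ v fun h => (mem_sdiff.1 hv).2 (mem_union_right _ h), zero_add]
      have a6 : max (ν l A (W ∪ p.2) - δ) (ν l (A ∪ ed p.1) W) ≤
          ∑ v ∈ W \ A, max 0 (1 - paid d (p :: l) v) + 2 * ζ * l.length + ζ :=
        max_le (by linarith) (by linarith)
      linarith
    · have a1 : ∑ v ∈ W \ A, max 0 (1 - paid d (p :: l) v) =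
          ∑ v ∈ W \ A, max 0 (1 - paid d l v) := by
        refine sum_congr rfl fun v hv => ?_
        have : d p.1 v = 0 := by
          by_contra h
          exact hp ⟨v, (mem_sdiff.1 hv).1, h⟩
        rw [paid_cons, this, zero_add]
      have a2 := H.time p l A W
      rw [a1]
      linarith

end Pool.Agent.SemiRandom.Und
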