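import Pool.Agent.P.MP_c53d0e_pr.UDZ

set_option autoImplicit false
set_option linter.unusedSectionVars false

namespace Pool.Agent.SemiRandom.Und

open Finset

open Filter Topology

variable {V E : Type} [Fintype V] [DecidableEq V] [Fintype E] [DecidableEq E] {r s : ℕ}
  {ed : E → Finset V}

/-- Number of edges of a pattern whose random part lies in `W`. -/
def inW (W : Finset V) (qs : List (E × Finset V)) : ℕ := (qs.filter fun q => q.2 ⊆ W).length

/-- `ψ` is the restriction to `W` of a realisation of `l` in an initial part with few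
restrictions. -/
def Cst_GB {n : ℕ} (ed : E → Finset V) (l : List (E × Finset V)) (W : Finset V) (b : ℝ)
    (ψ : V → Option (Fin n)) (h : List (RSet n r × Move n r s)) : Prop :=
  ∃ h1 h2, h = h1 ++ h2 ∧ ψ ∈ (XX ed l h1).image (res W) ∧
    (((XX ed l h1).image (res W)).card : ℝ) ≤ b

lemma Cst_append_GB {n : ℕ} (l : List (E × Finset V)) (W : Finset V) (b : ℝ)
    (ψ : V → Option (Fin n)) (h h' : List (RSet n r × Move n r s)) (H : Cst_GB ed l W b ψ h) :
    Cst_GB ed l W b ψ (h ++ h') := by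
  obtain ⟨h1, h2, e, a1, a2⟩ := H
  exact ⟨h1, h2 ++ h', by rw [e, List.append_assoc], a1, a2⟩

open Classical in
lemma Cst_card_GB {n : ℕ} (l : List (E × Finset V)) (W : Finset V) {b : ℝ} (hb : 0 ≤ b)
    (h : List (RSet n r × Move n r s)) :
    (∑ ψ : V → Option (Fin n), if Cst_GB ed l W b ψ h then (1 : ℝ) else 0) ≤ b := by
  rw [sum_boole]
  by_cases hne : (univ.filter fun ψ : V → Option (Fin n) => Cst_GB ed l W b ψ h).Nonempty
  · let P : ℕ → Prop := fun k => (((XX ed l (h.take k)).image (res W)).card : ℝ) ≤ b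
    have key : ∀ ψ : V → Option (Fin n), Cst_GB ed l W b ψ h →
        ∃ k, k ≤ h.length ∧ P k ∧ ψ ∈ (XX ed l (h.take k)).image (res W) := by
      rintro ψ ⟨h1, h2, e, a1, a2⟩
      have e1 : h.take h1.length = h1 := by rw [e, List.take_left]
      refine ⟨h1.length, by rw [e]; simp, ?_, ?_⟩
      · show (((XX ed l (h.take h1.length)).image (res W)).card : ℝ) ≤ b
        rw [e1]; exact a2
      · rw [e1]; exact a1
    obtain ⟨φ0, h0⟩ := hne
    obtain ⟨k0, hk0, hP0, -⟩ := key φ0 (mem_filter.1 h0).2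
    have hK : P (Nat.findGreatest P h.length) := Nat.findGreatest_spec hk0 hP0
    refine le_trans ?_ hK
    refine Nat.cast_le.2 (card_le_card fun φ hφ => ?_)
    obtain ⟨k, hk, hP, hE⟩ := key φ (mem_filter.1 hφ).2
    have hle : k ≤ Nat.findGreatest P h.length := Nat.le_findGreatest hk hP
    have e : h.take (Nat.findGreatest P h.length) =
        h.take k ++ (h.take (Nat.findGreatest P h.length)).drop k := by
      conv_lhs => rw [← List.take_append_drop k (h.take (Nat.findGreatest P h.length))]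
      rw [List.take_take, min_eq_left hle]
    rw [e]
    exact image_subset_image (XX_append l _ _) hE
  · rw [not_nonempty_iff_eq_empty.1 hne]
    simpa using hb

/-- The values of a restricted map on a set. -/
def img_GB {n : ℕ} (ψ : V → Option (Fin n)) (u : Finset V) : Finset (Fin n) :=
  u.biUnion fun v => (ψ v).toFinset

lemma img_res_GB {n : ℕ} {W u : Finset V} (hu : u ⊆ W) (φ : V → Fin n) :
    img_GB (res W φ) u = u.image φ := by
  ext y
  simp only [img_GB, mem_biUnion, mem_image, Option.mem_toFinset]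
  refine exists_congr fun v => and_congr_right fun hv => ?_
  simp [res, hu hv]

lemma image_res_le_cnt {n : ℕ} (X : Finset (V → Fin n)) (W : Finset V) :
    (X.image (res W)).card ≤ cnt X ∅ W := by
  rcases X.eq_empty_or_nonempty with rfl | ⟨φ, -⟩
  · simp
  · refine le_trans (le_of_eq ?_) (le_cnt X ∅ W φ)
    congr 2
    ext ψ
    simp [mem_fib]

/-- Bottleneck bound in projection form. -/
theorem win_le_proj (hinj : Function.Injective ed) :
    ∃ c : ℝ, ∀ (n : ℕ) [Nonempty (RSet n r)] (S : Strategy (RSet n r) (Move n r s)) (T : ℕ)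
      (p γ : ℝ) (bd : ℕ → ℝ) (Good : List (RSet n r × Move n r s) → Prop),
      (T : ℝ) / Fintype.card (RSet n r) ≤ p → (∀ j, 0 ≤ bd j) → (∀ j, p ^ j * bd j ≤ γ) →
      (∀ h, Good h → ∀ ps, Valid ed r ps → (∀ e, e ∈ ps.map Prod.fst) →
        ∃ qs l W, ps = qs ++ l ∧ (cnt (XX ed l h) ∅ W : ℝ) ≤ bd (inW W qs)) →
      Pr S T (ContainsV ed) ≤ Pr S T (fun h => ¬ Good h) + c * γ := by
  classical
  obtain ⟨F, hF⟩ := exists_patterns ed r
  let I0 : Finset (List (E × Finset V) × List (E × Finset V)) :=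
    F.biUnion fun ps => (range (ps.length + 1)).image fun j => (ps.take j, ps.drop j)
  have hI0 : ∀ qs l, Valid ed r (qs ++ l) → (qs, l) ∈ I0 := by
    intro qs l hv
    refine mem_biUnion.2 ⟨qs ++ l, hF _ hv, mem_image.2 ⟨qs.length, ?_, ?_⟩⟩
    · rw [mem_range, List.length_append]; omega
    · rw [List.take_left, List.drop_left]
  let I : Finset ((List (E × Finset V) × List (E × Finset V)) × Finset V) := I0 ×ˢ univ
  refine ⟨I.card, fun n _ S T p γ bd Good hT hbd hγ hG => ?_⟩
  let w : List (E × Finset V) → Finset V → (V → Option (Fin n)) → Multiset (Finset (Fin n)) :=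
    fun qs W ψ => (((qs.filter fun q => q.2 ⊆ W).map fun q => img_GB ψ q.2 :
      List (Finset (Fin n))) : Multiset (Finset (Fin n)))
  have pt : ∀ h : List (RSet n r × Move n r s), ind (ContainsV ed h) ≤ ind (¬ Good h) +
      ∑ τ ∈ I, ∑ ψ : V → Option (Fin n),
        if ∃ l1 l2, h = [] ++ l1 ++ l2 ∧ Cst_GB ed τ.1.2 τ.2 (bd (inW τ.2 τ.1.1)) ψ ([] ++ l1) ∧
          w τ.1.1 τ.2 ψ ≤ draws Subtype.val l2 then (1 : ℝ) else 0 := by
    intro h
    have h0 : (0 : ℝ) ≤ ∑ τ ∈ I, ∑ ψ : V → Option (Fin n),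
        if ∃ l1 l2, h = [] ++ l1 ++ l2 ∧ Cst_GB ed τ.1.2 τ.2 (bd (inW τ.2 τ.1.1)) ψ ([] ++ l1) ∧
          w τ.1.1 τ.2 ψ ≤ draws Subtype.val l2 then (1 : ℝ) else 0 :=
      sum_nonneg fun _ _ => sum_nonneg fun _ _ => by positivity
    by_cases hC : ContainsV ed h
    · by_cases hg : Good h
      · rw [ind_pos hC, ind_neg (not_not.2 hg), zero_add]
        obtain ⟨ps, φ, hv, hall, hE⟩ := extract hinj hC
        obtain ⟨qs, l, W, rfl, hb⟩ := hG h hg ps hv hall
        obtain ⟨h1, h2, e, hE1, hw⟩ := hE.split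
        refine le_trans ?_ (single_le_sum (fun _ _ => sum_nonneg fun _ _ => by positivity)
          (mem_product.2 ⟨hI0 qs l hv, mem_univ W⟩ : ((qs, l), W) ∈ I))
        refine le_trans ?_ (single_le_sum (fun _ _ => by positivity) (mem_univ (res W φ)))
        rw [if_pos]
        refine ⟨h1, h2, by simpa using e, ⟨h1, [], by simp,
          mem_image_of_mem _ (mem_XX.2 hE1), le_trans ?_ hb⟩, le_trans ?_ hw⟩
        · rw [e]
          exact Nat.cast_le.2 ((image_res_le_cnt _ W).trans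
            (cnt_mono_left (XX_append l h1 h2) _ _))
        · have e2 : ((qs.filter fun q => q.2 ⊆ W).map fun q => img_GB (res W φ) q.2) =
              (qs.filter fun q => q.2 ⊆ W).map fun q => q.2.image φ :=
            List.map_congr_left fun q hq => img_res_GB (by simpa using (List.mem_filter.1 hq).2) φ
          simp only [w]
          rw [e2]
          exact Multiset.coe_le.2 (List.filter_sublist.map _).subperm
      · rw [ind_pos hC, ind_pos hg]; linarith
    · rw [ind_neg hC]; linarith [ind_nonneg (¬ Good h)]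
  unfold Pr
  refine (Ex_le S T [] pt).trans ?_
  rw [Ex_add, Ex_sum]
  refine add_le_add le_rfl ?_
  refine (sum_le_sum (g := fun _ => γ) fun τ _ => ?_).trans ?_
  · rw [Ex_sum]
    have hw : ∀ ψ, (w τ.1.1 τ.2 ψ).card = inW τ.2 τ.1.1 := fun φ => by simp [w, inW]
    have hp0 : (0 : ℝ) ≤ (T : ℝ) / Fintype.card (RSet n r) := by positivity
    refine le_trans (sum_le_sum fun ψ _ => (stop S Subtype.val Subtype.val_injective
      (Cst_GB ed τ.1.2 τ.2 (bd (inW τ.2 τ.1.1)) ψ) (fun h l H => Cst_append_GB _ _ _ _ h l H)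
        (w τ.1.1 τ.2 ψ) T []).trans
      (mul_le_mul_of_nonneg_right (pow_le_pow_left₀ hp0 hT _)
        (Ex_nonneg S _ _ _ fun l => by positivity))) ?_
    simp only [hw]
    rw [← mul_sum, ← Ex_sum]
    refine le_trans (mul_le_mul_of_nonneg_left ?_ (pow_nonneg (hp0.trans hT) _))
      (hγ (inW τ.2 τ.1.1))
    exact (Ex_le S T [] fun h => Cst_card_GB τ.1.2 τ.2 (hbd _) h).trans
      (Ex_const S T [] (bd (inW τ.2 τ.1.1))).le
  · rw [sum_const, nsmul_eq_mul]

/-- If every complete pattern has a bottleneck, the player loses. -/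
theorem lose_of_bottleneck (hrs : r < s) (hcard : ∀ e, (ed e).card = s)
    (hinj : Function.Injective ed) {δ ε γ : ℝ} (hε : 0 < ε) (hγ : 0 < γ)
    (R : (List (E × Finset V) → Finset V → Finset V → ℝ) → Prop)
    (hR : ∀ n, 2 ≤ n → ∀ h : List (RSet n r × Move n r s), R (nu ed h))
    (H : ∀ ν, Calc ed r δ ε ν → R ν → ∀ ps, Valid ed r ps → (∀ e, e ∈ ps.map Prod.fst) →
      ∃ qs l W, ps = qs ++ l ∧ ν l ∅ W ≤ δ * inW W qs - γ) :
    ∀ q : ℝ, 0 < q → ∀ᶠ n : ℕ in atTop, ∀ (S : Strategy (RSet n r) (Move n r s)) (T : ℕ),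
      (T : ℝ) / n.choose r ≤ (n : ℝ) ^ (-δ) → Pr S T (ContainsV ed) < q := by
  have hs1 : 1 ≤ s := by omega
  have hs0 : (0 : ℝ) < s := by exact_mod_cast hs1
  have hss : (0 : ℝ) < (s : ℝ) ^ s := pow_pos hs0 s
  obtain ⟨c1, hc1⟩ := ruleS_prob (ed := ed) (r := r) hrs.le hs1 hcard
  obtain ⟨c2, hc2⟩ := win_le_proj (ed := ed) (r := r) (s := s) hinj
  intro q hq
  have t1 := (lim_UDZ (3 * Fintype.card V) hε hss).const_mul c1
  have t2 : Tendsto (fun n : ℕ => c2 * (n : ℝ) ^ (-γ)) atTop (𝓝 (c2 * 0)) :=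
    ((tendsto_rpow_neg_atTop hγ).comp tendsto_natCast_atTop_atTop).const_mul c2
  have t3 := (t1.add t2).eventually (gt_mem_nhds (show c1 * 0 + c2 * 0 < q by simpa using hq))
  have t4 : Tendsto (fun n : ℕ => (n : ℝ) ^ ε / (s : ℝ) ^ s) atTop atTop :=
    ((tendsto_rpow_atTop hε).comp tendsto_natCast_atTop_atTop).atTop_div_const hss
  filter_upwards [t3, t4.eventually_ge_atTop 2, eventually_ge_atTop 2, eventually_ge_atTop r]
    with n h3 h4 hn2 hnr S T hT
  have hcard' : Fintype.card (RSet n r) = n.choose r := by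
    rw [Fintype.card_finset_len, Fintype.card_fin]
  have : Nonempty (RSet n r) := by
    rw [← Fintype.card_pos_iff, hcard']; exact Nat.choose_pos hnr
  have hn0 : (0 : ℝ) < n := by exact_mod_cast (by omega : 0 < n)
  have hn1 : (1 : ℝ) < n := by exact_mod_cast (by omega : 1 < n)
  have hT' : (T : ℝ) / Fintype.card (RSet n r) ≤ (n : ℝ) ^ (-δ) := by
    rw [hcard']; exact hT
  have a1 := hc1 n (by omega) S T _ _ hT' h4
  have a2 := hc2 n S T ((n : ℝ) ^ (-δ)) ((n : ℝ) ^ (-γ))
    (fun j => (n : ℝ) ^ (δ * j - γ))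
    (RuleS ed ((n : ℝ) ^ ε / (s : ℝ) ^ s) ((n : ℝ) ^ (-δ))) hT'
    (fun j => by positivity) (fun j => by
      rw [← Real.rpow_natCast, ← Real.rpow_mul hn0.le, ← Real.rpow_add hn0]
      exact le_of_eq (by congr 1; ring)) (fun h hh ps hv hall => by
      have hC := calc_nu (ε := ε) (δ := δ) hn2 (by linarith)
        (le_of_eq (div_mul_cancel₀ _ hss.ne')) le_rfl hh
      obtain ⟨qs, l, W, e, hν⟩ := H _ hC (hR n hn2 h) ps hv hall
      refine ⟨qs, l, W, e, ?_⟩
      have b2 : (0 : ℝ) < cnt (XX ed l h) ∅ W := by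
        exact_mod_cast one_le_cnt _ _ _
      rw [nu, div_le_iff₀ (Real.log_pos hn1)] at hν
      rw [Real.le_rpow_iff_log_le b2 hn0]
      exact hν)
  rw [mul_div_assoc] at a1
  linarith

end Pool.Agent.SemiRandom.Und
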