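import Pool.Agent.P.MP_c53d0e_pr.UD0

set_option autoImplicit false
set_option linter.unusedSectionVars false

namespace Pool.Agent.SemiRandom.Und

open Finset

lemma card_image_le_UD1 {α β γ : Type} [DecidableEq β] (Y : Finset α) (f : α → β) (g : α → γ)
    (T : Finset γ) (hT : ∀ a ∈ Y, g a ∈ T)
    (h : ∀ a ∈ Y, ∀ b ∈ Y, g a = g b → f a = f b) : (Y.image f).card ≤ T.card := by
  refine card_le_card_of_forall_subsingleton (fun y t => ∃ a ∈ Y, f a = y ∧ g a = t) ?_ ?_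
  · intro y hy
    obtain ⟨a, ha, rfl⟩ := mem_image.1 hy
    exact ⟨g a, hT a ha, a, ha, rfl, rfl⟩
  · intro t _ y hy y' hy'
    obtain ⟨-, a, ha, rfl, hg⟩ := hy
    obtain ⟨-, b, hb, rfl, hg'⟩ := hy'
    exact h a ha b hb (hg.trans hg'.symm)

variable {V W : Type} [Fintype V] [DecidableEq V] [Fintype W] [DecidableEq W]

/-- Fibre count. -/
lemma image_res_union_le (Y : Finset (V → W)) (B B' : Finset V) (m : ℕ)
    (h : ∀ φ ∈ Y, ((fib Y B φ).image (res B')).card ≤ m) :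
    (Y.image (res (B ∪ B'))).card ≤ (Y.image (res B)).card * m := by
  have hsub : Y.image (res (B ∪ B')) ⊆ (Y.image (res B)).biUnion
      fun a => (Y.filter fun φ => res B φ = a).image (res (B ∪ B')) := by
    intro y hy
    obtain ⟨φ, hφ, rfl⟩ := mem_image.1 hy
    exact mem_biUnion.2 ⟨res B φ, mem_image_of_mem _ hφ,
      mem_image_of_mem _ (mem_filter.2 ⟨hφ, rfl⟩)⟩
  refine (card_le_card hsub).trans (card_biUnion_le_card_mul _ _ _ ?_)
  intro a ha
  obtain ⟨φ, hφ, rfl⟩ := mem_image.1 ha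
  refine le_trans ?_ (h φ hφ)
  refine card_image_le_UD1 _ _ (res B') _ ?_ ?_
  · intro ψ hψ
    obtain ⟨h1, h2⟩ := mem_filter.1 hψ
    exact mem_image_of_mem _ (mem_fib.2 ⟨h1, res_eq_iff.1 h2⟩)
  · intro ψ hψ χ hχ hg
    have h1 := res_eq_iff.1 (mem_filter.1 hψ).2
    have h2 := res_eq_iff.1 (mem_filter.1 hχ).2
    have h3 := res_eq_iff.1 hg
    refine res_eq_iff.2 fun v hv => ?_
    rcases mem_union.1 hv with hv | hv
    · exact (h1 v hv).trans (h2 v hv).symm
    · exact h3 v hv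

lemma image_res_le_pow (Y : Finset (V → W)) (B : Finset V) (Z : Finset W)
    (h : ∀ φ ∈ Y, ∀ v ∈ B, φ v ∈ Z) : (Y.image (res B)).card ≤ Z.card ^ B.card := by
  have key := card_image_le_UD1 Y (res B) (fun φ (v : {v // v ∈ B}) => φ v.1)
    (Fintype.piFinset fun _ : {v // v ∈ B} => Z)
    (fun φ hφ => Fintype.mem_piFinset.2 fun v => h φ hφ v.1 v.2)
    (fun φ _ ψ _ hg => res_eq_iff.2 fun v hv => congrFun hg ⟨v, hv⟩)
  rw [Fintype.card_piFinset, prod_const, card_univ, Fintype.card_coe] at key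
  exact key

lemma cnt_cap [Nonempty W] (X : Finset (V → W)) (A B : Finset V) :
    cnt X A B ≤ Fintype.card W ^ (B \ A).card := by
  refine cnt_le (Nat.one_le_pow _ _ Fintype.card_pos) fun ρ => ?_
  refine le_trans ?_ (image_res_le_pow (fib X A ρ) (B \ A) univ fun _ _ _ _ => mem_univ _)
  refine card_image_le_UD1 _ _ (res (B \ A)) _ (fun φ hφ => mem_image_of_mem _ hφ) ?_
  intro φ hφ ψ hψ hg
  have h1 := (mem_fib.1 hφ).2
  have h2 := (mem_fib.1 hψ).2
  have h3 := res_eq_iff.1 hg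
  refine res_eq_iff.2 fun v hv => ?_
  by_cases hA : v ∈ A
  · exact (h1 v hA).trans (h2 v hA).symm
  · exact h3 v (mem_sdiff.2 ⟨hv, hA⟩)

lemma cnt_le_pow [Nonempty W] (X : Finset (V → W)) (A B : Finset V) :
    cnt X A B ≤ Fintype.card W ^ Fintype.card V :=
  (cnt_cap X A B).trans (Nat.pow_le_pow_right Fintype.card_pos (card_le_univ _))

lemma cnt_mono_left {X X' : Finset (V → W)} (h : X ⊆ X') (A B : Finset V) :
    cnt X A B ≤ cnt X' A B := by
  refine cnt_le (one_le_cnt _ _ _) fun ρ => le_trans ?_ (le_cnt X' A B ρ)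
  refine card_le_card (image_subset_image fun φ hφ => ?_)
  exact mem_fib.2 ⟨h (mem_fib.1 hφ).1, (mem_fib.1 hφ).2⟩

lemma cnt_mono (X : Finset (V → W)) {A A' B B' : Finset V} (hA : A' ⊆ A) (hB : B ⊆ A ∪ B') :
    cnt X A B ≤ cnt X A' B' := by
  refine cnt_le (one_le_cnt _ _ _) fun ρ => le_trans ?_ (le_cnt X A' B' ρ)
  refine card_image_le_UD1 _ _ (res B') _ ?_ ?_
  · intro φ hφ
    exact mem_image_of_mem _ (mem_fib.2 ⟨(mem_fib.1 hφ).1, fun v hv => (mem_fib.1 hφ).2 v (hA hv)⟩)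
  · intro φ hφ ψ hψ hg
    have h1 := (mem_fib.1 hφ).2
    have h2 := (mem_fib.1 hψ).2
    have h3 := res_eq_iff.1 hg
    refine res_eq_iff.2 fun v hv => ?_
    rcases mem_union.1 (hB hv) with hv | hv
    · exact (h1 v hv).trans (h2 v hv).symm
    · exact h3 v hv

lemma cnt_chain (X : Finset (V → W)) (A B B' : Finset V) :
    cnt X A (B ∪ B') ≤ cnt X A B * cnt X (A ∪ B) B' := by
  refine cnt_le (Nat.mul_pos (one_le_cnt _ _ _) (one_le_cnt _ _ _)) fun ρ => ?_
  refine (image_res_union_le (fib X A ρ) B B' (cnt X (A ∪ B) B') ?_).trans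
    (Nat.mul_le_mul_right _ (le_cnt X A B ρ))
  intro φ hφ
  refine le_trans ?_ (le_cnt X (A ∪ B) B' φ)
  refine card_le_card (image_subset_image fun ψ hψ => ?_)
  obtain ⟨h1, h2⟩ := mem_fib.1 hψ
  obtain ⟨h3, h4⟩ := mem_fib.1 h1
  refine mem_fib.2 ⟨h3, fun v hv => ?_⟩
  rcases mem_union.1 hv with hv | hv
  · exact (h4 v hv).trans ((mem_fib.1 hφ).2 v hv).symm
  · exact h2 v hv

lemma card_le_cnt [Nonempty W] (X : Finset (V → W)) : X.card ≤ cnt X ∅ univ := by
  obtain ⟨w⟩ := ‹Nonempty W›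
  refine le_trans ?_ (le_cnt X ∅ univ fun _ => w)
  have h1 : fib X ∅ (fun _ => w) = X := by
    ext φ
    simp [mem_fib]
  have h2 : Function.Injective (res (univ : Finset V) : (V → W) → V → Option W) :=
    fun φ ψ h => funext fun v => res_eq_iff.1 h v (mem_univ v)
  rw [h1, card_image_of_injective _ h2]

end Pool.Agent.SemiRandom.Und
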