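import Pool.Agent.P.MP_c53d0e_pr.UD0

set_option autoImplicit false
set_option linter.unusedSectionVars false

namespace Pool.Agent.SemiRandom.Und

open Finset

variable {α β : Type} [Fintype α] [Fintype β] [Nonempty α]

lemma Pr_mono (S : Strategy α β) (T : ℕ) {A B : List (α × β) → Prop} (h : ∀ l, A l → B l) :
    Pr S T A ≤ Pr S T B := by
  refine Ex_mono S T [] _ _ fun l _ => ?_
  unfold ind
  split_ifs with a b
  · exact le_rfl
  · exact absurd (h _ a) b
  · exact zero_le_one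
  · exact le_rfl

lemma Pr_or_le (S : Strategy α β) (T : ℕ) (A B : List (α × β) → Prop) :
    Pr S T (fun l => A l ∨ B l) ≤ Pr S T A + Pr S T B := by
  unfold Pr
  rw [← Ex_add]
  refine Ex_mono S T [] _ _ fun l _ => ?_
  unfold ind
  by_cases a : A ([] ++ l) <;> by_cases b : B ([] ++ l) <;> simp only [a, b] <;> simp

lemma Pr_exists_le (S : Strategy α β) (T : ℕ) {ι : Type} (I : Finset ι)
    (A : ι → List (α × β) → Prop) :
    Pr S T (fun l => ∃ i ∈ I, A i l) ≤ ∑ i ∈ I, Pr S T (A i) := by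
  unfold Pr
  rw [← Ex_sum]
  refine Ex_mono S T [] _ _ fun l _ => ?_
  have h0 : ∀ p : Prop, 0 ≤ ind p := fun p => by
    unfold ind
    split_ifs
    exacts [zero_le_one, le_rfl]
  by_cases a : ∃ i ∈ I, A i ([] ++ l)
  · obtain ⟨i, hi, hA⟩ := a
    refine le_trans ?_ (single_le_sum (f := fun i => ind (A i ([] ++ l))) (fun j _ => h0 _) hi)
    unfold ind
    rw [if_pos hA, if_pos ⟨i, hi, hA⟩]
  · refine le_trans ?_ (sum_nonneg fun j _ => h0 _)
    unfold ind
    rw [if_neg a]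

lemma Pr_nonneg (S : Strategy α β) (T : ℕ) (A : List (α × β) → Prop) : 0 ≤ Pr S T A := by
  refine Ex_nonneg S T [] _ fun l => ?_
  unfold ind
  split_ifs
  exacts [zero_le_one, le_rfl]

lemma two_rpow_le_UD3 {x : ℝ} (h0 : 0 ≤ x) (h1 : x ≤ 1) : (2 : ℝ) ^ x ≤ 1 + x := by
  have := rpow_one_add_le_one_add_mul_self (s := 1) (by norm_num) h0 h1
  rwa [one_add_one_eq_two, mul_one] at this

lemma mgf_UD3 (S : Strategy α β) (inc : List (α × β) → α × β → ℝ) {W μ : ℝ}
    (hW : 0 < W) (hμ : 0 ≤ μ) (h0 : ∀ h x, 0 ≤ inc h x) (h1 : ∀ h x, inc h x ≤ W)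
    (h2 : ∀ h, ∃ Y : α → ℝ, (∀ U V, inc h (U, V) ≤ Y U) ∧ ∑ U, Y U ≤ μ) (t : ℕ) :
    ∀ h, Ex S t h (fun l => (2 : ℝ) ^ (Acc inc l / W)) ≤
      (2 : ℝ) ^ (Acc inc h / W) * (1 + μ / (Fintype.card α * W)) ^ t := by
  have hN : (0 : ℝ) < Fintype.card α := card_pos'
  induction t with
  | zero => intro h; simp [Ex]
  | succ t ih =>
    intro h
    obtain ⟨Y, hY, hs⟩ := h2 h
    simp only [Ex]
    rw [div_le_iff₀ hN]
    set c : ℝ := (2 : ℝ) ^ (Acc inc h / W) * (1 + μ / (Fintype.card α * W)) ^ t with hc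
    have hc0 : 0 ≤ c := by positivity
    have step : ∀ U V, Ex S t (h ++ [(U, V)]) (fun l => (2 : ℝ) ^ (Acc inc l / W)) ≤
        c * (1 + Y U / W) := by
      intro U V
      refine (ih _).trans ?_
      rw [Acc_snoc, add_div, Real.rpow_add two_pos, mul_right_comm, ← hc]
      refine mul_le_mul_of_nonneg_left ?_ hc0
      refine (two_rpow_le_UD3 (div_nonneg (h0 _ _) hW.le) ((div_le_one hW).2 (h1 _ _))).trans ?_
      have := div_le_div_of_nonneg_right (hY U V) hW.le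
      linarith
    have k1 : ∑ U, ∑ V, S.w h U V * Ex S t (h ++ [(U, V)]) (fun l => (2 : ℝ) ^ (Acc inc l / W)) ≤
        ∑ U, c * (1 + Y U / W) := by
      refine sum_le_sum fun U _ => ?_
      refine (sum_le_sum fun V _ => mul_le_mul_of_nonneg_left (step U V) (S.nonneg _ _ _)).trans ?_
      rw [← sum_mul, S.sum_one, one_mul]
    refine k1.trans ?_
    rw [← mul_sum, sum_add_distrib, sum_const, card_univ, nsmul_eq_mul, mul_one, ← sum_div,
      pow_succ, ← mul_assoc, ← hc, mul_assoc c]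
    refine mul_le_mul_of_nonneg_left ?_ hc0
    have e : (1 + μ / (Fintype.card α * W)) * Fintype.card α = Fintype.card α + μ / W := by
      field_simp
    rw [e]
    have := div_le_div_of_nonneg_right hs hW.le
    linarith

/-- Tail bound for sums of bounded increments with a predictable mean. -/
lemma tail_bound (S : Strategy α β) (T : ℕ) (inc : List (α × β) → α × β → ℝ) {W μ L p : ℝ}
    (hW : 0 < W) (hμ : 0 ≤ μ) (h0 : ∀ h x, 0 ≤ inc h x) (h1 : ∀ h x, inc h x ≤ W)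
    (h2 : ∀ h, ∃ Y : α → ℝ, (∀ U V, inc h (U, V) ≤ Y U) ∧ ∑ U, Y U ≤ μ)
    (hp : (T : ℝ) / Fintype.card α ≤ p) (hL : 2 ≤ L) :
    Pr S T (fun h => L * max (p * μ) W ≤ Acc inc h) ≤ 3 / (2 : ℝ) ^ L := by
  have hN : (0 : ℝ) < Fintype.card α := card_pos'
  set M : ℝ := max (p * μ / W) 1 with hM
  have hM1 : 1 ≤ M := le_max_right _ _
  have hMW : max (p * μ) W = M * W := by
    rw [hM, max_mul_of_nonneg _ _ hW.le, div_mul_cancel₀ _ hW.ne', one_mul]
  have hpos : (0 : ℝ) < (2 : ℝ) ^ (L * M) := by positivity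
  have k1 : Pr S T (fun h => L * max (p * μ) W ≤ Acc inc h) ≤
      ((2 : ℝ) ^ (L * M))⁻¹ * Ex S T [] (fun l => (2 : ℝ) ^ (Acc inc l / W)) := by
    rw [← Ex_mul]
    refine Ex_mono S T [] _ _ fun l _ => ?_
    unfold ind
    split_ifs with a
    · rw [← div_eq_inv_mul, one_le_div hpos]
      refine Real.rpow_le_rpow_of_exponent_le one_le_two ?_
      rw [le_div_iff₀ hW, mul_assoc, ← hMW]
      exact a
    · positivity
  have k2 := mgf_UD3 S inc hW hμ h0 h1 h2 T []
  rw [Acc_nil, zero_div, Real.rpow_zero, one_mul] at k2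
  have hx : 0 ≤ μ / (Fintype.card α * W) := by positivity
  have k3 : (1 + μ / (Fintype.card α * W)) ^ T ≤ Real.exp M := by
    have a1 : 1 + μ / (Fintype.card α * W) ≤ Real.exp (μ / (Fintype.card α * W)) := by
      have := Real.add_one_le_exp (μ / (Fintype.card α * W))
      linarith
    refine (pow_le_pow_left₀ (by positivity) a1 T).trans ?_
    rw [← Real.exp_nat_mul]
    refine Real.exp_le_exp.2 (le_trans ?_ (le_max_left _ _))
    have e : (T : ℝ) * (μ / (Fintype.card α * W)) = T / Fintype.card α * μ / W := by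
      field_simp
    rw [e]
    exact div_le_div_of_nonneg_right (mul_le_mul_of_nonneg_right hp hμ) hW.le
  have hL2 : (0 : ℝ) < (2 : ℝ) ^ L := by positivity
  have h4 : (4 : ℝ) ≤ (2 : ℝ) ^ L := by
    have := Real.rpow_le_rpow_of_exponent_le one_le_two hL
    rwa [show (2 : ℝ) ^ (2 : ℝ) = 4 by norm_num] at this
  have he : Real.exp 1 ≤ 3 := (Real.exp_one_lt_d9.trans (by norm_num)).le
  have k4 : ((2 : ℝ) ^ (L * M))⁻¹ * Real.exp M = (Real.exp 1 / (2 : ℝ) ^ L) ^ M := by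
    rw [Real.div_rpow (Real.exp_pos 1).le hL2.le, ← Real.rpow_mul two_pos.le, Real.exp_one_rpow,
      div_eq_inv_mul]
  have k5 : (Real.exp 1 / (2 : ℝ) ^ L) ^ M ≤ Real.exp 1 / (2 : ℝ) ^ L := by
    have := Real.rpow_le_rpow_of_exponent_ge (x := Real.exp 1 / (2 : ℝ) ^ L) (by positivity)
      ((div_le_one hL2).2 (by linarith)) hM1
    rwa [Real.rpow_one] at this
  calc _ ≤ _ := k1
    _ ≤ ((2 : ℝ) ^ (L * M))⁻¹ * Real.exp M :=
        mul_le_mul_of_nonneg_left (k2.trans k3) (by positivity)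
    _ ≤ Real.exp 1 / (2 : ℝ) ^ L := k4 ▸ k5
    _ ≤ _ := div_le_div_of_nonneg_right he hL2.le

end Pool.Agent.SemiRandom.Und
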