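import Pool.Agent.P.MP_c53d0e_pr.UE3
import Pool.Agent.P.MP_c53d0e_pr.UD1
import Pool.Agent.P.MP_c53d0e_pr.UD3

set_option autoImplicit false
set_option linter.unusedSectionVars false

namespace Pool.Agent.SemiRandom.Und

open Finset

section game
variable {α β : Type} [Fintype α] [Fintype β] [Nonempty α] [Nonempty β]

lemma val_shift (h0 : List (α × β)) (f : List (α × β) → ℝ) (T : ℕ) :
    ∀ h, val T (h0 ++ h) f = val T h fun l => f (h0 ++ l) := by
  induction T with
  | zero => intro h; rfl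
  | succ T ih =>
    intro h
    simp only [val, List.append_assoc, ih]

lemma Ex_le_val (S : Strategy α β) (f : List (α × β) → ℝ) (T : ℕ) :
    ∀ h, Ex S T h f ≤ val T h f := by
  induction T with
  | zero => intro h; exact le_rfl
  | succ T ih =>
    intro h
    simp only [val, Ex]
    refine div_le_div_of_nonneg_right (sum_le_sum fun U _ => ?_) card_pos'.le
    calc ∑ V, S.w h U V * Ex S T (h ++ [(U, V)]) f
        ≤ ∑ V, S.w h U V * univ.sup' univ_nonempty fun V => val T (h ++ [(U, V)]) f :=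
          sum_le_sum fun V _ => mul_le_mul_of_nonneg_left ((ih _).trans
            (le_sup' (fun V => val T (h ++ [(U, V)]) f) (mem_univ V))) (S.nonneg h U V)
      _ = _ := by rw [← sum_mul, S.sum_one, one_mul]

/-- A phase that looks only at its own rounds, with a bad event that is rare for every
strategy. -/
lemma Reach.fresh {T : ℕ} {D Bad B : List (α × β) → Prop} {ε ε' : ℝ}
    (h1 : Reach T (fun _ => True) D ε) (h2 : ∀ S : Strategy α β, Pr S T Bad ≤ ε')
    (h3 : ∀ h0 l, D l → ¬ Bad l → B (h0 ++ l)) : Reach T (fun _ => True) B (ε + ε') := by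
  intro h0 _
  obtain ⟨S, hS⟩ := Reach.strategy h1
  have a1 := val_shift h0 (fun l => ind (B l)) T []
  rw [List.append_nil] at a1
  have a2 := Ex_le_val S (fun l => ind (B (h0 ++ l))) T []
  have a3 : Pr S T D ≤ Pr S T (fun l => B (h0 ++ l)) + Pr S T Bad :=
    (Pr_mono S T fun l hl => by
      by_cases hb : Bad l
      exacts [Or.inr hb, Or.inl (h3 h0 l hl hb)]).trans (Pr_or_le S T _ _)
  have a4 := h2 S
  change 1 - (ε + ε') ≤ val T h0 fun l => ind (B l)
  rw [a1]
  unfold Pr at a3 a4 hS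
  linarith

end game

section sel
variable {V W : Type} [Fintype V] [DecidableEq V] [Fintype W] [DecidableEq W]

lemma popular_GC {X Y : Type} [DecidableEq Y] (Z : Finset X) (f : X → Y) (c : ℕ)
    (hc : (Z.image f).card ≤ c) (y0 : Y) : ∃ y, Z.card ≤ c * (Z.filter fun x => f x = y).card := by
  rcases Z.eq_empty_or_nonempty with rfl | hZ
  · exact ⟨y0, by simp⟩
  · obtain ⟨y, -, hy⟩ := exists_max_image (Z.image f) (fun y => (Z.filter fun x => f x = y).card)
      (hZ.image f)
    refine ⟨y, (card_le_mul_card_image Z _ hy).trans ?_⟩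
    rw [mul_comm]
    exact Nat.mul_le_mul_right _ hc

/-- A large subfamily on which `A` determines `B`. -/
lemma select (F : Finset (V → W)) (A B : Finset V) :
    ∃ F' ⊆ F, F.card ≤ cnt F A B * F'.card ∧
      ∀ φ ∈ F', ∀ ψ ∈ F', (∀ v ∈ A, φ v = ψ v) → ∀ v ∈ B, φ v = ψ v := by
  have key : ∀ a : V → Option W, ∃ b : V → Option W, (F.filter fun φ => res A φ = a).card ≤
      cnt F A B * ((F.filter fun φ => res A φ = a).filter fun φ => res B φ = b).card := by
    intro a
    refine popular_GC _ _ _ ?_ a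
    rcases (F.filter fun φ => res A φ = a).eq_empty_or_nonempty with h | ⟨φ, hφ⟩
    · rw [h]; simp
    · refine le_trans (card_le_card (image_subset_image fun ψ hψ => ?_)) (le_cnt F A B φ)
      exact mem_fib.2 ⟨(mem_filter.1 hψ).1,
        res_eq_iff.1 ((mem_filter.1 hψ).2.trans (mem_filter.1 hφ).2.symm)⟩
  choose b hb using key
  refine ⟨F.filter fun φ => res B φ = b (res A φ), filter_subset _ _, ?_, ?_⟩
  · rw [card_eq_sum_card_fiberwise (f := res A) (t := univ) fun _ _ => mem_univ _,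
      card_eq_sum_card_fiberwise (s := F.filter fun φ => res B φ = b (res A φ)) (f := res A)
        (t := univ) fun _ _ => mem_univ _, mul_sum]
    refine sum_le_sum fun a _ => (hb a).trans (Nat.mul_le_mul_left _ (card_le_card fun φ hφ => ?_))
    obtain ⟨h1, h2⟩ := mem_filter.1 hφ
    obtain ⟨h3, h4⟩ := mem_filter.1 h1
    exact mem_filter.2 ⟨mem_filter.2 ⟨h3, by rw [h4, h2]⟩, h4⟩
  · intro φ hφ ψ hψ h
    refine res_eq_iff.1 ?_
    rw [(mem_filter.1 hφ).2, (mem_filter.1 hψ).2, res_eq_iff.2 h]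

lemma card_le_cnt_univ (F : Finset (V → W)) (A : Finset V) (ρ : V → W) :
    (fib F A ρ).card ≤ cnt F A univ := by
  refine le_trans (le_of_eq ?_) (le_cnt F A univ ρ)
  exact (card_image_of_injective _ fun φ ψ h =>
    funext fun v => res_eq_iff.1 h v (mem_univ v)).symm

end sel

section count
variable {α β X Y : Type} [Fintype α] [DecidableEq α] [DecidableEq β] [DecidableEq X]
  [DecidableEq Y]

lemma le_Acc_GC (Z : Finset X) (U : X → α) (σ : α → β) (g : X → Y) (l : List (α × β)) :
    (((Z.filter fun ψ => (U ψ, σ (U ψ)) ∈ l).image g).card : ℝ) ≤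
      Acc (fun _ x => (((Z.filter fun ψ => U ψ = x.1).image g).card : ℝ)) l := by
  induction l using List.reverseRecOn with
  | nil => simp
  | append_singleton l x ih =>
    have hsub : (Z.filter fun ψ => (U ψ, σ (U ψ)) ∈ l ++ [x]) ⊆
        (Z.filter fun ψ => (U ψ, σ (U ψ)) ∈ l) ∪ Z.filter fun ψ => U ψ = x.1 := by
      intro ψ hψ
      obtain ⟨h1, h2⟩ := mem_filter.1 hψ
      rcases List.mem_append.1 h2 with h | h
      · exact mem_union_left _ (mem_filter.2 ⟨h1, h⟩)
      · exact mem_union_right _ (mem_filter.2 ⟨h1, by rw [← List.mem_singleton.1 h]⟩)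
    have h1 := card_le_card (image_subset_image (f := g) hsub)
    rw [image_union] at h1
    have h2 : (((Z.filter fun ψ => (U ψ, σ (U ψ)) ∈ l ++ [x]).image g).card : ℝ) ≤
        ((Z.filter fun ψ => (U ψ, σ (U ψ)) ∈ l).image g).card +
          ((Z.filter fun ψ => U ψ = x.1).image g).card := by
      exact_mod_cast h1.trans (card_union_le _ _)
    rw [Acc_snoc]
    linarith

lemma hits_reach_GC [Fintype β] [Nonempty α] [Nonempty β] (F : Finset X) (U : X → α) (σ : α → β)
    {y ρ ε : ℝ} {T : ℕ} (hy0 : 0 < y) (hy : y = ε * ρ * F.card / 4) (hε : 0 < ε)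
    (h1 : ε * ρ ≤ 1) (hT : ρ * Fintype.card α ≤ T + 1)
    (hc : ∀ a, ((F.filter fun ψ => U ψ = a).card : ℝ) ≤ y) :
    Reach T (fun _ => True)
      (fun l : List (α × β) => y ≤ (F.filter fun ψ => (U ψ, σ (U ψ)) ∈ l).card) ε := by
  have hA : (0 : ℝ) < Fintype.card α := card_pos'
  have hF : (0 : ℝ) < F.card := by
    by_contra h
    have : (F.card : ℝ) = 0 := le_antisymm (not_lt.1 h) (Nat.cast_nonneg _)
    rw [this] at hy
    simp at hy
    linarith
  have hyF : y ≤ F.card / 4 := by rw [hy]; nlinarith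
  refine drift_reach (fun l => min (2 * y) (F.filter fun ψ => (U ψ, σ (U ψ)) ∈ l).card) _ ?_
    (y := 2 * y) (b := F.card / (2 * Fintype.card α)) (by positivity)
    (fun h => le_min (by linarith) (Nat.cast_nonneg _)) (fun h => min_le_left _ _) ?_ T ?_
  · intro h l H
    refine H.trans (Nat.cast_le.2 (card_le_card fun ψ hψ => ?_))
    exact mem_filter.2 ⟨(mem_filter.1 hψ).1, List.mem_append_left _ (mem_filter.1 hψ).2⟩
  · intro h hD
    refine ⟨σ, ?_⟩
    have hD' := not_le.1 hD
    set H := F.filter fun ψ => (U ψ, σ (U ψ)) ∈ h with hH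
    have g1 : ∀ a, (((F \ H).filter fun ψ => U ψ = a).card : ℝ) ≤
        min (2 * y) ((F.filter fun ψ => (U ψ, σ (U ψ)) ∈ h ++ [(a, σ a)]).card : ℝ) -
          min (2 * y) (H.card : ℝ) := by
      intro a
      have b1 : (((F \ H).filter fun ψ => U ψ = a).card : ℝ) ≤ y :=
        le_trans (Nat.cast_le.2 (card_le_card (filter_subset_filter _ sdiff_subset))) (hc a)
      have b2 : H.card + ((F \ H).filter fun ψ => U ψ = a).card ≤
          (F.filter fun ψ => (U ψ, σ (U ψ)) ∈ h ++ [(a, σ a)]).card := by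
        rw [← card_union_of_disjoint (disjoint_left.2 fun ψ h1 h2 =>
          (mem_sdiff.1 (mem_filter.1 h2).1).2 h1)]
        refine card_le_card (union_subset (fun ψ hψ => ?_) fun ψ hψ => ?_)
        · exact mem_filter.2 ⟨(mem_filter.1 hψ).1, List.mem_append_left _ (mem_filter.1 hψ).2⟩
        · refine mem_filter.2 ⟨(mem_sdiff.1 (mem_filter.1 hψ).1).1, List.mem_append_right _ ?_⟩
          rw [(mem_filter.1 hψ).2]
          exact List.mem_singleton_self _
      have b3 : (H.card : ℝ) + ((F \ H).filter fun ψ => U ψ = a).card ≤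
          (F.filter fun ψ => (U ψ, σ (U ψ)) ∈ h ++ [(a, σ a)]).card := by exact_mod_cast b2
      have b4 := min_le_right (2 * y) (H.card : ℝ)
      have b5 : (H.card : ℝ) + ((F \ H).filter fun ψ => U ψ = a).card ≤
          min (2 * y) ((F.filter fun ψ => (U ψ, σ (U ψ)) ∈ h ++ [(a, σ a)]).card : ℝ) :=
        le_min (by linarith) b3
      linarith
    refine le_trans ?_ (sum_le_sum fun a _ => g1 a)
    have g2 : ((F \ H).card : ℝ) = ∑ a, (((F \ H).filter fun ψ => U ψ = a).card : ℝ) := by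
      exact_mod_cast card_eq_sum_card_fiberwise (f := U) (t := univ) fun _ _ => mem_univ _
    have g3 : ((F \ H).card : ℝ) + H.card = F.card := by
      exact_mod_cast card_sdiff_add_card_eq_card (filter_subset _ _)
    rw [← g2]
    have g4 : (F.card : ℝ) / (2 * Fintype.card α) * Fintype.card α = F.card / 2 := by
      field_simp
    rw [g4]
    linarith
  · have g5 : ρ ≤ (T + 1) / Fintype.card α := by rwa [le_div_iff₀ hA]
    have g6 : ε * ((F.card : ℝ) / (2 * Fintype.card α) * (T + 1)) =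
        ε * F.card / 2 * ((T + 1) / Fintype.card α) := by field_simp
    rw [g6, hy]
    have g7 := mul_le_mul_of_nonneg_left g5 (by positivity : (0 : ℝ) ≤ ε * F.card / 2)
    linarith

end count

variable {V : Type} [Fintype V] [DecidableEq V] {n m r s : ℕ} [Nonempty (RSet n r)]
  [Nonempty (Move n r s)]

/-- One phase: the edge `e` with key `u` is played for a family of placements. -/
theorem phase_cnt (κ : V × Fin m ↪ Fin n) {e u : Finset V} (he : e.card = s) (hu : u ⊆ e)
    (hur : u.card = r) (F : Finset (V → Fin m))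
    (hFD : ∀ ψ ∈ F, ∀ ψ' ∈ F, (∀ v ∈ u, ψ v = ψ' v) → ∀ v ∈ e, ψ v = ψ' v)
    {ρ ε L : ℝ} {T : ℕ} (hε : 0 < ε) (h1 : ε * ρ ≤ 1)
    (hT1 : (T : ℝ) / Fintype.card (RSet n r) ≤ ρ) (hT2 : ρ * Fintype.card (RSet n r) ≤ T + 1)
    (hL : 2 ≤ L) (hLε : 3 * (4 * m : ℝ) ^ Fintype.card V ≤ ε * (2 : ℝ) ^ L)
    (hc : (cnt F u univ : ℝ) ≤ ε * ρ * F.card / 4) :
    Reach T (fun _ => True) (fun h : List (RSet n r × Move n r s) => ∃ F' ⊆ F,
      (∀ ψ ∈ F', Pres κ h e ψ) ∧ ε * ρ * F.card / 4 ≤ F'.card ∧ ∀ A B : Finset V,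
        (cnt F' A (B ∪ u) : ℝ) ≤ L * max (ρ * cnt F A (B ∪ u)) (cnt F (A ∪ u) B)) (2 * ε) := by
  classical
  obtain ⟨σ, U, hU, hσ⟩ := exists_answer (n := n) κ he hu hur (F : Set (V → Fin m)) hFD
  have hag : ∀ ψ ψ', U ψ = U ψ' → ∀ v ∈ u, ψ v = ψ' v := fun ψ ψ' h =>
    agree_of_map_eq κ (by rw [← hU, ← hU, h])
  have hag' : ∀ ψ ψ', (∀ v ∈ u, ψ v = ψ' v) → U ψ = U ψ' := fun ψ ψ' h =>
    Subtype.ext (by rw [hU, hU, map_emb_congr κ h])
  have c1 : ∀ (X : Finset (V → Fin m)) (A B : Finset V), (1 : ℝ) ≤ cnt X A B := fun X A B => by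
    exact_mod_cast one_le_cnt X A B
  have r1 := hits_reach_GC F U σ (y := ε * ρ * F.card / 4) (T := T)
    (lt_of_lt_of_le one_pos ((c1 _ _ _).trans hc)) rfl hε h1 hT2 (fun a => by
      refine le_trans ?_ hc
      rcases (F.filter fun ψ => U ψ = a).eq_empty_or_nonempty with h | ⟨ψ, hψ⟩
      · rw [h]; simp
      · refine Nat.cast_le.2 (le_trans (card_le_card fun φ hφ => ?_) (card_le_cnt_univ F u ψ))
        exact mem_fib.2 ⟨(mem_filter.1 hφ).1,
          hag _ _ ((mem_filter.1 hφ).2.trans (mem_filter.1 hψ).2.symm)⟩)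
  let inc : Finset V × Finset V × (V → Fin m) → List (RSet n r × Move n r s) →
      RSet n r × Move n r s → ℝ := fun τ _ x =>
    ((((fib F τ.1 τ.2.2).filter fun ψ => U ψ = x.1).image (res (τ.2.1 ∪ u))).card : ℝ)
  rw [two_mul]
  refine Reach.fresh (Bad := fun l => ∃ τ ∈ (univ : Finset (Finset V × Finset V × (V → Fin m))),
    L * max (ρ * cnt F τ.1 (τ.2.1 ∪ u)) (cnt F (τ.1 ∪ u) τ.2.1) ≤ Acc (inc τ) l) r1 ?_ ?_
  · intro S
    refine (Pr_exists_le S T _ _).trans ?_
    refine (sum_le_sum (g := fun _ => 3 / (2 : ℝ) ^ L) fun τ _ => ?_).trans ?_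
    · obtain ⟨A, B, ρ0⟩ := τ
      refine tail_bound S T (inc (A, B, ρ0)) (lt_of_lt_of_le one_pos (c1 _ _ _))
        (Nat.cast_nonneg _) (fun _ _ => Nat.cast_nonneg _) (fun h x => ?_) (fun h => ?_) hT1 hL
      · simp only [inc]
        rcases ((fib F A ρ0).filter fun ψ => U ψ = x.1).eq_empty_or_nonempty with h | ⟨ψ, hψ⟩
        · rw [h]; simp
        · refine Nat.cast_le.2 (le_trans ?_ (le_cnt F (A ∪ u) B ψ))
          have k : ∀ φ ∈ (fib F A ρ0).filter fun ψ => U ψ = x.1, ∀ v ∈ A ∪ u, φ v = ψ v := by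
            intro φ hφ v hv
            rcases mem_union.1 hv with hv | hv
            · exact ((mem_fib.1 (mem_filter.1 hφ).1).2 v hv).trans
                ((mem_fib.1 (mem_filter.1 hψ).1).2 v hv).symm
            · exact hag _ _ ((mem_filter.1 hφ).2.trans (mem_filter.1 hψ).2.symm) v hv
          refine card_image_le_UD1 _ _ (res B) _ (fun φ hφ => mem_image_of_mem _
            (mem_fib.2 ⟨(mem_fib.1 (mem_filter.1 hφ).1).1, k φ hφ⟩)) fun φ hφ φ' hφ' hg => ?_
          refine res_eq_iff.2 fun v hv => ?_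
          rcases mem_union.1 hv with hv | hv
          · exact res_eq_iff.1 hg v hv
          · exact (k φ hφ v (mem_union_right _ hv)).trans (k φ' hφ' v (mem_union_right _ hv)).symm
      · refine ⟨fun a => ((((fib F A ρ0).filter fun ψ => U ψ = a).image (res (B ∪ u))).card : ℝ),
          fun _ _ => le_rfl, ?_⟩
        rw [← Nat.cast_sum]
        refine Nat.cast_le.2 (le_trans ?_ (le_cnt F A (B ∪ u) ρ0))
        rw [← card_biUnion]
        · exact card_le_card (biUnion_subset.2 fun a _ => image_subset_image (filter_subset _ _))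
        · intro a _ a' _ hne
          rw [Function.onFun, disjoint_left]
          intro y hy hy'
          obtain ⟨φ, hφ, rfl⟩ := mem_image.1 hy
          obtain ⟨ψ, hψ, k⟩ := mem_image.1 hy'
          apply hne
          rw [← (mem_filter.1 hφ).2, ← (mem_filter.1 hψ).2]
          exact hag' _ _ fun v hv => (res_eq_iff.1 k v (mem_union_right _ hv)).symm
    · rw [sum_const, nsmul_eq_mul, card_univ, Fintype.card_prod, Fintype.card_prod,
        Fintype.card_finset, Fintype.card_fun, Fintype.card_fin, ← mul_div_assoc,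
        div_le_iff₀ (by positivity)]
      refine le_trans (le_of_eq ?_) hLε
      push_cast
      rw [show (4 : ℝ) = 2 * 2 by norm_num, mul_pow, mul_pow]
      ring
  · intro h0 l hD hB
    refine ⟨F.filter fun ψ => (U ψ, σ (U ψ)) ∈ l, filter_subset _ _, fun ψ hψ =>
      ⟨_, List.mem_append_right _ (mem_filter.1 hψ).2, hσ ψ (mem_filter.1 hψ).1⟩,
      hD.trans (Nat.cast_le.2 (card_le_card fun ψ hψ => by simpa only [mem_filter] using hψ)),
      fun A B => ?_⟩
    rcases cnt_cases (F.filter fun ψ => (U ψ, σ (U ψ)) ∈ l) A (B ∪ u) with h | ⟨ρ0, h⟩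
    · rw [h]
      have := (c1 F (A ∪ u) B).trans (le_max_right (ρ * cnt F A (B ∪ u)) _)
      push_cast
      nlinarith
    · rw [h]
      have k1 : fib (F.filter fun ψ => (U ψ, σ (U ψ)) ∈ l) A ρ0 =
          (fib F A ρ0).filter fun ψ => (U ψ, σ (U ψ)) ∈ l := by
        ext ψ
        simp only [mem_fib, mem_filter]
        tauto
      rw [k1]
      refine le_trans (Nat.cast_le.2 (card_le_card (image_subset_image fun ψ hψ => by
        simpa only [mem_filter] using hψ)))
        ((le_Acc_GC (fib F A ρ0) U σ (res (B ∪ u)) l).trans ?_)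
      by_contra k2
      exact hB ⟨(A, B, ρ0), mem_univ _, (not_le.1 k2).le⟩

end Pool.Agent.SemiRandom.Und
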