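import Pool.Agent.P.MP_c53d0e_pr.Moment

set_option autoImplicit false
set_option linter.unusedSectionVars false

namespace Pool.Agent.SemiRandom

open Finset

variable {k : ℕ}

lemma Ex_le {α β : Type} [Fintype α] [Fintype β] [Nonempty α] (S : Strategy α β) (t : ℕ)
    (h : List (α × β)) {f g : List (α × β) → ℝ} (H : ∀ l, f l ≤ g l) : Ex S t h f ≤ Ex S t h g :=
  Ex_mono S t h f g fun _ _ => H _

def GoodT (E : Finset (Finset (Fin k))) (δ : ℝ) (P : Finset (Finset (Fin k)))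
    (u : Finset (Fin k) → Finset (Fin k)) (g : Finset (Fin k)) : Prop :=
  ∀ R, clo P u g ⊆ R →
    (g.card + (k - R.card : ℕ) + 1 : ℝ) ≤ δ * (#{e ∈ P | ¬ u e ⊆ R} + #(E \ P))

/-- Every time order of the edges and choice of random parts has a bottleneck. -/
def Bottleneck (E : Finset (Finset (Fin k))) (r : ℕ) (δ : ℝ) : Prop :=
  ∀ (j : Finset (Fin k) → ℕ) (u : Finset (Fin k) → Finset (Fin k)), Set.InjOn j E →
    (∀ e ∈ E, u e ⊆ e ∧ (u e).card = r) → ∃ θ g, GoodT E δ {e ∈ E | j e < θ} u g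

open Classical in
lemma triple_bound {α β : Type} [Fintype α] [Fintype β] [Nonempty α] (S : Strategy α β) {n : ℕ}
    (ι : α → Finset (Fin n)) (hι : Function.Injective ι) (ed : α × β → Multiset (Fin n))
    (hn : 0 < n) {r s C : ℕ} (hed : ∀ x, (ed x).card ≤ s) (hs : 1 ≤ s) (hC1 : 1 ≤ C)
    (hα : Fintype.card α ≤ n ^ r) {δ : ℝ} (hδ : 0 < δ) (hC : (r + k + 1 : ℝ) ≤ δ * (C + 1))
    (T : ℕ) (hT : (T : ℝ) / Fintype.card α ≤ (n : ℝ) ^ (-δ))
    {E P : Finset (Finset (Fin k))} {u : Finset (Fin k) → Finset (Fin k)} {g : Finset (Fin k)}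
    (hg : GoodT E δ P u g) :
    ((n : ℝ) ^ (-δ)) ^ #(E \ P) *
      Ex S T [] (fun l => (#{φ : Fin k → Fin n | Comp ι ed P u φ l} : ℝ)) ≤
      ((C * s : ℝ) ^ k * (2 ^ k * (k + k * (4 * k + 2) + 1 : ℕ) ^ k) + 2) / √n := by
  set p : ℝ := (n : ℝ) ^ (-δ) with hp
  have hn1 : (1 : ℝ) ≤ n := by exact_mod_cast hn
  have hn0 : (0 : ℝ) < n := by linarith
  have hp0 : 0 < p := Real.rpow_pos_of_pos hn0 _
  have hp1 : p ≤ 1 := Real.rpow_le_one_of_one_le_of_nonpos hn1 (by linarith)
  have pw : ∀ a b : ℕ, (a + 1 : ℝ) ≤ δ * b → (n : ℝ) ^ a * p ^ b ≤ 1 / n := by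
    intro a b hab
    rw [hp, ← Real.rpow_natCast, ← Real.rpow_natCast, ← Real.rpow_mul hn0.le,
      ← Real.rpow_add hn0, one_div, ← Real.rpow_neg_one]
    exact Real.rpow_le_rpow_of_exponent_le hn1 (by linarith)
  set B := k + k * (4 * k + 2) + 1 with hB
  set M0 := 1 / (n * n ^ g.card * p ^ #(E \ P)) with hM0
  have hM00 : 0 < M0 := by positivity
  set M := (2 : ℝ) ^ k * B ^ k * M0 with hM
  have hMp : 0 < M := by positivity
  have hsq : 0 < √(n : ℝ) := Real.sqrt_pos.2 hn0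
  have hsq2 : √(n : ℝ) ^ 2 = n := Real.sq_sqrt hn0.le
  have hsq3 : 1 / (n : ℝ) ≤ 1 / √n := by
    refine one_div_le_one_div_of_le hsq ?_
    have : 1 ≤ √(n : ℝ) := Real.one_le_sqrt.2 hn1
    nlinarith
  set Y := √(n : ℝ) * M with hY
  have hY0 : 0 < Y := by positivity
  have hMR : ∀ R, clo P u g ⊆ R → (n : ℝ) ^ (k - R.card) * p ^ #{e ∈ P | ¬ u e ⊆ R} ≤ M0 := by
    intro R hR
    have := pw (g.card + (k - R.card)) (#{e ∈ P | ¬ u e ⊆ R} + #(E \ P))
      (by push_cast; exact hg R hR)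
    rw [hM0, le_div_iff₀ (by positivity)]
    rw [le_div_iff₀ hn0, pow_add, pow_add] at this
    linarith
  have pt : ∀ l : List (α × β), (#{φ : Fin k → Fin n | Comp ι ed P u φ l} : ℝ) ≤
      n ^ g.card * (C * s) ^ k * Y + n ^ k *
        (∑ U : α, (if Multiset.replicate (C + 1) (ι U) ≤ draws ι l then 1 else 0) +
         ∑ ρ : Fin k → Fin n, (1 / Y ^ (4 * k + 2)) *
          ((if 0 ≤ draws ι l then 1 else 0) *
            (#(Ext ι P u (clo P u g) ρ l) : ℝ) ^ (4 * k + 2))) := by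
    intro l
    have triv : (#{φ : Fin k → Fin n | Comp ι ed P u φ l} : ℝ) ≤ n ^ k := by
      have := card_le_univ ({φ : Fin k → Fin n | Comp ι ed P u φ l} : Finset _)
      rw [Fintype.card_fun, Fintype.card_fin, Fintype.card_fin] at this
      exact_mod_cast this
    have n1 : 0 ≤ ∑ U : α, (if Multiset.replicate (C + 1) (ι U) ≤ draws ι l then (1 : ℝ) else 0) :=
      sum_nonneg fun _ _ => by positivity
    have n2 : 0 ≤ ∑ ρ : Fin k → Fin n, (1 / Y ^ (4 * k + 2)) * ((if 0 ≤ draws ι l then 1 else 0) *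
        (#(Ext ι P u (clo P u g) ρ l) : ℝ) ^ (4 * k + 2)) := sum_nonneg fun _ _ => by positivity
    have n3 : (0 : ℝ) ≤ n ^ g.card * (C * s) ^ k * Y := by positivity
    have n4 : (0 : ℝ) ≤ n ^ k := by positivity
    by_cases h1 : ∀ y, (draws ι l).count y ≤ C
    · by_cases h2 : ∀ ρ, (#(Ext ι P u (clo P u g) ρ l) : ℝ) ≤ Y
      · have := count_comp ι ed hn hed hs hC1 P u g l h1 h2
        nlinarith
      · push Not at h2
        obtain ⟨ρ, hρ⟩ := h2
        have a : (1 : ℝ) ≤ (1 / Y ^ (4 * k + 2)) * ((if 0 ≤ draws ι l then 1 else 0) *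
            (#(Ext ι P u (clo P u g) ρ l) : ℝ) ^ (4 * k + 2)) := by
          rw [if_pos (Multiset.zero_le _), one_mul, one_div, ← div_eq_inv_mul,
            one_le_div (by positivity)]
          exact pow_le_pow_left₀ hY0.le hρ.le _
        have b := a.trans (single_le_sum (f := fun ρ : Fin k → Fin n => (1 / Y ^ (4 * k + 2)) *
          ((if 0 ≤ draws ι l then 1 else 0) * (#(Ext ι P u (clo P u g) ρ l) : ℝ) ^ (4 * k + 2)))
          (fun _ _ => by positivity) (mem_univ ρ))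
        nlinarith
    · push Not at h1
      obtain ⟨y, hy⟩ := h1
      have hm : y ∈ draws ι l := Multiset.count_pos.1 (by omega)
      obtain ⟨z, -, rfl⟩ := List.mem_map.1 (Multiset.mem_coe.1 hm)
      have b := single_le_sum (f := fun U : α =>
        (if Multiset.replicate (C + 1) (ι U) ≤ draws ι l then (1 : ℝ) else 0))
        (fun _ _ => by positivity) (mem_univ z.1)
      rw [if_pos (Multiset.le_count_iff_replicate_le.1 hy)] at b
      nlinarith
  have e1 : ∑ U : α, Ex S T [] (fun l =>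
      if Multiset.replicate (C + 1) (ι U) ≤ draws ι l then (1 : ℝ) else 0) ≤ n ^ r * p ^ (C + 1) := by
    refine (sum_le_sum fun U _ => (hit S ι hι T [] _).trans
      (pow_le_pow_left₀ (by positivity) hT _)).trans ?_
    simp only [Multiset.card_replicate, sum_const, card_univ, nsmul_eq_mul]
    exact mul_le_mul_of_nonneg_right (by exact_mod_cast hα) (by positivity)
  have e2 : ∑ ρ : Fin k → Fin n, Ex S T [] (fun l => (1 / Y ^ (4 * k + 2)) *
      ((if 0 ≤ draws ι l then 1 else 0) * (#(Ext ι P u (clo P u g) ρ l) : ℝ) ^ (4 * k + 2))) ≤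
      n ^ k * (1 / n ^ (2 * k + 1)) := by
    refine (sum_le_sum (g := fun _ => 1 / (n : ℝ) ^ (2 * k + 1)) fun ρ _ => ?_).trans (by simp)
    rw [Ex_mul]
    have := moment S ι hι T P u (clo P u g) ρ hT hM00.le (B := B) (by omega) hMR (4 * k + 2)
      (univ.image ρ) 0 (by
        have h2 : #(univ.image ρ) ≤ k := by simpa using card_image_le (s := univ) (f := ρ)
        omega) (fun x _ => mem_image_of_mem ρ (mem_univ x)) (by simp)
    refine (mul_le_mul_of_nonneg_left this (by positivity)).trans (le_of_eq ?_)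
    rw [Multiset.card_zero, pow_zero, one_mul, ← hM, hY, mul_pow,
      show 4 * k + 2 = 2 * (2 * k + 1) by ring, pow_mul √(n : ℝ), hsq2]
    field_simp
  have main := Ex_le S T [] pt
  rw [Ex_add, Ex_const, Ex_mul, Ex_add, Ex_sum, Ex_sum] at main
  have f1 : (n : ℝ) ^ k * (n ^ r * p ^ (C + 1)) ≤ 1 / √n := by
    have := pw (r + k) (C + 1) (by push_cast; exact hC)
    rw [pow_add] at this
    linarith
  have f2 : (n : ℝ) ^ k * (n ^ k * (1 / n ^ (2 * k + 1))) ≤ 1 / √n := by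
    refine le_trans (le_of_eq ?_) hsq3
    field_simp; ring
  have f3 : p ^ #(E \ P) * (n ^ g.card * (C * s) ^ k * Y) =
      (C * s : ℝ) ^ k * (2 ^ k * B ^ k) / √n := by
    rw [hY, hM, hM0]
    field_simp
    rw [hsq2, mul_comm]
  have hq : p ^ #(E \ P) ≤ 1 := pow_le_one₀ hp0.le hp1
  have hq0 : 0 ≤ p ^ #(E \ P) := by positivity
  have g1 := mul_le_mul_of_nonneg_left (add_le_add e1 e2) (show (0 : ℝ) ≤ n ^ k by positivity)
  have g2 := mul_le_mul_of_nonneg_left (main.trans (add_le_add le_rfl g1)) hq0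
  have g3 : (n : ℝ) ^ k * (n ^ r * p ^ (C + 1) + n ^ k * (1 / n ^ (2 * k + 1))) ≤ 2 / √n := by
    rw [mul_add, show (2 : ℝ) / √n = 1 / √n + 1 / √n by ring]; linarith
  have g4 := mul_le_mul hq g3 (by positivity) zero_le_one
  rw [add_div]
  linarith

lemma card_edge {n r s : ℕ} (hrs : r ≤ s) (x : RSet n r × Move n r s) : (edge x).card = s := by
  rw [edge, Multiset.card_add, x.2.2, ← Finset.card_def, x.1.2]; omega

open Classical in
lemma win_split {n r s : ℕ} [Nonempty (RSet n r)] {E : Finset (Finset (Fin k))} {δ : ℝ} (hb : Bottleneck E r δ)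
    {l : List (RSet n r × Move n r s)} (h : Contains E l) :
    ∃ P u g, GoodT E δ P u g ∧ ∃ φ : Fin k → Fin n, ∃ l1 l2, l = [] ++ l1 ++ l2 ∧
      Comp Subtype.val edge P u φ ([] ++ l1) ∧ tgt (E \ P) u φ ≤ draws Subtype.val l2 := by
  obtain ⟨φ, hφ⟩ := h
  have : ∀ e, ∃ j : ℕ, e ∈ E → ∃ hj : j < l.length, edge l[j] = (e.image φ).val := by
    intro e
    by_cases he : e ∈ E
    · obtain ⟨x, hx, h1⟩ := hφ e he
      obtain ⟨j, hj, rfl⟩ := List.mem_iff_getElem.1 hx
      exact ⟨j, fun _ => ⟨hj, by rw [h1, map_eq_image]⟩⟩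
    · exact ⟨0, fun h => absurd h he⟩
  choose j hj using this
  let u : Finset (Fin k) → Finset (Fin k) := fun e =>
    if he : e ∈ E then {x ∈ e | φ x ∈ (l[j e]'(hj e he).1).1.1} else ∅
  have hu : ∀ e (he : e ∈ E), (l[j e]'(hj e he).1).1.1 = (u e).image φ := by
    intro e he
    ext y
    simp only [u, dif_pos he, mem_image, mem_filter]
    constructor
    · intro hy
      have : y ∈ edge (l[j e]'(hj e he).1) := Multiset.mem_add.2 (Or.inl hy)
      rw [(hj e he).2] at this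
      obtain ⟨x, hx, rfl⟩ := mem_image.1 this
      exact ⟨x, ⟨hx, hy⟩, rfl⟩
    · rintro ⟨x, ⟨-, hx⟩, rfl⟩; exact hx
  obtain ⟨θ, g, hg⟩ := hb j u (fun e he e' he' hh => by
      have h1 := (hj e he).2
      have h2 := (hj e' he').2
      simp only [hh] at h1
      rw [h2] at h1
      exact (image_injective φ.injective (val_injective h1)).symm)
    (fun e he => ⟨by simp only [u, dif_pos he]; exact filter_subset _ _, by
      rw [← card_image_of_injective _ φ.injective, ← hu e he]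
      exact (l[j e]'(hj e he).1).1.2⟩)
  refine ⟨_, u, g, hg, φ, l.take θ, l.drop θ, by simp, ⟨φ.injective, fun e he => ?_⟩, ?_⟩
  · obtain ⟨he, hlt⟩ := mem_filter.1 he
    refine ⟨_, ?_, (hj e he).2, hu e he⟩
    rw [List.nil_append, List.mem_take_iff_getElem]
    exact ⟨j e, lt_min hlt (hj e he).1, rfl⟩
  · refine Comp.tgt_le Subtype.val edge ⟨φ.injective, fun e he => ?_⟩
    obtain ⟨he, hlt⟩ := mem_sdiff.1 he
    have hge : θ ≤ j e := not_lt.1 fun h => hlt (mem_filter.2 ⟨he, h⟩)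
    refine ⟨_, ?_, (hj e he).2, hu e he⟩
    rw [List.mem_drop_iff_getElem]
    exact ⟨j e - θ, by have := (hj e he).1; omega, by simp [Nat.add_sub_cancel' hge]⟩

theorem win_bound {r s : ℕ} (hrs : r < s) {E : Finset (Finset (Fin k))} {δ : ℝ} (hδ : 0 < δ)
    (hb : Bottleneck E r δ) :
    ∃ c : ℝ, ∀ n : ℕ, 0 < n → r ≤ n → ∀ (S : Strategy (RSet n r) (Move n r s)) (T : ℕ),
      (T : ℝ) / n.choose r ≤ (n : ℝ) ^ (-δ) → winProb E S T ≤ c / √n := by
  classical
  obtain ⟨C0, hC0⟩ := exists_nat_ge ((r + k + 1 : ℝ) / δ)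
  set C := C0 + 1 with hCdef
  have hC : (r + k + 1 : ℝ) ≤ δ * (C + 1) := by
    rw [div_le_iff₀ hδ] at hC0
    rw [hCdef]; push_cast; nlinarith
  set c0 : ℝ := (C * s : ℝ) ^ k * (2 ^ k * (k + k * (4 * k + 2) + 1 : ℕ) ^ k) + 2 with hc0
  let Tr := Finset (Finset (Fin k)) × (Finset (Fin k) → Finset (Fin k)) × Finset (Fin k)
  refine ⟨Fintype.card Tr * c0, fun n hn hrn S T hT => ?_⟩
  have hcard : Fintype.card (RSet n r) = n.choose r := by
    rw [Fintype.card_finset_len, Fintype.card_fin]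
  have : Nonempty (RSet n r) := Fintype.card_pos_iff.1 (by rw [hcard]; exact Nat.choose_pos hrn)
  rw [← hcard] at hT
  have pt : ∀ l : List (RSet n r × Move n r s), (if Contains E l then (1 : ℝ) else 0) ≤
      ∑ τ : Tr with GoodT E δ τ.1 τ.2.1 τ.2.2, ∑ φ : Fin k → Fin n,
        if ∃ l1 l2, l = [] ++ l1 ++ l2 ∧ Comp Subtype.val edge τ.1 τ.2.1 φ ([] ++ l1) ∧
          tgt (E \ τ.1) τ.2.1 φ ≤ draws Subtype.val l2 then 1 else 0 := by
    intro l
    split_ifs with h
    · obtain ⟨P, u, g, hg, φ, hφ⟩ := win_split hb h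
      refine le_trans ?_ (single_le_sum (fun _ _ => sum_nonneg fun _ _ => by positivity)
        (mem_filter.2 ⟨mem_univ ((P, u, g) : Tr), hg⟩))
      refine le_trans ?_ (single_le_sum (fun _ _ => by positivity) (mem_univ φ))
      rw [if_pos hφ]
    · exact sum_nonneg fun _ _ => sum_nonneg fun _ _ => by positivity
  refine (Ex_le S T [] pt).trans ?_
  rw [Ex_sum]
  have hc : 0 ≤ c0 / √n := by positivity
  refine (sum_le_sum (g := fun _ => c0 / √n) fun τ hτ => ?_).trans ?_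
  · rw [Ex_sum]
    refine le_trans (sum_le_sum fun φ _ => (stop S Subtype.val Subtype.val_injective
      (Comp Subtype.val edge τ.1 τ.2.1 φ) (fun _ l h => h.append _ _ l) _ T []).trans
      (mul_le_mul_of_nonneg_right (pow_le_pow_left₀ (by positivity) hT _)
        (Ex_nonneg S _ _ _ fun l => by positivity))) ?_
    simp only [card_tgt]
    rw [← mul_sum, ← Ex_sum]
    simp only [sum_boole]
    exact triple_bound S Subtype.val Subtype.val_injective edge hn
      (fun x => (card_edge hrs.le x).le) (by omega) (by omega)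
      (by rw [hcard]; exact Nat.choose_le_pow n r) hδ hC T hT (mem_filter.1 hτ).2
  · rw [sum_const, nsmul_eq_mul, mul_div_assoc]
    exact mul_le_mul_of_nonneg_right (by exact_mod_cast card_le_univ _) hc

end Pool.Agent.SemiRandom
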