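import Pool.Agent.P.MP_c53d0e_pr.Ex

set_option autoImplicit false
set_option linter.unusedSectionVars false

namespace Pool.Agent.SemiRandom

open Finset

section generic
variable {α β : Type} [Fintype α] [Fintype β] [Nonempty α] [Nonempty β]

lemma val_nonneg (t : ℕ) (h : List (α × β)) (f : List (α × β) → ℝ) (hf : ∀ l, 0 ≤ f l) :
    0 ≤ val t h f := (val_const_le 0 t h).trans (val_mono t h _ _ fun _ => hf _)

open Classical in
def Reach (T : ℕ) (A B : List (α × β) → Prop) (ε : ℝ) : Prop :=
  ∀ h, A h → 1 - ε ≤ val T h (fun l => if B l then 1 else 0)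

lemma Reach.trans {T T' : ℕ} {A B C : List (α × β) → Prop} {ε ε' : ℝ} (h1 : Reach T A B ε)
    (h2 : Reach T' B C ε') (hε : 0 ≤ ε') : Reach (T + T') A C (ε + ε') := by
  classical
  intro h hA
  rw [val_add]
  have a := h1 h hA
  have b := val_sub_const ε' T h (fun l => if B l then (1 : ℝ) else 0)
  refine le_trans (by linarith) (b.trans (val_mono T h _ _ fun l => ?_))
  split_ifs with hB
  · exact h2 _ hB
  · exact le_trans (by linarith) (val_nonneg _ _ _ fun _ => by positivity)

lemma Reach.of_imp {A B : List (α × β) → Prop} (T : ℕ) {ε : ℝ} (hε : 0 ≤ ε)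
    (H : ∀ h l, A h → B (h ++ l)) : Reach T A B ε := by
  intro h hA
  refine le_trans (by linarith) ((val_const_le 1 T h).trans (val_mono T h _ _ fun l => ?_))
  rw [if_pos (H h l hA)]

lemma Reach.post {T : ℕ} {h : List (α × β)} {B C : List (α × β) → Prop}
    {_ : DecidablePred B} {_ : DecidablePred C} (H : ∀ l, B (h ++ l) → C (h ++ l)) :
    val T h (fun l => if B l then (1 : ℝ) else 0) ≤ val T h (fun l => if C l then 1 else 0) := by
  refine val_mono T h _ _ fun l => ?_
  split_ifs with a b
  · exact le_rfl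
  · exact absurd (H l a) b
  · exact zero_le_one
  · exact le_rfl

open Classical in
lemma phase (N : List (α × β) → ℕ) (hN : ∀ h l, N h ≤ N (h ++ l)) (y : ℕ) {b : ℝ} (hb : 0 < b)
    (hb1 : b ≤ 1)
    (H : ∀ h, N h < y → b * Fintype.card α ≤ #{U | ∃ V, N h < N (h ++ [(U, V)])}) (T : ℕ) :
    ∀ h, 1 - (y - N h : ℕ) / (b * (T + 1)) ≤ val T h (fun l => if y ≤ N l then 1 else 0) := by
  have done : ∀ (T : ℕ) h, y ≤ N h →
      1 - (y - N h : ℕ) / (b * (T + 1)) ≤ val T h (fun l => if y ≤ N l then 1 else 0) := by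
    intro T h hy
    rw [Nat.sub_eq_zero_of_le hy, Nat.cast_zero, zero_div, sub_zero]
    refine (val_const_le 1 T h).trans (val_mono T h _ _ fun l => ?_)
    rw [if_pos (hy.trans (hN h l))]
  induction T with
  | zero =>
    intro h
    rcases le_or_gt y (N h) with hy | hy
    · exact done 0 h hy
    · refine le_trans ?_ (val_nonneg _ _ _ fun _ => by positivity)
      have : (1 : ℝ) ≤ (y - N h : ℕ) := by exact_mod_cast (by omega : 1 ≤ y - N h)
      rw [sub_nonpos, one_le_div (by positivity)]
      simp only [Nat.cast_zero, zero_add, mul_one]; linarith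
  | succ T ih =>
    intro h
    rcases le_or_gt y (N h) with hy | hy
    · exact done _ h hy
    set j : ℝ := ((y - N h : ℕ) : ℝ) with hj
    have hD : 0 < b * (T + 1) := by positivity
    by_cases hbig : b * ((T + 1 : ℕ) + 1) ≤ j
    · refine le_trans ?_ (val_nonneg _ _ _ fun _ => by positivity)
      rw [sub_nonpos, one_le_div (by positivity)]
      exact hbig
    simp only [val]
    have hA : (0 : ℝ) < Fintype.card α := card_pos'
    have step : ∀ U, 1 - j / (b * (T + 1)) + (if ∃ V, N h < N (h ++ [(U, V)]) then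
        1 / (b * (T + 1)) else 0) ≤ univ.sup' univ_nonempty fun V =>
          val T (h ++ [(U, V)]) (fun l => if y ≤ N l then 1 else 0) := by
      intro U
      split_ifs with hU
      · obtain ⟨V, hV⟩ := hU
        refine le_trans (le_trans ?_ (ih (h ++ [(U, V)]))) (le_sup' (fun V =>
          val T (h ++ [(U, V)]) (fun l => if y ≤ N l then 1 else 0)) (mem_univ V))
        have : ((y - N (h ++ [(U, V)]) : ℕ) : ℝ) + 1 ≤ j := by
          rw [hj]; exact_mod_cast (by omega : y - N (h ++ [(U, V)]) + 1 ≤ y - N h)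
        have := div_le_div_of_nonneg_right this hD.le
        rw [add_div] at this
        linarith
      · obtain ⟨V⟩ := ‹Nonempty β›
        refine le_trans (le_trans ?_ (ih (h ++ [(U, V)]))) (le_sup' (fun V =>
          val T (h ++ [(U, V)]) (fun l => if y ≤ N l then 1 else 0)) (mem_univ V))
        have : ((y - N (h ++ [(U, V)]) : ℕ) : ℝ) ≤ j := by
          rw [hj]; exact_mod_cast Nat.sub_le_sub_left (hN h _) y
        have := div_le_div_of_nonneg_right this hD.le
        linarith
    rw [le_div_iff₀ hA]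
    refine le_trans ?_ (sum_le_sum fun U _ => step U)
    rw [sum_add_distrib, sum_const, card_univ, nsmul_eq_mul, ← sum_filter, sum_const, nsmul_eq_mul]
    have a := mul_le_mul_of_nonneg_right (H h hy) (show 0 ≤ 1 / (b * (T + 1)) by positivity)
    have c : 1 - j / (b * ((T + 1 : ℕ) + 1)) ≤ 1 - j / (b * (T + 1)) + b * (1 / (b * (T + 1))) := by
      push_cast at hbig ⊢
      have : (j - b) / (b * (T + 1)) ≤ j / (b * (T + 1 + 1)) := by
        rw [div_le_div_iff₀ hD (by positivity)]
        nlinarith
      rw [sub_div] at this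
      rw [mul_one_div]
      linarith
    nlinarith

end generic

variable {n r s : ℕ} [Nonempty (RSet n r)] [Nonempty (Move n r s)]

def HasEdge (h : List (RSet n r × Move n r s)) (e : Finset (Fin n)) : Prop :=
  ∃ x ∈ h, edge x = e.val

lemma HasEdge.append {h : List (RSet n r × Move n r s)} {e : Finset (Fin n)} (H : HasEdge h e)
    (l : List (RSet n r × Move n r s)) : HasEdge (h ++ l) e :=
  H.imp fun _ hx => ⟨List.mem_append_left _ hx.1, hx.2⟩

def Cl (A : Finset (Fin n)) (h : List (RSet n r × Move n r s)) : Prop :=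
  ∀ e ⊆ A, e.card = s → HasEdge h e

def Star (A : Finset (Fin n)) (F : Finset (Finset (Fin n))) (y : ℕ)
    (h : List (RSet n r × Move n r s)) : Prop :=
  Cl A h ∧ ∃ Z : Finset (Fin n), Disjoint Z A ∧ y ≤ Z.card ∧
    ∀ z ∈ Z, ∀ f ∈ F, HasEdge h (insert z f)

lemma star_step (hr : 1 ≤ r) (hrs : r < s) {A : Finset (Fin n)} {F : Finset (Finset (Fin n))}
    {f : Finset (Fin n)} (hfA : f ⊆ A) (hf : f.card = s - 1) {y m T : ℕ} (hy : 0 < y) (hm : 2 ≤ m)
    {ε : ℝ} (hT : 2 * (Fintype.card (RSet n r) : ℝ) ≤ ε * (m * (T + 1))) :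
    Reach T (Star (r := r) (s := s) A F (y * m)) (Star A (insert f F) y) ε := by
  classical
  rintro h ⟨hA, Z, hZA, hZ, hZF⟩
  obtain ⟨a, haf, ha⟩ := exists_subset_card_eq (show r - 1 ≤ f.card by omega)
  have nz : ∀ z ∈ Z, z ∉ a := fun z hz hza => disjoint_left.1 hZA hz (hfA (haf hza))
  let U : Z → RSet n r := fun z => ⟨insert z.1 a, by
    rw [card_insert_of_notMem (nz z.1 z.2), ha]; omega⟩
  have Uinj : Function.Injective U := fun z z' hh => by
    have h1 : insert z.1 a = insert z'.1 a := congrArg Subtype.val hh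
    have h2 : z.1 ∈ insert z'.1 a := h1 ▸ mem_insert_self _ _
    exact Subtype.ext ((mem_insert.1 h2).resolve_right (nz _ z.2))
  let V : Move n r s := ⟨(f \ a).val, by
    rw [← Finset.card_def, card_sdiff_of_subset haf, hf, ha]; omega⟩
  have ed : ∀ z : Z, edge (U z, V) = (insert z.1 f).val := by
    intro z
    have hzf : z.1 ∉ f := fun hh => disjoint_left.1 hZA z.2 (hfA hh)
    simp only [edge, U, V]
    rw [insert_val_of_notMem (nz z.1 z.2), insert_val_of_notMem hzf, Multiset.cons_add, sdiff_val,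
      add_tsub_cancel_of_le (val_le_iff.2 haf)]
  let N : List (RSet n r × Move n r s) → ℕ := fun l => #{z ∈ Z | HasEdge l (insert z f)}
  have hN : ∀ h l, N h ≤ N (h ++ l) := fun h l =>
    card_le_card (monotone_filter_right _ fun z _ hz => hz.append l)
  have hc : (0 : ℝ) < Fintype.card (RSet n r) := card_pos'
  have hZc : Z.card ≤ Fintype.card (RSet n r) := by
    simpa using Fintype.card_le_of_injective U Uinj
  have hym : (y * m : ℝ) ≤ Z.card := by exact_mod_cast hZ
  have hy0 : (0 : ℝ) < y := by exact_mod_cast hy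
  have hm2 : (2 : ℝ) ≤ m := by exact_mod_cast hm
  have key := phase N hN y (b := y * m / (2 * Fintype.card (RSet n r))) (by positivity)
    (by
      rw [div_le_one (by positivity)]
      have : (Z.card : ℝ) ≤ Fintype.card (RSet n r) := by exact_mod_cast hZc
      linarith)
    (fun l hl => by
      have h1 : #{z : Z | ¬ HasEdge l (insert z.1 f)} ≤ #{W | ∃ V, N l < N (l ++ [(W, V)])} := by
        refine card_le_card_of_injOn U (fun z hz => ?_) Uinj.injOn
        simp only [coe_filter, mem_univ, true_and, Set.mem_ofPred_eq] at hz ⊢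
        refine ⟨V, card_lt_card ⟨monotone_filter_right _ fun z _ hz => hz.append _, fun hh => ?_⟩⟩
        have : z.1 ∈ ({w ∈ Z | HasEdge (l ++ [(U z, V)]) (insert w f)} : Finset _) :=
          mem_filter.2 ⟨z.2, (U z, V), by simp, ed z⟩
        exact hz (mem_filter.1 (hh this)).2
      have h2 : #{z : Z | ¬ HasEdge l (insert z.1 f)} + N l = Z.card := by
        have := card_filter_add_card_filter_not (s := Z) fun z => HasEdge l (insert z f)
        rw [← this, add_comm]
        congr 1
        rw [univ_eq_attach, filter_attach (fun z => ¬ HasEdge l (insert z f))]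
        simp
      have h3 : (Z.card : ℝ) ≤ #{W | ∃ V, N l < N (l ++ [(W, V)])} + y := by
        exact_mod_cast (by omega : Z.card ≤ #{W | ∃ V, N l < N (l ++ [(W, V)])} + y)
      have e : y * m / (2 * (Fintype.card (RSet n r) : ℝ)) * Fintype.card (RSet n r) =
          y * m / 2 := by field_simp
      rw [e]
      nlinarith) T h
  refine le_trans (le_trans ?_ key) (Reach.post fun l hl => ?_)
  · have h1 : ((y - N h : ℕ) : ℝ) ≤ y := by exact_mod_cast Nat.sub_le _ _
    refine sub_le_sub_left ((div_le_div_of_nonneg_right h1 (by positivity)).trans ?_) 1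
    rw [div_le_iff₀ (by positivity)]
    have e : ε * (y * m / (2 * (Fintype.card (RSet n r) : ℝ)) * (T + 1)) =
        y * (ε * (m * (T + 1)) / (2 * Fintype.card (RSet n r))) := by ring
    rw [e]
    exact le_mul_of_one_le_right hy0.le ((one_le_div (by positivity)).2 hT)
  · refine ⟨fun e he hs => (hA e he hs).append l, {z ∈ Z | HasEdge (h ++ l) (insert z f)},
      hZA.mono_left (filter_subset _ _), hl, fun z hz f' hf' => ?_⟩
    rcases mem_insert.1 hf' with rfl | hf'
    · exact (mem_filter.1 hz).2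
    · exact (hZF z (mem_filter.1 hz).1 f' hf').append l

lemma Star.append {A : Finset (Fin n)} {F : Finset (Finset (Fin n))} {y : ℕ}
    {h : List (RSet n r × Move n r s)} (H : Star A F y h) (l : List (RSet n r × Move n r s)) :
    Star A F y (h ++ l) := by
  obtain ⟨hA, Z, h1, h2, h3⟩ := H
  exact ⟨fun e he hs => (hA e he hs).append l, Z, h1, h2, fun z hz f hf => (h3 z hz f hf).append l⟩

lemma star_all (hr : 1 ≤ r) (hrs : r < s) {A : Finset (Fin n)} {m T d : ℕ} (hm : 2 ≤ m)
    {ε : ℝ} (hε : 0 ≤ ε) (hT : 2 * (Fintype.card (RSet n r) : ℝ) ≤ ε * (m * (T + 1)))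
    (hn : m ^ d + A.card ≤ n) (F : Finset (Finset (Fin n))) :
    F ⊆ A.powersetCard (s - 1) → F.card ≤ d →
    Reach (F.card * T) (Cl (r := r) (s := s) A) (Star A F (m ^ (d - F.card))) (F.card * ε) := by
  induction F using Finset.induction_on with
  | empty =>
    intro _ _
    refine Reach.of_imp _ (by simp) fun h l hA => ⟨fun e he hs => (hA e he hs).append l, Aᶜ,
      disjoint_compl_left, ?_, by simp⟩
    rw [card_compl, Fintype.card_fin, card_empty, Nat.sub_zero]; omega
  | insert f F hf ih =>
    intro hsub hd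
    rw [card_insert_of_notMem hf] at hd ⊢
    have h1 := ih ((subset_insert _ _).trans hsub) (by omega)
    obtain ⟨h2, h3⟩ := mem_powersetCard.1 (hsub (mem_insert_self _ _))
    have h4 := star_step hr hrs (F := F) h2 h3 (y := m ^ (d - (F.card + 1))) (by positivity) hm hT
    rw [← pow_succ, show d - (F.card + 1) + 1 = d - F.card by omega] at h4
    have := h1.trans h4 hε
    rw [add_mul]; push_cast; rw [add_mul, one_mul, one_mul]
    exact this

lemma clique_all (hr : 1 ≤ r) (hrs : r < s) {k m T : ℕ} (hm : 2 ≤ m)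
    {ε : ℝ} (hε : 0 ≤ ε) (hT : 2 * (Fintype.card (RSet n r) : ℝ) ≤ ε * (m * (T + 1)))
    (hn : m ^ (k - 1).choose (s - 1) + k ≤ n) (j : ℕ) (hj : j ≤ k) :
    Reach (j * ((k - 1).choose (s - 1) * T)) (fun _ => True)
      (fun h : List (RSet n r × Move n r s) => ∃ A : Finset (Fin n), A.card = j ∧ Cl A h)
      (j * ((k - 1).choose (s - 1) * ε)) := by
  classical
  set d := (k - 1).choose (s - 1) with hd
  induction j with
  | zero =>
    refine Reach.of_imp _ (by simp) fun h l _ => ⟨∅, rfl, fun e he hs => ?_⟩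
    rw [subset_empty.1 he, card_empty] at hs; omega
  | succ j ih =>
    have h2 : Reach (d * T)
        (fun h : List (RSet n r × Move n r s) => ∃ A : Finset (Fin n), A.card = j ∧ Cl A h)
        (fun h => ∃ A : Finset (Fin n), A.card = j + 1 ∧ Cl A h) (d * ε) := by
      rintro h ⟨A, hA, hc⟩
      have hF : (A.powersetCard (s - 1)).card ≤ d := by
        rw [card_powersetCard, hA]; exact Nat.choose_le_choose _ (by omega)
      have h3 := star_all hr hrs hm hε hT (A := A) (d := d) (by omega) _ Subset.rfl hF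
      obtain ⟨c, hc'⟩ := Nat.exists_eq_add_of_le hF
      have h4 := h3.trans (Reach.of_imp (c * T) (ε := c * ε) (by positivity)
        fun h l H => H.append l) (by positivity)
      rw [← add_mul, ← add_mul, ← Nat.cast_add, ← hc'] at h4
      refine (h4 h hc).trans (Reach.post ?_)
      rintro l ⟨hA', Z, hZA, hZ, hZF⟩
      obtain ⟨z, hz⟩ := card_pos.1 (lt_of_lt_of_le (by positivity) hZ)
      have hzA : z ∉ A := disjoint_left.1 hZA hz
      refine ⟨insert z A, by rw [card_insert_of_notMem hzA, hA], fun e he hs => ?_⟩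
      by_cases hze : z ∈ e
      · rw [← insert_erase hze]
        exact hZF z hz _ (mem_powersetCard.2 ⟨subset_insert_iff.1 he,
          by rw [card_erase_of_mem hze, hs]⟩)
      · exact hA' e ((subset_insert_iff_of_notMem hze).1 he) hs
    have := (ih (by omega)).trans h2 (by positivity)
    rw [add_mul]; push_cast; rw [add_mul, one_mul, one_mul]
    exact this

lemma win_upper (hr : 1 ≤ r) (hrs : r < s) {k m T : ℕ} (hm : 2 ≤ m)
    {ε : ℝ} (hε : 0 ≤ ε) (hT : 2 * (Fintype.card (RSet n r) : ℝ) ≤ ε * (m * (T + 1)))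
    (hn : m ^ (k - 1).choose (s - 1) + k ≤ n) :
    ∃ S : Strategy (RSet n r) (Move n r s), 1 - k * ((k - 1).choose (s - 1) * ε) ≤
      winProb (clique k s) S (k * ((k - 1).choose (s - 1) * T)) := by
  classical
  obtain ⟨S, hS⟩ := exists_strategy (k * ((k - 1).choose (s - 1) * T))
    (fun h : List (RSet n r × Move n r s) => if Contains (clique k s) h then (1 : ℝ) else 0)
  refine ⟨S, ?_⟩
  rw [winProb]
  refine le_trans ((clique_all hr hrs hm hε hT hn k le_rfl [] trivial).trans (Reach.post ?_)) hS.ge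
  rintro l ⟨A, hA, hc⟩
  refine ⟨(A.orderEmbOfFin hA).toEmbedding, fun e he => hc _ (fun x hx => ?_) ?_⟩
  · obtain ⟨y, -, rfl⟩ := mem_map.1 hx
    exact orderEmbOfFin_mem A hA y
  · rw [card_map]; exact (mem_powersetCard.1 he).2

end Pool.Agent.SemiRandom
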