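import Pool.Agent.P.MP_c53d0e_pr.Asym
import Pool.Agent.P.MP_c53d0e_pr.Upper

set_option autoImplicit false

namespace Pool.Agent.SemiRandom

open Finset Filter Topology

variable {k : ℕ}

lemma tauQ_mono (G : Finset (Finset (Fin k))) (r s : ℕ) : Monotone (tauQ G r s) := by
  intro q q' hq
  refine limsup_le_limsup ?_
  filter_upwards [eventually_ge_atTop 1] with n hn
  refine EReal.div_le_div_right_of_nonneg (by exact_mod_cast Real.log_natCast_nonneg n)
    (ENNReal.log_le_log (ENat.toENNReal_le.2 ?_))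
  exact iInf_mono fun S => iInf_mono fun t => iInf_mono' fun h => ⟨hq.trans h, le_rfl⟩

lemma tau_tendsto (G : Finset (Finset (Fin k))) (r s : ℕ) :
    Tendsto (tauQ G r s) (𝓝[<] 1) (𝓝 (tau G r s)) :=
  tendsto_nhds_limUnder ⟨_, (tauQ_mono G r s).tendsto_nhdsLT 1⟩

lemma tauQ_lower {r s : ℕ} (hrs : r < s) {G : Finset (Finset (Fin k))} {δ δ' : ℝ} (hδ : 0 < δ)
    (hδ' : δ < δ') (hb : Bottleneck G r δ) {q : ℝ} (hq : 0 < q) :
    ((r - δ' : ℝ) : EReal) ≤ tauQ G r s q := by
  obtain ⟨c, hc⟩ := win_bound hrs hδ hb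
  have t1 : Tendsto (fun n : ℕ => c / √(n : ℝ)) atTop (𝓝 0) :=
    tendsto_const_nhds.div_atTop (Real.tendsto_sqrt_atTop.comp tendsto_natCast_atTop_atTop)
  have t2 := choose_lim (a := id) one_pos (tendsto_const_nhds.congr' (by
    filter_upwards [eventually_gt_atTop 0] with n hn
    simp only [id]; field_simp)) r
  have t3 : Tendsto (fun n : ℕ => (n : ℝ) ^ (-(δ' - δ))) atTop (𝓝 0) :=
    (tendsto_rpow_neg_atTop (by linarith)).comp tendsto_natCast_atTop_atTop
  refine le_limsup_of_frequently_le (Eventually.frequently ?_)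
  filter_upwards [t1.eventually (gt_mem_nhds hq), t3.eventually_lt t2 (by positivity),
    eventually_ge_atTop 2, eventually_ge_atTop r] with n h1 h2 hn hrn
  have hn0 : (0 : ℝ) < n := by exact_mod_cast (by omega : 0 < n)
  have hlog : 0 < Real.log n := Real.log_pos (by exact_mod_cast (by omega : 1 < n))
  have hC : (0 : ℝ) < n.choose r := by exact_mod_cast Nat.choose_pos hrn
  have key : ENNReal.ofReal ((n : ℝ) ^ (r - δ')) ≤ tauN G r s q n := by
    rcases eq_or_ne (tauN G r s q n) ⊤ with h | h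
    · rw [h]; exact le_top
    obtain ⟨⟨t, ⟨S, hS⟩⟩, ht⟩ : ∃ t : {t : ℕ // ∃ S : Strategy (RSet n r) (Move n r s),
        q ≤ winProb G S t}, ((t : ℕ) : ℕ∞) ≤ tauN G r s q n := by
      by_contra hcon
      push Not at hcon
      have : tauN G r s q n + 1 ≤ tauN G r s q n :=
        le_iInf fun S => le_iInf₂ fun t ht => Order.add_one_le_of_lt (hcon ⟨t, S, ht⟩)
      exact absurd ((ENat.add_one_le_iff h).1 this) (lt_irrefl _)
    refine le_trans ?_ (ENat.toENNReal_le.2 ht)
    rw [ENat.toENNReal_coe, ← ENNReal.ofReal_natCast]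
    refine ENNReal.ofReal_le_ofReal (not_lt.1 fun hlt => ?_)
    refine absurd (hS.trans (hc n (by omega) hrn S t ?_)) (not_le.2 h1)
    rw [div_le_iff₀ hC]
    simp only [id] at h2
    rw [lt_div_iff₀ (by positivity)] at h2
    have e : (n : ℝ) ^ (r - δ') = (n : ℝ) ^ (-δ) * ((n : ℝ) ^ (-(δ' - δ)) * (n : ℝ) ^ r) := by
      rw [← Real.rpow_natCast, ← Real.rpow_add hn0, ← Real.rpow_add hn0]; congr 1; ring
    rw [e] at hlt
    exact hlt.le.trans (mul_le_mul_of_nonneg_left h2.le (by positivity))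
  refine le_trans (le_of_eq ?_) (EReal.div_le_div_right_of_nonneg
    (by exact_mod_cast hlog.le) (ENNReal.log_le_log key))
  rw [ENNReal.log_ofReal_of_pos (by positivity), ← EReal.coe_div, Real.log_rpow hn0,
    mul_div_cancel_right₀ _ hlog.ne']

lemma tauQ_upper {r s : ℕ} (hr : 1 ≤ r) (hrs : r < s) (hk : s ≤ k) {q : ℝ} (hq : q < 1) :
    tauQ (clique k s) r s q ≤ ((r - 1 / (k - 1).choose (s - 1) : ℝ) : EReal) := by
  set d := (k - 1).choose (s - 1) with hd
  have hd0 : 0 < d := Nat.choose_pos (by omega)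
  have hdR : (1 : ℝ) ≤ d := by exact_mod_cast hd0
  have hkR : (1 : ℝ) ≤ k := by exact_mod_cast (by omega : 1 ≤ k)
  set ε := (1 - q) / (k * d) with hε
  have hε0 : 0 < ε := div_pos (by linarith) (by positivity)
  set c : ℝ := k * d * (8 / ε) with hc
  have hc0 : 0 < c := by positivity
  have t1 : Tendsto (fun n : ℕ => Real.log c / Real.log n + (r - 1 / d : ℝ)) atTop
      (𝓝 (0 + (r - 1 / d : ℝ))) :=
    (tendsto_const_nhds.div_atTop
      (Real.tendsto_log_atTop.comp tendsto_natCast_atTop_atTop)).add_const _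
  rw [zero_add] at t1
  rw [← (EReal.tendsto_coe.2 t1).limsup_eq]
  refine limsup_le_limsup ?_
  have t2 : Tendsto (fun n : ℕ => (n : ℝ) ^ (1 / d : ℝ)) atTop atTop :=
    (tendsto_rpow_atTop (by positivity)).comp tendsto_natCast_atTop_atTop
  filter_upwards [t2.eventually_ge_atTop 4, eventually_ge_atTop (2 * k)] with n h4 hn
  have hn0 : (0 : ℝ) < n := by exact_mod_cast (by omega : 0 < n)
  have hlog : 0 < Real.log n := Real.log_pos (by exact_mod_cast (by omega : 1 < n))
  have hcard : Fintype.card (RSet n r) = n.choose r := by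
    rw [Fintype.card_finset_len, Fintype.card_fin]
  have : Nonempty (RSet n r) :=
    Fintype.card_pos_iff.1 (by rw [hcard]; exact Nat.choose_pos (by omega))
  have : Nonempty (Move n r s) := ⟨Sym.replicate _ ⟨0, by omega⟩⟩
  set x := (n : ℝ) ^ (1 / d : ℝ) with hx
  set m := ⌊x / 2⌋₊ with hm
  have m1 : (m : ℝ) ≤ x / 2 := Nat.floor_le (by linarith)
  have m2 : x / 2 < m + 1 := Nat.lt_floor_add_one _
  have m3 : 2 ≤ m := Nat.le_floor (by push_cast; linarith)
  have m4 : x / 4 ≤ m := by linarith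
  have xd : x ^ d = n := by
    rw [hx, one_div, Real.rpow_inv_natCast_pow hn0.le hd0.ne']
  have m5 : m ^ d + k ≤ n := by
    have a : (m : ℝ) ^ d ≤ (x / 2) ^ d := pow_le_pow_left₀ (by positivity) m1 d
    have b : (2 : ℝ) ≤ 2 ^ d := le_self_pow₀ one_le_two hd0.ne'
    rw [div_pow, xd] at a
    have c : (n : ℝ) / 2 ^ d ≤ n / 2 := div_le_div_of_nonneg_left hn0.le two_pos b
    have e : (2 * k : ℝ) ≤ n := by exact_mod_cast hn
    have : ((m : ℝ) ^ d + k) ≤ n := by linarith
    exact_mod_cast this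
  have mp : (0 : ℝ) < m := by linarith
  set T := ⌊2 * (n : ℝ) ^ r / (ε * m)⌋₊ with hT
  have T1 : (T : ℝ) ≤ 2 * (n : ℝ) ^ r / (ε * m) := Nat.floor_le (by positivity)
  have T2 : 2 * (n : ℝ) ^ r / (ε * m) < T + 1 := Nat.lt_floor_add_one _
  obtain ⟨S, hS⟩ := win_upper (n := n) hr hrs (k := k) (T := T) m3 hε0.le (by
    rw [div_lt_iff₀ (by positivity)] at T2
    have : (Fintype.card (RSet n r) : ℝ) ≤ n ^ r := by
      rw [hcard]; exact_mod_cast Nat.choose_le_pow n r
    linarith) m5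
  rw [← hd] at hS
  have hq' : q ≤ winProb (clique k s) S (k * (d * T)) := by
    refine le_trans (le_of_eq ?_) hS
    rw [hε]; field_simp; ring
  have key : (tauN (clique k s) r s q n : ENNReal) ≤
      ENNReal.ofReal (c * (n : ℝ) ^ (r - 1 / d : ℝ)) := by
    have : tauN (clique k s) r s q n ≤ ((k * (d * T) : ℕ) : ℕ∞) :=
      (iInf_le _ S).trans (iInf₂_le (k * (d * T)) hq')
    refine (ENat.toENNReal_le.2 this).trans ?_
    rw [ENat.toENNReal_coe, ← ENNReal.ofReal_natCast]
    refine ENNReal.ofReal_le_ofReal ?_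
    rw [Real.rpow_sub hn0, Real.rpow_natCast, ← hx, hc]
    have a : 2 * (n : ℝ) ^ r / (ε * m) ≤ 2 * (n : ℝ) ^ r / (ε * (x / 4)) :=
      div_le_div_of_nonneg_left (by positivity) (by positivity)
        (mul_le_mul_of_nonneg_left m4 hε0.le)
    have b : 2 * (n : ℝ) ^ r / (ε * (x / 4)) = 8 / ε * ((n : ℝ) ^ r / x) := by
      field_simp; ring
    push_cast
    rw [← mul_assoc, mul_assoc (k * d : ℝ)]
    exact mul_le_mul_of_nonneg_left (T1.trans (a.trans b.le)) (by positivity)
  refine (EReal.div_le_div_right_of_nonneg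
    (by exact_mod_cast hlog.le) (ENNReal.log_le_log key)).trans (le_of_eq ?_)
  rw [ENNReal.log_ofReal_of_pos (by positivity), ← EReal.coe_div,
    Real.log_mul hc0.ne' (by positivity), Real.log_rpow hn0, add_div,
    mul_div_cancel_right₀ _ hlog.ne']

theorem main {r s : ℕ} (hr : 1 ≤ r) (hrs : r < s) {ε : ℝ} (hε : 0 < ε) :
    ∃ k0 : ℕ, ∀ k ≥ k0,
      ((r - (1 + ε) / (k - 1).choose (s - 1) : ℝ) : EReal) ≤ tau (clique k s) r s ∧
      tau (clique k s) r s ≤ ((r - 1 / (k - 1).choose (s - 1) : ℝ) : EReal) := by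
  obtain ⟨k0, hk0⟩ := eventually_atTop.1
    ((bottleneck_clique hrs (by omega) (half_pos hε)).and (eventually_ge_atTop s))
  refine ⟨k0, fun k hk => ?_⟩
  obtain ⟨hb, hks⟩ := hk0 k hk
  have hC : (0 : ℝ) < (k - 1).choose (s - 1) := by exact_mod_cast Nat.choose_pos (by omega)
  constructor
  · refine ge_of_tendsto (tau_tendsto _ r s) ?_
    filter_upwards [Ioo_mem_nhdsLT (zero_lt_one' ℝ)] with q hq
    exact tauQ_lower hrs (by positivity) (div_lt_div_of_pos_right (by linarith) hC) hb hq.1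
  · refine le_of_tendsto (tau_tendsto _ r s) ?_
    filter_upwards [self_mem_nhdsWithin] with q hq
    exact tauQ_upper hr hrs hks hq

end Pool.Agent.SemiRandom
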