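import Pool.Agent.P.MP_c53d0e_pr.Ex

set_option autoImplicit false
set_option linter.unusedSectionVars false

namespace Pool.Agent.SemiRandom

open Finset

variable {α β : Type} [Fintype α] [Fintype β] [Nonempty α] (S : Strategy α β)
variable {n k : ℕ} (ι : α → Finset (Fin n))

def tgt (I : Finset (Finset (Fin k))) (u : Finset (Fin k) → Finset (Fin k)) (φ : Fin k → Fin n) :
    Multiset (Finset (Fin n)) := I.val.map fun e => (u e).image φ

lemma card_tgt (I : Finset (Finset (Fin k))) (u : Finset (Fin k) → Finset (Fin k))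
    (φ : Fin k → Fin n) : (tgt I u φ).card = I.card := by simp [tgt]

lemma tgt_mono {I J : Finset (Finset (Fin k))} (h : I ⊆ J) (u : Finset (Fin k) → Finset (Fin k))
    (φ : Fin k → Fin n) : tgt I u φ ≤ tgt J u φ := Multiset.map_le_map (val_le_iff.2 h)

def Ext (P : Finset (Finset (Fin k))) (u : Finset (Fin k) → Finset (Fin k)) (A : Finset (Fin k))
    (ρ : Fin k → Fin n) (l : List (α × β)) : Finset (Fin k → Fin n) :=
  {φ | (∀ x ∈ A, φ x = ρ x) ∧ tgt P u φ ≤ draws ι l}

lemma sum_pow_le (P : Finset (Finset (Fin k))) (u : Finset (Fin k) → Finset (Fin k))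
    (A : Finset (Fin k)) (ρ : Fin k → Fin n) {p M0 : ℝ} (hp : 0 ≤ p) (hM0 : 0 ≤ M0) {B : ℕ}
    (hB : 1 ≤ B)
    (hM : ∀ R, A ⊆ R → (n : ℝ) ^ (k - R.card) * p ^ #{e ∈ P | ¬ u e ⊆ R} ≤ M0)
    (W : Finset (Fin n)) (hW : W.card ≤ B) (hA : ∀ x ∈ A, ρ x ∈ W) :
    ∑ φ : Fin k → Fin n with (∀ x ∈ A, φ x = ρ x),
      p ^ #{e ∈ P | ¬ u e ⊆ ({x | φ x ∈ W} : Finset (Fin k))} ≤ 2 ^ k * B ^ k * M0 := by
  rw [← sum_fiberwise_of_maps_to (t := univ) (g := fun φ : Fin k → Fin n =>
    ({x | φ x ∈ W} : Finset (Fin k))) (fun _ _ => mem_univ _)]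
  have : (2 : ℝ) ^ k * B ^ k * M0 = ∑ _R : Finset (Fin k), B ^ k * M0 := by
    simp [mul_assoc]
  rw [this]
  refine sum_le_sum fun R _ => ?_
  by_cases hR : A ⊆ R
  · rw [sum_congr rfl (g := fun _ => p ^ #{e ∈ P | ¬ u e ⊆ R})
      (fun φ hφ => by rw [(mem_filter.1 hφ).2]), sum_const, nsmul_eq_mul]
    have h1 : #{φ ∈ ({φ | ∀ x ∈ A, φ x = ρ x} : Finset (Fin k → Fin n)) |
        ({x | φ x ∈ W} : Finset (Fin k)) = R} ≤ B ^ k * n ^ (k - R.card) := by
      refine (card_le_card (t := Fintype.piFinset fun x => if x ∈ R then W else univ)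
        fun φ hφ => ?_).trans ?_
      · rw [Fintype.mem_piFinset]
        intro x
        split_ifs with hx
        · rw [← (mem_filter.1 hφ).2] at hx
          simpa using hx
        · exact mem_univ _
      · rw [Fintype.card_piFinset]
        simp only [apply_ite Finset.card, card_univ, Fintype.card_fin]
        rw [prod_ite, prod_const, prod_const]
        have e1 : #{x : Fin k | x ∈ R} = R.card := by simp
        have e2 : #{x : Fin k | x ∉ R} = k - R.card := by
          rw [filter_notMem_eq_sdiff, card_univ_sdiff, Fintype.card_fin]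
        rw [e1, e2]
        refine Nat.mul_le_mul_right _ ((Nat.pow_le_pow_left hW _).trans
          (Nat.pow_le_pow_right hB ?_))
        simpa using card_le_univ R
    have h2 : (#{φ ∈ ({φ | ∀ x ∈ A, φ x = ρ x} : Finset (Fin k → Fin n)) |
        ({x | φ x ∈ W} : Finset (Fin k)) = R} : ℝ) ≤ B ^ k * n ^ (k - R.card) := by
      exact_mod_cast h1
    refine (mul_le_mul_of_nonneg_right h2 (pow_nonneg hp _)).trans ?_
    rw [mul_assoc]
    exact mul_le_mul_of_nonneg_left (hM R hR) (by positivity)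
  · rw [sum_eq_zero]
    · positivity
    · intro φ hφ
      exfalso
      obtain ⟨h1, h2⟩ := mem_filter.1 hφ
      refine hR fun x hx => ?_
      rw [← h2]
      simp only [mem_filter, mem_univ, true_and] at h1 ⊢
      rw [h1 x hx]
      exact hA x hx

lemma moment (hι : Function.Injective ι) (T : ℕ) (P : Finset (Finset (Fin k)))
    (u : Finset (Fin k) → Finset (Fin k))
    (A : Finset (Fin k)) (ρ : Fin k → Fin n) {p M0 : ℝ} (hp : (T : ℝ) / Fintype.card α ≤ p)
    (hM0 : 0 ≤ M0) {B : ℕ} (hB : 1 ≤ B)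
    (hM : ∀ R, A ⊆ R → (n : ℝ) ^ (k - R.card) * p ^ #{e ∈ P | ¬ u e ⊆ R} ≤ M0) (L : ℕ) :
    ∀ (W : Finset (Fin n)) (w0 : Multiset (Finset (Fin n))), W.card + k * L ≤ B →
      (∀ x ∈ A, ρ x ∈ W) → (∀ y ∈ w0, y ⊆ W) →
      Ex S T [] (fun l => (if w0 ≤ draws ι l then 1 else 0) * (#(Ext ι P u A ρ l) : ℝ) ^ L) ≤
        p ^ w0.card * (2 ^ k * B ^ k * M0) ^ L := by
  have hp0 : 0 ≤ p := le_trans (by positivity) hp
  induction L with
  | zero =>
    intro W w0 _ _ _
    simp only [pow_zero, mul_one]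
    exact (hit S ι hι T [] w0).trans (pow_le_pow_left₀ (by positivity) hp _)
  | succ L ih =>
    intro W w0 hW hA hw
    set M := (2 : ℝ) ^ k * B ^ k * M0 with hMdef
    have hM' : 0 ≤ M := by positivity
    let I : (Fin k → Fin n) → Finset (Finset (Fin k)) := fun φ => {e ∈ P | ¬ u e ⊆ ({x | φ x ∈ W} : Finset (Fin k))}
    have pt : ∀ l : List (α × β),
        (if w0 ≤ draws ι l then 1 else 0) * (#(Ext ι P u A ρ l) : ℝ) ^ (L + 1) ≤
        ∑ φ : Fin k → Fin n with (∀ x ∈ A, φ x = ρ x),
          (if w0 + tgt (I φ) u φ ≤ draws ι l then 1 else 0) * (#(Ext ι P u A ρ l) : ℝ) ^ L := by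
      intro l
      rw [← sum_mul, pow_succ', ← mul_assoc]
      refine mul_le_mul_of_nonneg_right ?_ (by positivity)
      split_ifs with h0
      · rw [one_mul, sum_boole]
        refine Nat.cast_le.2 (card_le_card fun φ hφ => ?_)
        simp only [Ext, mem_filter, mem_univ, true_and] at hφ ⊢
        refine ⟨hφ.1, ?_⟩
        have hd : Disjoint w0 (tgt (I φ) u φ) := by
          rw [Multiset.disjoint_left]
          intro y hy hy2
          obtain ⟨e, he, rfl⟩ := Multiset.mem_map.1 hy2
          refine (mem_filter.1 he).2 fun x hx => ?_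
          simpa using hw _ hy (mem_image_of_mem φ hx)
        rw [Multiset.add_eq_union_iff_disjoint.2 hd]
        exact Multiset.union_le h0 ((tgt_mono (filter_subset _ _) u φ).trans hφ.2)
      · rw [zero_mul]
        exact sum_nonneg fun _ _ => by positivity
    refine (Ex_mono S T [] _ (fun l => ∑ φ : Fin k → Fin n with (∀ x ∈ A, φ x = ρ x),
          (if w0 + tgt (I φ) u φ ≤ draws ι l then 1 else 0) * (#(Ext ι P u A ρ l) : ℝ) ^ L)
          fun l _ => pt _).trans ?_
    rw [Ex_sum]
    have step : ∀ φ : Fin k → Fin n, Ex S T [] (fun l =>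
        (if w0 + tgt (I φ) u φ ≤ draws ι l then 1 else 0) * (#(Ext ι P u A ρ l) : ℝ) ^ L) ≤
        p ^ w0.card * M ^ L * p ^ (I φ).card := by
      intro φ
      refine (ih (W ∪ univ.image φ) _ ?_ (fun x hx => mem_union_left _ (hA x hx)) ?_).trans ?_
      · have h1 := card_union_le W (univ.image φ)
        have h2 : #(univ.image φ) ≤ k := by simpa using card_image_le (s := univ) (f := φ)
        rw [mul_add] at hW
        omega
      · intro y hy
        rcases Multiset.mem_add.1 hy with hy | hy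
        · exact (hw y hy).trans subset_union_left
        · obtain ⟨e, -, rfl⟩ := Multiset.mem_map.1 hy
          exact (image_subset_image (subset_univ _)).trans subset_union_right
      · rw [Multiset.card_add, card_tgt, pow_add]
        exact le_of_eq (by ring)
    refine (sum_le_sum fun φ _ => step φ).trans ?_
    rw [← mul_sum, pow_succ, ← mul_assoc]
    exact mul_le_mul_of_nonneg_left (sum_pow_le P u A ρ hp0 hM0 hB hM W (by omega) hA)
      (by positivity)

variable (ed : α × β → Multiset (Fin n))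

/-- The edges of `P` are present in `l`, each with random part `u e`. -/
def Comp (P : Finset (Finset (Fin k))) (u : Finset (Fin k) → Finset (Fin k)) (φ : Fin k → Fin n)
    (l : List (α × β)) : Prop :=
  Function.Injective φ ∧ ∀ e ∈ P, ∃ x ∈ l, ed x = (e.image φ).val ∧ ι x.1 = (u e).image φ

lemma Comp.append {P : Finset (Finset (Fin k))} {u : Finset (Fin k) → Finset (Fin k)}
    {φ : Fin k → Fin n} {l : List (α × β)} (h : Comp ι ed P u φ l) (l' : List (α × β)) :
    Comp ι ed P u φ (l ++ l') :=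
  ⟨h.1, fun e he => (h.2 e he).imp fun _ hx => ⟨List.mem_append_left _ hx.1, hx.2⟩⟩

lemma Comp.tgt_le {P : Finset (Finset (Fin k))} {u : Finset (Fin k) → Finset (Fin k)}
    {φ : Fin k → Fin n} {l : List (α × β)} (h : Comp ι ed P u φ l) : tgt P u φ ≤ draws ι l := by
  obtain ⟨hφ, h⟩ := h
  choose x hx1 hx2 hx3 using h
  have nd : (P.attach.val.map fun e => x e.1 e.2).Nodup := by
    refine Multiset.Nodup.map (fun e e' hh => ?_) P.attach.nodup
    have h1 := hx2 e.1 e.2
    have h2 := hx2 e'.1 e'.2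
    rw [hh, h2] at h1
    exact Subtype.ext (image_injective hφ (val_injective h1)).symm
  have le : (P.attach.val.map fun e => x e.1 e.2) ≤ (l : Multiset (α × β)) := by
    rw [Multiset.le_iff_subset nd]
    intro y hy
    obtain ⟨e, -, rfl⟩ := Multiset.mem_map.1 hy
    exact hx1 e.1 e.2
  have := Multiset.map_le_map (f := fun x : α × β => ι x.1) le
  rw [Multiset.map_map, Multiset.map_coe] at this
  refine le_trans (le_of_eq ?_) this
  rw [tgt, attach_val, ← Multiset.attach_map_val' P.val]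
  exact Multiset.map_congr rfl fun e _ => (hx3 e.1 e.2).symm

/-- Vertices determined by `g` through one functional dependency. -/
def clo (P : Finset (Finset (Fin k))) (u : Finset (Fin k) → Finset (Fin k)) (g : Finset (Fin k)) :
    Finset (Fin k) := {x | x ∈ g ∨ ∃ e ∈ P, u e ⊆ g ∧ x ∈ e}

open Classical in
lemma count_comp (hn : 0 < n) {s C : ℕ} (hed : ∀ x, (ed x).card ≤ s) (hs : 1 ≤ s) (hC1 : 1 ≤ C)
    (P : Finset (Finset (Fin k))) (u : Finset (Fin k) → Finset (Fin k)) (g : Finset (Fin k))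
    (l : List (α × β)) (hC : ∀ y, (draws ι l).count y ≤ C) {Y : ℝ}
    (hY : ∀ ρ, (#(Ext ι P u (clo P u g) ρ l) : ℝ) ≤ Y) :
    (#{φ : Fin k → Fin n | Comp ι ed P u φ l} : ℝ) ≤ n ^ g.card * (C * s) ^ k * Y := by
  set A := clo P u g with hA
  let d : Fin n := ⟨0, hn⟩
  have ex : ∀ x, ∃ e, x ∈ A → x ∉ g → e ∈ P ∧ u e ⊆ g ∧ x ∈ e := by
    intro x
    by_cases hx : x ∈ A ∧ x ∉ g
    · obtain ⟨e, he⟩ := ((mem_filter.1 hx.1).2).resolve_left hx.2
      exact ⟨e, fun _ _ => he⟩
    · exact ⟨∅, fun a b => absurd ⟨a, b⟩ hx⟩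
  choose e he using ex
  let cand : Finset (Fin n) → Finset (Fin n) := fun y =>
    (l.toFinset.filter fun z => ι z.1 = y).biUnion fun z => (ed z).toFinset
  have hcand : ∀ y, (cand y).card ≤ C * s := by
    intro y
    refine (card_biUnion_le_card_mul _ _ s fun z _ => (ed z).toFinset_card_le.trans (hed z)).trans
      (Nat.mul_le_mul_right _ (le_trans ?_ (hC y)))
    rw [draws, Multiset.coe_count, List.count_eq_countP, List.countP_map, List.countP_eq_length_filter]
    refine le_trans (card_le_card fun z hz => ?_) (List.toFinset_card_le _)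
    simpa using hz
  let G1 : Finset (Fin k → Fin n) := Fintype.piFinset fun x => if x ∈ g then univ else {d}
  let G2 : (Fin k → Fin n) → Finset (Fin k → Fin n) := fun ρ => Fintype.piFinset fun x =>
    if x ∈ g then {ρ x} else if x ∈ A then cand ((u (e x)).image ρ) else {d}
  have c1 : G1.card = n ^ g.card := by
    rw [Fintype.card_piFinset]
    simp [apply_ite Finset.card]
  have hCs : 1 ≤ C * s := Nat.mul_pos hC1 hs
  have c2 : ∀ ρ, (G2 ρ).card ≤ (C * s) ^ k := by
    intro ρ
    rw [Fintype.card_piFinset]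
    refine (prod_le_pow_card _ _ (C * s) fun x _ => ?_).trans (by simp)
    split_ifs
    · simpa using hCs
    · exact hcand _
    · simpa using hCs
  have sub : ({φ : Fin k → Fin n | Comp ι ed P u φ l} : Finset _) ⊆
      G1.biUnion fun ρ => (G2 ρ).biUnion fun ρ' => Ext ι P u A ρ' l := by
    intro φ hφ
    have hc : Comp ι ed P u φ l := (mem_filter.1 hφ).2
    simp only [mem_biUnion]
    refine ⟨fun x => if x ∈ g then φ x else d, ?_, fun x => if x ∈ A then φ x else d, ?_, ?_⟩
    · rw [Fintype.mem_piFinset]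
      intro x
      split_ifs <;> simp
    · rw [Fintype.mem_piFinset]
      intro x
      by_cases hx : x ∈ g
      · have : x ∈ A := mem_filter.2 ⟨mem_univ _, Or.inl hx⟩
        simp [hx, this]
      · by_cases hxA : x ∈ A
        · simp only [hx, hxA, if_true, if_false]
          obtain ⟨h1, h2, h3⟩ := he x hxA hx
          obtain ⟨z, hz, h4, h5⟩ := hc.2 _ h1
          refine mem_biUnion.2 ⟨z, mem_filter.2 ⟨List.mem_toFinset.2 hz, ?_⟩, ?_⟩
          · rw [h5]
            exact image_congr fun y hy => by simp [h2 hy]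
          · rw [h4, val_toFinset]
            exact mem_image_of_mem φ h3
        · simp [hx, hxA]
    · simp only [Ext, mem_filter, mem_univ, true_and]
      exact ⟨fun x hx => by simp [hx], hc.tgt_le⟩
  have hY0 : 0 ≤ Y := le_trans (by positivity) (hY fun _ => d)
  calc (#{φ : Fin k → Fin n | Comp ι ed P u φ l} : ℝ)
      ≤ ∑ ρ ∈ G1, ∑ ρ' ∈ G2 ρ, (#(Ext ι P u A ρ' l) : ℝ) := by
        exact_mod_cast (card_le_card sub).trans
          (card_biUnion_le.trans (sum_le_sum fun ρ _ => card_biUnion_le))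
    _ ≤ ∑ _ρ ∈ G1, ((C * s : ℝ) ^ k * Y) := by
        refine sum_le_sum fun ρ _ => (sum_le_sum fun ρ' _ => hY ρ').trans ?_
        rw [sum_const, nsmul_eq_mul]
        exact mul_le_mul_of_nonneg_right (by exact_mod_cast c2 ρ) hY0
    _ = _ := by rw [sum_const, nsmul_eq_mul, c1]; push_cast; ring

end Pool.Agent.SemiRandom
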