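import Pool.Agent.P.MP_c53d0e_pr.Main

set_option autoImplicit false
set_option linter.unusedSectionVars false

/-! Static instances and the hypergraph built from them. -/

namespace Pool.Agent.SemiRandom.Und

open Finset

/-- A static instance: points, a basis, and lines (two sources and a target). -/
structure Inst (r : ℕ) (P Ln : Type) where
  bas : Fin r → P
  src : Ln → Fin 2 → P
  tgt : Ln → P

section
variable {r : ℕ} {P Ln : Type}

def Inst.Exact (I : Inst r P Ln) {W : Type} (S : Finset (P → W)) : Prop :=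
  ∀ e, ∀ x ∈ S, ∀ x' ∈ S, (∀ l, x (I.src e l) = x' (I.src e l)) → x (I.tgt e) = x' (I.tgt e)

def Inst.BasInj (I : Inst r P Ln) {W : Type} (S : Finset (P → W)) : Prop :=
  ∀ x ∈ S, ∀ x' ∈ S, (∀ b, x (I.bas b) = x' (I.bas b)) → x = x'

def Inst.Yes (I : Inst r P Ln) : Prop :=
  ∀ θ : ℝ, 0 < θ → ∃ (w : ℕ) (S : Finset (P → Fin w)), 2 ≤ w ∧ I.Exact S ∧ I.BasInj S ∧
    (w : ℝ) ^ ((r : ℝ) * (1 - θ)) ≤ S.card

def Inst.Bound (I : Inst r P Ln) (η : ℝ) : Prop :=
  ∀ (w : ℕ) (S : Finset (P → Fin w)), 1 ≤ w → I.Exact S → (S.card : ℝ) ≤ (w : ℝ) ^ ((r : ℝ) - η)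

def Inst.No (I : Inst r P Ln) : Prop := ∃ η : ℝ, 0 < η ∧ η ≤ 4 / 5 ∧ I.Bound η

end

/-- Proxies. -/
abbrev Px (r : ℕ) (Ln : Type) : Type := Fin r ⊕ (Ln × Fin 2)

def Inst.par {r : ℕ} {P Ln : Type} (I : Inst (r + r) P Ln) : Px r Ln → P :=
  Sum.elim (fun b => I.bas (Fin.castAdd r b)) fun x => I.src x.1 x.2

/-- Second parent of a basis proxy. -/
def Inst.par2 {r : ℕ} {P Ln : Type} (I : Inst (r + r) P Ln) (b : Fin r) : P :=
  I.bas (Fin.natAdd r b)

/-- Vertices: constants, `y`-vertices, points, proxies, tokens. -/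
inductive Vx (r s : ℕ) (P Ln : Type) : Type
  | c (j : Fin (s + 1))
  | y (i : Fin (2 * r))
  | pt (p : P)
  | z (x : Px r Ln)
  | tk (e : Ln) (l : Fin (r - 2))
  deriving DecidableEq, Fintype

/-- Groups of edges. -/
inductive Gp (r : ℕ) (P Ln : Type) : Type
  | Q
  | Y (i : Fin (2 * r))
  | U (p : P)
  | En (x : Px r Ln)
  | W (b : Fin r)
  | L (e : Ln)
  | T
  deriving DecidableEq, Fintype

variable {r : ℕ} {P Ln : Type}

/-- Number of edges of a group. -/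
def Gp.M : Gp r P Ln → ℕ
  | .Q => 2 * r + 2
  | .Y _ => 2
  | .U _ => 1
  | .En _ => 1
  | .W _ => 1
  | .L _ => 2 * r - 2
  | .T => 2 * r

/-- Number of non-constant vertices of an edge of the group. -/
def Gp.k (s : ℕ) : Gp r P Ln → ℕ
  | .Q => 0
  | .Y _ => 1
  | .U _ => 1
  | .En _ => 2
  | .W _ => 2
  | .L _ => r + 1
  | .T => s + 1 - 2 * r

def Gp.isQp : Gp r P Ln → Prop
  | .Q => True
  | .Y _ => True
  | _ => False

abbrev Ed (r : ℕ) (P Ln : Type) : Type := Σ g : Gp r P Ln, Fin g.M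

variable [Fintype P] [DecidableEq P] [Fintype Ln] [DecidableEq Ln] {s : ℕ}

def CC : Finset (Vx r s P Ln) := univ.image Vx.c
def YY : Finset (Vx r s P Ln) := univ.image Vx.y
def PP : Finset (Vx r s P Ln) := univ.image Vx.pt
def ZB : Finset (Vx r s P Ln) := univ.image fun b => Vx.z (Sum.inl b)
def ZL (e : Ln) : Finset (Vx r s P Ln) := univ.image fun l => Vx.z (Sum.inr (e, l))
def TK (e : Ln) : Finset (Vx r s P Ln) := univ.image (Vx.tk e)
def DD : Finset (Vx r s P Ln) := univ.image fun x : Ln × Fin (r - 2) => Vx.tk x.1 x.2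
def SRC (I : Inst (r + r) P Ln) (e : Ln) : Finset (Vx r s P Ln) :=
  univ.image fun l => Vx.pt (I.src e l)

/-- Non-constant part of the edges of a group. -/
def NN (I : Inst (r + r) P Ln) (s : ℕ) : Gp r P Ln → Finset (Vx r s P Ln)
  | .Q => ∅
  | .Y i => {Vx.y i}
  | .U p => {Vx.pt p}
  | .En x => {Vx.pt (I.par x), Vx.z x}
  | .W b => {Vx.pt (I.par2 b), Vx.z (Sum.inl b)}
  | .L e => insert (Vx.pt (I.tgt e)) (ZL e ∪ TK e)
  | .T => univ \ CC

def cp (x i : ℕ) : Finset (Vx r s P Ln) :=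
  (univ.filter fun j : Fin (s + 1) => (j : ℕ) < x ∧ (j : ℕ) ≠ i).image Vx.c

/-- The edges. -/
def ed (I : Inst (r + r) P Ln) (s : ℕ) (e : Ed r P Ln) : Finset (Vx r s P Ln) :=
  cp (s + 1 - e.1.k s) e.2 ∪ NN I s e.1

structure Ok (r s : ℕ) (P Ln : Type) [Fintype P] [Fintype Ln] : Prop where
  hr : 2 ≤ r
  hs : s + 1 = 5 * r + Fintype.card P + Fintype.card Ln * r

section mem
@[simp] lemma mem_CC (v : Vx r s P Ln) : v ∈ CC ↔ ∃ j, v = Vx.c j := by simp [CC, eq_comm]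
@[simp] lemma mem_YY (v : Vx r s P Ln) : v ∈ YY ↔ ∃ i, v = Vx.y i := by simp [YY, eq_comm]
@[simp] lemma mem_PP (v : Vx r s P Ln) : v ∈ PP ↔ ∃ p, v = Vx.pt p := by simp [PP, eq_comm]
@[simp] lemma mem_ZB (v : Vx r s P Ln) : v ∈ ZB ↔ ∃ b, v = Vx.z (Sum.inl b) := by
  simp [ZB, eq_comm]
@[simp] lemma mem_ZL (e : Ln) (v : Vx r s P Ln) : v ∈ ZL e ↔ ∃ l, v = Vx.z (Sum.inr (e, l)) := by
  simp [ZL, eq_comm]
@[simp] lemma mem_TK (e : Ln) (v : Vx r s P Ln) : v ∈ TK e ↔ ∃ l, v = Vx.tk e l := by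
  simp [TK, eq_comm]
@[simp] lemma mem_DD (v : Vx r s P Ln) : v ∈ DD ↔ ∃ e l, v = Vx.tk e l := by simp [DD, eq_comm]
@[simp] lemma mem_SRC (I : Inst (r + r) P Ln) (e : Ln) (v : Vx r s P Ln) :
    v ∈ SRC I e ↔ ∃ l, v = Vx.pt (I.src e l) := by simp [SRC, eq_comm]
@[simp] lemma mem_cp (x i : ℕ) (v : Vx r s P Ln) :
    v ∈ cp x i ↔ ∃ j : Fin (s + 1), v = Vx.c j ∧ (j : ℕ) < x ∧ (j : ℕ) ≠ i := by
  simp only [cp, mem_image, mem_filter, mem_univ, true_and]
  exact ⟨fun ⟨j, h, e⟩ => ⟨j, e.symm, h⟩, fun ⟨j, e, h⟩ => ⟨j, h, e.symm⟩⟩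
end mem

open Classical in
/-- Indicator of a proposition. -/
noncomputable def ind (p : Prop) : ℝ := if p then 1 else 0

lemma ind_eq (p : Prop) [Decidable p] : ind p = if p then 1 else 0 := by
  unfold ind; congr

lemma ind_nonneg (p : Prop) : 0 ≤ ind p := by unfold ind; split_ifs <;> norm_num
lemma ind_le_one (p : Prop) : ind p ≤ 1 := by unfold ind; split_ifs <;> norm_num
lemma ind_pos {p : Prop} (h : p) : ind p = 1 := by unfold ind; exact if_pos h
lemma ind_neg {p : Prop} (h : ¬ p) : ind p = 0 := by unfold ind; exact if_neg h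
lemma ind_mono {p q : Prop} (h : p → q) : ind p ≤ ind q := by
  by_cases hp : p
  · rw [ind_pos hp, ind_pos (h hp)]
  · rw [ind_neg hp]; exact ind_nonneg q

/-- Probability of an event after `T` rounds. -/
noncomputable def Pr {α β : Type} [Fintype α] [Fintype β] (S : Strategy α β) (T : ℕ)
    (A : List (α × β) → Prop) : ℝ := Ex S T [] fun h => ind (A h)

lemma winProb_eq {n r s k : ℕ} (G : Finset (Finset (Fin k))) (S : Strategy (RSet n r) (Move n r s))
    (T : ℕ) : winProb G S T = Pr S T (Contains G) := rfl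

/-- The history contains a copy of the hypergraph with edges `ed e`. -/
def ContainsV {V E : Type} (ed : E → Finset V) {n r s : ℕ} (h : List (RSet n r × Move n r s)) :
    Prop :=
  ∃ φ : V ↪ Fin n, ∀ e, ∃ x ∈ h, edge x = ((ed e).map φ).val

end Pool.Agent.SemiRandom.Und
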