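import Pool.Agent.P.MP_c53d0e_pr.U0

set_option autoImplicit false
set_option linter.unusedSectionVars false

namespace Pool.Agent.SemiRandom.Und

open Finset

variable {r s : ℕ} {P Ln : Type} [Fintype P] [DecidableEq P] [Fintype Ln] [DecidableEq Ln]

lemma card_CC : (CC : Finset (Vx r s P Ln)).card = s + 1 := by
  unfold CC
  rw [card_image_of_injective _ fun a b h => by simpa using h]; simp
lemma card_YY : (YY : Finset (Vx r s P Ln)).card = 2 * r := by
  unfold YY
  rw [card_image_of_injective _ fun a b h => by simpa using h]; simp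
lemma card_ZB : (ZB : Finset (Vx r s P Ln)).card = r := by
  unfold ZB
  rw [card_image_of_injective _ fun a b h => by simpa using h]; simp
lemma card_ZL (e : Ln) : (ZL e : Finset (Vx r s P Ln)).card = 2 := by
  unfold ZL
  rw [card_image_of_injective _ fun a b h => by simpa using h]; simp
lemma card_TK (e : Ln) : (TK e : Finset (Vx r s P Ln)).card = r - 2 := by
  unfold TK
  rw [card_image_of_injective _ fun a b h => by simpa using h]; simp

/-- vertices as a sum type -/
def vxEquiv_U1 (r s : ℕ) (P Ln : Type) :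
    (Fin (s + 1) ⊕ Fin (2 * r) ⊕ P ⊕ Px r Ln ⊕ Ln × Fin (r - 2)) ≃ Vx r s P Ln where
  toFun
    | .inl j => .c j
    | .inr (.inl i) => .y i
    | .inr (.inr (.inl p)) => .pt p
    | .inr (.inr (.inr (.inl x))) => .z x
    | .inr (.inr (.inr (.inr x))) => .tk x.1 x.2
  invFun
    | .c j => .inl j
    | .y i => .inr (.inl i)
    | .pt p => .inr (.inr (.inl p))
    | .z x => .inr (.inr (.inr (.inl x)))
    | .tk e l => .inr (.inr (.inr (.inr (e, l))))
  left_inv := by rintro (_ | _ | _ | _ | _) <;> rfl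
  right_inv := by intro g; cases g <;> rfl

lemma card_Vx (hO : Ok r s P Ln) : Fintype.card (Vx r s P Ln) + 2 * r = 2 * (s + 1) := by
  have h1 := hO.hr
  have h2 := hO.hs
  rw [← Fintype.card_congr (vxEquiv_U1 r s P Ln)]
  simp only [Fintype.card_sum, Fintype.card_prod, Fintype.card_fin]
  obtain ⟨t, rfl⟩ := Nat.exists_eq_add_of_le h1
  rw [Nat.add_sub_cancel_left]
  rw [mul_add (Fintype.card Ln)] at h2
  omega

@[simp] lemma mem_NN_T (I : Inst (r + r) P Ln) (v : Vx r s P Ln) :
    v ∈ NN I s .T ↔ ∀ j, v ≠ Vx.c j := by simp [NN]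

lemma card_NN (hO : Ok r s P Ln) (I : Inst (r + r) P Ln) (g : Gp r P Ln) : (NN I s g).card = g.k s := by
  have h1 := hO.hr
  have h2 := hO.hs
  cases g with
  | Q => simp [NN, Gp.k]
  | Y i => simp [NN, Gp.k]
  | U p => simp [NN, Gp.k]
  | En x => simp [NN, Gp.k]
  | W b => simp [NN, Gp.k]
  | L e =>
    simp only [NN, Gp.k]
    rw [card_insert_of_notMem (by simp), card_union_of_disjoint, card_ZL, card_TK]
    · omega
    · rw [disjoint_left]; rintro v hv hv'
      obtain ⟨l, rfl⟩ := (mem_ZL _ _).1 hv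
      simp at hv'
  | T =>
    simp only [NN, Gp.k]
    have h3 := card_Vx hO
    rw [card_univ_sdiff, card_CC]
    omega

lemma c_notMem_NN (I : Inst (r + r) P Ln) (g : Gp r P Ln) (j : Fin (s + 1)) : Vx.c j ∉ NN I s g := by
  cases g <;> simp [NN]

lemma M_le (hO : Ok r s P Ln) (g : Gp r P Ln) : g.M + g.k s ≤ s + 1 := by
  have h1 := hO.hr
  have h2 := hO.hs
  cases g <;> simp only [Gp.M, Gp.k] <;> omega

lemma c_mem_ed (I : Inst (r + r) P Ln) (e : Ed r P Ln) (j : Fin (s + 1)) :
    Vx.c j ∈ ed I s e ↔ (j : ℕ) < s + 1 - e.1.k s ∧ (j : ℕ) ≠ e.2 := by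
  unfold ed
  rw [mem_union, mem_cp]
  constructor
  · rintro (⟨j', h, h'⟩ | h)
    · obtain rfl : j = j' := by simpa using h
      exact h'
    · exact absurd h (c_notMem_NN I _ j)
  · exact fun h => Or.inl ⟨j, rfl, h⟩

lemma NN_subset_ed (I : Inst (r + r) P Ln) (e : Ed r P Ln) : NN I s e.1 ⊆ ed I s e :=
  subset_union_right

lemma cp_subset_U1 (x i : ℕ) : (cp x i : Finset (Vx r s P Ln)) ⊆ CC := by
  intro v hv
  obtain ⟨j, rfl, _⟩ := (mem_cp _ _ _).1 hv
  exact (mem_CC _).2 ⟨j, rfl⟩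

lemma ed_subset (I : Inst (r + r) P Ln) (e : Ed r P Ln) : ed I s e ⊆ CC ∪ NN I s e.1 :=
  union_subset_union (cp_subset_U1 _ _) Subset.rfl

lemma card_cp_U1 {x i : ℕ} (hi : i < x) (hx : x ≤ s + 1) :
    (cp x i : Finset (Vx r s P Ln)).card = x - 1 := by
  unfold cp
  rw [card_image_of_injective _ fun a b h => by simpa using h,
    ← card_image_of_injective _ Fin.val_injective]
  have : (univ.filter fun j : Fin (s + 1) => (j : ℕ) < x ∧ (j : ℕ) ≠ i).image Fin.val =
      (range x).erase i := by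
    ext n
    simp only [mem_image, mem_filter, mem_univ, true_and, mem_erase, mem_range]
    constructor
    · rintro ⟨j, ⟨h1, h2⟩, rfl⟩; exact ⟨h2, h1⟩
    · rintro ⟨h1, h2⟩; exact ⟨⟨n, by omega⟩, ⟨h2, h1⟩, rfl⟩
  rw [this, card_erase_of_mem (mem_range.2 hi), card_range]

lemma disj_U1 (I : Inst (r + r) P Ln) (g : Gp r P Ln) : Disjoint CC (NN I s g) := by
  rw [disjoint_left]; rintro v hv hv'
  obtain ⟨j, rfl⟩ := (mem_CC _).1 hv
  exact c_notMem_NN I g j hv'

lemma card_ed (hO : Ok r s P Ln) (I : Inst (r + r) P Ln) (e : Ed r P Ln) : (ed I s e).card = s := by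
  have h1 := M_le hO e.1
  have h2 := e.2.2
  unfold ed
  rw [card_union_of_disjoint ((disj_U1 I e.1).mono_left (cp_subset_U1 _ _)),
    card_cp_U1 (by omega) (by omega), card_NN hO]
  omega

lemma card_CC_sdiff_ed (hO : Ok r s P Ln) (I : Inst (r + r) P Ln) (e : Ed r P Ln) :
    (CC \ ed I s e).card = e.1.k s + 1 := by
  have h1 := M_le hO e.1
  have h2 := e.2.2
  have h3 : CC \ ed I s e = CC \ cp (s + 1 - e.1.k s) e.2 := by
    unfold ed
    rw [sdiff_union_distrib, sdiff_eq_self_of_disjoint (disj_U1 I e.1)]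
    exact inter_eq_left.2 sdiff_subset
  rw [h3, card_sdiff_of_subset (cp_subset_U1 _ _), card_CC, card_cp_U1 (by omega) (by omega)]
  omega

lemma NN_inj (hO : Ok r s P Ln) (I : Inst (r + r) P Ln) (hb : Function.Injective I.bas) :
    Function.Injective (NN I s) := by
  have h1 := hO.hr
  have h2 := hO.hs
  have hne : ∀ b : Fin r, I.par2 b ≠ I.par (Sum.inl b) := fun b h => by
    have := congrArg Fin.val (hb h)
    simp only [Fin.val_natAdd, Fin.val_castAdd] at this
    omega
  intro g g' h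
  have hc : g.k s = g'.k s := by rw [← card_NN hO I, ← card_NN hO I, h]
  have key : ∀ v, v ∈ NN I s g ↔ v ∈ NN I s g' := fun v => by rw [h]
  cases g with
  | Q => cases g' <;> first | rfl | (simp only [Gp.k] at hc; omega)
  | Y i =>
    have := (key (Vx.y i)).1 (by simp [NN])
    cases g' <;> first | (simp only [Gp.k] at hc; omega) | simpa [NN] using this
  | U p =>
    have := (key (Vx.pt p)).1 (by simp [NN])
    cases g' <;> first | (simp only [Gp.k] at hc; omega) | simpa [NN] using this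
  | En x =>
    have := (key (Vx.z x)).1 (by simp [NN])
    cases g' with
    | W b =>
      obtain rfl : x = Sum.inl b := by simpa [NN] using this
      exact absurd (by simpa [NN] using (key (Vx.pt (I.par2 b))).2 (by simp [NN])) (hne b)
    | _ => first | (simp only [Gp.k] at hc; omega) | simpa [NN] using this
  | W b =>
    have := (key (Vx.z (Sum.inl b))).1 (by simp [NN])
    cases g' with
    | En x =>
      obtain rfl : Sum.inl b = x := by simpa [NN] using this
      exact absurd (by simpa [NN] using (key (Vx.pt (I.par2 b))).1 (by simp [NN])) (hne b)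
    | _ => first | (simp only [Gp.k] at hc; omega) | simpa [NN] using this
  | L e =>
    have := (key (Vx.z (Sum.inr (e, 0)))).1 (by simp [NN])
    cases g' <;> first | (simp only [Gp.k] at hc; omega) | simpa [NN] using this
  | T => cases g' <;> first | rfl | (simp only [Gp.k] at hc; omega)

lemma ed_sdiff_U1 (I : Inst (r + r) P Ln) (e : Ed r P Ln) : ed I s e \ CC = NN I s e.1 := by
  unfold ed
  rw [union_sdiff_distrib, sdiff_eq_empty_iff_subset.2 (cp_subset_U1 _ _), empty_union,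
    sdiff_eq_self_of_disjoint (disj_U1 I e.1).symm]

lemma ed_inj (hO : Ok r s P Ln) (I : Inst (r + r) P Ln) (hb : Function.Injective I.bas) :
    Function.Injective (ed I s) := by
  rintro ⟨g, i⟩ ⟨g', i'⟩ h
  have hg : g = g' := NN_inj hO I hb (by
    have h1 := ed_sdiff_U1 (s := s) I ⟨g, i⟩
    have h2 := ed_sdiff_U1 (s := s) I ⟨g', i'⟩
    rw [h] at h1
    exact h1.symm.trans h2)
  subst hg
  have h1 := M_le hO g
  have h2 := i.2
  have h3 := c_mem_ed (s := s) I ⟨g, i⟩ ⟨i, by omega⟩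
  rw [h, c_mem_ed] at h3
  have h4 : (i : ℕ) = i' := by
    by_contra hn
    exact (h3.1 ⟨by show (i : ℕ) < s + 1 - g.k s; omega, hn⟩).2 rfl
  rw [Fin.ext h4]

lemma Ok.lt (hO : Ok r s P Ln) : r < s := by
  have h1 := hO.hr
  have h2 := hO.hs
  omega

lemma card_group (g : Gp r P Ln) : #{e : Ed r P Ln | e.1 = g} = g.M := by
  have : (univ.filter fun e : Ed r P Ln => e.1 = g) =
      univ.image (fun i : Fin g.M => (⟨g, i⟩ : Ed r P Ln)) := by
    ext ⟨g', i⟩
    simp only [mem_filter, mem_univ, true_and, mem_image]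
    constructor
    · rintro rfl; exact ⟨i, rfl⟩
    · rintro ⟨j, hj⟩; exact (congrArg Sigma.fst hj).symm
  rw [this, card_image_of_injective _ fun a b h => by simpa using h]; simp

/-- groups as a sum type -/
def gpEquiv_U1 (r : ℕ) (P Ln : Type) :
    (Unit ⊕ Fin (2 * r) ⊕ P ⊕ Px r Ln ⊕ Fin r ⊕ Ln ⊕ Unit) ≃ Gp r P Ln where
  toFun
    | .inl _ => .Q
    | .inr (.inl i) => .Y i
    | .inr (.inr (.inl p)) => .U p
    | .inr (.inr (.inr (.inl x))) => .En x
    | .inr (.inr (.inr (.inr (.inl b)))) => .W b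
    | .inr (.inr (.inr (.inr (.inr (.inl e))))) => .L e
    | .inr (.inr (.inr (.inr (.inr (.inr _))))) => .T
  invFun
    | .Q => .inl ()
    | .Y i => .inr (.inl i)
    | .U p => .inr (.inr (.inl p))
    | .En x => .inr (.inr (.inr (.inl x)))
    | .W b => .inr (.inr (.inr (.inr (.inl b))))
    | .L e => .inr (.inr (.inr (.inr (.inr (.inl e)))))
    | .T => .inr (.inr (.inr (.inr (.inr (.inr ())))))
  left_inv := by rintro (_ | _ | _ | _ | _ | _ | _) <;> rfl
  right_inv := by intro g; cases g <;> rfl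

lemma sum_Gp_U1 {A : Type} [AddCommMonoid A] (f : Gp r P Ln → A) :
    ∑ g, f g = f .Q + ∑ i, f (.Y i) + ∑ p, f (.U p) +
    ∑ x, f (.En x) + ∑ b, f (.W b) + ∑ e, f (.L e) + f .T := by
  rw [← (gpEquiv_U1 r P Ln).sum_comp f]
  rw [Fintype.sum_sum_type (α₁ := Unit), Fintype.sum_sum_type (α₁ := Fin (2 * r)),
    Fintype.sum_sum_type (α₁ := P) (α₂ := Px r Ln ⊕ Fin r ⊕ Ln ⊕ Unit),
    Fintype.sum_sum_type (α₁ := Px r Ln), Fintype.sum_sum_type (α₁ := Fin r) (α₂ := Ln ⊕ Unit),
    Fintype.sum_sum_type (α₁ := Ln) (α₂ := Unit),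
    Fintype.sum_unique (ι := Unit), Fintype.sum_unique (ι := Unit)]
  simp only [add_assoc]
  rfl

lemma sum_M : ∑ g : Gp r P Ln, g.M = (2 * r + 2) + 2 * r * 2 + Fintype.card P +
    (r + Fintype.card Ln * 2) + r + Fintype.card Ln * (2 * r - 2) + 2 * r := by
  rw [sum_Gp_U1]
  simp [Gp.M]

/-- A sum over groups, written out. -/
lemma sum_Gp (f : Gp r P Ln → ℝ) : ∑ g, f g = f .Q + ∑ i, f (.Y i) + ∑ p, f (.U p) +
    ∑ x, f (.En x) + ∑ b, f (.W b) + ∑ e, f (.L e) + f .T := sum_Gp_U1 f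

end Pool.Agent.SemiRandom.Und
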