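import Pool.Agent.P.MP_c53d0e_pr.U1

set_option autoImplicit false
set_option linter.unusedSectionVars false

namespace Pool.Agent.SemiRandom.Und

open Finset

section generic
variable {V E : Type} [DecidableEq V]

/-- A pattern: distinct edges with random parts, latest first. -/
def Valid (ed : E → Finset V) (r : ℕ) (l : List (E × Finset V)) : Prop :=
  (l.map Prod.fst).Nodup ∧ ∀ p ∈ l, p.2 ⊆ ed p.1 ∧ p.2.card = r

lemma Valid.tail {ed : E → Finset V} {r : ℕ} {p : E × Finset V} {l : List (E × Finset V)}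
    (h : Valid ed r (p :: l)) : Valid ed r l :=
  ⟨(List.nodup_cons.1 h.1).2, fun q hq => h.2 q (List.mem_cons_of_mem _ hq)⟩

lemma Valid.right {ed : E → Finset V} {r : ℕ} {qs l : List (E × Finset V)}
    (h : Valid ed r (qs ++ l)) : Valid ed r l := by
  induction qs with
  | nil => exact h
  | cons q qs ih => exact ih h.tail

lemma Valid.notMem {ed : E → Finset V} {r : ℕ} {p : E × Finset V} {l : List (E × Finset V)}
    (h : Valid ed r (p :: l)) : p.1 ∉ l.map Prod.fst := (List.nodup_cons.1 h.1).1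

/-- The counting calculus; `ν l A B` bounds the exponent of the number of values of `B` given
`A` after the edges of `l`. -/
structure Calc (ed : E → Finset V) (r : ℕ) (δ ε : ℝ)
    (ν : List (E × Finset V) → Finset V → Finset V → ℝ) : Prop where
  nonneg : ∀ l A B, 0 ≤ ν l A B
  cap : ∀ l A B, ν l A B ≤ (B \ A).card
  time : ∀ p l A B, ν (p :: l) A B ≤ ν l A B
  mono : ∀ l A A' B B', A' ⊆ A → B ⊆ A ∪ B' → ν l A B ≤ ν l A' B'
  chain : ∀ l A B B', ν l A (B ∪ B') ≤ ν l A B + ν l (A ∪ B) B'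
  step : ∀ p l A B, Valid ed r (p :: l) →
    ν (p :: l) A (B ∪ ed p.1) ≤ ε + max (ν l A (B ∪ p.2) - δ) (ν l (A ∪ ed p.1) B)

open Classical in
/-- Number of played edges with property `F`. -/
noncomputable def cn (F : E → Prop) (l : List (E × Finset V)) : ℕ := l.countP fun p => F p.1

@[simp] lemma cn_nil (F : E → Prop) : cn F ([] : List (E × Finset V)) = 0 := rfl

lemma cn_cons_pos {F : E → Prop} {p : E × Finset V} (l : List (E × Finset V)) (h : F p.1) :
    cn F (p :: l) = cn F l + 1 := by simp [cn, h]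

lemma cn_cons_neg {F : E → Prop} {p : E × Finset V} (l : List (E × Finset V)) (h : ¬ F p.1) :
    cn F (p :: l) = cn F l := by simp [cn, h]

lemma cn_append (F : E → Prop) (l l' : List (E × Finset V)) :
    cn F (l ++ l') = cn F l + cn F l' := by simp [cn]

lemma one_le_cn {F : E → Prop} {l : List (E × Finset V)} : 1 ≤ cn F l ↔ ∃ p ∈ l, F p.1 := by
  simp [cn, Nat.one_le_iff_ne_zero, List.countP_eq_zero]

end generic

structure Par (δ ε ζ : ℝ) : Prop where
  e0 : 0 ≤ ε
  e1 : ε ≤ ζ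
  d0 : 1 / 2 - ζ ≤ δ
  d1 : δ ≤ 1 / 2
  z1 : ζ ≤ 1 / 20

variable {r : ℕ} {P Ln : Type} [Fintype P] [DecidableEq P] [Fintype Ln] [DecidableEq Ln]

/-- Number of played edges of group `g`. -/
noncomputable def cg {V : Type} (g : Gp r P Ln) (l : List (Ed r P Ln × Finset V)) : ℕ :=
  cn (fun e : Ed r P Ln => e.1 = g) l

/-- Number of played edges among the constant and `y` groups. -/
noncomputable def cq {V : Type} (l : List (Ed r P Ln × Finset V)) : ℕ :=
  cn (fun e : Ed r P Ln => e.1.isQp) l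

/-- The static rule. -/
def Stat (I : Inst (r + r) P Ln) (s : ℕ) (η : ℝ)
    (ν : List (Ed r P Ln × Finset (Vx r s P Ln)) → Finset (Vx r s P Ln) → Finset (Vx r s P Ln) → ℝ) :
    Prop :=
  ∀ l A (x y : ℝ), 0 ≤ x → 0 ≤ y → (∀ p, ν l A {Vx.pt p} ≤ x) →
    (∀ e, ν l (A ∪ SRC I e) {Vx.pt (I.tgt e)} ≤ y) →
    ν l A PP ≤ Fintype.card Ln * y + (2 * r - η) * x

end Pool.Agent.SemiRandom.Und
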