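import Pool.Agent.P.MP_c53d0e_pr.UC0

set_option autoImplicit false
set_option linter.unusedSectionVars false

namespace Pool.Agent.SemiRandom.Und

open Finset

section generic
variable {V E : Type} [DecidableEq V] {ed : E → Finset V} {r : ℕ} {δ ε : ℝ}
  {ν : List (E × Finset V) → Finset V → Finset V → ℝ}

lemma Calc.time_append (H : Calc ed r δ ε ν) (qs l : List (E × Finset V)) (A B : Finset V) :
    ν (qs ++ l) A B ≤ ν l A B := by
  induction qs with
  | nil => exact le_rfl
  | cons q qs ih => exact (H.time q (qs ++ l) A B).trans ih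

lemma Calc.empty_le_UC1 (H : Calc ed r δ ε ν) (l : List (E × Finset V)) (A : Finset V) :
    ν l A ∅ ≤ 0 := by
  have h := H.cap l A ∅
  simpa using h

lemma Calc.subadd (H : Calc ed r δ ε ν) {ι : Type} (I : Finset ι) (l : List (E × Finset V))
    (A : Finset V) (B : ι → Finset V) : ν l A (I.biUnion B) ≤ ∑ i ∈ I, ν l A (B i) := by
  classical
  induction I using Finset.induction_on with
  | empty => simpa using H.empty_le_UC1 l A
  | insert i I hi ih =>
    rw [Finset.biUnion_insert, Finset.sum_insert hi]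
    have h1 := H.chain l A (B i) (I.biUnion B)
    have h2 := H.mono l (A ∪ B i) A (I.biUnion B) (I.biUnion B) Finset.subset_union_left
      Finset.subset_union_right
    linarith

lemma Calc.sub_le (H : Calc ed r δ ε ν) (l : List (E × Finset V)) (A B : Finset V) :
    ν l A B ≤ ∑ v ∈ B, ν l A {v} := by
  have h := H.subadd B l A (fun v => {v})
  rwa [Finset.biUnion_singleton_eq_self] at h

lemma Calc.stepU_UC1 (H : Calc ed r δ ε ν) (A B : Finset V) (p : E × Finset V)
    (l : List (E × Finset V)) (hl : Valid ed r (p :: l)) (hB : B ⊆ ed p.1) :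
    ν (p :: l) A B ≤ ε + max (ν l A p.2 - δ) 0 := by
  have h1 := H.step p l A ∅ hl
  have h2 := H.mono (p :: l) A A B (∅ ∪ ed p.1) le_rfl (by
    intro v hv
    simp only [Finset.empty_union, Finset.mem_union]
    exact Or.inr (hB hv))
  have h3 := H.empty_le_UC1 l (A ∪ ed p.1)
  rw [Finset.empty_union p.2] at h1
  have h4 : max (ν l A p.2 - δ) (ν l (A ∪ ed p.1) ∅) ≤ max (ν l A p.2 - δ) 0 :=
    max_le_max le_rfl h3
  linarith

lemma Calc.lem_aux_UC1 (hδ : 0 ≤ δ) (hε : 0 ≤ ε) (x X : ℝ) (c : ℕ)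
    (h : x ≤ max 0 (X - δ * c) + ε * c) :
    ε + max (x - δ) 0 ≤ max 0 (X - δ * ((c + 1 : ℕ) : ℝ)) + ε * ((c + 1 : ℕ) : ℝ) := by
  have hc : 0 ≤ ε * c := by positivity
  push_cast
  have h0 : (0 : ℝ) ≤ max 0 (X - δ * (c + 1)) := le_max_left _ _
  have h1 : X - δ * (c + 1) ≤ max 0 (X - δ * (c + 1)) := le_max_right _ _
  have h2 : max (x - δ) 0 ≤ max 0 (X - δ * (c + 1)) + ε * c := by
    apply max_le
    · rcases le_total 0 (X - δ * c) with h3 | h3
      · rw [max_eq_right h3] at h; linarith
      · rw [max_eq_left h3] at h; linarith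
    · linarith
  linarith

lemma Calc.lemU (H : Calc ed r δ ε ν) (hδ : 0 ≤ δ) (hε : 0 ≤ ε) (F : E → Prop) (A B : Finset V)
    (hF : ∀ e, F e → B ⊆ ed e ∧ ed e ⊆ A ∪ B) (l : List (E × Finset V)) (hl : Valid ed r l) :
    ν l A B ≤ max 0 (((B \ A).card : ℝ) - δ * cn F l) + ε * cn F l := by
  induction l with
  | nil =>
    have h := H.cap [] A B
    have h1 : ((B \ A).card : ℝ) ≤ max 0 ((B \ A).card : ℝ) := le_max_right _ _
    simpa using h.trans h1
  | cons p l ih =>
    have ih' := ih hl.tail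
    by_cases hp : F p.1
    · rw [cn_cons_pos l hp]
      have h1 := H.stepU_UC1 A B p l hl (hF _ hp).1
      have h2 : ν l A p.2 ≤ ν l A B :=
        H.mono l A A p.2 B le_rfl ((hl.2 p List.mem_cons_self).1.trans (hF _ hp).2)
      exact h1.trans (Calc.lem_aux_UC1 hδ hε _ _ _ (h2.trans ih'))
    · rw [cn_cons_neg l hp]
      exact (H.time p l A B).trans ih'

lemma Calc.lemU' (H : Calc ed r δ ε ν) (hδ : 0 ≤ δ) (hε : 0 ≤ ε) (F : E → Prop) (A B : Finset V)
    (hF : ∀ e, F e → B ⊆ ed e ∧ ed e ⊆ A ∪ B) (l : List (E × Finset V)) (hl : Valid ed r l)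
    (h1 : 1 ≤ cn F l) : ν l A B ≤ max 0 ((r : ℝ) - δ * cn F l) + ε * cn F l := by
  induction l with
  | nil => simp at h1
  | cons p l ih =>
    by_cases hp : F p.1
    · rw [cn_cons_pos l hp]
      have h2 := H.stepU_UC1 A B p l hl (hF _ hp).1
      refine h2.trans (Calc.lem_aux_UC1 hδ hε _ _ _ ?_)
      rcases Nat.eq_zero_or_pos (cn F l) with h0 | h0
      · rw [h0]
        have h3 := H.cap l A p.2
        have h4 : (p.2 \ A).card ≤ r := by
          rw [← (hl.2 p List.mem_cons_self).2]
          exact Finset.card_le_card Finset.sdiff_subset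
        have h5 : ((p.2 \ A).card : ℝ) ≤ r := by exact_mod_cast h4
        have h6 : (r : ℝ) ≤ max 0 (r : ℝ) := le_max_right _ _
        simpa using (h3.trans h5).trans h6
      · have h3 : ν l A p.2 ≤ ν l A B :=
          H.mono l A A p.2 B le_rfl ((hl.2 p List.mem_cons_self).1.trans (hF _ hp).2)
        exact h3.trans (ih hl.tail h0)
    · rw [cn_cons_neg l hp] at h1 ⊢
      exact (H.time p l A B).trans (ih hl.tail h1)

lemma Calc.played_le (H : Calc ed r δ ε ν) (hδ : 0 ≤ δ) (hε : 0 ≤ ε) (l : List (E × Finset V))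
    (hl : Valid ed r l) (p : E × Finset V) (hp : p ∈ l) (A : Finset V) :
    ν l A (ed p.1) ≤ r + ε := by
  induction l with
  | nil => simp at hp
  | cons q l ih =>
    rcases List.mem_cons.1 hp with rfl | hp'
    · have h2 := H.stepU_UC1 A (ed p.1) p l hl le_rfl
      have h3 := H.cap l A p.2
      have h4 : (p.2 \ A).card ≤ r := by
        rw [← (hl.2 p List.mem_cons_self).2]
        exact Finset.card_le_card Finset.sdiff_subset
      have h5 : ((p.2 \ A).card : ℝ) ≤ r := by exact_mod_cast h4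
      have h6 : (0 : ℝ) ≤ r := Nat.cast_nonneg r
      have h7 : max (ν l A p.2 - δ) 0 ≤ r := max_le (by linarith) h6
      linarith
    · exact (H.time q l A _).trans (ih hl.tail hp')

lemma cn_eq_card [Fintype E] [DecidableEq E] (F : E → Prop) [DecidablePred F]
    {l : List (E × Finset V)} (hl : (l.map Prod.fst).Nodup) :
    cn F l = #{e | F e ∧ e ∈ l.map Prod.fst} := by
  induction l with
  | nil => simp
  | cons p l ih =>
    have hn : p.1 ∉ l.map Prod.fst := (List.nodup_cons.1 hl).1
    have ih' := ih (List.nodup_cons.1 hl).2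
    by_cases hp : F p.1
    · rw [cn_cons_pos l hp, ih']
      have : (univ.filter fun e => F e ∧ e ∈ (p :: l).map Prod.fst)
          = insert p.1 (univ.filter fun e => F e ∧ e ∈ l.map Prod.fst) := by
        ext e
        simp only [List.map_cons, List.mem_cons, mem_filter, mem_univ, true_and, mem_insert]
        constructor
        · rintro ⟨h1, h2 | h2⟩
          · exact Or.inl h2
          · exact Or.inr ⟨h1, h2⟩
        · rintro (h1 | ⟨h1, h2⟩)
          · exact ⟨h1 ▸ hp, Or.inl h1⟩
          · exact ⟨h1, Or.inr h2⟩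
      rw [this, card_insert_of_notMem]
      simp only [mem_filter, mem_univ, true_and, not_and]
      exact fun _ => hn
    · rw [cn_cons_neg l hp, ih']
      congr 1
      ext e
      simp only [List.map_cons, List.mem_cons, mem_filter, mem_univ, true_and]
      constructor
      · rintro ⟨h1, h2⟩
        exact ⟨h1, Or.inr h2⟩
      · rintro ⟨h1, h2 | h2⟩
        · exact absurd (h2 ▸ h1) hp
        · exact ⟨h1, h2⟩

end generic

variable {r : ℕ} {P Ln V : Type} [Fintype P] [DecidableEq P] [Fintype Ln] [DecidableEq Ln]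
  [DecidableEq V]

lemma card_grp_UC1 (g : Gp r P Ln) : #{e : Ed r P Ln | e.1 = g} = g.M := by
  have : (univ.filter fun e : Ed r P Ln => e.1 = g)
      = univ.image (fun i : Fin g.M => (⟨g, i⟩ : Ed r P Ln)) := by
    ext ⟨g', i⟩
    simp only [mem_filter, mem_univ, true_and, mem_image]
    constructor
    · rintro rfl
      exact ⟨i, rfl⟩
    · rintro ⟨j, hj⟩
      exact (congrArg Sigma.fst hj).symm
  rw [this, card_image_of_injective _ (fun i j h => eq_of_heq (Sigma.mk.inj h).2)]
  simp

lemma cg_le (g : Gp r P Ln) {l : List (Ed r P Ln × Finset V)} (hl : (l.map Prod.fst).Nodup) :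
    cg g l ≤ g.M := by
  rw [cg, cn_eq_card _ hl, ← card_grp_UC1 g]
  apply card_le_card
  intro e he
  simp only [mem_filter, mem_univ, true_and] at he ⊢
  exact he.1

lemma cg_eq_iff (g : Gp r P Ln) {l : List (Ed r P Ln × Finset V)} (hl : (l.map Prod.fst).Nodup) :
    cg g l = g.M ↔ ∀ e : Ed r P Ln, e.1 = g → e ∈ l.map Prod.fst := by
  have hsub : (univ.filter fun e : Ed r P Ln => e.1 = g ∧ e ∈ l.map Prod.fst)
      ⊆ univ.filter fun e : Ed r P Ln => e.1 = g := by
    intro e he
    simp only [mem_filter, mem_univ, true_and] at he ⊢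
    exact he.1
  rw [cg, cn_eq_card _ hl]
  conv_lhs => rw [← card_grp_UC1 g]
  constructor
  · intro h e he
    have h1 := eq_of_subset_of_card_le hsub h.ge
    have h2 : e ∈ univ.filter fun e : Ed r P Ln => e.1 = g := by simpa using he
    rw [← h1] at h2
    exact (mem_filter.1 h2).2.2
  · intro h
    congr 1
    ext e
    simp only [mem_filter, mem_univ, true_and]
    exact ⟨fun h1 => h1.1, fun h1 => ⟨h1, h e h1⟩⟩

lemma cg_cons_UC1 (g : Gp r P Ln) (p : Ed r P Ln × Finset V) (l : List (Ed r P Ln × Finset V)) :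
    cg g (p :: l) = cg g l + if p.1.1 = g then 1 else 0 := by
  unfold cg
  split_ifs with h
  · exact cn_cons_pos (F := fun e : Ed r P Ln => e.1 = g) l h
  · exact cn_cons_neg (F := fun e : Ed r P Ln => e.1 = g) l h

lemma cq_eq (l : List (Ed r P Ln × Finset V)) : cq l = cg .Q l + ∑ i, cg (.Y i) l := by
  induction l with
  | nil => simp [cq, cg]
  | cons p l ih =>
    simp only [cg_cons_UC1, Finset.sum_add_distrib]
    obtain ⟨⟨g, j⟩, u⟩ := p
    cases g with
    | Q =>
      have h : cq ((⟨Gp.Q, j⟩, u) :: l) = cq l + 1 :=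
        cn_cons_pos (F := fun e : Ed r P Ln => e.1.isQp) l trivial
      rw [h, ih]; simp; omega
    | Y i =>
      have h : cq ((⟨Gp.Y i, j⟩, u) :: l) = cq l + 1 :=
        cn_cons_pos (F := fun e : Ed r P Ln => e.1.isQp) l trivial
      rw [h, ih]; simp; omega
    | U i =>
      have h : cq ((⟨Gp.U i, j⟩, u) :: l) = cq l :=
        cn_cons_neg (F := fun e : Ed r P Ln => e.1.isQp) l (fun h => h)
      rw [h, ih]; simp
    | En i =>
      have h : cq ((⟨Gp.En i, j⟩, u) :: l) = cq l :=
        cn_cons_neg (F := fun e : Ed r P Ln => e.1.isQp) l (fun h => h)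
      rw [h, ih]; simp
    | W i =>
      have h : cq ((⟨Gp.W i, j⟩, u) :: l) = cq l :=
        cn_cons_neg (F := fun e : Ed r P Ln => e.1.isQp) l (fun h => h)
      rw [h, ih]; simp
    | L i =>
      have h : cq ((⟨Gp.L i, j⟩, u) :: l) = cq l :=
        cn_cons_neg (F := fun e : Ed r P Ln => e.1.isQp) l (fun h => h)
      rw [h, ih]; simp
    | T =>
      have h : cq ((⟨Gp.T, j⟩, u) :: l) = cq l :=
        cn_cons_neg (F := fun e : Ed r P Ln => e.1.isQp) l (fun h => h)
      rw [h, ih]; simp

lemma length_eq_sum_cg (l : List (Ed r P Ln × Finset V)) : l.length = ∑ g, cg g l := by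
  induction l with
  | nil => simp [cg]
  | cons p l ih =>
    simp only [cg_cons_UC1, Finset.sum_add_distrib, List.length_cons]
    rw [ih]; simp

/-- Number of unplayed edges. -/
lemma length_left {qs l : List (Ed r P Ln × Finset V)} (hl : ((qs ++ l).map Prod.fst).Nodup)
    (hall : ∀ e, e ∈ (qs ++ l).map Prod.fst) :
    (qs.length : ℝ) = ∑ g : Gp r P Ln, ((g.M : ℝ) - cg g l) := by
  rw [length_eq_sum_cg qs]
  push_cast
  refine Finset.sum_congr rfl fun g _ => ?_
  have h1 : cg g (qs ++ l) = g.M := (cg_eq_iff g hl).2 fun e _ => hall e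
  have h2 : cg g (qs ++ l) = cg g qs + cg g l := cn_append _ _ _
  have h3 : (g.M : ℝ) = cg g qs + cg g l := by rw [← h1, h2]; push_cast; rfl
  linarith

end Pool.Agent.SemiRandom.Und
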