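import Pool.Agent.P.MP_c53d0e_pr.UC1

set_option autoImplicit false
set_option linter.unusedSectionVars false

namespace Pool.Agent.SemiRandom.Und

open Finset

variable {V E : Type} [DecidableEq V] {ed : E → Finset V} {r : ℕ} {δ ε : ℝ}
  {ν : List (E × Finset V) → Finset V → Finset V → ℝ}

open Classical in
/-- Elements of `W` whose unary edge has been played. -/
noncomputable def pl_UC2 (W : Finset V) (un : V → E) (l : List (E × Finset V)) : Finset V :=
  W.filter fun y => un y ∈ l.map Prod.fst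

lemma mem_pl_UC2 {W : Finset V} {un : V → E} {l : List (E × Finset V)} {y : V} :
    y ∈ pl_UC2 W un l ↔ y ∈ W ∧ un y ∈ l.map Prod.fst := by
  classical
  simp only [pl_UC2, mem_filter]

lemma pl_pos_UC2 {W : Finset V} {un : V → E} (hinj : Set.InjOn un W) {p : E × Finset V}
    {l : List (E × Finset V)} {y : V} (hy : y ∈ W) (hp : p.1 = un y) :
    pl_UC2 W un (p :: l) = insert y (pl_UC2 W un l) := by
  ext x
  rw [mem_insert, mem_pl_UC2, mem_pl_UC2, List.map_cons, List.mem_cons, hp]
  constructor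
  · rintro ⟨hx, h | h⟩
    · exact Or.inl (hinj hx hy h)
    · exact Or.inr ⟨hx, h⟩
  · rintro (rfl | ⟨hx, h⟩)
    · exact ⟨hy, Or.inl rfl⟩
    · exact ⟨hx, Or.inr h⟩

lemma pl_neg_UC2 {W : Finset V} {un : V → E} {p : E × Finset V}
    {l : List (E × Finset V)} (hp : ¬ ∃ y ∈ W, p.1 = un y) :
    pl_UC2 W un (p :: l) = pl_UC2 W un l := by
  ext x
  rw [mem_pl_UC2, mem_pl_UC2, List.map_cons, List.mem_cons]
  constructor
  · rintro ⟨hx, h | h⟩
    · exact absurd ⟨x, hx, h.symm⟩ hp
    · exact ⟨hx, h⟩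
  · rintro ⟨hx, h⟩
    exact ⟨hx, Or.inr h⟩

lemma empty_UC2 (H : Calc ed r δ ε ν) (l : List (E × Finset V)) (A : Finset V) :
    ν l A ∅ ≤ 0 := by
  simpa using H.cap l A ∅

lemma stepE_UC2 (H : Calc ed r δ ε ν) {p : E × Finset V} {l : List (E × Finset V)}
    (hl : Valid ed r (p :: l)) (A B : Finset V) (hB : B ⊆ ed p.1) :
    ν (p :: l) A B ≤ ε + max (ν l A p.2 - δ) 0 := by
  have h1 := H.step p l A ∅ hl
  rw [empty_union, empty_union] at h1
  have h2 := H.mono (p :: l) A A B (ed p.1) subset_rfl (hB.trans subset_union_right)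
  have h3 := empty_UC2 H l (A ∪ ed p.1)
  have h4 : max (ν l A p.2 - δ) (ν l (A ∪ ed p.1) ∅) ≤ max (ν l A p.2 - δ) 0 :=
    max_le_max le_rfl h3
  linarith

lemma one_UC2 (H : Calc ed r δ ε ν) (l : List (E × Finset V)) (A : Finset V) (v : V) :
    ν l A {v} ≤ 1 := by
  refine (H.cap l A {v}).trans ?_
  have : ({v} \ A).card ≤ 1 := (card_le_card sdiff_subset).trans (card_singleton v).le
  exact_mod_cast this

lemma single_UC2 (H : Calc ed r δ ε ν) (hδ1 : δ ≤ 1) (A : Finset V) (v : V) (e : E)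
    (h1 : v ∈ ed e) (h2 : ed e ⊆ insert v A) (l : List (E × Finset V)) (hl : Valid ed r l)
    (he : e ∈ l.map Prod.fst) : ν l A {v} ≤ 1 - δ + ε := by
  induction l with
  | nil => simp at he
  | cons p l ih =>
    by_cases hp : e = p.1
    · subst hp
      have h3 := stepE_UC2 H hl A {v} (singleton_subset_iff.2 h1)
      have h4 : ν l A p.2 ≤ ν l A {v} := by
        refine H.mono l A A _ _ subset_rfl (((hl.2 p List.mem_cons_self).1.trans h2).trans ?_)
        intro x hx
        rcases mem_insert.1 hx with rfl | hx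
        · exact mem_union_right _ (mem_singleton_self _)
        · exact mem_union_left _ hx
      have h5 := one_UC2 H l A v
      have h6 : max (ν l A p.2 - δ) 0 ≤ 1 - δ := max_le (by linarith) (by linarith)
      linarith
    · rw [List.map_cons, List.mem_cons] at he
      exact (H.time p l A {v}).trans (ih hl.tail (he.resolve_left hp))

lemma stepU_UC2 (H : Calc ed r δ ε ν) {p : E × Finset V} {l : List (E × Finset V)}
    (hl : Valid ed r (p :: l)) (A A' N : Finset V) (y : V) (hy : y ∈ N) (hA : A ⊆ A')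
    (h1 : y ∈ ed p.1) (h2 : ed p.1 ⊆ insert y A) :
    ν (p :: l) A' N ≤ ε + max (ν l A' N - δ) (ν l (insert y A') N) := by
  have h3 := H.step p l A' N hl
  have h4 := H.mono (p :: l) A' A' N (N ∪ ed p.1) subset_rfl
    (subset_union_left.trans subset_union_right)
  have h5 : ν l A' (N ∪ p.2) ≤ ν l A' N := by
    refine H.mono l A' A' _ _ subset_rfl (union_subset subset_union_right ?_)
    intro x hx
    rcases mem_insert.1 (h2 ((hl.2 p List.mem_cons_self).1 hx)) with rfl | hx
    · exact mem_union_right _ hy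
    · exact mem_union_left _ (hA hx)
  have h6 : ν l (A' ∪ ed p.1) N ≤ ν l (insert y A') N :=
    H.mono l _ _ _ _ (insert_subset (mem_union_right _ h1) subset_union_left) subset_union_right
  have h7 : max (ν l A' (N ∪ p.2) - δ) (ν l (A' ∪ ed p.1) N) ≤
      max (ν l A' N - δ) (ν l (insert y A') N) := max_le_max (by linarith) h6
  linarith

lemma max_sub_UC2 {x y d : ℝ} (hd : 0 ≤ d) (h : x - d ≤ y) : max 0 x - d ≤ max 0 y := by
  rcases le_total 0 x with hx | hx
  · rw [max_eq_right hx]; exact h.trans (le_max_right _ _)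
  · rw [max_eq_left hx]; have := le_max_left 0 y; linarith

lemma blkA_UC2 (H : Calc ed r δ ε ν) (hδ0 : 0 ≤ δ) (hδ1 : δ ≤ 1) (hε : 0 ≤ ε) (A N W : Finset V)
    (hW : W ⊆ N) (un : V → E)
    (hun : ∀ y ∈ W, y ∈ ed (un y) ∧ ed (un y) ⊆ insert y A) (hinj : Set.InjOn un W)
    (F : E → Prop) (hF : ∀ e, F e → N ⊆ ed e ∧ ed e ⊆ A ∪ N) (hFun : ∀ y ∈ W, ¬ F (un y))
    (l : List (E × Finset V)) (hl : Valid ed r l) (R : Finset V) :
    ν l (A ∪ R) N ≤ max 0 (((N \ R).card : ℝ) - δ * (pl_UC2 W un l \ R).card - δ * cn F l) +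
      ε * ((pl_UC2 W un l).card + cn F l) := by
  induction l generalizing R with
  | nil =>
    have h0 : pl_UC2 W un ([] : List (E × Finset V)) = ∅ := by
      ext x; simp [mem_pl_UC2]
    have h1 := H.cap [] (A ∪ R) N
    have h2 : ((N \ (A ∪ R)).card : ℝ) ≤ (N \ R).card := by
      exact_mod_cast card_le_card (sdiff_subset_sdiff subset_rfl subset_union_right)
    have h3 := le_max_right 0 ((N \ R).card : ℝ)
    simp only [h0, empty_sdiff, card_empty, cn_nil, Nat.cast_zero, mul_zero, sub_zero, add_zero]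
    linarith
  | cons p l ih =>
    by_cases h1 : ∃ y ∈ W, p.1 = un y
    · obtain ⟨y, hy, hp⟩ := h1
      have hn : y ∉ pl_UC2 W un l := fun h => hl.notMem (hp ▸ (mem_pl_UC2.1 h).2)
      rw [pl_pos_UC2 hinj hy hp, cn_cons_neg l (hp ▸ hFun y hy), card_insert_of_notMem hn]
      by_cases hR : y ∈ R
      · rw [insert_sdiff_of_mem _ hR]
        have h2 := (H.time p l (A ∪ R) N).trans (ih hl.tail R)
        push_cast
        nlinarith
      · rw [insert_sdiff_of_notMem _ hR, card_insert_of_notMem (fun h => hn (mem_sdiff.1 h).1)]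
        have h2 := stepU_UC2 H hl A (A ∪ R) N y (hW hy) subset_union_left
          (hp ▸ (hun y hy).1) (hp ▸ (hun y hy).2)
        have h3 := ih hl.tail R
        have h4 := ih hl.tail (insert y R)
        rw [union_insert, sdiff_insert_of_notMem hn] at h4
        have h5 : ((N \ insert y R).card : ℝ) + 1 = (N \ R).card := by
          rw [sdiff_insert]
          exact_mod_cast card_erase_add_one (mem_sdiff.2 ⟨hW hy, hR⟩)
        have h6 := max_sub_UC2 (x := ((N \ R).card : ℝ) - δ * (pl_UC2 W un l \ R).card -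
          δ * cn F l) (y := ((N \ R).card : ℝ) - δ * ((pl_UC2 W un l \ R).card + 1) -
          δ * cn F l) hδ0 (le_of_eq (by ring))
        have h7 : max 0 (((N \ insert y R).card : ℝ) - δ * (pl_UC2 W un l \ R).card -
            δ * cn F l) ≤ max 0 (((N \ R).card : ℝ) - δ * ((pl_UC2 W un l \ R).card + 1) -
            δ * cn F l) := max_le_max le_rfl (by linarith)
        have h8 : max (ν l (A ∪ R) N - δ) (ν l (insert y (A ∪ R)) N) ≤
            max 0 (((N \ R).card : ℝ) - δ * ((pl_UC2 W un l \ R).card + 1) - δ * cn F l) +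
              ε * ((pl_UC2 W un l).card + cn F l) := max_le (by linarith) (by linarith)
        push_cast
        linarith
    · rw [pl_neg_UC2 h1]
      by_cases h2 : F p.1
      · rw [cn_cons_pos l h2]
        have h3 := stepE_UC2 H hl (A ∪ R) N (hF _ h2).1
        have h4 : ν l (A ∪ R) p.2 ≤ ν l (A ∪ R) N :=
          H.mono l _ _ _ _ subset_rfl (((hl.2 p List.mem_cons_self).1.trans (hF _ h2).2).trans
            (union_subset_union subset_union_left subset_rfl))
        have h5 := ih hl.tail R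
        have h6 := max_sub_UC2 (x := ((N \ R).card : ℝ) - δ * (pl_UC2 W un l \ R).card -
          δ * cn F l) (y := ((N \ R).card : ℝ) - δ * (pl_UC2 W un l \ R).card -
          δ * (cn F l + 1)) hδ0 (le_of_eq (by ring))
        have h7 := le_max_left 0 (((N \ R).card : ℝ) - δ * (pl_UC2 W un l \ R).card -
          δ * (cn F l + 1))
        have h9 : 0 ≤ ε * (((pl_UC2 W un l).card : ℝ) + cn F l) := by positivity
        have h8 : max (ν l (A ∪ R) p.2 - δ) 0 ≤
            max 0 (((N \ R).card : ℝ) - δ * (pl_UC2 W un l \ R).card - δ * (cn F l + 1)) +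
              ε * ((pl_UC2 W un l).card + cn F l) := max_le (by linarith) (by linarith)
        push_cast
        linarith
      · rw [cn_cons_neg l h2]
        exact (H.time p l (A ∪ R) N).trans (ih hl.tail R)

lemma first_UC2 (H : Calc ed r δ ε ν) (hδ0 : 0 ≤ δ) (hδ1 : δ ≤ 1) (hε : 0 ≤ ε) (A N W : Finset V)
    (hN : N.card = r + 1) (hW : W ⊆ N) (un : V → E)
    (hun : ∀ y ∈ W, y ∈ ed (un y) ∧ ed (un y) ⊆ insert y A)
    (l : List (E × Finset V)) (hl : Valid ed r l) (B : Finset V) (hB : B ⊆ A ∪ N)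
    (hBc : B.card = r) :
    ν l A B ≤ (r : ℝ) - δ * ((pl_UC2 W un l).card - 1) + ε * r := by
  obtain ⟨x, hxN, hxB⟩ := exists_mem_notMem_of_card_lt_card (s := B) (t := N) (by omega)
  have h1 : ν l A B ≤ ν l A (N.erase x) := by
    refine H.mono l _ _ _ _ subset_rfl fun v hv => ?_
    rcases mem_union.1 (hB hv) with h | h
    · exact mem_union_left _ h
    · exact mem_union_right _ (mem_erase.2 ⟨fun e => hxB (e ▸ hv), h⟩)
  have h2 := H.sub_le l A (N.erase x)
  have h3 : ∑ v ∈ N.erase x, ν l A {v} ≤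
      ∑ v ∈ N.erase x, (1 + ε - if v ∈ pl_UC2 W un l then δ else 0) := by
    refine sum_le_sum fun v _ => ?_
    split_ifs with hv
    · obtain ⟨ha, hb⟩ := mem_pl_UC2.1 hv
      have := single_UC2 H hδ1 A v (un v) (hun v ha).1 (hun v ha).2 l hl hb
      linarith
    · have := one_UC2 H l A v
      linarith
  have hc : (N.erase x).card = r := by rw [card_erase_of_mem hxN, hN]; rfl
  rw [sum_sub_distrib, sum_const, hc, ← sum_filter, sum_const, nsmul_eq_mul, nsmul_eq_mul] at h3
  have h4 : (pl_UC2 W un l).card ≤ ((N.erase x).filter fun v => v ∈ pl_UC2 W un l).card + 1 := by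
    refine le_trans (card_le_card ?_) (card_insert_le x _)
    intro v hv
    by_cases e : v = x
    · exact mem_insert.2 (Or.inl e)
    · exact mem_insert_of_mem
        (mem_filter.2 ⟨mem_erase.2 ⟨e, hW (mem_pl_UC2.1 hv).1⟩, hv⟩)
  have h5 : ((pl_UC2 W un l).card : ℝ) ≤
      ((N.erase x).filter fun v => v ∈ pl_UC2 W un l).card + 1 := by exact_mod_cast h4
  nlinarith

lemma blkB_UC2 (H : Calc ed r δ ε ν) (hδ0 : 0 ≤ δ) (hδ1 : δ ≤ 1) (hε : 0 ≤ ε) (A N W : Finset V)
    (hN : N.card = r + 1) (hW : W ⊆ N) (un : V → E)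
    (hun : ∀ y ∈ W, y ∈ ed (un y) ∧ ed (un y) ⊆ insert y A) (hinj : Set.InjOn un W)
    (F : E → Prop) (hF : ∀ e, F e → N ⊆ ed e ∧ ed e ⊆ A ∪ N) (hFun : ∀ y ∈ W, ¬ F (un y))
    (l : List (E × Finset V)) (hl : Valid ed r l) (hc : 1 ≤ cn F l) :
    ν l A N ≤ max 0 ((r : ℝ) - δ * ((pl_UC2 W un l).card - 1) - δ * cn F l) +
      ε * ((pl_UC2 W un l).card + cn F l + r) := by
  have hr : (0 : ℝ) ≤ ε * r := by positivity
  induction l with
  | nil => simp at hc
  | cons p l ih =>
    by_cases h1 : ∃ y ∈ W, p.1 = un y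
    · obtain ⟨y, hy, hp⟩ := h1
      have hn : y ∉ pl_UC2 W un l := fun h => hl.notMem (hp ▸ (mem_pl_UC2.1 h).2)
      rw [cn_cons_neg l (hp ▸ hFun y hy)] at hc ⊢
      rw [pl_pos_UC2 hinj hy hp, card_insert_of_notMem hn]
      have h2 := stepU_UC2 H hl A A N y (hW hy) subset_rfl
        (hp ▸ (hun y hy).1) (hp ▸ (hun y hy).2)
      have h3 := ih hl.tail hc
      have h4 := blkA_UC2 H hδ0 hδ1 hε A N W hW un hun hinj F hF hFun l hl.tail {y}
      rw [sdiff_singleton_eq_erase, sdiff_singleton_eq_erase, erase_eq_of_notMem hn,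
        card_erase_of_mem (hW hy), hN, Nat.add_sub_cancel, union_comm, ← insert_eq] at h4
      have h6 := max_sub_UC2 (x := (r : ℝ) - δ * ((pl_UC2 W un l).card - 1) - δ * cn F l)
        (y := (r : ℝ) - δ * (pl_UC2 W un l).card - δ * cn F l) hδ0 (le_of_eq (by ring))
      have h8 : max (ν l A N - δ) (ν l (insert y A) N) ≤
          max 0 ((r : ℝ) - δ * (pl_UC2 W un l).card - δ * cn F l) +
            ε * ((pl_UC2 W un l).card + cn F l + r) := max_le (by linarith) (by linarith)
      push_cast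
      rw [add_sub_cancel_right]
      linarith
    · rw [pl_neg_UC2 h1]
      by_cases h2 : F p.1
      · rw [cn_cons_pos l h2]
        have h3 := stepE_UC2 H hl A N (hF _ h2).1
        have hs := (hl.2 p List.mem_cons_self).1.trans (hF _ h2).2
        have h7 := le_max_left 0 ((r : ℝ) - δ * ((pl_UC2 W un l).card - 1) - δ * (cn F l + 1))
        have h9 : 0 ≤ ε * (((pl_UC2 W un l).card : ℝ) + cn F l) := by positivity
        have h8 : max (ν l A p.2 - δ) 0 ≤
            max 0 ((r : ℝ) - δ * ((pl_UC2 W un l).card - 1) - δ * (cn F l + 1)) +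
              ε * ((pl_UC2 W un l).card + cn F l + r) := by
          refine max_le ?_ (by linarith)
          by_cases hc' : 1 ≤ cn F l
          · have h4 : ν l A p.2 ≤ ν l A N := H.mono l _ _ _ _ subset_rfl hs
            have h5 := ih hl.tail hc'
            have h6 := max_sub_UC2 (x := (r : ℝ) - δ * ((pl_UC2 W un l).card - 1) - δ * cn F l)
              (y := (r : ℝ) - δ * ((pl_UC2 W un l).card - 1) - δ * (cn F l + 1)) hδ0
              (le_of_eq (by ring))
            linarith
          · have h0 : cn F l = 0 := by omega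
            have h4 := first_UC2 H hδ0 hδ1 hε A N W hN hW un hun l hl.tail p.2 hs
              (hl.2 p List.mem_cons_self).2
            have h5 := le_max_right 0
              ((r : ℝ) - δ * ((pl_UC2 W un l).card - 1) - δ * (cn F l + 1))
            rw [h0] at h5 h9 ⊢
            push_cast at h5 h9 ⊢
            linarith
        push_cast
        linarith
      · rw [cn_cons_neg l h2] at hc ⊢
        exact (H.time p l A N).trans (ih hl.tail hc)

/-- Block lemma. -/
lemma Calc.blk (H : Calc ed r δ ε ν) (hδ0 : 0 ≤ δ) (hδ1 : δ ≤ 1) (hε : 0 ≤ ε) (A N W : Finset V)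
    (hN : N.card = r + 1) (hW : W ⊆ N) (un : V → E)
    (hun : ∀ y ∈ W, y ∈ ed (un y) ∧ ed (un y) ⊆ insert y A) (hinj : Set.InjOn un W)
    (F : E → Prop) (hF : ∀ e, F e → N ⊆ ed e ∧ ed e ⊆ A ∪ N) (hFun : ∀ y ∈ W, ¬ F (un y))
    (l : List (E × Finset V)) (hl : Valid ed r l) (hall : ∀ y ∈ W, un y ∈ l.map Prod.fst)
    (hc : 1 ≤ cn F l) :
    ν l A N ≤ max 0 ((r : ℝ) - δ * (W.card - 1) - δ * cn F l) + ε * (W.card + cn F l + r) := by
  have h := blkB_UC2 H hδ0 hδ1 hε A N W hN hW un hun hinj F hF hFun l hl hc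
  have hW' : pl_UC2 W un l = W := by
    ext x
    rw [mem_pl_UC2]
    exact ⟨fun h => h.1, fun h => ⟨h, hall x h⟩⟩
  rwa [hW'] at h

end Pool.Agent.SemiRandom.Und
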