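import Pool.Agent.P.MP_c53d0e_pr.UC1

set_option autoImplicit false
set_option linter.unusedSectionVars false

namespace Pool.Agent.SemiRandom.Und

open Finset

variable {r s : ℕ} {P Ln : Type} [Fintype P] [DecidableEq P] [Fintype Ln] [DecidableEq Ln]
  {I : Inst (r + r) P Ln} {δ ε ζ : ℝ}
  {ν : List (Ed r P Ln × Finset (Vx r s P Ln)) → Finset (Vx r s P Ln) → Finset (Vx r s P Ln) → ℝ}

lemma y_bd (hP : Par δ ε ζ) (H : Calc (ed I s) r δ ε ν)
    (l : List (Ed r P Ln × Finset (Vx r s P Ln))) (hl : Valid (ed I s) r l) (i : Fin (2 * r)) :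
    ν l CC {Vx.y i} ≤ δ * (2 - cg (.Y i) l) + 4 * ζ := by
  obtain ⟨e0, e1, d0, d1, z1⟩ := hP
  have hδ : 0 ≤ δ := by linarith
  have h := H.lemU hδ e0 (fun d : Ed r P Ln => d.1 = .Y i) CC {Vx.y i} (fun d hd => by
    have h1 := NN_subset_ed (s := s) I d
    have h2 := ed_subset (s := s) I d
    rw [hd] at h1 h2
    exact ⟨h1, h2⟩) l hl
  have hc : cg (.Y i) l ≤ 2 := cg_le (.Y i) hl.1
  have hc' : (cg (.Y i) l : ℝ) ≤ 2 := by exact_mod_cast hc
  have hk : ((({Vx.y i} : Finset (Vx r s P Ln)) \ CC).card : ℝ) ≤ 1 := by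
    have := card_le_card (sdiff_subset (s := ({Vx.y i} : Finset (Vx r s P Ln))) (t := CC))
    rw [card_singleton] at this
    exact_mod_cast this
  change ν l CC {Vx.y i} ≤ max 0 (_ - δ * cg (.Y i) l) + ε * cg (.Y i) l at h
  have h3 : ε * (cg (.Y i) l : ℝ) ≤ ε * 2 := mul_le_mul_of_nonneg_left hc' e0
  have h4 : 0 ≤ δ * (2 - (cg (.Y i) l : ℝ)) := mul_nonneg hδ (by linarith)
  have h5 : max 0 (((({Vx.y i} : Finset (Vx r s P Ln)) \ CC).card : ℝ) - δ * cg (.Y i) l)
      ≤ δ * (2 - cg (.Y i) l) + 2 * ζ := max_le (by linarith) (by linarith)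
  linarith

lemma ed_sub_UC3 (d : Ed r P Ln) (hd : d.1.isQp) : ed I s d ⊆ CC ∪ YY := by
  refine (ed_subset I d).trans (union_subset_union Subset.rfl ?_)
  obtain ⟨g, j⟩ := d
  cases g with
  | Q => simp [NN]
  | Y i => simp [NN]
  | U p => exact hd.elim
  | En x => exact hd.elim
  | W b => exact hd.elim
  | L e => exact hd.elim
  | T => exact hd.elim

lemma k_le_UC3 (g : Gp r P Ln) (hg : g.isQp) : g.k s ≤ 1 := by
  cases g with
  | Q => simp [Gp.k]
  | Y i => simp [Gp.k]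
  | U p => exact hg.elim
  | En x => exact hg.elim
  | W b => exact hg.elim
  | L e => exact hg.elim
  | T => exact hg.elim

lemma cn_mono_UC3 {V E : Type} (F G : E → Prop) (h : ∀ e, F e → G e) (l : List (E × Finset V)) :
    cn F l ≤ cn G l := by
  unfold cn
  refine List.countP_mono_left fun p _ hp => ?_
  simp only [decide_eq_true_eq] at hp ⊢
  exact h _ hp

lemma cn_X_UC3 (X : Finset (Vx r s P Ln)) (hX : X ⊆ CC)
    (l : List (Ed r P Ln × Finset (Vx r s P Ln))) (hl : (l.map Prod.fst).Nodup) :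
    cg .Q l ≤ cn (fun d : Ed r P Ln => d.1 = .Q ∧ X ⊆ ed I s d) l + X.card := by
  classical
  unfold cg
  rw [cn_eq_card _ hl, cn_eq_card _ hl]
  have hsub : ({e | e.1 = .Q ∧ e ∈ l.map Prod.fst} : Finset (Ed r P Ln)) ⊆
      ({e | (e.1 = .Q ∧ X ⊆ ed I s e) ∧ e ∈ l.map Prod.fst} : Finset (Ed r P Ln)) ∪
      ({e | e.1 = .Q ∧ ¬X ⊆ ed I s e} : Finset (Ed r P Ln)) := by
    intro e he
    simp only [mem_filter, mem_univ, true_and, mem_union] at he ⊢
    tauto
  refine (card_le_card hsub).trans ((card_union_le _ _).trans (Nat.add_le_add_left ?_ _))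
  let f : Vx r s P Ln → ℕ := fun v => match v with
    | .c j => j
    | _ => 0
  refine le_trans ?_ (card_image_le (s := X) (f := f))
  refine card_le_card_of_injOn (fun e => (e.2 : ℕ)) ?_ ?_
  · intro e he
    simp only [coe_filter, mem_univ, true_and, Set.mem_ofPred_eq] at he
    obtain ⟨v, hv, hve⟩ := not_subset.1 he.2
    obtain ⟨j, rfl⟩ := (mem_CC _).1 (hX hv)
    rw [c_mem_ed] at hve
    have hk : e.1.k s = 0 := by rw [he.1]; rfl
    have hj := j.2
    simp only [coe_image, Set.mem_image, mem_coe]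
    refine ⟨_, hv, ?_⟩
    show (j : ℕ) = e.2
    by_contra hne
    exact hve ⟨by omega, hne⟩
  · rintro ⟨g, a⟩ he ⟨g', a'⟩ he' h
    simp only [coe_filter, mem_univ, true_and, Set.mem_ofPred_eq] at he he'
    obtain rfl : g = .Q := he.1
    obtain rfl : g' = .Q := he'.1
    have : a = a' := Fin.ext h
    rw [this]

lemma second_UC3 (hO : Ok r s P Ln) (hP : Par δ ε ζ) (H : Calc (ed I s) r δ ε ν)
    (p : Ed r P Ln × Finset (Vx r s P Ln)) (l : List (Ed r P Ln × Finset (Vx r s P Ln)))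
    (hl : Valid (ed I s) r (p :: l)) (hp : p.1.1.isQp) :
    ν l (ed I s p.1) (CC ∪ YY) ≤ δ * (6 * r + 2 - cq (p :: l)) + 10 * r * ζ + ε * cq l := by
  have hP' := hP
  obtain ⟨e0, e1, d0, d1, z1⟩ := hP
  have hδ : 0 ≤ δ := by linarith
  have hr : (2 : ℝ) ≤ r := by exact_mod_cast hO.hr
  set e := ed I s p.1 with he
  set X : Finset (Vx r s P Ln) := CC \ e with hX
  have hCC : (CC : Finset (Vx r s P Ln)) ⊆ e ∪ X := by
    rw [hX, union_sdiff_self_eq_union]; exact subset_union_right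
  have hXc : X.card ≤ 2 := by
    rw [hX, he, card_CC_sdiff_ed hO]
    have := k_le_UC3 (s := s) _ hp
    omega
  have h1 : ν l e (CC ∪ YY) ≤ ν l e X + ν l (e ∪ X) YY := by
    refine (H.mono l e e _ (X ∪ YY) Subset.rfl ?_).trans (H.chain l e X YY)
    rw [← union_assoc]
    exact union_subset_union hCC Subset.rfl
  have hYY : (YY : Finset (Vx r s P Ln)) = univ.biUnion fun i => {Vx.y i} := by
    ext v; simp
  have h2 : ν l (e ∪ X) YY ≤ ∑ i, (δ * (2 - cg (.Y i) (p :: l)) + 4 * ζ) := by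
    rw [hYY]
    refine (H.subadd _ l _ _).trans (sum_le_sum fun i _ => ?_)
    by_cases hi : p.1.1 = .Y i
    · have hy : Vx.y i ∈ e := by
        apply NN_subset_ed I p.1
        rw [hi]; simp [NN]
      have hc := H.cap l (e ∪ X) {Vx.y i}
      rw [sdiff_eq_empty_iff_subset.2 (singleton_subset_iff.2 (mem_union_left _ hy))] at hc
      have hc2 : cg (.Y i) (p :: l) ≤ 2 := cg_le (.Y i) hl.1
      have hc3 : (cg (.Y i) (p :: l) : ℝ) ≤ 2 := by exact_mod_cast hc2
      have h4 : 0 ≤ δ * (2 - (cg (.Y i) (p :: l) : ℝ)) := mul_nonneg hδ (by linarith)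
      simp only [card_empty, Nat.cast_zero] at hc
      linarith
    · have hc : cg (.Y i) (p :: l) = cg (.Y i) l := cn_cons_neg l hi
      rw [hc]
      exact (H.mono l _ CC _ _ hCC subset_union_right).trans (y_bd hP' H l hl.tail i)
  have h3 := H.lemU hδ e0 (fun d : Ed r P Ln => d.1 = .Q ∧ X ⊆ ed I s d) e X (fun d hd => by
    refine ⟨hd.2, (ed_subset I d).trans ?_⟩
    rw [hd.1]
    simpa [NN] using hCC) l hl.tail
  have h4 := cn_X_UC3 (I := I) X sdiff_subset l hl.tail.1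
  set c := cn (fun d : Ed r P Ln => d.1 = .Q ∧ X ⊆ ed I s d) l with hc
  have h5 : c ≤ cq l := cn_mono_UC3 _ _ (fun d hd => by rw [hd.1]; trivial) l
  have h5' : ε * (c : ℝ) ≤ ε * cq l :=
    mul_le_mul_of_nonneg_left (by exact_mod_cast h5) e0
  have h6 : cg .Q (p :: l) ≤ 2 * r + 2 := cg_le .Q hl.1
  have h7 : cg .Q (p :: l) ≤ c + 2 := by
    by_cases hq : p.1.1 = .Q
    · have h70 : cg .Q (p :: l) = cg .Q l + 1 := cn_cons_pos l hq
      have h71 : X.card = 1 := by
        rw [hX, he, card_CC_sdiff_ed hO, hq]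
        rfl
      omega
    · have h70 : cg .Q (p :: l) = cg .Q l := cn_cons_neg l hq
      omega
  have h8 : ((X \ e).card : ℝ) ≤ 2 := by
    exact_mod_cast (card_le_card sdiff_subset).trans hXc
  have h6' : (cg .Q (p :: l) : ℝ) ≤ 2 * r + 2 := by exact_mod_cast h6
  have h9 : max 0 (((X \ e).card : ℝ) - δ * c) ≤
      δ * (2 * r + 2 - cg .Q (p :: l)) + 2 * r * ζ := by
    have hζ : 0 ≤ ζ := e0.trans e1
    have h90 : 0 ≤ 2 * r * ζ := by positivity
    have h91 : 0 ≤ δ * (2 * r + 2 - (cg .Q (p :: l) : ℝ)) := mul_nonneg hδ (by linarith)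
    refine max_le (by linarith) ?_
    have h10 : (cg .Q (p :: l) : ℝ) ≤ c + 2 := by exact_mod_cast h7
    have h11 : δ * (2 * r - c) ≤ δ * (2 * r + 2 - (cg .Q (p :: l) : ℝ)) :=
      mul_le_mul_of_nonneg_left (by linarith) hδ
    have h12 : (r : ℝ) * (1 / 2 - ζ) ≤ r * δ := mul_le_mul_of_nonneg_left d0 (by linarith)
    linarith
  have h10 : (cq (p :: l) : ℝ) = cg .Q (p :: l) + ∑ i, (cg (.Y i) (p :: l) : ℝ) := by
    rw [cq_eq]; push_cast; rfl
  rw [sum_add_distrib, ← mul_sum, sum_sub_distrib] at h2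
  simp only [sum_const, card_univ, Fintype.card_fin, nsmul_eq_mul, Nat.cast_mul,
    Nat.cast_ofNat] at h2
  rw [h10]
  linarith

lemma lemQ_UC3 (hO : Ok r s P Ln) (hP : Par δ ε ζ) (H : Calc (ed I s) r δ ε ν)
    (l : List (Ed r P Ln × Finset (Vx r s P Ln))) (hl : Valid (ed I s) r l) (h1 : 1 ≤ cq l) :
    ν l ∅ (CC ∪ YY) ≤ δ * (6 * r + 2 - cq l) + 10 * r * ζ + ε * cq l := by
  have hP' := hP
  obtain ⟨e0, e1, d0, d1, z1⟩ := hP
  have hr : (2 : ℝ) ≤ r := by exact_mod_cast hO.hr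
  have hζ : 0 ≤ ζ := e0.trans e1
  induction l with
  | nil => simp [cq] at h1
  | cons p l ih =>
    by_cases hp : p.1.1.isQp
    · have hc : cq (p :: l) = cq l + 1 := cn_cons_pos l hp
      have hsub := ed_sub_UC3 (I := I) (s := s) p.1 hp
      have hp2 := hl.2 p List.mem_cons_self
      rcases Nat.eq_zero_or_pos (cq l) with h0 | h0
      · have ha := H.chain (p :: l) ∅ (ed I s p.1) (CC ∪ YY)
        rw [union_eq_right.2 hsub, empty_union] at ha
        have hb := H.step p l ∅ ∅ hl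
        simp only [empty_union] at hb
        have hb1 := H.cap l ∅ p.2
        rw [sdiff_empty, hp2.2] at hb1
        have hb2 := H.cap l (ed I s p.1) ∅
        simp only [empty_sdiff, card_empty, Nat.cast_zero] at hb2
        have hb3 : max (ν l ∅ p.2 - δ) (ν l (ed I s p.1) ∅) ≤ r - δ :=
          max_le (by linarith) (by linarith)
        have hd := H.cap (p :: l) (ed I s p.1) (CC ∪ YY)
        have hcard : ((CC ∪ YY : Finset (Vx r s P Ln)) \ ed I s p.1).card ≤ 2 * r + 1 := by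
          rw [card_sdiff_of_subset hsub, card_ed hO]
          have := card_union_le (CC : Finset (Vx r s P Ln)) YY
          rw [card_CC, card_YY] at this
          omega
        have hcard' : (((CC ∪ YY : Finset (Vx r s P Ln)) \ ed I s p.1).card : ℝ) ≤ 2 * r + 1 := by
          exact_mod_cast hcard
        rw [hc, h0]
        have h2 : (1 / 2 - ζ) * (6 * r + 2) ≤ δ * (6 * r + 2) :=
          mul_le_mul_of_nonneg_right d0 (by linarith)
        have h3 : 0 ≤ ζ * (r - 1) := mul_nonneg hζ (by linarith)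
        push_cast
        linarith
      · have hb := H.step p l ∅ (CC ∪ YY) hl
        rw [union_eq_left.2 hsub, union_eq_left.2 (hp2.1.trans hsub), empty_union] at hb
        have h2 := ih hl.tail h0
        have h3 := second_UC3 hO hP' H p l hl hp
        rw [hc] at h3 ⊢
        push_cast at h3 ⊢
        have h4 : max (ν l ∅ (CC ∪ YY) - δ) (ν l (ed I s p.1) (CC ∪ YY))
            ≤ δ * (6 * r + 2 - (cq l + 1)) + 10 * r * ζ + ε * cq l :=
          max_le (by linarith) h3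
        linarith
    · have hc : cq (p :: l) = cq l := cn_cons_neg l hp
      rw [hc] at h1 ⊢
      exact (H.time p l _ _).trans (ih hl.tail h1)

lemma lemQ (hO : Ok r s P Ln) (hP : Par δ ε ζ) (H : Calc (ed I s) r δ ε ν)
    (l : List (Ed r P Ln × Finset (Vx r s P Ln))) (hl : Valid (ed I s) r l) (h1 : 1 ≤ cq l) :
    ν l ∅ (CC ∪ YY) ≤ δ * (6 * r + 2 - cq l) + 17 * r * ζ := by
  have h := lemQ_UC3 hO hP H l hl h1
  obtain ⟨e0, e1, d0, d1, z1⟩ := hP
  have hr : (2 : ℝ) ≤ r := by exact_mod_cast hO.hr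
  have hζ : 0 ≤ ζ := e0.trans e1
  have h2 : cq l ≤ 2 * r + 2 + 2 * r * 2 := by
    rw [cq_eq]
    refine Nat.add_le_add (cg_le .Q hl.1) ?_
    have := sum_le_card_nsmul univ (fun i : Fin (2 * r) => cg (.Y i) l) 2
      (fun i _ => cg_le (.Y i) hl.1)
    simpa using this
  have h3 : (cq l : ℝ) ≤ 2 * r + 2 + 2 * r * 2 := by exact_mod_cast h2
  have h4 : ε * (cq l : ℝ) ≤ ζ * (2 * r + 2 + 2 * r * 2) :=
    mul_le_mul e1 h3 (Nat.cast_nonneg _) hζ
  have h5 : 0 ≤ ζ * (r - 2) := mul_nonneg hζ (by linarith)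
  linarith

end Pool.Agent.SemiRandom.Und
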