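import Pool.Agent.P.MP_c53d0e_pr.UC2

set_option autoImplicit false
set_option linter.unusedSectionVars false

namespace Pool.Agent.SemiRandom.Und

open Finset

variable {r s : ℕ} {P Ln : Type} [Fintype P] [DecidableEq P] [Fintype Ln] [DecidableEq Ln]
  {I : Inst (r + r) P Ln} {δ ε ζ : ℝ}
  {ν : List (Ed r P Ln × Finset (Vx r s P Ln)) → Finset (Vx r s P Ln) → Finset (Vx r s P Ln) → ℝ}

lemma grp_UC4 (g : Gp r P Ln) (A : Finset (Vx r s P Ln)) (hA : CC ⊆ A) (d : Ed r P Ln)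
    (hd : d.1 = g) : NN I s g ⊆ ed I s d ∧ ed I s d ⊆ A ∪ NN I s g := by
  subst hd
  exact ⟨NN_subset_ed I d, (ed_subset I d).trans (union_subset_union_left hA)⟩

lemma test_bd (hP : Par δ ε ζ) (H : Calc (ed I s) r δ ε ν)
    (l : List (Ed r P Ln × Finset (Vx r s P Ln))) (hl : Valid (ed I s) r l) (h1 : 1 ≤ cg .T l) :
    ν l CC (NN I s .T) ≤ δ * (2 * r - cg .T l) + 4 * r * ζ := by
  obtain ⟨e0, e1, d0, d1, z1⟩ := hP
  have hδ : 0 ≤ δ := by linarith
  have h2 := H.lemU' hδ e0 (fun d : Ed r P Ln => d.1 = .T) CC (NN I s .T)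
    (grp_UC4 _ _ Subset.rfl) l hl h1
  have h3 : cg .T l ≤ 2 * r := cg_le .T hl.1
  have h4 : ((cg .T l : ℕ) : ℝ) ≤ 2 * r := by exact_mod_cast h3
  have h5 : (0 : ℝ) ≤ r := Nat.cast_nonneg _
  have h6 : (0 : ℝ) ≤ (cg .T l : ℕ) := Nat.cast_nonneg _
  change _ ≤ max 0 ((r : ℝ) - δ * cg .T l) + ε * cg .T l at h2
  have h7 : ε * cg .T l ≤ ζ * (2 * r) := mul_le_mul e1 h4 h6 (e0.trans e1)
  have h8 : 0 ≤ δ * (2 * r - cg .T l) := mul_nonneg hδ (by linarith)
  have h9 : 0 ≤ r * ζ := mul_nonneg h5 (e0.trans e1)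
  have h10 : r * (1 / 2 - ζ) ≤ r * δ := mul_le_mul_of_nonneg_left d0 h5
  have h11 : max 0 ((r : ℝ) - δ * cg .T l) ≤ δ * (2 * r - cg .T l) + 2 * r * ζ :=
    max_le (by linarith) (by linarith)
  linarith

lemma chain1 (H : Calc (ed I s) r δ ε ν)
    (l : List (Ed r P Ln × Finset (Vx r s P Ln))) (A0 : Finset (Vx r s P Ln)) (hA : CC ⊆ A0) :
    ν l ∅ univ ≤ ν l ∅ A0 + ν l CC (NN I s .T) := by
  have h1 : (univ : Finset (Vx r s P Ln)) ⊆ ∅ ∪ (A0 ∪ NN I s .T) := by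
    intro v _
    rw [empty_union, mem_union]
    by_cases h : v ∈ (CC : Finset (Vx r s P Ln))
    · exact Or.inl (hA h)
    · exact Or.inr (mem_sdiff.2 ⟨mem_univ _, h⟩)
  have h2 := H.mono l ∅ ∅ _ _ Subset.rfl h1
  have h4 := H.chain l ∅ A0 (NN I s .T)
  have h5 := H.mono l (∅ ∪ A0) CC (NN I s .T) (NN I s .T) (hA.trans subset_union_right)
    subset_union_right
  linarith

lemma const_bd (hO : Ok r s P Ln) (hP : Par δ ε ζ) (H : Calc (ed I s) r δ ε ν)
    (l : List (Ed r P Ln × Finset (Vx r s P Ln))) (hl : Valid (ed I s) r l)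
    (p : Ed r P Ln × Finset (Vx r s P Ln)) (hp : p ∈ l) (hT : p.1.1 ≠ .T) :
    ν l ∅ CC ≤ 2 * r + 2 + ζ := by
  obtain ⟨e0, e1, d0, d1, z1⟩ := hP
  have hr := hO.hr
  have hδ : 0 ≤ δ := by linarith
  have h1 := H.mono l ∅ ∅ CC (ed I s p.1 ∪ CC) Subset.rfl
    (subset_union_right.trans subset_union_right)
  have h2 := H.chain l ∅ (ed I s p.1) CC
  have h3 := H.played_le hδ e0 l hl p hp ∅
  have h4 := H.cap l (∅ ∪ ed I s p.1) CC
  have h5 : (CC \ (∅ ∪ ed I s p.1)).card ≤ r + 2 := by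
    rw [empty_union, card_CC_sdiff_ed hO]
    have h6 : ∀ g : Gp r P Ln, g ≠ .T → g.k s ≤ r + 1 := by
      intro g hg
      cases g with
      | T => exact absurd rfl hg
      | Q => simp [Gp.k]
      | Y i => simp [Gp.k]
      | U q => simp [Gp.k]
      | En x =>
        show 2 ≤ r + 1
        omega
      | W b =>
        show 2 ≤ r + 1
        omega
      | L e => exact le_rfl
    have := h6 _ hT
    omega
  have h6 : ((CC \ (∅ ∪ ed I s p.1)).card : ℝ) ≤ r + 2 := by exact_mod_cast h5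
  linarith

/-- The unary edge of a point or proxy. -/
def un_UC4 (q : P) : Vx r s P Ln → Ed r P Ln
  | .z x => ⟨.En x, ⟨0, Nat.one_pos⟩⟩
  | .pt p => ⟨.U p, ⟨0, Nat.one_pos⟩⟩
  | _ => ⟨.U q, ⟨0, Nat.one_pos⟩⟩

lemma blk_bd (hO : Ok r s P Ln) (hP : Par δ ε ζ) (H : Calc (ed I s) r δ ε ν)
    (l : List (Ed r P Ln × Finset (Vx r s P Ln))) (hl : Valid (ed I s) r l)
    (hall : ∀ e : Ed r P Ln, ¬ e.1.isQp → e.1 ≠ .T → e ∈ l.map Prod.fst) (e : Ln) :
    ν l (CC ∪ SRC I e) (NN I s (.L e)) ≤ 6 * r * ζ := by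
  obtain ⟨e0, e1, d0, d1, z1⟩ := hP
  have hr := hO.hr
  have hδ : 0 ≤ δ := by linarith
  have hW : ∀ y ∈ (insert (Vx.pt (I.tgt e)) (ZL e) : Finset (Vx r s P Ln)),
      y = Vx.pt (I.tgt e) ∨ ∃ k, y = Vx.z (Sum.inr (e, k)) := fun y hy => by
    rwa [mem_insert, mem_ZL] at hy
  have hc : cg (.L e) l = 2 * r - 2 := (cg_eq_iff (.L e) hl.1).2 fun d hd =>
    hall d (by rw [hd]; exact id) (by rw [hd]; exact fun h => by cases h)
  have hWc : (insert (Vx.pt (I.tgt e)) (ZL e) : Finset (Vx r s P Ln)).card = 3 := by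
    rw [card_insert_of_notMem (by simp), card_ZL]
  have h1 := H.blk hδ (by linarith) e0 (CC ∪ SRC I e) (NN I s (.L e))
    (insert (Vx.pt (I.tgt e)) (ZL e)) (card_NN hO I (.L e))
    (insert_subset_insert _ subset_union_left) (un_UC4 (I.tgt e))
    (fun y hy => by
      rcases hW y hy with rfl | ⟨k, rfl⟩
      · refine ⟨NN_subset_ed I _ (by simp [un_UC4, NN]), (ed_subset I _).trans fun v hv => ?_⟩
        simp only [un_UC4, NN, mem_union, mem_singleton, mem_insert] at hv ⊢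
        tauto
      · refine ⟨NN_subset_ed I _ (by simp [un_UC4, NN]), (ed_subset I _).trans fun v hv => ?_⟩
        simp only [un_UC4, NN, mem_union, mem_singleton, mem_insert] at hv ⊢
        rcases hv with h | h | h
        · exact Or.inr (Or.inl h)
        · exact Or.inr (Or.inr ((mem_SRC I e v).2 ⟨k, h⟩))
        · exact Or.inl h)
    (fun y hy y' hy' h => by
      have h' := congrArg Sigma.fst h
      rcases hW y hy with rfl | ⟨k, rfl⟩ <;> rcases hW y' hy' with rfl | ⟨k', rfl⟩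
      · rfl
      · cases h'
      · cases h'
      · simp only [un_UC4, Gp.En.injEq] at h'
        rw [h'])
    (fun d : Ed r P Ln => d.1 = .L e) (grp_UC4 _ _ subset_union_left)
    (fun y hy h => by rcases hW y hy with rfl | ⟨k, rfl⟩ <;> cases h) l hl
    (fun y hy => by
      rcases hW y hy with rfl | ⟨k, rfl⟩
      · exact hall _ id fun h => by cases h
      · exact hall _ id fun h => by cases h)
    (by
      change 1 ≤ cg (.L e) l
      omega)
  change _ ≤ max 0 ((r : ℝ) - δ * (_ - 1) - δ * cg (.L e) l) + ε * (_ + cg (.L e) l + r) at h1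
  have h2 : ((cg (.L e) l : ℕ) : ℝ) = 2 * r - 2 := by
    rw [hc, Nat.cast_sub (by omega)]
    push_cast
    ring
  rw [hWc, h2] at h1
  have h5 : (2 : ℝ) ≤ r := by exact_mod_cast hr
  have h9 : 0 ≤ r * ζ := mul_nonneg (by linarith) (e0.trans e1)
  have h10 : r * (1 / 2 - ζ) ≤ r * δ := mul_le_mul_of_nonneg_left d0 (by linarith)
  have h11 : max 0 ((r : ℝ) - δ * (((3 : ℕ) : ℝ) - 1) - δ * (2 * r - 2)) ≤ 2 * r * ζ :=
    max_le (by linarith) (by push_cast; linarith)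
  have h12 : ε * (((3 : ℕ) : ℝ) + (2 * r - 2) + r) ≤ ζ * (4 * r) :=
    mul_le_mul e1 (by push_cast; linarith) (by push_cast; linarith) (e0.trans e1)
  linarith

end Pool.Agent.SemiRandom.Und
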