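import Pool.Agent.P.MP_c53d0e_pr.UC4

set_option autoImplicit false
set_option linter.unusedSectionVars false

namespace Pool.Agent.SemiRandom.Und

open Finset

variable {r s : ℕ} {P Ln : Type} [Fintype P] [DecidableEq P] [Fintype Ln] [DecidableEq Ln]
  {I : Inst (r + r) P Ln} {δ ε ζ η : ℝ}
  {ν : List (Ed r P Ln × Finset (Vx r s P Ln)) → Finset (Vx r s P Ln) → Finset (Vx r s P Ln) → ℝ}

lemma one_UC5 (hP : Par δ ε ζ) (H : Calc (ed I s) r δ ε ν)
    (l : List (Ed r P Ln × Finset (Vx r s P Ln))) (hl : Valid (ed I s) r l) (g : Gp r P Ln)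
    (hM : g.M = 1) (hg : ∀ e : Ed r P Ln, e.1 = g → e ∈ l.map Prod.fst)
    (A : Finset (Vx r s P Ln)) (v : Vx r s P Ln) (hv : v ∈ NN I s g)
    (hA : CC ∪ NN I s g ⊆ A ∪ {v}) : ν l A {v} ≤ 1 / 2 + 2 * ζ := by
  have hd0 := hP.d0
  have hd1 := hP.d1
  have hz1 := hP.z1
  have he0 := hP.e0
  have he1 := hP.e1
  have hδ : 0 ≤ δ := by linarith
  have h1 := H.lemU hδ he0 (fun e : Ed r P Ln => e.1 = g) A {v} (by
    intro e he
    refine ⟨?_, ?_⟩
    · intro x hx
      rw [mem_singleton] at hx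
      subst hx
      apply NN_subset_ed I e
      rw [he]; exact hv
    · refine (ed_subset I e).trans ?_
      rw [he]; exact hA) l hl
  have h2 : cn (fun e : Ed r P Ln => e.1 = g) l = 1 := by
    have := (cg_eq_iff g hl.1).2 hg
    rw [hM] at this
    exact this
  rw [h2] at h1
  have h3 : ((({v} : Finset (Vx r s P Ln)) \ A).card : ℝ) ≤ 1 := by
    have : (({v} : Finset (Vx r s P Ln)) \ A).card ≤ 1 :=
      (card_le_card sdiff_subset).trans (card_singleton v).le
    exact_mod_cast this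
  have h4 : max 0 (((({v} : Finset (Vx r s P Ln)) \ A).card : ℝ) - δ * ((1 : ℕ) : ℝ))
      ≤ 1 / 2 + ζ := by
    apply max_le
    · linarith
    · push_cast; linarith
  push_cast at h1 h4
  linarith

lemma cn_or_UC5 {V : Type} [DecidableEq V] (g g' : Gp r P Ln) (h : g ≠ g') (l : List (Ed r P Ln × Finset V)) :
    cn (fun e : Ed r P Ln => e.1 = g ∨ e.1 = g') l = cg g l + cg g' l := by
  induction l with
  | nil => simp [cg]
  | cons p l ih =>
    unfold cg at ih ⊢
    by_cases h1 : p.1.1 = g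
    · have h2 : ¬ p.1.1 = g' := fun h2 => h (h1.symm.trans h2)
      rw [cn_cons_pos (F := fun e : Ed r P Ln => e.1 = g ∨ e.1 = g') l (Or.inl h1),
        cn_cons_pos (F := fun e : Ed r P Ln => e.1 = g) l h1,
        cn_cons_neg (F := fun e : Ed r P Ln => e.1 = g') l h2, ih]
      omega
    · by_cases h2 : p.1.1 = g'
      · rw [cn_cons_pos (F := fun e : Ed r P Ln => e.1 = g ∨ e.1 = g') l (Or.inr h2),
          cn_cons_neg (F := fun e : Ed r P Ln => e.1 = g) l h1,
          cn_cons_pos (F := fun e : Ed r P Ln => e.1 = g') l h2, ih]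
        omega
      · rw [cn_cons_neg (F := fun e : Ed r P Ln => e.1 = g ∨ e.1 = g') l (not_or.2 ⟨h1, h2⟩),
          cn_cons_neg (F := fun e : Ed r P Ln => e.1 = g) l h1,
          cn_cons_neg (F := fun e : Ed r P Ln => e.1 = g') l h2, ih]

lemma two_UC5 (hP : Par δ ε ζ) (H : Calc (ed I s) r δ ε ν)
    (l : List (Ed r P Ln × Finset (Vx r s P Ln))) (hl : Valid (ed I s) r l)
    (hall : ∀ e : Ed r P Ln, ¬ e.1.isQp → e.1 ≠ .T → e ∈ l.map Prod.fst) (b : Fin r)
    (A : Finset (Vx r s P Ln)) (hA : CC ∪ PP ⊆ A) : ν l A {Vx.z (Sum.inl b)} ≤ 4 * ζ := by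
  have hd0 := hP.d0
  have hd1 := hP.d1
  have hz1 := hP.z1
  have he0 := hP.e0
  have he1 := hP.e1
  have hδ : 0 ≤ δ := by linarith
  have h1 := H.lemU hδ he0 (fun e : Ed r P Ln => e.1 = .En (Sum.inl b) ∨ e.1 = .W b) A
    {Vx.z (Sum.inl b)} (by
    intro e he
    refine ⟨?_, (ed_subset I e).trans fun v hv => ?_⟩
    · refine singleton_subset_iff.2 (NN_subset_ed I e ?_)
      rcases he with he | he <;> rw [he] <;> simp [NN]
    · rcases mem_union.1 hv with hv | hv
      · exact mem_union_left _ (hA (mem_union_left _ hv))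
      · rcases he with he | he <;> rw [he] at hv <;>
          simp only [NN, mem_insert, mem_singleton] at hv <;> rcases hv with rfl | rfl <;>
          first
            | exact mem_union_right _ (mem_singleton_self _)
            | exact mem_union_left _ (hA (mem_union_right _ (by simp)))) l hl
  have h2 : cg (.En (Sum.inl b)) l = 1 := (cg_eq_iff (.En (Sum.inl b)) hl.1).2 fun d hd =>
    hall d (by rw [hd]; exact id) (by rw [hd]; exact fun h => by cases h)
  have h2' : cg (.W b) l = 1 := (cg_eq_iff (.W b) hl.1).2 fun d hd =>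
    hall d (by rw [hd]; exact id) (by rw [hd]; exact fun h => by cases h)
  rw [cn_or_UC5 _ _ (fun h => by cases h), h2, h2'] at h1
  have h3 : ((({Vx.z (Sum.inl b)} : Finset (Vx r s P Ln)) \ A).card : ℝ) ≤ 1 := by
    have : (({Vx.z (Sum.inl b)} : Finset (Vx r s P Ln)) \ A).card ≤ 1 :=
      (card_le_card sdiff_subset).trans (card_singleton _).le
    exact_mod_cast this
  have h4 : max 0 (((({Vx.z (Sum.inl b)} : Finset (Vx r s P Ln)) \ A).card : ℝ) -
      δ * ((1 + 1 : ℕ) : ℝ)) ≤ 2 * ζ := by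
    apply max_le
    · linarith
    · push_cast; linarith
  push_cast at h1 h4
  linarith

lemma chain2 (hO : Ok r s P Ln) (hP : Par δ ε ζ) (H : Calc (ed I s) r δ ε ν) (hS : Stat I s η ν)
    (hη0 : 0 ≤ η) (hη1 : η ≤ 4 / 5)
    (l : List (Ed r P Ln × Finset (Vx r s P Ln))) (hl : Valid (ed I s) r l)
    (hall : ∀ e : Ed r P Ln, ¬ e.1.isQp → e.1 ≠ .T → e ∈ l.map Prod.fst) :
    ν l ∅ univ ≤ ν l ∅ (CC ∪ YY) + r - η / 2 + (8 * r + 12 * r * Fintype.card Ln) * ζ := by
  have hz0 : 0 ≤ ζ := hP.e0.trans hP.e1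
  have hr0 : (0 : ℝ) ≤ r := Nat.cast_nonneg r
  set A0 : Finset (Vx r s P Ln) := CC ∪ YY with hA0
  set BL : Finset (Vx r s P Ln) := (univ : Finset Ln).biUnion fun e => NN I s (.L e) with hBL
  have hcov : (univ : Finset (Vx r s P Ln)) ⊆ ∅ ∪ (((A0 ∪ PP) ∪ ZB) ∪ BL) := by
    intro v _
    cases v with
    | c j => simp [hA0]
    | y i => simp [hA0]
    | pt p => simp [hA0]
    | z x =>
      rcases x with b | ⟨e, k⟩
      · simp [hA0]
      · refine mem_union_right _ (mem_union_right _ ?_)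
        exact mem_biUnion.2 ⟨e, mem_univ _, by simp [NN]⟩
    | tk e k =>
      refine mem_union_right _ (mem_union_right _ ?_)
      exact mem_biUnion.2 ⟨e, mem_univ _, by simp [NN]⟩
  have c0 := H.mono l ∅ ∅ univ _ subset_rfl hcov
  have c1 := H.chain l ∅ ((A0 ∪ PP) ∪ ZB) BL
  have c2 := H.chain l ∅ (A0 ∪ PP) ZB
  have c3 := H.chain l ∅ A0 PP
  have hU : ∀ p, ν l CC {Vx.pt p} ≤ 1 / 2 + 2 * ζ := by
    intro p
    refine one_UC5 hP H l hl (.U p) rfl ?_ CC _ (by simp [NN]) (by simp [NN])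
    intro e he
    apply hall e
    · rw [he]; exact fun h => h
    · rw [he]; exact fun h => by cases h
  have hblk := blk_bd hO hP H l hl hall
  have hL : ∀ e, ν l (CC ∪ SRC I e) {Vx.pt (I.tgt e)} ≤ 6 * r * ζ := by
    intro e
    refine le_trans (H.mono l _ _ _ _ subset_rfl ?_) (hblk e)
    intro v hv
    rw [mem_singleton] at hv
    subst hv
    exact mem_union_right _ (by simp [NN])
  have d3 : ν l (∅ ∪ A0) PP ≤ Fintype.card Ln * (6 * r * ζ) + (2 * r - η) * (1 / 2 + 2 * ζ) := by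
    refine le_trans (H.mono l _ CC _ PP ?_ subset_union_right) ?_
    · intro v hv
      exact mem_union_right _ (mem_union_left _ hv)
    · exact hS l CC _ _ (by linarith) (by positivity) hU hL
  have d2 : ν l (∅ ∪ (A0 ∪ PP)) ZB ≤ r * (4 * ζ) := by
    refine le_trans (H.sub_le l _ _) ?_
    have : ∀ v ∈ (ZB : Finset (Vx r s P Ln)), ν l (∅ ∪ (A0 ∪ PP)) {v} ≤ 4 * ζ := by
      intro v hv
      obtain ⟨b, rfl⟩ := (mem_ZB v).1 hv
      refine two_UC5 hP H l hl hall b _ ?_
      rw [empty_union]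
      exact union_subset_union subset_union_left subset_rfl
    refine le_trans (sum_le_card_nsmul _ _ _ this) ?_
    rw [card_ZB, nsmul_eq_mul]
  have d1 : ν l (∅ ∪ ((A0 ∪ PP) ∪ ZB)) BL ≤ Fintype.card Ln * (6 * r * ζ) := by
    refine le_trans (H.subadd univ l _ _) ?_
    have : ∀ e ∈ (univ : Finset Ln),
        ν l (∅ ∪ ((A0 ∪ PP) ∪ ZB)) (NN I s (.L e)) ≤ 6 * r * ζ := by
      intro e _
      refine le_trans (H.mono l _ _ _ _ ?_ subset_union_right) (hblk e)
      intro v hv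
      rcases mem_union.1 hv with hv | hv
      · exact mem_union_right _ (mem_union_left _ (mem_union_left _ (mem_union_left _ hv)))
      · obtain ⟨k, rfl⟩ := (mem_SRC I e v).1 hv
        exact mem_union_right _ (mem_union_left _ (mem_union_right _ (by simp)))
    refine le_trans (sum_le_card_nsmul _ _ _ this) ?_
    rw [card_univ, nsmul_eq_mul]
  have hηζ : 0 ≤ η * ζ := mul_nonneg hη0 hz0
  nlinarith

lemma exists_cut {X : Type} (p : List X → Prop) (ps : List X) (h0 : ¬ p []) (h1 : p ps) :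
    ∃ qs x l, ps = qs ++ x :: l ∧ p (x :: l) ∧ ¬ p l := by
  induction ps with
  | nil => exact absurd h1 h0
  | cons x l ih =>
    by_cases h : p l
    · obtain ⟨qs, y, l', e, h2, h3⟩ := ih h
      exact ⟨x :: qs, y, l', by rw [e]; rfl, h2, h3⟩
    · exact ⟨[], x, l, rfl, h1, h⟩

end Pool.Agent.SemiRandom.Und
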