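import Pool.Agent.P.MP_c53d0e_pr.UC3
import Pool.Agent.P.MP_c53d0e_pr.UC5

set_option autoImplicit false
set_option linter.unusedSectionVars false

namespace Pool.Agent.SemiRandom.Und

open Finset

variable {r s : ℕ} {P Ln : Type} [Fintype P] [DecidableEq P] [Fintype Ln] [DecidableEq Ln]
  {I : Inst (r + r) P Ln} {δ ε ζ η : ℝ}
  {ν : List (Ed r P Ln × Finset (Vx r s P Ln)) → Finset (Vx r s P Ln) → Finset (Vx r s P Ln) → ℝ}

lemma len_UC6 (hr : 2 ≤ r) {qs l : List (Ed r P Ln × Finset (Vx r s P Ln))}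
    (hl : ((qs ++ l).map Prod.fst).Nodup) (hall : ∀ e, e ∈ (qs ++ l).map Prod.fst) :
    (qs.length : ℝ) = (6 * r + 2 - cq l) + ∑ p, ((1 : ℝ) - cg (.U p) l) +
      ∑ x, ((1 : ℝ) - cg (.En x) l) + ∑ b, ((1 : ℝ) - cg (.W b) l) +
      ∑ e, ((2 * r - 2 : ℝ) - cg (.L e) l) + (2 * r - cg .T l) := by
  have h4 : ((2 * r - 2 : ℕ) : ℝ) = 2 * r - 2 := by
    rw [Nat.cast_sub (by omega)]; push_cast; ring
  rw [length_left hl hall, sum_Gp, cq_eq]
  simp only [Gp.M, h4, sum_sub_distrib]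
  simp only [sum_const, card_univ, Fintype.card_fin, nsmul_eq_mul]
  push_cast
  ring

lemma one_sub_UC6 (g : Gp r P Ln) (hg : g.M = 1) {l : List (Ed r P Ln × Finset (Vx r s P Ln))}
    (hl : (l.map Prod.fst).Nodup) : (0 : ℝ) ≤ 1 - cg g l := by
  have h := cg_le g hl
  rw [hg] at h
  have : (cg g l : ℝ) ≤ 1 := by exact_mod_cast h
  linarith

lemma miss_UC6 {l : List (Ed r P Ln × Finset (Vx r s P Ln))}
    (hl : (l.map Prod.fst).Nodup) (e : Ed r P Ln) (he : e ∉ l.map Prod.fst) :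
    cg e.1 l < e.1.M :=
  lt_of_le_of_ne (cg_le _ hl) fun h => he ((cg_eq_iff _ hl).1 h e rfl)

lemma line_sub_UC6 (hr : 2 ≤ r) (e : Ln) {l : List (Ed r P Ln × Finset (Vx r s P Ln))}
    (hl : (l.map Prod.fst).Nodup) : (0 : ℝ) ≤ (2 * r - 2 : ℝ) - cg (.L e) l := by
  have h := cg_le (.L e) hl
  have h' : cg (.L e) l + 2 ≤ 2 * r := by simp only [Gp.M] at h; omega
  have h'' : (cg (.L e) l : ℝ) + 2 ≤ 2 * r := by exact_mod_cast h'
  linarith

theorem claim (hO : Ok r s P Ln) (hP : Par δ ε ζ)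
    (H : Calc (ed I s) r δ ε ν) (hS : Stat I s η ν) (hη0 : 0 ≤ η) (hη1 : η ≤ 4 / 5)
    (ps : List (Ed r P Ln × Finset (Vx r s P Ln))) (hv : Valid (ed I s) r ps)
    (hall : ∀ e, e ∈ ps.map Prod.fst) :
    ∃ qs l, ps = qs ++ l ∧
      ν l ∅ univ ≤ δ * qs.length - η / 2 + 30 * r * (Fintype.card Ln + 1) * ζ := by
  have hr := hO.hr
  have hrR : (2 : ℝ) ≤ r := by exact_mod_cast hr
  have hz : 0 ≤ ζ := hP.e0.trans hP.e1
  have hd : 9 / 20 ≤ δ := by linarith [hP.d0, hP.z1]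
  have hd0 : 0 ≤ δ := by linarith
  have hnl : (0 : ℝ) ≤ Fintype.card Ln := Nat.cast_nonneg _
  have hrz : 0 ≤ (r : ℝ) * ζ := mul_nonneg (by linarith) hz
  have hzr : ζ ≤ (r : ℝ) * ζ := by nlinarith
  have hnz : 0 ≤ (Fintype.card Ln : ℝ) * (r * ζ) := mul_nonneg hnl hrz
  have hex : ∀ e, ∃ q ∈ ps, q.1 = e := fun e => List.mem_map.1 (hall e)
  obtain ⟨qs, x, l, rfl, ⟨hT, hN⟩, hnp⟩ := exists_cut
    (fun l : List (Ed r P Ln × Finset (Vx r s P Ln)) =>
      (∃ q ∈ l, q.1.1 = .T) ∧ ∃ q ∈ l, q.1.1 ≠ .T) ps (by simp) (by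
      obtain ⟨q, hq, h⟩ := hex ⟨.T, ⟨0, by simp only [Gp.M]; omega⟩⟩
      obtain ⟨q', hq', h'⟩ := hex ⟨.Q, ⟨0, by simp only [Gp.M]; omega⟩⟩
      exact ⟨⟨q, hq, by rw [h]⟩, ⟨q', hq', by rw [h']; simp⟩⟩)
  have hvL : Valid (ed I s) r (x :: l) := hv.right
  have hT1 : 1 ≤ cg .T (x :: l) := one_le_cn.2 hT
  have hlen := len_UC6 hr hv.1 hall
  have hU : ∀ p ∈ (univ : Finset P), (0 : ℝ) ≤ 1 - cg (.U p) (x :: l) :=
    fun p _ => one_sub_UC6 _ rfl hvL.1
  have hE : ∀ y ∈ (univ : Finset (Px r Ln)), (0 : ℝ) ≤ 1 - cg (.En y) (x :: l) :=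
    fun p _ => one_sub_UC6 _ rfl hvL.1
  have hW : ∀ y ∈ (univ : Finset (Fin r)), (0 : ℝ) ≤ 1 - cg (.W y) (x :: l) :=
    fun p _ => one_sub_UC6 _ rfl hvL.1
  have hI : ∀ e ∈ (univ : Finset Ln), (0 : ℝ) ≤ (2 * r - 2 : ℝ) - cg (.L e) (x :: l) :=
    fun e _ => line_sub_UC6 hr e hvL.1
  have hSU := mul_nonneg hd0 (sum_nonneg hU)
  have hSE := mul_nonneg hd0 (sum_nonneg hE)
  have hSW := mul_nonneg hd0 (sum_nonneg hW)
  have hSI := mul_nonneg hd0 (sum_nonneg hI)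
  have htest := test_bd hP H _ hvL hT1
  rcases Nat.eq_zero_or_pos (cq (x :: l)) with h0 | h1
  · refine ⟨qs, x :: l, rfl, ?_⟩
    obtain ⟨q, hq, hqT⟩ := hN
    have hc := const_bd hO hP H _ hvL q hq hqT
    have hch := chain1 H (x :: l) CC subset_rfl
    have hb : (3 * r + 1 - 6 * (r * ζ) - 2 * ζ : ℝ) ≤ δ * (6 * r + 2) := by nlinarith [hP.d0]
    rw [hlen, h0]
    push_cast
    nlinarith
  have hQ := lemQ hO hP H _ hvL h1
  by_cases hfull : ∀ e : Ed r P Ln, ¬ e.1.isQp → e.1 ≠ .T → e ∈ (x :: l).map Prod.fst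
  · have hl1 : ∃ q ∈ l, q.1.1 ≠ .T := by
      obtain ⟨q1, hq1, hq1'⟩ := one_le_cn.1 h1
      obtain ⟨q2, hq2, hq2'⟩ := List.mem_map.1
        (hfull ⟨.U (I.bas ⟨0, by omega⟩), ⟨0, by simp [Gp.M]⟩⟩ (by simp [Gp.isQp]) (by simp))
      rcases List.mem_cons.1 hq1 with h | h
      · rcases List.mem_cons.1 hq2 with h' | h'
        · rw [h, ← h', hq2'] at hq1'
          simp [Gp.isQp] at hq1'
        · exact ⟨q2, h', by rw [hq2']; simp⟩
      · refine ⟨q1, h, fun hh => ?_⟩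
        rw [hh] at hq1'
        simp [Gp.isQp] at hq1'
    have hl2 : ¬ ∃ q ∈ l, q.1.1 = .T := fun h => hnp ⟨h, hl1⟩
    have hx : x.1.1 = .T := by
      obtain ⟨q, hq, hqT⟩ := hT
      rcases List.mem_cons.1 hq with h | h
      · rw [← h]; exact hqT
      · exact absurd ⟨q, h, hqT⟩ hl2
    have hvl : Valid (ed I s) r l := hvL.tail
    have hcq : cq (x :: l) = cq l := cn_cons_neg l (by rw [hx]; simp [Gp.isQp])
    have hcT : cg .T l = 0 := by
      by_contra h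
      exact hl2 (one_le_cn.1 (Nat.one_le_iff_ne_zero.2 h))
    have hfull' : ∀ e : Ed r P Ln, ¬ e.1.isQp → e.1 ≠ .T → e ∈ l.map Prod.fst := fun e h h' => by
      have := hfull e h h'
      rw [List.map_cons] at this
      rcases List.mem_cons.1 this with h2 | h2
      · exact absurd (by rw [h2]; exact hx) h'
      · exact h2
    have happ : qs ++ x :: l = (qs ++ [x]) ++ l := by simp
    refine ⟨qs ++ [x], l, happ, ?_⟩
    have hlen' := len_UC6 (qs := qs ++ [x]) (l := l) hr (happ ▸ hv.1) (happ ▸ hall)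
    have hQ' := lemQ hO hP H l hvl (hcq ▸ h1)
    have hch := chain2 hO hP H hS hη0 hη1 l hvl hfull'
    have hSU' := mul_nonneg hd0 (sum_nonneg fun p (_ : p ∈ (univ : Finset P)) =>
      one_sub_UC6 (.U p) rfl hvl.1)
    have hSE' := mul_nonneg hd0 (sum_nonneg fun p (_ : p ∈ (univ : Finset (Px r Ln))) =>
      one_sub_UC6 (.En p) rfl hvl.1)
    have hSW' := mul_nonneg hd0 (sum_nonneg fun p (_ : p ∈ (univ : Finset (Fin r))) =>
      one_sub_UC6 (.W p : Gp r P Ln) rfl hvl.1)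
    have hSL' := mul_nonneg hd0 (sum_nonneg fun e (_ : e ∈ (univ : Finset Ln)) =>
      line_sub_UC6 hr e hvl.1)
    have hb : (r : ℝ) - 2 * (r * ζ) ≤ δ * (2 * r) := by nlinarith [hP.d0]
    rw [hlen', hcT]
    push_cast
    nlinarith
  · refine ⟨qs, x :: l, rfl, ?_⟩
    have hch := chain1 H (x :: l) (CC ∪ YY) subset_union_left
    have hsl : 2 / 5 ≤ δ * ∑ p, ((1 : ℝ) - cg (.U p) (x :: l)) +
        δ * ∑ y, ((1 : ℝ) - cg (.En y) (x :: l)) + δ * ∑ y, ((1 : ℝ) - cg (.W y) (x :: l)) +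
        δ * ∑ e : Ln, ((2 * r - 2 : ℝ) - cg (.L e) (x :: l)) := by
      push Not at hfull
      obtain ⟨⟨g, j⟩, h2, h3, h4⟩ := hfull
      have hm := miss_UC6 hvL.1 _ h4
      cases g with
      | Q => exact absurd trivial h2
      | Y i => exact absurd trivial h2
      | T => exact absurd rfl h3
      | U p =>
        have h5 : cg (.U p) (x :: l) = 0 := by simp only [Gp.M] at hm; omega
        have h6 := single_le_sum hU (mem_univ p)
        rw [h5] at h6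
        have h7 := mul_le_mul_of_nonneg_left h6 hd0
        push_cast at h7
        linarith
      | En y =>
        have h5 : cg (.En y) (x :: l) = 0 := by simp only [Gp.M] at hm; omega
        have h6 := single_le_sum hE (mem_univ y)
        rw [h5] at h6
        have h7 := mul_le_mul_of_nonneg_left h6 hd0
        push_cast at h7
        linarith
      | W y =>
        have h5 : cg (.W y) (x :: l) = 0 := by simp only [Gp.M] at hm; omega
        have h6 := single_le_sum hW (mem_univ y)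
        rw [h5] at h6
        have h7 := mul_le_mul_of_nonneg_left h6 hd0
        push_cast at h7
        linarith
      | L e =>
        have h6 := single_le_sum hI (mem_univ e)
        have h5 : cg (.L e) (x :: l) + 3 ≤ 2 * r := by simp only [Gp.M] at hm; omega
        have h5' : (cg (.L e) (x :: l) : ℝ) + 3 ≤ 2 * r := by exact_mod_cast h5
        have h7 := mul_le_mul_of_nonneg_left (le_trans (by linarith : (1 : ℝ) ≤ _) h6) hd0
        linarith
    rw [hlen]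
    nlinarith

end Pool.Agent.SemiRandom.Und
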