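import Pool.Agent.P.MP_c53d0e_pr.UC0

set_option autoImplicit false
set_option linter.unusedSectionVars false

namespace Pool.Agent.SemiRandom.Und

open Finset

section cnt
variable {V W : Type} [Fintype V] [DecidableEq V] [Fintype W] [DecidableEq W]

/-- Restriction of a map to `B`. -/
def res (B : Finset V) (φ : V → W) : V → Option W := fun v => if v ∈ B then some (φ v) else none

lemma res_eq_iff {B : Finset V} {φ ψ : V → W} : res B φ = res B ψ ↔ ∀ v ∈ B, φ v = ψ v := by
  simp only [funext_iff, res]
  refine forall_congr' fun v => ?_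
  by_cases h : v ∈ B <;> simp [h]

/-- Members of `X` that agree with `ρ` on `A`. -/
def fib (X : Finset (V → W)) (A : Finset V) (ρ : V → W) : Finset (V → W) :=
  X.filter fun φ => ∀ v ∈ A, φ v = ρ v

lemma mem_fib {X : Finset (V → W)} {A : Finset V} {ρ φ : V → W} :
    φ ∈ fib X A ρ ↔ φ ∈ X ∧ ∀ v ∈ A, φ v = ρ v := mem_filter

/-- Largest number of values on `B` given the values on `A` (at least one). -/
def cnt (X : Finset (V → W)) (A B : Finset V) : ℕ :=
  max 1 (univ.sup fun ρ => ((fib X A ρ).image (res B)).card)

lemma one_le_cnt (X : Finset (V → W)) (A B : Finset V) : 1 ≤ cnt X A B := le_max_left _ _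

lemma le_cnt (X : Finset (V → W)) (A B : Finset V) (ρ : V → W) :
    ((fib X A ρ).image (res B)).card ≤ cnt X A B :=
  le_trans (le_sup (f := fun ρ => ((fib X A ρ).image (res B)).card) (mem_univ ρ)) (le_max_right _ _)

lemma cnt_le {X : Finset (V → W)} {A B : Finset V} {m : ℕ} (h1 : 1 ≤ m)
    (h : ∀ ρ, ((fib X A ρ).image (res B)).card ≤ m) : cnt X A B ≤ m :=
  max_le h1 (Finset.sup_le fun ρ _ => h ρ)

lemma cnt_cases (X : Finset (V → W)) (A B : Finset V) :
    cnt X A B = 1 ∨ ∃ ρ, cnt X A B = ((fib X A ρ).image (res B)).card := by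
  by_cases h : (univ.sup fun ρ => ((fib X A ρ).image (res B)).card) ≤ 1
  · exact Or.inl (max_eq_left h)
  · have hne : (univ : Finset (V → W)).Nonempty := by
      rw [nonempty_iff_ne_empty]
      intro e
      rw [e] at h
      simp at h
    obtain ⟨ρ, -, hρ⟩ := exists_mem_eq_sup univ hne fun ρ => ((fib X A ρ).image (res B)).card
    exact Or.inr ⟨ρ, (max_eq_right (not_le.1 h).le).trans hρ⟩

end cnt

section emb
variable {V E : Type} [Fintype V] [DecidableEq V] {n r s : ℕ}

/-- Round `x` realises the edge `p.1` with random part `p.2` under `φ`. -/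
def Mt (ed : E → Finset V) (p : E × Finset V) (φ : V → Fin n) (x : RSet n r × Move n r s) : Prop :=
  x.1.1 = p.2.image φ ∧ edge x = ((ed p.1).image φ).val

/-- The pattern (latest edge first) is realised in the history, in this order. -/
def Emb (ed : E → Finset V) :
    List (E × Finset V) → (V → Fin n) → List (RSet n r × Move n r s) → Prop
  | [], _, _ => True
  | p :: l, φ, h => ∃ h1 x h2, h = h1 ++ x :: h2 ∧ Emb ed l φ h1 ∧ Mt ed p φ x

open Classical in
noncomputable def XX (ed : E → Finset V) (l : List (E × Finset V))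
    (h : List (RSet n r × Move n r s)) : Finset (V → Fin n) := univ.filter fun φ => Emb ed l φ h

lemma mem_XX {ed : E → Finset V} {l : List (E × Finset V)} {h : List (RSet n r × Move n r s)}
    {φ : V → Fin n} : φ ∈ XX ed l h ↔ Emb ed l φ h := by simp [XX]

noncomputable def nu (ed : E → Finset V) (h : List (RSet n r × Move n r s))
    (l : List (E × Finset V)) (A B : Finset V) : ℝ :=
  Real.log (cnt (XX ed l h) A B) / Real.log n

/-- The probabilistic rule. -/
def RuleS (ed : E → Finset V) (L p : ℝ) (h : List (RSet n r × Move n r s)) : Prop :=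
  ∀ (q : E × Finset V) (l : List (E × Finset V)) (A B : Finset V), Valid ed r (q :: l) →
    (cnt (XX ed (q :: l) h) A (B ∪ ed q.1) : ℝ) ≤ L * (s : ℝ) ^ s *
      max (p * cnt (XX ed l h) A (B ∪ q.2)) (cnt (XX ed l h) (A ∪ ed q.1) B)

end emb

section acc
variable {X : Type}

/-- Accumulated increments along a history. -/
noncomputable def Acc (inc : List X → X → ℝ) (h : List X) : ℝ :=
  ∑ t ∈ range h.length, (h[t]?).elim 0 (inc (h.take t))

@[simp] lemma Acc_nil (inc : List X → X → ℝ) : Acc inc [] = 0 := by simp [Acc]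

lemma Acc_snoc (inc : List X → X → ℝ) (h : List X) (x : X) :
    Acc inc (h ++ [x]) = Acc inc h + inc h x := by
  simp only [Acc, List.length_append, List.length_singleton, sum_range_succ]
  congr 1
  · refine sum_congr rfl fun t ht => ?_
    have ht' := mem_range.1 ht
    rw [List.getElem?_append_left ht', List.take_append_of_le_length ht'.le]
  · simp

end acc

end Pool.Agent.SemiRandom.Und
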