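import Pool.Agent.P.MP_c53d0e_pr.UD0

set_option autoImplicit false
set_option linter.unusedSectionVars false

namespace Pool.Agent.SemiRandom.Und

open Finset

variable {V E : Type} [Fintype V] [DecidableEq V] {n r s : ℕ} {ed : E → Finset V}

lemma Emb.append {l : List (E × Finset V)} {φ : V → Fin n} {h : List (RSet n r × Move n r s)}
    (H : Emb ed l φ h) (h' : List (RSet n r × Move n r s)) : Emb ed l φ (h ++ h') := by
  cases l with
  | nil => trivial
  | cons p l =>
    obtain ⟨h1, x, h2, rfl, h3, h4⟩ := H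
    exact ⟨h1, x, h2 ++ h', by simp, h3, h4⟩

lemma Emb.tail {p : E × Finset V} {l : List (E × Finset V)} {φ : V → Fin n}
    {h : List (RSet n r × Move n r s)} (H : Emb ed (p :: l) φ h) : Emb ed l φ h := by
  obtain ⟨h1, x, h2, rfl, h3, -⟩ := H
  exact h3.append _

lemma Emb.snoc {p : E × Finset V} {l : List (E × Finset V)} {φ : V → Fin n}
    {h : List (RSet n r × Move n r s)} {x : RSet n r × Move n r s}
    (H : Emb ed (p :: l) φ (h ++ [x])) : Emb ed (p :: l) φ h ∨ (Emb ed l φ h ∧ Mt ed p φ x) := by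
  obtain ⟨h1, y, h2, e, h3, h4⟩ := H
  rcases List.eq_nil_or_concat h2 with rfl | ⟨h2, z, rfl⟩
  · obtain ⟨rfl, e2⟩ := List.append_inj' e rfl
    obtain rfl : x = y := List.singleton_inj.1 e2
    exact Or.inr ⟨h3, h4⟩
  · rw [List.concat_eq_append, ← List.cons_append, ← List.append_assoc] at e
    exact Or.inl ⟨h1, y, h2, (List.append_inj' e rfl).1, h3, h4⟩

lemma XX_append (l : List (E × Finset V)) (h h' : List (RSet n r × Move n r s)) :
    XX ed l h ⊆ XX ed l (h ++ h') := fun _ hφ =>
  mem_XX.2 ((mem_XX.1 hφ).append h')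

lemma XX_cons (p : E × Finset V) (l : List (E × Finset V)) (h : List (RSet n r × Move n r s)) :
    XX ed (p :: l) h ⊆ XX ed l h := fun _ hφ => mem_XX.2 (mem_XX.1 hφ).tail

lemma extract_UD2 [DecidableEq E] (hinj : Function.Injective ed) {φ : V → Fin n}
    (hφ : Function.Injective φ) (h : List (RSet n r × Move n r s)) :
    ∀ F : Finset E, (∀ e ∈ F, ∃ x ∈ h, edge x = ((ed e).image φ).val) →
      ∃ ps : List (E × Finset V), Valid ed r ps ∧ (∀ e, e ∈ ps.map Prod.fst ↔ e ∈ F) ∧
        Emb ed ps φ h := by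
  induction h using List.reverseRecOn with
  | nil =>
    intro F hF
    refine ⟨[], ⟨List.nodup_nil, fun _ hp => absurd hp List.not_mem_nil⟩, fun e => ?_, trivial⟩
    refine iff_of_false List.not_mem_nil fun he => ?_
    obtain ⟨x, hx, -⟩ := hF e he
    exact List.not_mem_nil hx
  | append_singleton h x ih =>
    intro F hF
    by_cases hx : ∃ e ∈ F, edge x = ((ed e).image φ).val
    · obtain ⟨e, he, hx⟩ := hx
      obtain ⟨ps, h1, h2, h3⟩ := ih (F.erase e) fun e' he' => by
        obtain ⟨y, hy, h4⟩ := hF e' (mem_of_mem_erase he')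
        rcases List.mem_append.1 hy with h5 | h5
        · exact ⟨y, h5, h4⟩
        · rw [List.mem_singleton.1 h5, hx] at h4
          exact absurd (hinj (image_injective hφ (val_injective h4))).symm (ne_of_mem_erase he')
      have hu : x.1.1 = ((ed e).filter fun v => φ v ∈ x.1.1).image φ := by
        ext y
        simp only [mem_image, mem_filter]
        constructor
        · intro hy
          have h4 : y ∈ edge x := Multiset.mem_add.2 (Or.inl hy)
          rw [hx] at h4
          obtain ⟨v, hv, rfl⟩ := mem_image.1 h4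
          exact ⟨v, ⟨hv, hy⟩, rfl⟩
        · rintro ⟨v, ⟨-, hv⟩, rfl⟩
          exact hv
      refine ⟨(e, (ed e).filter fun v => φ v ∈ x.1.1) :: ps,
        ⟨List.nodup_cons.2 ⟨fun h4 => notMem_erase e F ((h2 e).1 h4), h1.1⟩, fun p hp => ?_⟩,
        fun e' => ?_, h, x, [], rfl, h3, hu, hx⟩
      · rcases List.mem_cons.1 hp with rfl | hp
        · refine ⟨filter_subset _ _, ?_⟩
          rw [← card_image_of_injective _ hφ, ← hu]
          exact x.1.2
        · exact h1.2 p hp
      · rw [List.map_cons, List.mem_cons, h2, mem_erase]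
        by_cases h4 : e' = e
        · simp [h4, he]
        · simp [h4]
    · obtain ⟨ps, h1, h2, h3⟩ := ih F fun e he => by
        obtain ⟨y, hy, h4⟩ := hF e he
        rcases List.mem_append.1 hy with h5 | h5
        · exact ⟨y, h5, h4⟩
        · exact absurd ⟨e, he, List.mem_singleton.1 h5 ▸ h4⟩ hx
      exact ⟨ps, h1, h2, h3.append _⟩

lemma extract [Fintype E] [DecidableEq E] (hinj : Function.Injective ed)
    {h : List (RSet n r × Move n r s)} (hC : ContainsV ed h) :
    ∃ (ps : List (E × Finset V)) (φ : V → Fin n),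
      Valid ed r ps ∧ (∀ e, e ∈ ps.map Prod.fst) ∧ Emb ed ps φ h := by
  obtain ⟨φ, hφ⟩ := hC
  obtain ⟨ps, h1, h2, h3⟩ := extract_UD2 hinj φ.injective h univ fun e _ => by
    simpa only [map_eq_image] using hφ e
  exact ⟨ps, φ, h1, fun e => (h2 e).2 (mem_univ e), h3⟩

lemma Emb.split {qs l : List (E × Finset V)} {φ : V → Fin n} {h : List (RSet n r × Move n r s)}
    (H : Emb ed (qs ++ l) φ h) : ∃ h1 h2, h = h1 ++ h2 ∧ Emb ed l φ h1 ∧
      ((qs.map fun p => p.2.image φ : List (Finset (Fin n))) : Multiset (Finset (Fin n))) ≤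
        draws Subtype.val h2 := by
  induction qs generalizing h with
  | nil => exact ⟨h, [], by simp, H, by simp⟩
  | cons q qs ih =>
    obtain ⟨h1, x, h2, rfl, h3, h4⟩ := H
    obtain ⟨k1, k2, rfl, h5, h6⟩ := ih h3
    refine ⟨k1, k2 ++ x :: h2, by simp, h5, ?_⟩
    have e : draws Subtype.val (k2 ++ x :: h2) =
        x.1.1 ::ₘ (draws Subtype.val k2 + draws Subtype.val h2) := by
      simp only [draws, List.map_append, List.map_cons, Multiset.coe_add, Multiset.cons_coe]
      exact Multiset.coe_eq_coe.2 List.perm_middle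
    rw [e, List.map_cons, ← Multiset.cons_coe, h4.1]
    exact Multiset.cons_le_cons _ (h6.trans (Multiset.le_add_right _ _))

/-- There are finitely many patterns. -/
lemma exists_patterns [Fintype E] [DecidableEq E] (ed : E → Finset V) (r : ℕ) :
    ∃ F : Finset (List (E × Finset V)), ∀ l, Valid ed r l → l ∈ F := by
  refine ⟨(List.finite_length_le (E × Finset V) (Fintype.card E)).toFinset, fun l hl => ?_⟩
  rw [Set.Finite.mem_toFinset, Set.mem_ofPred_eq]
  simpa only [List.length_map] using hl.1.length_le_card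

end Pool.Agent.SemiRandom.Und
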