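import Pool.Agent.P.MP_c53d0e_pr.UD1
import Pool.Agent.P.MP_c53d0e_pr.UD2
import Pool.Agent.P.MP_c53d0e_pr.UD3

set_option autoImplicit false
set_option linter.unusedSectionVars false

namespace Pool.Agent.SemiRandom.Und

open Finset

variable {V E : Type} [Fintype V] [DecidableEq V] {n r s : ℕ} {ed : E → Finset V}

open Classical in
/-- Maps of the fibre that realise `q` in round `x`. -/
noncomputable def hit_UD4 (ed : E → Finset V) (q : E × Finset V) (X : Finset (V → Fin n))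
    (x : RSet n r × Move n r s) : Finset (V → Fin n) := X.filter fun φ => Mt ed q φ x

lemma mem_hit_UD4 {q : E × Finset V} {X : Finset (V → Fin n)} {x : RSet n r × Move n r s}
    {φ : V → Fin n} : φ ∈ hit_UD4 ed q X x ↔ φ ∈ X ∧ Mt ed q φ x := by
  simp [hit_UD4]

lemma edge_le_UD4 (hrs : r ≤ s) (hcard : ∀ e, (ed e).card = s) (q : E × Finset V)
    (x : RSet n r × Move n r s) (Y : Finset (V → Fin n)) (hY : ∀ φ ∈ Y, Mt ed q φ x) :
    (Y.image (res (ed q.1))).card ≤ s ^ s := by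
  have h1 := image_res_le_pow Y (ed q.1) (edge x).toFinset (fun φ hφ v hv => by
    rw [Multiset.mem_toFinset, (hY φ hφ).2]
    exact mem_image_of_mem φ hv)
  rw [hcard] at h1
  refine h1.trans (Nat.pow_le_pow_left ?_ s)
  exact (Multiset.toFinset_card_le _).trans (card_edge hrs x).le

lemma hit_le_W_UD4 (hrs : r ≤ s) (hcard : ∀ e, (ed e).card = s) (q : E × Finset V)
    (x : RSet n r × Move n r s) (X : Finset (V → Fin n)) (A B : Finset V) (ρ : V → Fin n) :
    ((hit_UD4 ed q (fib X A ρ) x).image (res (B ∪ ed q.1))).card ≤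
      s ^ s * cnt X (A ∪ ed q.1) B := by
  rw [union_comm B]
  refine (image_res_union_le _ (ed q.1) B (cnt X (A ∪ ed q.1) B) fun φ hφ => ?_).trans
    (Nat.mul_le_mul_right _ (edge_le_UD4 hrs hcard q x _ fun φ hφ => (mem_hit_UD4.1 hφ).2))
  refine le_trans (card_le_card (image_subset_image ?_)) (le_cnt X (A ∪ ed q.1) B φ)
  intro ψ hψ
  obtain ⟨hψ1, hψ2⟩ := mem_fib.1 hψ
  obtain ⟨hψ3, hψ4⟩ := mem_fib.1 (mem_hit_UD4.1 hψ1).1
  obtain ⟨-, hφ4⟩ := mem_fib.1 (mem_hit_UD4.1 hφ).1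
  refine mem_fib.2 ⟨hψ3, fun v hv => ?_⟩
  rcases mem_union.1 hv with hv | hv
  · rw [hψ4 v hv, hφ4 v hv]
  · exact hψ2 v hv

lemma hit_le_Y_UD4 (hrs : r ≤ s) (hcard : ∀ e, (ed e).card = s) (q : E × Finset V)
    (hq : q.2 ⊆ ed q.1) (x : RSet n r × Move n r s) (Z : Finset (V → Fin n)) (B : Finset V) :
    ((hit_UD4 ed q Z x).image (res (B ∪ ed q.1))).card ≤
      s ^ s * ((Z.filter fun φ => q.2.image φ = x.1.1).image (res (B ∪ q.2))).card := by
  have e : B ∪ ed q.1 = (B ∪ q.2) ∪ ed q.1 := by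
    rw [union_assoc, union_eq_right.2 hq]
  rw [e, mul_comm]
  refine (image_res_union_le _ (B ∪ q.2) (ed q.1) (s ^ s) fun φ _ => ?_).trans
    (Nat.mul_le_mul_right _ (card_le_card (image_subset_image ?_)))
  · exact edge_le_UD4 hrs hcard q x _ fun ψ hψ => (mem_hit_UD4.1 (mem_fib.1 hψ).1).2
  · intro ψ hψ
    exact mem_filter.2 ⟨(mem_hit_UD4.1 hψ).1, (mem_hit_UD4.1 hψ).2.1.symm⟩

lemma sum_Y_UD4 (Z : Finset (V → Fin n)) (B C : Finset V) :
    ∑ U : RSet n r, ((Z.filter fun φ => C.image φ = U.1).image (res (B ∪ C))).card ≤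
      (Z.image (res (B ∪ C))).card := by
  rw [← card_biUnion]
  · refine card_le_card (biUnion_subset.2 fun U _ => image_subset_image (filter_subset _ _))
  · intro U _ U' _ hne
    rw [Function.onFun, disjoint_left]
    intro y hy hy'
    obtain ⟨φ, hφ, rfl⟩ := mem_image.1 hy
    obtain ⟨ψ, hψ, e⟩ := mem_image.1 hy'
    apply hne
    apply Subtype.ext
    rw [← (mem_filter.1 hφ).2, ← (mem_filter.1 hψ).2]
    exact image_congr fun v hv => (res_eq_iff.1 e v (mem_union_right _ (mem_coe.1 hv))).symm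

open Classical in
/-- The increments. -/
noncomputable def inc_UD4 (ed : E → Finset V) (q : E × Finset V) (l : List (E × Finset V))
    (A B : Finset V) (ρ : V → Fin n) (μ W : ℕ) (h : List (RSet n r × Move n r s))
    (x : RSet n r × Move n r s) : ℝ :=
  if cnt (XX ed l h) A (B ∪ q.2) ≤ μ ∧ cnt (XX ed l h) (A ∪ ed q.1) B ≤ W then
    (((hit_UD4 ed q (fib (XX ed l h) A ρ) x).image (res (B ∪ ed q.1))).card : ℝ) else 0

lemma le_Acc_UD4 (q : E × Finset V) (l : List (E × Finset V)) (A B : Finset V) (ρ : V → Fin n)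
    (μ W : ℕ) (h : List (RSet n r × Move n r s))
    (hG : cnt (XX ed l h) A (B ∪ q.2) ≤ μ ∧ cnt (XX ed l h) (A ∪ ed q.1) B ≤ W) :
    (((fib (XX ed (q :: l) h) A ρ).image (res (B ∪ ed q.1))).card : ℝ) ≤
      Acc (inc_UD4 ed q l A B ρ μ W) h := by
  induction h using List.reverseRecOn with
  | nil =>
    have e : fib (XX ed (q :: l) ([] : List (RSet n r × Move n r s))) A ρ = ∅ := by
      rw [eq_empty_iff_forall_notMem]
      intro φ hφ
      obtain ⟨h1, x, h2, e, -⟩ := mem_XX.1 (mem_fib.1 hφ).1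
      simp at e
    rw [e]
    simp
  | append_singleton h x ih =>
    have hG' : cnt (XX ed l h) A (B ∪ q.2) ≤ μ ∧ cnt (XX ed l h) (A ∪ ed q.1) B ≤ W :=
      ⟨(cnt_mono_left (XX_append l h [x]) _ _).trans hG.1,
        (cnt_mono_left (XX_append l h [x]) _ _).trans hG.2⟩
    have hsub : fib (XX ed (q :: l) (h ++ [x])) A ρ ⊆
        fib (XX ed (q :: l) h) A ρ ∪ hit_UD4 ed q (fib (XX ed l h) A ρ) x := by
      intro φ hφ
      obtain ⟨h1, h2⟩ := mem_fib.1 hφ
      rcases (mem_XX.1 h1).snoc with h3 | h3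
      · exact mem_union_left _ (mem_fib.2 ⟨mem_XX.2 h3, h2⟩)
      · exact mem_union_right _ (mem_hit_UD4.2 ⟨mem_fib.2 ⟨mem_XX.2 h3.1, h2⟩, h3.2⟩)
    have h1 := card_le_card (image_subset_image (f := res (B ∪ ed q.1)) hsub)
    rw [image_union] at h1
    have h2 := h1.trans (card_union_le _ _)
    have h3 : (((fib (XX ed (q :: l) (h ++ [x])) A ρ).image (res (B ∪ ed q.1))).card : ℝ) ≤
        (((fib (XX ed (q :: l) h) A ρ).image (res (B ∪ ed q.1))).card : ℝ) +
        (((hit_UD4 ed q (fib (XX ed l h) A ρ) x).image (res (B ∪ ed q.1))).card : ℝ) := by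
      exact_mod_cast h2
    rw [Acc_snoc, inc_UD4, if_pos hG']
    linarith [ih hG']

lemma ruleS_one [Nonempty (RSet n r)] (hrs : r ≤ s) (hs : 1 ≤ s) (hcard : ∀ e, (ed e).card = s)
    (S : Strategy (RSet n r) (Move n r s)) (T : ℕ) {L p : ℝ}
    (hp : (T : ℝ) / Fintype.card (RSet n r) ≤ p) (hL : 2 ≤ L)
    (q : E × Finset V) (hq : q.2 ⊆ ed q.1) (l : List (E × Finset V)) (A B : Finset V)
    (ρ : V → Fin n) (μ W : ℕ) (hW : 1 ≤ W) :
    Pr S T (fun h => cnt (XX ed l h) A (B ∪ q.2) ≤ μ ∧ cnt (XX ed l h) (A ∪ ed q.1) B ≤ W ∧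
      L * (s : ℝ) ^ s * max (p * μ) W ≤
        (((fib (XX ed (q :: l) h) A ρ).image (res (B ∪ ed q.1))).card : ℝ)) ≤
      3 / (2 : ℝ) ^ L := by
  have hs0 : (0 : ℝ) < (s : ℝ) ^ s := by
    have : (0 : ℝ) < s := by exact_mod_cast hs
    positivity
  have hW0 : (0 : ℝ) < W := by exact_mod_cast hW
  have key := tail_bound S T (inc_UD4 ed q l A B ρ μ W) (W := (s : ℝ) ^ s * W)
    (μ := (s : ℝ) ^ s * μ) (L := L) (p := p) (by positivity) (by positivity)
    (fun h x => by
      unfold inc_UD4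
      split_ifs
      · positivity
      · exact le_rfl)
    (fun h x => by
      unfold inc_UD4
      split_ifs with hG
      · have h1 := (hit_le_W_UD4 hrs hcard q x (XX ed l h) A B ρ).trans
          (Nat.mul_le_mul_left _ hG.2)
        exact_mod_cast h1
      · positivity)
    (fun h => by
      by_cases hG : cnt (XX ed l h) A (B ∪ q.2) ≤ μ ∧ cnt (XX ed l h) (A ∪ ed q.1) B ≤ W
      · refine ⟨fun U => (s : ℝ) ^ s * ((((fib (XX ed l h) A ρ).filter
          fun φ => q.2.image φ = U.1).image (res (B ∪ q.2))).card : ℝ), fun U M => ?_, ?_⟩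
        · rw [inc_UD4, if_pos hG]
          have h1 := hit_le_Y_UD4 hrs hcard q hq (U, M) (fib (XX ed l h) A ρ) B
          beta_reduce
          exact_mod_cast h1
        · rw [← mul_sum]
          refine mul_le_mul_of_nonneg_left ?_ hs0.le
          have h1 := ((sum_Y_UD4 (r := r) (fib (XX ed l h) A ρ) B q.2).trans
            (le_cnt _ A (B ∪ q.2) ρ)).trans hG.1
          exact_mod_cast h1
      · refine ⟨fun _ => 0, fun U M => ?_, ?_⟩
        · rw [inc_UD4, if_neg hG]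
        · rw [sum_const_zero]
          positivity)
    hp hL
  refine le_trans (Pr_mono S T fun h hh => ?_) key
  have e : max (p * ((s : ℝ) ^ s * μ)) ((s : ℝ) ^ s * W) = (s : ℝ) ^ s * max (p * μ) W := by
    rw [mul_max_of_nonneg _ _ hs0.le]
    congr 1
    ring
  rw [e, ← mul_assoc]
  exact hh.2.2.trans (le_Acc_UD4 q l A B ρ μ W h ⟨hh.1, hh.2.1⟩)

end Pool.Agent.SemiRandom.Und
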