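import Pool.Agent.P.MP_c53d0e_pr.UD4

set_option autoImplicit false
set_option linter.unusedSectionVars false

namespace Pool.Agent.SemiRandom.Und

open Finset

variable {V E : Type} [Fintype V] [DecidableEq V] [Fintype E] [DecidableEq E] {r s : ℕ}
  {ed : E → Finset V}

theorem ruleS_prob (hrs : r ≤ s) (hs : 1 ≤ s) (hcard : ∀ e, (ed e).card = s) :
    ∃ c : ℝ, ∀ (n : ℕ) [Nonempty (RSet n r)], 1 ≤ n →
      ∀ (S : Strategy (RSet n r) (Move n r s)) (T : ℕ) (L p : ℝ),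
        (T : ℝ) / Fintype.card (RSet n r) ≤ p → 2 ≤ L →
        Pr S T (fun h => ¬ RuleS ed L p h) ≤
          c * (n : ℝ) ^ (3 * Fintype.card V) / (2 : ℝ) ^ L := by
  classical
  obtain ⟨F, hF⟩ := exists_patterns ed r
  set Q : Finset (E × Finset V) := univ.filter fun q => q.2 ⊆ ed q.1 with hQ
  set c0 : ℕ := (Q ×ˢ F ×ˢ (univ : Finset (Finset V)) ×ˢ (univ : Finset (Finset V))).card with hc0
  refine ⟨6 * c0, fun n _ hn S T L p hp hL => ?_⟩
  have : Nonempty (Fin n) := ⟨⟨0, hn⟩⟩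
  set k := Fintype.card V with hk
  set I : Finset (((E × Finset V) × List (E × Finset V) × Finset V × Finset V) ×
      (V → Fin n) × ℕ × ℕ) :=
    (Q ×ˢ F ×ˢ (univ : Finset (Finset V)) ×ˢ (univ : Finset (Finset V))) ×ˢ
      (univ : Finset (V → Fin n)) ×ˢ range (n ^ k + 1) ×ˢ Icc 1 (n ^ k) with hI
  have hpow : ∀ (X : Finset (V → Fin n)) (A B : Finset V), cnt X A B ≤ n ^ k := fun X A B => by
    simpa using cnt_le_pow X A B
  have h1 : Pr S T (fun h => ¬ RuleS ed L p h) ≤ Pr S T (fun h => ∃ i ∈ I,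
      cnt (XX ed i.1.2.1 h) i.1.2.2.1 (i.1.2.2.2 ∪ i.1.1.2) ≤ i.2.2.1 ∧
      cnt (XX ed i.1.2.1 h) (i.1.2.2.1 ∪ ed i.1.1.1) i.1.2.2.2 ≤ i.2.2.2 ∧
      L * (s : ℝ) ^ s * max (p * i.2.2.1) i.2.2.2 ≤
        (((fib (XX ed (i.1.1 :: i.1.2.1) h) i.1.2.2.1 i.2.1).image
          (res (i.1.2.2.2 ∪ ed i.1.1.1))).card : ℝ)) := by
    refine Pr_mono S T fun h hh => ?_
    unfold RuleS at hh
    push Not at hh
    obtain ⟨q, l, A, B, hv, hlt⟩ := hh
    have hs1 : (1 : ℝ) ≤ (s : ℝ) ^ s := one_le_pow₀ (by exact_mod_cast hs)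
    have hm : (1 : ℝ) ≤ max (p * cnt (XX ed l h) A (B ∪ q.2)) (cnt (XX ed l h) (A ∪ ed q.1) B) :=
      le_trans (by exact_mod_cast one_le_cnt _ _ _) (le_max_right _ _)
    rcases cnt_cases (XX ed (q :: l) h) A (B ∪ ed q.1) with e | ⟨ρ, e⟩
    · exfalso
      rw [e] at hlt
      have h2 : (2 : ℝ) ≤ L * (s : ℝ) ^ s := by nlinarith
      have h3 : (2 : ℝ) ≤ L * (s : ℝ) ^ s *
          max (p * cnt (XX ed l h) A (B ∪ q.2)) (cnt (XX ed l h) (A ∪ ed q.1) B) := by nlinarith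
      push_cast at hlt
      linarith
    · refine ⟨((q, l, A, B), ρ, cnt (XX ed l h) A (B ∪ q.2), cnt (XX ed l h) (A ∪ ed q.1) B),
        ?_, le_rfl, le_rfl, ?_⟩
      · simp only [hI, hQ, mem_product, mem_filter, mem_univ, true_and, and_true, mem_range,
          mem_Icc]
        exact ⟨⟨(hv.2 q List.mem_cons_self).1, hF l hv.tail⟩, Nat.lt_succ_of_le (hpow _ _ _),
          one_le_cnt _ _ _, hpow _ _ _⟩
      · rw [e] at hlt
        exact hlt.le
  refine h1.trans ((Pr_exists_le S T I _).trans ?_)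
  have h2 : ∀ i ∈ I, Pr S T (fun h =>
      cnt (XX ed i.1.2.1 h) i.1.2.2.1 (i.1.2.2.2 ∪ i.1.1.2) ≤ i.2.2.1 ∧
      cnt (XX ed i.1.2.1 h) (i.1.2.2.1 ∪ ed i.1.1.1) i.1.2.2.2 ≤ i.2.2.2 ∧
      L * (s : ℝ) ^ s * max (p * i.2.2.1) i.2.2.2 ≤
        (((fib (XX ed (i.1.1 :: i.1.2.1) h) i.1.2.2.1 i.2.1).image
          (res (i.1.2.2.2 ∪ ed i.1.1.1))).card : ℝ)) ≤ 3 / (2 : ℝ) ^ L := by
    intro i hi
    simp only [hI, hQ, mem_product, mem_filter, mem_univ, true_and, and_true, mem_range,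
      mem_Icc] at hi
    exact ruleS_one hrs hs hcard S T hp hL i.1.1 hi.1.1 i.1.2.1 i.1.2.2.1 i.1.2.2.2 i.2.1
      i.2.2.1 i.2.2.2 hi.2.2.1
  refine (sum_le_card_nsmul I _ _ h2).trans ?_
  have hcI : I.card = c0 * (n ^ k * ((n ^ k + 1) * n ^ k)) := by
    rw [hI, card_product, ← hc0, card_product, card_product, card_range, Nat.card_Icc, card_univ,
      Fintype.card_fun, Fintype.card_fin, Nat.add_sub_cancel]
  have hx : (1 : ℝ) ≤ (n : ℝ) ^ k := one_le_pow₀ (by exact_mod_cast hn)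
  have hL2 : (0 : ℝ) < (2 : ℝ) ^ L := by positivity
  rw [nsmul_eq_mul, hcI, ← mul_div_assoc]
  refine div_le_div_of_nonneg_right ?_ hL2.le
  push_cast
  have h3 : (n : ℝ) ^ (3 * k) = (n : ℝ) ^ k * ((n : ℝ) ^ k * (n : ℝ) ^ k) := by ring
  rw [h3]
  have hc : (0 : ℝ) ≤ c0 := Nat.cast_nonneg _
  have h4 : (n : ℝ) ^ k * (((n : ℝ) ^ k + 1) * (n : ℝ) ^ k) ≤
      2 * ((n : ℝ) ^ k * ((n : ℝ) ^ k * (n : ℝ) ^ k)) := by
    have : (0 : ℝ) ≤ (n : ℝ) ^ k * (n : ℝ) ^ k := by positivity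
    nlinarith
  nlinarith [mul_le_mul_of_nonneg_left h4 hc]

theorem calc_nu {n : ℕ} (hn : 2 ≤ n) {δ ε L p : ℝ} (hL0 : 0 ≤ L)
    (hL : L * (s : ℝ) ^ s ≤ (n : ℝ) ^ ε) (hp : p ≤ (n : ℝ) ^ (-δ))
    {h : List (RSet n r × Move n r s)} (hR : RuleS ed L p h) : Calc ed r δ ε (nu ed h) := by
  have : Nonempty (Fin n) := ⟨⟨0, by omega⟩⟩
  have hn1 : (1 : ℝ) < n := by exact_mod_cast hn
  have hn0 : (0 : ℝ) < n := by linarith
  have hlog : 0 < Real.log n := Real.log_pos hn1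
  have hc : ∀ (X : Finset (V → Fin n)) (A B : Finset V), (1 : ℝ) ≤ cnt X A B := fun X A B => by
    exact_mod_cast one_le_cnt X A B
  have hc0 : ∀ (X : Finset (V → Fin n)) (A B : Finset V), (0 : ℝ) < cnt X A B := fun X A B =>
    lt_of_lt_of_le one_pos (hc X A B)
  have hm : ∀ (X X' : Finset (V → Fin n)) (A B A' B' : Finset V), cnt X A B ≤ cnt X' A' B' →
      Real.log (cnt X A B) / Real.log n ≤ Real.log (cnt X' A' B') / Real.log n :=
    fun X X' A B A' B' H => div_le_div_of_nonneg_right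
      (Real.log_le_log (hc0 _ _ _) (by exact_mod_cast H)) hlog.le
  refine ⟨fun l A B => div_nonneg (Real.log_nonneg (hc _ _ _)) hlog.le, fun l A B => ?_,
    fun q l A B => hm _ _ _ _ _ _ (cnt_mono_left (XX_cons q l h) A B),
    fun l A A' B B' hA hB => hm _ _ _ _ _ _ (cnt_mono _ hA hB), fun l A B B' => ?_,
    fun q l A B hv => ?_⟩
  · unfold nu
    rw [div_le_iff₀ hlog, ← Real.log_pow]
    refine Real.log_le_log (hc0 _ _ _) ?_
    have := cnt_cap (XX ed l h) A B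
    rw [Fintype.card_fin] at this
    exact_mod_cast this
  · unfold nu
    rw [← add_div, ← Real.log_mul (hc0 _ _ _).ne' (hc0 _ _ _).ne']
    refine div_le_div_of_nonneg_right (Real.log_le_log (hc0 _ _ _) ?_) hlog.le
    exact_mod_cast cnt_chain (XX ed l h) A B B'
  · have H := hR q l A B hv
    unfold nu
    have a0 := hc0 (XX ed (q :: l) h) A (B ∪ ed q.1)
    have b0 := hc0 (XX ed l h) A (B ∪ q.2)
    have c0 := hc0 (XX ed l h) (A ∪ ed q.1) B
    generalize (cnt (XX ed (q :: l) h) A (B ∪ ed q.1) : ℝ) = a at H a0 ⊢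
    generalize (cnt (XX ed l h) A (B ∪ q.2) : ℝ) = b at H b0 ⊢
    generalize (cnt (XX ed l h) (A ∪ ed q.1) B : ℝ) = c at H c0 ⊢
    have he : (0 : ℝ) < (n : ℝ) ^ ε := Real.rpow_pos_of_pos hn0 _
    have hd : (0 : ℝ) < (n : ℝ) ^ (-δ) := Real.rpow_pos_of_pos hn0 _
    have hM : max (p * b) c ≤ max ((n : ℝ) ^ (-δ) * b) c :=
      max_le_max (mul_le_mul_of_nonneg_right hp b0.le) le_rfl
    have hM0 : 0 ≤ max (p * b) c := le_trans c0.le (le_max_right _ _)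
    have H2 : a ≤ (n : ℝ) ^ ε * max ((n : ℝ) ^ (-δ) * b) c :=
      H.trans (mul_le_mul hL hM hM0 he.le)
    rcases le_total ((n : ℝ) ^ (-δ) * b) c with h1 | h1
    · rw [max_eq_right h1] at H2
      have H3 := Real.log_le_log a0 H2
      rw [Real.log_mul he.ne' c0.ne', Real.log_rpow hn0] at H3
      refine le_trans ?_ (add_le_add le_rfl (le_max_right _ _))
      rw [div_le_iff₀ hlog, add_mul, div_mul_cancel₀ _ hlog.ne']
      exact H3
    · rw [max_eq_left h1] at H2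
      have H3 := Real.log_le_log a0 H2
      rw [Real.log_mul he.ne' (mul_pos hd b0).ne', Real.log_mul hd.ne' b0.ne',
        Real.log_rpow hn0, Real.log_rpow hn0] at H3
      refine le_trans ?_ (add_le_add le_rfl (le_max_left _ _))
      rw [div_le_iff₀ hlog, add_mul, sub_mul, div_mul_cancel₀ _ hlog.ne']
      linarith

end Pool.Agent.SemiRandom.Und
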