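import Pool.Agent.P.MP_c53d0e_pr.UD1

set_option autoImplicit false
set_option linter.unusedSectionVars false

namespace Pool.Agent.SemiRandom.Und

open Finset

variable {r s : ℕ} {P Ln : Type} [Fintype P] [DecidableEq P] [Fintype Ln] [DecidableEq Ln]

lemma exists_num_UD6 {W : Type} [DecidableEq W] (m : ℕ) (hm : 1 ≤ m) :
    ∃ j : Finset W → W → Fin m, ∀ A : Finset W, A.card ≤ m → Set.InjOn (j A) (A : Set W) := by
  have key : ∀ A : Finset W, ∃ f : W → Fin m, A.card ≤ m → Set.InjOn f (A : Set W) := by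
    intro A
    by_cases h : A.card ≤ m
    · refine ⟨fun a => if ha : a ∈ A then Fin.castLE h (A.equivFin ⟨a, ha⟩) else ⟨0, hm⟩,
        fun _ a ha b hb hab => ?_⟩
      have ha' : a ∈ A := ha
      have hb' : b ∈ A := hb
      simp only [dif_pos ha', dif_pos hb'] at hab
      have h1 := A.equivFin.injective (Fin.castLE_injective h hab)
      exact congrArg Subtype.val h1
    · exact ⟨fun _ => ⟨0, hm⟩, fun h' => absurd h' h⟩
  choose j hj using key
  exact ⟨j, hj⟩

lemma exact_bound_UD6 (I : Inst r P Ln) {η : ℝ} (hb : I.Bound η) {W : Type}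
    [DecidableEq W] (S : Finset (P → W)) (w : ℕ) (hw : 1 ≤ w)
    (hcap : ∀ p, (S.image fun x => x p).card ≤ w) (hS : I.Exact S) :
    (S.card : ℝ) ≤ (w : ℝ) ^ ((r : ℝ) - η) := by
  obtain ⟨j, hj⟩ := exists_num_UD6 (W := W) w hw
  set J : (P → W) → (P → Fin w) := fun x p => j (S.image fun y => y p) (x p) with hJ
  have hinj : ∀ x ∈ S, ∀ x' ∈ S, ∀ p, J x p = J x' p → x p = x' p := by
    intro x hx x' hx' p h
    exact hj _ (hcap p) (mem_coe.2 (mem_image_of_mem _ hx)) (mem_coe.2 (mem_image_of_mem _ hx')) h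
  have hcard : (S.image J).card = S.card :=
    card_image_of_injOn fun x hx x' hx' h =>
      funext fun p => hinj x hx x' hx' p (congrFun h p)
  rw [← hcard]
  refine hb w _ hw ?_
  intro e y hy y' hy' h
  obtain ⟨x, hx, rfl⟩ := mem_image.1 hy
  obtain ⟨x', hx', rfl⟩ := mem_image.1 hy'
  have h1 := hS e x hx x' hx' fun l => hinj x hx x' hx' _ (h l)
  simp only [hJ, h1]

/-- The static bound for families with few values and small multiplicities. -/
lemma approx_bound (I : Inst r P Ln) {η : ℝ} (hb : I.Bound η) {W : Type} [Fintype W]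
    [DecidableEq W] (S : Finset (P → W)) (w μ : ℕ) (hw : 1 ≤ w) (hμ : 1 ≤ μ)
    (hcap : ∀ p, (S.image fun x => x p).card ≤ w)
    (hfd : ∀ e, ∀ x ∈ S, ((S.filter fun x' => ∀ l, x' (I.src e l) = x (I.src e l)).image
      fun x' => x' (I.tgt e)).card ≤ μ) :
    (S.card : ℝ) ≤ (μ : ℝ) ^ Fintype.card Ln * (w : ℝ) ^ ((r : ℝ) - η) := by
  obtain ⟨j, hj⟩ := exists_num_UD6 (W := W) μ hμ
  set A : Ln → (P → W) → Finset W := fun e x =>
    (S.filter fun x' => ∀ l, x' (I.src e l) = x (I.src e l)).image fun x' => x' (I.tgt e) with hA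
  set idx : (P → W) → (Ln → Fin μ) := fun x e => j (A e x) (x (I.tgt e)) with hidx
  have hfib : ∀ c : Ln → Fin μ,
      ((S.filter fun x => idx x = c).card : ℝ) ≤ (w : ℝ) ^ ((r : ℝ) - η) := by
    intro c
    refine exact_bound_UD6 I hb _ w hw (fun p => ?_) ?_
    · exact le_trans (card_le_card (image_subset_image (filter_subset _ _))) (hcap p)
    · intro e x hx x' hx' h
      obtain ⟨hxS, hxc⟩ := mem_filter.1 hx
      obtain ⟨hxS', hxc'⟩ := mem_filter.1 hx'
      have hAe : A e x' = A e x := by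
        simp only [hA, h]
      have h1 : idx x e = idx x' e := by rw [hxc, hxc']
      simp only [hidx, hAe] at h1
      refine hj (A e x) (hfd e x hxS) (mem_coe.2 ?_) (mem_coe.2 ?_) h1
      · exact mem_image_of_mem _ (mem_filter.2 ⟨hxS, fun _ => rfl⟩)
      · exact mem_image_of_mem _ (mem_filter.2 ⟨hxS', fun l => (h l).symm⟩)
  have hsum : S.card = ∑ c : Ln → Fin μ, (S.filter fun x => idx x = c).card :=
    card_eq_sum_card_fiberwise fun x _ => mem_coe.2 (mem_univ (idx x))
  calc (S.card : ℝ) = ∑ c : Ln → Fin μ, ((S.filter fun x => idx x = c).card : ℝ) := by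
        rw [hsum]; push_cast; rfl
    _ ≤ ∑ _c : Ln → Fin μ, (w : ℝ) ^ ((r : ℝ) - η) := sum_le_sum fun c _ => hfib c
    _ = (μ : ℝ) ^ Fintype.card Ln * (w : ℝ) ^ ((r : ℝ) - η) := by
        simp [sum_const, card_univ, nsmul_eq_mul]

end Pool.Agent.SemiRandom.Und
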