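import Pool.Agent.P.MP_c53d0e_pr.UD6

set_option autoImplicit false
set_option linter.unusedSectionVars false

namespace Pool.Agent.SemiRandom.Und

open Finset

variable {r s : ℕ} {P Ln : Type} [Fintype P] [DecidableEq P] [Fintype Ln] [DecidableEq Ln]

lemma card_image_le_UD7 {α β γ : Type} [DecidableEq β] [DecidableEq γ] (Y : Finset α)
    (f : α → β) (g : α → γ) (h : ∀ a ∈ Y, ∀ b ∈ Y, g a = g b → f a = f b) :
    (Y.image f).card ≤ (Y.image g).card := by
  rcases Y.eq_empty_or_nonempty with rfl | ⟨a0, -⟩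
  · simp
  have : Nonempty α := ⟨a0⟩
  refine le_trans (card_le_card ?_)
    (card_image_le (s := Y.image g) (f := fun c => f (Function.invFunOn g (Y : Set α) c)))
  intro b hb
  obtain ⟨a, ha, rfl⟩ := mem_image.1 hb
  refine mem_image.2 ⟨g a, mem_image_of_mem _ ha, ?_⟩
  exact h _ (Function.invFunOn_apply_mem (f := g) (s := (Y : Set α)) ha) _ ha
    (Function.invFunOn_apply_eq (f := g) (s := (Y : Set α)) ha)

lemma val_le_cnt_UD7 {V W : Type} [Fintype V] [DecidableEq V] [Fintype W] [DecidableEq W]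
    (X : Finset (V → W)) (A : Finset V) (ρ : V → W) (v : V) :
    ((fib X A ρ).image fun φ => φ v).card ≤ cnt X A {v} :=
  (card_image_le_UD7 _ _ (res {v}) fun _ _ _ _ h =>
    res_eq_iff.1 h v (mem_singleton_self v)).trans (le_cnt X A {v} ρ)

lemma log_max_UD7 {ι : Type} [Fintype ι] (f : ι → ℕ) {t : ℝ} (ht : 0 ≤ t)
    (h : ∀ i, Real.log (f i) ≤ t) : Real.log ((max 1 (univ.sup f) : ℕ) : ℝ) ≤ t := by
  rcases le_total (univ.sup f) 1 with h1 | h1
  · rw [max_eq_left h1]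
    simpa using ht
  · rw [max_eq_right h1]
    have hne : (univ : Finset ι).Nonempty := by
      rw [nonempty_iff_ne_empty]
      intro e
      rw [e] at h1
      simp at h1
    obtain ⟨i, -, hi⟩ := exists_mem_eq_sup univ hne f
    rw [hi]
    exact h i

theorem stat_nu (I : Inst (r + r) P Ln) {η : ℝ} (hb : I.Bound η) (hη : η ≤ r) {n : ℕ} (hn : 2 ≤ n)
    (h : List (RSet n r × Move n r s)) : Stat I s η (nu (ed I s) h) := by
  intro l A x y hx hy h1 h2
  have hL : 0 < Real.log n := Real.log_pos (by exact_mod_cast hn)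
  have hrη : 0 ≤ 2 * (r : ℝ) - η := by linarith [(Nat.cast_nonneg r : (0 : ℝ) ≤ r)]
  simp only [nu, div_le_iff₀ hL] at h1 h2 ⊢
  generalize XX (ed I s) l h = X at h1 h2 ⊢
  have hw := log_max_UD7 _ (mul_nonneg hx hL.le) h1
  have hμ := log_max_UD7 _ (mul_nonneg hy hL.le) h2
  have hw1 : ∀ p, cnt X A {Vx.pt p} ≤ max 1 (univ.sup fun p => cnt X A {Vx.pt p}) := fun p =>
    le_trans (le_sup (f := fun p => cnt X A {Vx.pt p}) (mem_univ p)) (le_max_right _ _)
  have hμ1 : ∀ e, cnt X (A ∪ SRC I e) {Vx.pt (I.tgt e)} ≤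
      max 1 (univ.sup fun e => cnt X (A ∪ SRC I e) {Vx.pt (I.tgt e)}) := fun e =>
    le_trans (le_sup (f := fun e => cnt X (A ∪ SRC I e) {Vx.pt (I.tgt e)}) (mem_univ e))
      (le_max_right _ _)
  have hw0 : 1 ≤ max 1 (univ.sup fun p => cnt X A {Vx.pt p}) := le_max_left _ _
  have hμ0 : 1 ≤ max 1 (univ.sup fun e => cnt X (A ∪ SRC I e) {Vx.pt (I.tgt e)}) :=
    le_max_left _ _
  generalize max 1 (univ.sup fun p => cnt X A {Vx.pt p}) = w at hw hw1 hw0
  generalize max 1 (univ.sup fun e => cnt X (A ∪ SRC I e) {Vx.pt (I.tgt e)}) = μ at hμ hμ1 hμ0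
  rcases cnt_cases X A PP with hc | ⟨ρ, hc⟩
  · rw [hc, Nat.cast_one, Real.log_one]
    positivity
  have hS := approx_bound I hb ((fib X A ρ).image fun φ p => φ (Vx.pt p)) w μ hw0 hμ0
    (fun p => by
      rw [image_image]
      exact (val_le_cnt_UD7 X A ρ (Vx.pt p)).trans (hw1 p))
    (fun e x0 hx0 => by
      obtain ⟨φ0, hφ0, rfl⟩ := mem_image.1 hx0
      refine le_trans (card_le_card ?_)
        ((val_le_cnt_UD7 X (A ∪ SRC I e) φ0 (Vx.pt (I.tgt e))).trans (hμ1 e))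
      intro b hb'
      obtain ⟨x', hx', rfl⟩ := mem_image.1 hb'
      obtain ⟨hx1, hx2⟩ := mem_filter.1 hx'
      obtain ⟨φ, hφ, rfl⟩ := mem_image.1 hx1
      refine mem_image.2 ⟨φ, mem_fib.2 ⟨(mem_fib.1 hφ).1, fun v hv => ?_⟩, rfl⟩
      rcases mem_union.1 hv with hv | hv
      · rw [(mem_fib.1 hφ).2 v hv, (mem_fib.1 hφ0).2 v hv]
      · obtain ⟨l', rfl⟩ := (mem_SRC I e v).1 hv
        exact hx2 l')
  have hle : cnt X A PP ≤ ((fib X A ρ).image fun φ p => φ (Vx.pt p)).card := by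
    rw [hc]
    refine card_image_le_UD7 _ _ _ fun a _ b _ hab => res_eq_iff.2 fun v hv => ?_
    obtain ⟨p, rfl⟩ := (mem_PP v).1 hv
    exact congrFun hab p
  have hpos : (0 : ℝ) < cnt X A PP := by exact_mod_cast one_le_cnt X A PP
  have hwp : (0 : ℝ) < w := by exact_mod_cast hw0
  have hμp : (0 : ℝ) < μ := by exact_mod_cast hμ0
  have key := Real.log_le_log hpos (le_trans (by exact_mod_cast hle) hS)
  rw [Real.log_mul (by positivity) (by positivity), Real.log_pow, Real.log_rpow hwp] at key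
  rw [Nat.cast_add, ← two_mul] at key
  have e1 := mul_le_mul_of_nonneg_left hμ (Nat.cast_nonneg (α := ℝ) (Fintype.card Ln))
  have e2 := mul_le_mul_of_nonneg_left hw hrη
  nlinarith

end Pool.Agent.SemiRandom.Und
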