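import Pool.Agent.P.MP_c53d0e_pr.UD2
import Pool.Agent.P.MP_c53d0e_pr.UD3

set_option autoImplicit false
set_option linter.unusedSectionVars false

namespace Pool.Agent.SemiRandom.Und

open Finset

variable {V E : Type} [Fintype V] [DecidableEq V] [Fintype E] [DecidableEq E] {r s : ℕ}
  {ed : E → Finset V}

/-- The pattern `l` is realised by `φ` in an initial part with few realisations. -/
def Cst_UD8 {n : ℕ} (ed : E → Finset V) (l : List (E × Finset V)) (b : ℝ) (φ : V → Fin n)
    (h : List (RSet n r × Move n r s)) : Prop :=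
  ∃ h1 h2, h = h1 ++ h2 ∧ Emb ed l φ h1 ∧ ((XX ed l h1).card : ℝ) ≤ b

lemma Cst_append_UD8 {n : ℕ} (l : List (E × Finset V)) (b : ℝ) (φ : V → Fin n)
    (h h' : List (RSet n r × Move n r s)) (H : Cst_UD8 ed l b φ h) :
    Cst_UD8 ed l b φ (h ++ h') := by
  obtain ⟨h1, h2, e, a1, a2⟩ := H
  exact ⟨h1, h2 ++ h', by rw [e, List.append_assoc], a1, a2⟩

open Classical in
lemma Cst_card_UD8 {n : ℕ} (l : List (E × Finset V)) {b : ℝ} (hb : 0 ≤ b)
    (h : List (RSet n r × Move n r s)) :
    (∑ φ : V → Fin n, if Cst_UD8 ed l b φ h then (1 : ℝ) else 0) ≤ b := by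
  rw [sum_boole]
  by_cases hne : (univ.filter fun φ : V → Fin n => Cst_UD8 ed l b φ h).Nonempty
  · let P : ℕ → Prop := fun k => ((XX ed l (h.take k)).card : ℝ) ≤ b
    have key : ∀ φ : V → Fin n, Cst_UD8 ed l b φ h →
        ∃ k, k ≤ h.length ∧ P k ∧ Emb ed l φ (h.take k) := by
      rintro φ ⟨h1, h2, e, a1, a2⟩
      have e1 : h.take h1.length = h1 := by rw [e, List.take_left]
      refine ⟨h1.length, by rw [e]; simp, ?_, ?_⟩
      · show ((XX ed l (h.take h1.length)).card : ℝ) ≤ b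
        rw [e1]; exact a2
      · rw [e1]; exact a1
    obtain ⟨φ0, h0⟩ := hne
    obtain ⟨k0, hk0, hP0, -⟩ := key φ0 (mem_filter.1 h0).2
    have hK : P (Nat.findGreatest P h.length) := Nat.findGreatest_spec hk0 hP0
    refine le_trans ?_ hK
    refine Nat.cast_le.2 (card_le_card fun φ hφ => ?_)
    obtain ⟨k, hk, hP, hE⟩ := key φ (mem_filter.1 hφ).2
    have hle : k ≤ Nat.findGreatest P h.length := Nat.le_findGreatest hk hP
    rw [mem_XX]
    have e : h.take (Nat.findGreatest P h.length) =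
        h.take k ++ (h.take (Nat.findGreatest P h.length)).drop k := by
      conv_lhs => rw [← List.take_append_drop k (h.take (Nat.findGreatest P h.length))]
      rw [List.take_take, min_eq_left hle]
    rw [e]
    exact hE.append _
  · rw [not_nonempty_iff_eq_empty.1 hne]
    simpa using hb

theorem win_le (hinj : Function.Injective ed) :
    ∃ c : ℝ, ∀ (n : ℕ) [Nonempty (RSet n r)] (S : Strategy (RSet n r) (Move n r s)) (T : ℕ)
      (p γ : ℝ) (bd : ℕ → ℝ) (Good : List (RSet n r × Move n r s) → Prop),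
      (T : ℝ) / Fintype.card (RSet n r) ≤ p → (∀ j, 0 ≤ bd j) → (∀ j, p ^ j * bd j ≤ γ) →
      (∀ h, Good h → ∀ ps, Valid ed r ps → (∀ e, e ∈ ps.map Prod.fst) →
        ∃ qs l, ps = qs ++ l ∧ ((XX ed l h).card : ℝ) ≤ bd qs.length) →
      Pr S T (ContainsV ed) ≤ Pr S T (fun h => ¬ Good h) + c * γ := by
  classical
  obtain ⟨F, hF⟩ := exists_patterns ed r
  let I : Finset (List (E × Finset V) × List (E × Finset V)) :=
    F.biUnion fun ps => (range (ps.length + 1)).image fun j => (ps.take j, ps.drop j)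
  have hI : ∀ qs l, Valid ed r (qs ++ l) → (qs, l) ∈ I := by
    intro qs l hv
    refine mem_biUnion.2 ⟨qs ++ l, hF _ hv, mem_image.2 ⟨qs.length, ?_, ?_⟩⟩
    · rw [mem_range, List.length_append]; omega
    · rw [List.take_left, List.drop_left]
  refine ⟨I.card, fun n _ S T p γ bd Good hT hbd hγ hG => ?_⟩
  let w : List (E × Finset V) → (V → Fin n) → Multiset (Finset (Fin n)) := fun qs φ =>
    ((qs.map fun p => p.2.image φ : List (Finset (Fin n))) : Multiset (Finset (Fin n)))
  have pt : ∀ h : List (RSet n r × Move n r s), ind (ContainsV ed h) ≤ ind (¬ Good h) +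
      ∑ τ ∈ I, ∑ φ : V → Fin n,
        if ∃ l1 l2, h = [] ++ l1 ++ l2 ∧ Cst_UD8 ed τ.2 (bd τ.1.length) φ ([] ++ l1) ∧
          w τ.1 φ ≤ draws Subtype.val l2 then (1 : ℝ) else 0 := by
    intro h
    have h0 : (0 : ℝ) ≤ ∑ τ ∈ I, ∑ φ : V → Fin n,
        if ∃ l1 l2, h = [] ++ l1 ++ l2 ∧ Cst_UD8 ed τ.2 (bd τ.1.length) φ ([] ++ l1) ∧
          w τ.1 φ ≤ draws Subtype.val l2 then (1 : ℝ) else 0 :=
      sum_nonneg fun _ _ => sum_nonneg fun _ _ => by positivity
    by_cases hC : ContainsV ed h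
    · by_cases hg : Good h
      · rw [ind_pos hC, ind_neg (not_not.2 hg), zero_add]
        obtain ⟨ps, φ, hv, hall, hE⟩ := extract hinj hC
        obtain ⟨qs, l, rfl, hb⟩ := hG h hg ps hv hall
        obtain ⟨h1, h2, e, hE1, hw⟩ := hE.split
        refine le_trans ?_ (single_le_sum (fun _ _ => sum_nonneg fun _ _ => by positivity)
          (hI qs l hv))
        refine le_trans ?_ (single_le_sum (fun _ _ => by positivity) (mem_univ φ))
        rw [if_pos]
        refine ⟨h1, h2, by simpa using e, ⟨h1, [], by simp, hE1, le_trans ?_ hb⟩, hw⟩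
        rw [e]
        exact Nat.cast_le.2 (card_le_card (XX_append l h1 h2))
      · rw [ind_pos hC, ind_pos hg]; linarith
    · rw [ind_neg hC]; linarith [ind_nonneg (¬ Good h)]
  unfold Pr
  refine (Ex_le S T [] pt).trans ?_
  rw [Ex_add, Ex_sum]
  refine add_le_add le_rfl ?_
  refine (sum_le_sum (g := fun _ => γ) fun τ _ => ?_).trans ?_
  · rw [Ex_sum]
    have hw : ∀ φ, (w τ.1 φ).card = τ.1.length := fun φ => by simp [w]
    have hp0 : (0 : ℝ) ≤ (T : ℝ) / Fintype.card (RSet n r) := by positivity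
    refine le_trans (sum_le_sum fun φ _ => (stop S Subtype.val Subtype.val_injective
      (Cst_UD8 ed τ.2 (bd τ.1.length) φ) (fun h l H => Cst_append_UD8 _ _ _ h l H) (w τ.1 φ) T
        []).trans
      (mul_le_mul_of_nonneg_right (pow_le_pow_left₀ hp0 hT _)
        (Ex_nonneg S _ _ _ fun l => by positivity))) ?_
    simp only [hw]
    rw [← mul_sum, ← Ex_sum]
    refine le_trans (mul_le_mul_of_nonneg_left ?_ (pow_nonneg (hp0.trans hT) _)) (hγ τ.1.length)
    exact (Ex_le S T [] fun h => Cst_card_UD8 τ.2 (hbd _) h).trans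
      (Ex_const S T [] (bd τ.1.length)).le
  · rw [sum_const, nsmul_eq_mul]

end Pool.Agent.SemiRandom.Und
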