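import Pool.Agent.P.MP_c53d0e_pr.U0

set_option autoImplicit false
set_option linter.unusedSectionVars false

namespace Pool.Agent.SemiRandom.Und

open Finset

open Filter Topology

variable {k : ℕ}

theorem tau_ge (G : Finset (Finset (Fin k))) (r s : ℕ) {δ δ' : ℝ} (hδ : δ < δ')
    (H : ∀ q : ℝ, 0 < q → ∀ᶠ n : ℕ in atTop, ∀ (S : Strategy (RSet n r) (Move n r s)) (T : ℕ),
      (T : ℝ) / n.choose r ≤ (n : ℝ) ^ (-δ) → winProb G S T < q) :
    ((r - δ' : ℝ) : EReal) ≤ tau G r s := by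
  refine ge_of_tendsto (tau_tendsto G r s) ?_
  filter_upwards [Ioo_mem_nhdsLT (zero_lt_one' ℝ)] with q hq'
  have hq : 0 < q := hq'.1
  have t2 := choose_lim (a := id) one_pos (tendsto_const_nhds.congr' (by
    filter_upwards [eventually_gt_atTop 0] with n hn
    simp only [id]; field_simp)) r
  have t3 : Tendsto (fun n : ℕ => (n : ℝ) ^ (-(δ' - δ))) atTop (𝓝 0) :=
    (tendsto_rpow_neg_atTop (by linarith)).comp tendsto_natCast_atTop_atTop
  refine le_limsup_of_frequently_le (Eventually.frequently ?_)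
  filter_upwards [H q hq, t3.eventually_lt t2 (by positivity),
    eventually_ge_atTop 2, eventually_ge_atTop r] with n h1 h2 hn hrn
  have hn0 : (0 : ℝ) < n := by exact_mod_cast (by omega : 0 < n)
  have hlog : 0 < Real.log n := Real.log_pos (by exact_mod_cast (by omega : 1 < n))
  have hC : (0 : ℝ) < n.choose r := by exact_mod_cast Nat.choose_pos hrn
  have key : ENNReal.ofReal ((n : ℝ) ^ (r - δ')) ≤ tauN G r s q n := by
    rcases eq_or_ne (tauN G r s q n) ⊤ with h | h
    · rw [h]; exact le_top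
    obtain ⟨⟨t, ⟨S, hS⟩⟩, ht⟩ : ∃ t : {t : ℕ // ∃ S : Strategy (RSet n r) (Move n r s),
        q ≤ winProb G S t}, ((t : ℕ) : ℕ∞) ≤ tauN G r s q n := by
      by_contra hcon
      push Not at hcon
      have : tauN G r s q n + 1 ≤ tauN G r s q n :=
        le_iInf fun S => le_iInf₂ fun t ht => Order.add_one_le_of_lt (hcon ⟨t, S, ht⟩)
      exact absurd ((ENat.add_one_le_iff h).1 this) (lt_irrefl _)
    refine le_trans ?_ (ENat.toENNReal_le.2 ht)
    rw [ENat.toENNReal_coe, ← ENNReal.ofReal_natCast]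
    refine ENNReal.ofReal_le_ofReal (not_lt.1 fun hlt => ?_)
    refine absurd hS (not_le.2 (h1 S t ?_))
    rw [div_le_iff₀ hC]
    simp only [id] at h2
    rw [lt_div_iff₀ (by positivity)] at h2
    have e : (n : ℝ) ^ (r - δ') = (n : ℝ) ^ (-δ) * ((n : ℝ) ^ (-(δ' - δ)) * (n : ℝ) ^ r) := by
      rw [← Real.rpow_natCast, ← Real.rpow_add hn0, ← Real.rpow_add hn0]; congr 1; ring
    rw [e] at hlt
    exact hlt.le.trans (mul_le_mul_of_nonneg_left h2.le (by positivity))
  refine le_trans (le_of_eq ?_) (EReal.div_le_div_right_of_nonneg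
    (by exact_mod_cast hlog.le) (ENNReal.log_le_log key))
  rw [ENNReal.log_ofReal_of_pos (by positivity), ← EReal.coe_div, Real.log_rpow hn0,
    mul_div_cancel_right₀ _ hlog.ne']

theorem tau_le (G : Finset (Finset (Fin k))) (r s : ℕ) (x : ℝ)
    (H : ∀ q : ℝ, q < 1 → ∃ c : ℝ, 0 < c ∧ ∀ᶠ n : ℕ in atTop,
      ∃ (S : Strategy (RSet n r) (Move n r s)) (T : ℕ),
        q ≤ winProb G S T ∧ (T : ℝ) ≤ c * (n : ℝ) ^ x) :
    tau G r s ≤ (x : EReal) := by
  refine le_of_tendsto (tau_tendsto G r s) ?_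
  filter_upwards [self_mem_nhdsWithin] with q hq
  obtain ⟨c, hc0, hev⟩ := H q hq
  have t1 : Tendsto (fun n : ℕ => Real.log c / Real.log n + x) atTop (𝓝 (0 + x)) :=
    (tendsto_const_nhds.div_atTop
      (Real.tendsto_log_atTop.comp tendsto_natCast_atTop_atTop)).add_const _
  rw [zero_add] at t1
  rw [← (EReal.tendsto_coe.2 t1).limsup_eq]
  refine limsup_le_limsup ?_
  filter_upwards [hev, eventually_ge_atTop 2] with n hST hn
  obtain ⟨S, T, hq', hT⟩ := hST
  have hn0 : (0 : ℝ) < n := by exact_mod_cast (by omega : 0 < n)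
  have hlog : 0 < Real.log n := Real.log_pos (by exact_mod_cast (by omega : 1 < n))
  have key : (tauN G r s q n : ENNReal) ≤ ENNReal.ofReal (c * (n : ℝ) ^ x) := by
    have : tauN G r s q n ≤ ((T : ℕ) : ℕ∞) := (iInf_le _ S).trans (iInf₂_le T hq')
    refine (ENat.toENNReal_le.2 this).trans ?_
    rw [ENat.toENNReal_coe, ← ENNReal.ofReal_natCast]
    exact ENNReal.ofReal_le_ofReal hT
  refine (EReal.div_le_div_right_of_nonneg
    (by exact_mod_cast hlog.le) (ENNReal.log_le_log key)).trans (le_of_eq ?_)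
  rw [ENNReal.log_ofReal_of_pos (by positivity), ← EReal.coe_div,
    Real.log_mul hc0.ne' (by positivity), Real.log_rpow hn0, add_div,
    mul_div_cancel_right₀ _ hlog.ne']

lemma contains_iff {V E : Type} [Fintype V] [DecidableEq V] [Fintype E] (ed : E → Finset V)
    (enc : V ↪ Fin k) {n r s : ℕ} (hn : k ≤ n) (h : List (RSet n r × Move n r s)) :
    Contains (univ.image fun e => (ed e).map enc) h ↔ ContainsV ed h := by
  constructor
  · rintro ⟨φ, hφ⟩
    refine ⟨enc.trans φ, fun e => ?_⟩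
    obtain ⟨x, hx, hx'⟩ := hφ _ (mem_image_of_mem _ (mem_univ e))
    exact ⟨x, hx, by rw [hx', Finset.map_map]⟩
  · rintro ⟨φ, hφ⟩
    obtain ⟨σ, hσ⟩ := Equiv.Perm.exists_extending_pair _ _
      (enc.trans (Fin.castLEEmb hn)).injective φ.injective
    refine ⟨(Fin.castLEEmb hn).trans σ.toEmbedding, fun e he => ?_⟩
    obtain ⟨e', -, rfl⟩ := mem_image.1 he
    obtain ⟨x, hx, hx'⟩ := hφ e'
    refine ⟨x, hx, ?_⟩
    have : enc.trans ((Fin.castLEEmb hn).trans σ.toEmbedding) = φ :=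
      Function.Embedding.ext fun v => hσ v
    rw [hx', Finset.map_map, this]

end Pool.Agent.SemiRandom.Und
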