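import Pool.Agent.P.MP_c53d0e_pr.UC6
import Pool.Agent.P.MP_c53d0e_pr.UD5
import Pool.Agent.P.MP_c53d0e_pr.UD7
import Pool.Agent.P.MP_c53d0e_pr.UD8

set_option autoImplicit false
set_option linter.unusedSectionVars false

namespace Pool.Agent.SemiRandom.Und

open Finset

open Filter Topology

variable {r s : ℕ} {P Ln : Type} [Fintype P] [DecidableEq P] [Fintype Ln] [DecidableEq Ln]

lemma lim_UDZ (a : ℕ) {ε C : ℝ} (hε : 0 < ε) (hC : 0 < C) :
    Tendsto (fun n : ℕ => (n : ℝ) ^ a / (2 : ℝ) ^ ((n : ℝ) ^ ε / C)) atTop (𝓝 0) := by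
  have hb : 0 < Real.log 2 / C := div_pos (Real.log_pos one_lt_two) hC
  have h1 := (tendsto_rpow_mul_exp_neg_mul_atTop_nhds_zero ((a : ℝ) / ε) _ hb).comp
    ((tendsto_rpow_atTop hε).comp tendsto_natCast_atTop_atTop)
  refine h1.congr fun n => ?_
  simp only [Function.comp]
  have hn : (0 : ℝ) ≤ n := n.cast_nonneg
  rw [← Real.rpow_mul hn, mul_div_cancel₀ _ hε.ne', Real.rpow_natCast,
    Real.rpow_def_of_pos two_pos, div_eq_mul_inv _ (Real.exp _), ← Real.exp_neg]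
  congr 2
  ring

theorem no_lose (hO : Ok r s P Ln) (I : Inst (r + r) P Ln) (hbi : Function.Injective I.bas)
    (hN : I.No) : ∃ δ : ℝ, δ < 1 / 2 ∧ ∀ q : ℝ, 0 < q → ∀ᶠ n : ℕ in atTop,
      ∀ (S : Strategy (RSet n r) (Move n r s)) (T : ℕ),
        (T : ℝ) / n.choose r ≤ (n : ℝ) ^ (-δ) → Pr S T (ContainsV (ed I s)) < q := by
  obtain ⟨η, hη0, hη1, hb⟩ := hN
  have hr : (2 : ℝ) ≤ r := by exact_mod_cast hO.hr
  have hl : (0 : ℝ) ≤ Fintype.card Ln := Nat.cast_nonneg _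
  have hrs : r < s := hO.lt
  have hs1 : 1 ≤ s := by omega
  have hs0 : (0 : ℝ) < s := by exact_mod_cast hs1
  have hss : (0 : ℝ) < (s : ℝ) ^ s := pow_pos hs0 s
  have hD : (0 : ℝ) < 120 * r * (Fintype.card Ln + 1) := by positivity
  set ζ : ℝ := η / (120 * r * (Fintype.card Ln + 1)) with hζ
  have hζ0 : 0 < ζ := div_pos hη0 hD
  have hζe : 30 * r * (Fintype.card Ln + 1) * ζ = η / 4 := by
    rw [hζ]; field_simp; ring
  have hζ1 : ζ ≤ 1 / 20 := by
    rw [hζ, div_le_iff₀ hD]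
    nlinarith [mul_nonneg (by linarith : (0 : ℝ) ≤ r) hl]
  have hP : Par (1 / 2 - ζ) ζ ζ := ⟨hζ0.le, le_rfl, le_rfl, by linarith, hζ1⟩
  obtain ⟨c1, hc1⟩ := ruleS_prob (ed := ed I s) (r := r) hrs.le hs1 (card_ed hO I)
  obtain ⟨c2, hc2⟩ := win_le (ed := ed I s) (r := r) (s := s) (ed_inj hO I hbi)
  refine ⟨1 / 2 - ζ, by linarith, fun q hq => ?_⟩
  have t1 := (lim_UDZ (3 * Fintype.card (Vx r s P Ln)) hζ0 hss).const_mul c1
  have t2 : Tendsto (fun n : ℕ => c2 * (n : ℝ) ^ (-(η / 4))) atTop (𝓝 (c2 * 0)) :=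
    ((tendsto_rpow_neg_atTop (by linarith : 0 < η / 4)).comp
      tendsto_natCast_atTop_atTop).const_mul c2
  have t3 := (t1.add t2).eventually (gt_mem_nhds (show c1 * 0 + c2 * 0 < q by simpa using hq))
  have t4 : Tendsto (fun n : ℕ => (n : ℝ) ^ ζ / (s : ℝ) ^ s) atTop atTop :=
    ((tendsto_rpow_atTop hζ0).comp tendsto_natCast_atTop_atTop).atTop_div_const hss
  filter_upwards [t3, t4.eventually_ge_atTop 2, eventually_ge_atTop 2, eventually_ge_atTop r]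
    with n h3 h4 hn2 hnr S T hT
  have hcard : Fintype.card (RSet n r) = n.choose r := by
    rw [Fintype.card_finset_len, Fintype.card_fin]
  haveI : Nonempty (RSet n r) := by
    rw [← Fintype.card_pos_iff, hcard]; exact Nat.choose_pos hnr
  haveI : Nonempty (Fin n) := ⟨⟨0, by omega⟩⟩
  have hn0 : (0 : ℝ) < n := by exact_mod_cast (by omega : 0 < n)
  have hn1 : (1 : ℝ) < n := by exact_mod_cast (by omega : 1 < n)
  have hT' : (T : ℝ) / Fintype.card (RSet n r) ≤ (n : ℝ) ^ (-(1 / 2 - ζ)) := by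
    rw [hcard]; exact hT
  have a1 := hc1 n (by omega) S T _ _ hT' h4
  have a2 := hc2 n S T ((n : ℝ) ^ (-(1 / 2 - ζ))) ((n : ℝ) ^ (-(η / 4)))
    (fun j => (n : ℝ) ^ ((1 / 2 - ζ) * j - η / 4))
    (RuleS (ed I s) ((n : ℝ) ^ ζ / (s : ℝ) ^ s) ((n : ℝ) ^ (-(1 / 2 - ζ)))) hT'
    (fun j => by positivity) (fun j => by
      rw [← Real.rpow_natCast, ← Real.rpow_mul hn0.le, ← Real.rpow_add hn0]
      exact le_of_eq (by congr 1; ring)) (fun h hh ps hv hall => by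
      have hC := calc_nu (ε := ζ) (δ := 1 / 2 - ζ) hn2 (by linarith)
        (le_of_eq (div_mul_cancel₀ _ hss.ne')) le_rfl hh
      obtain ⟨qs, l, e, hν⟩ := claim hO hP hC (stat_nu I hb (by linarith) hn2 h) hη0.le hη1
        ps hv hall
      refine ⟨qs, l, e, ?_⟩
      have b1 : ((XX (ed I s) l h).card : ℝ) ≤ cnt (XX (ed I s) l h) ∅ univ := by
        exact_mod_cast card_le_cnt _
      refine b1.trans ?_
      have b2 : (0 : ℝ) < cnt (XX (ed I s) l h) ∅ univ := by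
        exact_mod_cast one_le_cnt _ _ _
      rw [hζe, nu, div_le_iff₀ (Real.log_pos hn1)] at hν
      rw [Real.le_rpow_iff_log_le b2 hn0]
      refine hν.trans (le_of_eq ?_)
      ring)
  rw [mul_div_assoc] at a1
  linarith

end Pool.Agent.SemiRandom.Und
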