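import Pool.Agent.P.MP_c53d0e_pr.U1

set_option autoImplicit false
set_option linter.unusedSectionVars false

namespace Pool.Agent.SemiRandom.Und

open Finset

section reach
variable {α β : Type} [Fintype α] [Fintype β] [Nonempty α] [Nonempty β]

/-- Properties of histories that persist. -/
def Mono {X : Type} (A : List X → Prop) : Prop := ∀ h l, A h → A (h ++ l)

lemma Reach.ex {T : ℕ} {ι : Type} {A : ι → List (α × β) → Prop} {B : List (α × β) → Prop} {ε : ℝ}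
    (H : ∀ i, Reach T (A i) B ε) : Reach T (fun h => ∃ i, A i h) B ε :=
  fun h ⟨i, hi⟩ => H i h hi

lemma Reach.of_forall {T : ℕ} {A B : List (α × β) → Prop} {ε : ℝ}
    (H : ∀ h0, A h0 → Reach T (fun h => h = h0) B ε) : Reach T A B ε :=
  fun h hA => H h hA h rfl

lemma Reach.pre {T : ℕ} {A A' B : List (α × β) → Prop} {ε : ℝ} (H : Reach T A B ε)
    (h : ∀ l, A' l → A l) : Reach T A' B ε := fun l hl => H l (h l hl)

lemma Reach.imp {T : ℕ} {A B B' : List (α × β) → Prop} {ε : ℝ} (H : Reach T A B ε)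
    (h : ∀ l, B l → B' l) : Reach T A B' ε :=
  fun l hl => (H l hl).trans (Reach.post fun _ => h _)

/-- Frame rule: run a phase that needs no precondition, keep what persists. -/
lemma Reach.frame {T : ℕ} {A B C : List (α × β) → Prop} {ε : ℝ}
    (H : Reach T (fun _ => True) B ε) (hA : Mono A) (h : ∀ l, A l → B l → C l) :
    Reach T A C ε :=
  fun l hl => (H l trivial).trans (Reach.post fun l' hB => h _ (hA l l' hl) hB)

lemma Reach.refl (A : List (α × β) → Prop) : Reach 0 A A 0 := by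
  intro h hA
  simp [val, hA]

lemma Reach.finset {T : ℕ} {ι : Type} [DecidableEq ι] (I : Finset ι)
    (J : Finset ι → List (α × β) → Prop) {ε : ℝ} (hε : 0 ≤ ε)
    (H : ∀ D ⊆ I, ∀ a ∈ I, a ∉ D → Reach T (J D) (J (insert a D)) ε) :
    Reach (I.card * T) (J ∅) (J I) (I.card * ε) := by
  have key : ∀ D, D ⊆ I → Reach (D.card * T) (J ∅) (J D) (D.card * ε) := by
    intro D
    induction D using Finset.induction_on with
    | empty => intro _; simpa using Reach.refl (J ∅)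
    | insert a D ha ih =>
      intro hD
      have h1 := (ih ((subset_insert _ _).trans hD)).trans
        (H D ((subset_insert _ _).trans hD) a (hD (mem_insert_self _ _)) ha) hε
      rw [card_insert_of_notMem ha, add_mul, one_mul]
      push_cast
      rw [add_mul, one_mul]
      exact h1
  exact key I Subset.rfl

lemma Reach.strategy {T : ℕ} {B : List (α × β) → Prop} {ε : ℝ}
    (H : Reach T (fun _ => True) B ε) : ∃ S : Strategy α β, 1 - ε ≤ Pr S T B := by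
  obtain ⟨S, hS⟩ := exists_strategy T (fun h => ind (B h))
  exact ⟨S, (H [] trivial).trans hS.ge⟩

end reach

section pres
variable {V : Type} [DecidableEq V] {n m r s : ℕ}

/-- Vertex `v` takes its value in its own block. -/
def emb (κ : V × Fin m ↪ Fin n) (ψ : V → Fin m) : V ↪ Fin n :=
  ⟨fun v => κ (v, ψ v), fun _ _ h => (Prod.mk.inj (κ.injective h)).1⟩

/-- The edge `e` is present under the placement `ψ`. -/
def Pres (κ : V × Fin m ↪ Fin n) (h : List (RSet n r × Move n r s)) (e : Finset V)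
    (ψ : V → Fin m) : Prop := ∃ x ∈ h, edge x = (e.map (emb κ ψ)).val

lemma Pres.append {κ : V × Fin m ↪ Fin n} {h : List (RSet n r × Move n r s)} {e : Finset V}
    {ψ : V → Fin m} (H : Pres κ h e ψ) (l : List (RSet n r × Move n r s)) :
    Pres κ (h ++ l) e ψ := H.imp fun _ hx => ⟨List.mem_append_left _ hx.1, hx.2⟩

lemma map_emb_congr (κ : V × Fin m ↪ Fin n) {e : Finset V} {ψ ψ' : V → Fin m}
    (H : ∀ v ∈ e, ψ v = ψ' v) : e.map (emb κ ψ) = e.map (emb κ ψ') := by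
  ext y
  simp only [mem_map]
  exact exists_congr fun v => and_congr_right fun hv => by
    change κ (v, ψ v) = y ↔ κ (v, ψ' v) = y
    rw [H v hv]

lemma Pres.congr {κ : V × Fin m ↪ Fin n} {h : List (RSet n r × Move n r s)} {e : Finset V}
    {ψ ψ' : V → Fin m} (H : Pres κ h e ψ) (hψ : ∀ v ∈ e, ψ v = ψ' v) : Pres κ h e ψ' := by
  unfold Pres at *
  rwa [← map_emb_congr κ hψ]

lemma agree_of_map_eq (κ : V × Fin m ↪ Fin n) {u : Finset V} {ψ ψ' : V → Fin m}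
    (H : u.map (emb κ ψ) = u.map (emb κ ψ')) : ∀ v ∈ u, ψ v = ψ' v := by
  intro v hv
  have : emb κ ψ v ∈ u.map (emb κ ψ') := H ▸ mem_map_of_mem _ hv
  obtain ⟨v', -, h⟩ := mem_map.1 this
  obtain ⟨rfl, h2⟩ := Prod.mk.inj (κ.injective h)
  exact h2.symm

end pres

/-- Numeric side conditions of the strategy. -/
structure Num (r nl n m w f T : ℕ) (γ ε : ℝ) : Prop where
  hf : 2 ≤ f
  hw : 1 ≤ w
  m1 : 2 * f ^ 2 ≤ m
  m2 : 2 ^ (r + nl * 2 + 3) * w * w ≤ m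
  fw : f ≤ w
  g0 : 0 < γ
  g1 : γ * (2 * r) ≤ 1 / 2
  g2 : γ * (nl * (2 * r - 2 : ℕ)) ≤ 1 / 4
  e0 : 0 ≤ ε
  hT : 2 * (Fintype.card (RSet n r) : ℝ) ≤ ε * (γ * f * (T + 1))

section inv
open Function
variable {r s : ℕ} {P Ln : Type} [Fintype P] [DecidableEq P] [Fintype Ln] [DecidableEq Ln]
  {n m w : ℕ} (I : Inst (r + r) P Ln) (κ : Vx r s P Ln × Fin m ↪ Fin n)

/-- All edges of group `g` are present. -/
def PG (g : Gp r P Ln) (ψ : Vx r s P Ln → Fin m) (h : List (RSet n r × Move n r s)) : Prop :=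
  ∀ i : Fin g.M, Pres κ h (ed I s ⟨g, i⟩) ψ

def I2 (ψ : Vx r s P Ln → Fin m) (h : List (RSet n r × Move n r s)) : Prop :=
  PG I κ .Q ψ h ∧ ∀ i, PG I κ (.Y i) ψ h

def I3 (ψ : Vx r s P Ln → Fin m) (A : P → Finset (Fin m)) (h : List (RSet n r × Move n r s)) :
    Prop :=
  I2 I κ ψ h ∧ ∀ p, ∀ a ∈ A p, PG I κ (.U p) (update ψ (Vx.pt p) a) h

def Base (f : ℕ) (ψ : Vx r s P Ln → Fin m) (lab : P → Fin w → Fin m)
    (Zs : Px r Ln → Fin w → Finset (Fin m)) (h : List (RSet n r × Move n r s)) : Prop :=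
  I2 I κ ψ h ∧ (∀ p a, PG I κ (.U p) (update ψ (Vx.pt p) (lab p a)) h) ∧
    (∀ x a, f ≤ (Zs x a).card) ∧ (∀ x a a', a ≠ a' → Disjoint (Zs x a) (Zs x a')) ∧
    (∀ x a, ∀ b ∈ Zs x a,
      PG I κ (.En x) (update (update ψ (Vx.pt (I.par x)) (lab (I.par x) a)) (Vx.z x) b) h) ∧
    ∀ p, Injective (lab p)

def Lines (ψ : Vx r s P Ln → Fin m) (lab : P → Fin w → Fin m)
    (Zs : Px r Ln → Fin w → Finset (Fin m)) (S' : Finset (P → Fin w))
    (Ψ : (P → Fin w) → Vx r s P Ln → Fin m) (D : Finset Ln)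
    (h : List (RSet n r × Move n r s)) : Prop :=
  ∀ x ∈ S', (∀ j, Ψ x (Vx.c j) = ψ (Vx.c j)) ∧ (∀ i, Ψ x (Vx.y i) = ψ (Vx.y i)) ∧
    (∀ p, Ψ x (Vx.pt p) = lab p (x p)) ∧
    ∀ e ∈ D, (∀ l, Ψ x (Vx.z (Sum.inr (e, l))) ∈ Zs (Sum.inr (e, l)) (x (I.src e l))) ∧
      PG I κ (.L e) (Ψ x) h

def Tops (Zs : Px r Ln → Fin w → Finset (Fin m)) (S' : Finset (P → Fin w))
    (Ψ : (P → Fin w) → Vx r s P Ln → Fin m) (D : Finset (Fin r))
    (h : List (RSet n r × Move n r s)) : Prop :=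
  (∀ x ∈ S', ∀ b ∈ D, Ψ x (Vx.z (Sum.inl b)) ∈ Zs (Sum.inl b) (x (I.par (Sum.inl b))) ∧
    PG I κ (.W b) (Ψ x) h) ∧
  ∀ b ∈ D, ∀ x ∈ S', ∀ x' ∈ S', Ψ x (Vx.z (Sum.inl b)) = Ψ x' (Vx.z (Sum.inl b)) →
    x (I.par2 b) = x' (I.par2 b)

variable {I κ}

lemma PG.append {g : Gp r P Ln} {ψ : Vx r s P Ln → Fin m} {h : List (RSet n r × Move n r s)}
    (H : PG I κ g ψ h) (l : List (RSet n r × Move n r s)) : PG I κ g ψ (h ++ l) :=
  fun i => (H i).append l

lemma PG.congr {g : Gp r P Ln} {ψ ψ' : Vx r s P Ln → Fin m} {h : List (RSet n r × Move n r s)}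
    (H : PG I κ g ψ h) (hc : ∀ j, ψ (Vx.c j) = ψ' (Vx.c j)) (hN : ∀ v ∈ NN I s g, ψ v = ψ' v) :
    PG I κ g ψ' h := fun i => (H i).congr fun v hv => by
  rcases mem_union.1 (ed_subset I ⟨g, i⟩ hv) with h1 | h1
  · obtain ⟨j, rfl⟩ := (mem_CC v).1 h1
    exact hc j
  · exact hN v h1

lemma I2_mono (ψ : Vx r s P Ln → Fin m) : Mono (I2 (n := n) I κ ψ) :=
  fun _ l H => ⟨H.1.append l, fun i => (H.2 i).append l⟩

lemma I3_mono (ψ : Vx r s P Ln → Fin m) (A : P → Finset (Fin m)) : Mono (I3 (n := n) I κ ψ A) :=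
  fun h l H => ⟨I2_mono ψ h l H.1, fun p a ha => (H.2 p a ha).append l⟩

lemma Base_mono (f : ℕ) (ψ : Vx r s P Ln → Fin m) (lab : P → Fin w → Fin m)
    (Zs : Px r Ln → Fin w → Finset (Fin m)) : Mono (Base (n := n) I κ f ψ lab Zs) :=
  fun h l H => ⟨I2_mono ψ h l H.1, fun p a => (H.2.1 p a).append l, H.2.2.1, H.2.2.2.1,
    fun x a b hb => (H.2.2.2.2.1 x a b hb).append l, H.2.2.2.2.2⟩

lemma Lines_mono (ψ : Vx r s P Ln → Fin m) (lab : P → Fin w → Fin m)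
    (Zs : Px r Ln → Fin w → Finset (Fin m)) (S' : Finset (P → Fin w))
    (Ψ : (P → Fin w) → Vx r s P Ln → Fin m) (D : Finset Ln) :
    Mono (Lines (n := n) I κ ψ lab Zs S' Ψ D) :=
  fun _ l H x hx => ⟨(H x hx).1, (H x hx).2.1, (H x hx).2.2.1,
    fun e he => ⟨((H x hx).2.2.2 e he).1, ((H x hx).2.2.2 e he).2.append l⟩⟩

lemma Tops_mono (Zs : Px r Ln → Fin w → Finset (Fin m)) (S' : Finset (P → Fin w))
    (Ψ : (P → Fin w) → Vx r s P Ln → Fin m) (D : Finset (Fin r)) :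
    Mono (Tops (n := n) I κ Zs S' Ψ D) :=
  fun _ l H => ⟨fun x hx b hb => ⟨(H.1 x hx b hb).1, (H.1 x hx b hb).2.append l⟩, H.2⟩

end inv

end Pool.Agent.SemiRandom.Und
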