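import Pool.Agent.P.MP_c53d0e_pr.UE0

set_option autoImplicit false
set_option linter.unusedSectionVars false

namespace Pool.Agent.SemiRandom.Und

open Finset

variable {α β : Type} [Fintype α] [Fintype β] [Nonempty α] [Nonempty β]

lemma drift (Φ : List (α × β) → ℝ) (D : List (α × β) → Prop) (hD : Mono D) {y b : ℝ} (hb : 0 < b)
    (hy : ∀ h, Φ h ≤ y)
    (H : ∀ h, ¬ D h → ∃ σ : α → β, b * Fintype.card α ≤ ∑ U, (Φ (h ++ [(U, σ U)]) - Φ h))
    (T : ℕ) : ∀ h, 1 - (y - Φ h) / (b * (T + 1)) ≤ val T h (fun l => ind (D l)) := by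
  have hA : (0 : ℝ) < Fintype.card α := card_pos'
  have done : ∀ (T : ℕ) h, D h →
      1 - (y - Φ h) / (b * (T + 1)) ≤ val T h (fun l => ind (D l)) := by
    intro T h hh
    have h1 : 0 ≤ (y - Φ h) / (b * (T + 1)) := div_nonneg (sub_nonneg.2 (hy h)) (by positivity)
    refine le_trans (by linarith) ((val_const_le 1 T h).trans (val_mono T h _ _ fun l => ?_))
    rw [ind_pos (hD h l hh)]
  induction T with
  | zero =>
    intro h
    by_cases hh : D h
    · exact done 0 h hh
    obtain ⟨σ, hσ⟩ := H h hh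
    refine le_trans ?_ (val_nonneg _ _ _ fun _ => ind_nonneg _)
    have h1 : ∑ U, (Φ (h ++ [(U, σ U)]) - Φ h) ≤ ∑ _U : α, (y - Φ h) :=
      sum_le_sum fun U _ => sub_le_sub_right (hy _) _
    rw [sum_const, card_univ, nsmul_eq_mul, mul_comm] at h1
    have h2 : b ≤ y - Φ h := le_of_mul_le_mul_right (hσ.trans h1) hA
    rw [sub_nonpos, one_le_div (by positivity)]
    simp only [Nat.cast_zero, zero_add, mul_one]
    exact h2
  | succ T ih =>
    intro h
    by_cases hh : D h
    · exact done _ h hh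
    obtain ⟨σ, hσ⟩ := H h hh
    set j : ℝ := y - Φ h with hj
    have hDp : 0 < b * (T + 1) := by positivity
    by_cases hbig : b * ((T + 1 : ℕ) + 1) ≤ j
    · refine le_trans ?_ (val_nonneg _ _ _ fun _ => ind_nonneg _)
      rw [sub_nonpos, one_le_div (by positivity)]
      exact hbig
    simp only [val]
    have step : ∀ U, 1 - j / (b * (T + 1)) + (Φ (h ++ [(U, σ U)]) - Φ h) * (1 / (b * (T + 1))) ≤
        univ.sup' univ_nonempty fun V => val T (h ++ [(U, V)]) (fun l => ind (D l)) := by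
      intro U
      refine le_trans (le_trans (le_of_eq ?_) (ih (h ++ [(U, σ U)]))) (le_sup' (fun V =>
        val T (h ++ [(U, V)]) (fun l => ind (D l))) (mem_univ (σ U)))
      rw [hj]
      ring
    rw [le_div_iff₀ hA]
    refine le_trans ?_ (sum_le_sum fun U _ => step U)
    rw [sum_add_distrib, sum_const, card_univ, nsmul_eq_mul, ← sum_mul]
    have a := mul_le_mul_of_nonneg_right hσ (show 0 ≤ 1 / (b * (T + 1)) by positivity)
    have c : 1 - j / (b * ((T + 1 : ℕ) + 1)) ≤ 1 - j / (b * (T + 1)) + b * (1 / (b * (T + 1))) := by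
      push_cast at hbig ⊢
      have : (j - b) / (b * (T + 1)) ≤ j / (b * (T + 1 + 1)) := by
        rw [div_le_div_iff₀ hDp (by positivity)]
        nlinarith
      rw [sub_div] at this
      rw [mul_one_div]
      linarith
    nlinarith

lemma drift_reach (Φ : List (α × β) → ℝ) (D : List (α × β) → Prop) (hD : Mono D) {y b ε : ℝ}
    (hb : 0 < b) (h0 : ∀ h, 0 ≤ Φ h) (hy : ∀ h, Φ h ≤ y)
    (H : ∀ h, ¬ D h → ∃ σ : α → β, b * Fintype.card α ≤ ∑ U, (Φ (h ++ [(U, σ U)]) - Φ h))
    (T : ℕ) (hε : y ≤ ε * (b * (T + 1))) : Reach T (fun _ => True) D ε := by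
  intro h _
  have h1 := drift Φ D hD hb hy H T h
  have h2 : (y - Φ h) / (b * (T + 1)) ≤ ε := by
    rw [div_le_iff₀ (by positivity)]
    linarith [h0 h]
  exact le_trans (by linarith) h1

lemma hit_phase [DecidableEq α] [DecidableEq β] {ι : Type} (σ : α → β) (J : Finset ι)
    (Λ : ι → Finset α) (f q T : ℕ) (hf : 2 ≤ f) (hΛ : ∀ j ∈ J, f * q ≤ (Λ j).card) {γ ε : ℝ}
    (hγ : 0 < γ) (hT : 2 * (Fintype.card α : ℝ) ≤ ε * (γ * f * (T + 1))) :
    Reach T (fun _ => True) (fun h : List (α × β) => ∃ J' ⊆ J, (1 - γ) * J.card ≤ J'.card ∧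
      ∀ j ∈ J', q ≤ #{U ∈ Λ j | (U, σ U) ∈ h}) ε := by
  classical
  have hA : (0 : ℝ) < Fintype.card α := card_pos'
  have hf' : (2 : ℝ) ≤ f := by exact_mod_cast hf
  have hP : 0 < γ * f * (T + 1) := by positivity
  have hε : 0 ≤ ε := by
    by_contra hn
    have := mul_neg_of_neg_of_pos (not_le.1 hn) hP
    linarith
  have hJ0 : (0 : ℝ) ≤ J.card := Nat.cast_nonneg _
  by_cases h0 : q = 0 ∨ J = ∅
  · refine Reach.of_imp T hε fun h l _ => ⟨J, Subset.rfl, by nlinarith, fun j hj => ?_⟩
    rcases h0 with rfl | rfl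
    · exact Nat.zero_le _
    · exact absurd hj (notMem_empty j)
  obtain ⟨hq, hJ⟩ := not_or.1 h0
  have hq' : (0 : ℝ) < q := by exact_mod_cast Nat.pos_of_ne_zero hq
  have hJ' : (0 : ℝ) < J.card := by exact_mod_cast card_pos.2 (nonempty_iff_ne_empty.2 hJ)
  let N : ι → List (α × β) → ℕ := fun j h => #{U ∈ Λ j | (U, σ U) ∈ h}
  have hN : ∀ j h l, N j h ≤ N j (h ++ l) := fun j h l =>
    card_le_card (monotone_filter_right _ fun U _ hU => List.mem_append_left _ hU)
  refine drift_reach (fun h => ∑ j ∈ J, ((min q (N j h) : ℕ) : ℝ)) _ ?_ (y := J.card * q)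
    (b := γ * J.card * f * q / (2 * Fintype.card α)) (by positivity)
    (fun h => sum_nonneg fun j _ => Nat.cast_nonneg _) (fun h => ?_) (fun h hh => ⟨σ, ?_⟩) T ?_
  · rintro h l ⟨J', h1, h2, h3⟩
    exact ⟨J', h1, h2, fun j hj => (h3 j hj).trans (hN j h l)⟩
  · rw [← nsmul_eq_mul, ← sum_const]
    exact sum_le_sum fun j _ => by exact_mod_cast min_le_left _ _
  · have hc : (#{j ∈ J | q ≤ N j h} : ℝ) < (1 - γ) * J.card := by
      by_contra hn
      exact hh ⟨_, filter_subset _ _, not_lt.1 hn, fun j hj => (mem_filter.1 hj).2⟩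
    have hc2 : (#{j ∈ J | q ≤ N j h} : ℝ) + #{j ∈ J | ¬ q ≤ N j h} = J.card := by
      exact_mod_cast card_filter_add_card_filter_not (s := J) (fun j => q ≤ N j h)
    have key : ∀ j ∈ J, (if ¬ q ≤ N j h then (f * q / 2 : ℝ) else 0) ≤
        ∑ U, (((min q (N j (h ++ [(U, σ U)])) : ℕ) : ℝ) - ((min q (N j h) : ℕ) : ℝ)) := by
      intro j hj
      have hm : ∀ U, (0 : ℝ) ≤
          ((min q (N j (h ++ [(U, σ U)])) : ℕ) : ℝ) - ((min q (N j h) : ℕ) : ℝ) := fun U =>
        sub_nonneg.2 (by exact_mod_cast min_le_min_left q (hN j h _))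
      split_ifs with hu
      · exact sum_nonneg fun U _ => hm U
      · have hu' : N j h < q := not_le.1 hu
        have h1 : ∀ U ∈ (Λ j).filter (fun U => ¬ (U, σ U) ∈ h), (1 : ℝ) ≤
            ((min q (N j (h ++ [(U, σ U)])) : ℕ) : ℝ) - ((min q (N j h) : ℕ) : ℝ) := by
          intro U hU
          obtain ⟨hU1, hU2⟩ := mem_filter.1 hU
          have : N j h < N j (h ++ [(U, σ U)]) := by
            refine card_lt_card ⟨monotone_filter_right _ fun U _ hU => List.mem_append_left _ hU,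
              fun hs => hU2 ?_⟩
            exact (mem_filter.1 (hs (mem_filter.2 ⟨hU1, by simp⟩))).2
          have h2 : min q (N j h) + 1 ≤ min q (N j (h ++ [(U, σ U)])) := by omega
          have h3 : ((min q (N j h) : ℕ) : ℝ) + 1 ≤ ((min q (N j (h ++ [(U, σ U)])) : ℕ) : ℝ) := by
            exact_mod_cast h2
          linarith
        have h2 := card_nsmul_le_sum _ _ _ h1
        rw [nsmul_eq_mul, mul_one] at h2
        have h3 : (N j h : ℝ) + #((Λ j).filter (fun U => ¬ (U, σ U) ∈ h)) = (Λ j).card := by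
          exact_mod_cast card_filter_add_card_filter_not (s := Λ j) (fun U => (U, σ U) ∈ h)
        have h4 : (f * q : ℝ) ≤ (Λ j).card := by exact_mod_cast hΛ j hj
        have h5 : (N j h : ℝ) ≤ q := by exact_mod_cast hu'.le
        refine le_trans ?_ (h2.trans (sum_le_sum_of_subset_of_nonneg (subset_univ _)
          fun U _ _ => hm U))
        nlinarith
    have h6 := sum_le_sum key
    rw [← sum_filter, sum_const, nsmul_eq_mul, sum_comm] at h6
    simp only [← sum_sub_distrib]
    refine le_trans ?_ h6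
    have h7 : γ * J.card * f * q / (2 * Fintype.card α) * Fintype.card α =
        γ * J.card * (f * q / 2) := by field_simp
    rw [h7]
    exact mul_le_mul_of_nonneg_right (by linarith) (by positivity)
  · have h7 : ε * (γ * J.card * f * q / (2 * Fintype.card α) * (T + 1)) =
        J.card * q * (ε * (γ * f * (T + 1)) / (2 * Fintype.card α)) := by field_simp
    rw [h7]
    exact le_mul_of_one_le_right (by positivity) ((one_le_div (by positivity)).2 hT)

end Pool.Agent.SemiRandom.Und
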