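import Pool.Agent.P.MP_c53d0e_pr.UE1

set_option autoImplicit false
set_option linter.unusedSectionVars false

namespace Pool.Agent.SemiRandom.Und

open Finset

variable {α β : Type} [Fintype α] [Fintype β] [Nonempty α] [Nonempty β]

def Val_UE2 {ι κ : Type} [DecidableEq ι] (σ : α → β) (u : ι → κ → α) (f : ℕ)
    (h : List (α × β)) (G : Finset (ι × κ)) : Prop :=
  (∀ p ∈ G, (u p.1 p.2, σ (u p.1 p.2)) ∈ h) ∧ (∀ p ∈ G, ∀ q ∈ G, p.2 = q.2 → p = q) ∧
    ∀ x, #{p ∈ G | p.1 = x} ≤ f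

open Classical in
noncomputable def Mx_UE2 {ι κ : Type} [DecidableEq ι] (σ : α → β) (u : ι → κ → α) (f : ℕ)
    (S : Finset (ι × κ)) (h : List (α × β)) : ℕ :=
  (S.powerset.filter (Val_UE2 σ u f h)).sup card

lemma le_Mx_UE2 {ι κ : Type} [DecidableEq ι] {σ : α → β} {u : ι → κ → α} {f : ℕ}
    {S : Finset (ι × κ)} {h : List (α × β)} {G : Finset (ι × κ)} (hG : G ⊆ S)
    (hv : Val_UE2 σ u f h G) : G.card ≤ Mx_UE2 σ u f S h := by
  classical
  unfold Mx_UE2
  exact le_sup (f := card) (mem_filter.2 ⟨mem_powerset.2 hG, hv⟩)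

lemma ex_Mx_UE2 {ι κ : Type} [DecidableEq ι] (σ : α → β) (u : ι → κ → α) (f : ℕ)
    (S : Finset (ι × κ)) (h : List (α × β)) :
    ∃ G ⊆ S, Val_UE2 σ u f h G ∧ Mx_UE2 σ u f S h = G.card := by
  classical
  have hne : (S.powerset.filter (Val_UE2 σ u f h)).Nonempty :=
    ⟨∅, mem_filter.2 ⟨mem_powerset.2 (empty_subset _), by simp [Val_UE2]⟩⟩
  obtain ⟨G, hG, e⟩ := exists_mem_eq_sup _ hne card
  refine ⟨G, mem_powerset.1 (mem_filter.1 hG).1, (mem_filter.1 hG).2, ?_⟩
  unfold Mx_UE2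
  convert e

lemma Val_append_UE2 {ι κ : Type} [DecidableEq ι] {σ : α → β} {u : ι → κ → α} {f : ℕ}
    {h : List (α × β)} {G : Finset (ι × κ)} (hv : Val_UE2 σ u f h G) (l : List (α × β)) :
    Val_UE2 σ u f (h ++ l) G :=
  ⟨fun p hp => List.mem_append_left _ (hv.1 p hp), hv.2⟩

lemma match_phase {ι κ : Type} [DecidableEq ι] [DecidableEq κ] (σ : α → β) (A : Finset ι)
    (Z : Finset κ) (u : ι → κ → α)
    (hu : ∀ x ∈ A, ∀ x' ∈ A, ∀ z ∈ Z, ∀ z' ∈ Z, u x z = u x' z' → x = x' ∧ z = z')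
    (a f T : ℕ) (hf : 1 ≤ f) (hA : 2 * a ≤ A.card) (hZ1 : 4 * a * f ≤ Z.card)
    (hZ2 : 2 * f ^ 2 ≤ Z.card) {ε : ℝ}
    (hT : 2 * (Fintype.card α : ℝ) ≤ ε * (f * (T + 1))) :
    Reach T (fun _ => True) (fun h : List (α × β) => ∃ A' ⊆ A, a ≤ A'.card ∧
      ∃ Zs : ι → Finset κ, (∀ x ∈ A', f ≤ (Zs x).card ∧ ∀ z ∈ Zs x, z ∈ Z ∧ (u x z, σ (u x z)) ∈ h) ∧
        ∀ x ∈ A', ∀ x' ∈ A', x ≠ x' → Disjoint (Zs x) (Zs x')) ε := by
  classical
  have hc : (0 : ℝ) < Fintype.card α := card_pos'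
  have hf0 : (0 : ℝ) < f := by exact_mod_cast hf
  have hε : 0 ≤ ε := by
    by_contra hneg
    have h1 : ε * (f * (T + 1)) ≤ 0 :=
      mul_nonpos_of_nonpos_of_nonneg (le_of_lt (not_le.1 hneg)) (by positivity)
    linarith
  rcases Nat.eq_zero_or_pos a with rfl | ha
  · exact Reach.of_imp T hε fun h l _ => ⟨∅, empty_subset _, le_rfl, fun _ => ∅, by simp, by simp⟩
  obtain ⟨A0, hA0, hcard⟩ := exists_subset_card_eq hA
  have ha0 : (0 : ℝ) < a := by exact_mod_cast ha
  have hZ0 : (0 : ℝ) < Z.card := by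
    have : 0 < Z.card := lt_of_lt_of_le (by positivity) hZ2
    exact_mod_cast this
  have bound : ∀ h (G : Finset (ι × κ)), G ⊆ A0 ×ˢ Z → Val_UE2 σ u f h G → G.card ≤ 2 * a * f := by
    intro h G hG hv
    have := card_le_mul_card_image_of_maps_to (s := G) (t := A0) (f := Prod.fst)
      (fun p hp => (mem_product.1 (hG hp)).1) f (fun x _ => hv.2.2 x)
    rw [hcard] at this
    linarith [mul_comm f (2 * a)]
  refine drift_reach (fun h => (Mx_UE2 σ u f (A0 ×ˢ Z) h : ℝ)) _ ?_ (y := (2 * a * f : ℕ))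
    (b := a * Z.card / (2 * Fintype.card α)) (by positivity) (fun h => by positivity) ?_ ?_ T ?_
  · rintro h l ⟨A', h1, h2, Zs, h3, h4⟩
    exact ⟨A', h1, h2, Zs, fun x hx => ⟨(h3 x hx).1, fun z hz =>
      ⟨((h3 x hx).2 z hz).1, List.mem_append_left _ ((h3 x hx).2 z hz).2⟩⟩, h4⟩
  · intro h
    obtain ⟨G, hG, hv, e⟩ := ex_Mx_UE2 σ u f (A0 ×ˢ Z) h
    have := bound h G hG hv
    rw [← e] at this
    exact_mod_cast this
  · intro h hD
    refine ⟨σ, ?_⟩
    obtain ⟨G, hG, hv, e⟩ := ex_Mx_UE2 σ u f (A0 ×ˢ Z) h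
    have hGb := bound h G hG hv
    set Full := A0.filter (fun x => f ≤ #{p ∈ G | p.1 = x}) with hFull
    have hlt : Full.card < a := by
      by_contra hge
      apply hD
      refine ⟨Full, (filter_subset _ _).trans hA0, not_lt.1 hge,
        fun x => (G.filter (fun p => p.1 = x)).image Prod.snd, fun x hx => ⟨?_, ?_⟩, ?_⟩
      · rw [card_image_of_injOn fun p hp q hq hpq =>
          hv.2.1 p (mem_filter.1 hp).1 q (mem_filter.1 hq).1 hpq]
        exact (mem_filter.1 hx).2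
      · intro z hz
        obtain ⟨p, hp, rfl⟩ := mem_image.1 hz
        obtain ⟨hp1, rfl⟩ := mem_filter.1 hp
        exact ⟨(mem_product.1 (hG hp1)).2, hv.1 p hp1⟩
      · intro x _ x' _ hne
        rw [disjoint_left]
        intro z hz hz'
        obtain ⟨p, hp, rfl⟩ := mem_image.1 hz
        obtain ⟨q, hq, hqp⟩ := mem_image.1 hz'
        have := hv.2.1 q (mem_filter.1 hq).1 p (mem_filter.1 hp).1 hqp
        subst this
        exact hne ((mem_filter.1 hp).2.symm.trans (mem_filter.1 hq).2)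
    set NF := A0 \ Full with hNF
    set Fr := Z \ G.image Prod.snd with hFr
    have c1 : a ≤ NF.card := by
      have : A0.card - Full.card ≤ NF.card := le_card_sdiff Full A0
      omega
    have c2 : Z.card ≤ 2 * Fr.card := by
      have h1 : Z.card - (G.image Prod.snd).card ≤ Fr.card := le_card_sdiff (G.image Prod.snd) Z
      have h2 : (G.image Prod.snd).card ≤ G.card := card_image_le
      have h3 : 4 * a * f = 2 * (2 * a * f) := by ring
      omega
    set W := (NF ×ˢ Fr).image (fun p => u p.1 p.2) with hW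
    have c3 : W.card = NF.card * Fr.card := by
      rw [hW, card_image_of_injOn, card_product]
      intro p hp q hq hpq
      have hp' := mem_product.1 (mem_coe.1 hp)
      have hq' := mem_product.1 (mem_coe.1 hq)
      have := hu p.1 (hA0 (mem_sdiff.1 hp'.1).1) q.1 (hA0 (mem_sdiff.1 hq'.1).1) p.2
        (mem_sdiff.1 hp'.2).1 q.2 (mem_sdiff.1 hq'.2).1 hpq
      exact Prod.ext this.1 this.2
    have step : ∀ U, (if U ∈ W then (1 : ℝ) else 0) ≤
        (Mx_UE2 σ u f (A0 ×ˢ Z) (h ++ [(U, σ U)]) : ℝ) - Mx_UE2 σ u f (A0 ×ˢ Z) h := by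
      intro U
      split_ifs with hU
      · obtain ⟨p, hp, rfl⟩ := mem_image.1 hU
        obtain ⟨hp1, hp2⟩ := mem_product.1 hp
        obtain ⟨hp1a, hp1b⟩ := mem_sdiff.1 hp1
        obtain ⟨hp2a, hp2b⟩ := mem_sdiff.1 hp2
        have hnf : #{q ∈ G | q.1 = p.1} < f := by
          by_contra hge
          exact hp1b (mem_filter.2 ⟨hp1a, not_lt.1 hge⟩)
        have hns : ∀ q ∈ G, q.2 ≠ p.2 := fun q hq hqp => hp2b (mem_image.2 ⟨q, hq, hqp⟩)
        have hpG : p ∉ G := fun hh => hns p hh rfl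
        have hv' : Val_UE2 σ u f (h ++ [(u p.1 p.2, σ (u p.1 p.2))]) (insert p G) := by
          refine ⟨fun q hq => ?_, fun q hq q' hq' hqq => ?_, fun x => ?_⟩
          · rcases mem_insert.1 hq with rfl | hq
            · simp
            · exact List.mem_append_left _ (hv.1 q hq)
          · rcases mem_insert.1 hq with hq | hq <;> rcases mem_insert.1 hq' with hq' | hq'
            · rw [hq, hq']
            · exact absurd (hq ▸ hqq.symm) (hns q' hq')
            · exact absurd (hq' ▸ hqq) (hns q hq)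
            · exact hv.2.1 q hq q' hq' hqq
          · rw [filter_insert]
            split_ifs with hx
            · subst hx
              exact (card_insert_le _ _).trans hnf
            · exact hv.2.2 x
        have := le_Mx_UE2 (S := A0 ×ˢ Z) (insert_subset (mem_product.2 ⟨hp1a, hp2a⟩) hG) hv'
        rw [card_insert_of_notMem hpG, ← e] at this
        have h2 : ((Mx_UE2 σ u f (A0 ×ˢ Z) h + 1 : ℕ) : ℝ) ≤
            Mx_UE2 σ u f (A0 ×ˢ Z) (h ++ [(u p.1 p.2, σ (u p.1 p.2))]) := by exact_mod_cast this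
        push_cast at h2
        linarith
      · have := le_Mx_UE2 (S := A0 ×ˢ Z) hG (Val_append_UE2 hv [(U, σ U)])
        rw [← e] at this
        have h2 : (Mx_UE2 σ u f (A0 ×ˢ Z) h : ℝ) ≤
            Mx_UE2 σ u f (A0 ×ˢ Z) (h ++ [(U, σ U)]) := by exact_mod_cast this
        linarith
    refine le_trans ?_ (sum_le_sum fun U _ => step U)
    rw [← sum_filter, sum_const, nsmul_eq_mul, mul_one, filter_mem_eq_inter, univ_inter, c3]
    have e2 : a * Z.card / (2 * (Fintype.card α : ℝ)) * Fintype.card α = a * Z.card / 2 := by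
      field_simp
    rw [e2]
    have d1 : (a : ℝ) ≤ NF.card := by exact_mod_cast c1
    have d2 : (Z.card : ℝ) ≤ 2 * Fr.card := by exact_mod_cast c2
    push_cast
    have d3 : (0 : ℝ) ≤ Fr.card := by positivity
    nlinarith
  · have d1 : (2 * f ^ 2 : ℝ) ≤ Z.card := by exact_mod_cast hZ2
    have e2 : ε * (a * Z.card / (2 * (Fintype.card α : ℝ)) * (T + 1)) =
        a * (Z.card * (ε * (T + 1))) / (2 * Fintype.card α) := by ring
    rw [e2, le_div_iff₀ (by positivity)]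
    push_cast
    have d2 : 0 ≤ ε * (T + 1) := by positivity
    have d3 : 2 * f ^ 2 * (ε * (T + 1)) ≤ Z.card * (ε * (T + 1)) :=
      mul_le_mul_of_nonneg_right d1 d2
    have d4 : 2 * f * (2 * (Fintype.card α : ℝ)) ≤ 2 * f * (ε * (f * (T + 1))) :=
      mul_le_mul_of_nonneg_left hT (by positivity)
    have d5 : 2 * f * (2 * (Fintype.card α : ℝ)) ≤ Z.card * (ε * (T + 1)) := by nlinarith
    have := mul_le_mul_of_nonneg_left d5 ha0.le
    nlinarith

end Pool.Agent.SemiRandom.Und
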