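import Pool.Agent.P.MP_c53d0e_pr.UE2

set_option autoImplicit false
set_option linter.unusedSectionVars false

namespace Pool.Agent.SemiRandom.Und

open Finset

open Function

variable {V : Type} [Fintype V] [DecidableEq V] {n m r s : ℕ} [Nonempty (RSet n r)]
  [Nonempty (Move n r s)]

/-- An answer rule that completes `e` for every placement of a family in which the values on
`u` determine the values on `e`. -/
lemma exists_answer (κ : V × Fin m ↪ Fin n) {e u : Finset V} (he : e.card = s) (hu : u ⊆ e)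
    (hur : u.card = r) (F : Set (V → Fin m))
    (hFD : ∀ ψ ∈ F, ∀ ψ' ∈ F, (∀ v ∈ u, ψ v = ψ' v) → ∀ v ∈ e, ψ v = ψ' v) :
    ∃ (σ : RSet n r → Move n r s) (U : (V → Fin m) → RSet n r),
      (∀ ψ, (U ψ).1 = u.map (emb κ ψ)) ∧
      ∀ ψ ∈ F, edge (U ψ, σ (U ψ)) = (e.map (emb κ ψ)).val := by
  classical
  let U : (V → Fin m) → RSet n r := fun ψ => ⟨u.map (emb κ ψ), by rw [card_map, hur]⟩
  let W : (V → Fin m) → Move n r s := fun ψ => ⟨((e \ u).map (emb κ ψ)).val, by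
    rw [← Finset.card_def, card_map, card_sdiff_of_subset hu, he, hur]⟩
  refine ⟨fun X => if h : ∃ ψ ∈ F, U ψ = X then W h.choose else Classical.arbitrary _, U,
    fun _ => rfl, fun ψ hψ => ?_⟩
  have hex : ∃ ψ' ∈ F, U ψ' = U ψ := ⟨ψ, hψ, rfl⟩
  obtain ⟨h1, h2⟩ := hex.choose_spec
  have h3 := hFD _ h1 _ hψ (agree_of_map_eq κ (congrArg Subtype.val h2))
  have h4 : (e \ u).map (emb κ hex.choose) = (e \ u).map (emb κ ψ) :=
    map_emb_congr κ fun v hv => h3 v (mem_sdiff.1 hv).1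
  change (u.map (emb κ ψ)).val + (dite _ _ _ : Move n r s).1 = _
  rw [dif_pos hex]
  change (u.map (emb κ ψ)).val + ((e \ u).map (emb κ hex.choose)).val = _
  rw [h4, map_val, map_val, map_val, ← Multiset.map_add, sdiff_val,
    add_tsub_cancel_of_le (val_le_iff.2 hu)]

open Classical in
lemma one_hit (κ : V × Fin m ↪ Fin n) (hrs : r ≤ s) {e K : Finset V} (he : e.card = s)
    (hK : K ⊆ e) (hKr : K.card ≤ r) {ι : Type} (J : Finset ι) (F : ι → Finset (V → Fin m))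
    (hFD : ∀ j ∈ J, ∀ j' ∈ J, ∀ ψ ∈ F j, ∀ ψ' ∈ F j', (∀ v ∈ K, ψ v = ψ' v) → ∀ v ∈ e, ψ v = ψ' v)
    (hinj : ∀ j ∈ J, ∀ ψ ∈ F j, ∀ ψ' ∈ F j, (∀ v ∈ K, ψ v = ψ' v) → ψ = ψ')
    (f q T : ℕ) (hf : 2 ≤ f) (hF : ∀ j ∈ J, f * q ≤ (F j).card) {γ ε : ℝ} (hγ : 0 < γ)
    (hT : 2 * (Fintype.card (RSet n r) : ℝ) ≤ ε * (γ * f * (T + 1))) :
    Reach T (fun _ => True) (fun h : List (RSet n r × Move n r s) =>
      ∃ J' ⊆ J, (1 - γ) * J.card ≤ J'.card ∧ ∀ j ∈ J', q ≤ #{ψ ∈ F j | Pres κ h e ψ}) ε := by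
  obtain ⟨u, hKu, hue, hur⟩ := exists_subsuperset_card_eq hK hKr (he ▸ hrs)
  obtain ⟨σ, U, hU, hσ⟩ := exists_answer (n := n) κ he hue hur {ψ | ∃ j ∈ J, ψ ∈ F j} (by
    rintro ψ ⟨j, hj, h1⟩ ψ' ⟨j', hj', h2⟩ h3
    exact hFD j hj j' hj' ψ h1 ψ' h2 fun v hv => h3 v (hKu hv))
  refine Reach.imp (hit_phase σ J (fun j => (F j).image U) f q T hf (fun j hj => ?_) hγ hT) ?_
  · rw [card_image_of_injOn]
    · exact hF j hj
    · intro ψ h1 ψ' h2 h3
      have h4 : u.map (emb κ ψ) = u.map (emb κ ψ') := by rw [← hU, ← hU, h3]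
      exact hinj j hj ψ h1 ψ' h2 fun v hv => agree_of_map_eq κ h4 v (hKu hv)
  · rintro h ⟨J', h1, h2, h3⟩
    refine ⟨J', h1, h2, fun j hj => (h3 j hj).trans (le_trans (card_le_card ?_)
      (card_image_le (f := U)))⟩
    intro X hX
    simp only [mem_filter] at hX
    obtain ⟨h4, h5⟩ := hX
    obtain ⟨ψ, h6, rfl⟩ := mem_image.1 h4
    exact mem_image_of_mem _ (mem_filter.2 ⟨h6, _, h5, hσ ψ ⟨j, h1 hj, h6⟩⟩)

lemma one_match (κ : V × Fin m ↪ Fin n) (hr : 2 ≤ r) (hrs : r ≤ s) {e : Finset V} (he : e.card = s)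
    {p z : V} (hp : p ∈ e) (hz : z ∈ e) (hpz : p ≠ z) (ψ : V → Fin m) (A : Finset (Fin m))
    (a f T : ℕ) (hf : 1 ≤ f) (hA : 2 * a ≤ A.card) (h1 : 4 * a * f ≤ m) (h2 : 2 * f ^ 2 ≤ m) {ε : ℝ}
    (hT : 2 * (Fintype.card (RSet n r) : ℝ) ≤ ε * (f * (T + 1))) :
    Reach T (fun _ => True) (fun h : List (RSet n r × Move n r s) => ∃ A' ⊆ A, a ≤ A'.card ∧
      ∃ Zs : Fin m → Finset (Fin m),
        (∀ x ∈ A', f ≤ (Zs x).card ∧ ∀ b ∈ Zs x, Pres κ h e (update (update ψ p x) z b)) ∧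
        ∀ x ∈ A', ∀ x' ∈ A', x ≠ x' → Disjoint (Zs x) (Zs x')) ε := by
  have hK : ({p, z} : Finset V) ⊆ e := insert_subset hp (singleton_subset_iff.2 hz)
  obtain ⟨u, hKu, hue, hur⟩ := exists_subsuperset_card_eq hK
    (by rw [card_pair hpz]; exact hr) (he ▸ hrs)
  have hpu : p ∈ u := hKu (mem_insert_self _ _)
  have hzu : z ∈ u := hKu (mem_insert_of_mem (mem_singleton_self _))
  have key : ∀ x b x' b' : Fin m, (∀ v ∈ u, update (update ψ p x) z b v =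
      update (update ψ p x') z b' v) → x = x' ∧ b = b' := fun x b x' b' h => by
    have h1 := h p hpu
    have h2 := h z hzu
    rw [update_of_ne hpz, update_of_ne hpz, update_self, update_self] at h1
    rw [update_self, update_self] at h2
    exact ⟨h1, h2⟩
  obtain ⟨σ, U, hU, hσ⟩ := exists_answer (n := n) κ he hue hur
    {φ | ∃ x b, φ = update (update ψ p x) z b} (by
      rintro _ ⟨x, b, rfl⟩ _ ⟨x', b', rfl⟩ h3
      obtain ⟨rfl, rfl⟩ := key x b x' b' h3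
      exact fun _ _ => rfl)
  refine Reach.imp (match_phase σ A univ (fun x b => U (update (update ψ p x) z b))
    (fun x _ x' _ b _ b' _ h => key x b x' b' (agree_of_map_eq κ ?_)) a f T hf hA
    (by rwa [card_univ, Fintype.card_fin]) (by rwa [card_univ, Fintype.card_fin]) hT) ?_
  · rw [← hU, ← hU, h]
  · rintro h ⟨A', h3, h4, Zs, h5, h6⟩
    exact ⟨A', h3, h4, Zs, fun x hx => ⟨(h5 x hx).1, fun b hb =>
      ⟨_, ((h5 x hx).2 b hb).2, hσ _ ⟨x, b, rfl⟩⟩⟩, h6⟩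

end Pool.Agent.SemiRandom.Und
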