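import Pool.Agent.P.MP_c53d0e_pr.UE3

set_option autoImplicit false
set_option linter.unusedSectionVars false

namespace Pool.Agent.SemiRandom.Und

open Finset

variable {V : Type} [Fintype V] [DecidableEq V] {n m r s : ℕ} [Nonempty (RSet n r)]
  [Nonempty (Move n r s)]

open Classical in
lemma multi_hit (κ : V × Fin m ↪ Fin n) (hrs : r ≤ s) {E : Type} (Es : Finset E)
    (ed key : E → Finset V) (he : ∀ e ∈ Es, (ed e).card = s ∧ key e ⊆ ed e ∧ (key e).card ≤ r)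
    {ι : Type} (J : Finset ι) (F : ι → Finset (V → Fin m))
    (hFD : ∀ e ∈ Es, ∀ j ∈ J, ∀ j' ∈ J, ∀ ψ ∈ F j, ∀ ψ' ∈ F j',
      (∀ v ∈ key e, ψ v = ψ' v) → ∀ v ∈ ed e, ψ v = ψ' v)
    (hinj : ∀ e ∈ Es, ∀ j ∈ J, ∀ ψ ∈ F j, ∀ ψ' ∈ F j, (∀ v ∈ key e, ψ v = ψ' v) → ψ = ψ')
    (f q T : ℕ) (hf : 2 ≤ f) (hF : ∀ j ∈ J, f ^ Es.card * q ≤ (F j).card) {γ ε : ℝ} (hγ : 0 < γ)
    (hT : 2 * (Fintype.card (RSet n r) : ℝ) ≤ ε * (γ * f * (T + 1))) :
    Reach (Es.card * T) (fun _ => True) (fun h : List (RSet n r × Move n r s) =>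
      ∃ J' ⊆ J, (1 - Es.card * γ) * J.card ≤ J'.card ∧
        ∀ j ∈ J', ∃ F' ⊆ F j, q ≤ F'.card ∧ ∀ ψ ∈ F', ∀ e ∈ Es, Pres κ h (ed e) ψ)
      (Es.card * ε) := by
  have hε : 0 ≤ ε := by
    by_contra hn
    have h1 : (0 : ℝ) < Fintype.card (RSet n r) := by exact_mod_cast Fintype.card_pos
    have h2 : (0 : ℝ) ≤ γ * f * (T + 1) := by positivity
    nlinarith [mul_nonneg (neg_nonneg.2 (not_le.1 hn).le) h2]
  have key1 := Reach.finset (T := T) Es (fun D (h : List (RSet n r × Move n r s)) =>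
      ∃ J' ⊆ J, (1 - D.card * γ) * J.card ≤ J'.card ∧
        ∀ j ∈ J', ∃ F' ⊆ F j, f ^ (Es.card - D.card) * q ≤ F'.card ∧
          ∀ ψ ∈ F', ∀ e ∈ D, Pres κ h (ed e) ψ) hε ?_
  · refine Reach.imp (Reach.pre key1 fun l _ => ⟨J, Subset.rfl, by simp, fun j hj =>
      ⟨F j, Subset.rfl, by simpa using hF j hj, by simp⟩⟩) ?_
    rintro l ⟨J', hJ', hc, H⟩
    exact ⟨J', hJ', hc, fun j hj => by simpa using H j hj⟩
  · intro D hD a ha haD h hh
    obtain ⟨J', hJ', hc, H⟩ := hh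
    choose! F' hF' hcard hP using H
    have hlt : D.card + 1 ≤ Es.card := by
      rw [← card_insert_of_notMem haD]
      exact card_le_card (insert_subset ha hD)
    have H1 := one_hit κ hrs (he a ha).1 (he a ha).2.1 (he a ha).2.2 J' F'
      (fun j hj j' hj' ψ hψ ψ' hψ' =>
        hFD a ha j (hJ' hj) j' (hJ' hj') ψ (hF' j hj hψ) ψ' (hF' j' hj' hψ'))
      (fun j hj ψ hψ ψ' hψ' => hinj a ha j (hJ' hj) ψ (hF' j hj hψ) ψ' (hF' j hj hψ'))
      f (f ^ (Es.card - (D.card + 1)) * q) T hf (fun j hj => by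
        refine le_trans (le_of_eq ?_) (hcard j hj)
        have : Es.card - D.card = Es.card - (D.card + 1) + 1 := by omega
        rw [this, pow_succ]; ring) hγ hT
    refine Reach.frame (A := fun l => ∀ j ∈ J', ∀ ψ ∈ F' j, ∀ e ∈ D, Pres κ l (ed e) ψ) H1
      (fun l l' hl j hj ψ hψ e he => (hl j hj ψ hψ e he).append l') ?_ h hP
    rintro l hl ⟨J'', hJ'', hc', H'⟩
    refine ⟨J'', hJ''.trans hJ', ?_, fun j hj => ⟨{ψ ∈ F' j | Pres κ l (ed a) ψ},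
      (filter_subset _ _).trans (hF' j (hJ'' hj)), ?_, fun ψ hψ e he => ?_⟩⟩
    · rw [card_insert_of_notMem haD]
      have h1 : (J'.card : ℝ) ≤ J.card := by exact_mod_cast card_le_card hJ'
      have h2 := mul_le_mul_of_nonneg_left h1 hγ.le
      push_cast
      linarith
    · rw [card_insert_of_notMem haD]
      exact H' j hj
    · obtain ⟨h1, h2⟩ := mem_filter.1 hψ
      rcases mem_insert.1 he with rfl | he
      · exact h2
      · exact hl j (hJ'' hj) ψ h1 e he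

/-- One family. -/
lemma multi_hit_one (κ : V × Fin m ↪ Fin n) (hrs : r ≤ s) {E : Type} (Es : Finset E)
    (ed key : E → Finset V) (he : ∀ e ∈ Es, (ed e).card = s ∧ key e ⊆ ed e ∧ (key e).card ≤ r)
    (F : Finset (V → Fin m))
    (hinj : ∀ e ∈ Es, ∀ ψ ∈ F, ∀ ψ' ∈ F, (∀ v ∈ key e, ψ v = ψ' v) → ψ = ψ')
    (f q T : ℕ) (hf : 2 ≤ f) (hF : f ^ Es.card * q ≤ F.card) {γ ε : ℝ} (hγ : 0 < γ)
    (hγ1 : Es.card * γ < 1)
    (hT : 2 * (Fintype.card (RSet n r) : ℝ) ≤ ε * (γ * f * (T + 1))) :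
    Reach (Es.card * T) (fun _ => True) (fun h : List (RSet n r × Move n r s) =>
      ∃ F' ⊆ F, q ≤ F'.card ∧ ∀ ψ ∈ F', ∀ e ∈ Es, Pres κ h (ed e) ψ) (Es.card * ε) := by
  refine Reach.imp (multi_hit κ hrs Es ed key he (univ : Finset Unit) (fun _ => F)
    (fun e he _ _ _ _ ψ hψ ψ' hψ' H v _ => by rw [hinj e he ψ hψ ψ' hψ' H])
    (fun e he _ _ => hinj e he) f q T hf (fun _ _ => hF) hγ hT) ?_
  rintro l ⟨J', -, hc, H⟩
  have h1 : (0 : ℝ) < J'.card := by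
    refine lt_of_lt_of_le ?_ hc
    simp only [card_univ, Fintype.card_unit, Nat.cast_one, mul_one]
    linarith
  obtain ⟨j, hj⟩ := card_pos.1 (by exact_mod_cast h1 : 0 < J'.card)
  exact H j hj

end Pool.Agent.SemiRandom.Und
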