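import Pool.Agent.P.MP_c53d0e_pr.UE4

set_option autoImplicit false
set_option linter.unusedSectionVars false

namespace Pool.Agent.SemiRandom.Und

open Finset

variable {r s : ℕ} {P Ln : Type} [Fintype P] [DecidableEq P] [Fintype Ln] [DecidableEq Ln]
  {n m w f T : ℕ} {γ ε : ℝ} [Nonempty (RSet n r)] [Nonempty (Move n r s)]

lemma exK_UE5 (hO : Ok r s P Ln) : ∃ K : Finset (Vx r s P Ln), K.card = r ∧
    (∀ j : Fin (s + 1), (j : ℕ) < 2 → Vx.c j ∈ K) ∧
    ∀ v ∈ K, ∃ j : Fin (s + 1), v = Vx.c j ∧ (j : ℕ) < s ∧ ((j : ℕ) < 2 ∨ 2 * r + 2 ≤ (j : ℕ)) := by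
  have h8 := hO.hr
  have hs : 5 * r ≤ s + 1 := by have := hO.hs; omega
  let g : Fin r → Vx r s P Ln := fun b =>
    Vx.c ⟨if (b : ℕ) < 2 then b else b + 2 * r, by have := b.2; split_ifs <;> omega⟩
  have hg : Function.Injective g := by
    intro a b hab
    simp only [g, Vx.c.injEq, Fin.mk.injEq] at hab
    apply Fin.ext
    split_ifs at hab <;> omega
  refine ⟨univ.image g, by rw [card_image_of_injective _ hg]; simp, ?_, ?_⟩
  · intro j hj
    refine mem_image.2 ⟨⟨j, by omega⟩, mem_univ _, ?_⟩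
    simp only [g, Vx.c.injEq]
    apply Fin.ext
    simp [hj]
  · intro v hv
    obtain ⟨b, -, rfl⟩ := mem_image.1 hv
    refine ⟨_, rfl, ?_, ?_⟩
    · have := b.2
      dsimp only
      split_ifs <;> omega
    · dsimp only
      split_ifs <;> omega

lemma pow_UE5 {r m f : ℕ} (hr : 1 ≤ r) (hm : 2 * f ^ 2 ≤ m) : 2 * f ^ (2 * r) ≤ m ^ r := by
  calc 2 * f ^ (2 * r) ≤ 2 ^ r * f ^ (2 * r) := by
        gcongr
        calc 2 = 2 ^ 1 := rfl
          _ ≤ 2 ^ r := Nat.pow_le_pow_right (by norm_num) hr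
    _ = (2 * f ^ 2) ^ r := by rw [mul_pow, ← pow_mul]
    _ ≤ m ^ r := Nat.pow_le_pow_left hm r

theorem stage_Q (hO : Ok r s P Ln) (I : Inst (r + r) P Ln) (κ : Vx r s P Ln × Fin m ↪ Fin n)
    (hN : Num r (Fintype.card Ln) n m w f T γ ε) :
    Reach ((2 * r + 2) * T) (fun _ => True) (fun h => ∃ ψ, PG I κ .Q ψ h)
      ((2 * r + 2 : ℕ) * ε) := by
  classical
  have h8 := hO.hr
  have hrs : r < s := hO.lt
  obtain ⟨K, hKc, hK2, hK⟩ := exK_UE5 (P := P) hO
  have hf := hN.hf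
  have hm0 : 0 < m := lt_of_lt_of_le (by positivity) hN.m1
  let z0 : Fin m := ⟨0, hm0⟩
  let cs : Vx r s P Ln := Vx.c (Fin.last s)
  have hcs : cs ∉ K := by
    intro h
    obtain ⟨j, hj, hlt, -⟩ := hK _ h
    simp only [cs, Vx.c.injEq] at hj
    rw [← hj] at hlt
    simp at hlt
  let eq : Fin (2 * r + 2) → Finset (Vx r s P Ln) := fun i => ed I s ⟨.Q, i⟩
  have hmem : ∀ (i : Fin (2 * r + 2)) (j : Fin (s + 1)), Vx.c j ∈ eq i ↔ (j : ℕ) ≠ i := by
    intro i j
    have := c_mem_ed I (⟨.Q, i⟩ : Ed r P Ln) j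
    refine this.trans ⟨fun h => h.2, fun h => ⟨?_, h⟩⟩
    exact j.2
  have hs5 : 5 * r ≤ s + 1 := by have := hO.hs; omega
  have hcse : ∀ i, cs ∈ eq i := by
    intro i
    rw [hmem]
    have := i.2
    simp only [Fin.val_last]
    omega
  have hcard : ∀ i, (eq i).card = s := fun i => card_ed hO I _
  let E1 : Finset (Fin (2 * r + 2)) := univ.filter fun i => (i : ℕ) < 2
  let E2 : Finset (Fin (2 * r + 2)) := univ.filter fun i => ¬ (i : ℕ) < 2
  have hE1 : E1.card = 2 := by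
    simp only [E1]
    rw [Fin.card_filter_val_lt]
    omega
  have hE2 : E2.card = 2 * r := by
    have := card_filter_add_card_filter_not (s := (univ : Finset (Fin (2 * r + 2))))
      (fun i => (i : ℕ) < 2)
    rw [card_univ, Fintype.card_fin] at this
    change E1.card + E2.card = _ at this
    omega
  let J : Finset (Vx r s P Ln → Fin m) := Fintype.piFinset fun v => if v ∈ K then univ else {z0}
  have hJ : ∀ j ∈ J, ∀ v, v ∉ K → j v = z0 := by
    intro j hj v hv
    have := Fintype.mem_piFinset.1 hj v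
    rw [if_neg hv] at this
    exact mem_singleton.1 this
  have hJc : J.card = m ^ r := by
    rw [Fintype.card_piFinset]
    have : ∀ v : Vx r s P Ln, (if v ∈ K then (univ : Finset (Fin m)) else {z0}).card =
        if v ∈ K then m else 1 := by
      intro v
      split_ifs <;> simp
    simp only [this]
    rw [prod_ite_mem, univ_inter, prod_const, hKc]
  let F : (Vx r s P Ln → Fin m) → Finset (Vx r s P Ln → Fin m) := fun j =>
    univ.image (Function.update j cs)
  have hF : ∀ j ψ, ψ ∈ F j → ∃ a, ψ = Function.update j cs a := by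
    intro j ψ h
    obtain ⟨a, -, rfl⟩ := mem_image.1 h
    exact ⟨a, rfl⟩
  have S1 := multi_hit (n := n) κ hrs.le E1 eq (fun i => insert cs K ∩ eq i) ?he J F ?hFD ?hinj
    f 1 T hf ?hF hN.g0 hN.hT
  case he =>
    intro i hi
    refine ⟨hcard i, inter_subset_right, ?_⟩
    have hi2 : (i : ℕ) < 2 := (mem_filter.1 hi).2
    have hin : Vx.c (⟨i, by omega⟩ : Fin (s + 1)) ∈ insert cs K :=
      mem_insert_of_mem (hK2 _ hi2)
    have hsub : insert cs K ∩ eq i ⊆ (insert cs K).erase (Vx.c ⟨i, by omega⟩) := by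
      intro v hv
      refine mem_erase.2 ⟨?_, (mem_inter.1 hv).1⟩
      rintro rfl
      exact (hmem _ _).1 (mem_inter.1 hv).2 rfl
    have := card_le_card hsub
    rw [card_erase_of_mem hin, card_insert_of_notMem hcs, hKc] at this
    omega
  case hFD =>
    intro i _ j hj j' hj' ψ hψ ψ' hψ' H v hv
    by_cases hvK : v ∈ insert cs K
    · exact H v (mem_inter.2 ⟨hvK, hv⟩)
    · obtain ⟨a, rfl⟩ := hF _ _ hψ
      obtain ⟨a', rfl⟩ := hF _ _ hψ'
      rw [mem_insert, not_or] at hvK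
      rw [Function.update_of_ne hvK.1, Function.update_of_ne hvK.1, hJ j hj v hvK.2,
        hJ j' hj' v hvK.2]
  case hinj =>
    intro i _ j _ ψ hψ ψ' hψ' H
    obtain ⟨a, rfl⟩ := hF _ _ hψ
    obtain ⟨a', rfl⟩ := hF _ _ hψ'
    have := H cs (mem_inter.2 ⟨mem_insert_self _ _, hcse i⟩)
    rw [Function.update_self, Function.update_self] at this
    rw [this]
  case hF =>
    intro j _
    rw [card_image_of_injective _ (Function.update_injective j cs), hE1]
    have := hN.m1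
    simp only [card_univ, Fintype.card_fin]
    omega
  have S2 : Reach (E2.card * T) (fun h : List (RSet n r × Move n r s) =>
      ∃ J' ⊆ J, (1 - E1.card * γ) * J.card ≤ J'.card ∧
        ∀ j ∈ J', ∃ F' ⊆ F j, 1 ≤ F'.card ∧ ∀ ψ ∈ F', ∀ e ∈ E1, Pres κ h (eq e) ψ)
      (fun h => ∃ ψ, PG I κ .Q ψ h) (E2.card * ε) := by
    refine Reach.of_forall fun h0 hA => ?_
    obtain ⟨J', hJ', hc, hP⟩ := hA
    have hP' : ∀ j ∈ J', ∃ a, ∀ e ∈ E1, Pres κ h0 (eq e) (Function.update j cs a) := by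
      intro j hj
      obtain ⟨F', hF', h1, h2⟩ := hP j hj
      obtain ⟨ψ, hψ⟩ := card_pos.1 h1
      obtain ⟨a, rfl⟩ := hF _ _ (hF' hψ)
      exact ⟨a, h2 _ hψ⟩
    have : Nonempty (Fin m) := ⟨z0⟩
    choose! a ha using hP'
    have hinj : ∀ j ∈ J', ∀ j' ∈ J', (∀ v ∈ K, Function.update j cs (a j) v =
        Function.update j' cs (a j') v) → j = j' := by
      intro j hj j' hj' H
      funext v
      by_cases hv : v ∈ K
      · have := H v hv
        have hne : v ≠ cs := fun h => hcs (h ▸ hv)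
        rwa [Function.update_of_ne hne, Function.update_of_ne hne] at this
      · rw [hJ j (hJ' hj) v hv, hJ j' (hJ' hj') v hv]
    let G : Finset (Vx r s P Ln → Fin m) := J'.image fun j => Function.update j cs (a j)
    have hGc : G.card = J'.card := by
      refine card_image_of_injOn fun j hj j' hj' H => hinj j hj j' hj' fun v _ => ?_
      exact congrFun H v
    have hr1 : (1 : ℝ) ≤ r := by exact_mod_cast (by omega : 1 ≤ r)
    have hg0 := hN.g0
    have hg1 := hN.g1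
    have hGf : f ^ E2.card * 1 ≤ G.card := by
      rw [hE2, mul_one, hGc]
      have h1 := pow_UE5 (by omega : 1 ≤ r) hN.m1
      rw [hE1, hJc] at hc
      have h2 : (2 : ℝ) * ((f ^ (2 * r) : ℕ) : ℝ) ≤ ((m ^ r : ℕ) : ℝ) := by exact_mod_cast h1
      have h3 : (1 / 2 : ℝ) ≤ 1 - (2 : ℕ) * γ := by push_cast; nlinarith
      have h4 : (1 / 2 : ℝ) * ((m ^ r : ℕ) : ℝ) ≤ (1 - (2 : ℕ) * γ) * ((m ^ r : ℕ) : ℝ) :=
        mul_le_mul_of_nonneg_right h3 (Nat.cast_nonneg _)
      have h6 := h4.trans hc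
      have h5 : ((f ^ (2 * r) : ℕ) : ℝ) ≤ (J'.card : ℝ) := by
        generalize ((f ^ (2 * r) : ℕ) : ℝ) = A at h2 ⊢
        generalize ((m ^ r : ℕ) : ℝ) = B at h2 h6
        linarith
      exact_mod_cast h5
    have S := multi_hit_one (n := n) κ hrs.le E2 eq (fun _ => K) ?he G ?hinj f 1 T hf hGf hN.g0
      ?hg hN.hT
    case he =>
      intro i hi
      refine ⟨hcard i, fun v hv => ?_, hKc.le⟩
      obtain ⟨j, rfl, -, hj⟩ := hK v hv
      rw [hmem]
      have h1 : ¬ (i : ℕ) < 2 := (mem_filter.1 hi).2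
      have := i.2
      omega
    case hinj =>
      intro i _ ψ hψ ψ' hψ' H
      obtain ⟨j, hj, rfl⟩ := mem_image.1 hψ
      obtain ⟨j', hj', rfl⟩ := mem_image.1 hψ'
      rw [hinj j hj j' hj' H]
    case hg =>
      rw [hE2]
      push_cast
      linarith
    refine Reach.pre (Reach.frame (A := fun h => ∀ ψ ∈ G, ∀ e ∈ E1, Pres κ h (eq e) ψ) S
      (fun h l H ψ hψ e he => (H ψ hψ e he).append l) ?_) ?_
    · rintro l H ⟨F', hF', h1, h2⟩
      obtain ⟨ψ, hψ⟩ := card_pos.1 h1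
      refine ⟨ψ, fun i => ?_⟩
      by_cases hi : (i : ℕ) < 2
      · exact H ψ (hF' hψ) i (mem_filter.2 ⟨mem_univ _, hi⟩)
      · exact h2 ψ hψ i (mem_filter.2 ⟨mem_univ _, hi⟩)
    · rintro l rfl ψ hψ e he
      obtain ⟨j, hj, rfl⟩ := mem_image.1 hψ
      exact ha j hj e he
  have := S1.trans S2 (mul_nonneg (Nat.cast_nonneg _) hN.e0)
  rw [hE1, hE2] at this
  convert this using 1
  · ring
  · push_cast; ring

end Pool.Agent.SemiRandom.Und
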