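import Pool.Agent.P.MP_c53d0e_pr.UE4

set_option autoImplicit false
set_option linter.unusedSectionVars false

namespace Pool.Agent.SemiRandom.Und

open Finset

variable {r s : ℕ} {P Ln : Type} [Fintype P] [DecidableEq P] [Fintype Ln] [DecidableEq Ln]
  {n m w f T : ℕ} {γ ε : ℝ} [Nonempty (RSet n r)] [Nonempty (Move n r s)]

open Function in
lemma unary_UE6 (hO : Ok r s P Ln) (I : Inst (r + r) P Ln) (κ : Vx r s P Ln × Fin m ↪ Fin n)
    (hN : Num r (Fintype.card Ln) n m w f T γ ε) (g : Gp r P Ln) (v : Vx r s P Ln)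
    (hg : NN I s g = {v}) (hM : g.M ≤ 2) (ψ : Vx r s P Ln → Fin m) (q : ℕ)
    (hq : f ^ g.M * q ≤ m) :
    Reach (g.M * T) (fun _ => True) (fun h : List (RSet n r × Move n r s) =>
      ∃ A : Finset (Fin m), q ≤ A.card ∧ ∀ a ∈ A, PG I κ g (update ψ v a) h) (g.M * ε) := by
  have hr := hO.hr
  have hrR : (2 : ℝ) ≤ r := by exact_mod_cast hr
  have hMR : (g.M : ℝ) ≤ 2 := by exact_mod_cast hM
  have hc : (univ : Finset (Fin g.M)).card = g.M := by simp
  have H := multi_hit_one κ hO.lt.le (univ : Finset (Fin g.M)) (fun i => ed I s ⟨g, i⟩)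
    (fun _ => {v}) (fun i _ => ⟨card_ed hO I _, hg ▸ NN_subset_ed I ⟨g, i⟩, by
      rw [card_singleton]; omega⟩)
    (univ.image (update ψ v)) (fun _ _ φ hφ φ' hφ' hv => by
      obtain ⟨a, -, rfl⟩ := mem_image.1 hφ
      obtain ⟨a', -, rfl⟩ := mem_image.1 hφ'
      have := hv v (mem_singleton_self v)
      rw [update_self, update_self] at this
      rw [this]) f q T hN.hf (by
      rw [hc, card_image_of_injective _ (update_injective ψ v)]
      simpa using hq) hN.g0 (by
      rw [hc]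
      nlinarith [hN.g1, hN.g0]) hN.hT
  rw [hc] at H
  refine Reach.imp H fun h ⟨F', hF', hq', hP⟩ => ⟨univ.filter fun a => update ψ v a ∈ F', ?_, ?_⟩
  · refine hq'.trans (le_trans (card_le_card (t := (univ.filter
      fun a => update ψ v a ∈ F').image (update ψ v)) fun φ hφ => ?_) card_image_le)
    obtain ⟨a, -, rfl⟩ := mem_image.1 (hF' hφ)
    exact mem_image_of_mem _ (mem_filter.2 ⟨mem_univ _, hφ⟩)
  · exact fun a ha i => hP _ (mem_filter.1 ha).2 i (mem_univ _)

theorem stage_Y (hO : Ok r s P Ln) (I : Inst (r + r) P Ln) (κ : Vx r s P Ln × Fin m ↪ Fin n)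
    (hN : Num r (Fintype.card Ln) n m w f T γ ε) :
    Reach (2 * r * (2 * T)) (fun h => ∃ ψ, PG I κ .Q ψ h) (fun h => ∃ ψ, I2 I κ ψ h)
      ((2 * r : ℕ) * (2 * ε)) := by
  have H := Reach.finset (T := 2 * T) (ε := 2 * ε) (univ : Finset (Fin (2 * r)))
    (fun D (h : List (RSet n r × Move n r s)) =>
      ∃ ψ, PG I κ .Q ψ h ∧ ∀ i ∈ D, PG I κ (.Y i) ψ h) (by linarith [hN.e0]) (by
      intro D _ i _ hi
      refine Reach.ex fun ψ => ?_
      have h1 := unary_UE6 hO I κ hN (.Y i) (Vx.y i) rfl le_rfl ψ 1 (by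
        have := hN.m1
        simp only [Gp.M]
        omega)
      have h2 : (((Gp.Y i : Gp r P Ln).M : ℕ) : ℝ) = 2 := by simp [Gp.M]
      rw [h2] at h1
      refine Reach.frame h1
        (fun h l H => ⟨H.1.append l, fun j hj => (H.2 j hj).append l⟩) ?_
      rintro h ⟨hQ, hY⟩ ⟨A, hA, hP⟩
      obtain ⟨a, ha⟩ := card_pos.1 hA
      refine ⟨Function.update ψ (Vx.y i) a, hQ.congr (fun j => by simp) (by simp [NN]),
        fun j hj => ?_⟩
      rcases mem_insert.1 hj with rfl | hj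
      · exact hP a ha
      · have hne : j ≠ i := fun hh => hi (hh ▸ hj)
        exact (hY j hj).congr (fun j => by simp) (by simp [NN, hne]))
  rw [card_univ, Fintype.card_fin] at H
  exact Reach.imp (Reach.pre H fun h ⟨ψ, hψ⟩ => ⟨ψ, hψ, by simp⟩)
    fun h ⟨ψ, h1, h2⟩ => ⟨ψ, h1, fun i => h2 i (mem_univ _)⟩

theorem stage_U (hO : Ok r s P Ln) (I : Inst (r + r) P Ln) (κ : Vx r s P Ln × Fin m ↪ Fin n)
    (hN : Num r (Fintype.card Ln) n m w f T γ ε) :
    Reach (Fintype.card P * T) (fun h => ∃ ψ, I2 I κ ψ h)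
      (fun h => ∃ ψ A, I3 I κ ψ A h ∧ ∀ p, 2 ^ (r + Fintype.card Ln * 2) * w ≤ (A p).card)
      (Fintype.card P * ε) := by
  refine Reach.ex fun ψ => ?_
  have H := Reach.finset (T := T) (ε := ε) (univ : Finset P)
    (fun D (h : List (RSet n r × Move n r s)) => ∃ A : P → Finset (Fin m),
      I3 I κ ψ A h ∧ ∀ p ∈ D, 2 ^ (r + Fintype.card Ln * 2) * w ≤ (A p).card) hN.e0 (by
      intro D _ p _ _
      refine Reach.ex fun A => ?_
      have h1 := unary_UE6 hO I κ hN (.U p) (Vx.pt p) rfl (by simp [Gp.M]) ψ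
        (2 ^ (r + Fintype.card Ln * 2) * w) (by
        refine le_trans ?_ hN.m2
        simp only [Gp.M, pow_one]
        rw [mul_comm f]
        exact Nat.mul_le_mul (Nat.mul_le_mul_right _
          (Nat.pow_le_pow_right (by norm_num) (by omega))) hN.fw)
      have h2 : (Gp.U p : Gp r P Ln).M = 1 := rfl
      rw [h2, one_mul, Nat.cast_one, one_mul] at h1
      refine Reach.frame h1 (fun h l H => ⟨I3_mono ψ A h l H.1, H.2⟩) ?_
      rintro h ⟨⟨hI, hU⟩, hA⟩ ⟨A0, hA0, hP⟩
      refine ⟨Function.update A p A0, ⟨hI, fun p' a ha => ?_⟩, fun p' hp' => ?_⟩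
      · by_cases hp : p' = p
        · subst hp
          rw [Function.update_self] at ha
          exact hP a ha
        · rw [Function.update_of_ne hp] at ha
          exact hU p' a ha
      · by_cases hp : p' = p
        · subst hp
          rwa [Function.update_self]
        · rw [Function.update_of_ne hp]
          exact hA p' ((mem_insert.1 hp').resolve_left hp))
  rw [card_univ] at H
  exact Reach.imp (Reach.pre H fun h hψ => ⟨fun _ => ∅, ⟨hψ, by simp⟩, by simp⟩)
    fun h ⟨A, h1, h2⟩ => ⟨ψ, A, h1, fun p => h2 p (mem_univ _)⟩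

end Pool.Agent.SemiRandom.Und
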