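import Pool.Agent.P.MP_c53d0e_pr.UE4

set_option autoImplicit false
set_option linter.unusedSectionVars false

namespace Pool.Agent.SemiRandom.Und

open Finset

variable {r s : ℕ} {P Ln : Type} [Fintype P] [DecidableEq P] [Fintype Ln] [DecidableEq Ln]
  {n m w f T : ℕ} {γ ε : ℝ} [Nonempty (RSet n r)] [Nonempty (Move n r s)]

/-- Matching data of the proxy `x` on a set `B` of values of its parent. -/
def MD_UE7 (I : Inst (r + r) P Ln) (κ : Vx r s P Ln × Fin m ↪ Fin n) (f : ℕ)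
    (ψ : Vx r s P Ln → Fin m) (x : Px r Ln) (B : Finset (Fin m)) (Z : Fin m → Finset (Fin m))
    (h : List (RSet n r × Move n r s)) : Prop :=
  (∀ a ∈ B, f ≤ (Z a).card ∧ ∀ b ∈ Z a,
      PG I κ (.En x) (Function.update (Function.update ψ (Vx.pt (I.par x)) a) (Vx.z x) b) h) ∧
    ∀ a ∈ B, ∀ a' ∈ B, a ≠ a' → Disjoint (Z a) (Z a')

lemma MD_sub_UE7 {I : Inst (r + r) P Ln} {κ : Vx r s P Ln × Fin m ↪ Fin n} {f : ℕ}
    {ψ : Vx r s P Ln → Fin m} {x : Px r Ln} {B B' : Finset (Fin m)} {Z : Fin m → Finset (Fin m)}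
    {h : List (RSet n r × Move n r s)} (H : MD_UE7 I κ f ψ x B Z h) (hB : B' ⊆ B) :
    MD_UE7 I κ f ψ x B' Z h :=
  ⟨fun a ha => H.1 a (hB ha), fun a ha a' ha' => H.2 a (hB ha) a' (hB ha')⟩

lemma MD_mono_UE7 (I : Inst (r + r) P Ln) (κ : Vx r s P Ln × Fin m ↪ Fin n) (f : ℕ)
    (ψ : Vx r s P Ln → Fin m) (x : Px r Ln) (B : Finset (Fin m)) (Z : Fin m → Finset (Fin m)) :
    Mono (MD_UE7 I κ f ψ x B Z) :=
  fun _ l H => ⟨fun a ha => ⟨(H.1 a ha).1, fun b hb => ((H.1 a ha).2 b hb).append l⟩, H.2⟩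

/-- State after the proxies in `D` have been matched. -/
def St_UE7 (I : Inst (r + r) P Ln) (κ : Vx r s P Ln × Fin m ↪ Fin n) (f w : ℕ) (D : Finset (Px r Ln))
    (ψ : Vx r s P Ln → Fin m) (A : P → Finset (Fin m))
    (Zs : Px r Ln → Fin m → Finset (Fin m)) (h : List (RSet n r × Move n r s)) : Prop :=
  I3 I κ ψ A h ∧ (∀ p, 2 ^ (r + Fintype.card Ln * 2 - D.card) * w ≤ (A p).card) ∧
    ∀ x ∈ D, MD_UE7 I κ f ψ x (A (I.par x)) (Zs x) h

lemma St_mono_UE7 (I : Inst (r + r) P Ln) (κ : Vx r s P Ln × Fin m ↪ Fin n) (f w : ℕ)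
    (D : Finset (Px r Ln)) (ψ : Vx r s P Ln → Fin m) (A : P → Finset (Fin m))
    (Zs : Px r Ln → Fin m → Finset (Fin m)) : Mono (St_UE7 I κ f w D ψ A Zs) :=
  fun h l H => ⟨I3_mono ψ A h l H.1, H.2.1, fun x hx => MD_mono_UE7 I κ f ψ x _ _ h l (H.2.2 x hx)⟩

lemma card_Px_UE7 : (univ : Finset (Px r Ln)).card = r + Fintype.card Ln * 2 := by
  simp [Px]

lemma step_UE7 (hO : Ok r s P Ln) (I : Inst (r + r) P Ln) (κ : Vx r s P Ln × Fin m ↪ Fin n)
    (hN : Num r (Fintype.card Ln) n m w f T γ ε) (D : Finset (Px r Ln)) (x : Px r Ln)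
    (hx : x ∉ D) :
    Reach T (fun h => ∃ ψ A Zs, St_UE7 I κ (2 * w) w D ψ A Zs h)
      (fun h => ∃ ψ A Zs, St_UE7 I κ (2 * w) w (insert x D) ψ A Zs h) ε := by
  classical
  refine Reach.ex fun ψ => Reach.ex fun A => Reach.ex fun Zs => ?_
  by_cases hc : ∀ p, 2 ^ (r + Fintype.card Ln * 2 - D.card) * w ≤ (A p).card
  swap
  · intro h hS
    exact absurd hS.2.1 hc
  have hr := hO.hr
  have hD : D.card + 1 ≤ r + Fintype.card Ln * 2 := by
    rw [← card_insert_of_notMem hx, ← card_Px_UE7]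
    exact card_le_card (subset_univ _)
  obtain ⟨k, hk⟩ : ∃ k, r + Fintype.card Ln * 2 = D.card + 1 + k := Nat.exists_eq_add_of_le hD
  have hk1 : r + Fintype.card Ln * 2 - D.card = k + 1 := by omega
  have hk2 : r + Fintype.card Ln * 2 - (insert x D).card = k := by
    rw [card_insert_of_notMem hx]; omega
  have hA : 2 * (2 ^ k * w) ≤ (A (I.par x)).card := by
    have := hc (I.par x)
    rw [hk1, pow_succ] at this
    calc 2 * (2 ^ k * w) = 2 ^ k * 2 * w := by ring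
      _ ≤ _ := this
  have h1 : 4 * (2 ^ k * w) * (2 * w) ≤ m := by
    refine le_trans ?_ hN.m2
    have : 2 ^ (k + 3) ≤ 2 ^ (r + Fintype.card Ln * 2 + 3) :=
      Nat.pow_le_pow_right (by norm_num) (by omega)
    calc 4 * (2 ^ k * w) * (2 * w) = 2 ^ (k + 3) * w * w := by ring
      _ ≤ _ := Nat.mul_le_mul_right _ (Nat.mul_le_mul_right _ this)
  have h2 : 2 * (2 * w) ^ 2 ≤ m := by
    refine le_trans ?_ hN.m2
    have : 2 ^ 3 ≤ 2 ^ (r + Fintype.card Ln * 2 + 3) :=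
      Nat.pow_le_pow_right (by norm_num) (by omega)
    calc 2 * (2 * w) ^ 2 = 2 ^ 3 * w * w := by ring
      _ ≤ _ := Nat.mul_le_mul_right _ (Nat.mul_le_mul_right _ this)
  have hγ : γ ≤ 1 := by
    have h8 : (2 : ℝ) ≤ r := by exact_mod_cast hr
    have := hN.g1
    have := hN.g0
    nlinarith
  have hT : 2 * (Fintype.card (RSet n r) : ℝ) ≤ ε * ((2 * w : ℕ) * (T + 1)) := by
    refine hN.hT.trans (mul_le_mul_of_nonneg_left ?_ hN.e0)
    have h3 : (f : ℝ) ≤ (2 * w : ℕ) := by exact_mod_cast (by have := hN.fw; omega : f ≤ 2 * w)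
    have h4 : γ * f ≤ (2 * w : ℕ) :=
      (mul_le_of_le_one_left (Nat.cast_nonneg f) hγ).trans h3
    exact mul_le_mul_of_nonneg_right h4 (by positivity)
  let e0 : Ed r P Ln := ⟨.En x, (⟨0, Nat.one_pos⟩ : Fin 1)⟩
  have hp : Vx.pt (I.par x) ∈ ed I s e0 := NN_subset_ed I e0 (by simp [e0, NN])
  have hz : Vx.z x ∈ ed I s e0 := NN_subset_ed I e0 (by simp [e0, NN])
  have H := one_match κ (by omega) hO.lt.le (card_ed hO I e0) hp hz (by simp) ψ (A (I.par x))
    (2 ^ k * w) (2 * w) T (by have := hN.hw; omega) hA h1 h2 hT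
  refine Reach.frame H (St_mono_UE7 I κ (2 * w) w D ψ A Zs) ?_
  rintro h ⟨h3, -, hM⟩ ⟨A', hA', hcard, Z, hZ1, hZ2⟩
  have hsub : ∀ p, Function.update A (I.par x) A' p ⊆ A p := by
    intro p
    by_cases hp : p = I.par x
    · subst hp; simpa using hA'
    · rw [Function.update_of_ne hp]
  refine ⟨ψ, Function.update A (I.par x) A', Function.update Zs x Z,
    ⟨h3.1, fun p a ha => h3.2 p a (hsub p ha)⟩, ?_, ?_⟩
  · intro p
    rw [hk2]
    by_cases hp : p = I.par x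
    · subst hp; simpa using hcard
    · rw [Function.update_of_ne hp]
      have := hc p
      rw [hk1, pow_succ] at this
      refine le_trans ?_ this
      exact Nat.mul_le_mul_right _ (Nat.le_mul_of_pos_right _ (by norm_num))
  · intro y hy
    by_cases hyx : y = x
    · subst hyx
      rw [Function.update_self, Function.update_self]
      refine ⟨fun a ha => ⟨(hZ1 a ha).1, fun b hb i => ?_⟩, hZ2⟩
      have hi : i = (⟨0, Nat.one_pos⟩ : Fin 1) := Subsingleton.elim (α := Fin 1) _ _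
      subst hi
      exact (hZ1 a ha).2 b hb
    · rw [Function.update_of_ne hyx]
      exact MD_sub_UE7 (hM y ((mem_insert.1 hy).resolve_left hyx)) (hsub _)

theorem stage_E (hO : Ok r s P Ln) (I : Inst (r + r) P Ln) (κ : Vx r s P Ln × Fin m ↪ Fin n)
    (hN : Num r (Fintype.card Ln) n m w f T γ ε) :
    Reach ((r + Fintype.card Ln * 2) * T)
      (fun h => ∃ ψ A, I3 I κ ψ A h ∧ ∀ p, 2 ^ (r + Fintype.card Ln * 2) * w ≤ (A p).card)
      (fun h => ∃ ψ, ∃ (lab : P → Fin w → Fin m), ∃ Zs, Base I κ (2 * w) ψ lab Zs h)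
      ((r + Fintype.card Ln * 2 : ℕ) * ε) := by
  classical
  have H := Reach.finset (univ : Finset (Px r Ln))
    (fun D h => ∃ ψ A Zs, St_UE7 I κ (2 * w) w D ψ A Zs h) hN.e0
    (fun D _ x _ hx => step_UE7 hO I κ hN D x hx)
  rw [card_Px_UE7] at H
  refine Reach.imp (Reach.pre H ?_) ?_
  · rintro h ⟨ψ, A, h3, hc⟩
    exact ⟨ψ, A, fun _ _ => ∅, h3, by simpa using hc, by simp⟩
  · rintro h ⟨ψ, A, Zs, h3, hc, hM⟩
    have hw : ∀ p, w ≤ (A p).card := fun p => by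
      have := hc p
      rw [card_Px_UE7, Nat.sub_self, pow_zero, one_mul] at this
      exact this
    let lab : P → Fin w → Fin m := fun p => (A p).orderEmbOfCardLe (hw p)
    have hlab : ∀ p a, lab p a ∈ A p := fun p a => orderEmbOfCardLe_mem _ _ a
    have hinj : ∀ p, Function.Injective (lab p) := fun p =>
      ((A p).orderEmbOfCardLe (hw p)).injective
    refine ⟨ψ, lab, fun x a => Zs x (lab (I.par x) a), h3.1,
      fun p a => h3.2 p _ (hlab p a), fun x a => ((hM x (mem_univ _)).1 _ (hlab _ a)).1,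
      fun x a a' haa => (hM x (mem_univ _)).2 _ (hlab _ a) _ (hlab _ a') fun e => haa (hinj _ e),
      fun x a b hb => ((hM x (mem_univ _)).1 _ (hlab _ a)).2 b hb, hinj⟩

end Pool.Agent.SemiRandom.Und
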