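import Pool.Agent.P.MP_c53d0e_pr.UE4

set_option autoImplicit false
set_option linter.unusedSectionVars false

namespace Pool.Agent.SemiRandom.Und

open Finset

variable {r s : ℕ} {P Ln : Type} [Fintype P] [DecidableEq P] [Fintype Ln] [DecidableEq Ln]
  {n m w f T : ℕ} {γ ε : ℝ} [Nonempty (RSet n r)] [Nonempty (Move n r s)]

/-- The values allowed at each vertex while line `e` is built. -/
def fam_UE8 (e : Ln) (Z : Fin 2 → Finset (Fin m)) (ψ : Vx r s P Ln → Fin m) :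
    Vx r s P Ln → Finset (Fin m)
  | .z (.inr (e', l)) => if e' = e then Z l else {ψ (.z (.inr (e', l)))}
  | .tk e' l => if e' = e then univ else {ψ (.tk e' l)}
  | v => {ψ v}

lemma fam_z_UE8 (e : Ln) (Z : Fin 2 → Finset (Fin m)) (ψ : Vx r s P Ln → Fin m) (l : Fin 2) :
    fam_UE8 e Z ψ (.z (.inr (e, l))) = Z l := by simp [fam_UE8]

lemma fam_tk_UE8 (e : Ln) (Z : Fin 2 → Finset (Fin m)) (ψ : Vx r s P Ln → Fin m)
    (l : Fin (r - 2)) : fam_UE8 e Z ψ (.tk e l) = univ := by simp [fam_UE8]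

lemma fam_else_UE8 (e : Ln) (Z : Fin 2 → Finset (Fin m)) (ψ : Vx r s P Ln → Fin m)
    {v : Vx r s P Ln} (hv : v ∉ ZL e ∪ TK e) : fam_UE8 e Z ψ v = {ψ v} := by
  rcases v with j | i | p | (b | ⟨e', l⟩) | ⟨e', l⟩
  · rfl
  · rfl
  · rfl
  · rfl
  · have : e' ≠ e := by rintro rfl; simp at hv
    simp [fam_UE8, this]
  · have : e' ≠ e := by rintro rfl; simp at hv
    simp [fam_UE8, this]

lemma fam_eq_UE8 {e : Ln} {Z : Fin 2 → Finset (Fin m)} {ψ φ : Vx r s P Ln → Fin m}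
    (h : φ ∈ Fintype.piFinset (fam_UE8 e Z ψ)) {v : Vx r s P Ln} (hv : v ∉ ZL e ∪ TK e) :
    φ v = ψ v := by
  have := Fintype.mem_piFinset.1 h v
  rwa [fam_else_UE8 e Z ψ hv, mem_singleton] at this

lemma fam_mem_UE8 {e : Ln} {Z : Fin 2 → Finset (Fin m)} {ψ φ : Vx r s P Ln → Fin m}
    (h : φ ∈ Fintype.piFinset (fam_UE8 e Z ψ)) (l : Fin 2) : φ (.z (.inr (e, l))) ∈ Z l := by
  have := Fintype.mem_piFinset.1 h (.z (.inr (e, l)))
  rwa [fam_z_UE8] at this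

lemma disj_UE8 (e : Ln) : Disjoint (ZL e : Finset (Vx r s P Ln)) (TK e) := by
  rw [disjoint_left]
  intro v h1 h2
  obtain ⟨l, rfl⟩ := (mem_ZL e v).1 h1
  simp at h2

lemma fam_card_UE8 (hr : 2 ≤ r) (hm : 2 * f ^ 2 ≤ m) (e : Ln)
    (Z : Fin 2 → Finset (Fin m)) (hZ : ∀ l, f ≤ (Z l).card) (ψ : Vx r s P Ln → Fin m) :
    f ^ (2 * r - 2) ≤ (Fintype.piFinset (fam_UE8 e Z ψ)).card := by
  rw [Fintype.card_piFinset]
  have h1 : f ^ 2 ≤ ∏ v ∈ ZL e, (fam_UE8 e Z ψ v).card := by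
    rw [← card_ZL (r := r) (s := s) (P := P) e]
    refine pow_card_le_prod _ _ _ fun v hv => ?_
    obtain ⟨l, rfl⟩ := (mem_ZL e v).1 hv
    rw [fam_z_UE8]; exact hZ l
  have h2 : (f ^ 2) ^ (r - 2) ≤ ∏ v ∈ TK e, (fam_UE8 e Z ψ v).card := by
    rw [← card_TK (r := r) (s := s) (P := P) e]
    refine pow_card_le_prod _ _ _ fun v hv => ?_
    obtain ⟨l, rfl⟩ := (mem_TK e v).1 hv
    rw [fam_tk_UE8, card_univ, Fintype.card_fin]; omega
  have h3 : ∏ v ∈ ZL e ∪ TK e, (fam_UE8 e Z ψ v).card ≤ ∏ v, (fam_UE8 e Z ψ v).card :=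
    prod_le_prod_of_subset_of_one_le' (subset_univ _) fun v _ hv => by
      rw [fam_else_UE8 e Z ψ hv, card_singleton]
  rw [prod_union (disj_UE8 e)] at h3
  refine le_trans ?_ ((Nat.mul_le_mul h1 h2).trans h3)
  rw [← pow_mul, ← pow_add]
  exact le_of_eq (by congr 1; omega)

theorem line_step (hO : Ok r s P Ln) (I : Inst (r + r) P Ln) (κ : Vx r s P Ln × Fin m ↪ Fin n)
    (hN : Num r (Fintype.card Ln) n m w f T γ ε) (ψ : Vx r s P Ln → Fin m)
    (lab : P → Fin w → Fin m) (Zs : Px r Ln → Fin w → Finset (Fin m))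
    (hZ1 : ∀ x a, f ≤ (Zs x a).card) (hZ2 : ∀ x a a', a ≠ a' → Disjoint (Zs x a) (Zs x a'))
    (S' : Finset (P → Fin w)) (hS : I.Exact S') (Ψ : (P → Fin w) → Vx r s P Ln → Fin m)
    (D : Finset Ln) (e : Ln) (he : e ∉ D) :
    Reach ((2 * r - 2) * T) (Lines I κ ψ lab Zs S' Ψ D)
      (fun h => ∃ S'' ⊆ S', (1 - (2 * r - 2 : ℕ) * γ) * S'.card ≤ S''.card ∧
        ∃ Ψ', Lines I κ ψ lab Zs S'' Ψ' (insert e D) h) ((2 * r - 2 : ℕ) * ε) := by
  have hr := hO.hr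
  refine Reach.of_forall fun h0 hL => ?_
  have H := multi_hit κ hO.lt.le (univ : Finset (Fin (2 * r - 2)))
    (fun i => ed I s ⟨.L e, i⟩) (fun _ => ZL e ∪ TK e)
    (fun i _ => ⟨card_ed hO I _, (subset_insert _ _).trans (NN_subset_ed I ⟨.L e, i⟩), by
      rw [card_union_of_disjoint (disj_UE8 e), card_ZL, card_TK]; omega⟩)
    S' (fun x => Fintype.piFinset
      (fam_UE8 e (fun l => Zs (.inr (e, l)) (x (I.src e l))) (Ψ x)))
    (fun i _ x hx x' hx' φ hφ φ' hφ' hk v hv => by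
      rcases mem_union.1 (ed_subset I ⟨.L e, i⟩ hv) with h1 | h1
      · obtain ⟨j, rfl⟩ := (mem_CC v).1 h1
        rw [fam_eq_UE8 hφ (by simp), fam_eq_UE8 hφ' (by simp), (hL x hx).1, (hL x' hx').1]
      · rcases mem_insert.1 h1 with rfl | h1
        · rw [fam_eq_UE8 hφ (by simp), fam_eq_UE8 hφ' (by simp), (hL x hx).2.2.1,
            (hL x' hx').2.2.1, hS e x hx x' hx' fun l => ?_]
          by_contra hne
          have h2 := fam_mem_UE8 hφ l
          rw [hk _ (by simp)] at h2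
          exact disjoint_left.1 (hZ2 _ _ _ hne) h2 (fam_mem_UE8 hφ' l)
        · exact hk v h1)
    (fun i _ x _ φ hφ φ' hφ' hk => by
      funext v
      by_cases hv : v ∈ ZL e ∪ TK e
      · exact hk v hv
      · rw [fam_eq_UE8 hφ hv, fam_eq_UE8 hφ' hv])
    f 1 T hN.hf (fun x _ => by
      rw [card_univ, Fintype.card_fin, mul_one]
      exact fam_card_UE8 (by omega) hN.m1 e _ (fun l => hZ1 _ _) _) hN.g0 hN.hT
  rw [card_univ, Fintype.card_fin] at H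
  refine Reach.pre (Reach.frame H (Lines_mono ψ lab Zs S' Ψ D) ?_) fun l hl => hl ▸ hL
  rintro h hA ⟨J, hJ, hc, hF⟩
  have hch : ∀ x, ∃ φ, x ∈ J → φ ∈ Fintype.piFinset
      (fam_UE8 e (fun l => Zs (.inr (e, l)) (x (I.src e l))) (Ψ x)) ∧ PG I κ (.L e) φ h := by
    intro x
    by_cases hx : x ∈ J
    · obtain ⟨F', hF', h1, h2⟩ := hF x hx
      obtain ⟨φ, hφ⟩ := card_pos.1 h1
      exact ⟨φ, fun _ => ⟨hF' hφ, fun i => h2 φ hφ i (mem_univ _)⟩⟩
    · exact ⟨Ψ x, fun h => absurd h hx⟩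
  choose Φ hΦ using hch
  refine ⟨J, hJ, hc, Φ, fun x hx => ?_⟩
  obtain ⟨hφ, hP⟩ := hΦ x hx
  obtain ⟨a1, a2, a3, a4⟩ := hA x (hJ hx)
  refine ⟨fun j => by rw [fam_eq_UE8 hφ (by simp), a1], fun i => by
    rw [fam_eq_UE8 hφ (by simp), a2], fun p => by rw [fam_eq_UE8 hφ (by simp), a3],
    fun e' he' => ?_⟩
  rcases mem_insert.1 he' with rfl | he'
  · exact ⟨fun l => fam_mem_UE8 hφ l, hP⟩
  have hne : e' ≠ e := fun h => he (h ▸ he')
  refine ⟨fun l => ?_, (a4 e' he').2.congr (fun j => (fam_eq_UE8 hφ (by simp)).symm)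
    fun v hv => (fam_eq_UE8 hφ ?_).symm⟩
  · rw [fam_eq_UE8 hφ (by simp [hne])]
    exact (a4 e' he').1 l
  · rcases mem_insert.1 hv with rfl | hv
    · simp
    · rcases mem_union.1 hv with hv | hv
      · obtain ⟨l, rfl⟩ := (mem_ZL e' v).1 hv
        simp [hne]
      · obtain ⟨l, rfl⟩ := (mem_TK e' v).1 hv
        simp [hne]

/-- The first placement of a configuration. -/
def start_UE8 (ψ : Vx r s P Ln → Fin m) (a : P → Fin m) : Vx r s P Ln → Fin m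
  | .pt p => a p
  | v => ψ v

theorem stage_L (hO : Ok r s P Ln) (I : Inst (r + r) P Ln) (κ : Vx r s P Ln × Fin m ↪ Fin n)
    (hN : Num r (Fintype.card Ln) n m w f T γ ε) (S : Finset (P → Fin w)) (hS : I.Exact S) :
    Reach (Fintype.card Ln * ((2 * r - 2) * T))
      (fun h => ∃ ψ, ∃ (lab : P → Fin w → Fin m), ∃ Zs, Base I κ (2 * w) ψ lab Zs h)
      (fun h => ∃ ψ, ∃ (lab : P → Fin w → Fin m), ∃ Zs S' Ψ, Base I κ (2 * w) ψ lab Zs h ∧ S' ⊆ S ∧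
        3 * S.card ≤ 4 * S'.card ∧ Lines I κ ψ lab Zs S' Ψ univ h)
      (Fintype.card Ln * ((2 * r - 2 : ℕ) * ε)) := by
  refine Reach.ex fun ψ => Reach.ex fun lab => Reach.ex fun Zs => ?_
  have hg : (0 : ℝ) ≤ (2 * r - 2 : ℕ) * γ := mul_nonneg (Nat.cast_nonneg _) hN.g0.le
  have H := Reach.finset (T := (2 * r - 2) * T) (univ : Finset Ln)
    (fun D (h : List (RSet n r × Move n r s)) => Base I κ (2 * w) ψ lab Zs h ∧ ∃ S' ⊆ S,
      (1 - D.card * ((2 * r - 2 : ℕ) * γ)) * S.card ≤ S'.card ∧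
        ∃ Ψ, Lines I κ ψ lab Zs S' Ψ D h)
    (mul_nonneg (Nat.cast_nonneg (2 * r - 2)) hN.e0) (by
      rintro D - e - he h ⟨hB, S', hS', hc, Ψ, hL⟩
      refine (line_step hO I κ hN ψ lab Zs
        (fun x a => le_trans (by have := hN.fw; omega) (hB.2.2.1 x a)) hB.2.2.2.1 S'
        (fun e x hx x' hx' => hS e x (hS' hx) x' (hS' hx')) Ψ D e he h hL).trans
        (Reach.post fun l hl => ?_)
      obtain ⟨S'', h1, h2, h3⟩ := hl
      refine ⟨Base_mono (2 * w) ψ lab Zs h l hB, S'', h1.trans hS', le_trans ?_ h2, h3⟩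
      have h4 : (S'.card : ℝ) ≤ S.card := Nat.cast_le.2 (card_le_card hS')
      rw [card_insert_of_notMem he, Nat.cast_add, Nat.cast_one]
      nlinarith [mul_le_mul_of_nonneg_left h4 hg])
  rw [card_univ] at H
  refine Reach.imp (Reach.pre H fun h hB => ⟨hB, S, Subset.rfl, by simp,
    fun x => start_UE8 ψ fun p => lab p (x p), fun x _ =>
      ⟨fun _ => rfl, fun _ => rfl, fun _ => rfl, fun e he => absurd he (notMem_empty e)⟩⟩) ?_
  rintro h ⟨hB, S', hS', hc, Ψ, hL⟩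
  refine ⟨ψ, lab, Zs, S', Ψ, hB, hS', ?_, hL⟩
  have h1 := hN.g2
  have h2 : 3 * (S.card : ℝ) ≤ 4 * S'.card := by
    nlinarith [(Nat.cast_nonneg S.card : (0 : ℝ) ≤ S.card)]
  exact_mod_cast h2

end Pool.Agent.SemiRandom.Und
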