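import Pool.Agent.P.MP_c53d0e_pr.UE4

set_option autoImplicit false
set_option linter.unusedSectionVars false

namespace Pool.Agent.SemiRandom.Und

open Finset

variable {r s : ℕ} {P Ln : Type} [Fintype P] [DecidableEq P] [Fintype Ln] [DecidableEq Ln]
  {n m w f T : ℕ} {γ ε : ℝ} [Nonempty (RSet n r)] [Nonempty (Move n r s)]

lemma same_UE9 {I : Inst (r + r) P Ln} {κ : Vx r s P Ln × Fin m ↪ Fin n}
    {Zs : Px r Ln → Fin w → Finset (Fin m)}
    (hZ : ∀ x a a', a ≠ a' → Disjoint (Zs x a) (Zs x a')) {S' : Finset (P → Fin w)}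
    (hS : I.BasInj S') {Ψ : (P → Fin w) → Vx r s P Ln → Fin m}
    {h : List (RSet n r × Move n r s)} (hT : Tops I κ Zs S' Ψ univ h) {x x' : P → Fin w}
    (hx : x ∈ S') (hx' : x' ∈ S') (he : ∀ v ∈ (ZB : Finset (Vx r s P Ln)), Ψ x v = Ψ x' v) :
    x = x' := by
  refine hS x hx x' hx' fun b => ?_
  refine Fin.addCases (fun b => ?_) (fun b => ?_) b
  · by_contra hne
    have h1 := (hT.1 x hx b (mem_univ b)).1
    have h2 := (hT.1 x' hx' b (mem_univ b)).1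
    rw [← he _ ((mem_ZB _).2 ⟨b, rfl⟩)] at h2
    exact disjoint_left.1 (hZ _ _ _ hne) h1 h2
  · exact hT.2 b (mem_univ b) x hx x' hx' (he _ ((mem_ZB _).2 ⟨b, rfl⟩))

theorem stage_T (hO : Ok r s P Ln) (I : Inst (r + r) P Ln) (κ : Vx r s P Ln × Fin m ↪ Fin n)
    (hN : Num r (Fintype.card Ln) n m w f T γ ε) (S : Finset (P → Fin w)) (hS : I.BasInj S)
    (hc : 2 * f ^ (r + r) ≤ S.card) :
    Reach (2 * r * T)
      (fun h => ∃ ψ, ∃ (lab : P → Fin w → Fin m), ∃ Zs S' Ψ, Base I κ (2 * w) ψ lab Zs h ∧ S' ⊆ S ∧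
        S.card ≤ 2 * S'.card ∧ Lines I κ ψ lab Zs S' Ψ univ h ∧ Tops I κ Zs S' Ψ univ h)
      (ContainsV (ed I s)) ((2 * r : ℕ) * ε) := by
  classical
  refine Reach.of_forall fun h0 hh => ?_
  obtain ⟨ψ, lab, Zs, S', Ψ, hB0, hS', hcard, hL0, hT0⟩ := hh
  have hZ2 := hB0.2.2.2.1
  have hS1 : I.BasInj S' := fun x hx x' hx' => hS x (hS' hx) x' (hS' hx')
  have hE : (univ.filter fun e : Ed r P Ln => e.1 = Gp.T).card = 2 * r := card_group Gp.T
  have hFc : f ^ (univ.filter fun e : Ed r P Ln => e.1 = Gp.T).card * 1 ≤ (S'.image Ψ).card := by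
    rw [hE, card_image_of_injOn fun x hx x' hx' he =>
      same_UE9 hZ2 hS1 hT0 hx hx' fun v _ => congrFun he v, mul_one, two_mul]
    omega
  have H := multi_hit_one κ hO.lt.le (univ.filter fun e : Ed r P Ln => e.1 = Gp.T) (ed I s)
    (fun _ => ZB) (fun e he => ?_) (S'.image Ψ)
    (fun e _ φ hφ φ' hφ' hk => ?_) f 1 T hN.hf hFc (ε := ε) hN.g0 ?_ hN.hT
  · rw [hE] at H
    refine Reach.pre (Reach.frame
      (A := fun h => Base I κ (2 * w) ψ lab Zs h ∧ Lines I κ ψ lab Zs S' Ψ univ h ∧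
        Tops I κ Zs S' Ψ univ h) H
      (fun h l hh => ⟨Base_mono _ ψ lab Zs h l hh.1, Lines_mono ψ lab Zs S' Ψ univ h l hh.2.1,
        Tops_mono Zs S' Ψ univ h l hh.2.2⟩)
      ?_) fun l hl => hl ▸ ⟨hB0, hL0, hT0⟩
    rintro h ⟨hB, hL, hT⟩ ⟨F', hF', h1, hP⟩
    obtain ⟨φ, hφ⟩ := card_pos.1 h1
    obtain ⟨x, hx, rfl⟩ := mem_image.1 (hF' hφ)
    obtain ⟨ec, ey, ep, ll⟩ := hL x hx
    have ez : ∀ y, Ψ x (Vx.z y) ∈ Zs y (x (I.par y)) := by
      rintro (b | ⟨e, l⟩)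
      · exact (hT.1 x hx b (mem_univ b)).1
      · exact (ll e (mem_univ e)).1 l
    have key : ∀ g, PG I κ g (Ψ x) h := by
      intro g
      cases g with
      | Q => exact hB.1.1.congr (fun j => (ec j).symm) (by simp [NN])
      | Y i => exact (hB.1.2 i).congr (fun j => (ec j).symm) (by simp [NN, ey])
      | U p => exact (hB.2.1 p (x p)).congr (fun j => by simp [ec]) (by simp [NN, ep])
      | En y =>
        exact (hB.2.2.2.2.1 y (x (I.par y)) _ (ez y)).congr (fun j => by simp [ec])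
          (by simp [NN, ep])
      | W b => exact (hT.1 x hx b (mem_univ b)).2
      | L e => exact (ll e (mem_univ e)).2
      | T => exact fun i => hP _ hφ ⟨Gp.T, i⟩ (by simp)
    exact ⟨emb κ (Ψ x), fun e => key e.1 e.2⟩
  · have h1 : e.1 = Gp.T := (mem_filter.1 he).2
    refine ⟨card_ed hO I e, subset_trans ?_ (NN_subset_ed I e), card_ZB.le⟩
    rw [h1]
    intro v hv
    obtain ⟨b, rfl⟩ := (mem_ZB v).1 hv
    simp [NN]
  · obtain ⟨x, hx, rfl⟩ := mem_image.1 hφ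
    obtain ⟨x', hx', rfl⟩ := mem_image.1 hφ'
    rw [same_UE9 hZ2 hS1 hT0 hx hx' hk]
  · rw [hE]
    have := hN.g1
    push_cast
    linarith

end Pool.Agent.SemiRandom.Und
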