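import Pool.Agent.P.MP_c53d0e_pr.UE1

set_option autoImplicit false
set_option linter.unusedSectionVars false

namespace Pool.Agent.SemiRandom.Und

open Finset

variable {α β : Type} [Fintype α] [Fintype β] [Nonempty α] [Nonempty β]

def Val_UEV {ι κ1 κ2 κ3 : Type} (σ : α → β) (a : ι → κ1) (a' : ι → κ2) (Z : κ1 → Finset κ3)
    (u : κ2 → κ3 → α) (h : List (α × β)) (X' : Finset ι) : Prop :=
  ∃ ζ : κ1 → κ2 → κ3, (∀ x ∈ X', ζ (a x) (a' x) ∈ Z (a x) ∧
    (u (a' x) (ζ (a x) (a' x)), σ (u (a' x) (ζ (a x) (a' x)))) ∈ h) ∧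
    ∀ x ∈ X', ∀ x' ∈ X', ζ (a x) (a' x) = ζ (a x') (a' x') → a' x = a' x'

open Classical in
noncomputable def Mx_UEV {ι : Type} (V : Finset ι → Prop) (X : Finset ι) : ℕ :=
  (X.powerset.filter V).sup card

lemma le_Mx_UEV {ι : Type} {V : Finset ι → Prop} {X G : Finset ι} (hG : G ⊆ X) (hv : V G) :
    G.card ≤ Mx_UEV V X := by
  classical
  unfold Mx_UEV
  exact le_sup (f := card) (mem_filter.2 ⟨mem_powerset.2 hG, hv⟩)

lemma ex_Mx_UEV {ι : Type} {V : Finset ι → Prop} (X : Finset ι) (h0 : V ∅) :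
    ∃ G ⊆ X, V G ∧ Mx_UEV V X = G.card := by
  classical
  have hne : (X.powerset.filter V).Nonempty :=
    ⟨∅, mem_filter.2 ⟨mem_powerset.2 (empty_subset _), h0⟩⟩
  obtain ⟨G, hG, e⟩ := exists_mem_eq_sup _ hne card
  exact ⟨G, mem_powerset.1 (mem_filter.1 hG).1, (mem_filter.1 hG).2, e⟩

lemma Val_append_UEV {ι κ1 κ2 κ3 : Type} {σ : α → β} {a : ι → κ1} {a' : ι → κ2}
    {Z : κ1 → Finset κ3} {u : κ2 → κ3 → α} {h : List (α × β)} {G : Finset ι}
    (hv : Val_UEV σ a a' Z u h G) (l : List (α × β)) : Val_UEV σ a a' Z u (h ++ l) G := by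
  obtain ⟨ζ, h1, h2⟩ := hv
  exact ⟨ζ, fun x hx => ⟨(h1 x hx).1, List.mem_append_left _ (h1 x hx).2⟩, h2⟩

/-- Weighted matching phase. -/
lemma wmatch_phase {ι κ1 κ2 κ3 : Type} [Fintype κ2] [DecidableEq κ1] [DecidableEq κ2]
    [DecidableEq κ3] [Nonempty κ3] (σ : α → β) (X : Finset ι) (a : ι → κ1) (a' : ι → κ2)
    (Z : κ1 → Finset κ3) (hZ : ∀ i i', i ≠ i' → Disjoint (Z i) (Z i'))
    (hZc : ∀ i, 2 * Fintype.card κ2 ≤ (Z i).card) (u : κ2 → κ3 → α)
    (hu : ∀ j j' z z', u j z = u j' z' → j = j' ∧ z = z') (f T : ℕ) (hf1 : 1 ≤ f)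
    (hf : f ≤ 2 * Fintype.card κ2) {γ ε : ℝ} (hγ : 0 < γ)
    (hT : 2 * (Fintype.card α : ℝ) ≤ ε * (γ * f * (T + 1))) :
    Reach T (fun _ => True) (fun h : List (α × β) => ∃ X' ⊆ X, (1 - γ) * X.card ≤ X'.card ∧
      ∃ ζ : κ1 → κ2 → κ3, (∀ x ∈ X', ζ (a x) (a' x) ∈ Z (a x) ∧
        (u (a' x) (ζ (a x) (a' x)), σ (u (a' x) (ζ (a x) (a' x)))) ∈ h) ∧
        ∀ x ∈ X', ∀ x' ∈ X', ζ (a x) (a' x) = ζ (a x') (a' x') → a' x = a' x') ε := by
  classical
  have hc : (0 : ℝ) < Fintype.card α := card_pos'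
  have hf0 : (0 : ℝ) < f := by exact_mod_cast hf1
  have hP : 0 < γ * f * (T + 1) := by positivity
  have hε : 0 ≤ ε := by
    by_contra hn
    have := mul_neg_of_neg_of_pos (not_le.1 hn) hP
    linarith
  have v0 : ∀ h, Val_UEV σ a a' Z u h (∅ : Finset ι) := fun h =>
    ⟨fun _ _ => Classical.arbitrary κ3, by simp, by simp⟩
  rcases X.eq_empty_or_nonempty with rfl | hX
  · exact Reach.of_imp T hε fun h l _ => ⟨∅, Subset.rfl, by simp, v0 _⟩
  have hX0 : (0 : ℝ) < X.card := by exact_mod_cast card_pos.2 hX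
  have hw0 : (0 : ℝ) < Fintype.card κ2 := by exact_mod_cast (by omega : 0 < Fintype.card κ2)
  have same : ∀ i i' z, z ∈ Z i → z ∈ Z i' → i = i' := fun i i' z h1 h2 => by
    by_contra hn
    exact disjoint_left.1 (hZ i i' hn) h1 h2
  refine drift_reach (fun h => (Mx_UEV (Val_UEV σ a a' Z u h) X : ℝ)) _ ?_ (y := X.card)
    (b := γ * X.card * Fintype.card κ2 / Fintype.card α) (by positivity)
    (fun h => by positivity) ?_ ?_ T ?_
  · rintro h l ⟨X', h1, h2, h3⟩
    exact ⟨X', h1, h2, Val_append_UEV h3 l⟩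
  · intro h
    obtain ⟨G, hG, -, e⟩ := ex_Mx_UEV X (v0 h)
    have := card_le_card hG
    rw [← e] at this
    exact_mod_cast this
  · intro h hD
    refine ⟨σ, ?_⟩
    obtain ⟨G, hG, hv, e⟩ := ex_Mx_UEV X (v0 h)
    have hlt : (G.card : ℝ) < (1 - γ) * X.card := by
      by_contra hge
      exact hD ⟨G, hG, not_lt.1 hge, hv⟩
    obtain ⟨ζ, z1, z2⟩ := hv
    let Fr : ι → Finset α := fun x => (Z (a x) \ univ.image (ζ (a x))).image (u (a' x))
    have cF : ∀ x, Fintype.card κ2 ≤ (Fr x).card := by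
      intro x
      have h1 := le_card_sdiff (univ.image (ζ (a x))) (Z (a x))
      have h2 : (univ.image (ζ (a x))).card ≤ Fintype.card κ2 :=
        card_image_le.trans (card_univ (α := κ2)).le
      have h3 := hZc (a x)
      have h4 : (Fr x).card = (Z (a x) \ univ.image (ζ (a x))).card :=
        card_image_of_injective _ fun z z' hz => (hu _ _ _ _ hz).2
      omega
    have step : ∀ U, (#{x ∈ X \ G | U ∈ Fr x} : ℝ) ≤
        (Mx_UEV (Val_UEV σ a a' Z u (h ++ [(U, σ U)])) X : ℝ) -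
          Mx_UEV (Val_UEV σ a a' Z u h) X := by
      intro U
      have hv' : Val_UEV σ a a' Z u (h ++ [(U, σ U)]) (G ∪ {x ∈ X \ G | U ∈ Fr x}) := by
        rcases ({x ∈ X \ G | U ∈ Fr x} : Finset ι).eq_empty_or_nonempty with h0 | ⟨x1, hx1⟩
        · rw [h0, union_empty]
          exact Val_append_UEV ⟨ζ, z1, z2⟩ _
        obtain ⟨z, hz, rfl⟩ := mem_image.1 (mem_filter.1 hx1).2
        obtain ⟨hz1, hz2⟩ := mem_sdiff.1 hz
        have old : ∀ x ∈ G ∪ {x ∈ X \ G | u (a' x1) z ∈ Fr x},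
            ¬ (a x = a x1 ∧ a' x = a' x1) → x ∈ G := by
          intro x hx hn
          rcases mem_union.1 hx with hx | hx
          · exact hx
          · obtain ⟨z', hz', e'⟩ := mem_image.1 (mem_filter.1 hx).2
            obtain ⟨e1, rfl⟩ := hu _ _ _ _ e'
            exact absurd ⟨same _ _ _ (mem_sdiff.1 hz').1 hz1, e1⟩ hn
        have fresh : ∀ x ∈ G, ζ (a x) (a' x) ≠ z := by
          intro x hx e'
          have e1 : a x = a x1 := same _ _ z (e' ▸ (z1 x hx).1) hz1
          exact hz2 (mem_image.2 ⟨a' x, mem_univ _, e1 ▸ e'⟩)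
        refine ⟨fun i j => if i = a x1 ∧ j = a' x1 then z else ζ i j, fun x hx => ?_,
          fun x hx x' hx' => ?_⟩
        · by_cases c : a x = a x1 ∧ a' x = a' x1
          · simp only [if_pos c]
            rw [c.1, c.2]
            exact ⟨hz1, List.mem_append_right _ (List.mem_singleton_self _)⟩
          · simp only [if_neg c]
            exact ⟨(z1 x (old x hx c)).1, List.mem_append_left _ (z1 x (old x hx c)).2⟩
        · by_cases c : a x = a x1 ∧ a' x = a' x1 <;> by_cases c' : a x' = a x1 ∧ a' x' = a' x1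
          · exact fun _ => c.2.trans c'.2.symm
          · simp only [if_pos c, if_neg c']
            exact fun e' => absurd e'.symm (fresh x' (old x' hx' c'))
          · simp only [if_neg c, if_pos c']
            exact fun e' => absurd e' (fresh x (old x hx c))
          · simp only [if_neg c, if_neg c']
            exact z2 x (old x hx c) x' (old x' hx' c')
      have h1 := le_Mx_UEV (X := X)
        (union_subset hG ((filter_subset _ _).trans sdiff_subset)) hv'
      rw [card_union_of_disjoint (disjoint_left.2 fun x hx hx' =>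
        (mem_sdiff.1 (mem_filter.1 hx').1).2 hx), ← e] at h1
      have h2 : ((Mx_UEV (Val_UEV σ a a' Z u h) X + #{x ∈ X \ G | U ∈ Fr x} : ℕ) : ℝ) ≤
          Mx_UEV (Val_UEV σ a a' Z u (h ++ [(U, σ U)])) X := by exact_mod_cast h1
      push_cast at h2
      linarith
    refine le_trans ?_ (sum_le_sum fun U _ => step U)
    have c1 : ∑ U, #{x ∈ X \ G | U ∈ Fr x} = ∑ x ∈ X \ G, (Fr x).card := by
      simp only [card_filter]
      rw [sum_comm]
      refine sum_congr rfl fun x _ => ?_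
      rw [← card_filter, filter_mem_eq_inter, univ_inter]
    have c2 : (X \ G).card * Fintype.card κ2 ≤ ∑ x ∈ X \ G, (Fr x).card := by
      have := card_nsmul_le_sum (X \ G) (fun x => (Fr x).card) _ fun x _ => cF x
      rwa [smul_eq_mul] at this
    have c3 : (X \ G).card + G.card = X.card := card_sdiff_add_card_eq_card hG
    have d1 : ((X \ G).card : ℝ) * Fintype.card κ2 ≤ ∑ U, (#{x ∈ X \ G | U ∈ Fr x} : ℝ) := by
      rw [← c1] at c2
      exact_mod_cast c2
    have d2 : ((X \ G).card : ℝ) + G.card = X.card := by exact_mod_cast c3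
    refine le_trans ?_ d1
    rw [div_mul_cancel₀ _ hc.ne']
    exact mul_le_mul_of_nonneg_right (by linarith) hw0.le
  · have d1 : (f : ℝ) ≤ 2 * Fintype.card κ2 := by exact_mod_cast hf
    have e2 : ε * (γ * X.card * Fintype.card κ2 / (Fintype.card α : ℝ) * (T + 1)) =
        X.card * (ε * (γ * (2 * Fintype.card κ2) * (T + 1)) / (2 * Fintype.card α)) := by
      field_simp
    rw [e2]
    refine le_mul_of_one_le_right hX0.le ((one_le_div (by positivity)).2 (hT.trans ?_))
    gcongr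

end Pool.Agent.SemiRandom.Und
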