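import Pool.Agent.P.MP_c53d0e_pr.UEV
import Pool.Agent.P.MP_c53d0e_pr.UE4

set_option autoImplicit false
set_option linter.unusedSectionVars false

namespace Pool.Agent.SemiRandom.Und

open Finset

open Function

variable {V : Type} [Fintype V] [DecidableEq V] {n m r s : ℕ} [Nonempty (RSet n r)]
  [Nonempty (Move n r s)]

lemma one_wmatch (κ : V × Fin m ↪ Fin n) (hr : 2 ≤ r) (hrs : r ≤ s) {e : Finset V}
    (he : e.card = s) {p z : V} (hp : p ∈ e) (hz : z ∈ e) (hpz : p ≠ z) (ψ : V → Fin m)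
    {w : ℕ} (lab : Fin w → Fin m) (hlab : Injective lab) {ι : Type} (X : Finset ι)
    (a a' : ι → Fin w) (Z : Fin w → Finset (Fin m)) (hZ : ∀ i i', i ≠ i' → Disjoint (Z i) (Z i'))
    (hZc : ∀ i, 2 * w ≤ (Z i).card) (f T : ℕ) (hf1 : 1 ≤ f) (hf : f ≤ 2 * w) {γ ε : ℝ}
    (hγ : 0 < γ) (hT : 2 * (Fintype.card (RSet n r) : ℝ) ≤ ε * (γ * f * (T + 1))) :
    Reach T (fun _ => True) (fun h : List (RSet n r × Move n r s) =>
      ∃ X' ⊆ X, (1 - γ) * X.card ≤ X'.card ∧ ∃ ζ : ι → Fin m,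
        (∀ x ∈ X', ζ x ∈ Z (a x) ∧ Pres κ h e (update (update ψ p (lab (a' x))) z (ζ x))) ∧
        ∀ x ∈ X', ∀ x' ∈ X', ζ x = ζ x' → a' x = a' x') ε := by
  have hK : ({p, z} : Finset V) ⊆ e := insert_subset hp (singleton_subset_iff.2 hz)
  obtain ⟨u, hKu, hue, hur⟩ := exists_subsuperset_card_eq hK
    (by rw [card_pair hpz]; exact hr) (he ▸ hrs)
  have hpu : p ∈ u := hKu (mem_insert_self _ _)
  have hzu : z ∈ u := hKu (mem_insert_of_mem (mem_singleton_self _))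
  have key : ∀ x b x' b' : Fin m, (∀ v ∈ u, update (update ψ p x) z b v =
      update (update ψ p x') z b' v) → x = x' ∧ b = b' := fun x b x' b' h => by
    have h1 := h p hpu
    have h2 := h z hzu
    rw [update_of_ne hpz, update_of_ne hpz, update_self, update_self] at h1
    rw [update_self, update_self] at h2
    exact ⟨h1, h2⟩
  obtain ⟨σ, U, hU, hσ⟩ := exists_answer (n := n) κ he hue hur
    {φ | ∃ x b, φ = update (update ψ p x) z b} (by
      rintro _ ⟨x, b, rfl⟩ _ ⟨x', b', rfl⟩ h3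
      obtain ⟨rfl, rfl⟩ := key x b x' b' h3
      exact fun _ _ => rfl)
  have : Nonempty (Fin m) := ⟨ψ p⟩
  refine Reach.imp (wmatch_phase σ X a a' Z hZ (by rwa [Fintype.card_fin])
    (fun j b => U (update (update ψ p (lab j)) z b)) (fun j j' b b' h => ?_) f T hf1
    (by rwa [Fintype.card_fin]) hγ hT) ?_
  · have h1 := key (lab j) b (lab j') b' (agree_of_map_eq κ (by rw [← hU, ← hU, h]))
    exact ⟨hlab h1.1, h1.2⟩
  · rintro h ⟨X', h3, h4, ζ, h5, h6⟩
    exact ⟨X', h3, h4, fun x => ζ (a x) (a' x), fun x hx =>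
      ⟨(h5 x hx).1, _, (h5 x hx).2, hσ _ ⟨_, _, rfl⟩⟩, h6⟩

end Pool.Agent.SemiRandom.Und
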