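import Pool.Agent.P.MP_c53d0e_pr.UEW

set_option autoImplicit false
set_option linter.unusedSectionVars false

namespace Pool.Agent.SemiRandom.Und

open Finset

variable {r s : ℕ} {P Ln : Type} [Fintype P] [DecidableEq P] [Fintype Ln] [DecidableEq Ln]
  {n m w f T : ℕ} {γ ε : ℝ} [Nonempty (RSet n r)] [Nonempty (Move n r s)]

open Function in
theorem top_step_UEX (hO : Ok r s P Ln) (I : Inst (r + r) P Ln)
    (κ : Vx r s P Ln × Fin m ↪ Fin n) (hN : Num r (Fintype.card Ln) n m w f T γ ε)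
    (ψ : Vx r s P Ln → Fin m) (lab : P → Fin w → Fin m) (hlab : ∀ p, Injective (lab p))
    (Zs : Px r Ln → Fin w → Finset (Fin m)) (hZ1 : ∀ x a, 2 * w ≤ (Zs x a).card)
    (hZ2 : ∀ x a a', a ≠ a' → Disjoint (Zs x a) (Zs x a')) (S' : Finset (P → Fin w))
    (Ψ : (P → Fin w) → Vx r s P Ln → Fin m) (D : Finset (Fin r)) (b : Fin r) (hb : b ∉ D) :
    Reach T (fun h => Lines I κ ψ lab Zs S' Ψ univ h ∧ Tops I κ Zs S' Ψ D h)
      (fun h => ∃ S'' ⊆ S', (1 - γ) * S'.card ≤ S''.card ∧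
        ∃ Ψ', Lines I κ ψ lab Zs S'' Ψ' univ h ∧ Tops I κ Zs S'' Ψ' (insert b D) h) ε := by
  have z1 : (0 : ℕ) < (Gp.W b : Gp r P Ln).M := Nat.one_pos
  have H := one_wmatch (n := n) κ hO.hr hO.lt.le (card_ed hO I ⟨.W b, ⟨0, z1⟩⟩)
    (p := Vx.pt (I.par2 b)) (z := Vx.z (Sum.inl b))
    (NN_subset_ed I ⟨.W b, ⟨0, z1⟩⟩ (by simp [NN])) (NN_subset_ed I ⟨.W b, ⟨0, z1⟩⟩ (by simp [NN]))
    (by simp) ψ (lab (I.par2 b)) (hlab _) S' (fun x => x (I.par (Sum.inl b)))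
    (fun x => x (I.par2 b)) (Zs (Sum.inl b)) (hZ2 _) (hZ1 _) f T (by have := hN.hf; omega)
    (by have := hN.fw; omega) hN.g0 hN.hT
  refine Reach.frame H (fun h l hA => ⟨Lines_mono ψ lab Zs S' Ψ univ h l hA.1,
    Tops_mono Zs S' Ψ D h l hA.2⟩) ?_
  rintro h ⟨hL, hT⟩ ⟨X, hX, hc, ζ, h1, h2⟩
  obtain ⟨Φ, hΦ⟩ : ∃ Φ : (P → Fin w) → Vx r s P Ln → Fin m,
      ∀ x, Φ x = update (Ψ x) (Vx.z (Sum.inl b)) (ζ x) := ⟨_, fun _ => rfl⟩
  refine ⟨X, hX, hc, Φ, fun x hx => ?_,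
    fun x hx b' hb' => ?_, fun b' hb' x hx x' hx' hq => ?_⟩
  · obtain ⟨a1, a2, a3, a4⟩ := hL x (hX hx)
    rw [hΦ]
    refine ⟨fun j => by rw [update_of_ne (by simp), a1], fun i => by rw [update_of_ne (by simp), a2],
      fun p => by rw [update_of_ne (by simp), a3], fun e he => ⟨fun l => ?_,
        (a4 e he).2.congr (fun j => by rw [update_of_ne (by simp)]) fun v hv => ?_⟩⟩
    · rw [update_of_ne (by simp)]
      exact (a4 e he).1 l
    · rw [update_of_ne]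
      rintro rfl
      simp [NN] at hv
  · obtain ⟨a1, a2, a3, a4⟩ := hL x (hX hx)
    rw [hΦ]
    rcases mem_insert.1 hb' with rfl | hb'
    · refine ⟨by rw [update_self]; exact (h1 x hx).1, fun i => ?_⟩
      obtain rfl : i = ⟨0, z1⟩ := Fin.ext (Nat.lt_one_iff.1 i.2)
      refine (h1 x hx).2.congr fun v hv => ?_
      rcases mem_union.1 (ed_subset I ⟨.W b', ⟨0, z1⟩⟩ hv) with h3 | h3
      · obtain ⟨j, rfl⟩ := (mem_CC v).1 h3
        rw [update_of_ne (by simp), update_of_ne (by simp), update_of_ne (by simp), a1]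
      · rcases mem_insert.1 h3 with rfl | h3
        · rw [update_of_ne (by simp), update_self, update_of_ne (by simp), a3]
        · rw [mem_singleton.1 h3, update_self, update_self]
    · have hne : b' ≠ b := fun e => hb (e ▸ hb')
      obtain ⟨c1, c2⟩ := hT.1 x (hX hx) b' hb'
      refine ⟨by rw [update_of_ne (by simp [hne])]; exact c1,
        c2.congr (fun j => by rw [update_of_ne (by simp)]) fun v hv => ?_⟩
      rw [update_of_ne]
      rintro rfl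
      simp [NN, hne.symm] at hv
  · rcases mem_insert.1 hb' with rfl | hb'
    · rw [hΦ, hΦ, update_self, update_self] at hq
      exact h2 x hx x' hx' hq
    · have hne : b' ≠ b := fun e => hb (e ▸ hb')
      rw [hΦ, hΦ, update_of_ne (by simp [hne]), update_of_ne (by simp [hne])] at hq
      exact hT.2 b' hb' x (hX hx) x' (hX hx') hq

theorem stage_W (hO : Ok r s P Ln) (I : Inst (r + r) P Ln) (κ : Vx r s P Ln × Fin m ↪ Fin n)
    (hN : Num r (Fintype.card Ln) n m w f T γ ε) (S : Finset (P → Fin w)) :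
    Reach (r * T)
      (fun h => ∃ ψ, ∃ (lab : P → Fin w → Fin m), ∃ Zs S' Ψ, Base I κ (2 * w) ψ lab Zs h ∧ S' ⊆ S ∧
        3 * S.card ≤ 4 * S'.card ∧ Lines I κ ψ lab Zs S' Ψ univ h)
      (fun h => ∃ ψ, ∃ (lab : P → Fin w → Fin m), ∃ Zs S' Ψ, Base I κ (2 * w) ψ lab Zs h ∧ S' ⊆ S ∧
        S.card ≤ 2 * S'.card ∧ Lines I κ ψ lab Zs S' Ψ univ h ∧ Tops I κ Zs S' Ψ univ h)
      (r * ε) := by
  refine Reach.ex fun ψ => Reach.ex fun lab => Reach.ex fun Zs => Reach.ex fun S' =>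
    Reach.ex fun Ψ => ?_
  have hg := hN.g0.le
  have H := Reach.finset (T := T) (univ : Finset (Fin r))
    (fun D (h : List (RSet n r × Move n r s)) => Base I κ (2 * w) ψ lab Zs h ∧ S' ⊆ S ∧
      3 * S.card ≤ 4 * S'.card ∧ ∃ S'' ⊆ S', (1 - D.card * γ) * S'.card ≤ S''.card ∧
        ∃ Ψ', Lines I κ ψ lab Zs S'' Ψ' univ h ∧ Tops I κ Zs S'' Ψ' D h)
    hN.e0 (by
      rintro D - b - hb h ⟨hB, hS, h34, S'', hS'', hc, Ψ', hL⟩
      refine (top_step_UEX hO I κ hN ψ lab hB.2.2.2.2.2 Zs hB.2.2.1 hB.2.2.2.1 S'' Ψ' D b hb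
        h hL).trans (Reach.post fun l hl => ?_)
      obtain ⟨S3, h1, h2, h3⟩ := hl
      refine ⟨Base_mono (2 * w) ψ lab Zs h l hB, hS, h34, S3, h1.trans hS'', le_trans ?_ h2, h3⟩
      have h4 : (S''.card : ℝ) ≤ S'.card := Nat.cast_le.2 (card_le_card hS'')
      rw [card_insert_of_notMem hb, Nat.cast_add, Nat.cast_one]
      nlinarith [mul_le_mul_of_nonneg_left h4 hg])
  rw [card_univ, Fintype.card_fin] at H
  refine Reach.imp (Reach.pre H fun h hB => ⟨hB.1, hB.2.1, hB.2.2.1, S', Subset.rfl, by simp, Ψ,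
    hB.2.2.2, fun x _ b hb => absurd hb (notMem_empty b),
    fun b hb => absurd hb (notMem_empty b)⟩) ?_
  rintro h ⟨hB, hS, h34, S'', hS'', hc, Ψ', hL, hT⟩
  refine ⟨ψ, lab, Zs, S'', Ψ', hB, hS''.trans hS, ?_, hL, hT⟩
  have h1 := hN.g1
  have h3 : 3 * (S.card : ℝ) ≤ 4 * S'.card := by exact_mod_cast h34
  have h2 : (S.card : ℝ) ≤ 2 * S''.card := by
    nlinarith [(Nat.cast_nonneg S'.card : (0 : ℝ) ≤ S'.card),
      (Nat.cast_nonneg S.card : (0 : ℝ) ≤ S.card)]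
  exact_mod_cast h2

end Pool.Agent.SemiRandom.Und
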