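import Pool.Agent.P.MP_c53d0e_pr.UE5
import Pool.Agent.P.MP_c53d0e_pr.UE6
import Pool.Agent.P.MP_c53d0e_pr.UE7
import Pool.Agent.P.MP_c53d0e_pr.UE8
import Pool.Agent.P.MP_c53d0e_pr.UE9
import Pool.Agent.P.MP_c53d0e_pr.UEX

set_option autoImplicit false
set_option linter.unusedSectionVars false

namespace Pool.Agent.SemiRandom.Und

open Finset

variable {r s : ℕ} {P Ln : Type} [Fintype P] [DecidableEq P] [Fintype Ln] [DecidableEq Ln]

theorem stages {n m w f T : ℕ} {γ ε : ℝ} [Nonempty (RSet n r)] [Nonempty (Move n r s)]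
    (hO : Ok r s P Ln) (I : Inst (r + r) P Ln) (hm : Fintype.card (Vx r s P Ln) * m ≤ n)
    (hN : Num r (Fintype.card Ln) n m w f T γ ε) (S : Finset (P → Fin w)) (hS : I.Exact S)
    (hS' : I.BasInj S) (hc : 2 * f ^ (r + r) ≤ S.card) :
    ∃ St : Strategy (RSet n r) (Move n r s),
      1 - (∑ g : Gp r P Ln, g.M : ℕ) * ε ≤ Pr St ((∑ g : Gp r P Ln, g.M) * T) (ContainsV (ed I s)) := by
  obtain ⟨κ⟩ : Nonempty (Vx r s P Ln × Fin m ↪ Fin n) :=
    Function.Embedding.nonempty_of_card_le (by simpa using hm)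
  have he := hN.e0
  have h1 := stage_Q hO I κ hN
  have h2 := h1.trans (stage_Y hO I κ hN) (by positivity)
  have h3 := h2.trans (stage_U hO I κ hN) (by positivity)
  have h4 := h3.trans (stage_E hO I κ hN) (by positivity)
  have h5 := h4.trans (stage_L hO I κ hN S hS) (by positivity)
  have h5' := h5.trans (stage_W hO I κ hN S) (by have := he; positivity)
  have h6 := h5'.trans (stage_T hO I κ hN S hS' hc) (by positivity)
  obtain ⟨St, hSt⟩ := Reach.strategy h6
  refine ⟨St, ?_⟩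
  have eT : (∑ g : Gp r P Ln, g.M) * T = (2 * r + 2) * T + 2 * r * (2 * T) + Fintype.card P * T +
      (r + Fintype.card Ln * 2) * T + Fintype.card Ln * ((2 * r - 2) * T) + r * T +
      2 * r * T := by
    rw [sum_M]; ring
  have eE : ((∑ g : Gp r P Ln, g.M : ℕ) : ℝ) * ε = ((2 * r + 2 : ℕ) : ℝ) * ε +
      ((2 * r : ℕ) : ℝ) * (2 * ε) + (Fintype.card P : ℝ) * ε +
      ((r + Fintype.card Ln * 2 : ℕ) : ℝ) * ε +
      (Fintype.card Ln : ℝ) * (((2 * r - 2 : ℕ) : ℝ) * ε) + (r : ℝ) * ε +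
      ((2 * r : ℕ) : ℝ) * ε := by
    rw [sum_M]
    generalize 2 * r - 2 = u
    push_cast
    ring
  rw [eT, eE]
  exact hSt

lemma power (I : Inst (r + r) P Ln) {w : ℕ} (S : Finset (P → Fin w)) (hS : I.Exact S) (hS' : I.BasInj S)
    (N : ℕ) : ∃ S' : Finset (P → Fin (w ^ N)), I.Exact S' ∧ I.BasInj S' ∧ S'.card = S.card ^ N := by
  classical
  let F : (Fin N → P → Fin w) → P → Fin (w ^ N) :=
    fun xs p => finFunctionFinEquiv (fun i => xs i p)
  have hF : ∀ xs ys p, F xs p = F ys p ↔ ∀ i, xs i p = ys i p := by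
    intro xs ys p
    constructor
    · intro h i
      exact congrFun (finFunctionFinEquiv.injective h) i
    · intro h
      exact congrArg finFunctionFinEquiv (funext h)
  have hinj : Function.Injective F := by
    intro xs ys h
    funext i p
    exact (hF xs ys p).1 (congrFun h p) i
  refine ⟨(Fintype.piFinset fun _ : Fin N => S).image F, ?_, ?_, ?_⟩
  · intro e x hx x' hx' h
    obtain ⟨xs, hxs, rfl⟩ := mem_image.1 hx
    obtain ⟨ys, hys, rfl⟩ := mem_image.1 hx'
    rw [Fintype.mem_piFinset] at hxs hys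
    exact (hF _ _ _).2 fun i => hS e _ (hxs i) _ (hys i) fun l => (hF _ _ _).1 (h l) i
  · intro x hx x' hx' h
    obtain ⟨xs, hxs, rfl⟩ := mem_image.1 hx
    obtain ⟨ys, hys, rfl⟩ := mem_image.1 hx'
    rw [Fintype.mem_piFinset] at hxs hys
    have : xs = ys := funext fun i => hS' _ (hxs i) _ (hys i) fun b => (hF _ _ _).1 (h b) i
    rw [this]
  · rw [card_image_of_injective _ hinj, Fintype.card_piFinset]
    simp

end Pool.Agent.SemiRandom.Und
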