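import Pool.Agent.P.MP_c53d0e_pr.UEY

set_option autoImplicit false
set_option linter.unusedSectionVars false

namespace Pool.Agent.SemiRandom.Und

open Finset

open Filter Topology

variable {r s : ℕ} {P Ln : Type} [Fintype P] [DecidableEq P] [Fintype Ln] [DecidableEq Ln]

/-- Choice of the parameters. -/
lemma params (r C : ℕ) (hr : 1 ≤ r) (hC : 1 ≤ C) {w : ℕ} (hw : 2 ≤ w) {θ : ℝ} (hθ : 0 < θ)
    (hθ1 : θ < 1) : ∃ c : ℝ, 0 < c ∧ ∀ᶠ n : ℕ in atTop, ∃ N f : ℕ, 2 ≤ f ∧ f ≤ w ^ N ∧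
      C * (w ^ N * w ^ N) ≤ n ∧ (2 * f ^ r : ℝ) ≤ ((w : ℝ) ^ ((r : ℝ) * (1 - θ))) ^ N ∧
      c * (n : ℝ) ^ ((1 - θ) / 2) ≤ f := by
  have hw1 : (1 : ℝ) ≤ w := by exact_mod_cast (by omega : 1 ≤ w)
  have hC1 : (1 : ℝ) ≤ C := by exact_mod_cast hC
  set A : ℝ := C * (w * w) with hA
  have hA1 : 1 ≤ A := one_le_mul_of_one_le_of_one_le hC1 (one_le_mul_of_one_le_of_one_le hw1 hw1)
  have hA0 : 0 < A := by linarith
  refine ⟨1 / (4 * A), by positivity, ?_⟩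
  have ht : Tendsto (fun n : ℕ => (n : ℝ) ^ ((1 - θ) / 2)) atTop atTop :=
    (tendsto_rpow_atTop (by linarith)).comp tendsto_natCast_atTop_atTop
  filter_upwards [ht.eventually_ge_atTop (4 * A), eventually_ge_atTop C] with n h4 hn
  have hww : 1 < w * w := by nlinarith
  have hq : n / C ≠ 0 := (Nat.div_pos hn hC).ne'
  set N := Nat.log (w * w) (n / C) with hN
  have l1 : (w * w) ^ N ≤ n / C := Nat.pow_log_le_self _ hq
  have l2 : n / C < (w * w) ^ (N + 1) := Nat.lt_pow_succ_log_self hww _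
  have l3 : n ≤ C * (w * w) ^ (N + 1) :=
    (Nat.lt_mul_div_succ n hC).le.trans (Nat.mul_le_mul_left _ l2)
  set y : ℝ := (w : ℝ) ^ N with hy
  have hy1 : 1 ≤ y := one_le_pow₀ hw1
  have hy0 : 0 ≤ y := by linarith
  have l4 : (n : ℝ) ≤ A * y ^ 2 := by
    have : (n : ℝ) ≤ (C * (w * w) ^ (N + 1) : ℕ) := by exact_mod_cast l3
    refine this.trans (le_of_eq ?_)
    push_cast; rw [hA, hy]; ring
  set x : ℝ := y ^ (1 - θ) with hx
  have l5 : (n : ℝ) ^ ((1 - θ) / 2) ≤ A * x := by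
    refine (Real.rpow_le_rpow (by positivity) l4 (by linarith)).trans ?_
    rw [Real.mul_rpow hA0.le (by positivity), ← Real.rpow_natCast, ← Real.rpow_mul hy0]
    have e : ((2 : ℕ) : ℝ) * ((1 - θ) / 2) = 1 - θ := by push_cast; ring
    rw [e]
    exact mul_le_mul_of_nonneg_right (Real.rpow_le_self_of_one_le hA1 (by linarith))
      (Real.rpow_nonneg hy0 _)
  have x4 : 4 ≤ x := le_of_mul_le_mul_left (by linarith) hA0
  have hxy : x ≤ y := Real.rpow_le_self_of_one_le hy1 (by linarith)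
  have f1 : (⌊x / 2⌋₊ : ℝ) ≤ x / 2 := Nat.floor_le (by linarith)
  have f2 : x / 2 < ⌊x / 2⌋₊ + 1 := Nat.lt_floor_add_one _
  refine ⟨N, ⌊x / 2⌋₊, Nat.le_floor (by push_cast; linarith), ?_, ?_, ?_, ?_⟩
  · have : (⌊x / 2⌋₊ : ℝ) ≤ (w ^ N : ℕ) := by push_cast; linarith
    exact_mod_cast this
  · rw [← mul_pow]
    exact (Nat.mul_le_mul_left _ l1).trans (Nat.mul_div_le n C)
  · have e : ((w : ℝ) ^ ((r : ℝ) * (1 - θ))) ^ N = x ^ r := by
      have w0 : (0 : ℝ) ≤ w := by linarith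
      rw [hx, hy, ← Real.rpow_natCast_mul w0, ← Real.rpow_mul_natCast w0,
        ← Real.rpow_mul_natCast w0]
      congr 1; ring
    rw [e]
    have h2 : (2 : ℝ) ≤ 2 ^ r := le_self_pow₀ one_le_two (by omega)
    calc (2 * (⌊x / 2⌋₊ : ℝ) ^ r) ≤ 2 ^ r * (x / 2) ^ r := by gcongr
      _ = x ^ r := by rw [← mul_pow]; congr 1; ring
  · rw [div_mul_eq_mul_div, one_mul, div_le_iff₀ (by positivity)]
    nlinarith

theorem yes_win (hO : Ok r s P Ln) (I : Inst (r + r) P Ln) (hY : I.Yes) {θ : ℝ} (hθ : 0 < θ) (q : ℝ)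
    (hq : q < 1) : ∃ c : ℝ, 0 < c ∧ ∀ᶠ n : ℕ in atTop,
      ∃ (S : Strategy (RSet n r) (Move n r s)) (T : ℕ),
        q ≤ Pr S T (ContainsV (ed I s)) ∧ (T : ℝ) ≤ c * (n : ℝ) ^ ((r : ℝ) - 1 / 2 + θ) := by
  have hr := hO.hr
  set θ' : ℝ := min θ (1 / 2) with hθ'
  have t0 : 0 < θ' := lt_min hθ (by norm_num)
  have t1 : θ' < 1 := (min_le_right _ _).trans_lt (by norm_num)
  have t2 : θ' ≤ θ := min_le_left _ _
  obtain ⟨w, S, hw, hE, hB, hS⟩ := hY θ' t0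
  set cV := Fintype.card (Vx r s P Ln) with hcV
  have cV0 : 0 < cV := Fintype.card_pos_iff.2 ⟨Vx.c 0⟩
  set nl := Fintype.card Ln with hnl
  set e2 := 2 ^ (r + nl * 2 + 3) with he2
  have e22 : 2 ≤ e2 := Nat.le_self_pow (by omega) 2
  obtain ⟨c, hc, hev⟩ := params (r + r) (cV * e2) (by omega) (Nat.mul_pos cV0 (by omega)) hw t0 t1
  set M : ℕ := ∑ g : Gp r P Ln, g.M with hM
  have M0 : 0 < M := by rw [hM, sum_M]; omega
  have M0' : (0 : ℝ) < M := by exact_mod_cast M0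
  have r0 : (0 : ℝ) < r := by exact_mod_cast (by omega : 0 < r)
  set L : ℝ := nl * (2 * r - 2 : ℕ) with hL
  have L0 : 0 ≤ L := by positivity
  set γ : ℝ := 1 / (4 * r + 4 * L) with hγ
  have γ0 : 0 < γ := by positivity
  set ε : ℝ := (1 - q) / M with hε
  have ε0 : 0 < ε := div_pos (by linarith) M0'
  refine ⟨M * 2 / (ε * γ * c), by positivity, ?_⟩
  filter_upwards [hev, eventually_ge_atTop r] with n ⟨N, f, f2, fw, hn, hf, hcf⟩ hrn
  have hcard : Fintype.card (RSet n r) = n.choose r := by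
    rw [Fintype.card_finset_len, Fintype.card_fin]
  have : Nonempty (RSet n r) := Fintype.card_pos_iff.1 (by rw [hcard]; exact Nat.choose_pos hrn)
  have : Nonempty (Move n r s) := ⟨Sym.replicate _ ⟨0, by omega⟩⟩
  have f0 : (0 : ℝ) < f := by exact_mod_cast (by omega : 0 < f)
  have n1 : (1 : ℝ) ≤ n := by exact_mod_cast (by omega : 1 ≤ n)
  have n0 : (0 : ℝ) < n := by linarith
  have hm : e2 * (w ^ N * w ^ N) ≤ n / cV :=
    (Nat.le_div_iff_mul_le cV0).2 (le_of_eq_of_le (by ring) hn)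
  set R : ℝ := 2 * (Fintype.card (RSet n r) : ℝ) / (ε * (γ * f)) with hR
  have R0 : 0 ≤ R := by positivity
  have hN : Num r nl n (n / cV) (w ^ N) f ⌊R⌋₊ γ ε :=
    { hf := f2
      hw := Nat.one_le_pow _ _ (by omega)
      m1 := le_trans (by rw [sq]; exact Nat.mul_le_mul e22 (Nat.mul_le_mul fw fw)) hm
      m2 := by rw [mul_assoc]; exact hm
      fw := fw
      g0 := γ0
      g1 := by rw [hγ, div_mul_eq_mul_div, div_le_iff₀ (by positivity)]; linarith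
      g2 := by rw [hγ, div_mul_eq_mul_div, div_le_iff₀ (by positivity)]; linarith
      e0 := ε0.le
      hT := by
        have := (Nat.lt_floor_add_one R).le
        rw [hR, div_le_iff₀ (by positivity)] at this
        exact this.trans (le_of_eq (by rw [← hR]; ring)) }
  obtain ⟨S', hE', hB', hS'⟩ := power I S hE hB N
  have hc2 : 2 * f ^ (r + r) ≤ S'.card := by
    have : (2 * f ^ (r + r) : ℝ) ≤ (S.card : ℝ) ^ N :=
      hf.trans (pow_le_pow_left₀ (by positivity) hS N)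
    rw [hS']; exact_mod_cast this
  obtain ⟨St, hSt⟩ := stages hO I (Nat.mul_div_le n cV) hN S' hE' hB' hc2
  refine ⟨St, M * ⌊R⌋₊, le_of_eq_of_le ?_ hSt, ?_⟩
  · rw [← hM, hε]; field_simp; ring
  · have c1 : (Fintype.card (RSet n r) : ℝ) ≤ (n : ℝ) ^ (r : ℝ) := by
      rw [hcard, Real.rpow_natCast]; exact_mod_cast Nat.choose_le_pow n r
    have p0 : 0 < (n : ℝ) ^ ((1 - θ') / 2) := Real.rpow_pos_of_pos n0 _
    have c2 : (n : ℝ) ^ (r : ℝ) ≤ (n : ℝ) ^ ((r : ℝ) - 1 / 2 + θ) * (n : ℝ) ^ ((1 - θ') / 2) := by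
      rw [← Real.rpow_add n0]
      exact Real.rpow_le_rpow_of_exponent_le n1 (by linarith)
    have c3 : R ≤ 2 / (ε * γ * c) * (n : ℝ) ^ ((r : ℝ) - 1 / 2 + θ) := by
      calc R ≤ 2 * ((n : ℝ) ^ ((r : ℝ) - 1 / 2 + θ) * (n : ℝ) ^ ((1 - θ') / 2)) /
            (ε * (γ * (c * (n : ℝ) ^ ((1 - θ') / 2)))) := by
            rw [hR]; gcongr; exact c1.trans c2
        _ = _ := by field_simp
    push_cast
    calc (M : ℝ) * ⌊R⌋₊ ≤ M * (2 / (ε * γ * c) * (n : ℝ) ^ ((r : ℝ) - 1 / 2 + θ)) :=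
          mul_le_mul_of_nonneg_left ((Nat.floor_le R0).trans c3) M0'.le
      _ = _ := by ring

end Pool.Agent.SemiRandom.Und
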