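import Pool.Agent.P.MP_c53d0e_pr.U0

set_option autoImplicit false
set_option linter.unusedSectionVars false

namespace Pool.Agent.SemiRandom.Und

open Finset

abbrev Q4 : Type := ℕ × ℕ × ℕ × ℕ
abbrev Line : Type := ℕ × ℕ × ℕ
/-- A presentation: number of generators, relations, separations. -/
abbrev Prs : Type := ℕ × List Q4 × List Q4

def NProp {G : Type} (one zero : G) (Rel Sep : Set (G × G × G × G)) : Prop :=
  ∀ (M : Type) (ρ : G → M → M) (Z : M → Prop), (∀ t, ρ one t = t) → (∀ t, Z (ρ zero t)) →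
    (∀ x y, Z x → Z y → x = y) →
    (∀ a b c d, (a, b, c, d) ∈ Rel → ∀ t, ρ a (ρ b t) = ρ c (ρ d t)) →
    (∀ a b c d, (a, b, c, d) ∈ Sep → ∀ t, ρ a t = ρ b t → ρ c t = ρ d t → Z t) → ∀ t, Z t

def YProp {G : Type} (one zero : G) (Rel Sep : Set (G × G × G × G)) : Prop :=
  ∀ θ : ℝ, 0 < θ → ∃ (V : Type) (_ : AddCommGroup V) (_ : Fintype V) (V' : AddSubgroup V)
    (ρ : G → V →+ V), 2 ≤ Fintype.card V ∧ (Fintype.card V : ℝ) ^ (1 - θ) ≤ Nat.card V' ∧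
    (∀ t, ρ one t = t) ∧ (∀ t, ρ zero t = 0) ∧
    (∀ a b c d, (a, b, c, d) ∈ Rel → ∀ t, ρ a (ρ b t) = ρ c (ρ d t)) ∧
    ∀ a b c d, (a, b, c, d) ∈ Sep → ∀ t ∈ V', ρ a t = ρ b t → ρ c t = ρ d t → t = 0

def Prs.N (p : Prs) : Prop := NProp 0 1 {x | x ∈ p.2.1} {x | x ∈ p.2.2}
def Prs.Y (p : Prs) : Prop := YProp 0 1 {x | x ∈ p.2.1} {x | x ∈ p.2.2}

def Prs.WF (p : Prs) : Prop :=
  2 ≤ p.1 ∧ ∀ x, x ∈ p.2.1 ∨ x ∈ p.2.2 → x.1 < p.1 ∧ x.2.1 < p.1 ∧ x.2.2.1 < p.1 ∧ x.2.2.2 < p.1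

/-- Index of the point `A_i - g A_j`. -/
def ptP (K g i j : ℕ) : ℕ := K + (g * K + i) * K + j

/-- Auxiliary generator for the composite of `a` and `b`. -/
def cmpG (n a b : ℕ) : ℕ := n + (a * n + b)

/-- Auxiliary generator for the identity minus `a` plus `b`. -/
def difG (n a b : ℕ) : ℕ := n + n * n + (a * n + b)

/-- Number of generators, the auxiliary ones included. -/
def Prs.G (p : Prs) : ℕ := p.1 + p.1 * p.1 + p.1 * p.1

def relL (K n : ℕ) (c x : Q4) : List Line :=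
  [(ptP K x.2.1 c.1 c.2.1, ptP K x.1 c.2.2.1 c.1, ptP K (cmpG n x.1 x.2.1) c.2.2.1 c.2.1),
    (ptP K (cmpG n x.1 x.2.1) c.2.2.1 c.2.1, ptP K x.2.2.2 c.2.2.2 c.2.1,
      ptP K x.2.2.1 c.2.2.1 c.2.2.2)]

def sepL (K n : ℕ) (c x : Q4) : List Line :=
  [(ptP K x.1 c.1 c.2.1, ptP K x.2.1 c.1 c.2.1, ptP K (difG n x.1 x.2.1) c.2.1 c.2.1),
    (ptP K x.2.2.1 c.2.2.2 c.2.1, ptP K x.2.2.2 c.2.2.2 c.2.1,
      ptP K (difG n x.2.2.1 x.2.2.2) c.2.1 c.2.1),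
    (ptP K (difG n x.1 x.2.1) c.2.1 c.2.1, ptP K (difG n x.2.2.1 x.2.2.2) c.2.1 c.2.1, c.2.1)]

def genL (K : ℕ) (c : Q4) (g : ℕ) : List Line :=
  [(c.1, c.2.1, ptP K g c.1 c.2.1), (c.1, c.1, ptP K g c.1 c.1), (ptP K g c.1 c.2.1, c.2.1, c.1),
    (ptP K g c.1 c.2.1, ptP K 0 c.2.2.2 c.1, ptP K g c.2.2.2 c.2.1),
    (ptP K g c.1 c.2.1, ptP K 0 c.2.2.2 c.2.1, ptP K g c.1 c.2.2.2),
    (ptP K g c.1 c.2.1, ptP K g c.2.2.2 c.2.1, ptP K 0 c.1 c.2.2.2)]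

def globL (K : ℕ) (c : Q4) : List Line :=
  [(ptP K 1 c.1 c.2.1, ptP K 1 c.1 c.2.1, c.1),
    (ptP K 0 c.1 c.2.1, ptP K 0 c.1 c.2.1, ptP K 0 c.2.1 c.1)]

/-- Four different colours below `K`. -/
def Col (K : ℕ) (c : Q4) : Prop :=
  c.1 < K ∧ c.2.1 < K ∧ c.2.2.1 < K ∧ c.2.2.2 < K ∧ c.1 ≠ c.2.1 ∧ c.1 ≠ c.2.2.1 ∧ c.1 ≠ c.2.2.2 ∧
    c.2.1 ≠ c.2.2.1 ∧ c.2.1 ≠ c.2.2.2 ∧ c.2.2.1 ≠ c.2.2.2

instance (K : ℕ) : DecidablePred (Col K) := fun c => by unfold Col; infer_instance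

def cols (K : ℕ) : List Q4 :=
  ((List.range K).flatMap fun a => (List.range K).flatMap fun b => (List.range K).flatMap fun c =>
    (List.range K).map fun d => (a, b, c, d)).filter fun c => Col K c

lemma mem_cols {K : ℕ} {c : Q4} : c ∈ cols K ↔ Col K c := by
  obtain ⟨a, b, c, d⟩ := c
  simp only [cols, List.mem_filter, List.mem_flatMap, List.mem_map, List.mem_range, Prod.mk.injEq,
    decide_eq_true_eq, and_iff_right_iff_imp]
  intro h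
  exact ⟨a, h.1, b, h.2.1, c, h.2.2.1, d, h.2.2.2.1, rfl, rfl, rfl, rfl⟩

def lines (K : ℕ) (p : Prs) : List Line :=
  (cols K).flatMap fun c => globL K c ++ (List.range p.G).flatMap (genL K c) ++
    p.2.1.flatMap (relL K p.1 c) ++ p.2.2.flatMap (sepL K p.1 c)

lemma mem_lines {K : ℕ} {p : Prs} {ln : Line} : ln ∈ lines K p ↔ ∃ c, Col K c ∧
    (ln ∈ globL K c ∨ (∃ g < p.G, ln ∈ genL K c g) ∨ (∃ x ∈ p.2.1, ln ∈ relL K p.1 c x) ∨
      ∃ x ∈ p.2.2, ln ∈ sepL K p.1 c x) := by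
  simp only [lines, List.mem_flatMap, mem_cols, List.mem_append, List.mem_range, or_assoc]

/-- Number of points minus one. -/
def npts (K : ℕ) (p : Prs) : ℕ := K + p.G * K * K - 1

def Line.src (ln : Line) : Fin 2 → ℕ := ![ln.1, ln.2.1]

/-- The instance given by a list of lines on the points `0, ..., np`. -/
def instOf (r np : ℕ) (Ls : List Line) : Inst r (Fin (np + 1)) (Fin Ls.length) where
  bas b := Fin.ofNat (np + 1) b
  src e l := Fin.ofNat (np + 1) ((Ls.get e).src l)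
  tgt e := Fin.ofNat (np + 1) (Ls.get e).2.2

/-- Value of an assignment at a numbered point. -/
def ev {np : ℕ} {W : Type} (x : Fin (np + 1) → W) (a : ℕ) : W := x (Fin.ofNat (np + 1) a)

lemma exact_iff {r np : ℕ} {Ls : List Line} {W : Type} (S : Finset (Fin (np + 1) → W)) :
    (instOf r np Ls).Exact S ↔ ∀ ln ∈ Ls, ∀ x ∈ S, ∀ x' ∈ S, ev x ln.1 = ev x' ln.1 →
      ev x ln.2.1 = ev x' ln.2.1 → ev x ln.2.2 = ev x' ln.2.2 := by
  constructor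
  · intro H ln hln x hx x' hx' h0 h1
    obtain ⟨e, rfl⟩ := List.mem_iff_get.1 hln
    refine H e x hx x' hx' fun l => ?_
    fin_cases l
    exacts [h0, h1]
  · intro H e x hx x' hx' h
    exact H _ (List.get_mem Ls e) x hx x' hx' (h 0) (h 1)

/-- The instance of a presentation. -/
abbrev Prs.inst (K : ℕ) (p : Prs) := instOf K (npts K p) (lines K p)

/-- The lines as Horn rules for vertices of `F` with different colours. -/
structure Horn (K : ℕ) (p : Prs) {Vt : Type} (col : Vt → Fin K) (F : Set Vt) (eA : Vt → Prop)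
    (eP : ℕ → Vt → Vt → Prop) : Prop where
  defP : ∀ g < p.1, ∀ u ∈ F, ∀ t ∈ F, col u ≠ col t → eA u → eA t → eP g u t
  invP : ∀ g < p.1, ∀ u ∈ F, ∀ t ∈ F, col u ≠ col t → eP g u t → eA t → eA u
  zero : ∀ u ∈ F, ∀ t ∈ F, col u ≠ col t → eP 1 u t → eA u
  symm : ∀ u ∈ F, ∀ t ∈ F, col u ≠ col t → eP 0 u t → eP 0 t u
  t1 : ∀ g < p.1, ∀ u ∈ F, ∀ t ∈ F, ∀ v ∈ F, col u ≠ col t → col u ≠ col v → col t ≠ col v →
    eP g u t → eP 0 v u → eP g v t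
  t2 : ∀ g < p.1, ∀ u ∈ F, ∀ t ∈ F, ∀ v ∈ F, col u ≠ col t → col u ≠ col v → col t ≠ col v →
    eP g u t → eP 0 v t → eP g u v
  fn : ∀ g < p.1, ∀ u ∈ F, ∀ t ∈ F, ∀ v ∈ F, col u ≠ col t → col u ≠ col v → col t ≠ col v →
    eP g u t → eP g v t → eP 0 u v
  rel : ∀ a b c d, (a, b, c, d) ∈ p.2.1 → ∀ u ∈ F, ∀ t ∈ F, ∀ s ∈ F, ∀ v ∈ F, col u ≠ col t →
    col u ≠ col s → col u ≠ col v → col t ≠ col s → col t ≠ col v → col s ≠ col v →
    eP b u t → eP a s u → eP d v t → eP c s v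
  sep : ∀ a b c d, (a, b, c, d) ∈ p.2.2 → ∀ u ∈ F, ∀ t ∈ F, ∀ v ∈ F, col u ≠ col t →
    col u ≠ col v → col t ≠ col v → eP a u t → eP b u t → eP c v t → eP d v t → eA t

/-- Formal vertices. -/
inductive Vt (K : ℕ) : Type
  | free (i : Fin K)
  | app (g : ℕ) (i : Fin K) (t : Vt K)
  deriving DecidableEq

def Vt.col {K : ℕ} : Vt K → Fin K
  | .free i => i
  | .app _ i _ => i

/-- `F` is a finite certificate that the free vertex of colour `i0` is determined. -/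
def Cert (K : ℕ) (p : Prs) (i0 : Fin K) (F : Finset (Vt K)) : Prop :=
  (∀ i, Vt.free i ∈ F) ∧ (∀ g i t, Vt.app g i t ∈ F → t ∈ F) ∧
    ∀ (eA : Vt K → Prop) (eP : ℕ → Vt K → Vt K → Prop), Horn K p Vt.col F eA eP →
      (∀ g i t, Vt.app g i t ∈ F → g < p.1 → i ≠ t.col → eP g (Vt.app g i t) t) → eA (Vt.free i0)

end Pool.Agent.SemiRandom.Und
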