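import Pool.Agent.P.MP_c53d0e_pr.UF0

set_option autoImplicit false
set_option linter.unusedSectionVars false

namespace Pool.Agent.SemiRandom.Und

open Finset

variable {K : ℕ} {p : Prs}

lemma lt_G {g : ℕ} (hg : g < p.1) : g < p.G := by
  unfold Prs.G; omega

lemma pair_lt_UF1 {n a b : ℕ} (ha : a < n) (hb : b < n) : a * n + b < n * n := by
  have : (a + 1) * n ≤ n * n := Nat.mul_le_mul_right n ha
  rw [Nat.add_mul, Nat.one_mul] at this
  omega

lemma cmpG_lt {a b : ℕ} (ha : a < p.1) (hb : b < p.1) : cmpG p.1 a b < p.G := by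
  have := pair_lt_UF1 ha hb
  unfold cmpG Prs.G; omega

lemma difG_lt {a b : ℕ} (ha : a < p.1) (hb : b < p.1) : difG p.1 a b < p.G := by
  have := pair_lt_UF1 ha hb
  unfold difG Prs.G; omega

lemma ptP_le (hW : p.WF) {g i j : ℕ} (hg : g < p.G) (hi : i < K) (hj : j < K) :
    ptP K g i j ≤ npts K p := by
  have h1 : g * K + i + 1 ≤ p.G * K := by
    have : (g + 1) * K ≤ p.G * K := Nat.mul_le_mul_right K hg
    rw [Nat.add_mul, Nat.one_mul] at this
    omega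
  have h2 : (g * K + i + 1) * K ≤ p.G * K * K := Nat.mul_le_mul_right K h1
  rw [Nat.add_mul, Nat.one_mul] at h2
  unfold ptP npts
  omega

lemma lt_npts (hW : p.WF) {i : ℕ} (hi : i < K) : i ≤ npts K p := by
  unfold npts
  omega

lemma ptP_decode {g i j : ℕ} (hi : i < K) (hj : j < K) :
    K ≤ ptP K g i j ∧ (ptP K g i j - K) / (K * K) = g ∧ (ptP K g i j - K) / K % K = i ∧
      (ptP K g i j - K) % K = j := by
  have hK : 0 < K := by omega
  have h0 : ptP K g i j - K = j + (g * K + i) * K := by unfold ptP; omega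
  have h1 : (j + (g * K + i) * K) / K = g * K + i := by
    rw [Nat.add_mul_div_right _ _ hK, Nat.div_eq_of_lt hj, Nat.zero_add]
  refine ⟨by unfold ptP; omega, ?_, ?_, ?_⟩
  · rw [h0, ← Nat.div_div_eq_div_mul, h1, Nat.add_comm, Nat.add_mul_div_right _ _ hK,
      Nat.div_eq_of_lt hi, Nat.zero_add]
  · rw [h0, h1, Nat.add_comm, Nat.add_mul_mod_self_right, Nat.mod_eq_of_lt hi]
  · rw [h0, Nat.add_mul_mod_self_right, Nat.mod_eq_of_lt hj]

lemma point_cases (hK : 1 ≤ K) {a : ℕ} (ha : a ≤ npts K p) :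
    a < K ∨ ∃ g < p.G, ∃ i < K, ∃ j < K, a = ptP K g i j := by
  by_cases h : a < K
  · exact Or.inl h
  · right
    have hK' : 0 < K := hK
    have h1 : a - K < p.G * K * K := by unfold npts at ha; omega
    have h2 : (a - K) / K < p.G * K := (Nat.div_lt_iff_lt_mul hK').2 h1
    refine ⟨(a - K) / K / K, (Nat.div_lt_iff_lt_mul hK').2 h2, (a - K) / K % K,
      Nat.mod_lt _ hK', (a - K) % K, Nat.mod_lt _ hK', ?_⟩
    unfold ptP
    rw [Nat.div_add_mod' ((a - K) / K) K, Nat.add_assoc, Nat.div_add_mod' (a - K) K]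
    omega

lemma fresh_UF1 (i j l : ℕ) : ∃ a, a < 4 ∧ a ≠ i ∧ a ≠ j ∧ a ≠ l := by
  by_cases h0 : i ≠ 0 ∧ j ≠ 0 ∧ l ≠ 0
  · exact ⟨0, by omega, by omega, by omega, by omega⟩
  by_cases h1 : i ≠ 1 ∧ j ≠ 1 ∧ l ≠ 1
  · exact ⟨1, by omega, by omega, by omega, by omega⟩
  by_cases h2 : i ≠ 2 ∧ j ≠ 2 ∧ l ≠ 2
  · exact ⟨2, by omega, by omega, by omega, by omega⟩
  exact ⟨3, by omega, by omega, by omega, by omega⟩

lemma exists_col2 (hK : 4 ≤ K) {i j : ℕ} (hi : i < K) (hj : j < K) (hij : i ≠ j) :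
    ∃ a b, Col K (i, j, a, b) := by
  obtain ⟨l, hl, h1, h2⟩ : ∃ l, l < 3 ∧ l ≠ i ∧ l ≠ j := by
    by_cases h0 : i ≠ 0 ∧ j ≠ 0
    · exact ⟨0, by omega, by omega, by omega⟩
    by_cases h1 : i ≠ 1 ∧ j ≠ 1
    · exact ⟨1, by omega, by omega, by omega⟩
    exact ⟨2, by omega, by omega, by omega⟩
  obtain ⟨a, ha, h3, h4, h5⟩ := fresh_UF1 i j l
  refine ⟨a, l, ?_⟩
  unfold Col
  dsimp only
  omega

lemma exists_col3 (hK : 4 ≤ K) {i j l : ℕ} (hi : i < K) (hj : j < K) (hl : l < K) (hij : i ≠ j)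
    (hil : i ≠ l) (hjl : j ≠ l) : ∃ a, Col K (i, j, a, l) := by
  obtain ⟨a, ha, h3, h4, h5⟩ := fresh_UF1 i j l
  refine ⟨a, ?_⟩
  unfold Col
  dsimp only
  omega

lemma ofNat_UF1 {n : ℕ} (x : Fin (n + 1)) : Fin.ofNat (n + 1) (x : ℕ) = x :=
  Fin.ext (Nat.mod_eq_of_lt x.2)

lemma other_UF1 (hK : 4 ≤ K) {i : ℕ} (hi : i < K) : ∃ j a b, Col K (i, j, a, b) := by
  obtain ⟨j, hj, h1, -, -⟩ := fresh_UF1 i i i
  obtain ⟨a, b, h⟩ := exists_col2 hK hi (j := j) (by omega) h1.symm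
  exact ⟨j, a, b, h⟩

lemma lineP_UF1 (hK : 4 ≤ K) {g i j : ℕ} (hg : g < p.G) (hi : i < K) (hj : j < K) :
    ∃ ln ∈ lines K p, ln.1 < K ∧ ln.2.1 < K ∧ ln.2.2 = ptP K g i j := by
  by_cases hij : i = j
  · subst hij
    obtain ⟨j, a, b, h⟩ := other_UF1 hK hi
    exact ⟨(i, i, ptP K g i i),
      mem_lines.2 ⟨_, h, Or.inr (Or.inl ⟨g, hg, by simp [genL]⟩)⟩, hi, hi, rfl⟩
  · obtain ⟨a, b, h⟩ := exists_col2 hK hi hj hij
    exact ⟨(i, j, ptP K g i j),
      mem_lines.2 ⟨_, h, Or.inr (Or.inl ⟨g, hg, by simp [genL]⟩)⟩, hi, hj, rfl⟩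

theorem bas_inj {np : ℕ} (hK : K ≤ np + 1) (Ls : List Line) :
    Function.Injective (instOf K np Ls).bas := by
  intro b b' h
  have h1 := congrArg Fin.val h
  have h2 := b.2
  have h3 := b'.2
  simp only [instOf, Fin.val_ofNat] at h1
  rw [Nat.mod_eq_of_lt (by omega), Nat.mod_eq_of_lt (by omega)] at h1
  exact Fin.ext h1

lemma le_npts : K ≤ npts K p + 1 := by
  unfold npts
  omega

theorem basInj_of_exact (hK : 4 ≤ K) (hW : p.WF) {W : Type}
    {S : Finset (Fin (npts K p + 1) → W)} (hS : (p.inst K).Exact S) : (p.inst K).BasInj S := by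
  intro x hx x' hx' hb
  have hax : ∀ i < K, ev x i = ev x' i := fun i hi => hb ⟨i, hi⟩
  have hE := (exact_iff S).1 hS
  funext a
  have ha : ev x a = ev x' a := by
    rcases point_cases (p := p) (by omega) (Nat.lt_succ_iff.1 a.2) with h | ⟨g, hg, i, hi, j, hj, h⟩
    · exact hax _ h
    · rw [h]
      obtain ⟨ln, hln, h1, h2, h5⟩ := lineP_UF1 hK hg hi hj
      rw [← h5]
      exact hE ln hln x hx x' hx' (hax _ h1) (hax _ h2)
  simpa only [ev, ofNat_UF1] using ha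

end Pool.Agent.SemiRandom.Und
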