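import Pool.Agent.P.MP_c53d0e_pr.UF1

set_option autoImplicit false
set_option linter.unusedSectionVars false

namespace Pool.Agent.SemiRandom.Und

open Finset

/-- The value of the numbered point `a` for basis values `X`. -/
def val_UF2 {V : Type} [AddCommGroup V] (K : ℕ) (ρ : ℕ → V →+ V) (X : ℕ → V) (a : ℕ) : V :=
  if a < K then X a else X ((a - K) / K % K) - ρ ((a - K) / (K * K)) (X ((a - K) % K))

lemma val_lt_UF2 {V : Type} [AddCommGroup V] {K : ℕ} (ρ : ℕ → V →+ V) (X : ℕ → V) {a : ℕ}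
    (ha : a < K) : val_UF2 K ρ X a = X a := by
  simp [val_UF2, ha]

lemma val_ptP_UF2 {V : Type} [AddCommGroup V] {K : ℕ} (ρ : ℕ → V →+ V) (X : ℕ → V) {g i j : ℕ}
    (hi : i < K) (hj : j < K) : val_UF2 K ρ X (ptP K g i j) = X i - ρ g (X j) := by
  obtain ⟨h0, h1, h2, h3⟩ := ptP_decode (g := g) hi hj
  rw [val_UF2, if_neg (not_lt.2 h0), h1, h2, h3]

lemma ev_UF2 {np : ℕ} {W : Type} (f : ℕ → W) {a : ℕ} (ha : a ≤ np) :
    ev (fun b : Fin (np + 1) => f b) a = f a := by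
  simp only [ev, Fin.val_ofNat]
  rw [Nat.mod_eq_of_lt (Nat.lt_succ_of_le ha)]

/-- Extension of basis values by zero. -/
def ext_UF2 {V : Type} [AddCommGroup V] {K : ℕ} {V' : AddSubgroup V} (X : Fin K → V') (a : ℕ) :
    V :=
  if h : a < K then (X ⟨a, h⟩ : V) else 0

lemma ext_mem_UF2 {V : Type} [AddCommGroup V] {K : ℕ} {V' : AddSubgroup V} (X : Fin K → V')
    (a : ℕ) : ext_UF2 X a ∈ V' := by
  unfold ext_UF2
  split_ifs with h
  · exact (X ⟨a, h⟩).2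
  · exact V'.zero_mem

/-- The model of the auxiliary generators. -/
def aux_UF2 {V : Type} [AddCommGroup V] (n : ℕ) (ρ : ℕ → V →+ V) (g : ℕ) : V →+ V :=
  if g < n then ρ g else if g < n + n * n then (ρ ((g - n) / n)).comp (ρ ((g - n) % n))
  else AddMonoidHom.id V - ρ ((g - (n + n * n)) / n) + ρ ((g - (n + n * n)) % n)

lemma dm_UF2 {n a b : ℕ} (hb : b < n) : (a * n + b) / n = a ∧ (a * n + b) % n = b := by
  have hn : 0 < n := by omega
  constructor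
  · rw [Nat.add_comm, Nat.add_mul_div_right _ _ hn, Nat.div_eq_of_lt hb, Nat.zero_add]
  · rw [Nat.add_comm, Nat.add_mul_mod_self_right, Nat.mod_eq_of_lt hb]

lemma aux_lt_UF2 {V : Type} [AddCommGroup V] {n : ℕ} (ρ : ℕ → V →+ V) {g : ℕ} (hg : g < n) :
    aux_UF2 n ρ g = ρ g := if_pos hg

lemma aux_cmp_UF2 {V : Type} [AddCommGroup V] {n : ℕ} (ρ : ℕ → V →+ V) {a b : ℕ} (ha : a < n)
    (hb : b < n) (t : V) : aux_UF2 n ρ (cmpG n a b) t = ρ a (ρ b t) := by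
  have := pair_lt_UF1 ha hb
  unfold aux_UF2 cmpG
  rw [if_neg (by omega), if_pos (by omega), Nat.add_sub_cancel_left, (dm_UF2 hb).1, (dm_UF2 hb).2]
  rfl

lemma aux_dif_UF2 {V : Type} [AddCommGroup V] {n : ℕ} (ρ : ℕ → V →+ V) {a b : ℕ}
    (hb : b < n) (t : V) : t = aux_UF2 n ρ (difG n a b) t ↔ ρ a t = ρ b t := by
  unfold aux_UF2 difG
  rw [if_neg (by omega), if_neg (by omega), Nat.add_sub_cancel_left, (dm_UF2 hb).1, (dm_UF2 hb).2]
  change t = t - ρ a t + ρ b t ↔ _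
  rw [sub_add, eq_comm, sub_eq_self, sub_eq_zero]

lemma horn_UF2 {V : Type} [AddCommGroup V] {K : ℕ} {p : Prs} (hW : p.WF) (ρ : ℕ → V →+ V)
    (V' : AddSubgroup V) (D : ℕ → V) (hD : ∀ a, D a ∈ V') (E : ℕ → Prop)
    (EA : ∀ i < K, E i ↔ D i = 0)
    (EP : ∀ g < p.G, ∀ i < K, ∀ j < K, E (ptP K g i j) ↔ D i = aux_UF2 p.1 ρ g (D j))
    (h1 : ∀ t, ρ 0 t = t) (h0 : ∀ t, ρ 1 t = 0)
    (hR : ∀ a b c d, (a, b, c, d) ∈ p.2.1 → ∀ t, ρ a (ρ b t) = ρ c (ρ d t))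
    (hS : ∀ a b c d, (a, b, c, d) ∈ p.2.2 → ∀ t ∈ V', ρ a t = ρ b t → ρ c t = ρ d t → t = 0)
    {ln : Line} (hln : ln ∈ lines K p) : E ln.1 → E ln.2.1 → E ln.2.2 := by
  obtain ⟨⟨c1, c2, c3, c4⟩, hc, hl⟩ := mem_lines.1 hln
  obtain ⟨k1, k2, k3, k4, -⟩ := hc
  simp only at k1 k2 k3 k4
  have g0 : 0 < p.1 := lt_of_lt_of_le (by norm_num) hW.1
  have g1 : 1 < p.1 := lt_of_lt_of_le (by norm_num) hW.1
  have EQ : ∀ g < p.1, ∀ i < K, ∀ j < K, E (ptP K g i j) ↔ D i = ρ g (D j) := by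
    intro g hg i hi j hj
    rw [EP g (lt_G hg) i hi j hj, aux_lt_UF2 ρ hg]
  have E0 : ∀ i < K, ∀ j < K, E (ptP K 0 i j) ↔ D i = D j := by
    intro i hi j hj
    rw [EQ 0 g0 i hi j hj, h1]
  rcases hl with hl | ⟨g, hg, hl⟩ | ⟨⟨a, b, c, d⟩, hx, hl⟩ | ⟨⟨a, b, c, d⟩, hx, hl⟩
  · simp only [globL, List.mem_cons, List.not_mem_nil, or_false] at hl
    rcases hl with rfl | rfl
    · simp only
      rw [EQ 1 g1 c1 k1 c2 k2, EA c1 k1, h0]
      exact fun h _ => h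
    · simp only
      rw [E0 c1 k1 c2 k2, E0 c2 k2 c1 k1]
      exact fun h _ => h.symm
  · simp only [genL, List.mem_cons, List.not_mem_nil, or_false] at hl
    rcases hl with rfl | rfl | rfl | rfl | rfl | rfl
    · simp only
      rw [EA c1 k1, EA c2 k2, EP g hg c1 k1 c2 k2]
      intro h h'
      rw [h, h', map_zero]
    · simp only
      rw [EA c1 k1, EP g hg c1 k1 c1 k1]
      intro h _
      rw [h, map_zero]
    · simp only
      rw [EA c1 k1, EA c2 k2, EP g hg c1 k1 c2 k2]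
      intro h h'
      rw [h, h', map_zero]
    · simp only
      rw [EP g hg c1 k1 c2 k2, E0 c4 k4 c1 k1, EP g hg c4 k4 c2 k2]
      exact fun h h' => h'.trans h
    · simp only
      rw [EP g hg c1 k1 c2 k2, E0 c4 k4 c2 k2, EP g hg c1 k1 c4 k4]
      intro h h'
      rw [h', ← h]
    · simp only
      rw [EP g hg c1 k1 c2 k2, E0 c1 k1 c4 k4, EP g hg c4 k4 c2 k2]
      exact fun h h' => h.trans h'.symm
  · obtain ⟨ha, hb, hc, hd⟩ := hW.2 _ (Or.inl hx)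
    simp only at ha hb hc hd
    simp only [relL, List.mem_cons, List.not_mem_nil, or_false] at hl
    rcases hl with rfl | rfl
    · simp only
      rw [EQ b hb c1 k1 c2 k2, EQ a ha c3 k3 c1 k1, EP _ (cmpG_lt ha hb) c3 k3 c2 k2,
        aux_cmp_UF2 ρ ha hb]
      intro e1 e2
      rw [e2, e1]
    · simp only
      rw [EQ d hd c4 k4 c2 k2, EQ c hc c3 k3 c4 k4, EP _ (cmpG_lt ha hb) c3 k3 c2 k2,
        aux_cmp_UF2 ρ ha hb]
      intro e1 e2
      rw [e1, e2, hR a b c d hx]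
  · obtain ⟨ha, hb, hc, hd⟩ := hW.2 _ (Or.inr hx)
    simp only at ha hb hc hd
    simp only [sepL, List.mem_cons, List.not_mem_nil, or_false] at hl
    rcases hl with rfl | rfl | rfl
    · simp only
      rw [EQ a ha c1 k1 c2 k2, EQ b hb c1 k1 c2 k2, EP _ (difG_lt ha hb) c2 k2 c2 k2,
        aux_dif_UF2 ρ hb]
      exact fun e1 e2 => e1.symm.trans e2
    · simp only
      rw [EQ c hc c4 k4 c2 k2, EQ d hd c4 k4 c2 k2, EP _ (difG_lt hc hd) c2 k2 c2 k2,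
        aux_dif_UF2 ρ hd]
      exact fun e1 e2 => e1.symm.trans e2
    · simp only
      rw [EP _ (difG_lt ha hb) c2 k2 c2 k2, EP _ (difG_lt hc hd) c2 k2 c2 k2, aux_dif_UF2 ρ hb,
        aux_dif_UF2 ρ hd, EA c2 k2]
      exact hS a b c d hx _ (hD c2)

theorem yes_of_Y {K : ℕ} {p : Prs} (hK : 4 ≤ K) (hW : p.WF) (hY : p.Y) : (p.inst K).Yes := by
  classical
  intro θ hθ
  obtain ⟨V, iV, fV, V', ρ, h2, hc, h1, h0, hR, hS⟩ := hY θ hθ
  have : Fintype V' := Fintype.ofFinite _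
  let eqv := Fintype.equivFin V
  let f : (Fin K → V') → (Fin (npts K p + 1) → Fin (Fintype.card V)) :=
    fun X b => eqv (val_UF2 K (aux_UF2 p.1 ρ) (ext_UF2 X) b)
  have hev : ∀ X a, a ≤ npts K p → ev (f X) a = eqv (val_UF2 K (aux_UF2 p.1 ρ) (ext_UF2 X) a) :=
    fun X a ha => ev_UF2 (fun b => eqv (val_UF2 K (aux_UF2 p.1 ρ) (ext_UF2 X) b)) ha
  have EA : ∀ X X' : Fin K → V', ∀ i < K, ev (f X) i = ev (f X') i ↔
      ext_UF2 X i - ext_UF2 X' i = 0 := by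
    intro X X' i hi
    rw [hev X i (lt_npts hW hi), hev X' i (lt_npts hW hi), eqv.apply_eq_iff_eq,
      val_lt_UF2 _ _ hi, val_lt_UF2 _ _ hi, sub_eq_zero]
  have EP : ∀ X X' : Fin K → V', ∀ g < p.G, ∀ i < K, ∀ j < K,
      ev (f X) (ptP K g i j) = ev (f X') (ptP K g i j) ↔
      ext_UF2 X i - ext_UF2 X' i = aux_UF2 p.1 ρ g (ext_UF2 X j - ext_UF2 X' j) := by
    intro X X' g hg i hi j hj
    rw [hev X _ (ptP_le hW hg hi hj), hev X' _ (ptP_le hW hg hi hj), eqv.apply_eq_iff_eq,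
      val_ptP_UF2 _ _ hi hj, val_ptP_UF2 _ _ hi hj, map_sub, sub_eq_sub_iff_sub_eq_sub]
  have hinj : Function.Injective f := by
    intro X X' h
    funext i
    have h3 := (EA X X' i i.2).1 (by rw [h])
    rw [sub_eq_zero] at h3
    simp only [ext_UF2, i.2, dif_pos] at h3
    exact Subtype.ext h3
  have hex : (p.inst K).Exact (univ.image f) := by
    refine (exact_iff _).2 fun ln hln x hx x' hx' => ?_
    obtain ⟨X, -, rfl⟩ := mem_image.1 hx
    obtain ⟨X', -, rfl⟩ := mem_image.1 hx'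
    exact horn_UF2 hW ρ V' (fun a => ext_UF2 X a - ext_UF2 X' a)
      (fun a => V'.sub_mem (ext_mem_UF2 X a) (ext_mem_UF2 X' a))
      (fun a => ev (f X) a = ev (f X') a) (EA X X') (EP X X') h1 h0 hR hS hln
  refine ⟨Fintype.card V, univ.image f, h2, hex, basInj_of_exact hK hW hex, ?_⟩
  rw [card_image_of_injective _ hinj, card_univ, Fintype.card_fun, Fintype.card_fin,
    ← Nat.card_eq_fintype_card (α := V'), mul_comm, Real.rpow_mul (Nat.cast_nonneg _),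
    Real.rpow_natCast]
  push_cast
  exact pow_le_pow_left₀ (Real.rpow_nonneg (Nat.cast_nonneg _) _) hc K

end Pool.Agent.SemiRandom.Und
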