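import Pool.Agent.P.MP_c53d0e_pr.U0

set_option autoImplicit false
set_option linter.unusedSectionVars false

namespace Pool.Agent.SemiRandom.Und

open Finset

section Aux

variable {ι W : Type} [Fintype ι] [DecidableEq ι] [Fintype W] [DecidableEq W]

theorem avg_UF3 (v : ι) (g : (ι → W) → ℝ) :
    ∑ ω : ι → W, ∑ a : W, g (Function.update ω v a) = Fintype.card W * ∑ ω, g ω := by
  have hinv : Function.Involutive
      fun p : (ι → W) × W => (Function.update p.1 v p.2, p.1 v) := fun p => by
    simp
  rw [← Fintype.sum_prod_type', ← (Equiv.sum_comp hinv.toPerm _)]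
  simp only [Function.Involutive.coe_toPerm, Function.update_idem, Function.update_eq_self]
  rw [Fintype.sum_prod_type, mul_sum]
  simp

theorem cs_UF3 {v v' : ι} (hv : v ≠ v') (f : (ι → W) → ℝ)
    (hf : ∀ ω b, f (Function.update ω v' b) = f ω) :
    (Fintype.card W * ∑ ω, f ω) ^ 2 ≤ (Fintype.card W : ℝ) ^ Fintype.card ι *
      (Fintype.card W * (Fintype.card W * ∑ ω, f ω * f (Function.update ω v (ω v')))) := by
  have h1 : Fintype.card W * ∑ ω, f ω * f (Function.update ω v (ω v')) =
      ∑ ω : ι → W, f ω * ∑ b : W, f (Function.update ω v b) := by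
    rw [← avg_UF3 v']
    refine sum_congr rfl fun ω _ => ?_
    rw [mul_sum]
    refine sum_congr rfl fun b _ => ?_
    rw [hf, Function.update_self, Function.update_comm hv.symm, hf]
  have h2 : Fintype.card W * ∑ ω : ι → W, f ω * ∑ b : W, f (Function.update ω v b) =
      ∑ ω : ι → W, (∑ b : W, f (Function.update ω v b)) ^ 2 := by
    rw [← avg_UF3 v]
    refine sum_congr rfl fun ω _ => ?_
    simp only [Function.update_idem]
    rw [← sum_mul, sq]
  rw [h1, h2, ← avg_UF3 v]
  refine sq_sum_le_card_mul_sum_sq.trans (le_of_eq ?_)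
  rw [card_univ, Fintype.card_fun, Nat.cast_pow]

open Classical in
theorem cs_card_UF3 [Nonempty W] {v v' : ι} (hv : v ≠ v') (P Q : (ι → W) → Prop)
    (hP : ∀ ω b, P (Function.update ω v' b) ↔ P ω)
    (hQ : ∀ ω, P ω → P (Function.update ω v (ω v')) → Q ω) :
    (#{ω : ι → W | P ω} : ℝ) ^ 2 ≤
      (Fintype.card W : ℝ) ^ Fintype.card ι * #{ω : ι → W | Q ω} := by
  have hw : (0 : ℝ) < Fintype.card W := Nat.cast_pos.2 Fintype.card_pos
  have h := cs_UF3 hv (fun ω => if P ω then (1 : ℝ) else 0) fun ω b => by simp only [hP]
  have h1 : ∑ ω : ι → W, (if P ω then (1 : ℝ) else 0) *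
      (if P (Function.update ω v (ω v')) then (1 : ℝ) else 0) ≤ #{ω : ι → W | Q ω} := by
    rw [← sum_boole]
    refine sum_le_sum fun ω _ => ?_
    by_cases h2 : P ω
    · by_cases h3 : P (Function.update ω v (ω v'))
      · simp [h2, h3, hQ ω h2 h3]
      · simp only [if_neg h3, mul_zero]
        positivity
    · simp only [if_neg h2, zero_mul]
      positivity
  rw [sum_boole] at h
  have h2 := h.trans (mul_le_mul_of_nonneg_left (mul_le_mul_of_nonneg_left
    (mul_le_mul_of_nonneg_left h1 hw.le) hw.le) (by positivity))
  refine le_of_mul_le_mul_left (le_of_eq_of_le ?_ (h2.trans (le_of_eq ?_))) (mul_pos hw hw)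
  · ring
  · ring

/-- all colourful choices from a set of vertices and the base lie in the target -/
def Om_UF3 {K : ℕ} (col : ι → Fin K) (base : Fin K → ι) (B : Finset (Fin K → W)) (G : Finset ι)
    (ω : ι → W) : Prop :=
  ∀ τ : Fin K → ι, (∀ i, col (τ i) = i) → (∀ i, τ i ∈ G ∨ τ i = base i) → (fun i => ω (τ i)) ∈ B

open Classical in
theorem base_UF3 {K : ℕ} (col : ι → Fin K) (base : Fin K → ι) (hb : ∀ i, col (base i) = i)
    (B : Finset (Fin K → W)) :
    B.card * Fintype.card W ^ Fintype.card ι ≤
      #{ω : ι → W | Om_UF3 col base B ∅ ω} * Fintype.card W ^ K := by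
  have hi : Function.Injective base := Function.LeftInverse.injective hb
  have h := card_le_card_of_injOn (s := B ×ˢ (univ : Finset (ι → W)))
    (t := ({ω : ι → W | Om_UF3 col base B ∅ ω} : Finset (ι → W)) ×ˢ (univ : Finset (Fin K → W)))
    (fun p => (Function.extend base p.1 p.2, fun i => p.2 (base i))) (fun p hp => by
      refine mem_coe.2 (mem_product.2 ⟨mem_filter.2 ⟨mem_univ _, fun τ _ h2 => ?_⟩, mem_univ _⟩)
      have h3 : (fun i => Function.extend base p.1 p.2 (τ i)) = p.1 := funext fun i => by
        rw [(h2 i).resolve_left (notMem_empty _), hi.extend_apply]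
      rw [h3]
      exact (mem_product.1 (mem_coe.1 hp)).1) (fun p _ q _ h => by
      obtain ⟨h1, h2⟩ := Prod.mk.inj h
      refine Prod.ext (funext fun i => ?_) (funext fun x => ?_)
      · simpa only [hi.extend_apply] using congrFun h1 (base i)
      · by_cases hx : ∃ i, base i = x
        · obtain ⟨i, rfl⟩ := hx
          exact congrFun h2 i
        · simpa only [Function.extend_apply' _ _ _ hx] using congrFun h1 x)
  simpa only [card_product, card_univ, Fintype.card_fun, Fintype.card_fin] using h

open Classical in
theorem ind_UF3 [Nonempty W] {K : ℕ} (col : ι → Fin K) (base : Fin K → ι)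
    (hb : ∀ i, col (base i) = i) (B : Finset (Fin K → W)) (G : Finset ι) :
    ((B.card : ℝ) / (Fintype.card W : ℝ) ^ K) ^ (2 ^ G.card) *
        (Fintype.card W : ℝ) ^ Fintype.card ι ≤ #{ω : ι → W | Om_UF3 col base B G ω} := by
  have hw : (0 : ℝ) < Fintype.card W := Nat.cast_pos.2 Fintype.card_pos
  have a0 : 0 ≤ (B.card : ℝ) / (Fintype.card W : ℝ) ^ K := by positivity
  have a1 : (B.card : ℝ) / (Fintype.card W : ℝ) ^ K ≤ 1 := by
    rw [div_le_one (by positivity)]
    have h := card_le_univ B
    rw [Fintype.card_fun, Fintype.card_fin] at h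
    exact_mod_cast h
  induction G using Finset.induction_on with
  | empty =>
    rw [card_empty, pow_zero, pow_one, div_mul_eq_mul_div, div_le_iff₀ (by positivity)]
    exact_mod_cast base_UF3 col base hb B
  | insert v' G hG ih =>
    rw [card_insert_of_notMem hG]
    by_cases hv : base (col v') = v'
    · refine le_trans (mul_le_mul_of_nonneg_right (pow_le_pow_of_le_one a0 a1
        (Nat.pow_le_pow_right two_pos (Nat.le_succ _))) (by positivity)) (ih.trans ?_)
      refine Nat.cast_le.2 (card_le_card fun ω hω => mem_filter.2 ⟨mem_univ _, fun τ h1 h2 => ?_⟩)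
      refine (mem_filter.1 hω).2 τ h1 fun i => ?_
      rcases h2 i with h3 | h3
      · rcases mem_insert.1 h3 with h4 | h4
        · right
          rw [h4, ← hv, ← h4, h1]
        · exact Or.inl h4
      · exact Or.inr h3
    · have key : ∀ (ω : ι → W) (b : W) (τ : Fin K → ι), (∀ i, τ i ∈ G ∨ τ i = base i) →
          (fun i => Function.update ω v' b (τ i)) = fun i => ω (τ i) := fun ω b τ h2 =>
        funext fun i => by
          refine Function.update_of_ne (fun h3 => ?_) _ _
          rcases h2 i with h4 | h4
          · exact hG (h3 ▸ h4)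
          · exact hv (by rw [← h3, h4, hb])
      have h := cs_card_UF3 hv (Om_UF3 col base B G) (Om_UF3 col base B (insert v' G))
        (fun ω b => forall_congr' fun τ => forall_congr' fun _ => forall_congr' fun h2 => by
          rw [key ω b τ h2])
        (fun ω h1 h2 τ h3 h4 => by
          by_cases h5 : τ (col v') = v'
          · have h6 := h2 (Function.update τ (col v') (base (col v'))) (fun i => by
              by_cases h7 : i = col v'
              · rw [h7, Function.update_self, hb]
              · rw [Function.update_of_ne h7, h3]) (fun i => by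
              by_cases h7 : i = col v'
              · rw [h7, Function.update_self]
                exact Or.inr rfl
              · rw [Function.update_of_ne h7]
                refine (h4 i).imp_left fun h8 => (mem_insert.1 h8).resolve_left fun h9 => h7 ?_
                rw [← h9, h3])
            refine (congrArg (· ∈ B) (funext fun i => ?_)).mp h6
            by_cases h7 : i = col v'
            · rw [h7, Function.update_self, Function.update_self, h5]
            · rw [Function.update_of_ne h7]
              refine Function.update_of_ne (fun h8 => h7 ?_) _ _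
              rw [← h3 i, h8, hb]
          · refine h1 τ h3 fun i => (h4 i).imp_left fun h8 =>
              (mem_insert.1 h8).resolve_left fun h9 => h5 ?_
            rw [← h9, h3])
      refine le_of_mul_le_mul_left (le_trans (le_of_eq ?_)
        ((pow_le_pow_left₀ (by positivity) ih 2).trans h))
        (pow_pos hw (Fintype.card ι))
      rw [pow_succ 2, pow_mul]
      ring

end Aux

open Classical in
/-- Counting complete multipartite blow-ups. -/
theorem blowup {ι W : Type} [Fintype ι] [DecidableEq ι] [Fintype W] [DecidableEq W] [Nonempty W]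
    {K : ℕ} (col : ι → Fin K) (base : Fin K → ι) (hb : ∀ i, col (base i) = i)
    (B : Finset (Fin K → W)) :
    ((B.card : ℝ) / (Fintype.card W : ℝ) ^ K) ^ (2 ^ Fintype.card ι) *
        (Fintype.card W : ℝ) ^ Fintype.card ι ≤
      #{ω : ι → W | ∀ τ : Fin K → ι, (∀ i, col (τ i) = i) → (fun i => ω (τ i)) ∈ B} := by
  refine (ind_UF3 col base hb B univ).trans (Nat.cast_le.2 (card_le_card fun ω hω => ?_))
  exact mem_filter.2 ⟨mem_univ _, fun τ h => (mem_filter.1 hω).2 τ h fun _ => Or.inl (mem_univ _)⟩

end Pool.Agent.SemiRandom.Und
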