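import Pool.Agent.P.MP_c53d0e_pr.UF0

set_option autoImplicit false
set_option linter.unusedSectionVars false

namespace Pool.Agent.SemiRandom.Und

open Finset

theorem fresh_UF4 {K : ℕ} (hK : 4 ≤ K) (a b c : Fin K) : ∃ i, i ≠ a ∧ i ≠ b ∧ i ≠ c := by
  have h : ({a, b, c} : Finset (Fin K)).card < (univ : Finset (Fin K)).card := by
    rw [card_univ, Fintype.card_fin]
    exact lt_of_le_of_lt card_le_three (by omega)
  obtain ⟨i, -, hi⟩ := exists_mem_notMem_of_card_lt_card h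
  exact ⟨i, by simpa only [mem_insert, mem_singleton, not_or] using hi⟩

/-- two vertices are copies of a common third one -/
def Eq_UF4 {K : ℕ} {V : Type} (col : V → Fin K) (eP : ℕ → V → V → Prop) (x y : V) : Prop :=
  ∃ u, col u ≠ col x ∧ col u ≠ col y ∧ eP 0 x u ∧ eP 0 y u

theorem Eq_UF4.symm {K : ℕ} {V : Type} {col : V → Fin K} {eP : ℕ → V → V → Prop} {x y : V}
    (h : Eq_UF4 col eP x y) : Eq_UF4 col eP y x := by
  obtain ⟨u, h1, h2, h3, h4⟩ := h
  exact ⟨u, h2, h1, h4, h3⟩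

section
variable {K : ℕ} {p : Prs} (hK : 4 ≤ K) (h0 : 0 < p.1) {V : Type}
  {col : V → Fin K} {eA : V → Prop} {eP : ℕ → V → V → Prop} (H : Horn K p col Set.univ eA eP)
  (hex : ∀ g < p.1, ∀ t i, i ≠ col t → ∃ u, col u = i ∧ eP g u t)

include H in
theorem sy_UF4 {u t : V} (h : col u ≠ col t) (e : eP 0 u t) : eP 0 t u :=
  H.symm u trivial t trivial h e

include h0 H in
theorem tr_UF4 {u t v : V} (h1 : col u ≠ col t) (h2 : col u ≠ col v) (h3 : col t ≠ col v)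
    (e : eP 0 u t) (e' : eP 0 v t) : eP 0 u v :=
  H.fn 0 h0 u trivial t trivial v trivial h1 h2 h3 e e'

include hK hex in
theorem new_UF4 {g : ℕ} (hg : g < p.1) (t a b : V) :
    ∃ u, col u ≠ col t ∧ col u ≠ col a ∧ col u ≠ col b ∧ eP g u t := by
  obtain ⟨i, h1, h2, h3⟩ := fresh_UF4 hK (col t) (col a) (col b)
  obtain ⟨u, rfl, hu⟩ := hex g hg t i h1
  exact ⟨u, h1, h2, h3, hu⟩

include hK h0 H hex in
theorem of_P_UF4 {x y : V} (h : col x ≠ col y) (e : eP 0 x y) : Eq_UF4 col eP x y := by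
  obtain ⟨u, h1, h2, -, hu⟩ := new_UF4 hK hex h0 y x x
  exact ⟨u, h2, h1, tr_UF4 h0 H h h2.symm h1.symm e hu, sy_UF4 H h1 hu⟩

include hK h0 H hex in
theorem rfl_UF4 (x : V) : Eq_UF4 col eP x x := by
  obtain ⟨u, h1, -, -, hu⟩ := new_UF4 hK hex h0 x x x
  exact ⟨u, h1, h1, sy_UF4 H h1 hu, sy_UF4 H h1 hu⟩

include hK h0 H hex in
theorem mv_UF4 {x y w : V} (h : Eq_UF4 col eP x y) (hx : col w ≠ col x) (hy : col w ≠ col y)
    (e : eP 0 x w) : eP 0 y w := by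
  obtain ⟨u, h1, h2, h3, h4⟩ := h
  by_cases hw : col w = col u
  · obtain ⟨z, z1, z2, z3, hz⟩ := new_UF4 hK hex h0 x y u
    have z4 : col z ≠ col w := hw ▸ z3
    have a1 : eP 0 z u := tr_UF4 h0 H z1 z3 h1.symm hz (sy_UF4 H h1.symm h3)
    have a2 : eP 0 y z := tr_UF4 h0 H h2.symm z2.symm z3.symm h4 a1
    have a3 : eP 0 w z := tr_UF4 h0 H hx z4.symm z1.symm (sy_UF4 H hx.symm e) hz
    exact tr_UF4 h0 H z2.symm hy.symm z4 a2 a3
  · have a1 : eP 0 w u := tr_UF4 h0 H hx hw h1.symm (sy_UF4 H hx.symm e) (sy_UF4 H h1.symm h3)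
    exact tr_UF4 h0 H h2.symm hy.symm (Ne.symm hw) h4 a1

include hK h0 H hex in
theorem trans_UF4 {x y z : V} (h : Eq_UF4 col eP x y) (h' : Eq_UF4 col eP y z) :
    Eq_UF4 col eP x z := by
  obtain ⟨w, w1, w2, w3, hw⟩ := new_UF4 hK hex h0 y x z
  have a := sy_UF4 H w1 hw
  exact ⟨w, w2, w3, mv_UF4 hK h0 H hex h.symm w1 w2 a, mv_UF4 hK h0 H hex h' w1 w3 a⟩

include hK h0 H hex in
theorem mvL_UF4 {g : ℕ} (hg : g < p.1) {u t u' : V} (e : eP g u' t) (h' : col u' ≠ col t)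
    (hu : Eq_UF4 col eP u' u) (h : col u ≠ col t) : eP g u t := by
  obtain ⟨s, s1, s2, s3, hs⟩ := new_UF4 hK hex h0 u' t u
  have a1 : eP g s t := H.t1 g hg u' trivial t trivial s trivial h' s1.symm s2.symm e hs
  have a2 : eP 0 u s := mv_UF4 hK h0 H hex hu s1 s3 (sy_UF4 H s1 hs)
  exact H.t1 g hg s trivial t trivial u trivial s2 s3 h.symm a1 a2

include hK h0 H hex in
theorem mvR_UF4 {g : ℕ} (hg : g < p.1) {u t t' : V} (e : eP g u t') (h' : col u ≠ col t')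
    (ht : Eq_UF4 col eP t' t) (h : col u ≠ col t) : eP g u t := by
  obtain ⟨v, v1, v2, v3, hv⟩ := new_UF4 hK hex h0 t' u t
  have a1 : eP g u v := H.t2 g hg u trivial t' trivial v trivial h' v2.symm v1.symm e hv
  have a2 : eP 0 t v := mv_UF4 hK h0 H hex ht v1 v3 (sy_UF4 H v1 hv)
  exact H.t2 g hg u trivial v trivial t trivial v2.symm h v3 a1 a2

include hK h0 H hex in
theorem fun0_UF4 {g : ℕ} (hg : g < p.1) {u t v : V} (h1 : col u ≠ col t) (h2 : col v ≠ col t)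
    (h3 : col u ≠ col v) (e : eP g u t) (e' : eP g v t) : Eq_UF4 col eP u v :=
  of_P_UF4 hK h0 H hex h3 (H.fn g hg u trivial t trivial v trivial h1 h3 h2.symm e e')

include hK h0 H hex in
theorem fun_UF4 {g : ℕ} (hg : g < p.1) {u t v : V} (h1 : col u ≠ col t) (h2 : col v ≠ col t)
    (e : eP g u t) (e' : eP g v t) : Eq_UF4 col eP u v := by
  obtain ⟨w, w1, w2, w3, hw⟩ := new_UF4 hK hex hg t u v
  exact trans_UF4 hK h0 H hex (fun0_UF4 hK h0 H hex hg h1 w1 w2.symm e hw)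
    (fun0_UF4 hK h0 H hex hg w1 h2 w3 hw e')

include h0 H in
theorem inv_UF4 {x y : V} (h : Eq_UF4 col eP x y) (e : eA y) : eA x := by
  obtain ⟨u, h1, h2, h3, h4⟩ := h
  exact H.invP 0 h0 x trivial u trivial h1.symm h3
    (H.invP 0 h0 u trivial y trivial h2 (sy_UF4 H h2.symm h4) e)

end

/-- The quotient construction. -/
theorem horn_quot {K : ℕ} {p : Prs} (hK : 4 ≤ K) (hW : p.WF) (hN : p.N) {V : Type}
    {col : V → Fin K} {eA : V → Prop} {eP : ℕ → V → V → Prop} (H : Horn K p col Set.univ eA eP)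
    (hex : ∀ g < p.1, ∀ t i, i ≠ col t → ∃ u, col u = i ∧ eP g u t) : ∀ t, eA t := by
  have h1 : 1 < p.1 := hW.1
  have h0 : 0 < p.1 := by omega
  let S : Setoid V := ⟨Eq_UF4 col eP, rfl_UF4 hK h0 H hex, Eq_UF4.symm, trans_UF4 hK h0 H hex⟩
  have hf : ∀ g t, ∃ u, (g < p.1 → col u ≠ col t ∧ eP g u t) ∧ (¬g < p.1 → u = t) := by
    intro g t
    by_cases hg : g < p.1
    · obtain ⟨u, u1, -, -, hu⟩ := new_UF4 hK hex hg t t t
      exact ⟨u, fun _ => ⟨u1, hu⟩, fun h => absurd hg h⟩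
    · exact ⟨t, fun h => absurd h hg, fun _ => rfl⟩
  choose f hf hf' using hf
  have hc : ∀ g t t', Eq_UF4 col eP t t' → Eq_UF4 col eP (f g t) (f g t') := by
    intro g t t' h
    by_cases hg : g < p.1
    · obtain ⟨w, w1, w2, -, hw⟩ := new_UF4 hK hex hg t t' t
      have a := mvR_UF4 hK h0 H hex hg hw w1 h w2
      exact trans_UF4 hK h0 H hex (fun_UF4 hK h0 H hex hg (hf g t hg).1 w1 (hf g t hg).2 hw)
        (fun_UF4 hK h0 H hex hg w2 (hf g t' hg).1 a (hf g t' hg).2)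
    · rw [hf' g t hg, hf' g t' hg]; exact h
  let ρ : ℕ → Quotient S → Quotient S := fun g => Quotient.map (f g) (hc g)
  have k1 : ∀ g < p.1, ∀ u t, col u ≠ col t → eP g u t →
      ρ g (Quotient.mk S t) = Quotient.mk S u := fun g hg u t h e =>
    Quotient.sound (fun_UF4 hK h0 H hex hg (hf g t hg).1 h (hf g t hg).2 e)
  have k2 : ∀ g < p.1, ∀ u t, col u ≠ col t → ρ g (Quotient.mk S t) = Quotient.mk S u →
      eP g u t := fun g hg u t h e =>
    mvL_UF4 hK h0 H hex hg (hf g t hg).2 (hf g t hg).1 (Quotient.exact e) h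
  have key := hN (Quotient S) ρ (fun m => ∃ x, Quotient.mk S x = m ∧ eA x) ?_ ?_ ?_ ?_ ?_
  · intro t
    obtain ⟨x, hx, e⟩ := key (Quotient.mk S t)
    exact inv_UF4 h0 H (Eq_UF4.symm (Quotient.exact hx)) e
  · intro m
    induction m using Quotient.inductionOn with
    | _ t => exact Quotient.sound (of_P_UF4 hK h0 H hex (hf 0 t h0).1 (hf 0 t h0).2)
  · intro m
    induction m using Quotient.inductionOn with
    | _ t => exact ⟨f 1 t, rfl, H.zero _ trivial t trivial (hf 1 t h1).1 (hf 1 t h1).2⟩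
  · rintro _ _ ⟨a, rfl, ha⟩ ⟨b, rfl, hb⟩
    obtain ⟨w, w1, w2, -, hw⟩ := new_UF4 hK hex h0 a b b
    have e := H.defP 0 h0 w trivial b trivial w2 (H.invP 0 h0 w trivial a trivial w1 hw ha) hb
    exact Quotient.sound (trans_UF4 hK h0 H hex (of_P_UF4 hK h0 H hex w1 hw).symm
      (of_P_UF4 hK h0 H hex w2 e))
  · intro a b c d hx m
    obtain ⟨ha, hb, hc', hd⟩ := hW.2 _ (Or.inl hx)
    induction m using Quotient.inductionOn with
    | _ t =>
      obtain ⟨u, u1, -, -, hu⟩ := new_UF4 hK hex hb t t t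
      obtain ⟨s, s1, s2, -, hs⟩ := new_UF4 hK hex ha u t t
      obtain ⟨v, v1, v2, v3, hv⟩ := new_UF4 hK hex hd t u s
      have e := H.rel a b c d hx u trivial t trivial s trivial v trivial u1 s1.symm
        v2.symm s2.symm v1.symm v3.symm hu hs hv
      rw [k1 b hb u t u1 hu, k1 a ha s u s1 hs, k1 d hd v t v1 hv, k1 c hc' s v v3.symm e]
  · intro a b c d hx m
    obtain ⟨ha, hb, hc', hd⟩ := hW.2 _ (Or.inr hx)
    induction m using Quotient.inductionOn with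
    | _ t =>
      intro e1 e2
      obtain ⟨u, u1, -, -, hu⟩ := new_UF4 hK hex ha t t t
      obtain ⟨v, v1, v2, -, hv⟩ := new_UF4 hK hex hc' t u u
      exact ⟨t, rfl, H.sep a b c d hx u trivial t trivial v trivial u1 v2.symm v1.symm hu
        (k2 b hb u t u1 (e1.symm.trans (k1 a ha u t u1 hu))) hv
        (k2 d hd v t v1 (e2.symm.trans (k1 c hc' v t v1 hv)))⟩

end Pool.Agent.SemiRandom.Und
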