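import Pool.Agent.P.MP_c53d0e_pr.UF4

set_option autoImplicit false
set_option linter.unusedSectionVars false

namespace Pool.Agent.SemiRandom.Und

open Finset

lemma horn_anti_UF5 {K : ℕ} {p : Prs} {V : Type} {col : V → Fin K} {F G : Set V} (hFG : F ⊆ G)
    {eA : V → Prop} {eP : ℕ → V → V → Prop} (H : Horn K p col G eA eP) : Horn K p col F eA eP where
  defP g hg u hu t ht := H.defP g hg u (hFG hu) t (hFG ht)
  invP g hg u hu t ht := H.invP g hg u (hFG hu) t (hFG ht)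
  zero u hu t ht := H.zero u (hFG hu) t (hFG ht)
  symm u hu t ht := H.symm u (hFG hu) t (hFG ht)
  t1 g hg u hu t ht v hv := H.t1 g hg u (hFG hu) t (hFG ht) v (hFG hv)
  t2 g hg u hu t ht v hv := H.t2 g hg u (hFG hu) t (hFG ht) v (hFG hv)
  fn g hg u hu t ht v hv := H.fn g hg u (hFG hu) t (hFG ht) v (hFG hv)
  rel a b c d h u hu t ht s hs v hv :=
    H.rel a b c d h u (hFG hu) t (hFG ht) s (hFG hs) v (hFG hv)
  sep a b c d h u hu t ht v hv := H.sep a b c d h u (hFG hu) t (hFG ht) v (hFG hv)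

/-- The statement `φ` is derivable from finitely many vertices. -/
def Der_UF5 (K : ℕ) (p : Prs) (φ : (Vt K → Prop) → (ℕ → Vt K → Vt K → Prop) → Prop) : Prop :=
  ∃ F : Finset (Vt K), ∀ eA eP, Horn K p Vt.col F eA eP →
    (∀ g i t, Vt.app g i t ∈ F → g < p.1 → i ≠ t.col → eP g (Vt.app g i t) t) → φ eA eP

lemma and_UF5 {K : ℕ} {p : Prs} {φ ψ : (Vt K → Prop) → (ℕ → Vt K → Vt K → Prop) → Prop}
    (h1 : Der_UF5 K p φ) (h2 : Der_UF5 K p ψ) : Der_UF5 K p fun eA eP => φ eA eP ∧ ψ eA eP := by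
  obtain ⟨F, hF⟩ := h1
  obtain ⟨G, hG⟩ := h2
  refine ⟨F ∪ G, fun eA eP H D => ⟨hF eA eP (horn_anti_UF5 ?_ H) fun g i t h => D g i t ?_,
    hG eA eP (horn_anti_UF5 ?_ H) fun g i t h => D g i t ?_⟩⟩
  · exact coe_subset.2 subset_union_left
  · exact mem_union_left _ h
  · exact coe_subset.2 subset_union_right
  · exact mem_union_right _ h

/-- One application of a Horn rule on the vertices of `G`. -/
lemma rule_UF5 {K : ℕ} {p : Prs} {φ ψ : (Vt K → Prop) → (ℕ → Vt K → Vt K → Prop) → Prop}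
    (G : Finset (Vt K)) (h1 : Der_UF5 K p φ)
    (h : ∀ eA eP, Horn K p Vt.col G eA eP → φ eA eP → ψ eA eP) : Der_UF5 K p ψ := by
  obtain ⟨F, hF⟩ := h1
  refine ⟨F ∪ G, fun eA eP H D => h eA eP (horn_anti_UF5 ?_ H)
    (hF eA eP (horn_anti_UF5 ?_ H) fun g i t h => D g i t ?_)⟩
  · exact coe_subset.2 subset_union_right
  · exact coe_subset.2 subset_union_left
  · exact mem_union_left _ h

lemma horn_der_UF5 (K : ℕ) (p : Prs) : Horn K p Vt.col Set.univ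
    (fun v => Der_UF5 K p fun eA _ => eA v) (fun g u t => Der_UF5 K p fun _ eP => eP g u t) where
  defP g hg u _ t _ hc h1 h2 := rule_UF5 {u, t} (and_UF5 h1 h2) fun _ _ H a =>
    H.defP g hg u (by simp) t (by simp) hc a.1 a.2
  invP g hg u _ t _ hc h1 h2 := rule_UF5 {u, t} (and_UF5 h1 h2) fun _ _ H a =>
    H.invP g hg u (by simp) t (by simp) hc a.1 a.2
  zero u _ t _ hc h1 := rule_UF5 {u, t} h1 fun _ _ H a => H.zero u (by simp) t (by simp) hc a
  symm u _ t _ hc h1 := rule_UF5 {u, t} h1 fun _ _ H a => H.symm u (by simp) t (by simp) hc a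
  t1 g hg u _ t _ v _ c1 c2 c3 h1 h2 := rule_UF5 {u, t, v} (and_UF5 h1 h2) fun _ _ H a =>
    H.t1 g hg u (by simp) t (by simp) v (by simp) c1 c2 c3 a.1 a.2
  t2 g hg u _ t _ v _ c1 c2 c3 h1 h2 := rule_UF5 {u, t, v} (and_UF5 h1 h2) fun _ _ H a =>
    H.t2 g hg u (by simp) t (by simp) v (by simp) c1 c2 c3 a.1 a.2
  fn g hg u _ t _ v _ c1 c2 c3 h1 h2 := rule_UF5 {u, t, v} (and_UF5 h1 h2) fun _ _ H a =>
    H.fn g hg u (by simp) t (by simp) v (by simp) c1 c2 c3 a.1 a.2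
  rel a b c d h u _ t _ s _ v _ c1 c2 c3 c4 c5 c6 h1 h2 h3 :=
    rule_UF5 {u, t, s, v} (and_UF5 h1 (and_UF5 h2 h3)) fun _ _ H x =>
      H.rel a b c d h u (by simp) t (by simp) s (by simp) v (by simp) c1 c2 c3 c4 c5 c6
        x.1 x.2.1 x.2.2
  sep a b c d h u _ t _ v _ c1 c2 c3 h1 h2 h3 h4 :=
    rule_UF5 {u, t, v} (and_UF5 (and_UF5 h1 h2) (and_UF5 h3 h4)) fun _ _ H x =>
      H.sep a b c d h u (by simp) t (by simp) v (by simp) c1 c2 c3 x.1.1 x.1.2 x.2.1 x.2.2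

/-- Subterms. -/
def sub_UF5 {K : ℕ} : Vt K → Finset (Vt K)
  | .free i => {Vt.free i}
  | .app g i t => insert (Vt.app g i t) (sub_UF5 t)

lemma self_mem_sub_UF5 {K : ℕ} (v : Vt K) : v ∈ sub_UF5 v := by
  cases v <;> simp [sub_UF5]

lemma sub_closed_UF5 {K : ℕ} {g : ℕ} {i : Fin K} {t : Vt K} (v : Vt K)
    (h : Vt.app g i t ∈ sub_UF5 v) : t ∈ sub_UF5 v := by
  induction v with
  | free j => simp [sub_UF5] at h
  | app g' j u ih =>
    rw [sub_UF5, mem_insert] at h ⊢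
    rcases h with h | h
    · obtain ⟨-, -, rfl⟩ := Vt.app.inj h
      exact Or.inr (self_mem_sub_UF5 _)
    · exact Or.inr (ih h)

theorem exists_cert {K : ℕ} {p : Prs} (hK : 4 ≤ K) (hW : p.WF) (hN : p.N) (i0 : Fin K) :
    ∃ F, Cert K p i0 F := by
  obtain ⟨F, hF⟩ := horn_quot hK hW hN (horn_der_UF5 K p) (fun g hg t i hi =>
    ⟨Vt.app g i t, rfl, {Vt.app g i t}, fun _ _ _ D => D g i t (mem_singleton_self _) hg hi⟩)
    (Vt.free i0)
  have hsub : F ⊆ F.biUnion sub_UF5 ∪ univ.image Vt.free := fun v hv =>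
    mem_union_left _ (mem_biUnion.2 ⟨v, hv, self_mem_sub_UF5 v⟩)
  refine ⟨F.biUnion sub_UF5 ∪ univ.image Vt.free, fun i => ?_, fun g i t h => ?_,
    fun eA eP H D => hF eA eP (horn_anti_UF5 (coe_subset.2 hsub) H) fun g i t h => D g i t (hsub h)⟩
  · exact mem_union_right _ (mem_image_of_mem _ (mem_univ i))
  · rcases mem_union.1 h with h | h
    · obtain ⟨v, hv, h⟩ := mem_biUnion.1 h
      exact mem_union_left _ (mem_biUnion.2 ⟨v, hv, sub_closed_UF5 v h⟩)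
    · simp at h

end Pool.Agent.SemiRandom.Und
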