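import Pool.Agent.P.MP_c53d0e_pr.UF1

set_option autoImplicit false
set_option linter.unusedSectionVars false

namespace Pool.Agent.SemiRandom.Und

open Finset

variable {K : ℕ} {p : Prs}

lemma exists_fP_UF6 (hK : 4 ≤ K) {W : Type} [Nonempty W]
    {S : Finset (Fin (npts K p + 1) → W)} (hS : (p.inst K).Exact S) :
    ∃ fP : ℕ → Fin K → Fin K → W → W → W, ∀ g < p.1, ∀ i j : Fin K, i ≠ j → ∀ x ∈ S,
      fP g i j (ev x i) (ev x j) = ev x (ptP K g i j) := by
  classical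
  refine ⟨fun g i j a b => if h : ∃ x ∈ S, ev x i = a ∧ ev x j = b then
    ev h.choose (ptP K g i j) else Classical.arbitrary W, fun g hg i j hij x hx => ?_⟩
  have h : ∃ y ∈ S, ev y i = ev x i ∧ ev y j = ev x j := ⟨x, hx, rfl, rfl⟩
  simp only [dif_pos h]
  obtain ⟨a, b, hc⟩ := exists_col2 hK i.2 j.2 (fun e => hij (Fin.ext e))
  obtain ⟨h1, h2, h3⟩ := h.choose_spec
  exact (exact_iff S).1 hS ((i : ℕ), (j : ℕ), ptP K g i j)
    (mem_lines.2 ⟨_, hc, Or.inr (Or.inl ⟨g, lt_G hg, by simp [genL]⟩)⟩) _ h1 x hx h2 h3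

lemma exists_tau_UF6 {V : Type} (col : V → Fin K) (F : Set V) (hF : ∀ i, ∃ v ∈ F, col v = i)
    (L : Set V) (hL : ∀ u ∈ L, u ∈ F) (hi : ∀ u ∈ L, ∀ v ∈ L, col u = col v → u = v) :
    ∃ τ : Fin K → V, (∀ i, τ i ∈ F ∧ col (τ i) = i) ∧ ∀ u ∈ L, τ (col u) = u := by
  have h : ∀ i, ∃ v, (v ∈ F ∧ col v = i) ∧ ∀ u ∈ L, col u = i → v = u := fun i => by
    by_cases h : ∃ u ∈ L, col u = i
    · obtain ⟨u, hu, e⟩ := h
      exact ⟨u, ⟨hL u hu, e⟩, fun w hw e' => hi u hu w hw (e.trans e'.symm)⟩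
    · obtain ⟨v, hv, e⟩ := hF i
      exact ⟨v, ⟨hv, e⟩, fun w hw e' => absurd ⟨w, hw, e'⟩ h⟩
  choose τ h1 h2 using h
  exact ⟨τ, h1, fun u hu => h2 _ u hu rfl⟩

/-- Two colourful configurations give a model of the Horn rules. -/
theorem horn_pair (hK : 4 ≤ K) (hW : p.WF) {W : Type} [Nonempty W]
    {S : Finset (Fin (npts K p + 1) → W)} (hS : (p.inst K).Exact S) :
    ∃ fP : ℕ → Fin K → Fin K → W → W → W, ∀ {V : Type} (col : V → Fin K) (F : Set V),
      (∀ i, ∃ v ∈ F, col v = i) → ∀ ω ω' : V → W,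
      (∀ τ : Fin K → V, (∀ i, τ i ∈ F ∧ col (τ i) = i) → ∃ x ∈ S, ∀ i : Fin K, ev x i = ω (τ i)) →
      (∀ τ : Fin K → V, (∀ i, τ i ∈ F ∧ col (τ i) = i) → ∃ x ∈ S, ∀ i : Fin K, ev x i = ω' (τ i)) →
      Horn K p col F (fun v => ω v = ω' v)
        (fun g u t => fP g (col u) (col t) (ω u) (ω t) = fP g (col u) (col t) (ω' u) (ω' t)) := by
  obtain ⟨fP, hf⟩ := exists_fP_UF6 hK hS
  refine ⟨fP, fun {V} col F hF ω ω' h h' => ?_⟩
  have E := (exact_iff S).1 hS
  have g0 : 0 < p.1 := lt_of_lt_of_le (by norm_num) hW.1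
  have g1 : 1 < p.1 := hW.1
  have ne : ∀ {i j : Fin K}, i ≠ j → (i : ℕ) ≠ j := fun hij e => hij (Fin.ext e)
  have key : ∀ L : Set V, (∀ u ∈ L, u ∈ F) → (∀ u ∈ L, ∀ v ∈ L, col u = col v → u = v) →
      ∃ x ∈ S, ∃ x' ∈ S, (∀ u ∈ L, ω u = ω' u ↔ ev x (col u) = ev x' (col u)) ∧
        ∀ g < p.1, ∀ u ∈ L, ∀ t ∈ L, col u ≠ col t →
          (fP g (col u) (col t) (ω u) (ω t) = fP g (col u) (col t) (ω' u) (ω' t) ↔
            ev x (ptP K g (col u) (col t)) = ev x' (ptP K g (col u) (col t))) := by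
    intro L hL hi
    obtain ⟨τ, hτ, e⟩ := exists_tau_UF6 col F hF L hL hi
    obtain ⟨x, hx, ex⟩ := h τ hτ
    obtain ⟨x', hx', ex'⟩ := h' τ hτ
    have a : ∀ u ∈ L, ω u = ev x (col u) := fun u hu => by rw [ex, e u hu]
    have a' : ∀ u ∈ L, ω' u = ev x' (col u) := fun u hu => by rw [ex', e u hu]
    refine ⟨x, hx, x', hx', fun u hu => by rw [a u hu, a' u hu], fun g hg u hu t ht hut => ?_⟩
    rw [a u hu, a t ht, a' u hu, a' t ht, hf g hg _ _ hut x hx, hf g hg _ _ hut x' hx']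
  have key2 : ∀ u ∈ F, ∀ t ∈ F, col u ≠ col t →
      (∀ w ∈ ({u, t} : Set V), w ∈ F) ∧
        ∀ w ∈ ({u, t} : Set V), ∀ z ∈ ({u, t} : Set V), col w = col z → w = z := by
    intro u hu t ht hut
    refine ⟨?_, ?_⟩
    · rintro w (rfl | rfl) <;> assumption
    · rintro w (rfl | rfl) z (rfl | rfl) e <;>
        first | rfl | exact absurd e ‹_› | exact absurd e.symm ‹_›
  have key3 : ∀ u ∈ F, ∀ t ∈ F, ∀ v ∈ F, col u ≠ col t → col u ≠ col v → col t ≠ col v →
      (∀ w ∈ ({u, t, v} : Set V), w ∈ F) ∧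
        ∀ w ∈ ({u, t, v} : Set V), ∀ z ∈ ({u, t, v} : Set V), col w = col z → w = z := by
    intro u hu t ht v hv hut huv htv
    refine ⟨?_, ?_⟩
    · rintro w (rfl | rfl | rfl) <;> assumption
    · rintro w (rfl | rfl | rfl) z (rfl | rfl | rfl) e <;>
        first | rfl | exact absurd e ‹_› | exact absurd e.symm ‹_›
  refine ⟨?_, ?_, ?_, ?_, ?_, ?_, ?_, ?_, ?_⟩
  · intro g _ u _ t _ _ hu ht
    simp only [hu, ht]
  · intro g hg u hu t ht hut e1 e2
    obtain ⟨x, hx, x', hx', A, P⟩ := key _ (key2 u hu t ht hut).1 (key2 u hu t ht hut).2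
    obtain ⟨a, b, hc⟩ := exists_col2 hK (col u).2 (col t).2 (ne hut)
    have e1' := (P g hg u (by simp) t (by simp) hut).1 e1
    have e2' := (A t (by simp)).1 e2
    exact (A u (by simp)).2 (E (ptP K g (col u) (col t), (col t : ℕ), (col u : ℕ))
      (mem_lines.2 ⟨_, hc, Or.inr (Or.inl ⟨g, lt_G hg, by simp [genL]⟩)⟩) x hx x' hx' e1' e2')
  · intro u hu t ht hut e1
    obtain ⟨x, hx, x', hx', A, P⟩ := key _ (key2 u hu t ht hut).1 (key2 u hu t ht hut).2
    obtain ⟨a, b, hc⟩ := exists_col2 hK (col u).2 (col t).2 (ne hut)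
    have e1' := (P 1 g1 u (by simp) t (by simp) hut).1 e1
    exact (A u (by simp)).2 (E (ptP K 1 (col u) (col t), ptP K 1 (col u) (col t), (col u : ℕ))
      (mem_lines.2 ⟨_, hc, Or.inl (by simp [globL])⟩) x hx x' hx' e1' e1')
  · intro u hu t ht hut e1
    obtain ⟨x, hx, x', hx', A, P⟩ := key _ (key2 u hu t ht hut).1 (key2 u hu t ht hut).2
    obtain ⟨a, b, hc⟩ := exists_col2 hK (col u).2 (col t).2 (ne hut)
    have e1' := (P 0 g0 u (by simp) t (by simp) hut).1 e1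
    exact (P 0 g0 t (by simp) u (by simp) hut.symm).2 (E (ptP K 0 (col u) (col t),
      ptP K 0 (col u) (col t), ptP K 0 (col t) (col u))
      (mem_lines.2 ⟨_, hc, Or.inl (by simp [globL])⟩) x hx x' hx' e1' e1')
  · intro g hg u hu t ht v hv hut huv htv e1 e2
    obtain ⟨x, hx, x', hx', A, P⟩ := key _ (key3 u hu t ht v hv hut huv htv).1
      (key3 u hu t ht v hv hut huv htv).2
    obtain ⟨a, hc⟩ := exists_col3 hK (col u).2 (col t).2 (col v).2 (ne hut) (ne huv) (ne htv)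
    have e1' := (P g hg u (by simp) t (by simp) hut).1 e1
    have e2' := (P 0 g0 v (by simp) u (by simp) huv.symm).1 e2
    exact (P g hg v (by simp) t (by simp) htv.symm).2 (E (ptP K g (col u) (col t),
      ptP K 0 (col v) (col u), ptP K g (col v) (col t))
      (mem_lines.2 ⟨_, hc, Or.inr (Or.inl ⟨g, lt_G hg, by simp [genL]⟩)⟩) x hx x' hx' e1' e2')
  · intro g hg u hu t ht v hv hut huv htv e1 e2
    obtain ⟨x, hx, x', hx', A, P⟩ := key _ (key3 u hu t ht v hv hut huv htv).1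
      (key3 u hu t ht v hv hut huv htv).2
    obtain ⟨a, hc⟩ := exists_col3 hK (col u).2 (col t).2 (col v).2 (ne hut) (ne huv) (ne htv)
    have e1' := (P g hg u (by simp) t (by simp) hut).1 e1
    have e2' := (P 0 g0 v (by simp) t (by simp) htv.symm).1 e2
    exact (P g hg u (by simp) v (by simp) huv).2 (E (ptP K g (col u) (col t),
      ptP K 0 (col v) (col t), ptP K g (col u) (col v))
      (mem_lines.2 ⟨_, hc, Or.inr (Or.inl ⟨g, lt_G hg, by simp [genL]⟩)⟩) x hx x' hx' e1' e2')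
  · intro g hg u hu t ht v hv hut huv htv e1 e2
    obtain ⟨x, hx, x', hx', A, P⟩ := key _ (key3 u hu t ht v hv hut huv htv).1
      (key3 u hu t ht v hv hut huv htv).2
    obtain ⟨a, hc⟩ := exists_col3 hK (col u).2 (col t).2 (col v).2 (ne hut) (ne huv) (ne htv)
    have e1' := (P g hg u (by simp) t (by simp) hut).1 e1
    have e2' := (P g hg v (by simp) t (by simp) htv.symm).1 e2
    exact (P 0 g0 u (by simp) v (by simp) huv).2 (E (ptP K g (col u) (col t),
      ptP K g (col v) (col t), ptP K 0 (col u) (col v))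
      (mem_lines.2 ⟨_, hc, Or.inr (Or.inl ⟨g, lt_G hg, by simp [genL]⟩)⟩) x hx x' hx' e1' e2')
  · intro a b c d hr u hu t ht s hs v hv hut hus huv hts htv hsv e1 e2 e3
    obtain ⟨x, hx, x', hx', A, P⟩ := key {u, t, s, v}
      (by rintro w (rfl | rfl | rfl | rfl) <;> assumption)
      (by
        rintro w (rfl | rfl | rfl | rfl) z (rfl | rfl | rfl | rfl) e <;>
          first | rfl | exact absurd e ‹_› | exact absurd e.symm ‹_›)
    have hc : Col K ((col u : ℕ), (col t : ℕ), (col s : ℕ), (col v : ℕ)) :=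
      ⟨(col u).2, (col t).2, (col s).2, (col v).2, ne hut, ne hus, ne huv, ne hts, ne htv, ne hsv⟩
    obtain ⟨ha, hb', hc', hd⟩ := hW.2 _ (Or.inl hr)
    have hl : ∀ ln ∈ relL K p.1 ((col u : ℕ), (col t : ℕ), (col s : ℕ), (col v : ℕ)) (a, b, c, d),
        ln ∈ lines K p := fun ln h => mem_lines.2 ⟨_, hc, Or.inr (Or.inr (Or.inl ⟨_, hr, h⟩))⟩
    have e1' := (P b hb' u (by simp) t (by simp) hut).1 e1
    have e2' := (P a ha s (by simp) u (by simp) hus.symm).1 e2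
    have e3' := (P d hd v (by simp) t (by simp) htv.symm).1 e3
    have e4 := E _ (hl _ List.mem_cons_self) x hx x' hx' e1' e2'
    exact (P c hc' s (by simp) v (by simp) hsv).2
      (E _ (hl _ (List.mem_cons_of_mem _ List.mem_cons_self)) x hx x' hx' e4 e3')
  · intro a b c d hr u hu t ht v hv hut huv htv e1 e2 e3 e4
    obtain ⟨x, hx, x', hx', A, P⟩ := key _ (key3 u hu t ht v hv hut huv htv).1
      (key3 u hu t ht v hv hut huv htv).2
    obtain ⟨z, hc⟩ := exists_col3 hK (col u).2 (col t).2 (col v).2 (ne hut) (ne huv) (ne htv)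
    obtain ⟨ha, hb, hc', hd⟩ := hW.2 _ (Or.inr hr)
    have e1' := (P a ha u (by simp) t (by simp) hut).1 e1
    have e2' := (P b hb u (by simp) t (by simp) hut).1 e2
    have e3' := (P c hc' v (by simp) t (by simp) htv.symm).1 e3
    have e4' := (P d hd v (by simp) t (by simp) htv.symm).1 e4
    have hl : ∀ ln ∈ sepL K p.1 ((col u : ℕ), (col t : ℕ), z, (col v : ℕ)) (a, b, c, d),
        ln ∈ lines K p := fun ln h => mem_lines.2 ⟨_, hc, Or.inr (Or.inr (Or.inr ⟨_, hr, h⟩))⟩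
    have e5 := E _ (hl _ List.mem_cons_self) x hx x' hx' e1' e2'
    have e6 := E _ (hl _ (List.mem_cons_of_mem _ List.mem_cons_self)) x hx x' hx' e3' e4'
    exact (A t (by simp)).2 (E _ (hl _ (List.mem_cons_of_mem _
      (List.mem_cons_of_mem _ List.mem_cons_self))) x hx x' hx' e5 e6)

end Pool.Agent.SemiRandom.Und
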