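import Pool.Agent.P.MP_c53d0e_pr.UF3
import Pool.Agent.P.MP_c53d0e_pr.UF5
import Pool.Agent.P.MP_c53d0e_pr.UF6

set_option autoImplicit false
set_option linter.unusedSectionVars false

namespace Pool.Agent.SemiRandom.Und

open Finset

/-- The recoded configuration. -/
def psi_UF7 {K : ℕ} {W : Type} (n : ℕ) (fP : ℕ → Fin K → Fin K → W → W → W) (ω : Vt K → W) :
    Vt K → W
  | .free i => ω (.free i)
  | .app g i t =>
    if g < n ∧ i ≠ t.col then fP g i t.col (ω (.app g i t)) (ω t) else ω (.app g i t)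

lemma agree_UF7 {K : ℕ} {p : Prs} {i0 : Fin K} {F : Finset (Vt K)} (hF : Cert K p i0 F)
    {W : Type} (fP : ℕ → Fin K → Fin K → W → W → W) (ω ω' : Vt K → W)
    (H : Horn K p Vt.col (F : Set (Vt K)) (fun v => ω v = ω' v)
      (fun g u t => fP g u.col t.col (ω u) (ω t) = fP g u.col t.col (ω' u) (ω' t)))
    (h : ∀ v ∈ F, v ≠ Vt.free i0 → psi_UF7 p.1 fP ω v = psi_UF7 p.1 fP ω' v) :
    ∀ v ∈ F, ω v = ω' v := by
  have hP : ∀ g i t, Vt.app g i t ∈ F → g < p.1 → i ≠ t.col →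
      fP g (Vt.app g i t).col t.col (ω (Vt.app g i t)) (ω t) =
        fP g (Vt.app g i t).col t.col (ω' (Vt.app g i t)) (ω' t) := by
    intro g i t hv hg hi
    have := h _ hv (by simp)
    simp only [psi_UF7, if_pos (And.intro hg hi)] at this
    exact this
  have h0 : ω (Vt.free i0) = ω' (Vt.free i0) := hF.2.2 _ _ H hP
  intro v
  induction v with
  | free i =>
    intro hv
    by_cases hi : i = i0
    · rw [hi]; exact h0
    · exact h _ hv (by simpa using hi)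
  | app g i t ih =>
    intro hv
    have ht := hF.2.1 g i t hv
    by_cases hg : g < p.1 ∧ i ≠ t.col
    · exact H.invP g hg.1 _ (by simpa using hv) t (by simpa using ht) hg.2
        (hP g i t hv hg.1 hg.2) (ih ht)
    · have := h _ hv (by simp)
      simp only [psi_UF7, if_neg hg] at this
      exact this

lemma arith_UF7 {a w : ℝ} {K n : ℕ} (ha : 0 ≤ a) (hw : 1 ≤ w) (hn : 1 ≤ n)
    (h : (a / w ^ K) ^ (2 ^ n) * w ^ n ≤ w ^ (n - 1)) :
    a ≤ w ^ ((K : ℝ) - 1 / (2 : ℝ) ^ n) := by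
  have hw0 : 0 < w := by linarith
  obtain ⟨m, rfl⟩ : ∃ m, n = m + 1 := ⟨n - 1, by omega⟩
  have hm : 0 < w ^ m := by positivity
  have h1 : (a / w ^ K) ^ (2 ^ (m + 1)) ≤ w⁻¹ := by
    rw [Nat.add_sub_cancel, pow_succ w m] at h
    rw [← one_div, le_div_iff₀ hw0]
    have : (a / w ^ K) ^ (2 ^ (m + 1)) * w * w ^ m ≤ 1 * w ^ m := by linarith
    exact le_of_mul_le_mul_right this hm
  have h2 : (w ^ (-(1 / (2 : ℝ) ^ (m + 1)))) ^ (2 ^ (m + 1)) = w⁻¹ := by
    rw [← Real.rpow_natCast, ← Real.rpow_mul hw0.le, ← Real.rpow_neg_one]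
    congr 1
    push_cast
    field_simp
  rw [← h2] at h1
  have h3 : a / w ^ K ≤ w ^ (-(1 / (2 : ℝ) ^ (m + 1))) :=
    le_of_pow_le_pow_left₀ (by positivity) (by positivity) h1
  rw [div_le_iff₀ (by positivity)] at h3
  rw [sub_eq_add_neg, Real.rpow_add hw0, Real.rpow_natCast]
  linarith

theorem no_of_cert {K : ℕ} {p : Prs} (hK : 4 ≤ K) (hW : p.WF) {i0 : Fin K} {F : Finset (Vt K)}
    (hF : Cert K p i0 F) : (p.inst K).No := by
  classical
  have hF1 : 1 ≤ F.card := card_pos.2 ⟨_, hF.1 i0⟩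
  refine ⟨1 / (2 : ℝ) ^ F.card, by positivity, ?_, ?_⟩
  · have : (2 : ℝ) ^ 1 ≤ 2 ^ F.card := pow_le_pow_right₀ (by norm_num) hF1
    rw [div_le_iff₀ (by positivity)]
    linarith
  intro w S hw hS
  haveI : Nonempty (Fin w) := ⟨⟨0, hw⟩⟩
  obtain ⟨fP, hfP⟩ := horn_pair hK hW hS
  have hinj := basInj_of_exact hK hW hS
  set B : Finset (Fin K → Fin w) := S.image fun x i => ev x (i : ℕ) with hB
  have hcard : B.card = S.card := by
    refine card_image_of_injOn fun x hx x' hx' hxx => ?_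
    exact hinj x hx x' hx' fun b => congrFun hxx b
  have hbl := blowup (ι := F) (W := Fin w) (fun v => v.1.col) (fun i => ⟨Vt.free i, hF.1 i⟩)
    (fun i => rfl) B
  let ext : (F → Fin w) → Vt K → Fin w := fun ω v => if h : v ∈ F then ω ⟨v, h⟩ else ⟨0, hw⟩
  have hext : ∀ ω (v : F), ext ω v.1 = ω v := fun ω v => by simp only [ext, v.2, dif_pos]
  have hcol : ∀ ω : F → Fin w,
      (∀ τ : Fin K → F, (∀ i, (τ i).1.col = i) → (fun i => ω (τ i)) ∈ B) →
      ∀ τ : Fin K → Vt K, (∀ i, τ i ∈ (F : Set (Vt K)) ∧ (τ i).col = i) →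
        ∃ x ∈ S, ∀ i : Fin K, ev x i = ext ω (τ i) := by
    intro ω hω τ hτ
    obtain ⟨x, hx, hxe⟩ := mem_image.1 (hω (fun i => ⟨τ i, (hτ i).1⟩) fun i => (hτ i).2)
    exact ⟨x, hx, fun i => (congrFun hxe i).trans (hext ω ⟨τ i, (hτ i).1⟩).symm⟩
  have key : ∀ Om : Finset (F → Fin w),
      (∀ ω ∈ Om, ∀ τ : Fin K → F, (∀ i, (τ i).1.col = i) → (fun i => ω (τ i)) ∈ B) →
      Om.card ≤ w ^ (F.card - 1) := by
    intro Om hOm
    have h1 : Om.card ≤ (univ : Finset (↥(F.erase (Vt.free i0)) → Fin w)).card := by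
      refine card_le_card_of_injOn (fun ω v => psi_UF7 p.1 fP (ext ω) v.1)
        (fun _ _ => mem_coe.2 (mem_univ _)) fun ω hω ω' hω' hh => ?_
      have H := hfP Vt.col (F : Set (Vt K)) (fun i => ⟨Vt.free i, hF.1 i, rfl⟩) (ext ω) (ext ω')
        (hcol ω (hOm ω hω)) (hcol ω' (hOm ω' hω'))
      have := agree_UF7 hF fP (ext ω) (ext ω') H fun v hv hne =>
        congrFun hh ⟨v, mem_erase.2 ⟨hne, hv⟩⟩
      funext v
      rw [← hext ω v, ← hext ω' v]
      exact this v.1 v.2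
    simpa [card_erase_of_mem (hF.1 i0)] using h1
  have h2 := hbl.trans (Nat.cast_le.2 (key _ fun ω hω => (mem_filter.1 hω).2))
  simp only [Fintype.card_fin, Fintype.card_coe, hcard, Nat.cast_pow] at h2
  exact arith_UF7 (Nat.cast_nonneg _) (by exact_mod_cast hw) hF1 h2

theorem no_of_N {K : ℕ} {p : Prs} (hK : 4 ≤ K) (hW : p.WF) (hN : p.N) : (p.inst K).No := by
  obtain ⟨F, hF⟩ := exists_cert hK hW hN ⟨0, by omega⟩
  exact no_of_cert (by omega) hW hF

end Pool.Agent.SemiRandom.Und
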