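import Pool.Agent.P.MP_c53d0e_pr.UF0
import Pool.Agent.Lib.MRDP.Basic

set_option autoImplicit false
set_option linter.unusedSectionVars false

namespace Pool.Agent.SemiRandom.Und

open Finset

abbrev Fn (k : ℕ) : Type := (Fin k → ℕ) → ℕ

variable {k : ℕ}

/-- Shift of a coordinate. -/
def sh (j : Fin k) (f : Fn k) : Fn k := fun a => f (Function.update a j (a j + 1))
/-- Reset of a coordinate. -/
def rs (j : Fin k) (f : Fn k) : Fn k := fun a => f (Function.update a j 0)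

/-- Functions whose iterated differences are nonnegative and vanish after `d` steps. -/
def Pos : ℕ → Fn k → Prop
  | 0, f => f = 0
  | d + 1, f => ∀ j, ∃ g, Pos d g ∧ sh j f = f + g

def Closed (FF : Finset (Fn k)) : Prop :=
  ∀ f ∈ FF, ∀ j, (∃ g ∈ FF, sh j f = f + g) ∧ rs j f ∈ FF

def Rich (FF GG : Finset (Fn k)) : Prop :=
  0 ∈ GG ∧ 1 ∈ GG ∧ ∀ f ∈ FF, f ∈ GG ∧ f + 1 ∈ GG ∧ (∀ j, sh j f ∈ GG) ∧
    ∀ c ≤ f 0, (fun _ => c) ∈ GG

/-- Names of generators. -/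
inductive Gn (k : ℕ) : Type
  | zero
  | z (f : Fn k)
  | q (j : Fin k) (i : Bool)
  | r (j : Fin k) (i : Bool)
  | c (i : ℕ)

def RelF (GG : Finset (Fn k)) : Set (Gn k × Gn k × Gn k × Gn k) :=
  {x | (∃ f ∈ GG, ∃ g ∈ GG, f + g ∈ GG ∧ x = (.z f, .z g, .z (f + g), .z 0)) ∨
    (∃ f ∈ GG, ∃ j i, sh j f ∈ GG ∧ x = (.z f, .q j i, .q j i, .z (sh j f))) ∨
    ∃ f ∈ GG, ∃ j i, rs j f ∈ GG ∧ x = (.z f, .r j i, .r j i, .z (rs j f))}

def RelS (GG : Finset (Fn k)) (n : ℕ) : Set (Gn k × Gn k × Gn k × Gn k) :=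
  {x | x ∈ RelF GG ∨ x = (.c 0, .z 0, .z 0, .z 0) ∨ ∃ i < n, x = (.c (i + 1), .z 0, .c i, .z 1)}

def SepF (k : ℕ) : Set (Gn k × Gn k × Gn k × Gn k) :=
  {x | ∃ j, x = (.q j false, .zero, .q j true, .zero) ∨ x = (.r j false, .zero, .r j true, .zero)}

def SepS (fp fm x0 : Fn k) (n : ℕ) : Set (Gn k × Gn k × Gn k × Gn k) :=
  {x | x = (.z fp, .z fm, .z x0, .c n) ∨ x ∈ SepF k}

/-- The numbered presentation for the input `n`. -/
def prsOf (g0 : ℕ) (R0 S0 : List Q4) (y a b x : ℕ) (n : ℕ) : Prs :=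
  (g0 + n + 1, R0 ++ (g0, 0, 0, 0) :: (List.range n).map (fun i => (g0 + i + 1, 0, g0 + i, y)),
    (a, b, x, g0 + n) :: S0)

end Pool.Agent.SemiRandom.Und
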