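import Pool.Agent.P.MP_c53d0e_pr.UG0

set_option autoImplicit false
set_option linter.unusedSectionVars false

namespace Pool.Agent.SemiRandom.Und

open Finset

variable {k : ℕ}

lemma pos_zero_UG1 (d : ℕ) : Pos d (0 : Fn k) := by
  induction d with
  | zero => rfl
  | succ d ih => exact fun j => ⟨0, ih, by funext a; simp [sh]⟩

lemma Pos.succ {d : ℕ} {f : Fn k} (h : Pos d f) : Pos (d + 1) f := by
  induction d generalizing f with
  | zero => rw [show f = 0 from h]; exact pos_zero_UG1 _
  | succ d ih =>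
    intro j
    obtain ⟨g, hg, e⟩ := h j
    exact ⟨g, ih hg, e⟩

lemma Pos.le {d d' : ℕ} {f : Fn k} (h : Pos d f) (hd : d ≤ d') : Pos d' f := by
  induction hd with
  | refl => exact h
  | step _ ih => exact ih.succ

lemma Pos.add {d : ℕ} {f g : Fn k} (hf : Pos d f) (hg : Pos d g) : Pos d (f + g) := by
  induction d generalizing f g with
  | zero => rw [show f = 0 from hf, show g = 0 from hg, add_zero]; rfl
  | succ d ih =>
    intro j
    obtain ⟨f', hf', e⟩ := hf j
    obtain ⟨g', hg', e'⟩ := hg j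
    refine ⟨f' + g', ih hf' hg', ?_⟩
    have : sh j (f + g) = sh j f + sh j g := rfl
    rw [this, e, e']; ring

lemma Pos.mul {d e : ℕ} {f g : Fn k} (hf : Pos d f) (hg : Pos e g) : Pos (d + e) (f * g) := by
  induction hn : d + e using Nat.strong_induction_on generalizing d e f g with
  | _ n ih =>
    rcases d with _ | d
    · rw [show f = 0 from hf, zero_mul]; exact pos_zero_UG1 _
    rcases e with _ | e
    · rw [show g = 0 from hg, mul_zero]; exact pos_zero_UG1 _
    obtain rfl : n = d + e + 1 + 1 := by omega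
    intro j
    obtain ⟨f', hf', e1⟩ := hf j
    obtain ⟨g', hg', e2⟩ := hg j
    refine ⟨f' * g + f * g' + f' * g',
      ((ih (d + e + 1) (by omega) hf' hg (by omega)).add
        (ih (d + e + 1) (by omega) hf hg' (by omega))).add
        (ih (d + e) (by omega) hf' hg' rfl).succ, ?_⟩
    have : sh j (f * g) = sh j f * sh j g := rfl
    rw [this, e1, e2]; ring

lemma pos_const (c : ℕ) : Pos 1 (fun _ => c : Fn k) := fun j =>
  ⟨0, rfl, by funext a; simp [sh]⟩

lemma pos_proj (i : Fin k) : Pos 2 (fun a => a i : Fn k) := fun j =>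
  ⟨fun _ => if i = j then 1 else 0, pos_const _, by
    funext a
    by_cases h : i = j
    · subst h; simp [sh]
    · simp [sh, h]⟩

theorem poly_split {P : (ℕ → ℕ) → ℤ} (hP : IsPoly P) (k : ℕ) : ∃ (d : ℕ) (f g : Fn k),
    Pos d f ∧ Pos d g ∧
      ∀ a, P (fun i => if h : i < k then a ⟨i, h⟩ else 0) = (f a : ℤ) - g a := by
  induction hP with
  | proj i =>
    by_cases h : i < k
    · exact ⟨2, fun a => a ⟨i, h⟩, 0, pos_proj _, pos_zero_UG1 _, fun a => by simp [h]⟩
    · exact ⟨0, 0, 0, rfl, rfl, fun a => by simp [h]⟩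
  | const c =>
    exact ⟨1, fun _ => c.toNat, fun _ => (-c).toNat, pos_const _, pos_const _,
      fun a => (Int.toNat_sub_toNat_neg c).symm⟩
  | sub _ _ ih ih' =>
    obtain ⟨d, f, g, hf, hg, h⟩ := ih
    obtain ⟨d', f', g', hf', hg', h'⟩ := ih'
    refine ⟨d + d', f + g', g + f', (hf.le (by omega)).add (hg'.le (by omega)),
      (hg.le (by omega)).add (hf'.le (by omega)), fun a => ?_⟩
    simp only [h, h', Pi.add_apply]
    push_cast
    ring
  | mul _ _ ih ih' =>
    obtain ⟨d, f, g, hf, hg, h⟩ := ih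
    obtain ⟨d', f', g', hf', hg', h'⟩ := ih'
    refine ⟨d + d', f * f' + g * g', f * g' + g * f', (hf.mul hf').add (hg.mul hg'),
      (hf.mul hg').add (hg.mul hf'), fun a => ?_⟩
    simp only [h, h', Pi.add_apply, Pi.mul_apply]
    push_cast
    ring

end Pool.Agent.SemiRandom.Und
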