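import Pool.Agent.P.MP_c53d0e_pr.UG1

set_option autoImplicit false
set_option linter.unusedSectionVars false

namespace Pool.Agent.SemiRandom.Und

open Finset

variable {k : ℕ}

/-- Reset of a set of coordinates. -/
def rz_UG2 (J : Finset (Fin k)) (f : Fn k) : Fn k := fun a => f fun i => if i ∈ J then 0 else a i

lemma rz_empty_UG2 (f : Fn k) : rz_UG2 ∅ f = f := by
  funext a; simp [rz_UG2]

lemma rz_insert_UG2 (j : Fin k) (J : Finset (Fin k)) (f : Fn k) :
    rz_UG2 (insert j J) f = rs j (rz_UG2 J f) := by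
  funext a
  simp only [rz_UG2, rs]
  congr 1
  funext i
  by_cases h : i = j
  · subst h; simp
  · simp [h]

lemma rz_mem_UG2 {FF : Finset (Fn k)} (hC : Closed FF) {f : Fn k} (hf : f ∈ FF)
    (J : Finset (Fin k)) : rz_UG2 J f ∈ FF := by
  induction J using Finset.induction_on with
  | empty => rwa [rz_empty_UG2]
  | insert j J _ ih => rw [rz_insert_UG2]; exact (hC _ ih j).2

lemma sh_rz_mem_UG2 {j : Fin k} {J : Finset (Fin k)} (h : j ∈ J) (f : Fn k) :
    sh j (rz_UG2 J f) = rz_UG2 J f := by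
  funext a
  simp only [rz_UG2, sh]
  congr 1
  funext i
  by_cases hi : i = j
  · subst hi; simp [h]
  · simp [hi]

lemma sh_rz_notMem_UG2 {j : Fin k} {J : Finset (Fin k)} (h : j ∉ J) (f : Fn k) :
    sh j (rz_UG2 J f) = rz_UG2 J (sh j f) := by
  funext a
  simp only [rz_UG2, sh]
  congr 1
  funext i
  by_cases hi : i = j
  · subst hi; simp [h]
  · simp [hi]

theorem exists_closed {d : ℕ} {f : Fn k} (h : Pos d f) : ∃ FF, f ∈ FF ∧ Closed FF := by
  classical
  induction d generalizing f with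
  | zero =>
    have h0 : f = 0 := h
    subst h0
    refine ⟨{0}, mem_singleton_self _, fun f hf j => ?_⟩
    rw [mem_singleton.1 hf]
    exact ⟨⟨0, mem_singleton_self _, rfl⟩, mem_singleton.2 rfl⟩
  | succ d ih =>
    choose g hg1 hg2 using (show ∀ j, ∃ g, Pos d g ∧ sh j f = f + g from h)
    choose G hG1 hG2 using fun j => ih (hg1 j)
    refine ⟨insert 0 ((univ.image fun J => rz_UG2 J f) ∪ univ.biUnion G), ?_, fun f' hf' j => ?_⟩
    · exact mem_insert_of_mem (mem_union_left _ (mem_image.2 ⟨∅, mem_univ _, rz_empty_UG2 f⟩))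
    have hG : ∀ i, ∀ x ∈ G i, x ∈ insert 0 ((univ.image fun J => rz_UG2 J f) ∪ univ.biUnion G) :=
      fun i x hx => mem_insert_of_mem (mem_union_right _ (mem_biUnion.2 ⟨i, mem_univ _, hx⟩))
    rcases mem_insert.1 hf' with rfl | hf'
    · exact ⟨⟨0, mem_insert_self _ _, rfl⟩, mem_insert_self _ _⟩
    rcases mem_union.1 hf' with hf' | hf'
    · obtain ⟨J, -, rfl⟩ := mem_image.1 hf'
      refine ⟨?_, mem_insert_of_mem (mem_union_left _
        (mem_image.2 ⟨insert j J, mem_univ _, rz_insert_UG2 j J f⟩))⟩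
      by_cases hj : j ∈ J
      · exact ⟨0, mem_insert_self _ _, by rw [sh_rz_mem_UG2 hj, add_zero]⟩
      · refine ⟨rz_UG2 J (g j), hG j _ (rz_mem_UG2 (hG2 j) (hG1 j) J), ?_⟩
        rw [sh_rz_notMem_UG2 hj, hg2 j]
        rfl
    · obtain ⟨i, -, hi⟩ := mem_biUnion.1 hf'
      obtain ⟨⟨g', h1, h2⟩, h3⟩ := hG2 i f' hi j
      exact ⟨⟨g', hG i _ h1, h2⟩, hG i _ h3⟩

theorem exists_rich (FF : Finset (Fn k)) : ∃ GG, Rich FF GG := by
  classical
  refine ⟨insert 0 (insert 1 (FF.biUnion fun f => insert f (insert (f + 1)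
    ((univ.image fun j => sh j f) ∪ (range (f 0 + 1)).image fun c => fun _ => c)))),
    mem_insert_self _ _, mem_insert_of_mem (mem_insert_self _ _), fun f hf => ?_⟩
  have key : ∀ x ∈ insert f (insert (f + 1)
      ((univ.image fun j => sh j f) ∪ (range (f 0 + 1)).image fun c => (fun _ => c : Fn k))),
      x ∈ insert 0 (insert 1 (FF.biUnion fun f => insert f (insert (f + 1)
        ((univ.image fun j => sh j f) ∪ (range (f 0 + 1)).image fun c => (fun _ => c : Fn k))))) :=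
    fun x hx => mem_insert_of_mem (mem_insert_of_mem (mem_biUnion.2 ⟨f, hf, hx⟩))
  refine ⟨key _ (mem_insert_self _ _), key _ (mem_insert_of_mem (mem_insert_self _ _)),
    fun j => key _ (mem_insert_of_mem (mem_insert_of_mem (mem_union_left _
      (mem_image.2 ⟨j, mem_univ _, rfl⟩)))),
    fun c hc => key _ (mem_insert_of_mem (mem_insert_of_mem (mem_union_right _
      (mem_image.2 ⟨c, mem_range.2 (Nat.lt_succ_of_le hc), rfl⟩))))⟩

lemma closed_union_UG2 [DecidableEq (Fn k)] {F G : Finset (Fn k)} (hF : Closed F)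
    (hG : Closed G) : Closed (F ∪ G) := by
  intro f hf j
  rcases mem_union.1 hf with hf | hf
  · obtain ⟨⟨g, h1, h2⟩, h3⟩ := hF f hf j
    exact ⟨⟨g, mem_union_left _ h1, h2⟩, mem_union_left _ h3⟩
  · obtain ⟨⟨g, h1, h2⟩, h3⟩ := hG f hf j
    exact ⟨⟨g, mem_union_right _ h1, h2⟩, mem_union_right _ h3⟩

theorem dioph_form {p : ℕ → Prop} (hp : REPred p) : ∃ (k : ℕ) (FF : Finset (Fn (k + 1)))
    (fp fm : Fn (k + 1)), Closed FF ∧ fp ∈ FF ∧ fm ∈ FF ∧ (fun a => a 0) ∈ FF ∧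
      ∀ n, p n ↔ ∃ a, a 0 = n ∧ fp a = fm a := by
  classical
  obtain ⟨P, hP⟩ := Pool.Agent.Lib.MRDP.re_poly hp
  obtain ⟨l, hl⟩ := Pool.Agent.Lib.MRDP.isPoly_modEq P.isPoly
  obtain ⟨d, f, g, hf, hg, hfg⟩ := poly_split P.isPoly (l.toFinset.sup id + 1)
  obtain ⟨F1, a1, b1⟩ := exists_closed hf
  obtain ⟨F2, a2, b2⟩ := exists_closed hg
  obtain ⟨F3, a3, b3⟩ := exists_closed (pos_proj (0 : Fin (l.toFinset.sup id + 1)))
  refine ⟨l.toFinset.sup id, F1 ∪ F2 ∪ F3, f, g, closed_union_UG2 (closed_union_UG2 b1 b2) b3,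
    mem_union_left _ (mem_union_left _ a1), mem_union_left _ (mem_union_right _ a2),
    mem_union_right _ a3, fun n => (hP n).trans ⟨?_, ?_⟩⟩
  · rintro ⟨t, h0, ht⟩
    refine ⟨fun i => t i, h0, ?_⟩
    have h1 := hfg fun i => t i
    have h2 := hl 0 (fun i => if h : i < l.toFinset.sup id + 1 then
      (fun i : Fin (l.toFinset.sup id + 1) => t i) ⟨i, h⟩ else 0) t fun i hi => by
        have : i ≤ l.toFinset.sup id := le_sup (f := id) (List.mem_toFinset.2 hi)
        rw [dif_pos (Nat.lt_succ_of_le this)]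
    have h3 : ∀ a b : ℤ, a ≡ b [ZMOD ((0 : ℕ) : ℤ)] → a = b := fun a b h => by
      simpa [Int.ModEq] using h
    have h4 := h3 _ _ h2
    have h5 : ((f fun i => t i : ℕ) : ℤ) - (g fun i => t i : ℕ) = 0 := by
      rw [← h1]; exact h4.trans ht
    exact_mod_cast sub_eq_zero.1 h5
  · rintro ⟨a, h0, ha⟩
    refine ⟨fun i => if h : i < l.toFinset.sup id + 1 then a ⟨i, h⟩ else 0, ?_, ?_⟩
    · exact (dif_pos (Nat.succ_pos _)).trans h0
    · exact (hfg a).trans (by rw [ha, sub_self])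

end Pool.Agent.SemiRandom.Und
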