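import Pool.Agent.P.MP_c53d0e_pr.UG0

set_option autoImplicit false
set_option linter.unusedSectionVars false

namespace Pool.Agent.SemiRandom.Und

open Finset

theorem const_of_rs_UG3 {k : ℕ} (f : Fn k) (h : ∀ j, rs j f = f) (a : Fin k → ℕ) : f a = f 0 := by
  classical
  have key : ∀ s : Finset (Fin k), f a = f (fun j => if j ∈ s then 0 else a j) := by
    intro s
    induction s using Finset.induction_on with
    | empty => simp
    | insert i s _ ih =>
      rw [ih, ← congrFun (h i) (fun j => if j ∈ s then 0 else a j)]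
      unfold rs
      congr 1
      funext j
      by_cases hj : j = i
      · subst hj; simp
      · simp [hj]
  rw [key univ]
  congr 1
  funext j
  simp

theorem down_UG3 {k : ℕ} (K : (Fin k → ℕ) → Prop)
    (hK : ∀ b j, K (Function.update b j (b j + 1)) → K b) :
    ∀ (s : ℕ) (b : Fin k → ℕ), ∑ j, b j = s → K b → K 0 := by
  intro s
  induction s with
  | zero =>
    intro b hb h
    have : b = 0 := by
      funext j
      exact (Finset.sum_eq_zero_iff.1 hb) j (mem_univ _)
    exact this ▸ h
  | succ s ih =>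
    intro b hb h
    obtain ⟨j, -, hj⟩ := Finset.exists_ne_zero_of_sum_ne_zero (s := univ) (f := b) (by omega)
    refine ih (Function.update b j (b j - 1)) ?_ (hK _ j ?_)
    · rw [Finset.sum_update_of_mem (mem_univ j)]
      have := Finset.add_sum_erase univ b (mem_univ j)
      rw [Finset.sdiff_singleton_eq_erase]
      omega
    · have : Function.update (Function.update b j (b j - 1)) j
          (Function.update b j (b j - 1) j + 1) = b := by
        funext i
        by_cases hi : i = j
        · subst hi; simp; omega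
        · simp [hi]
      rw [this]
      exact h

theorem nprop_of_sol {k : ℕ} {FF GG : Finset (Fn k)} (hC : Closed FF) (hR : Rich FF GG)
    {fp fm x0 : Fn k} (hp : fp ∈ FF) (hm : fm ∈ FF) (hx : x0 ∈ FF) {n : ℕ} (a : Fin k → ℕ)
    (h1 : x0 a = n) (h2 : fp a = fm a) :
    NProp (Gn.z 0) Gn.zero (RelS GG n) (SepS fp fm x0 n) := by
  intro M ρ Z h0 hz hu hrel hsep
  obtain ⟨-, hG1, hG⟩ := hR
  have hadd : ∀ f ∈ GG, ∀ g ∈ GG, f + g ∈ GG → ∀ t,
      ρ (.z f) (ρ (.z g) t) = ρ (.z (f + g)) t := by
    intro f hf g hg hfg t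
    have := hrel _ _ _ _ (Or.inl (Or.inl ⟨f, hf, g, hg, hfg, rfl⟩)) t
    rwa [h0] at this
  have hq : ∀ f ∈ GG, ∀ j i, sh j f ∈ GG → ∀ t,
      ρ (.z f) (ρ (.q j i) t) = ρ (.q j i) (ρ (.z (sh j f)) t) :=
    fun f hf j i hs t => hrel _ _ _ _ (Or.inl (Or.inr (Or.inl ⟨f, hf, j, i, hs, rfl⟩))) t
  have hr : ∀ f ∈ GG, ∀ j i, rs j f ∈ GG → ∀ t,
      ρ (.z f) (ρ (.r j i) t) = ρ (.r j i) (ρ (.z (rs j f)) t) :=
    fun f hf j i hs t => hrel _ _ _ _ (Or.inl (Or.inr (Or.inr ⟨f, hf, j, i, hs, rfl⟩))) t
  have cq : ∀ j i, Function.Commute (ρ (.z 1)) (ρ (.q j i)) :=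
    fun j i t => hq 1 hG1 j i hG1 t
  have cr : ∀ j i, Function.Commute (ρ (.z 1)) (ρ (.r j i)) :=
    fun j i t => hr 1 hG1 j i hG1 t
  have cz : ∀ f ∈ FF, Function.Commute (ρ (.z 1)) (ρ (.z f)) := by
    intro f hf t
    obtain ⟨g1, g2, -⟩ := hG f hf
    rw [hadd f g1 1 hG1 g2, hadd 1 hG1 f g1 (add_comm f 1 ▸ g2), add_comm]
  have hc : ∀ i, i ≤ n → ∀ t, ρ (.c i) t = (ρ (.z 1))^[i] t := by
    intro i
    induction i with
    | zero =>
      intro _ t
      have := hrel _ _ _ _ (Or.inr (Or.inl rfl)) t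
      simpa [h0] using this
    | succ i ih =>
      intro hi t
      have := hrel _ _ _ _ (Or.inr (Or.inr ⟨i, hi, rfl⟩)) t
      rw [h0, ih (by omega)] at this
      rw [this, Function.iterate_succ_apply]
  let K : (Fin k → ℕ) → Prop := fun b =>
    ∀ t, (∀ f ∈ FF, ρ (.z f) t = (ρ (.z 1))^[f b] t) → Z t
  have Ka : K a := by
    intro t ht
    refine hsep _ _ _ _ (Or.inl rfl) t ?_ ?_
    · rw [ht fp hp, ht fm hm, h2]
    · rw [ht x0 hx, h1, hc n le_rfl]
  have Kstep : ∀ b j, K (Function.update b j (b j + 1)) → K b := by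
    intro b j hk t ht
    have hZ : ∀ i, Z (ρ (.q j i) t) := by
      intro i
      refine hk _ fun f hf => ?_
      obtain ⟨⟨g, hg, e⟩, -⟩ := hC f hf j
      have hs := (hG f hf).2.2.1 j
      have e' : f (Function.update b j (b j + 1)) = g b + f b := by
        have := congrFun e b
        simp only [sh, Pi.add_apply] at this
        omega
      rw [hq f (hG f hf).1 j i hs, e, ← hadd f (hG f hf).1 g (hG g hg).1 (e ▸ hs), ht g hg,
        ← ((cz f hf).iterate_left (g b)).eq, ht f hf, ← Function.iterate_add_apply, e',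
        ((cq j i).iterate_left _).eq]
    exact hsep _ _ _ _ (Or.inr ⟨j, Or.inl rfl⟩) t (hu _ _ (hZ _) (hz t)) (hu _ _ (hZ _) (hz t))
  have K0 : K 0 := down_UG3 K Kstep _ a rfl Ka
  let P : ℕ → M → Prop := fun i t =>
    ∀ f ∈ FF, (∀ j : Fin k, i ≤ j.val → rs j f = f) → ρ (.z f) t = (ρ (.z 1))^[f 0] t
  have P0 : ∀ t, P 0 t := by
    intro t f hf hj
    have e : f = fun _ => f 0 := funext (const_of_rs_UG3 f fun j => hj j (Nat.zero_le _))
    have key : ∀ c, c ≤ f 0 → ∀ t, ρ (.z (fun _ => c)) t = (ρ (.z 1))^[c] t := by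
      intro c
      induction c with
      | zero => intro _ t; exact h0 t
      | succ c ih =>
        intro hc' t
        have := hadd (fun _ => c) ((hG f hf).2.2.2 c (by omega)) 1 hG1
          ((hG f hf).2.2.2 (c + 1) hc') t
        rw [ih (by omega)] at this
        rw [Function.iterate_succ_apply]
        exact this.symm
    have := key (f 0) le_rfl t
    rwa [← e] at this
  have Pstep : ∀ (i : Fin k) b t, P i t → P (i + 1) (ρ (.r i b) t) := by
    intro i b t ht f hf hj
    have hm' := (hC f hf i).2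
    have e0 : rs i f 0 = f 0 := by simp [rs]
    rw [hr f (hG f hf).1 i b (hG _ hm').1, ht _ hm' ?_, e0, ((cr i b).iterate_left _).eq]
    intro j hij
    funext c
    by_cases hji : j = i
    · subst hji; simp [rs]
    · have hlt : i.val + 1 ≤ j.val := by
        have : j.val ≠ i.val := fun e => hji (Fin.ext e)
        omega
      have := congrFun (hj j hlt) (Function.update c i 0)
      simp only [rs] at this ⊢
      rw [Function.update_comm hji]
      exact this
  have PK : ∀ d, d ≤ k → ∀ t, P (k - d) t → Z t := by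
    intro d
    induction d with
    | zero =>
      intro _ t ht
      exact K0 t fun f hf => ht f hf fun j hj => absurd j.2 (by omega)
    | succ d ih =>
      intro hd t ht
      have hZ : ∀ b, Z (ρ (.r ⟨k - (d + 1), by omega⟩ b) t) := by
        intro b
        refine ih (by omega) _ ?_
        have := Pstep ⟨k - (d + 1), by omega⟩ b t ht
        have e : k - (d + 1) + 1 = k - d := by omega
        simpa only [e] using this
      exact hsep _ _ _ _ (Or.inr ⟨_, Or.inr rfl⟩) t (hu _ _ (hZ _) (hz t)) (hu _ _ (hZ _) (hz t))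
  intro t
  exact PK k le_rfl t (by simpa only [Nat.sub_self] using P0 t)

end Pool.Agent.SemiRandom.Und
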