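import Pool.Agent.P.MP_c53d0e_pr.UG0

set_option autoImplicit false
set_option linter.unusedSectionVars false

namespace Pool.Agent.SemiRandom.Und

open Finset

variable {k : ℕ}

/-- Basis of the model. -/
abbrev Bs (k L : ℕ) : Type := Fin k → Fin (2 ^ (L + 1))

def lv {L : ℕ} (b : Bs k L) : Fin k → ℕ := fun j => L - Nat.log 2 (b j)

/-- Weighted composition operator. -/
def wop {B R : Type} [CommRing R] (c : B → R) (g : B → B) : (B → R) →+ (B → R) where
  toFun v b := c b * v (g b)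
  map_zero' := by ext; simp
  map_add' v v' := by ext; simp [mul_add]

@[simp] lemma wop_apply {B R : Type} [CommRing R] (c : B → R) (g : B → B) (v : B → R) (b : B) :
    wop c g v b = c b * v (g b) := rfl

def setc {L : ℕ} (b : Bs k L) (j : Fin k) (x : ℕ) : Bs k L :=
  Function.update b j ⟨x % 2 ^ (L + 1), Nat.mod_lt _ (by positivity)⟩

/-- The model. -/
def mdl (L : ℕ) (R : Type) [CommRing R] : Gn k → (Bs k L → R) →+ (Bs k L → R)
  | .zero => 0
  | .z f => wop (fun b => 2 ^ f (lv b)) id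
  | .q j i => wop (fun b => if 1 ≤ (b j : ℕ) ∧ (b j : ℕ) < 2 ^ L then 1 else 0)
      fun b => setc b j (2 * b j + i.toNat)
  | .r j i => wop (fun b => if 2 ^ L ≤ (b j : ℕ) then 1 else 0)
      fun b => setc b j (b j - i.toNat * 2 ^ L)
  | .c i => wop (fun _ => 2 ^ i) id

lemma setc_val_UG4 {L : ℕ} (b : Bs k L) (j : Fin k) {x : ℕ} (hx : x < 2 ^ (L + 1)) :
    (setc b j x j : ℕ) = x := by
  simp [setc, Nat.mod_eq_of_lt hx]

lemma setc_ne_UG4 {L : ℕ} (b : Bs k L) {j j' : Fin k} (x : ℕ) (h : j' ≠ j) :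
    setc b j x j' = b j' := by
  simp [setc, Function.update_of_ne h]

lemma setc_setc_UG4 {L : ℕ} (b : Bs k L) (j : Fin k) (y : ℕ) {x : ℕ} (hx : x = b j) :
    setc (setc b j y) j x = b := by
  funext j'
  by_cases h : j' = j
  · subst h
    exact Fin.ext ((setc_val_UG4 _ _ (hx ▸ (b j').2)).trans hx)
  · rw [setc_ne_UG4 _ _ h, setc_ne_UG4 _ _ h]

lemma setc_self_UG4 {L : ℕ} (b : Bs k L) (j : Fin k) {x : ℕ} (hx : x = b j) :
    setc b j x = b := by
  funext j'
  by_cases h : j' = j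
  · subst h
    exact Fin.ext ((setc_val_UG4 _ _ (hx ▸ (b j').2)).trans hx)
  · rw [setc_ne_UG4 _ _ h]

lemma log_two_UG4 {x i : ℕ} (hx : 1 ≤ x) (hi : i ≤ 1) :
    Nat.log 2 (2 * x + i) = Nat.log 2 x + 1 := by
  rw [Nat.log_of_one_lt_of_le (by norm_num) (by omega : 2 ≤ 2 * x + i)]
  congr 2
  omega

lemma lv_q_UG4 {L : ℕ} (b : Bs k L) (j : Fin k) {i : ℕ} (hi : i ≤ 1) (h1 : 1 ≤ (b j : ℕ))
    (h2 : (b j : ℕ) < 2 ^ L) :
    Function.update (lv (setc b j (2 * b j + i))) j (lv (setc b j (2 * b j + i)) j + 1) = lv b := by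
  funext j'
  by_cases h : j' = j
  · subst h
    have hl : Nat.log 2 (b j') < L := Nat.log_lt_of_lt_pow (by omega) h2
    rw [Function.update_self]
    unfold lv
    have hp : 2 ^ (L + 1) = 2 * 2 ^ L := by rw [pow_succ]; ring
    rw [setc_val_UG4 _ _ (by omega), log_two_UG4 h1 hi]
    omega
  · rw [Function.update_of_ne h]
    unfold lv
    rw [setc_ne_UG4 _ _ h]

lemma lv_r_UG4 {L : ℕ} (b : Bs k L) (j : Fin k) (x : ℕ) (h2 : 2 ^ L ≤ (b j : ℕ)) :
    Function.update (lv (setc b j x)) j 0 = lv b := by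
  funext j'
  by_cases h : j' = j
  · subst h
    have hl : L ≤ Nat.log 2 (b j') := Nat.le_log_of_pow_le (by norm_num) h2
    rw [Function.update_self]
    unfold lv
    omega
  · rw [Function.update_of_ne h]
    unfold lv
    rw [setc_ne_UG4 _ _ h]

theorem mdl_rel (L : ℕ) (R : Type) [CommRing R] (GG : Finset (Fn k)) (n : ℕ) (a b c d : Gn k)
    (h : (a, b, c, d) ∈ RelS GG n) (v : Bs k L → R) :
    mdl L R a (mdl L R b v) = mdl L R c (mdl L R d v) := by
  funext x
  rcases h with (⟨f, -, g, -, -, e⟩ | ⟨f, -, j, i, -, e⟩ | ⟨f, -, j, i, -, e⟩) | e | ⟨i, -, e⟩ <;>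
    simp only [Prod.mk.injEq] at e <;> obtain ⟨rfl, rfl, rfl, rfl⟩ := e <;>
    simp only [mdl, wop_apply, id]
  · simp only [Pi.add_apply, Pi.zero_apply, pow_add, pow_zero]
    ring
  · split_ifs with hx
    · unfold sh
      rw [lv_q_UG4 x j (Bool.toNat_le i) hx.1 hx.2]
      ring
    · ring
  · split_ifs with hx
    · unfold rs
      rw [lv_r_UG4 x j _ hx]
      ring
    · ring
  · simp
  · simp only [Pi.zero_apply, Pi.one_apply, pow_zero, pow_succ]
    ring

theorem mdl_sep (L : ℕ) (R : Type) [CommRing R] (a b c d : Gn k) (h : (a, b, c, d) ∈ SepF k)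
    (v : Bs k L → R) (hv : ∀ x : Bs k L, (∃ j, (x j : ℕ) ≤ 1) → v x = 0)
    (h1 : mdl L R a v = mdl L R b v) (h2 : mdl L R c v = mdl L R d v) : v = 0 := by
  funext x
  have hp : 2 ^ (L + 1) = 2 * 2 ^ L := by rw [pow_succ]; ring
  have h0 : 0 < 2 ^ L := by positivity
  obtain ⟨j, e | e⟩ := h <;> simp only [Prod.mk.injEq] at e <;> obtain ⟨rfl, rfl, rfl, rfl⟩ := e
  · have hx := (x j).2
    by_cases hj : (x j : ℕ) ≤ 1
    · exact hv x ⟨j, hj⟩
    have hy : (setc x j (x j / 2) j : ℕ) = x j / 2 := setc_val_UG4 _ _ (by omega)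
    have a1 := congrFun h1 (setc x j (x j / 2))
    have a2 := congrFun h2 (setc x j (x j / 2))
    simp only [mdl, wop_apply, hy, AddMonoidHom.zero_apply, Pi.zero_apply] at a1 a2
    rw [if_pos (by omega), one_mul] at a1 a2
    rcases Nat.mod_two_eq_zero_or_one (x j) with hm | hm
    · rwa [setc_setc_UG4 _ _ _ (by simp only [Bool.toNat_false]; omega)] at a1
    · rwa [setc_setc_UG4 _ _ _ (by simp only [Bool.toNat_true]; omega)] at a2
  · have hx := (x j).2
    by_cases hj : 2 ^ L ≤ (x j : ℕ)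
    · have a1 := congrFun h1 x
      simp only [mdl, wop_apply, AddMonoidHom.zero_apply, Pi.zero_apply] at a1
      rwa [if_pos hj, one_mul, setc_self_UG4 _ _ (by simp)] at a1
    · have hy : (setc x j (x j + 2 ^ L) j : ℕ) = x j + 2 ^ L := setc_val_UG4 _ _ (by omega)
      have a2 := congrFun h2 (setc x j (x j + 2 ^ L))
      simp only [mdl, wop_apply, hy, AddMonoidHom.zero_apply, Pi.zero_apply] at a2
      rwa [if_pos (by omega), one_mul, setc_setc_UG4 _ _ _ (by simp)] at a2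

end Pool.Agent.SemiRandom.Und
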