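import Pool.Agent.P.MP_c53d0e_pr.UG4

set_option autoImplicit false
set_option linter.unusedSectionVars false

namespace Pool.Agent.SemiRandom.Und

open Finset

/-- Functions on the basis that vanish wherever some coordinate is at most one. -/
def subV_UG5 (k L : ℕ) (R : Type) [CommRing R] : AddSubgroup (Bs k L → R) where
  carrier := {v | ∀ x : Bs k L, (∃ j, (x j : ℕ) ≤ 1) → v x = 0}
  add_mem' := by
    intro a b ha hb x hx
    simp [ha x hx, hb x hx]
  zero_mem' := by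
    intro x _
    rfl
  neg_mem' := by
    intro a ha x hx
    simp [ha x hx]

lemma two_le_UG5 (L : ℕ) : 2 ≤ 2 ^ (L + 1) := by
  have : 1 ≤ 2 ^ L := Nat.one_le_two_pow
  rw [pow_succ]; omega

def up_UG5 (k L : ℕ) (y : Fin k → Fin (2 ^ (L + 1) - 2)) : Bs k L :=
  fun j => ⟨(y j : ℕ) + 2, by have := (y j).2; have := two_le_UG5 L; omega⟩

lemma up_inj_UG5 (k L : ℕ) : Function.Injective (up_UG5 k L) := by
  intro y y' h
  funext j
  have := congrArg (fun z : Bs k L => (z j : ℕ)) h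
  simp only [up_UG5] at this
  exact Fin.ext (by omega)

lemma card_subV_UG5 (k L q : ℕ) [NeZero q] :
    q ^ ((2 ^ (L + 1) - 2) ^ k) ≤ Nat.card (subV_UG5 k L (ZMod q)) := by
  classical
  let Φ : ((Fin k → Fin (2 ^ (L + 1) - 2)) → ZMod q) → subV_UG5 k L (ZMod q) := fun w =>
    ⟨Function.extend (up_UG5 k L) w 0, by
      intro x hx
      rw [Function.extend_apply' _ _ _ ?_]
      · rfl
      · rintro ⟨y, rfl⟩
        obtain ⟨j, hj⟩ := hx
        simp only [up_UG5] at hj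
        omega⟩
  have hΦ : Function.Injective Φ := by
    intro w w' h
    funext y
    have h1 : Function.extend (up_UG5 k L) w 0 = Function.extend (up_UG5 k L) w' 0 :=
      congrArg Subtype.val h
    have h2 := congrFun h1 (up_UG5 k L y)
    rwa [(up_inj_UG5 k L).extend_apply, (up_inj_UG5 k L).extend_apply] at h2
  have := Nat.card_le_card_of_injective Φ hΦ
  rwa [Nat.card_eq_fintype_card, Fintype.card_fun, ZMod.card, Fintype.card_fun, Fintype.card_fin,
    Fintype.card_fin] at this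

lemma exp_le_UG5 (k L : ℕ) (θ : ℝ) (h : (k : ℝ) ≤ θ * 2 ^ L) :
    (((2 ^ (L + 1)) ^ k : ℕ) : ℝ) * (1 - θ) ≤ (((2 ^ (L + 1) - 2) ^ k : ℕ) : ℝ) := by
  have hP : (0 : ℝ) < 2 ^ L := by positivity
  have hP1 : (1 : ℝ) ≤ 2 ^ L := one_le_pow₀ (by norm_num)
  have hc : ((2 ^ (L + 1) - 2 : ℕ) : ℝ) = 2 ^ (L + 1) * (1 + (-(1 / 2 ^ L))) := by
    rw [Nat.cast_sub (two_le_UG5 L)]
    push_cast
    rw [pow_succ]
    field_simp
    ring
  have hb : 1 + (k : ℝ) * (-(1 / 2 ^ L)) ≤ (1 + (-(1 / 2 ^ L) : ℝ)) ^ k := by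
    apply one_add_mul_le_pow
    have : (1 : ℝ) / 2 ^ L ≤ 1 := by rw [div_le_one hP]; exact hP1
    linarith
  have hk : (k : ℝ) * (1 / 2 ^ L) ≤ θ := by
    rw [mul_one_div, div_le_iff₀ hP]; exact h
  rw [Nat.cast_pow (2 ^ (L + 1) - 2), hc, mul_pow]
  push_cast
  apply mul_le_mul_of_nonneg_left _ (by positivity)
  linarith

lemma cancel_UG5 {q : ℕ} [Fact q.Prime] {a b : ℕ} (ha : 2 ^ a < q) (hb : 2 ^ b < q) (hab : a ≠ b)
    {t : ZMod q} (h : (2 : ZMod q) ^ a * t = 2 ^ b * t) : t = 0 := by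
  by_contra ht
  have h1 : (2 : ZMod q) ^ a = 2 ^ b := mul_right_cancel₀ ht h
  have h2 : ((2 ^ a : ℕ) : ZMod q) = ((2 ^ b : ℕ) : ZMod q) := by push_cast; exact h1
  have h3 := congrArg ZMod.val h2
  rw [ZMod.val_cast_of_lt ha, ZMod.val_cast_of_lt hb] at h3
  exact hab (Nat.pow_right_injective (le_refl 2) h3)

theorem yprop_of_nosol {k : ℕ} (GG : Finset (Fn k)) (fp fm x0 : Fn k) (n : ℕ)
    (h : ¬ ∃ a, x0 a = n ∧ fp a = fm a) :
    YProp (Gn.z 0) Gn.zero (RelS GG n) (SepS fp fm x0 n) := by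
  classical
  intro θ hθ
  obtain ⟨L, hL⟩ : ∃ L : ℕ, (k : ℝ) / θ < 2 ^ L := pow_unbounded_of_one_lt _ (by norm_num)
  have hL' : (k : ℝ) ≤ θ * 2 ^ L := by
    rw [div_lt_iff₀ hθ] at hL
    linarith
  let B : ℕ := (univ : Finset (Bs k L)).sup fun b => fp (lv b) + fm (lv b) + x0 (lv b) + n
  have hB : ∀ b : Bs k L, fp (lv b) + fm (lv b) + x0 (lv b) + n ≤ B := fun b =>
    Finset.le_sup (f := fun b : Bs k L => fp (lv b) + fm (lv b) + x0 (lv b) + n) (mem_univ b)
  obtain ⟨q, hq, hp⟩ := Nat.exists_infinite_primes (2 ^ B + 1)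
  have : Fact q.Prime := ⟨hp⟩
  have : NeZero q := ⟨hp.ne_zero⟩
  have hlt : ∀ a, a ≤ B → 2 ^ a < q := fun a ha =>
    lt_of_le_of_lt (Nat.pow_le_pow_right (by norm_num) ha) (by omega)
  have hcard : Fintype.card (Bs k L → ZMod q) = q ^ ((2 ^ (L + 1)) ^ k) := by
    rw [Fintype.card_fun, ZMod.card, Fintype.card_fun, Fintype.card_fin, Fintype.card_fin]
  refine ⟨Bs k L → ZMod q, inferInstance, inferInstance, subV_UG5 k L (ZMod q), mdl L (ZMod q),
    ?_, ?_, ?_, ?_, ?_, ?_⟩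
  · rw [hcard]
    exact hp.two_le.trans (Nat.le_self_pow (by positivity) q)
  · have hq1 : (1 : ℝ) ≤ q := by exact_mod_cast hp.one_lt.le
    rw [hcard, Nat.cast_pow, ← Real.rpow_natCast, ← Real.rpow_mul (by positivity)]
    refine (Real.rpow_le_rpow_of_exponent_le hq1 (exp_le_UG5 k L θ hL')).trans ?_
    rw [Real.rpow_natCast]
    exact_mod_cast card_subV_UG5 k L q
  · intro t
    funext b
    simp [mdl]
  · intro t
    simp [mdl]
  · intro a b c d hr t
    exact mdl_rel L (ZMod q) GG n a b c d hr t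
  · intro a b c d hs t ht h1 h2
    rcases hs with hs | hs
    · simp only [Prod.mk.injEq] at hs
      obtain ⟨rfl, rfl, rfl, rfl⟩ := hs
      funext b
      have e1 := congrFun h1 b
      have e2 := congrFun h2 b
      simp only [mdl, wop_apply, id] at e1 e2
      have hb := hB b
      by_cases hx : x0 (lv b) = n
      · have hne : fp (lv b) ≠ fm (lv b) := fun he => h ⟨lv b, hx, he⟩
        exact cancel_UG5 (hlt _ (by omega)) (hlt _ (by omega)) hne e1
      · exact cancel_UG5 (hlt _ (by omega)) (hlt _ (by omega)) hx e2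
    · exact mdl_sep L (ZMod q) a b c d hs t ht h1 h2

end Pool.Agent.SemiRandom.Und
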