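import Pool.Agent.P.MP_c53d0e_pr.UG2
import Pool.Agent.P.MP_c53d0e_pr.UG3
import Pool.Agent.P.MP_c53d0e_pr.UG5

set_option autoImplicit false
set_option linter.unusedSectionVars false

namespace Pool.Agent.SemiRandom.Und

open Finset

lemma NProp.map {G G' : Type} {one zero : G} {Rel Sep : Set (G × G × G × G)}
    (h : NProp one zero Rel Sep) (φ : G → G') {Rel' Sep' : Set (G' × G' × G' × G')}
    (h1 : ∀ a b c d, (a, b, c, d) ∈ Rel → (φ a, φ b, φ c, φ d) ∈ Rel')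
    (h2 : ∀ a b c d, (a, b, c, d) ∈ Sep → (φ a, φ b, φ c, φ d) ∈ Sep') :
    NProp (φ one) (φ zero) Rel' Sep' := fun M ρ Z k1 k2 k3 k4 k5 =>
  h M (fun g => ρ (φ g)) Z k1 k2 k3 (fun a b c d hx => k4 _ _ _ _ (h1 a b c d hx))
    fun a b c d hx => k5 _ _ _ _ (h2 a b c d hx)

lemma YProp.comap {G G' : Type} {one zero : G'} {Rel Sep : Set (G × G × G × G)} (ψ : G' → G)
    (h : YProp (ψ one) (ψ zero) Rel Sep) {Rel' Sep' : Set (G' × G' × G' × G')}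
    (h1 : ∀ a b c d, (a, b, c, d) ∈ Rel' → (ψ a, ψ b, ψ c, ψ d) ∈ Rel)
    (h2 : ∀ a b c d, (a, b, c, d) ∈ Sep' → (ψ a, ψ b, ψ c, ψ d) ∈ Sep) :
    YProp one zero Rel' Sep' := by
  intro θ hθ
  obtain ⟨V, i1, i2, V', ρ, k1, k2, k3, k4, k5, k6⟩ := h θ hθ
  exact ⟨V, i1, i2, V', fun g => ρ (ψ g), k1, k2, k3, k4,
    fun a b c d hx => k5 _ _ _ _ (h1 a b c d hx), fun a b c d hx => k6 _ _ _ _ (h2 a b c d hx)⟩

/-- The names that occur for the input `n`. -/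
def Good_UG6 {k : ℕ} (GG : Finset (Fn k)) (n : ℕ) : Gn k → Prop
  | .z f => f ∈ GG
  | .c i => i ≤ n
  | _ => True

lemma numbering_UG6 {k : ℕ} (GG : Finset (Fn k)) : ∃ (g0 : ℕ) (φ : Gn k → ℕ) (ψ : ℕ → Gn k),
    2 ≤ g0 ∧ φ (.z 0) = 0 ∧ φ .zero = 1 ∧ (∀ i, φ (.c i) = g0 + i) ∧
      ∀ n t, Good_UG6 GG n t → φ t < g0 + n + 1 ∧ ψ (φ t) = t := by
  classical
  let T : Finset (Gn k) := GG.image .z ∪ (univ.image fun x : Fin k × Bool => .q x.1 x.2) ∪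
    univ.image fun x : Fin k × Bool => .r x.1 x.2
  let l : List (Gn k) := .z 0 :: .zero :: T.toList
  have hl : ∀ t ∈ l, l.idxOf t < l.length ∧
      (if l.idxOf t < l.length then l.getD (l.idxOf t) .zero else .c (l.idxOf t - l.length)) = t := by
    intro t ht
    have h := List.idxOf_lt_length_iff.2 ht
    exact ⟨h, by rw [if_pos h, List.getD_eq_getElem _ _ h, List.getElem_idxOf]⟩
  refine ⟨l.length, fun t => match t with | .c i => l.length + i | t => l.idxOf t,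
    fun m => if m < l.length then l.getD m .zero else .c (m - l.length), by simp [l],
    by simp [l], by simp [l], fun _ => rfl, fun n t ht => ?_⟩
  cases t with
  | c i =>
    have hi : i ≤ n := ht
    exact ⟨by dsimp only; omega, by simp⟩
  | zero => exact (hl _ (by simp [l])).imp_left fun h => by dsimp only; omega
  | z f =>
    have hf : f ∈ GG := ht
    exact (hl _ (by simp [l, T, hf])).imp_left fun h => by dsimp only; omega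
  | q j i => exact (hl _ (by simp [l, T])).imp_left fun h => by dsimp only; omega
  | r j i => exact (hl _ (by simp [l, T])).imp_left fun h => by dsimp only; omega

lemma good_finite_UG6 {k : ℕ} (GG : Finset (Fn k)) : {t | Good_UG6 GG 0 t}.Finite := by
  obtain ⟨g0, φ, ψ, -, -, -, -, h⟩ := numbering_UG6 GG
  refine ((Set.finite_lt_nat (g0 + 0 + 1)).image ψ).subset fun t ht => ⟨φ t, (h 0 t ht).1, (h 0 t ht).2⟩

/-- All four names occur. -/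
def Good4_UG6 {k : ℕ} (GG : Finset (Fn k)) (n : ℕ) (x : Gn k × Gn k × Gn k × Gn k) : Prop :=
  Good_UG6 GG n x.1 ∧ Good_UG6 GG n x.2.1 ∧ Good_UG6 GG n x.2.2.1 ∧ Good_UG6 GG n x.2.2.2

lemma list_UG6 {k : ℕ} (GG : Finset (Fn k)) (φ : Gn k → ℕ) (A : Set (Gn k × Gn k × Gn k × Gn k))
    (hA : ∀ x ∈ A, Good4_UG6 GG 0 x) : ∃ R0 : List Q4, ∀ x, x ∈ R0 ↔
      ∃ y ∈ A, (φ y.1, φ y.2.1, φ y.2.2.1, φ y.2.2.2) = x := by
  have h := good_finite_UG6 GG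
  have hf : A.Finite := (h.prod (h.prod (h.prod h))).subset hA
  exact ⟨(hf.image fun y => (φ y.1, φ y.2.1, φ y.2.2.1, φ y.2.2.2)).toFinset.toList, by simp⟩

lemma relF_good_UG6 {k : ℕ} {GG : Finset (Fn k)} (h0 : 0 ∈ GG) (n : ℕ) :
    ∀ x ∈ RelF GG, Good4_UG6 GG n x := by
  rintro x (⟨f, hf, g, hg, h, rfl⟩ | ⟨f, hf, j, i, h, rfl⟩ | ⟨f, hf, j, i, h, rfl⟩)
  exacts [⟨hf, hg, h, h0⟩, ⟨hf, trivial, trivial, h⟩, ⟨hf, trivial, trivial, h⟩]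

lemma sepF_good_UG6 {k : ℕ} (GG : Finset (Fn k)) (n : ℕ) : ∀ x ∈ SepF k, Good4_UG6 GG n x := by
  rintro x ⟨j, rfl | rfl⟩ <;> exact ⟨trivial, trivial, trivial, trivial⟩

theorem exists_prs {p : ℕ → Prop} (hp : REPred p) : ∃ g0 R0 S0 y a b x, ∀ n,
    (prsOf g0 R0 S0 y a b x n).WF ∧ (p n → (prsOf g0 R0 S0 y a b x n).N) ∧
      (¬ p n → (prsOf g0 R0 S0 y a b x n).Y) := by
  obtain ⟨k, FF, fp, fm, hC, hfp, hfm, hx, hd⟩ := dioph_form hp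
  obtain ⟨GG, hR⟩ := exists_rich FF
  obtain ⟨g0, φ, ψ, h2, p0, p1, pc, hφ⟩ := numbering_UG6 GG
  obtain ⟨R0, hR0⟩ := list_UG6 GG φ _ (relF_good_UG6 hR.1 0)
  obtain ⟨S0, hS0⟩ := list_UG6 GG φ _ (sepF_good_UG6 GG 0)
  refine ⟨g0, R0, S0, φ (.z 1), φ (.z fp), φ (.z fm), φ (.z fun a => a 0), fun n => ?_⟩
  set P := prsOf g0 R0 S0 (φ (.z 1)) (φ (.z fp)) (φ (.z fm)) (φ (.z fun a => a 0)) n with hP
  have gR : ∀ x ∈ RelS GG n, Good4_UG6 GG n x := by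
    rintro x (h | rfl | ⟨i, hi, rfl⟩)
    exacts [relF_good_UG6 hR.1 n x h, ⟨Nat.zero_le n, hR.1, hR.1, hR.1⟩,
      ⟨hi, hR.1, hi.le, hR.2.1⟩]
  have gS : ∀ x ∈ SepS fp fm (fun a => a 0) n, Good4_UG6 GG n x := by
    rintro x (rfl | h)
    exacts [⟨(hR.2.2 _ hfp).1, (hR.2.2 _ hfm).1, (hR.2.2 _ hx).1, le_refl n⟩,
      sepF_good_UG6 GG n x h]
  have eR : ∀ x, x ∈ P.2.1 ↔ ∃ y ∈ RelS GG n, (φ y.1, φ y.2.1, φ y.2.2.1, φ y.2.2.2) = x := by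
    intro x
    simp only [hP, prsOf, List.mem_append, List.mem_cons, List.mem_map, List.mem_range, hR0]
    constructor
    · rintro (⟨y, hy, rfl⟩ | rfl | ⟨i, hi, rfl⟩)
      · exact ⟨y, Or.inl hy, rfl⟩
      · exact ⟨_, Or.inr (Or.inl rfl), by simp [pc, p0]⟩
      · exact ⟨_, Or.inr (Or.inr ⟨i, hi, rfl⟩), by simp [pc, p0, add_assoc]⟩
    · rintro ⟨y, hy | rfl | ⟨i, hi, rfl⟩, rfl⟩
      · exact Or.inl ⟨y, hy, rfl⟩
      · exact Or.inr (Or.inl (by simp [pc, p0]))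
      · exact Or.inr (Or.inr ⟨i, hi, by simp [pc, p0, add_assoc]⟩)
  have eS : ∀ x, x ∈ P.2.2 ↔ ∃ y ∈ SepS fp fm (fun a => a 0) n,
      (φ y.1, φ y.2.1, φ y.2.2.1, φ y.2.2.2) = x := by
    intro x
    simp only [hP, prsOf, List.mem_cons, hS0]
    constructor
    · rintro (rfl | ⟨y, hy, rfl⟩)
      · exact ⟨_, Or.inl rfl, by simp [pc]⟩
      · exact ⟨y, Or.inr hy, rfl⟩
    · rintro ⟨y, rfl | hy, rfl⟩
      · exact Or.inl (by simp [pc])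
      · exact Or.inr ⟨y, hy, rfl⟩
  have back : ∀ (A : Set (Gn (k + 1) × Gn (k + 1) × Gn (k + 1) × Gn (k + 1))),
      (∀ x ∈ A, Good4_UG6 GG n x) → ∀ a b c d : ℕ,
      (∃ y ∈ A, (φ y.1, φ y.2.1, φ y.2.2.1, φ y.2.2.2) = (a, b, c, d)) →
        (ψ a, ψ b, ψ c, ψ d) ∈ A := by
    rintro A hA a b c d ⟨y, hy, h⟩
    obtain ⟨k1, k2, k3, k4⟩ := hA y hy
    obtain ⟨rfl, rfl, rfl, rfl⟩ : φ y.1 = a ∧ φ y.2.1 = b ∧ φ y.2.2.1 = c ∧ φ y.2.2.2 = d := by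
      simpa using h
    rwa [(hφ n _ k1).2, (hφ n _ k2).2, (hφ n _ k3).2, (hφ n _ k4).2]
  refine ⟨⟨(by omega : 2 ≤ g0 + n + 1), fun x hx' => ?_⟩, fun h => ?_, fun h => ?_⟩
  · obtain ⟨y, ⟨k1, k2, k3, k4⟩, rfl⟩ : ∃ y, Good4_UG6 GG n y ∧
        (φ y.1, φ y.2.1, φ y.2.2.1, φ y.2.2.2) = x := by
      rcases hx' with h | h
      · obtain ⟨y, hy, e⟩ := (eR x).1 h
        exact ⟨y, gR y hy, e⟩
      · obtain ⟨y, hy, e⟩ := (eS x).1 h
        exact ⟨y, gS y hy, e⟩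
    exact ⟨(hφ n _ k1).1, (hφ n _ k2).1, (hφ n _ k3).1, (hφ n _ k4).1⟩
  · obtain ⟨a, h1, h3⟩ := (hd n).1 h
    have := (nprop_of_sol hC hR hfp hfm hx a h1 h3).map φ (Rel' := {x | x ∈ P.2.1})
      (Sep' := {x | x ∈ P.2.2}) (fun a b c d hy => (eR _).2 ⟨_, hy, rfl⟩)
      fun a b c d hy => (eS _).2 ⟨_, hy, rfl⟩
    rwa [p0, p1] at this
  · have q0 : ψ 0 = .z 0 := p0 ▸ (hφ n (.z 0) hR.1).2
    have q1 : ψ 1 = .zero := (congrArg ψ p1).symm.trans (hφ n .zero trivial).2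
    refine YProp.comap ψ (Rel := RelS GG n) (Sep := SepS fp fm (fun a => a 0) n) ?_
      (fun a b c d hy => back _ gR a b c d ((eR _).1 hy))
      fun a b c d hy => back _ gS a b c d ((eS _).1 hy)
    rw [q0, q1]
    exact yprop_of_nosol GG fp fm _ n fun h' => h ((hd n).2 h')

end Pool.Agent.SemiRandom.Und
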