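import Pool.Agent.P.MP_c53d0e_pr.UF0
import Pool.Agent.P.MP_c53d0e_pr.U1
import Pool.Agent.P.MP_c53d0e_pr.UDefs

set_option autoImplicit false
set_option linter.unusedSectionVars false

namespace Pool.Agent.SemiRandom.Und

open Finset

/-- Uniformity of the hypergraph. -/
def sOf (r np nl : ℕ) : ℕ := 5 * r + np + nl * r

/-- Number of vertices. -/
def kOf (r np nl : ℕ) : ℕ := sOf r np nl + 1 + 5 * (2 * r + (np + 1) + nl * (r + 2))

def srcN (ln : Line) (l : ℕ) : ℕ := [ln.1, ln.2.1].getD l 0

/-- All non-constant vertices; `o` is the offset. -/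
def allL (r np nl o : ℕ) : List ℕ :=
  (List.range (2 * r)).map (fun i => o + 5 * i) ++
  (List.range (np + 1)).map (fun p => o + (5 * p + 1)) ++
  (List.range r).map (fun b => o + (5 * b + 2)) ++
  (List.range nl).flatMap (fun e => (List.range 2).map fun l => o + (5 * (2 * e + l) + 3)) ++
  (List.range nl).flatMap (fun e => (List.range (r - 2)).map fun l => o + (5 * (r * e + l) + 4))

/-- Groups as lists: non-constant vertices and number of edges; `o` is the offset. -/
def groupsL (r np : ℕ) (Ls : List Line) (o : ℕ) : List (List ℕ × ℕ) :=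
  [([], 2 * r + 2)] ++ (List.range (2 * r)).map (fun i => ([o + 5 * i], 2)) ++
  (List.range (np + 1)).map (fun p => ([o + (5 * p + 1)], 1)) ++
  (List.range r).map (fun b => ([o + (5 * (b % (np + 1)) + 1), o + (5 * b + 2)], 1)) ++
  (List.range Ls.length).flatMap (fun e => (List.range 2).map fun l =>
    ([o + (5 * (srcN (Ls.getD e (0, 0, 0)) l % (np + 1)) + 1), o + (5 * (2 * e + l) + 3)], 1)) ++
  (List.range r).map (fun b => ([o + (5 * ((r + b) % (np + 1)) + 1), o + (5 * b + 2)], 1)) ++
  (List.range Ls.length).map (fun e =>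
    ((o + (5 * ((Ls.getD e (0, 0, 0)).2.2 % (np + 1)) + 1)) ::
      ((List.range 2).map (fun l => o + (5 * (2 * e + l) + 3)) ++
        (List.range (r - 2)).map fun l => o + (5 * (r * e + l) + 4)), 2 * r - 2)) ++
  [(allL r np Ls.length o, 2 * r)]

/-- The list of edges. -/
def edgeL (r np : ℕ) (Ls : List Line) : List (List ℕ) :=
  (groupsL r np Ls (sOf r np Ls.length + 1)).flatMap fun g => (List.range g.2).map fun i =>
    (List.range (sOf r np Ls.length + 1 - g.1.length)).filter (fun j => !decide (j = i)) ++ g.1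

/-- Numbering of the vertices. -/
def encN {r s np nl : ℕ} : Vx r s (Fin (np + 1)) (Fin nl) → ℕ
  | .c j => j
  | .y i => s + 1 + 5 * i
  | .pt p => s + 1 + (5 * p + 1)
  | .z (Sum.inl b) => s + 1 + (5 * b + 2)
  | .z (Sum.inr x) => s + 1 + (5 * (2 * x.1 + x.2) + 3)
  | .tk e l => s + 1 + (5 * (r * e + l) + 4)

lemma ok_sOf {r : ℕ} (hr : 2 ≤ r) (np nl : ℕ) : Ok r (sOf r np nl) (Fin (np + 1)) (Fin nl) :=
  ⟨hr, by rw [Fintype.card_fin, Fintype.card_fin, sOf]; omega⟩

end Pool.Agent.SemiRandom.Und
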