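import Pool.Agent.P.MP_c53d0e_pr.UH0

set_option autoImplicit false
set_option linter.unusedSectionVars false

namespace Pool.Agent.SemiRandom.Und

open Finset

lemma mul_add_inj_UH1 {r a b c d : ℕ} (hb : b < r) (hd : d < r) (h : r * a + b = r * c + d) :
    a = c ∧ b = d := by
  have h1 : (r * a + b) % r = (r * c + d) % r := by rw [h]
  rw [Nat.mul_add_mod, Nat.mul_add_mod, Nat.mod_eq_of_lt hb, Nat.mod_eq_of_lt hd] at h1
  subst h1
  exact ⟨Nat.eq_of_mul_eq_mul_left (by omega) (Nat.add_right_cancel h), rfl⟩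

lemma encN_inj {r s np nl : ℕ} :
    Function.Injective (encN : Vx r s (Fin (np + 1)) (Fin nl) → ℕ) := by
  rintro (j | i | p | (b | ⟨e, l⟩) | ⟨e, l⟩) (j' | i' | p' | (b' | ⟨e', l'⟩) | ⟨e', l'⟩) h <;>
    simp only [encN] at h <;> first
    | omega
    | (congr 1; ext; omega)
    | (congr 2; ext; omega)
    | (have h1 : e = e' := by ext; omega
       have h2 : l = l' := by ext; omega
       rw [h1, h2])
    | (obtain ⟨h1, h2⟩ := mul_add_inj_UH1 (r := r) (a := e) (b := l) (c := e') (d := l')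
        (by omega) (by omega) (by omega)
       rw [Fin.ext h1, Fin.ext h2])

lemma encN_lt {r np nl : ℕ} (v : Vx r (sOf r np nl) (Fin (np + 1)) (Fin nl)) :
    encN v < kOf r np nl := by
  rcases v with j | i | p | (b | ⟨e, l⟩) | ⟨e, l⟩ <;> simp only [encN, kOf]
  · omega
  · omega
  · omega
  · omega
  · have h1 : (e + 1) * 2 ≤ nl * (r + 2) := Nat.mul_le_mul e.2 (by omega)
    omega
  · have h1 : (e + 1) * r ≤ nl * (r + 2) := Nat.mul_le_mul e.2 (by omega)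
    have h2 : (e + 1) * r = r * e + r := by ring
    omega

lemma src_UH1 (r np : ℕ) (Ls : List Line) (e : Fin Ls.length) (l : Fin 2) :
    (((instOf r np Ls).src e l : Fin (np + 1)) : ℕ) =
      srcN (Ls.getD e (0, 0, 0)) l % (np + 1) := by
  rw [List.getD_eq_getElem _ _ e.2]
  fin_cases l <;> rfl

lemma tgt_UH1 (r np : ℕ) (Ls : List Line) (e : Fin Ls.length) :
    (((instOf r np Ls).tgt e : Fin (np + 1)) : ℕ) =
      (Ls.getD e (0, 0, 0)).2.2 % (np + 1) := by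
  rw [List.getD_eq_getElem _ _ e.2]
  rfl

/-- The list entry of a group. -/
def entry_UH1 (r np : ℕ) (Ls : List Line) (o : ℕ) :
    Gp r (Fin (np + 1)) (Fin Ls.length) → List ℕ × ℕ
  | .Q => ([], 2 * r + 2)
  | .Y i => ([o + 5 * i], 2)
  | .U p => ([o + (5 * p + 1)], 1)
  | .En (Sum.inl b) => ([o + (5 * (b % (np + 1)) + 1), o + (5 * b + 2)], 1)
  | .En (Sum.inr x) => ([o + (5 * (srcN (Ls.getD x.1 (0, 0, 0)) x.2 % (np + 1)) + 1),
      o + (5 * (2 * x.1 + x.2) + 3)], 1)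
  | .W b => ([o + (5 * ((r + b) % (np + 1)) + 1), o + (5 * b + 2)], 1)
  | .L e => ((o + (5 * ((Ls.getD e (0, 0, 0)).2.2 % (np + 1)) + 1)) ::
      ((List.range 2).map (fun l => o + (5 * (2 * e + l) + 3)) ++
        (List.range (r - 2)).map fun l => o + (5 * (r * e + l) + 4)), 2 * r - 2)
  | .T => (allL r np Ls.length o, 2 * r)

lemma mem_iff_UH1 (r np : ℕ) (Ls : List Line) (o : ℕ) (x : List ℕ × ℕ) :
    x ∈ groupsL r np Ls o ↔ ∃ g, entry_UH1 r np Ls o g = x := by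
  simp only [groupsL, List.mem_append, List.mem_singleton, List.mem_map, List.mem_range,
    List.mem_flatMap]
  constructor
  · rintro (((((((rfl | ⟨i, hi, rfl⟩) | ⟨p, hp, rfl⟩) | ⟨b, hb, rfl⟩) | ⟨e, he, l, hl, rfl⟩) |
      ⟨b, hb, rfl⟩) | ⟨e, he, rfl⟩) | rfl)
    · exact ⟨.Q, rfl⟩
    · exact ⟨.Y ⟨i, hi⟩, rfl⟩
    · exact ⟨.U ⟨p, hp⟩, rfl⟩
    · exact ⟨.En (Sum.inl ⟨b, hb⟩), rfl⟩
    · exact ⟨.En (Sum.inr (⟨e, he⟩, ⟨l, hl⟩)), rfl⟩
    · exact ⟨.W ⟨b, hb⟩, rfl⟩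
    · exact ⟨.L ⟨e, he⟩, rfl⟩
    · exact ⟨.T, rfl⟩
  · rintro ⟨(_ | i | p | (b | ⟨e, l⟩) | b | e | _), rfl⟩
    · exact Or.inl (Or.inl (Or.inl (Or.inl (Or.inl (Or.inl (Or.inl rfl))))))
    · exact Or.inl (Or.inl (Or.inl (Or.inl (Or.inl (Or.inl (Or.inr ⟨i, i.2, rfl⟩))))))
    · exact Or.inl (Or.inl (Or.inl (Or.inl (Or.inl (Or.inr ⟨p, p.2, rfl⟩)))))
    · exact Or.inl (Or.inl (Or.inl (Or.inl (Or.inr ⟨b, b.2, rfl⟩))))
    · exact Or.inl (Or.inl (Or.inl (Or.inr ⟨e, e.2, l, l.2, rfl⟩)))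
    · exact Or.inl (Or.inl (Or.inr ⟨b, b.2, rfl⟩))
    · exact Or.inl (Or.inr ⟨e, e.2, rfl⟩)
    · exact Or.inr rfl

lemma entry_spec_UH1 (r np : ℕ) (Ls : List Line) (s : ℕ) (hO : Ok r s (Fin (np + 1)) (Fin Ls.length))
    (g : Gp r (Fin (np + 1)) (Fin Ls.length)) :
    (entry_UH1 r np Ls (s + 1) g).2 = g.M ∧ (entry_UH1 r np Ls (s + 1) g).1.length = g.k s ∧
      ∀ a, a ∈ (entry_UH1 r np Ls (s + 1) g).1 ↔
        ∃ v ∈ NN (instOf (r + r) np Ls) s g, encN v = a := by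
  have h8 := hO.hr
  have hs := hO.hs
  rw [Fintype.card_fin, Fintype.card_fin] at hs
  rcases g with _ | i | p | (b | ⟨e, l⟩) | b | e | _
  · simp [entry_UH1, Gp.M, Gp.k, NN]
  · simp [entry_UH1, Gp.M, Gp.k, NN, encN, eq_comm]
  · simp [entry_UH1, Gp.M, Gp.k, NN, encN, eq_comm]
  · refine ⟨rfl, rfl, fun a => ?_⟩
    simp only [entry_UH1, NN, List.mem_cons, List.not_mem_nil, or_false, mem_insert,
      mem_singleton, exists_eq_or_imp, exists_eq_left, eq_comm (a := a)]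
    rfl
  · refine ⟨rfl, rfl, fun a => ?_⟩
    simp only [entry_UH1, NN, List.mem_cons, List.not_mem_nil, or_false, mem_insert,
      mem_singleton, exists_eq_or_imp, exists_eq_left, eq_comm (a := a), ← src_UH1 (r + r)]
    rfl
  · refine ⟨rfl, rfl, fun a => ?_⟩
    simp only [entry_UH1, NN, List.mem_cons, List.not_mem_nil, or_false, mem_insert,
      mem_singleton, exists_eq_or_imp, exists_eq_left, eq_comm (a := a)]
    rfl
  · refine ⟨rfl, by simp [entry_UH1, Gp.k]; omega, fun a => ?_⟩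
    simp only [entry_UH1, NN, List.mem_cons, List.mem_append, List.mem_map, List.mem_range,
      mem_insert, mem_union, mem_ZL, mem_TK, ← tgt_UH1 (r + r)]
    constructor
    · rintro (rfl | ⟨l, hl, rfl⟩ | ⟨l, hl, rfl⟩)
      · exact ⟨_, Or.inl rfl, rfl⟩
      · exact ⟨_, Or.inr (Or.inl ⟨⟨l, hl⟩, rfl⟩), rfl⟩
      · exact ⟨_, Or.inr (Or.inr ⟨⟨l, hl⟩, rfl⟩), rfl⟩
    · rintro ⟨v, rfl | ⟨l, rfl⟩ | ⟨l, rfl⟩, rfl⟩
      · exact Or.inl rfl
      · exact Or.inr (Or.inl ⟨l, l.2, rfl⟩)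
      · exact Or.inr (Or.inr ⟨l, l.2, rfl⟩)
  · refine ⟨rfl, ?_, fun a => ?_⟩
    · obtain ⟨t, rfl⟩ := Nat.exists_eq_add_of_le h8
      simp [entry_UH1, allL, Gp.k, List.length_flatMap]
      rw [mul_add Ls.length] at hs
      omega
    · simp only [entry_UH1, allL, List.mem_append, List.mem_map, List.mem_range, List.mem_flatMap,
        mem_NN_T]
      constructor
      · rintro ((((⟨i, hi, rfl⟩ | ⟨p, hp, rfl⟩) | ⟨b, hb, rfl⟩) | ⟨e, he, l, hl, rfl⟩) |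
          ⟨e, he, l, hl, rfl⟩)
        · exact ⟨.y ⟨i, hi⟩, by simp, rfl⟩
        · exact ⟨.pt ⟨p, hp⟩, by simp, rfl⟩
        · exact ⟨.z (.inl ⟨b, hb⟩), by simp, rfl⟩
        · exact ⟨.z (.inr (⟨e, he⟩, ⟨l, hl⟩)), by simp, rfl⟩
        · exact ⟨.tk ⟨e, he⟩ ⟨l, hl⟩, by simp, rfl⟩
      · rintro ⟨j | i | p | (b | ⟨e, l⟩) | ⟨e, l⟩, hv, rfl⟩
        · exact absurd rfl (hv j)
        · exact Or.inl (Or.inl (Or.inl (Or.inl ⟨i, i.2, rfl⟩)))
        · exact Or.inl (Or.inl (Or.inl (Or.inr ⟨p, p.2, rfl⟩)))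
        · exact Or.inl (Or.inl (Or.inr ⟨b, b.2, rfl⟩))
        · exact Or.inl (Or.inr ⟨e, e.2, l, l.2, rfl⟩)
        · exact Or.inr ⟨e, e.2, l, l.2, rfl⟩

/-- The lists of `groupsL` are the groups. -/
lemma mem_groupsL (r np : ℕ) (Ls : List Line) (s : ℕ) (hO : Ok r s (Fin (np + 1)) (Fin Ls.length)) :
    (∀ x ∈ groupsL r np Ls (s + 1), ∃ g : Gp r (Fin (np + 1)) (Fin Ls.length),
      x.2 = g.M ∧ x.1.length = g.k s ∧
        ∀ a, a ∈ x.1 ↔ ∃ v ∈ NN (instOf (r + r) np Ls) s g, encN v = a) ∧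
    ∀ g : Gp r (Fin (np + 1)) (Fin Ls.length), ∃ x ∈ groupsL r np Ls (s + 1),
      x.2 = g.M ∧ x.1.length = g.k s ∧
        ∀ a, a ∈ x.1 ↔ ∃ v ∈ NN (instOf (r + r) np Ls) s g, encN v = a := by
  refine ⟨fun x hx => ?_, fun g => ⟨_, (mem_iff_UH1 _ _ _ _ _).2 ⟨g, rfl⟩,
    entry_spec_UH1 r np Ls s hO g⟩⟩
  obtain ⟨g, rfl⟩ := (mem_iff_UH1 _ _ _ _ _).1 hx
  exact ⟨g, entry_spec_UH1 r np Ls s hO g⟩

end Pool.Agent.SemiRandom.Und
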