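import Pool.Agent.P.MP_c53d0e_pr.UH1

set_option autoImplicit false
set_option linter.unusedSectionVars false

namespace Pool.Agent.SemiRandom.Und

open Finset

lemma edge_eq_UH2 {r np : ℕ} {Ls : List Line} {s k : ℕ}
    (enc : Vx r s (Fin (np + 1)) (Fin Ls.length) ↪ Fin k) (henc : ∀ v, (enc v : ℕ) = encN v)
    (g : Gp r (Fin (np + 1)) (Fin Ls.length)) (i : Fin g.M) (x : List ℕ × ℕ)
    (h2 : x.1.length = g.k s)
    (h3 : ∀ a, a ∈ x.1 ↔ ∃ v ∈ NN (instOf (r + r) np Ls) s g, encN v = a) :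
    (univ.filter fun v : Fin k => (v : ℕ) ∈
      (List.range (s + 1 - x.1.length)).filter (fun j => !decide (j = (i : ℕ))) ++ x.1) =
      (ed (instOf (r + r) np Ls) s ⟨g, i⟩).map enc := by
  ext v
  simp only [mem_filter, mem_univ, true_and, List.mem_append, List.mem_filter, List.mem_range,
    Bool.not_eq_true', decide_eq_false_iff_not, mem_map, ed, mem_union, mem_cp, h2, h3]
  constructor
  · rintro (⟨h, h'⟩ | ⟨u, hu, h⟩)
    · exact ⟨Vx.c ⟨v, by omega⟩, Or.inl ⟨_, rfl, h, h'⟩, Fin.ext (henc _)⟩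
    · exact ⟨u, Or.inr hu, Fin.ext ((henc _).trans h)⟩
  · rintro ⟨u, ⟨j, rfl, h, h'⟩ | hu, rfl⟩
    · left
      rw [henc]
      exact ⟨h, h'⟩
    · exact Or.inr ⟨u, hu, (henc u).symm⟩

theorem graphOf_edgeL {r : ℕ} (hr : 2 ≤ r) (np : ℕ) (Ls : List Line) :
    ∃ enc : Vx r (sOf r np Ls.length) (Fin (np + 1)) (Fin Ls.length) ↪ Fin (kOf r np Ls.length),
      graphOf (kOf r np Ls.length) (edgeL r np Ls) =
        univ.image fun e => (ed (instOf (r + r) np Ls) (sOf r np Ls.length) e).map enc := by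
  let enc : Vx r (sOf r np Ls.length) (Fin (np + 1)) (Fin Ls.length) ↪ Fin (kOf r np Ls.length) :=
    ⟨fun v => ⟨encN v, encN_lt v⟩, fun v v' h => encN_inj (congrArg Fin.val h)⟩
  refine ⟨enc, ?_⟩
  obtain ⟨H1, H2⟩ := mem_groupsL r np Ls _ (ok_sOf hr np Ls.length)
  ext e
  simp only [graphOf, edgeL, List.mem_toFinset, List.mem_map, List.mem_flatMap, List.mem_range,
    mem_image, mem_univ, true_and]
  constructor
  · rintro ⟨_, ⟨x, hx, i, hi, rfl⟩, rfl⟩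
    obtain ⟨g, h1, h2, h3⟩ := H1 x hx
    exact ⟨⟨g, ⟨i, h1 ▸ hi⟩⟩, (edge_eq_UH2 enc (fun _ => rfl) g ⟨i, h1 ▸ hi⟩ x h2 h3).symm⟩
  · rintro ⟨⟨g, i⟩, rfl⟩
    obtain ⟨x, hx, h1, h2, h3⟩ := H2 g
    exact ⟨_, ⟨x, hx, i, i.2.trans_eq h1.symm, rfl⟩, edge_eq_UH2 enc (fun _ => rfl) g i x h2 h3⟩

end Pool.Agent.SemiRandom.Und
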