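import Pool.Agent.P.MP_c53d0e_pr.UH0
import Pool.Agent.P.MP_c53d0e_pr.UG0
import Pool.Agent.Lib.PrimrecProp.Basic

set_option autoImplicit false
set_option linter.unusedSectionVars false

namespace Pool.Agent.SemiRandom.Und

open Finset

open Pool.Agent.Lib.PrimrecProp

section aux
variable {α : Type} [Primcodable α]

@[fun_prop] theorem p_mod_UH3 {f g : α → ℕ} (hf : Primrec f) (hg : Primrec g) :
    Primrec (fun a => f a % g a) := Primrec.nat_mod.comp hf hg

@[fun_prop] theorem p_ptP_UH3 (K : ℕ) {g i j : α → ℕ} (hg : Primrec g) (hi : Primrec i)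
    (hj : Primrec j) : Primrec (fun a => ptP K (g a) (i a) (j a)) := by
  unfold ptP; fun_prop

@[fun_prop] theorem p_cmpG_UH3 {g i j : α → ℕ} (hg : Primrec g) (hi : Primrec i)
    (hj : Primrec j) : Primrec (fun a => cmpG (g a) (i a) (j a)) := by
  unfold cmpG; fun_prop

@[fun_prop] theorem p_difG_UH3 {g i j : α → ℕ} (hg : Primrec g) (hi : Primrec i)
    (hj : Primrec j) : Primrec (fun a => difG (g a) (i a) (j a)) := by
  unfold difG; fun_prop

@[fun_prop] theorem p_G_UH3 {p : α → Prs} (hp : Primrec p) : Primrec (fun a => Prs.G (p a)) := by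
  unfold Prs.G; fun_prop

@[fun_prop] theorem p_relL_UH3 (K : ℕ) {n : α → ℕ} {c x : α → Q4} (hn : Primrec n)
    (hc : Primrec c) (hx : Primrec x) : Primrec (fun a => relL K (n a) (c a) (x a)) := by
  unfold relL; fun_prop

@[fun_prop] theorem p_sepL_UH3 (K : ℕ) {n : α → ℕ} {c x : α → Q4} (hn : Primrec n)
    (hc : Primrec c) (hx : Primrec x) : Primrec (fun a => sepL K (n a) (c a) (x a)) := by
  unfold sepL; fun_prop

@[fun_prop] theorem p_genL_UH3 (K : ℕ) {c : α → Q4} {g : α → ℕ} (hc : Primrec c)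
    (hg : Primrec g) : Primrec (fun a => genL K (c a) (g a)) := by
  unfold genL; fun_prop

@[fun_prop] theorem p_globL_UH3 (K : ℕ) {c : α → Q4} (hc : Primrec c) :
    Primrec (fun a => globL K (c a)) := by
  unfold globL; fun_prop

@[fun_prop] theorem p_srcN_UH3 {x : α → Line} {l : α → ℕ} (hx : Primrec x) (hl : Primrec l) :
    Primrec (fun a => srcN (x a) (l a)) := by
  unfold srcN; fun_prop

@[fun_prop] theorem p_sOf_UH3 (r : ℕ) {x y : α → ℕ} (hx : Primrec x) (hy : Primrec y) :
    Primrec (fun a => sOf r (x a) (y a)) := by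
  unfold sOf; fun_prop

@[fun_prop] theorem p_allL_UH3 (r : ℕ) {x y o : α → ℕ} (hx : Primrec x) (hy : Primrec y)
    (ho : Primrec o) : Primrec (fun a => allL r (x a) (y a) (o a)) := by
  unfold allL; fun_prop

@[fun_prop] theorem p_groupsL_UH3 (r : ℕ) {x o : α → ℕ} {l : α → List Line} (hx : Primrec x)
    (hl : Primrec l) (ho : Primrec o) : Primrec (fun a => groupsL r (x a) (l a) (o a)) := by
  unfold groupsL; fun_prop

end aux

theorem primrec_prsOf (g0 : ℕ) (R0 S0 : List Q4) (y a b x : ℕ) :
    Primrec (prsOf g0 R0 S0 y a b x) := by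
  unfold prsOf; fun_prop

theorem primrec_lines (K : ℕ) : Primrec (lines K) := by
  unfold lines; fun_prop

theorem primrec_npts (K : ℕ) : Primrec (npts K) := by
  unfold npts; fun_prop

theorem primrec_graph (r : ℕ) : Primrec fun x : ℕ × List Line =>
    (kOf r x.1 x.2.length, sOf r x.1 x.2.length, edgeL r x.1 x.2) := by
  have h : Primrec fun x : ℕ × List Line => (groupsL r x.1 x.2 (sOf r x.1 x.2.length + 1)).flatMap
      fun g => (List.range g.2).map fun i =>
        (List.range (sOf r x.1 x.2.length + 1 - g.1.length)).filter (fun j => !eqb j i) ++ g.1 := by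
    fun_prop
  have h2 : Primrec fun x : ℕ × List Line => kOf r x.1 x.2.length := by
    unfold kOf; fun_prop
  exact h2.pair (Primrec.pair (by fun_prop) h)

end Pool.Agent.SemiRandom.Und
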