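import Pool.Agent.P.MP_c53d0e_pr.UDZ
import Pool.Agent.P.MP_c53d0e_pr.UD9
import Pool.Agent.P.MP_c53d0e_pr.UEZ
import Pool.Agent.P.MP_c53d0e_pr.UF2
import Pool.Agent.P.MP_c53d0e_pr.UF7
import Pool.Agent.P.MP_c53d0e_pr.UG6
import Pool.Agent.P.MP_c53d0e_pr.UH2
import Pool.Agent.P.MP_c53d0e_pr.UH3

set_option autoImplicit false
set_option linter.unusedSectionVars false

namespace Pool.Agent.SemiRandom.Und

open Finset

open Filter Topology

theorem tau_inst {r : ℕ} (hr : 2 ≤ r) (np : ℕ) (Ls : List Line)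
    (hnp : r + r ≤ np + 1) :
    (∀ e ∈ graphOf (kOf r np Ls.length) (edgeL r np Ls), e.card = sOf r np Ls.length) ∧
    ((instOf (r + r) np Ls).Yes → tau (graphOf (kOf r np Ls.length) (edgeL r np Ls)) r (sOf r np Ls.length) ≤
      ((r - 1 / 2 : ℝ) : EReal)) ∧
    ((instOf (r + r) np Ls).No → ¬ tau (graphOf (kOf r np Ls.length) (edgeL r np Ls)) r
      (sOf r np Ls.length) ≤ ((r - 1 / 2 : ℝ) : EReal)) := by
  obtain ⟨enc, henc⟩ := graphOf_edgeL hr np Ls
  have hO := ok_sOf hr np Ls.length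
  rw [henc]
  have hw : ∀ n, kOf r np Ls.length ≤ n →
      ∀ (S : Strategy (RSet n r) (Move n r (sOf r np Ls.length))) (T : ℕ),
      winProb (univ.image fun e => (ed (instOf (r + r) np Ls) (sOf r np Ls.length) e).map enc) S T =
        Pr S T (ContainsV (ed (instOf (r + r) np Ls) (sOf r np Ls.length))) := by
    intro n hn S T
    rw [winProb_eq]
    congr 1
    funext h
    exact propext (contains_iff _ enc hn h)
  refine ⟨fun e he => ?_, fun hY => ?_, fun hN => ?_⟩
  · obtain ⟨d, -, rfl⟩ := mem_image.1 he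
    rw [card_map, card_ed hO]
  · refine EReal.le_of_forall_lt_iff_le.1 fun x hx => ?_
    have hx' : (r - 1 / 2 : ℝ) < x := EReal.coe_lt_coe_iff.1 hx
    refine tau_le _ _ _ x fun q hq => ?_
    obtain ⟨c, hc, H⟩ := yes_win hO _ hY (θ := x - (r - 1 / 2)) (by linarith) q hq
    refine ⟨c, hc, ?_⟩
    filter_upwards [H, eventually_ge_atTop (kOf r np Ls.length)] with n ⟨S, T, h1, h2⟩ hn
    refine ⟨S, T, by rwa [hw n hn], ?_⟩
    rwa [show (r : ℝ) - 1 / 2 + (x - (r - 1 / 2)) = x by ring] at h2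
  · obtain ⟨δ, hδ, H⟩ := no_lose hO _ (bas_inj hnp Ls) hN
    have := tau_ge (univ.image fun e => (ed (instOf (r + r) np Ls) (sOf r np Ls.length) e).map enc) r
      (sOf r np Ls.length) (δ := δ) (δ' := (δ + 1 / 2) / 2) (by linarith) fun q hq => by
        filter_upwards [H q hq, eventually_ge_atTop (kOf r np Ls.length)] with n h1 hn S T hT
        rw [hw n hn]
        exact h1 S T hT
    intro h
    have h2 := EReal.coe_le_coe_iff.1 (this.trans h)
    linarith

theorem undecidable (r : ℕ) (hr : 2 ≤ r) :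
    ¬ ∃ f : ℕ × ℕ × List (List ℕ) → Bool, Computable f ∧ ∀ (k s : ℕ) (L : List (List ℕ)), r < s →
      (∀ e ∈ graphOf k L, e.card = s) →
      (f (k, s, L) = true ↔ tau (graphOf k L) r s ≤ ((r - 1 / 2 : ℝ) : EReal)) := by
  rintro ⟨f, hf, H⟩
  let p : ℕ → Prop := fun n => (Nat.Partrec.Code.eval (Denumerable.ofNat _ n) 0).Dom
  have hp : REPred p := (ComputablePred.halting_problem_re 0).comp (Computable.ofNat _)
  obtain ⟨g0, R0, S0, y, a, b, x, hprs⟩ := exists_prs hp
  let π := prsOf g0 R0 S0 y a b x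
  let red : ℕ → ℕ × ℕ × List (List ℕ) := fun n =>
    (kOf r (npts (r + r) (π n)) (lines (r + r) (π n)).length, sOf r (npts (r + r) (π n)) (lines (r + r) (π n)).length,
      edgeL r (npts (r + r) (π n)) (lines (r + r) (π n)))
  have hred : Primrec red := (primrec_graph r).comp
    (((primrec_npts (r + r)).comp (primrec_prsOf g0 R0 S0 y a b x)).pair
      ((primrec_lines (r + r)).comp (primrec_prsOf g0 R0 S0 y a b x)))
  have key : ∀ n, p n ↔ (!f (red n)) = true := by
    intro n
    obtain ⟨hW, hN, hY⟩ := hprs n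
    obtain ⟨h1, h2, h3⟩ := tau_inst hr (npts (r + r) (π n)) (lines (r + r) (π n)) le_npts
    have h4 := H _ _ _ (ok_sOf hr (npts (r + r) (π n)) (lines (r + r) (π n)).length).lt h1
    rw [Bool.not_eq_true', ← Bool.not_eq_true]
    constructor
    · exact fun h h' => h3 (no_of_N (by omega) hW (hN h)) (h4.1 h')
    · intro h
      by_contra hn
      exact h (h4.2 (h2 (yes_of_Y (by omega) hW (hY hn))))
  refine ComputablePred.halting_problem 0 (ComputablePred.computable_iff.2
    ⟨fun c => !f (red (Encodable.encode c)), ?_, ?_⟩)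
  · exact Primrec.not.to_comp.comp (hf.comp (hred.to_comp.comp Computable.encode))
  · funext c
    rw [← key]
    simp [p]

end Pool.Agent.SemiRandom.Und
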