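import Pool.Agent.P.MP_c53d0e_pr.U0

set_option autoImplicit false
set_option linter.unusedSectionVars false

/-! The hypergraph of a static instance for fixed `r < s`. -/

namespace Pool.Agent.SemiRandom.Fix

open Finset Und

/-- Number of edges owned by a vertex. -/
def al (r : ℕ) : ℕ := 30 * (r + 1)

/-- Cost of an edge in units, minus one. -/
def pm (r : ℕ) : ℕ := 8 * r - 1

/-- Capacity of a vertex in units. -/
def qq (r : ℕ) : ℕ := al r * (8 * r) + 1

/-- Functional edges: lines, destroyers, chain edges. -/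
inductive FD (N : ℕ) (Ln : Type) : Type
  | L (e : Ln)
  | D (j : Fin N)
  | E (j : Fin (N + 1))
  deriving DecidableEq, Fintype

/-- Compound vertices. -/
abbrev Cp (r N : ℕ) (Ln : Type) : Type := FD N Ln × Fin r

/-- Non-constant vertices: points, compound vertices, tokens. -/
inductive NV (r N : ℕ) (P Ln : Type) : Type
  | pt (p : P)
  | cv (z : Cp r N Ln)
  | tk (z : Cp r N Ln) (i : Fin 15)
  deriving DecidableEq, Fintype

/-- Constants: side, row, column. -/
abbrev Cn (r : ℕ) : Type := Fin 3 × Fin (al r + 1) × Fin (pm r + 1)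

inductive Vx (r s N : ℕ) (P Ln : Type) : Type
  | hub (j : Fin (s - r - 1))
  | eta
  | c (x : Cn r)
  | nv (v : NV r N P Ln)
  deriving DecidableEq, Fintype

/-- Edges among the constants. -/
abbrev QE (r : ℕ) : Type :=
  {x : Cn r × Fin (al r + 1) // (x.2 : ℕ) < al r ∨ (x.1.2.2 : ℕ) = 0}

abbrev Ed (r N : ℕ) (P Ln : Type) : Type := QE r ⊕ (NV r N P Ln × Fin (al r)) ⊕ FD N Ln

instance instDecQE (r : ℕ) : DecidableEq (QE r) := inferInstance

instance instDecEd (r N : ℕ) (P Ln : Type) [DecidableEq P] [DecidableEq Ln] :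
    DecidableEq (Ed r N P Ln) := inferInstance

/-- A static instance with a list of the line payers to destroy. -/
structure Dat (r N : ℕ) (P Ln : Type) where
  I : Inst 4 P Ln
  tg : Fin N → Ln × Fin r

variable {r s N : ℕ} {P Ln : Type}

@[match_pattern] abbrev eQ (x : QE r) : Ed r N P Ln := Sum.inl x
@[match_pattern] abbrev eO (v : NV r N P Ln) (t : Fin (al r)) : Ed r N P Ln := Sum.inr (Sum.inl (v, t))
@[match_pattern] abbrev eF (F : FD N Ln) : Ed r N P Ln := Sum.inr (Sum.inr F)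

def IsQ : Ed r N P Ln → Prop
  | .inl _ => True
  | .inr _ => False

instance : DecidablePred (IsQ : Ed r N P Ln → Prop) := fun e => by
  cases e <;> unfold IsQ <;> infer_instance

/-- The payers of a functional edge. -/
def pay : FD N Ln → Fin r → Cp r N Ln
  | .L e, i => (.L e, i)
  | .D j, i => if (i : ℕ) = 0 then (.E j.castSucc, i) else (.D j, i)
  | .E j, i => (.E j, i)

/-- Share of a payer, in units. -/
def lv : FD N Ln → Fin r → ℕ
  | .E j, i => if (j : ℕ) = N ∧ (i : ℕ) = 0 then 4 else 8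
  | _, _ => 8

/-- Number of attached tokens. -/
def npriv : Cp r N Ln → ℕ
  | (.L _, _) => 7
  | (.D _, i) => if (i : ℕ) = 0 then 0 else 7
  | (.E j, i) => if (i : ℕ) = 0 then (if (j : ℕ) = N then 3 else 15) else 7

/-- Real parents. -/
def rpar (I : Inst 4 P Ln) : Cp r N Ln → List P
  | (.L e, i) => [I.src e (if (i : ℕ) = 0 then 0 else 1)]
  | (.D _, _) => []
  | (.E _, i) => if (i : ℕ) = 0 then [I.bas 0, I.bas 1, I.bas 2, I.bas 3] else []

/-- Token parent of an owned edge. -/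
def ptk : NV r N P Ln → ℕ → Option (NV r N P Ln)
  | .cv z, t => if t < npriv z then some (.tk z (Fin.ofNat 15 t)) else none
  | _, _ => none

/-- Real parent of an owned edge. -/
def ppt (I : Inst 4 P Ln) : NV r N P Ln → ℕ → Option P
  | .cv z, t => if t < npriv z then none else (rpar I z)[t - npriv z]?
  | _, _ => none

/-- Parent of an owned edge. -/
def par (I : Inst 4 P Ln) (v : NV r N P Ln) (t : ℕ) : Option (NV r N P Ln) :=
  (ptk v t).orElse fun _ => (ppt I v t).map NV.pt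

def cc (a : Fin 3) (i j : ℕ) : Vx r s N P Ln :=
  .c (a, Fin.ofNat (al r + 1) i, Fin.ofNat (pm r + 1) j)

/-- The edge among constants has a parent. -/
def qbin (x : QE r) : Prop := (x.1.1.2.2 : ℕ) = 0 ∧ (x.1.2 : ℕ) < pm r

instance : DecidablePred (qbin : QE r → Prop) := fun x => by unfold qbin; infer_instance

def qpar (x : QE r) : Vx r s N P Ln := cc x.1.1.1 x.1.1.2.1 (x.1.2 + 1)

variable [NeZero r]

/-- The main vertex of block `j`. -/
def aa (j : Fin (N + 1)) : Cp r N Ln := (.E j, 0)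

/-- The vertex determined by a functional edge. -/
def tgtv (D : Dat r N P Ln) : FD N Ln → NV r N P Ln
  | .L e => .pt (D.I.tgt e)
  | .D j => .cv (.L (D.tg j).1, (D.tg j).2)
  | .E j => Fin.cases (.pt (D.I.bas 0)) (fun j' => .cv (aa j'.castSucc)) j

/-- The `r + 1` vertices of an edge besides the hubs. -/
def vtx (D : Dat r N P Ln) (s : ℕ) : Ed r N P Ln → ℕ → Vx r s N P Ln
  | .inl x, k => if k = 0 then .eta else if k = 1 then .c x.1.1 else
      if k = 2 ∧ qbin x then qpar x else cc (x.1.1.1 + 1) x.1.2 (k - 2)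
  | .inr (.inl (v, t)), k => if k = 0 then .nv v else
      if k = 1 then ((par D.I v t).elim (cc 0 t 0) Vx.nv) else cc 0 t (k - 1)
  | .inr (.inr F), k => if k = 0 then .nv (tgtv D F) else .nv (.cv (pay F (Fin.ofNat r (k - 1))))

variable [Fintype P] [DecidableEq P] [Fintype Ln] [DecidableEq Ln]

def HH : Finset (Vx r s N P Ln) := univ.image Vx.hub
def CN : Finset (Vx r s N P Ln) := univ.image Vx.c
def CC : Finset (Vx r s N P Ln) := HH ∪ insert Vx.eta CN
def pts (A : Finset P) : Finset (Vx r s N P Ln) := A.image fun p => Vx.nv (.pt p)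
def cvs (X : Finset (Cp r N Ln)) : Finset (Vx r s N P Ln) := X.image fun z => Vx.nv (.cv z)
def PY (r : ℕ) (F : FD N Ln) : Finset (Cp r N Ln) := univ.image (pay F)

/-- The edges. -/
def ed (D : Dat r N P Ln) (s : ℕ) (e : Ed r N P Ln) : Finset (Vx r s N P Ln) :=
  HH ∪ (range (r + 1)).image (vtx D s e)

/-- The random part used by the winning strategy. -/
def key0 (D : Dat r N P Ln) (s : ℕ) : Ed r N P Ln → Finset (Vx r s N P Ln)
  | .inl x => (Icc 1 r).image (vtx D s (.inl x))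
  | .inr (.inl y) => (range r).image (vtx D s (.inr (.inl y)))
  | .inr (.inr F) => cvs (PY r F)

/-- Duties, in units. -/
def dn : Ed r N P Ln → Vx r s N P Ln → ℕ
  | .inl x, w => if qbin x then (if w = .c x.1.1 then pm r else if w = qpar x then 1 else 0)
      else if w = .c x.1.1 then 8 * r else 0
  | .inr (.inl (v, t)), w => (ptk v t).elim (if w = .nv v then 8 * r else 0)
      fun τ => if w = .nv v then pm r else if w = .nv τ then 1 else 0
  | .inr (.inr F), w => ∑ i : Fin r, if w = .nv (.cv (pay F i)) then lv F i else 0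

/-- Total duty of a vertex. -/
def ld (w : Vx r s N P Ln) : ℕ := ∑ e : Ed r N P Ln, dn e w

def IsPay (z : Cp r N Ln) : Prop := ∃ F i, z = pay F i

/-- Points, compound vertices and their attached tokens. -/
def UU (X : Finset (Cp r N Ln)) (A : Finset P) : Finset (Vx r s N P Ln) :=
  pts A ∪ cvs X ∪ ((X ×ˢ (univ : Finset (Fin 15))).filter fun y => (y.2 : ℕ) < npriv y.1).image
    fun y => Vx.nv (.tk y.1 y.2)

def Bas (D : Dat r N P Ln) : Finset P := univ.image D.I.bas
def Src (D : Dat r N P Ln) (e : Ln) : Finset P := univ.image (D.I.src e)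

/-- The payers of block `j`. -/
def Blk (r : ℕ) (j : Fin (N + 1)) : Finset (Cp r N Ln) :=
  PY r (.E j) ∪ if h : (j : ℕ) < N then PY r (.D ⟨j, h⟩) else ∅

structure Ok (r s : ℕ) : Prop where
  hr : 2 ≤ r
  hs : r < s

/-- Side conditions on the instance. -/
structure Dat.Good (D : Dat r N P Ln) : Prop where
  surj : Function.Surjective D.tg
  cov1 : ∀ b, ∃ e, D.I.tgt e = D.I.bas b ∧ ∀ l b', D.I.src e l ≠ D.I.bas b'
  cov2 : ∀ p, (∃ b, p = D.I.bas b) ∨ ∃ e, D.I.tgt e = p ∧ ∀ l, ∃ b, D.I.src e l = D.I.bas b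

/-- Stage of a functional edge. -/
def stF : FD N Ln → ℕ
  | .L _ => 2
  | .D j => 3 + j
  | .E j => 3 + j

def stN : NV r N P Ln → ℕ
  | .pt _ => 1
  | .cv z => stF z.1
  | .tk z _ => stF z.1

def stV : Vx r s N P Ln → ℕ
  | .nv v => stN v
  | _ => 0

def stE : Ed r N P Ln → ℕ
  | .inl _ => 0
  | .inr (.inl y) => stN y.1
  | .inr (.inr F) => stF F

/-- The unit and the cost of an edge as reals. -/
noncomputable def hh (r : ℕ) : ℝ := 1 / (qq r : ℝ)
noncomputable def de (r : ℕ) : ℝ := 8 * r * hh r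

section mem
@[simp] lemma mem_HH (v : Vx r s N P Ln) : v ∈ HH ↔ ∃ j, v = .hub j := by simp [HH, eq_comm]
@[simp] lemma mem_CN (v : Vx r s N P Ln) : v ∈ CN ↔ ∃ x, v = .c x := by
  simp only [CN, mem_image, mem_univ, true_and, eq_comm]
@[simp] lemma mem_CC (v : Vx r s N P Ln) :
    v ∈ CC ↔ (∃ j, v = .hub j) ∨ v = .eta ∨ ∃ x, v = .c x := by
  simp only [CC, mem_union, mem_HH, mem_insert, mem_CN]
@[simp] lemma mem_pts (A : Finset P) (v : Vx r s N P Ln) :
    v ∈ pts A ↔ ∃ p ∈ A, v = .nv (.pt p) := by simp [pts, eq_comm]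
@[simp] lemma mem_cvs (X : Finset (Cp r N Ln)) (v : Vx r s N P Ln) :
    v ∈ cvs X ↔ ∃ z ∈ X, v = .nv (.cv z) := by
  simp only [cvs, mem_image, eq_comm]
@[simp] lemma mem_PY (F : FD N Ln) (z : Cp r N Ln) : z ∈ PY r F ↔ ∃ i, z = pay F i := by
  simp only [PY, mem_image, mem_univ, true_and, eq_comm]
@[simp] lemma mem_Bas (D : Dat r N P Ln) (p : P) : p ∈ Bas D ↔ ∃ b, p = D.I.bas b := by
  simp [Bas, eq_comm]
@[simp] lemma mem_Src (D : Dat r N P Ln) (e : Ln) (p : P) :
    p ∈ Src D e ↔ ∃ l, p = D.I.src e l := by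
  simp only [Src, mem_image, mem_univ, true_and, eq_comm]
lemma mem_UU (X : Finset (Cp r N Ln)) (A : Finset P) (v : Vx r s N P Ln) :
    v ∈ UU X A ↔ (∃ p ∈ A, v = .nv (.pt p)) ∨ (∃ z ∈ X, v = .nv (.cv z)) ∨
      ∃ z ∈ X, ∃ i : Fin 15, (i : ℕ) < npriv z ∧ v = .nv (.tk z i) := by
  simp only [UU, mem_union, mem_pts, mem_cvs, mem_image, mem_filter, mem_product, mem_univ,
    and_true, or_assoc, Prod.exists]
  refine or_congr Iff.rfl (or_congr Iff.rfl ⟨?_, ?_⟩)
  · rintro ⟨a, b, i, ⟨h1, h2⟩, rfl⟩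
    exact ⟨a, b, h1, i, h2, rfl⟩
  · rintro ⟨a, b, h1, i, h2, rfl⟩
    exact ⟨a, b, i, ⟨h1, h2⟩, rfl⟩
@[simp] lemma pt_mem_UU (X : Finset (Cp r N Ln)) (A : Finset P) (p : P) :
    (Vx.nv (.pt p) : Vx r s N P Ln) ∈ UU X A ↔ p ∈ A := by simp [mem_UU]
@[simp] lemma cv_mem_UU (X : Finset (Cp r N Ln)) (A : Finset P) (z : Cp r N Ln) :
    (Vx.nv (.cv z) : Vx r s N P Ln) ∈ UU X A ↔ z ∈ X := by simp [mem_UU]
@[simp] lemma tk_mem_UU (X : Finset (Cp r N Ln)) (A : Finset P) (z : Cp r N Ln) (i : Fin 15) :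
    (Vx.nv (.tk z i) : Vx r s N P Ln) ∈ UU X A ↔ z ∈ X ∧ (i : ℕ) < npriv z := by simp [mem_UU]
@[simp] lemma nv_notMem_CC (v : NV r N P Ln) : (Vx.nv v : Vx r s N P Ln) ∉ CC := by simp
end mem

end Pool.Agent.SemiRandom.Fix
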