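import Pool.Agent.P.MP_c53d0e_pr.W0

set_option autoImplicit false
set_option linter.unusedSectionVars false

namespace Pool.Agent.SemiRandom.Fix

open Finset Und

variable {r s N : ℕ} {P Ln : Type} [NeZero r] [Fintype P] [DecidableEq P] [Fintype Ln]
  [DecidableEq Ln]

lemma pm_succ (hO : Ok r s) : pm r + 1 = 8 * r := by
  have := hO.hr
  unfold pm
  omega

lemma hh_pos (r : ℕ) : 0 < hh r := by
  unfold hh qq
  positivity

lemma qq_hh (r : ℕ) : (qq r : ℝ) * hh r = 1 := by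
  have : (0 : ℝ) < qq r := by unfold qq; positivity
  unfold hh
  field_simp

lemma al_de (r : ℕ) : (al r : ℝ) * de r + hh r = 1 := by
  have h := qq_hh r
  unfold qq at h
  unfold de
  push_cast at h
  linarith

/-- `16 h ≤ δ` and `30 (r + 1) δ ≤ 1`. -/
lemma de_bd (hO : Ok r s) : 16 * hh r ≤ de r ∧ 30 * ((r : ℝ) + 1) * de r ≤ 1 := by
  have h := al_de r
  have hp := hh_pos r
  have h2 : (2 : ℝ) ≤ r := by exact_mod_cast hO.hr
  refine ⟨by unfold de; nlinarith, ?_⟩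
  unfold al at h
  push_cast at h
  linarith

lemma npriv_le (z : Cp r N Ln) : npriv z ≤ 15 := by
  rcases z with ⟨_ | _ | _, i⟩ <;> simp only [npriv] <;> (try split_ifs) <;> omega

lemma rpar_len (I : Inst 4 P Ln) (z : Cp r N Ln) : (rpar I z).length ≤ 4 := by
  rcases z with ⟨_ | _ | _, i⟩ <;> simp only [rpar] <;> (try split_ifs) <;> simp

lemma par_big (I : Inst 4 P Ln) (v : NV r N P Ln) {t : ℕ} (ht : 20 ≤ t) : par I v t = none := by
  rcases v with p | z | ⟨z, i⟩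
  · rfl
  · have h1 := npriv_le z
    have h2 := rpar_len I z
    have h3 : ¬ t < npriv z := by omega
    have h4 : (rpar I z)[t - npriv z]? = none := List.getElem?_eq_none (by omega)
    simp only [par, ptk, ppt, if_neg h3, h4]
    rfl
  · rfl

@[simp] lemma par_pt (I : Inst 4 P Ln) (p : P) (t : ℕ) :
    par I (.pt p : NV r N P Ln) t = none := by
  rfl

@[simp] lemma par_tk (I : Inst 4 P Ln) (z : Cp r N Ln) (i : Fin 15) (t : ℕ) :
    par I (.tk z i : NV r N P Ln) t = none := by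
  rfl

lemma ptk_cases {v τ : NV r N P Ln} {t : ℕ} (h : ptk v t = some τ) :
    ∃ (z : Cp r N Ln) (i : Fin 15), v = .cv z ∧ τ = .tk z i ∧ (i : ℕ) = t ∧ t < npriv z := by
  rcases v with p | z | ⟨z, i⟩
  · exact absurd h (by simp [ptk])
  · have h1 := npriv_le z
    simp only [ptk] at h
    split_ifs at h with h2
    refine ⟨z, Fin.ofNat 15 t, rfl, (Option.some.inj h).symm, ?_, h2⟩
    exact Nat.mod_eq_of_lt (by omega)
  · exact absurd h (by simp [ptk])

lemma ppt_cases {I : Inst 4 P Ln} {v : NV r N P Ln} {t : ℕ} {p : P} (h : ppt I v t = some p) :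
    ptk v t = none ∧ par I v t = some (.pt p) ∧ ∃ z, v = .cv z ∧ p ∈ rpar I z := by
  rcases v with q | z | ⟨z, i⟩
  · exact absurd h (by simp [ppt])
  · have h' := h
    simp only [ppt] at h
    split_ifs at h with h2
    have h3 : ptk (.cv z : NV r N P Ln) t = none := by simp only [ptk, if_neg h2]
    refine ⟨h3, ?_, z, rfl, List.mem_of_getElem? h⟩
    simp only [par, h3, h']
    rfl
  · exact absurd h (by simp [ppt])

lemma par_cases {I : Inst 4 P Ln} {v π : NV r N P Ln} {t : ℕ} (h : par I v t = some π) :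
    ptk v t = some π ∨ ∃ p, ppt I v t = some p ∧ π = .pt p := by
  unfold par at h
  rcases h1 : ptk v t with _ | τ
  · rw [h1] at h
    rcases h2 : ppt I v t with _ | p
    · rw [h2] at h
      exact absurd h (by simp)
    · rw [h2] at h
      exact Or.inr ⟨p, rfl, (Option.some.inj h).symm⟩
  · rw [h1] at h
    exact Or.inl h

lemma par_of_ptk (I : Inst 4 P Ln) {v τ : NV r N P Ln} {t : ℕ} (h : ptk v t = some τ) :
    par I v t = some τ ∧ ppt I v t = none := by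
  obtain ⟨z, i, rfl, -, -, h2⟩ := ptk_cases h
  refine ⟨?_, by simp only [ppt, if_pos h2]⟩
  unfold par
  rw [h]
  rfl

lemma exists_priv (z : Cp r N Ln) (i : Fin 15) (hi : (i : ℕ) < npriv z) :
    ∃ t : Fin (al r), ptk (.cv z : NV r N P Ln) t = some (.tk z i) := by
  have hi' := i.isLt
  refine ⟨⟨i, by unfold al; omega⟩, ?_⟩
  simp only [ptk, if_pos hi, Fin.ofNat_val_eq_self]

lemma exists_real (I : Inst 4 P Ln) (z : Cp r N Ln) {p : P} (hp : p ∈ rpar I z) :
    ∃ t : Fin (al r), ppt I (.cv z : NV r N P Ln) t = some p := by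
  obtain ⟨k, hk⟩ := List.mem_iff_getElem?.1 hp
  have h1 := npriv_le z
  have h2 := rpar_len I z
  have h3 : k < (rpar I z).length := (List.getElem?_eq_some_iff.1 hk).1
  refine ⟨⟨npriv z + k, by unfold al; omega⟩, ?_⟩
  simp only [ppt]
  rw [if_neg (by omega), Nat.add_sub_cancel_left, hk]

lemma cc_inj (hO : Ok r s) {a a' : Fin 3} {i i' j j' : ℕ} (hi : i ≤ al r) (hi' : i' ≤ al r)
    (hj : j < 8 * r) (hj' : j' < 8 * r) :
    (cc a i j : Vx r s N P Ln) = cc a' i' j' ↔ a = a' ∧ i = i' ∧ j = j' := by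
  have h := pm_succ hO
  simp only [cc, Vx.c.injEq, Prod.mk.injEq, Fin.ext_iff, Fin.val_ofNat]
  rw [Nat.mod_eq_of_lt (by omega : i < al r + 1), Nat.mod_eq_of_lt (by omega : i' < al r + 1),
    Nat.mod_eq_of_lt (by omega : j < pm r + 1), Nat.mod_eq_of_lt (by omega : j' < pm r + 1)]

lemma c_eq_cc (x : Cn r) : (Vx.c x : Vx r s N P Ln) = cc x.1 x.2.1 x.2.2 := by
  simp only [cc, Fin.ofNat_val_eq_self]

lemma cc_mem_CN (a : Fin 3) (i j : ℕ) : (cc a i j : Vx r s N P Ln) ∈ CN := by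
  exact (mem_CN _).2 ⟨_, rfl⟩

lemma mem_ed_Q (hO : Ok r s) (D : Dat r N P Ln) (x : QE r) (v : Vx r s N P Ln) :
    v ∈ ed D s (eQ x) ↔ v ∈ HH ∨ v = .eta ∨ v = .c x.1.1 ∨ (qbin x ∧ v = qpar x) ∨
      ∃ l, l + 2 ≤ r ∧ (l = 0 → ¬ qbin x) ∧ v = cc (x.1.1.1 + 1) x.1.2 l := by
  have hr := hO.hr
  simp only [ed, mem_union, mem_image, mem_range]
  refine or_congr Iff.rfl ⟨?_, ?_⟩
  · rintro ⟨k, hk, rfl⟩
    simp only [vtx]
    split_ifs with h0 h1 h2
    · exact Or.inl rfl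
    · exact Or.inr (Or.inl rfl)
    · exact Or.inr (Or.inr (Or.inl ⟨h2.2, rfl⟩))
    · exact Or.inr (Or.inr (Or.inr ⟨k - 2, by omega, fun h hb => h2 ⟨by omega, hb⟩, rfl⟩))
  · rintro (rfl | rfl | ⟨hb, rfl⟩ | ⟨l, h1, h2, rfl⟩)
    · exact ⟨0, by omega, rfl⟩
    · exact ⟨1, by omega, rfl⟩
    · exact ⟨2, by omega, by simp [vtx, hb]⟩
    · refine ⟨l + 2, by omega, ?_⟩
      simp only [vtx]
      rw [if_neg (by omega), if_neg (by omega), if_neg (fun h => h2 (by omega) h.2),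
        Nat.add_sub_cancel]

lemma mem_ed_O (hO : Ok r s) (D : Dat r N P Ln) (w : NV r N P Ln) (t : Fin (al r))
    (v : Vx r s N P Ln) :
    v ∈ ed D s (eO w t) ↔ v ∈ HH ∨ v = .nv w ∨ (∃ π, par D.I w t = some π ∧ v = .nv π) ∨
      ∃ l, l < r ∧ (l = 0 → par D.I w t = none) ∧ v = cc 0 t l := by
  have hr := hO.hr
  simp only [ed, mem_union, mem_image, mem_range]
  refine or_congr Iff.rfl ⟨?_, ?_⟩
  · rintro ⟨k, hk, rfl⟩
    simp only [vtx]
    split_ifs with h0 h1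
    · exact Or.inl rfl
    · rcases h : par D.I w t with _ | π
      · exact Or.inr (Or.inr ⟨0, by omega, fun _ => rfl, rfl⟩)
      · exact Or.inr (Or.inl ⟨π, rfl, rfl⟩)
    · exact Or.inr (Or.inr ⟨k - 1, by omega, fun h => by omega, rfl⟩)
  · rintro (rfl | ⟨π, h, rfl⟩ | ⟨l, h1, h2, rfl⟩)
    · exact ⟨0, by omega, rfl⟩
    · exact ⟨1, by omega, by simp [vtx, h]⟩
    · refine ⟨l + 1, by omega, ?_⟩
      simp only [vtx]
      rw [if_neg (by omega)]
      split_ifs with h3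
      · obtain rfl : l = 0 := by omega
        rw [h2 rfl]
        rfl
      · rw [Nat.add_sub_cancel]

lemma mem_ed_F (D : Dat r N P Ln) (F : FD N Ln) (v : Vx r s N P Ln) :
    v ∈ ed D s (eF F) ↔ v ∈ HH ∨ v = .nv (tgtv D F) ∨ ∃ i, v = .nv (.cv (pay F i)) := by
  simp only [ed, mem_union, mem_image, mem_range]
  refine or_congr Iff.rfl ⟨?_, ?_⟩
  · rintro ⟨k, hk, rfl⟩
    simp only [vtx]
    split_ifs with h0
    · exact Or.inl rfl
    · exact Or.inr ⟨_, rfl⟩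
  · rintro (rfl | ⟨i, rfl⟩)
    · exact ⟨0, by omega, rfl⟩
    · have := i.isLt
      refine ⟨i + 1, by omega, ?_⟩
      simp only [vtx]
      rw [if_neg (by omega), Nat.add_sub_cancel, Fin.ofNat_val_eq_self]

lemma pay_inj (F : FD N Ln) : Function.Injective (pay F : Fin r → Cp r N Ln) := by
  intro i i' h
  have h1 : ∀ k : Fin r, (pay F k).2 = k := fun k => by
    rcases F with e | j | j <;> simp only [pay]
    split_ifs <;> rfl
  rw [← h1 i, h, h1 i']

lemma tgt_ne_pay (D : Dat r N P Ln) (F : FD N Ln) (i : Fin r) : tgtv D F ≠ .cv (pay F i) := by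
  rcases F with e | j | j
  · simp [tgtv]
  · simp only [tgtv, pay]
    split_ifs <;> simp
  · refine Fin.cases ?_ (fun j' => ?_) j
    · simp [tgtv]
    · simp only [tgtv, Fin.cases_succ, pay, aa, ne_eq, NV.cv.injEq, Prod.mk.injEq, FD.E.injEq]
      exact fun h => (Fin.castSucc_lt_succ (i := j')).ne h.1

lemma aa_mem_E (j : Fin (N + 1)) : (aa j : Cp r N Ln) ∈ PY r (.E j) := by
  exact (mem_PY _ _).2 ⟨0, rfl⟩

lemma aa_mem_D (j : Fin N) : (aa j.castSucc : Cp r N Ln) ∈ PY r (.D j) := by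
  exact (mem_PY _ _).2 ⟨0, by simp [pay, aa]⟩

/-- Only the main vertex of a block pays in two edges. -/
lemma pay_eq {F F' : FD N Ln} {i i' : Fin r} (h : pay F i = pay F' i') :
    F = F' ∨ ∃ j : Fin N, pay F i = aa j.castSucc ∧
      ((F = .D j ∧ F' = .E j.castSucc) ∨ (F = .E j.castSucc ∧ F' = .D j)) := by
  have z : ∀ k : Fin r, (k : ℕ) = 0 → k = 0 := fun k hk => Fin.ext (by simpa using hk)
  rcases F with e | j | j <;> rcases F' with e' | j' | j' <;> simp only [pay] at h ⊢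
  · exact Or.inl (Prod.mk.inj h).1
  · split_ifs at h <;> exact absurd (Prod.mk.inj h).1 (by simp)
  · exact absurd (Prod.mk.inj h).1 (by simp)
  · split_ifs at h <;> exact absurd (Prod.mk.inj h).1 (by simp)
  · split_ifs at h
    · exact Or.inl (congrArg _ (Fin.castSucc_injective _ (FD.E.inj (Prod.mk.inj h).1)))
    · exact absurd (Prod.mk.inj h).1 (by simp)
    · exact absurd (Prod.mk.inj h).1 (by simp)
    · exact Or.inl (Prod.mk.inj h).1
  · split_ifs at h with h0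
    · refine Or.inr ⟨j, ?_, Or.inl ⟨rfl, (Prod.mk.inj h).1.symm⟩⟩
      rw [if_pos h0, z i h0]
      rfl
    · exact absurd (Prod.mk.inj h).1 (by simp)
  · exact absurd (Prod.mk.inj h).1 (by simp)
  · split_ifs at h with h0
    · refine Or.inr ⟨j', ?_, Or.inr ⟨(Prod.mk.inj h).1, rfl⟩⟩
      rw [h, z i' h0]
      rfl
    · exact absurd (Prod.mk.inj h).1 (by simp)
  · exact Or.inl (Prod.mk.inj h).1

lemma mem_Blk (j : Fin (N + 1)) (z : Cp r N Ln) :
    z ∈ Blk r j ↔ z ∈ PY r (.E j) ∨ ∃ j' : Fin N, j = j'.castSucc ∧ z ∈ PY r (.D j') := by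
  unfold Blk
  rw [mem_union]
  refine or_congr Iff.rfl ⟨fun h => ?_, ?_⟩
  · split_ifs at h with h1
    · exact ⟨⟨j, h1⟩, rfl, h⟩
    · exact absurd h (notMem_empty _)
  · rintro ⟨j', rfl, h⟩
    rw [dif_pos (show ((j'.castSucc : Fin (N + 1)) : ℕ) < N from j'.isLt)]
    exact h

/-- The edges in which a vertex of block `j` pays. -/
lemma role_Blk {j : Fin (N + 1)} {F : FD N Ln} {i : Fin r} (h : pay F i ∈ Blk r j) :
    (F = .E j ∨ ∃ j' : Fin N, j = j'.castSucc ∧ F = .D j') ∧ PY r F ⊆ Blk r j := by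
  have h1 : F = .E j ∨ ∃ j' : Fin N, j = j'.castSucc ∧ F = .D j' := by
    rcases (mem_Blk _ _).1 h with g | ⟨j', rfl, g⟩
    · obtain ⟨i', h⟩ := (mem_PY _ _).1 g
      rcases pay_eq h with h | ⟨k, -, ⟨h1, h2⟩ | ⟨-, h2⟩⟩
      · exact Or.inl h
      · exact Or.inr ⟨k, FD.E.inj h2, h1⟩
      · exact absurd h2 (by simp)
    · obtain ⟨i', h⟩ := (mem_PY _ _).1 g
      rcases pay_eq h with h | ⟨k, -, ⟨-, h2⟩ | ⟨h1, h2⟩⟩
      · exact Or.inr ⟨j', rfl, h⟩
      · exact absurd h2 (by simp)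
      · exact Or.inl (by rw [h1, FD.D.inj h2])
  refine ⟨h1, fun z hz => (mem_Blk _ _).2 ?_⟩
  rcases h1 with rfl | ⟨j', h1, rfl⟩
  exacts [Or.inl hz, Or.inr ⟨j', h1, hz⟩]

lemma role_L {e : Ln} {F : FD N Ln} {i : Fin r} (h : pay F i ∈ PY r (.L e : FD N Ln)) :
    F = .L e := by
  obtain ⟨i', h⟩ := (mem_PY _ _).1 h
  rcases pay_eq h with h | ⟨k, -, ⟨-, h2⟩ | ⟨-, h2⟩⟩
  · exact h
  · exact absurd h2 (by simp)
  · exact absurd h2 (by simp)

lemma rpar_Blk (D : Dat r N P Ln) {j : Fin (N + 1)} {z : Cp r N Ln} (h : z ∈ Blk r j) :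
    ∀ p ∈ rpar D.I z, p ∈ Bas D := by
  have hE : ∀ (k : Fin (N + 1)) (i : Fin r), ∀ p ∈ rpar D.I ((.E k, i) : Cp r N Ln), p ∈ Bas D := by
    intro k i p hp
    simp only [rpar] at hp
    split_ifs at hp
    · simp only [List.mem_cons, List.not_mem_nil, or_false] at hp
      rcases hp with rfl | rfl | rfl | rfl <;> exact (mem_Bas _ _).2 ⟨_, rfl⟩
    · exact absurd hp List.not_mem_nil
  rcases (mem_Blk _ _).1 h with g | ⟨j', rfl, g⟩
  · obtain ⟨i, rfl⟩ := (mem_PY _ _).1 g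
    exact hE j i
  · obtain ⟨i, rfl⟩ := (mem_PY _ _).1 g
    simp only [pay]
    split_ifs
    · exact hE _ i
    · exact fun p hp => absurd hp List.not_mem_nil

lemma rpar_L (D : Dat r N P Ln) {e : Ln} {z : Cp r N Ln} (h : z ∈ PY r (.L e)) :
    ∀ p ∈ rpar D.I z, p ∈ Src D e := by
  obtain ⟨i, rfl⟩ := (mem_PY _ _).1 h
  intro p hp
  simp only [pay, rpar, List.mem_singleton] at hp
  exact (mem_Src _ _ _).2 ⟨_, hp⟩

lemma bas_mem_rpar (I : Inst 4 P Ln) (j : Fin (N + 1)) (b : Fin 4) :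
    I.bas b ∈ rpar I (aa j : Cp r N Ln) := by
  simp only [aa, rpar, Fin.val_zero, if_true]
  fin_cases b <;> simp

lemma src_mem_rpar (hO : Ok r s) (I : Inst 4 P Ln) (e : Ln) (l : Fin 2) :
    ∃ i : Fin r, I.src e l ∈ rpar I ((.L e, i) : Cp r N Ln) := by
  have hr := hO.hr
  fin_cases l
  · exact ⟨0, by simp [rpar]⟩
  · exact ⟨⟨1, by omega⟩, by simp [rpar]⟩

lemma card_Bas (D : Dat r N P Ln) : (Bas D).card ≤ 4 := by
  exact card_image_le.trans (by simp)

lemma card_Src (D : Dat r N P Ln) (e : Ln) : (Src D e).card ≤ 2 := by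
  exact card_image_le.trans (by simp)

end Pool.Agent.SemiRandom.Fix
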