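import Pool.Agent.P.MP_c53d0e_pr.WA1

set_option autoImplicit false
set_option linter.unusedSectionVars false

namespace Pool.Agent.SemiRandom.Fix

open Finset Und

variable {r s N : ℕ} {P Ln : Type} [NeZero r] [Fintype P] [DecidableEq P] [Fintype Ln]
  [DecidableEq Ln]

lemma side_ne_WA2 (a : Fin 3) : a + 1 ≠ a := by revert a; decide

lemma par_ne_WA2 {I : Inst 4 P Ln} {v π : NV r N P Ln} {t : ℕ} (h : par I v t = some π) :
    π ≠ v := by
  rcases par_cases h with h1 | ⟨p, h1, rfl⟩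
  · obtain ⟨z, i, rfl, rfl, -⟩ := ptk_cases h1
    exact fun h2 => nomatch h2
  · obtain ⟨-, -, z, rfl, -⟩ := ppt_cases h1
    exact fun h2 => nomatch h2

lemma cc_mem_CC_WA2 (a : Fin 3) (i j : ℕ) : (cc a i j : Vx r s N P Ln) ∈ CC :=
  (mem_CC _).2 (Or.inr (Or.inr ⟨_, rfl⟩))

lemma vtx_Q_WA2 (hO : Ok r s) (D : Dat r N P Ln) (x : QE r) {k : ℕ} (h0 : k ≠ 0) (hk : k ≤ r) :
    ∃ a i j, vtx D s (eQ x) k = cc a i j ∧ i ≤ al r ∧ j < 8 * r ∧
      k = if a = x.1.1.1 then (if j = (x.1.1.2.2 : ℕ) then 1 else 2) else j + 2 := by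
  have hi := x.1.1.2.1.is_lt
  have hj := x.1.1.2.2.is_lt
  have ht := x.1.2.is_lt
  have hp := pm_succ hO
  by_cases h1 : k = 1
  · refine ⟨x.1.1.1, x.1.1.2.1, x.1.1.2.2, ?_, by omega, by omega, by simp [h1]⟩
    simp only [vtx, if_neg h0, if_pos h1]
    exact c_eq_cc _
  · by_cases h2 : k = 2 ∧ qbin x
    · have h3 : (x.1.1.2.2 : ℕ) = 0 ∧ (x.1.2 : ℕ) < pm r := h2.2
      refine ⟨x.1.1.1, x.1.1.2.1, x.1.2 + 1, ?_, by omega, by omega, ?_⟩
      · simp only [vtx, if_neg h0, if_neg h1, if_pos h2, qpar]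
      · rw [if_pos rfl, if_neg (by omega)]
        exact h2.1
    · refine ⟨x.1.1.1 + 1, x.1.2, k - 2, ?_, by omega, by omega, ?_⟩
      · simp only [vtx, if_neg h0, if_neg h1, if_neg h2]
      · rw [if_neg (side_ne_WA2 _)]
        omega

lemma vtx_O_WA2 (D : Dat r N P Ln) (w : NV r N P Ln) (t : Fin (al r)) {k : ℕ} (h0 : k ≠ 0) :
    (k = 1 ∧ ∃ π, par D.I w t = some π ∧ vtx D s (eO w t) k = .nv π) ∨
      vtx D s (eO w t) k = cc 0 t (k - 1) := by
  by_cases h1 : k = 1
  · subst h1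
    cases h : par D.I w t with
    | none => exact Or.inr (by simp [vtx, h])
    | some π => exact Or.inl ⟨rfl, π, rfl, by simp [vtx, h]⟩
  · exact Or.inr (by simp only [vtx, if_neg h0, if_neg h1])

lemma vtx_inj (hO : Ok r s) (D : Dat r N P Ln) (e : Ed r N P Ln) {k k' : ℕ} (hk : k ≤ r)
    (hk' : k' ≤ r) (h : vtx D s e k = vtx D s e k') : k = k' := by
  wlog hlt : k < k' generalizing k k'
  · by_contra hne
    exact hne (this hk' hk h.symm (by omega)).symm
  have h0' : k' ≠ 0 := by omega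
  rcases e with x | ⟨w, t⟩ | F
  · obtain ⟨a', i', j', e', b1, b2, b3⟩ := vtx_Q_WA2 hO D x h0' hk'
    rw [e'] at h
    by_cases h0 : k = 0
    · subst h0
      simp [vtx, cc] at h
    · obtain ⟨a, i, j, e, c1, c2, c3⟩ := vtx_Q_WA2 hO D x h0 hk
      rw [e] at h
      obtain ⟨rfl, rfl, rfl⟩ := (cc_inj hO c1 b1 c2 b2).1 h
      exact c3.trans b3.symm
  · have ht := t.is_lt
    by_cases h0 : k = 0
    · subst h0
      rcases vtx_O_WA2 (s := s) D w t h0' with ⟨-, π, h1, h2⟩ | h2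
      · rw [h2] at h
        simp only [vtx, if_true, Vx.nv.injEq] at h
        exact (par_ne_WA2 h1 h.symm).elim
      · rw [h2] at h
        simp [vtx, cc] at h
    · rcases vtx_O_WA2 (s := s) D w t h0' with ⟨h1, -⟩ | h2
      · omega
      · rcases vtx_O_WA2 (s := s) D w t h0 with ⟨-, π, -, h3⟩ | h3
        · rw [h2, h3] at h
          simp [cc] at h
        · rw [h2, h3] at h
          have := (cc_inj hO (by omega) (by omega) (by omega) (by omega)).1 h
          omega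
  · by_cases h0 : k = 0
    · simp only [vtx, if_pos h0, if_neg h0', Vx.nv.injEq] at h
      exact (tgt_ne_pay D F _ h).elim
    · simp only [vtx, if_neg h0, if_neg h0', Vx.nv.injEq, NV.cv.injEq] at h
      have h1 := congrArg Fin.val (pay_inj F h)
      rw [Fin.val_ofNat, Fin.val_ofNat, Nat.mod_eq_of_lt (by omega),
        Nat.mod_eq_of_lt (by omega)] at h1
      omega

lemma vtx_notMem_HH (D : Dat r N P Ln) (e : Ed r N P Ln) (k : ℕ) : vtx D s e k ∉ HH := by
  rw [mem_HH]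
  rintro ⟨j, h⟩
  rcases e with x | ⟨w, t⟩ | F
  · simp only [vtx, qpar, cc] at h
    split_ifs at h
  · by_cases h0 : k = 0
    · simp [vtx, h0] at h
    · rcases vtx_O_WA2 (s := s) D w t h0 with ⟨-, π, -, h2⟩ | h2
      · rw [h2] at h
        exact nomatch h
      · rw [h2] at h
        simp [cc] at h
  · simp only [vtx] at h
    split_ifs at h

lemma card_HH : (HH : Finset (Vx r s N P Ln)).card = s - r - 1 := by
  rw [HH, card_image_of_injective _ (fun _ _ h => Vx.hub.inj h), card_univ, Fintype.card_fin]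

lemma HH_sub_ed (D : Dat r N P Ln) (e : Ed r N P Ln) : HH ⊆ ed D s e := subset_union_left

theorem card_ed (hO : Ok r s) (D : Dat r N P Ln) (e : Ed r N P Ln) : (ed D s e).card = s := by
  rw [ed, card_union_of_disjoint, card_HH, card_image_of_injOn, card_range]
  · have := hO.hs
    omega
  · intro k hk k' hk' h
    exact vtx_inj hO D e (Nat.lt_succ_iff.1 (mem_range.1 hk)) (Nat.lt_succ_iff.1 (mem_range.1 hk')) h
  · refine disjoint_right.2 fun v hv => ?_
    obtain ⟨k, -, rfl⟩ := mem_image.1 hv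
    exact vtx_notMem_HH D e k

lemma key0_sub (hO : Ok r s) (D : Dat r N P Ln) (e : Ed r N P Ln) : key0 D s e ⊆ ed D s e := by
  rcases e with x | y | F
  · refine (image_subset_image fun k hk => ?_).trans subset_union_right
    exact mem_range.2 (Nat.lt_succ_iff.2 (mem_Icc.1 hk).2)
  · refine (image_subset_image fun k hk => ?_).trans subset_union_right
    exact mem_range.2 (Nat.lt_succ_of_lt (mem_range.1 hk))
  · intro v hv
    obtain ⟨z, hz, rfl⟩ := (mem_cvs _ _).1 hv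
    obtain ⟨i, rfl⟩ := (mem_PY _ _).1 hz
    exact (mem_ed_F D F _).2 (Or.inr (Or.inr ⟨i, rfl⟩))

lemma card_cvs_PY (F : FD N Ln) : (cvs (PY r F) : Finset (Vx r s N P Ln)).card = r := by
  rw [cvs, card_image_of_injective _ (fun _ _ h => NV.cv.inj (Vx.nv.inj h)), PY,
    card_image_of_injective _ (pay_inj F), card_univ, Fintype.card_fin]

lemma card_key0 (hO : Ok r s) (D : Dat r N P Ln) (e : Ed r N P Ln) :
    (key0 D s e).card = r := by
  rcases e with x | y | F
  · rw [key0, card_image_of_injOn, Nat.card_Icc]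
    · omega
    · intro k hk k' hk' h
      exact vtx_inj hO D _ (mem_Icc.1 hk).2 (mem_Icc.1 hk').2 h
  · rw [key0, card_image_of_injOn, card_range]
    intro k hk k' hk' h
    exact vtx_inj hO D _ (mem_range.1 hk).le (mem_range.1 hk').le h
  · exact card_cvs_PY F

/-- Outside its key an edge among constants has only hubs and `eta`. -/
lemma ed_Q_key0 (hO : Ok r s) (D : Dat r N P Ln) (x : QE r) {v : Vx r s N P Ln}
    (hv : v ∈ ed D s (eQ x)) : v ∈ key0 D s (eQ x) ∨ v ∈ HH ∨ v = .eta := by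
  rcases mem_union.1 hv with h | h
  · exact Or.inr (Or.inl h)
  · obtain ⟨k, hk, rfl⟩ := mem_image.1 h
    by_cases h0 : k = 0
    · exact Or.inr (Or.inr (by simp only [vtx, if_pos h0]))
    · exact Or.inl (mem_image_of_mem _
        (mem_Icc.2 ⟨by omega, Nat.lt_succ_iff.1 (mem_range.1 hk)⟩))

/-- Outside its key an owned edge has only vertices of `CC`. -/
lemma ed_O_key0 (hO : Ok r s) (D : Dat r N P Ln) (w : NV r N P Ln) (t : Fin (al r))
    {v : Vx r s N P Ln} (hv : v ∈ ed D s (eO w t)) : v ∈ key0 D s (eO w t) ∨ v ∈ CC := by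
  rcases mem_union.1 hv with h | h
  · exact Or.inr (mem_union_left _ h)
  · obtain ⟨k, hk, rfl⟩ := mem_image.1 h
    have hr := hO.hr
    by_cases h0 : k < r
    · exact Or.inl (mem_image_of_mem _ (mem_range.2 h0))
    · rcases vtx_O_WA2 (s := s) D w t (k := k) (by omega) with ⟨h1, -⟩ | h1
      · omega
      · exact Or.inr (h1 ▸ cc_mem_CC_WA2 _ _ _)

lemma mem_key0_O (hO : Ok r s) (D : Dat r N P Ln) (w : NV r N P Ln) (t : Fin (al r)) :
    Vx.nv w ∈ key0 D s (eO w t) ∧ (∀ π, par D.I w t = some π → Vx.nv π ∈ key0 D s (eO w t)) ∧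
      ∀ v ∈ key0 D s (eO w t), v = .nv w ∨ (∃ π, par D.I w t = some π ∧ v = .nv π) ∨ v ∈ CC := by
  have hr := hO.hr
  refine ⟨mem_image.2 ⟨0, mem_range.2 (by omega), by simp [vtx]⟩,
    fun π h => mem_image.2 ⟨1, mem_range.2 (by omega), by simp [vtx, h]⟩, fun v hv => ?_⟩
  obtain ⟨k, -, rfl⟩ := mem_image.1 hv
  by_cases h0 : k = 0
  · exact Or.inl (by simp only [vtx, if_pos h0])
  · rcases vtx_O_WA2 (s := s) D w t h0 with ⟨-, h1⟩ | h1
    · exact Or.inr (Or.inl h1)
    · exact Or.inr (Or.inr (h1 ▸ cc_mem_CC_WA2 _ _ _))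

lemma ed_Q_sub (hO : Ok r s) (D : Dat r N P Ln) (x : QE r) : ed D s (eQ x) ⊆ CC := by
  intro v hv
  rcases (mem_ed_Q hO D x v).1 hv with h | rfl | rfl | ⟨-, rfl⟩ | ⟨l, -, -, rfl⟩
  · exact mem_union_left _ h
  · exact (mem_CC _).2 (Or.inr (Or.inl rfl))
  · exact (mem_CC _).2 (Or.inr (Or.inr ⟨_, rfl⟩))
  · exact cc_mem_CC_WA2 _ _ _
  · exact cc_mem_CC_WA2 _ _ _

lemma eta_mem_Q (hO : Ok r s) (D : Dat r N P Ln) (x : QE r) : Vx.eta ∈ ed D s (eQ x) :=
  (mem_ed_Q hO D x _).2 (Or.inr (Or.inl rfl))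

lemma card_CC : (CC : Finset (Vx r s N P Ln)).card =
    s - r - 1 + 1 + (CN : Finset (Vx r s N P Ln)).card := by
  rw [CC, card_union_of_disjoint, card_HH, card_insert_of_notMem (by simp)]
  · omega
  · refine disjoint_left.2 fun v hv h => ?_
    obtain ⟨j, rfl⟩ := (mem_HH _).1 hv
    simp at h

end Pool.Agent.SemiRandom.Fix
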