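import Pool.Agent.P.MP_c53d0e_pr.WA2

set_option autoImplicit false
set_option linter.unusedSectionVars false

namespace Pool.Agent.SemiRandom.Fix

open Finset Und

variable {r s N : ℕ} {P Ln : Type} [NeZero r] [Fintype P] [DecidableEq P] [Fintype Ln]
  [DecidableEq Ln]

lemma dnQ_WA4 {x : QE r} {v : Vx r s N P Ln} (h : dn (eQ x : Ed r N P Ln) v ≠ 0) :
    v = .c x.1.1 ∨ (qbin x ∧ v = qpar x) := by
  simp only [dn] at h
  split_ifs at h with h1 h2 h3 h4
  exacts [.inl h2, .inr ⟨h1, h3⟩, (h rfl).elim, .inl h4, (h rfl).elim]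

lemma dn_Q {x : QE r} {v : Vx r s N P Ln} (h : dn (eQ x : Ed r N P Ln) v ≠ 0) : v ∈ CN := by
  rcases dnQ_WA4 h with rfl | ⟨-, rfl⟩
  exacts [(mem_CN _).2 ⟨_, rfl⟩, cc_mem_CN _ _ _]

lemma dn_O {w : NV r N P Ln} {t : Fin (al r)} {v : Vx r s N P Ln} (h : dn (eO w t) v ≠ 0) :
    v = .nv w ∨ ∃ τ, ptk w t = some τ ∧ v = .nv τ := by
  simp only [dn] at h
  cases k : ptk w t with
  | none =>
    simp only [k, Option.elim] at h
    split_ifs at h with h1
    exacts [.inl h1, (h rfl).elim]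
  | some τ =>
    simp only [k, Option.elim] at h
    split_ifs at h with h1 h2
    exacts [.inl h1, .inr ⟨τ, rfl, h2⟩, (h rfl).elim]

lemma dn_F {F : FD N Ln} {v : Vx r s N P Ln} (h : dn (eF F : Ed r N P Ln) v ≠ 0) :
    ∃ i, v = .nv (.cv (pay F i)) := by
  by_contra k
  exact h (sum_eq_zero fun i _ => if_neg fun e => k ⟨i, e⟩)

lemma dn_notQ {e : Ed r N P Ln} (he : ¬ IsQ e) {v : Vx r s N P Ln} (h : dn e v ≠ 0) :
    ∃ w, v = .nv w := by
  rcases e with x | ⟨w, t⟩ | F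
  · exact (he trivial).elim
  · rcases dn_O h with k | ⟨τ, -, k⟩
    exacts [⟨_, k⟩, ⟨_, k⟩]
  · obtain ⟨i, k⟩ := dn_F h
    exact ⟨_, k⟩

lemma dn_key0 (hO : Ok r s) (D : Dat r N P Ln) {e : Ed r N P Ln} {v : Vx r s N P Ln}
    (h : dn e v ≠ 0) : v ∈ key0 D s e := by
  have hr := hO.hr
  rcases e with x | ⟨w, t⟩ | F
  · rcases dnQ_WA4 h with rfl | ⟨k, rfl⟩
    · exact mem_image.2 ⟨1, mem_Icc.2 ⟨le_rfl, by omega⟩, by simp [vtx]⟩
    · exact mem_image.2 ⟨2, mem_Icc.2 ⟨by omega, hr⟩, by simp [vtx, k]⟩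
  · rcases dn_O h with rfl | ⟨τ, k, rfl⟩
    · exact (mem_key0_O hO D w t).1
    · exact (mem_key0_O hO D w t).2.1 τ (par_of_ptk D.I k).1
  · obtain ⟨i, rfl⟩ := dn_F h
    exact (mem_cvs _ _).2 ⟨_, (mem_PY _ _).2 ⟨i, rfl⟩, rfl⟩

lemma sum_lv (hO : Ok r s) (F : FD N Ln) :
    ∑ i : Fin r, lv F i + (if F = .E (Fin.last N) then 4 else 0) = 8 * r := by
  have _ := hO
  cases F with
  | L e => simp [lv, mul_comm]
  | D j => simp [lv, mul_comm]
  | E j =>
    by_cases hj : j = Fin.last N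
    · subst hj
      have : ∑ i : Fin r, (lv (.E (Fin.last N) : FD N Ln) i + if i = 0 then 4 else 0) =
          ∑ _i : Fin r, 8 := sum_congr rfl fun i _ => by
        by_cases hi : i = 0 <;> simp [lv, hi]
      simpa [sum_add_distrib, mul_comm] using this
    · have : (j : ℕ) ≠ N := fun e => hj (Fin.ext e)
      simp [lv, hj, this, mul_comm]

lemma two_WA4 {X : Type} [Fintype X] [DecidableEq X] {a b : X} (h : a ≠ b) (m n : ℕ) :
    ∑ v, (if v = a then m else if v = b then n else 0) = m + n := by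
  have : ∀ v, (if v = a then m else if v = b then n else 0) =
      (if v = a then m else 0) + if v = b then n else 0 := fun v => by
    split_ifs with h1 h2
    exacts [(h (h1.symm.trans h2)).elim, rfl, (zero_add _).symm, rfl]
  simp [this, sum_add_distrib]

lemma dn_sum (hO : Ok r s) (e : Ed r N P Ln) :
    ∑ v : Vx r s N P Ln, dn e v + (if e = eF (.E (Fin.last N)) then 4 else 0) = 8 * r := by
  have hp := pm_succ hO
  rcases e with x | ⟨w, t⟩ | F
  · rw [if_neg (by simp), add_zero]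
    by_cases k : qbin x
    · simp only [dn, if_pos k]
      rw [two_WA4, hp]
      rw [c_eq_cc, qpar, Ne, cc_inj hO (Nat.lt_succ_iff.1 (Fin.is_lt _))
        (Nat.lt_succ_iff.1 (Fin.is_lt _)) (hp ▸ Fin.is_lt _) (by have := k.2; omega)]
      have := k.1
      omega
    · simp [dn, if_neg k]
  · rw [if_neg (by simp), add_zero]
    cases k : ptk w t with
    | none => simp [dn, k]
    | some τ =>
      obtain ⟨z, i, rfl, rfl, -⟩ := ptk_cases k
      simp only [dn, k, Option.elim]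
      rw [two_WA4 (by simp), hp]
  · simp only [dn]
    rw [sum_comm, ← sum_lv hO F]
    simp

lemma dn_sum_le (hO : Ok r s) (e : Ed r N P Ln) (U : Finset (Vx r s N P Ln)) :
    ∑ v ∈ U, dn e v ≤ 8 * r :=
  (sum_le_sum_of_subset (subset_univ U)).trans (dn_sum hO e ▸ Nat.le_add_right _ _)

lemma dn_F_pay (F : FD N Ln) (i : Fin r) :
    dn (eF F : Ed r N P Ln) (.nv (.cv (pay F i)) : Vx r s N P Ln) = lv F i := by
  simp [dn, (pay_inj F).eq_iff]

lemma dn_F_UU (F : FD N Ln) (X : Finset (Cp r N Ln)) (A : Finset P) :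
    ∑ v ∈ (UU X A : Finset (Vx r s N P Ln)), dn (eF F : Ed r N P Ln) v =
      ∑ i : Fin r, if pay F i ∈ X then lv F i else 0 := by
  simp only [dn]
  rw [sum_comm]
  simp only [sum_ite_eq', cv_mem_UU]

/-- A missing payer leaves a gap of eight units. -/
lemma gap_F (hO : Ok r s) (F : FD N Ln) (X : Finset (Cp r N Ln)) (A : Finset P) {i : Fin r}
    (hi : pay F i ∉ X) :
    ∑ v ∈ (UU X A : Finset (Vx r s N P Ln)), dn (eF F : Ed r N P Ln) v + 8 ≤ 8 * r := by
  have _ := hO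
  have : ∑ j : Fin r, ((if pay F j ∈ X then lv F j else 0) + if j = i then 8 else 0) ≤
      ∑ _j : Fin r, 8 := sum_le_sum fun j _ => by
    have : lv F j ≤ 8 := by
      cases F <;> simp only [lv, le_refl]
      split_ifs <;> omega
    by_cases hj : j = i
    · simp [hj, hi]
    · rw [if_neg hj]
      split_ifs <;> omega
  rw [dn_F_UU]
  simpa [sum_add_distrib, mul_comm] using this

/-- Edges in which a vertex of `UU X A` has a duty. -/
lemma dn_UU {X : Finset (Cp r N Ln)} {A : Finset P} {e : Ed r N P Ln} {v : Vx r s N P Ln}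
    (hv : v ∈ UU X A) (h : dn e v ≠ 0) :
    (∃ w t, e = eO w t ∧ (Vx.nv w : Vx r s N P Ln) ∈ UU X A) ∨
      ∃ F i, e = eF F ∧ pay F i ∈ X := by
  rcases e with x | ⟨w, t⟩ | F
  · obtain ⟨y, rfl⟩ := (mem_CN _).1 (dn_Q h)
    simp [mem_UU] at hv
  · refine .inl ⟨w, t, rfl, ?_⟩
    rcases dn_O h with rfl | ⟨τ, k, rfl⟩
    · exact hv
    · obtain ⟨z, i, rfl, rfl, -⟩ := ptk_cases k
      exact (cv_mem_UU _ _ _).2 ((tk_mem_UU _ _ _ _).1 hv).1
  · obtain ⟨i, rfl⟩ := dn_F h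
    exact .inr ⟨F, i, rfl, (cv_mem_UU _ _ _).1 hv⟩

lemma ed_O_sub (hO : Ok r s) (D : Dat r N P Ln) {X : Finset (Cp r N Ln)} {A B : Finset P}
    (hX : ∀ z ∈ X, ∀ p ∈ rpar D.I z, p ∈ A ∨ p ∈ B) {w : NV r N P Ln}
    (hw : (Vx.nv w : Vx r s N P Ln) ∈ UU X A) (t : Fin (al r)) :
    ed D s (eO w t) ⊆ CC ∪ pts B ∪ UU X A := by
  intro v hv
  rw [mem_union, mem_union]
  rcases (mem_ed_O hO D w t v).1 hv with k | rfl | ⟨π, k, rfl⟩ | ⟨l, -, -, rfl⟩
  · exact .inl (.inl (mem_union_left _ k))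
  · exact .inr hw
  · rcases par_cases k with k | ⟨p, k', rfl⟩
    · obtain ⟨z, i, rfl, rfl, h1, h2⟩ := ptk_cases k
      exact .inr ((tk_mem_UU _ _ _ _).2 ⟨(cv_mem_UU _ _ _).1 hw, h1 ▸ h2⟩)
    · obtain ⟨-, -, z, rfl, h1⟩ := ppt_cases k'
      rcases hX z ((cv_mem_UU _ _ _).1 hw) p h1 with h2 | h2
      · exact .inr ((pt_mem_UU _ _ _).2 h2)
      · exact .inl (.inr ((mem_pts _ _).2 ⟨p, h2, rfl⟩))
  · exact .inl (.inl (mem_union_right _ (mem_insert_of_mem (cc_mem_CN _ _ _))))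

lemma stF_pay (F : FD N Ln) (i : Fin r) : stF (pay F i).1 = stF F := by
  cases F <;> simp only [pay]
  split_ifs <;> rfl

lemma stF_Blk {j : Fin (N + 1)} {z : Cp r N Ln} (h : z ∈ Blk r j) : stF z.1 = 3 + j := by
  rcases (mem_Blk j z).1 h with k | ⟨j', rfl, k⟩ <;> obtain ⟨i, rfl⟩ := (mem_PY _ _).1 k <;>
    exact stF_pay _ i

lemma stN_tgt (D : Dat r N P Ln) (F : FD N Ln) : stN (tgtv D F) < stF F := by
  cases F with
  | L e => exact one_lt_two
  | D j => exact (by omega : 2 < 3 + (j : ℕ))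
  | E j =>
    cases j using Fin.cases with
    | zero => exact (by omega : 1 < 3)
    | succ j => exact (by omega : 3 + (j : ℕ) < 3 + (j + 1))

lemma stV_le (hO : Ok r s) (D : Dat r N P Ln) {e : Ed r N P Ln} {v : Vx r s N P Ln}
    (hv : v ∈ ed D s e) : stV v ≤ stE e := by
  rcases e with x | ⟨w, t⟩ | F
  · rcases (mem_CC v).1 (ed_Q_sub hO D x hv) with ⟨j, rfl⟩ | rfl | ⟨y, rfl⟩ <;> exact le_rfl
  · rcases (mem_ed_O hO D w t v).1 hv with k | rfl | ⟨π, k, rfl⟩ | ⟨l, -, -, rfl⟩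
    · obtain ⟨j, rfl⟩ := (mem_HH v).1 k
      exact Nat.zero_le _
    · exact le_rfl
    · rcases par_cases k with k | ⟨p, k', rfl⟩
      · obtain ⟨z, i, rfl, rfl, -⟩ := ptk_cases k
        exact le_rfl
      · obtain ⟨-, -, ⟨F, i⟩, rfl, -⟩ := ppt_cases k'
        cases F <;> simp only [stV, stE, stN, stF] <;> omega
    · exact Nat.zero_le _
  · rcases (mem_ed_F D F v).1 hv with k | rfl | ⟨i, rfl⟩
    · obtain ⟨j, rfl⟩ := (mem_HH v).1 k
      exact Nat.zero_le _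
    · exact (stN_tgt D F).le
    · exact (stF_pay F i).le

lemma stV_dn {e : Ed r N P Ln} {v : Vx r s N P Ln} (h : dn e v ≠ 0) : stV v = stE e := by
  rcases e with x | ⟨w, t⟩ | F
  · obtain ⟨y, rfl⟩ := (mem_CN _).1 (dn_Q h)
    rfl
  · rcases dn_O h with rfl | ⟨τ, k, rfl⟩
    · rfl
    · obtain ⟨z, i, rfl, rfl, -⟩ := ptk_cases k
      rfl
  · obtain ⟨i, rfl⟩ := dn_F h
    exact stF_pay F i

lemma stE_le (e : Ed r N P Ln) : stE e ≤ N + 3 := by
  have k : ∀ F : FD N Ln, stF F ≤ N + 3 := fun F => by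
    cases F <;> simp only [stF] <;> omega
  rcases e with x | ⟨w, t⟩ | F
  · exact Nat.zero_le _
  · cases w
    exacts [(by omega : 1 ≤ N + 3), k _, k _]
  · exact k F

lemma stF_last {F : FD N Ln} : stF F = N + 3 ↔ F = .E (Fin.last N) := by
  cases F <;> simp only [stF, reduceCtorEq, iff_false, FD.E.injEq, Fin.ext_iff, Fin.val_last] <;>
    omega

end Pool.Agent.SemiRandom.Fix
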