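import Pool.Agent.P.MP_c53d0e_pr.WA4

set_option autoImplicit false
set_option linter.unusedSectionVars false

namespace Pool.Agent.SemiRandom.Fix

open Finset Und

variable {r s N : ℕ} {P Ln : Type} [NeZero r] [Fintype P] [DecidableEq P] [Fintype Ln]
  [DecidableEq Ln]

lemma sumQ_WA5 (f : Ed r N P Ln → ℕ) (h : ∀ e, ¬ IsQ e → f e = 0) :
    ∑ e, f e = ∑ y : QE r, f (eQ y) := by
  rw [Fintype.sum_sum_type, sum_eq_zero (s := univ) fun e _ => h (Sum.inr e) id, add_zero]

lemma dn_c_WA5 {e : Ed r N P Ln} (he : ¬ IsQ e) (x : Cn r) : dn e (.c x : Vx r s N P Ln) = 0 := by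
  by_contra h
  obtain ⟨w, hw⟩ := dn_notQ he h
  cases hw

lemma ite_WA5 {m n : ℕ} (h : m ≤ n) (a b : ℕ) :
    ∑ t : Fin n, (if (t : ℕ) < m then a else b) = m * a + (n - m) * b := by
  obtain ⟨k, rfl⟩ := Nat.exists_eq_add_of_le h
  rw [Fin.sum_univ_eq_sum_range fun t => if t < m then a else b, sum_range_add,
    sum_congr rfl fun t ht => if_pos (mem_range.1 ht),
    sum_congr (s₁ := range k) rfl fun t _ => if_neg (by omega)]
  simp

lemma qpar_WA5 (hO : Ok r s) {y : QE r} (hy : qbin y) (x : Cn r) :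
    (.c x : Vx r s N P Ln) = qpar y ↔
      x.1 = y.1.1.1 ∧ (x.2.1 : ℕ) = y.1.1.2.1 ∧ (x.2.2 : ℕ) = y.1.2 + 1 := by
  have h := pm_succ hO
  have h1 := hy.2
  have h2 := x.2.2.2
  rw [c_eq_cc, qpar, cc_inj hO (Nat.lt_succ_iff.1 x.2.1.2) (Nat.lt_succ_iff.1 y.1.1.2.1.2)
    (by omega) (by omega)]

lemma ld_c (hO : Ok r s) (x : Cn r) : ld (.c x : Vx r s N P Ln) = qq r := by
  have h := pm_succ hO
  have hp : pm r ≤ al r := by unfold al; omega
  have h1 : ∀ y : QE r, dn (eQ y : Ed r N P Ln) (.c x : Vx r s N P Ln) =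
      (if y.1.1 = x then (if (x.2.2 : ℕ) = 0 ∧ (y.1.2 : ℕ) < pm r then pm r else 8 * r) else 0) +
        if qbin y ∧ (.c x : Vx r s N P Ln) = qpar y then 1 else 0 := fun y => by
    by_cases e : y.1.1 = x
    · subst e
      by_cases b : qbin y
      · have k : ¬ (.c y.1.1 : Vx r s N P Ln) = qpar y := fun c => by
          have := ((qpar_WA5 hO b _).1 c).2.2
          have := b.1
          omega
        simp only [dn, b, k, if_true, and_false, if_false, add_zero]
        exact (if_pos b).symm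
      · simp only [dn, b, if_true, false_and, if_false, add_zero]
        exact (if_neg b).symm
    · have k : ¬ (.c x : Vx r s N P Ln) = .c y.1.1 := fun c => e (Vx.c.inj c).symm
      by_cases b : qbin y <;> simp only [dn, b, e, k, if_true, if_false, true_and, false_and, zero_add]
  rw [ld, sumQ_WA5 _ fun e he => dn_c_WA5 he x, sum_congr rfl fun y _ => h1 y, sum_add_distrib,
    ← sum_subtype (univ.filter fun z : Cn r × Fin (al r + 1) =>
      (z.2 : ℕ) < al r ∨ (z.1.2.2 : ℕ) = 0) (by simp) fun z => if z.1 = x then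
        (if (x.2.2 : ℕ) = 0 ∧ (z.2 : ℕ) < pm r then pm r else 8 * r) else 0,
    sum_filter, Fintype.sum_prod_type, sum_eq_single x (fun z _ hz => by simp [hz]) (by simp)]
  by_cases j : (x.2.2 : ℕ) = 0
  · rw [sum_eq_zero (s := (univ : Finset (QE r))) fun y _ => if_neg fun c => by
      have := ((qpar_WA5 hO c.1 _).1 c.2).2.2
      omega]
    simp only [j, or_true, if_true, true_and]
    rw [ite_WA5 (by omega), qq, ← h]
    obtain ⟨k, e⟩ := Nat.exists_eq_add_of_le hp
    rw [e, show pm r + k + 1 - pm r = k + 1 by omega]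
    ring
  · have h2 := x.2.2.2
    have h3 : qbin (⟨((x.1, x.2.1, 0), ⟨x.2.2 - 1, by omega⟩), Or.inr rfl⟩ : QE r) :=
      ⟨rfl, show (x.2.2 : ℕ) - 1 < pm r by omega⟩
    rw [sum_eq_single (s := (univ : Finset (QE r))) _ (fun y _ hy => if_neg fun c => hy ?_)
      (by simp), if_pos ⟨h3, (qpar_WA5 hO h3 x).2 ⟨rfl, rfl,
        show (x.2.2 : ℕ) = x.2.2 - 1 + 1 by omega⟩⟩]
    · simp only [j, or_false, if_true, false_and, if_false]
      rw [ite_WA5 (by omega), qq]
      simp
    · obtain ⟨c1, c2, c3⟩ := (qpar_WA5 hO c.1 _).1 c.2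
      exact Subtype.ext (Prod.ext (Prod.ext c1.symm (Prod.ext (Fin.ext c2.symm) (Fin.ext c.1.1)))
        (Fin.ext (show (y.1.2 : ℕ) = x.2.2 - 1 by omega)))

lemma ld_hub (j : Fin (s - r - 1)) : ld (.hub j : Vx r s N P Ln) = 0 := by
  refine sum_eq_zero fun e _ => by_contra fun h => ?_
  by_cases he : IsQ e
  · rcases e with x | e
    · simpa using dn_Q h
    · exact he
  · obtain ⟨w, hw⟩ := dn_notQ he h
    cases hw

lemma ld_eta : ld (.eta : Vx r s N P Ln) = 0 := by
  refine sum_eq_zero fun e _ => by_contra fun h => ?_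
  by_cases he : IsQ e
  · rcases e with x | e
    · simpa using dn_Q h
    · exact he
  · obtain ⟨w, hw⟩ := dn_notQ he h
    cases hw

/-- The duties of the constants add up to the cost of the edges among them. -/
lemma card_QE (hO : Ok r s) :
    Fintype.card (QE r) * (8 * r) = (CN : Finset (Vx r s N P Ln)).card * qq r := by
  have h1 : ∑ v ∈ (CN : Finset (Vx r s N P Ln)), ld v = _ := sum_const_nat fun v hv => by
    obtain ⟨x, rfl⟩ := (mem_CN v).1 hv
    exact ld_c hO x
  rw [← h1]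
  simp only [ld]
  rw [sum_comm, sumQ_WA5 _ fun e he => sum_eq_zero fun v hv => ?_]
  · refine (sum_const_nat fun y _ => ?_).symm
    have h2 := dn_sum (P := P) (Ln := Ln) (N := N) hO (eQ y)
    rw [if_neg (by simp), add_zero] at h2
    rw [← h2]
    exact sum_subset (subset_univ _) fun v _ hv => by_contra fun c => hv (dn_Q c)
  · obtain ⟨x, rfl⟩ := (mem_CN v).1 hv
    exact dn_c_WA5 he x

end Pool.Agent.SemiRandom.Fix
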