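import Pool.Agent.P.MP_c53d0e_pr.WA5

set_option autoImplicit false
set_option linter.unusedSectionVars false

namespace Pool.Agent.SemiRandom.Fix

open Finset Und

variable {r s N : ℕ} {P Ln : Type} [NeZero r] [Fintype P] [DecidableEq P] [Fintype Ln]
  [DecidableEq Ln]

lemma dnQ_WA6 (x : QE r) (w : NV r N P Ln) :
    dn (eQ x : Ed r N P Ln) (.nv w : Vx r s N P Ln) = 0 := by
  by_contra h
  have := dn_Q h
  simp at this

lemma dnO_WA6 (v w : NV r N P Ln) (t : Fin (al r)) :
    dn (eO v t : Ed r N P Ln) (.nv w : Vx r s N P Ln) =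
      (if v = w then (if (ptk v t).isSome then pm r else 8 * r) else 0) +
        (if ptk v t = some w then 1 else 0) := by
  show (ptk v t).elim (if (Vx.nv w : Vx r s N P Ln) = .nv v then 8 * r else 0)
      (fun τ => if (Vx.nv w : Vx r s N P Ln) = .nv v then pm r
        else if (Vx.nv w : Vx r s N P Ln) = .nv τ then 1 else 0) = _
  cases h : ptk v t with
  | none =>
    by_cases hv : v = w
    · subst hv; simp
    · have : w ≠ v := fun h => hv h.symm
      simp [hv, this]
  | some τ =>
    obtain ⟨z, i, h1, h2, -, -⟩ := ptk_cases h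
    have hne : τ ≠ v := by rw [h1, h2]; simp
    by_cases hv : v = w
    · subst hv; simp [hne]
    · have : w ≠ v := fun h => hv h.symm
      by_cases hτ : τ = w
      · subst hτ; simp [hv, this]
      · have h3 : w ≠ τ := fun h => hτ h.symm
        simp [hv, hτ, this, h3]

lemma pay_snd_WA6 (F : FD N Ln) (i : Fin r) : (pay F i).2 = i := by
  cases F <;> simp only [pay]
  split_ifs <;> rfl

lemma dnF_WA6 (F : FD N Ln) (z : Cp r N Ln) :
    dn (eF F : Ed r N P Ln) (.nv (.cv z) : Vx r s N P Ln) =
      if z = pay F z.2 then lv F z.2 else 0 := by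
  show (∑ i : Fin r, if (Vx.nv (.cv z) : Vx r s N P Ln) = .nv (.cv (pay F i)) then lv F i else 0)
    = _
  rw [Finset.sum_eq_single z.2]
  · simp
  · intro i _ hi
    rw [if_neg]
    intro h
    simp only [Vx.nv.injEq, NV.cv.injEq] at h
    apply hi
    rw [h, pay_snd_WA6]
  · simp

lemma ld_nv_WA6 (w : NV r N P Ln) :
    ld (.nv w : Vx r s N P Ln) =
      ∑ t : Fin (al r), (if (ptk w t).isSome then pm r else 8 * r) +
        ∑ y : NV r N P Ln × Fin (al r), (if ptk y.1 y.2 = some w then 1 else 0) +
        ∑ F : FD N Ln, dn (eF F : Ed r N P Ln) (.nv w : Vx r s N P Ln) := by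
  unfold ld
  rw [Fintype.sum_sum_type, Fintype.sum_sum_type]
  have h1 : ∑ x : QE r, dn (Sum.inl x : Ed r N P Ln) (.nv w : Vx r s N P Ln) = 0 :=
    Finset.sum_eq_zero fun x _ => dnQ_WA6 x w
  have h2 : ∑ y : NV r N P Ln × Fin (al r),
      dn (Sum.inr (Sum.inl y) : Ed r N P Ln) (.nv w : Vx r s N P Ln) =
      ∑ t : Fin (al r), (if (ptk w t).isSome then pm r else 8 * r) +
        ∑ y : NV r N P Ln × Fin (al r), (if ptk y.1 y.2 = some w then 1 else 0) := by
    have : ∀ y : NV r N P Ln × Fin (al r),
        dn (Sum.inr (Sum.inl y) : Ed r N P Ln) (.nv w : Vx r s N P Ln) =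
        (if y.1 = w then (if (ptk y.1 y.2).isSome then pm r else 8 * r) else 0) +
        (if ptk y.1 y.2 = some w then 1 else 0) := fun y => dnO_WA6 y.1 w y.2
    simp only [this, Finset.sum_add_distrib]
    congr 1
    rw [Fintype.sum_prod_type, Finset.sum_eq_single w]
    · simp
    · intro v _ hv
      simp [hv]
    · simp
  rw [h1, h2, zero_add]

lemma own_none_WA6 (w : NV r N P Ln) (h : ∀ t, ptk w t = none) :
    ∑ t : Fin (al r), (if (ptk w t).isSome then pm r else 8 * r) = al r * (8 * r) := by
  simp [h]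

lemma par_zero_WA6 (w : NV r N P Ln) (h : ∀ z i, w ≠ .tk z i) :
    ∑ y : NV r N P Ln × Fin (al r), (if ptk y.1 y.2 = some w then 1 else 0) = 0 := by
  refine Finset.sum_eq_zero fun y _ => ?_
  rw [if_neg]
  intro h'
  obtain ⟨z, i, -, h2, -, -⟩ := ptk_cases h'
  exact h z i h2

lemma F_zero_WA6 (w : NV r N P Ln) (h : ∀ z, w ≠ .cv z) :
    ∑ F : FD N Ln, dn (eF F : Ed r N P Ln) (.nv w : Vx r s N P Ln) = 0 := by
  refine Finset.sum_eq_zero fun F _ => ?_
  by_contra h'
  obtain ⟨i, hi⟩ := dn_F h'
  simp only [Vx.nv.injEq] at hi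
  exact h _ hi

lemma al_big_WA6 : 30 ≤ al r := by
  unfold al; omega

lemma own_cv_WA6 (hO : Ok r s) (z : Cp r N Ln) :
    ∑ t : Fin (al r), (if (ptk (.cv z : NV r N P Ln) t).isSome then pm r else 8 * r) + npriv z =
      al r * (8 * r) := by
  have h1 : ∀ t : ℕ, (if (ptk (.cv z : NV r N P Ln) t).isSome then pm r else 8 * r) =
      if t < npriv z then pm r else 8 * r := by
    intro t
    by_cases ht : t < npriv z <;> simp [ptk, ht]
  simp only [h1]
  have h2 : ∑ t : Fin (al r), (if (t : ℕ) < npriv z then 1 else 0) = npriv z := by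
    rw [Fin.sum_univ_eq_sum_range (fun t => if t < npriv z then 1 else 0)]
    rw [← Finset.card_filter]
    have : (range (al r)).filter (fun t => t < npriv z) = range (npriv z) := by
      ext t
      have := npriv_le z
      have := al_big_WA6 (r := r)
      simp only [mem_filter, mem_range]
      omega
    rw [this, card_range]
  have h3 := pm_succ hO
  calc _ = ∑ t : Fin (al r), ((if (t : ℕ) < npriv z then pm r else 8 * r) +
        (if (t : ℕ) < npriv z then 1 else 0)) := by rw [Finset.sum_add_distrib, h2]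
    _ = ∑ _t : Fin (al r), 8 * r := by
        refine Finset.sum_congr rfl fun t _ => ?_
        split_ifs <;> omega
    _ = _ := by simp

lemma F_cv_WA6 (z : Cp r N Ln) :
    (∑ F : FD N Ln, if z = pay F z.2 then lv F z.2 else 0) =
      if (∃ j, z.1 = .D j) ∧ (z.2 : ℕ) = 0 then 0 else npriv z + 1 := by
  obtain ⟨F0, i⟩ := z
  cases F0 with
  | L e =>
    rw [Finset.sum_eq_single (FD.L e)]
    · simp [pay, lv, npriv]
    · intro F _ hF
      rw [if_neg]
      intro h
      cases F with
      | L e' => simp only [pay, Prod.mk.injEq, and_true] at h; exact hF h.symm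
      | D j => simp only [pay] at h; split_ifs at h <;> simp at h
      | E j => simp [pay] at h
    · simp
  | D j =>
    by_cases hi : (i : ℕ) = 0
    · rw [if_pos ⟨⟨j, rfl⟩, hi⟩]
      refine Finset.sum_eq_zero fun F _ => ?_
      rw [if_neg]
      intro h
      cases F <;> simp [pay, hi] at h
    · rw [Finset.sum_eq_single (FD.D j)]
      · simp [pay, lv, npriv, hi]
      · intro F _ hF
        rw [if_neg]
        intro h
        cases F with
        | L e' => simp [pay] at h
        | D j' =>
          simp only [pay, hi, if_false, Prod.mk.injEq, and_true] at h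
          exact hF h.symm
        | E j => simp [pay] at h
      · simp
  | E j =>
    rw [if_neg (by simp)]
    by_cases hi : (i : ℕ) = 0 ∧ (j : ℕ) < N
    · obtain ⟨hi, hj⟩ := hi
      rw [Finset.sum_eq_add (FD.E j) (FD.D ⟨j, hj⟩) (by simp)]
      · have e1 : (⟨j, hj⟩ : Fin N).castSucc = j := rfl
        have hj' : (j : ℕ) ≠ N := by omega
        simp only [pay, lv, npriv, hi, e1, hj', if_true, false_and, if_false]
      · intro F _ hF
        rw [if_neg]
        intro h
        cases F with
        | L e' => simp [pay] at h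
        | D j' =>
          simp only [pay, hi, if_true, Prod.mk.injEq, and_true, FD.E.injEq] at h
          apply hF.2
          subst h
          rfl
        | E j' =>
          simp only [pay, Prod.mk.injEq, and_true] at h
          exact hF.1 h.symm
      · simp
      · simp
    · rw [Finset.sum_eq_single (FD.E j)]
      · have := j.2
        simp only [pay, lv, npriv, if_true]
        split_ifs <;> omega
      · intro F _ hF
        rw [if_neg]
        intro h
        cases F with
        | L e' => simp [pay] at h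
        | D j' =>
          simp only [pay] at h
          split_ifs at h with h0
          · simp only [Prod.mk.injEq, and_true, FD.E.injEq] at h
            apply hi
            refine ⟨h0, ?_⟩
            rw [h]
            exact j'.2
          · simp at h
        | E j' =>
          simp only [pay, Prod.mk.injEq, and_true] at h
          exact hF h.symm
      · simp

lemma ld_cv_WA6 (hO : Ok r s) (z : Cp r N Ln) :
    ld (.nv (.cv z) : Vx r s N P Ln) + npriv z = al r * (8 * r) +
      if (∃ j, z.1 = .D j) ∧ (z.2 : ℕ) = 0 then 0 else npriv z + 1 := by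
  rw [ld_nv_WA6, par_zero_WA6 _ (by simp)]
  simp only [dnF_WA6]
  rw [F_cv_WA6]
  have := own_cv_WA6 (P := P) hO z
  omega

lemma ld_pt (hO : Ok r s) (p : P) : ld (.nv (.pt p) : Vx r s N P Ln) + 1 = qq r := by
  have _ := hO
  rw [ld_nv_WA6, own_none_WA6 _ (fun _ => rfl), par_zero_WA6 _ (by simp), F_zero_WA6 _ (by simp)]
  rfl

lemma ld_tk (hO : Ok r s) (z : Cp r N Ln) (i : Fin 15) :
    ld (.nv (.tk z i) : Vx r s N P Ln) + (if (i : ℕ) < npriv z then 0 else 1) = qq r := by
  have _ := hO
  rw [ld_nv_WA6, own_none_WA6 _ (fun _ => rfl), F_zero_WA6 _ (by simp)]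
  have hi : (i : ℕ) < al r := by
    have := al_big_WA6 (r := r)
    have := i.2
    omega
  rw [Finset.sum_eq_single ((.cv z : NV r N P Ln), (⟨i, hi⟩ : Fin (al r)))]
  · have e : Fin.ofNat 15 (i : ℕ) = i := by
      ext; simp
    unfold qq
    by_cases h : (i : ℕ) < npriv z
    · simp only [ptk, h, if_true, e]
    · simp [ptk, h]
  · intro y _ hy
    rw [if_neg]
    intro h
    obtain ⟨z', i', h1, h2, h3, -⟩ := ptk_cases h
    simp only [NV.tk.injEq] at h2
    obtain ⟨rfl, rfl⟩ := h2
    apply hy
    exact Prod.ext h1 (Fin.ext h3.symm)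
  · simp

lemma ld_cv (hO : Ok r s) {z : Cp r N Ln} (hz : IsPay z) :
    ld (.nv (.cv z) : Vx r s N P Ln) = qq r := by
  have h := ld_cv_WA6 (P := P) hO z
  rw [if_neg] at h
  · unfold qq; omega
  · rintro ⟨⟨j, hj⟩, h0⟩
    obtain ⟨F, i, rfl⟩ := hz
    rw [pay_snd_WA6] at h0
    cases F <;> simp [pay, h0] at hj

lemma ld_le (hO : Ok r s) (v : Vx r s N P Ln) : ld v ≤ qq r := by
  cases v with
  | hub j => rw [ld_hub]; exact Nat.zero_le _
  | eta => rw [ld_eta]; exact Nat.zero_le _
  | c x => exact (ld_c hO x).le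
  | nv w =>
    cases w with
    | pt p => have := ld_pt (N := N) (Ln := Ln) hO p; omega
    | cv z =>
      have h := ld_cv_WA6 (P := P) hO z
      unfold qq
      split_ifs at h <;> omega
    | tk z i => have := ld_tk (P := P) hO z i; omega

/-- Only the points have spare capacity. -/
lemma spare_UU (hO : Ok r s) {X : Finset (Cp r N Ln)} (hX : ∀ z ∈ X, IsPay z) (A : Finset P) :
    ∑ v ∈ (UU X A : Finset (Vx r s N P Ln)), (qq r - ld v) = A.card := by
  have hsub : (pts A : Finset (Vx r s N P Ln)) ⊆ UU X A := by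
    intro v hv
    rw [mem_UU]
    exact Or.inl ((mem_pts A v).1 hv)
  rw [← Finset.sum_subset hsub]
  · unfold pts
    rw [Finset.sum_image (by intro a _ b _ h; simpa using h), Finset.card_eq_sum_ones]
    refine Finset.sum_congr rfl fun p _ => ?_
    have := ld_pt (N := N) (Ln := Ln) hO p
    omega
  · intro v hv hn
    rcases (mem_UU X A v).1 hv with h | ⟨z, hz, rfl⟩ | ⟨z, -, i, hi, rfl⟩
    · exact absurd ((mem_pts A v).2 h) hn
    · rw [ld_cv hO (hX z hz)]; omega
    · have := ld_tk (P := P) hO z i
      rw [if_pos hi] at this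
      omega

end Pool.Agent.SemiRandom.Fix
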