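import Pool.Agent.P.MP_c53d0e_pr.W0
import Pool.Agent.P.MP_c53d0e_pr.UC0

set_option autoImplicit false
set_option linter.unusedSectionVars false

namespace Pool.Agent.SemiRandom.Fix

open Finset Und

variable {V E : Type} [Fintype V] [DecidableEq V] [Fintype E] [DecidableEq E] {r : ℕ}
  {ed : E → Finset V} {δ ζ : ℝ}

/-- The edges of a pattern. -/
def pl (l : List (E × Finset V)) : Finset E := (l.map Prod.fst).toFinset

lemma mem_pl {l : List (E × Finset V)} {e : E} : e ∈ pl l ↔ ∃ p ∈ l, p.1 = e := by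
  simp only [pl, List.mem_toFinset, List.mem_map]

@[simp] lemma pl_nil : pl ([] : List (E × Finset V)) = ∅ := rfl

@[simp] lemma pl_cons (p : E × Finset V) (l : List (E × Finset V)) :
    pl (p :: l) = insert p.1 (pl l) := by simp [pl]

@[simp] lemma pl_append (l l' : List (E × Finset V)) : pl (l ++ l') = pl l ∪ pl l' := by
  simp [pl]

lemma pl_mono {l l' : List (E × Finset V)} (h : l <:+ l') : pl l ⊆ pl l' := by
  obtain ⟨t, rfl⟩ := h
  rw [pl_append]
  exact subset_union_right

lemma notMem_pl {p : E × Finset V} {l : List (E × Finset V)} (h : Valid ed r (p :: l)) :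
    p.1 ∉ pl l := fun h' => h.notMem (List.mem_toFinset.1 h')

/-- A complete play without bottleneck. -/
structure Play (ed : E → Finset V) (r : ℕ) (δ ζ : ℝ) where
  ν : List (E × Finset V) → Finset V → Finset V → ℝ
  ps : List (E × Finset V)
  key : E → Finset V
  z0 : 0 < ζ
  zd : ζ ≤ δ
  cal : Calc ed r (δ - ζ) ζ ν
  valid : Valid ed r ps
  full : ∀ e, e ∈ pl ps
  hkey : ∀ p ∈ ps, p.2 = key p.1
  nb : ∀ l W, l <:+ ps → (δ - ζ) * (#{e | e ∉ pl l ∧ key e ⊆ W} : ℕ) - ζ < ν l ∅ W

/-- The error unit. -/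
def er (E : Type) [Fintype E] (ζ : ℝ) : ℝ := ζ * (Fintype.card E + 1)

namespace Play
variable (G : Play ed r δ ζ)

include G in
lemma er_pos : 0 < er E ζ := mul_pos G.z0 (by positivity)

include G in
lemma le_er : ζ ≤ er E ζ := le_mul_of_one_le_right G.z0.le (by
  have : (0 : ℝ) ≤ Fintype.card E := Nat.cast_nonneg _
  linarith)

lemma suf_valid {l : List (E × Finset V)} (h : l <:+ G.ps) : Valid ed r l := by
  obtain ⟨t, ht⟩ := h
  exact Valid.right (qs := t) (ht ▸ G.valid)

lemma mem_ps (e : E) : (e, G.key e) ∈ G.ps := by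
  obtain ⟨p, hp, rfl⟩ := mem_pl.1 (G.full e)
  rw [← G.hkey p hp]
  exact hp

lemma key_sub (e : E) : G.key e ⊆ ed e := (G.valid.2 _ (G.mem_ps e)).1

lemma key_card (e : E) : (G.key e).card = r := (G.valid.2 _ (G.mem_ps e)).2

/-- The time just before the edge `e`. -/
lemma before (e : E) : ∃ l, (e, G.key e) :: l <:+ G.ps ∧ l <:+ G.ps ∧ e ∉ pl l := by
  obtain ⟨t, l, h⟩ := List.append_of_mem (G.mem_ps e)
  have h1 : (e, G.key e) :: l <:+ G.ps := ⟨t, h.symm⟩
  exact ⟨l, h1, (List.suffix_cons _ _).trans h1, notMem_pl (G.suf_valid h1)⟩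

lemma length_le {l : List (E × Finset V)} (h : l <:+ G.ps) : ζ * l.length ≤ er E ζ := by
  have h1 : l.length ≤ Fintype.card E := by
    simpa only [List.length_map] using (G.suf_valid h).1.length_le_card
  have h2 : (l.length : ℝ) ≤ Fintype.card E + 1 := by
    have : (l.length : ℝ) ≤ Fintype.card E := by exact_mod_cast h1
    linarith
  exact mul_le_mul_of_nonneg_left h2 G.z0.le

end Play

/-- The static rule for points `pt p`. -/
def StatG {K : ℕ} {P Ln : Type} [Fintype P] [Fintype Ln] (I : Inst K P Ln) (pt : P → V) (η : ℝ)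
    (ν : List (E × Finset V) → Finset V → Finset V → ℝ) : Prop :=
  ∀ l A (x y : ℝ), 0 ≤ x → 0 ≤ y → (∀ p, ν l A {pt p} ≤ x) →
    (∀ e, ν l (A ∪ univ.image fun i => pt (I.src e i)) {pt (I.tgt e)} ≤ y) →
    ν l A (univ.image pt) ≤ Fintype.card Ln * y + (K - η) * x

end Pool.Agent.SemiRandom.Fix
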