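import Pool.Agent.P.MP_c53d0e_pr.WG0
import Pool.Agent.P.MP_c53d0e_pr.GA

set_option autoImplicit false
set_option linter.unusedSectionVars false

namespace Pool.Agent.SemiRandom.Fix

open Finset Und

variable {V E : Type} [Fintype V] [DecidableEq V] [Fintype E] [DecidableEq E] {r : ℕ}
  {ed : E → Finset V} {δ ζ : ℝ}

namespace Play
variable (G : Play ed r δ ζ)

/-- Generic rank bound. -/
theorem lemG {l : List (E × Finset V)} (hl : l <:+ G.ps) (A W : Finset V) (d : E → V → ℝ)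
    (d0 : ∀ e v, 0 ≤ d e v) (ds : ∀ e v, d e v ≠ 0 → v ∈ ed e) (dt : ∀ e, ∑ v ∈ W, d e v ≤ δ)
    (dk : ∀ e ∈ pl l, ∀ v ∈ W, d e v ≠ 0 → G.key e ⊆ A ∪ W) :
    G.ν l A W ≤ ∑ v ∈ W \ A, max 0 (1 - ∑ e ∈ pl l, d e v) + 2 * er E ζ := by
  have h := G.cal.lemG (D := δ) (ζ := ζ) G.z0.le le_rfl le_rfl d d0
    (fun e v hv => by_contra fun k => hv (ds e v k)) W dt l (G.suf_valid hl) A
    fun p hp ⟨v, hv, k⟩ => by
      rw [G.hkey p (hl.subset hp)]
      exact dk p.1 (mem_pl.2 ⟨p, hp, rfl⟩) v hv k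
  have e : ∀ v, paid d l v = ∑ e ∈ pl l, d e v := fun v => by
    rw [paid_eq_sum d (G.suf_valid hl).1]
    congr 1
    ext e
    simp only [pl, mem_filter, mem_univ, true_and, List.mem_toFinset]
  simp only [e] at h
  linarith [G.length_le hl]

/-- A played edge is determined by its random part. -/
theorem lemFD {l : List (E × Finset V)} (hl : l <:+ G.ps) {e : E} (he : e ∈ pl l) {A B : Finset V}
    (hA : G.key e ⊆ A) (hB : B ⊆ A ∪ ed e) : G.ν l A B ≤ er E ζ := by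
  obtain ⟨p, hp, rfl⟩ := mem_pl.1 he
  refine (G.cal.fd (sub_nonneg.2 G.zd) l (G.suf_valid hl) p hp A B ?_ hB).trans G.le_er
  rwa [G.hkey p (hl.subset hp)]

/-- One vertex and the edges of `Es` through it. -/
theorem lemV {l : List (E × Finset V)} (hl : l <:+ G.ps) (A : Finset V) (v : V) (Es : Finset E)
    (hE : ∀ e ∈ Es, v ∈ ed e ∧ ed e ⊆ insert v A) :
    G.ν l A {v} ≤ max 0 (1 - δ * (Es ∩ pl l).card) + 2 * er E ζ := by
  have d0 : 0 ≤ δ := G.z0.le.trans G.zd
  have h := G.lemG hl A {v} (fun e w => if e ∈ Es ∧ w = v then δ else 0)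
    (fun e w => by split_ifs; exacts [d0, le_rfl])
    (fun e w k => by
      have k' : e ∈ Es ∧ w = v := by_contra fun a => k (if_neg a)
      exact k'.2 ▸ (hE e k'.1).1)
    (fun e => by rw [sum_singleton]; split_ifs; exacts [le_rfl, d0])
    (fun e _ w _ k => by
      have k' : e ∈ Es ∧ w = v := by_contra fun a => k (if_neg a)
      refine (G.key_sub e).trans ((hE e k'.1).2.trans (le_of_eq ?_))
      rw [union_comm, insert_eq])
  refine h.trans (add_le_add ?_ le_rfl)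
  refine (sum_le_sum_of_subset_of_nonneg sdiff_subset fun _ _ _ => le_max_left _ _).trans ?_
  rw [sum_singleton]
  simp only [and_true]
  rw [sum_ite_mem, sum_const, nsmul_eq_mul, inter_comm, mul_comm]

lemma sub2 (l : List (E × Finset V)) (A B B' : Finset V) :
    G.ν l A (B ∪ B') ≤ G.ν l A B + G.ν l A B' := by
  exact (G.cal.chain l A B B').trans (add_le_add le_rfl
    (G.cal.mono l _ A B' B' subset_union_left subset_union_right))

/-- The first edge with property `Q`. -/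
lemma first (Q : E → Prop) {l : List (E × Finset V)} (hl : l <:+ G.ps)
    (h0 : ∀ e ∈ pl l, ¬ Q e) (h1 : ∃ e, Q e) :
    ∃ e l0, Q e ∧ (e, G.key e) :: l0 <:+ G.ps ∧ l <:+ l0 ∧ ∀ e' ∈ pl l0, ¬ Q e' := by
  have key : ∀ t : List (E × Finset V), (∃ p ∈ t, Q p.1) →
      ∃ p l0, Q p.1 ∧ p :: l0 <:+ t ++ l ∧ l <:+ l0 ∧ ∀ e' ∈ pl l0, ¬ Q e' := by
    intro t
    induction t with
    | nil => simp
    | cons a t ih =>
      intro ha
      by_cases ht : ∃ p ∈ t, Q p.1
      · obtain ⟨p, l0, a1, a2, a3⟩ := ih ht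
        exact ⟨p, l0, a1, a2.trans (List.suffix_cons _ _), a3⟩
      · obtain ⟨p, hp, hq⟩ := ha
        rcases List.mem_cons.1 hp with rfl | hp
        · refine ⟨p, t ++ l, hq, List.suffix_rfl, List.suffix_append _ _, fun e' he' k => ?_⟩
          obtain ⟨p', hp', rfl⟩ := mem_pl.1 he'
          rcases List.mem_append.1 hp' with b | b
          exacts [ht ⟨p', b, k⟩, h0 _ (mem_pl.2 ⟨p', b, rfl⟩) k]
        · exact (ht ⟨p, hp, hq⟩).elim
  obtain ⟨t, ht⟩ := hl
  obtain ⟨e, he⟩ := h1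
  have h2 : ∃ p ∈ t, Q p.1 := by
    have a := G.mem_ps e
    rw [← ht] at a
    rcases List.mem_append.1 a with b | b
    exacts [⟨_, b, he⟩, (h0 e (mem_pl.2 ⟨_, b, rfl⟩) he).elim]
  obtain ⟨p, l0, a1, a2, a3⟩ := key t h2
  rw [ht] at a2
  refine ⟨p.1, l0, a1, ?_, a3⟩
  rw [← G.hkey p (a2.subset List.mem_cons_self)]
  exact a2

end Play

end Pool.Agent.SemiRandom.Fix
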