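import Pool.Agent.P.MP_c53d0e_pr.WG1

set_option autoImplicit false
set_option linter.unusedSectionVars false

namespace Pool.Agent.SemiRandom.Fix

open Finset Und

variable {V E : Type} [Fintype V] [DecidableEq V] [Fintype E] [DecidableEq E] {r : ℕ}
  {ed : E → Finset V} {δ ζ : ℝ}

/-- Master inequality: gaps of unplayed edges are at most the spare capacity. -/
theorem Play.master (G : Play ed r δ ζ) {l : List (E × Finset V)} (hl : l <:+ G.ps)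
    (Q : E → Prop) [DecidablePred Q] (C B U K : Finset V) (hQC : ∀ e, Q e → ed e ⊆ C)
    (hQ : G.ν l ∅ C ≤ δ * (#{e | Q e ∧ e ∉ pl l} : ℕ) + 2 * er E ζ)
    {k0 k1 : ℝ} (h0 : G.ν l C B ≤ k0) (h1 : G.ν l (C ∪ B ∪ U) K ≤ k1)
    (d : E → V → ℝ) (d0 : ∀ e v, 0 ≤ d e v) (ds : ∀ e v, d e v ≠ 0 → v ∈ ed e)
    (dt : ∀ e, ∑ v ∈ U, d e v ≤ δ) (dl : ∀ v ∈ U, ∑ e, d e v ≤ 1)
    (dQ : ∀ e, Q e → ∀ v ∈ U, d e v = 0)
    (dk : ∀ e ∈ pl l, ∀ v ∈ U, d e v ≠ 0 → G.key e ⊆ C ∪ B ∪ U)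
    (dk' : ∀ e ∉ pl l, ∀ v ∈ U, d e v ≠ 0 → G.key e ⊆ C ∪ B ∪ U ∪ K)
    (E0 : Finset E) (hE : ∀ e ∈ E0, e ∉ pl l ∧ ¬ Q e ∧ G.key e ⊆ C ∪ B ∪ U ∪ K) :
    ∑ e ∈ E0, (δ - ∑ v ∈ U, d e v) ≤ ∑ v ∈ U, (1 - ∑ e, d e v) + k0 + k1 + 5 * er E ζ := by
  classical
  set D1 : Finset E := univ.filter fun e => e ∉ pl l ∧ ¬ Q e ∧ G.key e ⊆ C ∪ B ∪ U ∪ K with hD1
  have mD : ∀ e, e ∈ D1 ↔ e ∉ pl l ∧ ¬ Q e ∧ G.key e ⊆ C ∪ B ∪ U ∪ K := fun e => by simp [hD1]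
  set D2 : Finset E := univ.filter fun e => Q e ∧ e ∉ pl l with hD2
  have mD2 : ∀ e, e ∈ D2 ↔ Q e ∧ e ∉ pl l := fun e => by simp [hD2]
  have a1 := G.nb l (C ∪ B ∪ U ∪ K) hl
  have a2 : (univ.filter fun e => e ∉ pl l ∧ G.key e ⊆ C ∪ B ∪ U ∪ K) = D2 ∪ D1 := by
    ext e
    rw [mem_union, mD, mD2, mem_filter]
    refine ⟨fun h => ?_, fun h => ⟨mem_univ _, ?_⟩⟩
    · by_cases hq : Q e
      · exact Or.inl ⟨hq, h.2.1⟩
      · exact Or.inr ⟨h.2.1, hq, h.2.2⟩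
    · rcases h with h | h
      · exact ⟨h.2, ((G.key_sub e).trans (hQC e h.1)).trans
          ((subset_union_left.trans subset_union_left).trans subset_union_left)⟩
      · exact ⟨h.1, h.2.2⟩
  have hdis : Disjoint D2 D1 := disjoint_left.2 fun e h h' => ((mD e).1 h').2.1 ((mD2 e).1 h).1
  have a3 : ((D2.card : ℝ) + D1.card) ≤ Fintype.card E := by
    have := card_le_univ (D2 ∪ D1)
    rw [card_union_of_disjoint hdis] at this
    exact_mod_cast this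
  rw [a2, card_union_of_disjoint hdis] at a1
  have c1 := G.cal.chain l ∅ (C ∪ B ∪ U) K
  have c2 := G.cal.chain l ∅ (C ∪ B) U
  have c3 := G.cal.chain l ∅ C B
  rw [empty_union] at c1 c2 c3
  have g1 := G.lemG hl (C ∪ B) U d d0 ds dt dk
  have res : ∀ v ∈ U, max 0 (1 - ∑ e ∈ pl l, d e v) ≤
      (1 - ∑ e, d e v) + ∑ e ∈ (pl l)ᶜ, d e v := fun v hv => by
    have b1 := sum_add_sum_compl (pl l) fun e => d e v
    have b2 : 0 ≤ ∑ e ∈ (pl l)ᶜ, d e v := sum_nonneg fun e _ => d0 e v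
    have b3 := dl v hv
    exact max_le (by linarith) (by linarith)
  have g2 : ∑ v ∈ U \ (C ∪ B), max 0 (1 - ∑ e ∈ pl l, d e v) ≤
      ∑ v ∈ U, (1 - ∑ e, d e v) + ∑ e ∈ D1, ∑ v ∈ U, d e v := by
    refine (sum_le_sum_of_subset_of_nonneg sdiff_subset fun v _ _ => le_max_left _ _).trans ?_
    refine (sum_le_sum res).trans ?_
    rw [sum_add_distrib, sum_comm (s := U) (t := (pl l)ᶜ)]
    refine add_le_add le_rfl (le_of_eq (sum_subset (fun e he => mem_compl.2 ((mD e).1 he).1)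
      fun e he he' => ?_).symm)
    by_contra hn
    obtain ⟨v, hv, h⟩ := exists_ne_zero_of_sum_ne_zero hn
    exact he' ((mD e).2 ⟨mem_compl.1 he, fun hq => h (dQ e hq v hv),
      dk' e (mem_compl.1 he) v hv h⟩)
  have g3 : ∑ e ∈ E0, (δ - ∑ v ∈ U, d e v) ≤ ∑ e ∈ D1, (δ - ∑ v ∈ U, d e v) :=
    sum_le_sum_of_subset_of_nonneg (fun e he => (mD e).2 (hE e he))
      fun e _ _ => sub_nonneg.2 (dt e)
  rw [sum_sub_distrib (s := D1), sum_const, nsmul_eq_mul] at g3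
  have a4 := mul_le_mul_of_nonneg_left a3 G.z0.le
  have a5 : er E ζ = ζ * Fintype.card E + ζ := by rw [er]; ring
  push_cast at a1
  linarith

end Pool.Agent.SemiRandom.Fix
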