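import Pool.Agent.P.MP_c53d0e_pr.WG0
import Pool.Agent.P.MP_c53d0e_pr.GB
import Pool.Agent.P.MP_c53d0e_pr.UD5
import Pool.Agent.P.MP_c53d0e_pr.UD7
import Pool.Agent.P.MP_c53d0e_pr.UDZ

set_option autoImplicit false
set_option linter.unusedSectionVars false

namespace Pool.Agent.SemiRandom.Fix

open Finset Und

open Filter Topology

variable {V E : Type} [Fintype V] [DecidableEq V] [Fintype E] [DecidableEq E] {r s : ℕ}
  {ed : E → Finset V} {K : ℕ} {P Ln : Type} [Fintype P] [DecidableEq P] [Fintype Ln]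
  [DecidableEq Ln]

theorem stat_nuG (I : Inst K P Ln) (pt : P → V) {η : ℝ} (hb : I.Bound η) (hη : η ≤ K) {n : ℕ}
    (hn : 2 ≤ n) (h : List (RSet n r × Move n r s)) : StatG I pt η (nu ed h) := by
  intro l A x y hx hy h1 h2
  have hL : 0 < Real.log n := Real.log_pos (by exact_mod_cast hn)
  have hrη : 0 ≤ (K : ℝ) - η := by linarith
  simp only [nu, div_le_iff₀ hL] at h1 h2 ⊢
  generalize XX ed l h = X at h1 h2 ⊢
  have hw := log_max_UD7 _ (mul_nonneg hx hL.le) h1
  have hμ := log_max_UD7 _ (mul_nonneg hy hL.le) h2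
  have hw1 : ∀ p, cnt X A {pt p} ≤ max 1 (univ.sup fun p => cnt X A {pt p}) := fun p =>
    le_trans (le_sup (f := fun p => cnt X A {pt p}) (mem_univ p)) (le_max_right _ _)
  have hμ1 : ∀ e, cnt X (A ∪ univ.image fun i => pt (I.src e i)) {pt (I.tgt e)} ≤
      max 1 (univ.sup fun e => cnt X (A ∪ univ.image fun i => pt (I.src e i)) {pt (I.tgt e)}) :=
    fun e => le_trans (le_sup (f := fun e =>
      cnt X (A ∪ univ.image fun i => pt (I.src e i)) {pt (I.tgt e)}) (mem_univ e))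
      (le_max_right _ _)
  have hw0 : 1 ≤ max 1 (univ.sup fun p => cnt X A {pt p}) := le_max_left _ _
  have hμ0 : 1 ≤ max 1 (univ.sup fun e =>
      cnt X (A ∪ univ.image fun i => pt (I.src e i)) {pt (I.tgt e)}) := le_max_left _ _
  generalize max 1 (univ.sup fun p => cnt X A {pt p}) = w at hw hw1 hw0
  generalize max 1 (univ.sup fun e =>
    cnt X (A ∪ univ.image fun i => pt (I.src e i)) {pt (I.tgt e)}) = μ at hμ hμ1 hμ0
  rcases cnt_cases X A (univ.image pt) with hc | ⟨ρ, hc⟩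
  · rw [hc, Nat.cast_one, Real.log_one]
    positivity
  have hS := approx_bound I hb ((fib X A ρ).image fun φ p => φ (pt p)) w μ hw0 hμ0
    (fun p => by
      rw [image_image]
      exact (val_le_cnt_UD7 X A ρ (pt p)).trans (hw1 p))
    (fun e x0 hx0 => by
      obtain ⟨φ0, hφ0, rfl⟩ := mem_image.1 hx0
      refine le_trans (card_le_card ?_) ((val_le_cnt_UD7 X
        (A ∪ univ.image fun i => pt (I.src e i)) φ0 (pt (I.tgt e))).trans (hμ1 e))
      intro b hb'
      obtain ⟨x', hx', rfl⟩ := mem_image.1 hb'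
      obtain ⟨hx1, hx2⟩ := mem_filter.1 hx'
      obtain ⟨φ, hφ, rfl⟩ := mem_image.1 hx1
      refine mem_image.2 ⟨φ, mem_fib.2 ⟨(mem_fib.1 hφ).1, fun v hv => ?_⟩, rfl⟩
      rcases mem_union.1 hv with hv | hv
      · rw [(mem_fib.1 hφ).2 v hv, (mem_fib.1 hφ0).2 v hv]
      · obtain ⟨l', -, rfl⟩ := mem_image.1 hv
        exact hx2 l')
  have hle : cnt X A (univ.image pt) ≤ ((fib X A ρ).image fun φ p => φ (pt p)).card := by
    rw [hc]
    refine card_image_le_UD7 _ _ _ fun a _ b _ hab => res_eq_iff.2 fun v hv => ?_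
    obtain ⟨p, -, rfl⟩ := mem_image.1 hv
    exact congrFun hab p
  have hpos : (0 : ℝ) < cnt X A (univ.image pt) := by exact_mod_cast one_le_cnt X A _
  have hwp : (0 : ℝ) < w := by exact_mod_cast hw0
  have hμp : (0 : ℝ) < μ := by exact_mod_cast hμ0
  have key := Real.log_le_log hpos (le_trans (by exact_mod_cast hle) hS)
  rw [Real.log_mul (by positivity) (by positivity), Real.log_pow, Real.log_rpow hwp] at key
  have e1 := mul_le_mul_of_nonneg_left hμ (Nat.cast_nonneg (α := ℝ) (Fintype.card Ln))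
  have e2 := mul_le_mul_of_nonneg_left hw hrη
  nlinarith

/-- If no complete play without bottleneck exists, the player loses. -/
theorem lose_of_no_play (hrs : r < s) (hinj : Function.Injective ed)
    (hcard : ∀ e, (ed e).card = s) (I : Inst K P Ln) (pt : P → V) {η δ ζ : ℝ} (hb : I.Bound η)
    (hη : η ≤ K) (hζ : 0 < ζ) (hζδ : ζ ≤ δ)
    (H : ∀ G : Play ed r δ ζ, StatG I pt η G.ν → False) (q : ℝ) (hq : 0 < q) :
    ∀ᶠ n : ℕ in atTop, ∀ (S : Strategy (RSet n r) (Move n r s)) (T : ℕ),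
      (T : ℝ) / n.choose r ≤ (n : ℝ) ^ (-(δ - ζ)) → Pr S T (ContainsV ed) < q := by
  refine lose_of_bottleneck hrs hcard hinj (δ := δ - ζ) hζ hζ (StatG I pt η)
    (fun n hn h => stat_nuG I pt hb hη hn h) (fun ν hC hR ps hv hall => ?_) q hq
  by_contra hno
  have k : ∀ e, ∃ u, (e, u) ∈ ps := fun e => by
    obtain ⟨p, hp, rfl⟩ := List.mem_map.1 (hall e)
    exact ⟨p.2, hp⟩
  choose key hkey using k
  have hk : ∀ p ∈ ps, p.2 = key p.1 := fun p hp =>
    congrArg Prod.snd (List.inj_on_of_nodup_map hv.1 hp (hkey p.1) rfl)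
  refine H ⟨ν, ps, key, hζ, hζδ, hC, hv, fun e => mem_pl.2 ⟨_, hkey e, rfl⟩, hk, ?_⟩ hR
  rintro l W ⟨qs, rfl⟩
  by_contra hlt
  refine hno ⟨qs, l, W, rfl, (not_lt.1 hlt).trans (le_of_eq ?_)⟩
  have nd := hv.1
  rw [List.map_append] at nd
  have nd1 : ((qs.filter fun q => q.2 ⊆ W).map Prod.fst).Nodup :=
    (List.filter_sublist.map _).nodup nd.of_append_left
  have e1 : (univ.filter fun e => e ∉ pl l ∧ key e ⊆ W) =
      ((qs.filter fun q => q.2 ⊆ W).map Prod.fst).toFinset := by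
    ext e
    simp only [mem_filter, mem_univ, true_and, List.mem_toFinset, List.mem_map, List.mem_filter,
      decide_eq_true_eq]
    constructor
    · rintro ⟨a, b⟩
      rcases List.mem_append.1 (hkey e) with h | h
      · exact ⟨_, ⟨h, b⟩, rfl⟩
      · exact absurd (mem_pl.2 ⟨_, h, rfl⟩) a
    · rintro ⟨p, ⟨a, b⟩, rfl⟩
      refine ⟨fun h => ?_, by rwa [← hk p (List.mem_append_left _ a)]⟩
      exact List.disjoint_of_nodup_append nd (List.mem_map_of_mem a) (List.mem_toFinset.1 h)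
  rw [e1, List.toFinset_card_of_nodup nd1, List.length_map, inW]

end Pool.Agent.SemiRandom.Fix
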