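import Pool.Agent.P.MP_c53d0e_pr.W0
import Pool.Agent.P.MP_c53d0e_pr.UH0

set_option autoImplicit false
set_option linter.unusedSectionVars false

namespace Pool.Agent.SemiRandom.Fix

open Finset Und

/-- The data of a list of lines. -/
def datOf (r np : ℕ) (Ls : List Line) :
    Dat r (Ls.length * r) (Fin (np + 1)) (Fin Ls.length) :=
  ⟨instOf 4 np Ls, finProdFinEquiv.symm⟩

def encC (r s a i j : ℕ) : ℕ := s + 1 + 4 * (a + 3 * (j % (pm r + 1) + 8 * r * (i % (al r + 1))))
def encP (s p : ℕ) : ℕ := s + 1 + (4 * p + 1)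
def encZ (s c : ℕ) : ℕ := s + 1 + (4 * c + 2)
def encT (s c k : ℕ) : ℕ := s + 1 + (4 * (15 * c + k) + 3)

/-- Code of the compound vertex `i` of the functional edge of kind `g` and index `a`. -/
def cz (r g a i : ℕ) : ℕ := r * (3 * a + g) + i

def kind {N nl : ℕ} : FD N (Fin nl) → ℕ × ℕ
  | .L e => (0, e)
  | .D j => (1, j)
  | .E j => (2, j)

def czOf {r N nl : ℕ} (z : Cp r N (Fin nl)) : ℕ := cz r (kind z.1).1 (kind z.1).2 z.2

/-- Numbering of the vertices. -/
def encN {r s N np nl : ℕ} : Vx r s N (Fin (np + 1)) (Fin nl) → ℕ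
  | .hub j => j
  | .eta => s
  | .c x => encC r s x.1 x.2.1 x.2.2
  | .nv (.pt p) => encP s p
  | .nv (.cv z) => encZ s (czOf z)
  | .nv (.tk z k) => encT s (czOf z) k

/-- Number of vertices. -/
def kF (r s np nl : ℕ) : ℕ :=
  s + 1 + 4 * (24 * r * (al r + 1) + (np + 1) + 16 * (r * (3 * (nl * r + nl + 1) + 3)))

def vq (r s : ℕ) (x : QE r) (k : ℕ) : ℕ :=
  if k = 0 then s else if k = 1 then encC r s x.1.1.1 x.1.1.2.1 x.1.1.2.2 else
    if k = 2 ∧ qbin x then encC r s x.1.1.1 x.1.1.2.1 (x.1.2 + 1)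
    else encC r s (x.1.1.1 + 1 : Fin 3) x.1.2 (k - 2)

/-- The edges among constants, without the hubs. -/
noncomputable def qL (r s : ℕ) : List (List ℕ) :=
  (univ : Finset (QE r)).toList.map fun x => (List.range (r + 1)).map (vq r s x)

/-- Kinds and indices of the functional edges. -/
def fdL (r nl : ℕ) : List (ℕ × ℕ) :=
  (List.range nl).map (fun e => (0, e)) ++ (List.range (nl * r)).map (fun j => (1, j)) ++
    (List.range (nl * r + 1)).map fun j => (2, j)

def nprivN (N g a i : ℕ) : ℕ :=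
  if g = 0 then 7 else if i = 0 then (if g = 1 then 0 else if a = N then 3 else 15) else 7

def rparN (np : ℕ) (Ls : List Line) (g a i : ℕ) : List ℕ :=
  if g = 0 then [srcN (Ls.getD a (0, 0, 0)) (if i = 0 then 0 else 1) % (np + 1)]
  else if g = 1 then [] else if i = 0 then
    [0 % (np + 1), 1 % (np + 1), 2 % (np + 1), 3 % (np + 1)] else []

/-- Non-constant vertices with the lists of their parents. -/
def ownL (r s np : ℕ) (Ls : List Line) : List (ℕ × List ℕ) :=
  (List.range (np + 1)).map (fun p => (encP s p, [])) ++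
  (fdL r Ls.length).flatMap (fun y => (List.range r).map fun i => (encZ s (cz r y.1 y.2 i),
    (List.range (nprivN (Ls.length * r) y.1 y.2 i)).map (encT s (cz r y.1 y.2 i)) ++
      (rparN np Ls y.1 y.2 i).map (encP s))) ++
  (fdL r Ls.length).flatMap fun y => (List.range r).flatMap fun i =>
    (List.range 15).map fun k => (encT s (cz r y.1 y.2 i) k, [])

def oL (r s np : ℕ) (Ls : List Line) : List (List ℕ) :=
  (ownL r s np Ls).flatMap fun x => (List.range (al r)).map fun t =>
    x.1 :: x.2.getD t (encC r s 0 t 0) :: (List.range (r - 1)).map fun l => encC r s 0 t (l + 1)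

def tgtN (r s np : ℕ) (Ls : List Line) (g a : ℕ) : ℕ :=
  if g = 0 then encP s ((Ls.getD a (0, 0, 0)).2.2 % (np + 1))
  else if g = 1 then encZ s (cz r 0 (a / r) (a % r))
  else if a = 0 then encP s (0 % (np + 1)) else encZ s (cz r 2 (a - 1) 0)

def fL (r s np : ℕ) (Ls : List Line) : List (List ℕ) :=
  (fdL r Ls.length).map fun y => tgtN r s np Ls y.1 y.2 :: (List.range r).map fun i =>
    encZ s (cz r (if y.1 = 1 then (if i = 0 then 2 else 1) else y.1) y.2 i)

/-- The list of edges. -/
noncomputable def edgeF (r s np : ℕ) (Ls : List Line) : List (List ℕ) :=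
  (qL r s ++ oL r s np Ls ++ fL r s np Ls).map fun e => List.range (s - r - 1) ++ e

end Pool.Agent.SemiRandom.Fix
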