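import Pool.Agent.P.MP_c53d0e_pr.WH0
import Pool.Agent.P.MP_c53d0e_pr.WA1

set_option autoImplicit false
set_option linter.unusedSectionVars false

namespace Pool.Agent.SemiRandom.Fix

open Finset Und

variable {r s np : ℕ} [NeZero r]

lemma kind_lt_WH1 {N nl : ℕ} (F : FD N (Fin nl)) : (kind F).1 < 3 := by
  cases F <;> simp [kind]

lemma kind_inj_WH1 {N nl : ℕ} {F F' : FD N (Fin nl)} (h1 : (kind F).1 = (kind F').1)
    (h2 : (kind F).2 = (kind F').2) : F = F' := by
  cases F <;> cases F' <;> simp [kind] at h1 h2 ⊢ <;> exact Fin.ext h2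

lemma mix_inj_WH1 {m a b a' b' : ℕ} (ha : a < m) (ha' : a' < m) (h : m * b + a = m * b' + a') :
    a = a' ∧ b = b' := by
  have hm : 0 < m := by omega
  have h1 : (m * b + a) % m = (m * b' + a') % m := by rw [h]
  have h2 : (m * b + a) / m = (m * b' + a') / m := by rw [h]
  rw [Nat.mul_add_mod, Nat.mul_add_mod, Nat.mod_eq_of_lt ha, Nat.mod_eq_of_lt ha'] at h1
  rw [Nat.mul_add_div hm, Nat.mul_add_div hm, Nat.div_eq_of_lt ha, Nat.div_eq_of_lt ha'] at h2
  exact ⟨h1, by omega⟩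

lemma czOf_inj_WH1 {N nl : ℕ} {z z' : Cp r N (Fin nl)} (h : czOf z = czOf z') : z = z' := by
  obtain ⟨F, i⟩ := z
  obtain ⟨F', i'⟩ := z'
  simp only [czOf, cz] at h
  obtain ⟨h1, h2⟩ := mix_inj_WH1 i.2 i'.2 h
  have k1 := kind_lt_WH1 F
  have k2 := kind_lt_WH1 F'
  have : F = F' := kind_inj_WH1 (by omega) (by omega)
  exact Prod.ext this (Fin.ext h1)

lemma czOf_lt_WH1 {nl : ℕ} (z : Cp r (nl * r) (Fin nl)) :
    czOf z < r * (3 * (nl * r + nl + 1) + 3) := by
  obtain ⟨F, i⟩ := z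
  have k1 := kind_lt_WH1 F
  have k2 : (kind F).2 ≤ nl * r + nl := by
    cases F with
    | L e => have := e.2; simp only [kind]; omega
    | D j => have := j.2; simp only [kind]; omega
    | E j => have := j.2; simp only [kind]; omega
  have hi := i.2
  simp only [czOf, cz]
  have : r * (3 * (kind F).2 + (kind F).1 + 1) ≤ r * (3 * (nl * r + nl + 1) + 3) :=
    Nat.mul_le_mul_left _ (by omega)
  rw [Nat.mul_add_one] at this
  omega

lemma encC_eq_WH1 (x : Cn r) : encC r s x.1 x.2.1 x.2.2 =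
    s + 1 + 4 * ((x.1 : ℕ) + 3 * ((x.2.2 : ℕ) + 8 * r * (x.2.1 : ℕ))) := by
  unfold encC
  rw [Nat.mod_eq_of_lt x.2.1.2, Nat.mod_eq_of_lt x.2.2.2]

lemma encN_lt (hO : Ok r s) {nl : ℕ} (v : Vx r s (nl * r) (Fin (np + 1)) (Fin nl)) :
    encN v < kF r s np nl := by
  unfold kF
  rcases v with j | _ | x | v
  · have := j.2
    simp only [encN]; omega
  · simp only [encN]; omega
  · simp only [encN]
    rw [encC_eq_WH1]
    have h1 := x.1.2
    have h2 := x.2.1.2
    have h3 : (x.2.2 : ℕ) < 8 * r := lt_of_lt_of_eq x.2.2.2 (pm_succ hO)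
    have h4 : 8 * r * ((x.2.1 : ℕ) + 1) ≤ 8 * r * (al r + 1) := Nat.mul_le_mul_left _ h2
    rw [Nat.mul_add_one] at h4
    have h5 : 24 * r * (al r + 1) = 3 * (8 * r * (al r + 1)) := by ring
    omega
  · rcases v with p | z | ⟨z, k⟩
    · have := p.2
      simp only [encN, encP]; omega
    · have := czOf_lt_WH1 z
      simp only [encN, encZ]; omega
    · have := czOf_lt_WH1 z
      have := k.2
      simp only [encN, encT]; omega

lemma encN_inj (hO : Ok r s) {N nl : ℕ} :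
    Function.Injective (encN : Vx r s N (Fin (np + 1)) (Fin nl) → ℕ) := by
  intro v w h
  rcases v with j | _ | x | (p | z | ⟨z, k⟩) <;>
    rcases w with j' | _ | x' | (p' | z' | ⟨z', k'⟩) <;>
    simp only [encN, encC_eq_WH1, encP, encZ, encT] at h
  all_goals first
    | rfl
    | (exfalso; omega)
    | (exfalso; have := j.2; omega)
    | (exfalso; have := j'.2; omega)
    | skip
  · rw [Fin.ext h]
  · have h1 := x.1.2
    have h1' := x'.1.2
    have h3 : (x.2.2 : ℕ) < 8 * r := lt_of_lt_of_eq x.2.2.2 (pm_succ hO)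
    have h3' : (x'.2.2 : ℕ) < 8 * r := lt_of_lt_of_eq x'.2.2.2 (pm_succ hO)
    have e1 : (x.1 : ℕ) = x'.1 := by omega
    have e2 : 8 * r * (x.2.1 : ℕ) + (x.2.2 : ℕ) = 8 * r * (x'.2.1 : ℕ) + (x'.2.2 : ℕ) := by omega
    obtain ⟨e3, e4⟩ := mix_inj_WH1 h3 h3' e2
    have : x = x' := Prod.ext (Fin.ext e1) (Prod.ext (Fin.ext e4) (Fin.ext e3))
    rw [this]
  · have : p = p' := Fin.ext (by omega)
    rw [this]
  · have : z = z' := czOf_inj_WH1 (by omega)
    rw [this]
  · have h1 := k.2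
    have h2 := k'.2
    have e1 : z = z' := czOf_inj_WH1 (by omega)
    have e2 : k = k' := Fin.ext (by omega)
    rw [e1, e2]

lemma encN_cc {N nl : ℕ} (a : Fin 3) (i j : ℕ) :
    encN (cc a i j : Vx r s N (Fin (np + 1)) (Fin nl)) = encC r s a i j := by
  simp only [cc, encN, encC, Fin.val_ofNat, Nat.mod_mod]

lemma mem_fdL {nl : ℕ} (y : ℕ × ℕ) :
    y ∈ fdL r nl ↔ ∃ F : FD (nl * r) (Fin nl), y = kind F := by
  simp only [fdL, List.mem_append, List.mem_map, List.mem_range]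
  constructor
  · rintro ((⟨e, he, rfl⟩ | ⟨j, hj, rfl⟩) | ⟨j, hj, rfl⟩)
    · exact ⟨.L ⟨e, he⟩, rfl⟩
    · exact ⟨.D ⟨j, hj⟩, rfl⟩
    · exact ⟨.E ⟨j, hj⟩, rfl⟩
  · rintro ⟨F, rfl⟩
    cases F with
    | L e => exact Or.inl (Or.inl ⟨e, e.2, rfl⟩)
    | D j => exact Or.inl (Or.inr ⟨j, j.2, rfl⟩)
    | E j => exact Or.inr ⟨j, j.2, rfl⟩

lemma mem_qL (Ls : List Line) (x : List ℕ) : x ∈ qL r s ↔
    ∃ y : QE r, x = (List.range (r + 1)).map fun k => encN (vtx (datOf r np Ls) s (eQ y) k) := by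
  have key : ∀ y : QE r, vq r s y = fun k => encN (vtx (datOf r np Ls) s (eQ y) k) := by
    intro y
    funext k
    simp only [vq, vtx]
    split_ifs
    · rfl
    · rfl
    · rw [qpar, encN_cc]
    · rw [encN_cc]
  simp only [qL, List.mem_map, Finset.mem_toList, mem_univ, true_and, key]
  exact ⟨fun ⟨y, h⟩ => ⟨y, h.symm⟩, fun ⟨y, h⟩ => ⟨y, h.symm⟩⟩

lemma mem_fL (Ls : List Line) (x : List ℕ) : x ∈ fL r s np Ls ↔
    ∃ F, x = (List.range (r + 1)).map fun k => encN (vtx (datOf r np Ls) s (eF F) k) := by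
  have key : ∀ F : FD (Ls.length * r) (Fin Ls.length),
      (tgtN r s np Ls (kind F).1 (kind F).2 :: (List.range r).map fun i =>
        encZ s (cz r (if (kind F).1 = 1 then (if i = 0 then 2 else 1) else (kind F).1) (kind F).2 i)) =
      (List.range (r + 1)).map fun k => encN (vtx (datOf r np Ls) s (eF F) k) := by
    intro F
    rw [List.range_succ_eq_map, List.map_cons, List.map_map]
    congr 1
    · cases F with
      | L e =>
        simp [tgtN, kind, vtx, tgtv, encN, datOf, instOf, List.getD_eq_getElem?_getD]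
      | D j =>
        simp [tgtN, kind, vtx, tgtv, encN, datOf, czOf]
      | E j =>
        refine Fin.cases ?_ (fun j' => ?_) j
        · simp [tgtN, kind, vtx, tgtv, encN, datOf, instOf]
        · simp [tgtN, kind, vtx, tgtv, encN, czOf, aa]
    · refine List.map_congr_left fun i hi => ?_
      have hi' : i % r = i := Nat.mod_eq_of_lt (List.mem_range.1 hi)
      cases F with
      | L e => simp [kind, vtx, encN, pay, czOf, hi']
      | D j =>
        by_cases h0 : i = 0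
        · simp [kind, vtx, encN, pay, czOf, h0]
        · simp [kind, vtx, encN, pay, czOf, hi', h0]
      | E j => simp [kind, vtx, encN, pay, czOf, hi']
  simp only [fL, List.mem_map, mem_fdL]
  constructor
  · rintro ⟨y, ⟨F, rfl⟩, rfl⟩
    exact ⟨F, key F⟩
  · rintro ⟨F, rfl⟩
    exact ⟨kind F, ⟨F, rfl⟩, key F⟩

end Pool.Agent.SemiRandom.Fix
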