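import Pool.Agent.P.MP_c53d0e_pr.WH0
import Pool.Agent.P.MP_c53d0e_pr.UH3
import Pool.Agent.P.MP_c53d0e_pr.UF1

set_option autoImplicit false
set_option linter.unusedSectionVars false

namespace Pool.Agent.SemiRandom.Fix

open Finset Und

open Pool.Agent.Lib.PrimrecProp

section aux
variable {α : Type} [Primcodable α]

@[fun_prop] theorem p_ite_WH3 {σ : Type} [Primcodable σ] {a b : α → ℕ} {f g : α → σ}
    (ha : Primrec a) (hb : Primrec b) (hf : Primrec f) (hg : Primrec g) :
    Primrec (fun x => if a x = b x then f x else g x) :=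
  Primrec.ite (Primrec.eq.comp ha hb) hf hg

@[fun_prop] theorem p_div_WH3 {f g : α → ℕ} (hf : Primrec f) (hg : Primrec g) :
    Primrec (fun a => f a / g a) := Primrec.nat_div.comp hf hg

theorem p_getD_WH3 {f : α → List ℕ} {g d : α → ℕ} (hf : Primrec f) (hg : Primrec g)
    (hd : Primrec d) : Primrec (fun a => (f a).getD (g a) (d a)) :=
  (Primrec.option_getD.comp (Primrec.list_getElem?.comp hf hg) hd).of_eq fun _ =>
    (List.getD_eq_getElem?_getD ..).symm

@[fun_prop] theorem p_encC_WH3 (r s : ℕ) {a i j : α → ℕ} (ha : Primrec a) (hi : Primrec i)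
    (hj : Primrec j) : Primrec (fun x => encC r s (a x) (i x) (j x)) := by
  unfold encC; fun_prop

@[fun_prop] theorem p_encP_WH3 (s : ℕ) {a : α → ℕ} (ha : Primrec a) :
    Primrec (fun x => encP s (a x)) := by
  unfold encP; fun_prop

@[fun_prop] theorem p_encZ_WH3 (s : ℕ) {a : α → ℕ} (ha : Primrec a) :
    Primrec (fun x => encZ s (a x)) := by
  unfold encZ; fun_prop

@[fun_prop] theorem p_encT_WH3 (s : ℕ) {a b : α → ℕ} (ha : Primrec a) (hb : Primrec b) :
    Primrec (fun x => encT s (a x) (b x)) := by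
  unfold encT; fun_prop

@[fun_prop] theorem p_cz_WH3 (r : ℕ) {g a i : α → ℕ} (hg : Primrec g) (ha : Primrec a)
    (hi : Primrec i) : Primrec (fun x => cz r (g x) (a x) (i x)) := by
  unfold cz; fun_prop

@[fun_prop] theorem p_fdL_WH3 (r : ℕ) {a : α → ℕ} (ha : Primrec a) :
    Primrec (fun x => fdL r (a x)) := by
  unfold fdL; fun_prop

theorem p_nprivN_WH3 {n g a i : α → ℕ} (hn : Primrec n) (hg : Primrec g) (ha : Primrec a)
    (hi : Primrec i) : Primrec (fun x => nprivN (n x) (g x) (a x) (i x)) := by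
  unfold nprivN
  refine p_ite_WH3 hg (.const _) (.const _) (p_ite_WH3 hi (.const _) ?_ (.const _))
  exact p_ite_WH3 hg (.const _) (.const _) (p_ite_WH3 ha hn (.const _) (.const _))

attribute [fun_prop] p_nprivN_WH3

theorem p_rparN_WH3 {n g a i : α → ℕ} {l : α → List Line} (hn : Primrec n) (hl : Primrec l)
    (hg : Primrec g) (ha : Primrec a) (hi : Primrec i) :
    Primrec (fun x => rparN (n x) (l x) (g x) (a x) (i x)) := by
  unfold rparN
  have h1 : Primrec (fun x => if i x = 0 then 0 else 1) :=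
    p_ite_WH3 hi (.const _) (.const _) (.const _)
  have h2 : Primrec (fun x => srcN ((l x).getD (a x) (0, 0, 0)) (if i x = 0 then 0 else 1)) :=
    p_srcN_UH3 (by fun_prop) h1
  refine p_ite_WH3 hg (.const _) (p_cons (p_mod_UH3 h2 (by fun_prop)) (.const _)) ?_
  exact p_ite_WH3 hg (.const _) (.const _) (p_ite_WH3 hi (.const _) (by fun_prop) (.const _))

attribute [fun_prop] p_rparN_WH3

theorem p_tgtN_WH3 (r s : ℕ) {n g a : α → ℕ} {l : α → List Line} (hn : Primrec n)
    (hl : Primrec l) (hg : Primrec g) (ha : Primrec a) :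
    Primrec (fun x => tgtN r s (n x) (l x) (g x) (a x)) := by
  unfold tgtN
  refine p_ite_WH3 hg (.const _) (by fun_prop) (p_ite_WH3 hg (.const _) (by fun_prop) ?_)
  exact p_ite_WH3 ha (.const _) (by fun_prop) (by fun_prop)

theorem p_ownL_WH3 (r s : ℕ) {n : α → ℕ} {l : α → List Line} (hn : Primrec n)
    (hl : Primrec l) : Primrec (fun x => ownL r s (n x) (l x)) := by
  unfold ownL; fun_prop

theorem p_oL_WH3 (r s : ℕ) {n : α → ℕ} {l : α → List Line} (hn : Primrec n)
    (hl : Primrec l) : Primrec (fun x => oL r s (n x) (l x)) := by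
  unfold oL
  refine p_flatMap (p_ownL_WH3 r s hn hl) (p_map (.const _) ?_)
  exact p_cons (by fun_prop) (p_cons (p_getD_WH3 (by fun_prop) (by fun_prop) (by fun_prop))
    (by fun_prop))

theorem p_fL_WH3 (r s : ℕ) {n : α → ℕ} {l : α → List Line} (hn : Primrec n)
    (hl : Primrec l) : Primrec (fun x => fL r s (n x) (l x)) := by
  unfold fL
  refine p_map (by fun_prop) (p_cons ?_ (p_map (.const _) (p_encZ_WH3 s (p_cz_WH3 r ?_ ?_ ?_))))
  · exact p_tgtN_WH3 r s (by fun_prop) (by fun_prop) (by fun_prop) (by fun_prop)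
  · exact p_ite_WH3 (by fun_prop) (.const _)
      (p_ite_WH3 (by fun_prop) (.const _) (.const _) (.const _)) (by fun_prop)
  · fun_prop
  · fun_prop

end aux

theorem primrec_graphF (r s : ℕ) : Primrec fun x : ℕ × List Line =>
    (kF r s x.1 x.2.length, edgeF r s x.1 x.2) := by
  have h1 : Primrec fun x : ℕ × List Line => kF r s x.1 x.2.length := by
    unfold kF; fun_prop
  have h2 : Primrec fun x : ℕ × List Line => edgeF r s x.1 x.2 := by
    unfold edgeF
    exact p_map (p_append (p_append (.const _) (p_oL_WH3 r s Primrec.fst Primrec.snd))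
      (p_fL_WH3 r s Primrec.fst Primrec.snd)) (by fun_prop)
  exact h1.pair h2

theorem good_datOf (r : ℕ) [NeZero r] {p : Prs} (hW : p.WF) :
    (datOf r (npts 4 p) (lines 4 p)).Good := by
  refine ⟨finProdFinEquiv.symm.surjective, fun b => ?_, fun a => ?_⟩
  · obtain ⟨j, c, d, h⟩ := other_UF1 (K := 4) le_rfl b.2
    have hm : (ptP 4 1 b j, ptP 4 1 b j, (b : ℕ)) ∈ lines 4 p :=
      mem_lines.2 ⟨_, h, Or.inl (by simp [globL])⟩
    obtain ⟨e, he⟩ := List.mem_iff_get.1 hm
    have hG : 1 < p.G := lt_G hW.1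
    have hj : j < 4 := h.2.1
    have h1 := ptP_le hW hG b.2 hj
    have h2 := (ptP_decode (g := 1) b.2 hj).1
    refine ⟨e, ?_, fun l b' hb => ?_⟩
    · show Fin.ofNat _ ((lines 4 p).get e).2.2 = Fin.ofNat _ (b : ℕ)
      rw [he]
    · have h3 : ((lines 4 p).get e).src l = ptP 4 1 b j := by
        rw [he]
        fin_cases l <;> rfl
      have h4 : Fin.ofNat (npts 4 p + 1) (((lines 4 p).get e).src l) =
        Fin.ofNat (npts 4 p + 1) (b' : ℕ) := hb
      have h5 := congrArg Fin.val h4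
      have h6 := b'.2
      rw [h3, Fin.val_ofNat, Fin.val_ofNat, Nat.mod_eq_of_lt (by omega),
        Nat.mod_eq_of_lt (by omega)] at h5
      omega
  · rcases point_cases (K := 4) (p := p) (by omega) (Nat.lt_succ_iff.1 a.2) with
      h | ⟨g, hg, i, hi, j, hj, h⟩
    · exact Or.inl ⟨⟨a, h⟩, (ofNat_UF1 a).symm⟩
    · obtain ⟨ln, hln, h1, h2, h3⟩ := lineP_UF1 (K := 4) le_rfl hg hi hj
      obtain ⟨e, rfl⟩ := List.mem_iff_get.1 hln
      refine Or.inr ⟨e, ?_, fun l => ?_⟩
      · show Fin.ofNat _ ((lines 4 p).get e).2.2 = a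
        rw [h3, ← h, ofNat_UF1]
      · fin_cases l
        · exact ⟨⟨_, h1⟩, rfl⟩
        · exact ⟨⟨_, h2⟩, rfl⟩

end Pool.Agent.SemiRandom.Fix
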