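import Pool.Agent.P.MP_c53d0e_pr.WA6
import Pool.Agent.P.MP_c53d0e_pr.WG2

set_option autoImplicit false
set_option linter.unusedSectionVars false

namespace Pool.Agent.SemiRandom.Fix

open Finset Und

variable {r s N : ℕ} {P Ln : Type} [NeZero r] [Fintype P] [DecidableEq P] [Fintype Ln]
  [DecidableEq Ln] {D : Dat r N P Ln} {ζ : ℝ}

/-- A play on the hypergraph of `D` with small errors. -/
structure Sm (D : Dat r N P Ln) (s : ℕ) (ζ : ℝ) : Prop where
  ok : Ok r s
  small : 100 * er (Ed r N P Ln) ζ ≤ hh r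

/-- An edge among constants has been played. -/
def HasQ (l : List (Ed r N P Ln × Finset (Vx r s N P Ln))) : Prop := ∃ e ∈ pl l, IsQ e

lemma HasQ.mono {l l' : List (Ed r N P Ln × Finset (Vx r s N P Ln))} (h : HasQ l)
    (hl : l <:+ l') : HasQ l' := h.imp fun _ he => ⟨pl_mono hl he.1, he.2⟩

/-- The random part of `F` consists of its payers. -/
def Right (G : Play (ed D s) r (de r) ζ) (F : FD N Ln) : Prop := G.key (eF F) = cvs (PY r F)

/-- All edges owned by `v` are played. -/
def Own (l : List (Ed r N P Ln × Finset (Vx r s N P Ln))) (v : NV r N P Ln) : Prop :=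
  ∀ t, eO v t ∈ pl l

end Pool.Agent.SemiRandom.Fix
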