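import Pool.Agent.P.MP_c53d0e_pr.WN0

set_option autoImplicit false
set_option linter.unusedSectionVars false

namespace Pool.Agent.SemiRandom.Fix

open Finset Und

variable {r s N : ℕ} {P Ln : Type} [NeZero r] [Fintype P] [DecidableEq P] [Fintype Ln]
  [DecidableEq Ln] {D : Dat r N P Ln} {ζ : ℝ}

lemma isQ_WN1 {e : Ed r N P Ln} (h : IsQ e) : ∃ x, e = eQ x := by
  cases e with
  | inl x => exact ⟨x, rfl⟩
  | inr y => exact h.elim

lemma dnQ_WN1 {e : Ed r N P Ln} {v : Vx r s N P Ln} (hv : v ∈ CC) (h : dn e v ≠ 0) : IsQ e := by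
  by_contra hq
  obtain ⟨w, rfl⟩ := dn_notQ hq h
  exact nv_notMem_CC w hv

lemma card_WN1 (hO : Ok r s) :
    de r * (#{e : Ed r N P Ln | IsQ e} : ℕ) = (CN : Finset (Vx r s N P Ln)).card := by
  have h1 : (univ.filter fun e : Ed r N P Ln => IsQ e) =
      univ.map ⟨Sum.inl, Sum.inl_injective⟩ := by
    ext e
    simp only [mem_filter, mem_univ, true_and, mem_map, Function.Embedding.coeFn_mk]
    exact ⟨fun h => (isQ_WN1 h).imp fun _ h => h.symm, fun ⟨x, h⟩ => h ▸ trivial⟩
  have h2 := card_QE (N := N) (P := P) (Ln := Ln) hO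
  rw [h1, card_map, card_univ, de]
  generalize Fintype.card (QE r) = a at h2 ⊢
  generalize (CN : Finset (Vx r s N P Ln)).card = b at h2 ⊢
  have h3 : (a : ℝ) * (8 * r) = b * qq r := by exact_mod_cast h2
  linear_combination hh r * h3 + (b : ℝ) * qq_hh r

lemma cast_WN1 {V : Type} (f : V → ℕ) (U : Finset V) (h : ∑ v ∈ U, f v ≤ 8 * r) :
    ∑ v ∈ U, (f v : ℝ) * hh r ≤ de r := by
  have h1 : ∑ v ∈ U, (f v : ℝ) ≤ 8 * r := by exact_mod_cast h
  rw [← sum_mul, de]
  exact mul_le_mul_of_nonneg_right h1 (hh_pos r).le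

lemma sum_WN1 (hO : Ok r s) (e : Ed r N P Ln) (U : Finset (Vx r s N P Ln)) :
    ∑ v ∈ U, (dn e v : ℝ) * hh r ≤ de r := cast_WN1 (dn e) U (dn_sum_le hO e U)

lemma paid_WN1 {V E : Type} [DecidableEq V] [Fintype E] [DecidableEq E] (d : E → V → ℝ)
    {l : List (E × Finset V)} (hl : (l.map Prod.fst).Nodup) (v : V) :
    paid d l v + ∑ e ∈ (pl l)ᶜ, d e v = ∑ e, d e v := by
  rw [paid_eq_sum d hl, ← sum_add_sum_compl (pl l)]
  congr 2
  ext e
  simp [pl]

/-- The constants outside an edge, given that edge. -/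
lemma rest_WN1 (hO : Ok r s) (G : Play (ed D s) r (de r) ζ)
    {l : List (Ed r N P Ln × Finset (Vx r s N P Ln))} (hl : Valid (ed D s) r l) (x : QE r) :
    G.ν l (ed D s (eQ x)) CC ≤
      de r * (#{e | IsQ e ∧ e ∉ insert (eQ x) (pl l)} : ℕ) + 2 * ζ * l.length := by
  have d0 : ∀ (e : Ed r N P Ln) (v : Vx r s N P Ln), 0 ≤ (dn e v : ℝ) * hh r := fun e v =>
    mul_nonneg (Nat.cast_nonneg _) (hh_pos r).le
  have ds : ∀ (e : Ed r N P Ln) (v : Vx r s N P Ln), v ∉ ed D s e → dn e v = 0 := fun e v hv =>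
    by_contra fun h => hv (key0_sub hO D e (dn_key0 hO D h))
  refine (G.cal.lemG G.z0.le le_rfl le_rfl (fun e v => (dn e v : ℝ) * hh r) d0
    (fun e v hv => by simp [ds e v hv]) CC (fun e => sum_WN1 hO e CC) l hl _
    fun p hp ⟨v, hv, h⟩ => ?_).trans (add_le_add ?_ le_rfl)
  · obtain ⟨y, hy⟩ := isQ_WN1 (dnQ_WN1 (e := p.1) hv fun h0 => h (by simp [h0]))
    exact ((hl.2 p hp).1.trans (hy ▸ ed_Q_sub hO D y)).trans subset_union_right
  · have h1 : ∀ v ∈ (CC : Finset (Vx r s N P Ln)) \ ed D s (eQ x),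
        max 0 (1 - paid (fun e v => (dn e v : ℝ) * hh r) l v) =
          ∑ e with IsQ e ∧ e ∉ insert (eQ x) (pl l), (dn e v : ℝ) * hh r := fun v hv => by
      obtain ⟨h2, h3⟩ := mem_sdiff.1 hv
      obtain ⟨y, rfl⟩ : ∃ y, v = .c y := by
        rcases (mem_CC v).1 h2 with h | h | h
        · exact (h3 (HH_sub_ed D _ ((mem_HH v).2 h))).elim
        · exact (h3 (h ▸ eta_mem_Q hO D x)).elim
        · exact h
      have h4 : ∑ e : Ed r N P Ln, (dn e (.c y : Vx r s N P Ln) : ℝ) * hh r = 1 := by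
        rw [← sum_mul, ← qq_hh r, ← ld_c (N := N) (P := P) (Ln := Ln) hO y, ld, Nat.cast_sum]
      have h5 := paid_WN1 (fun e v => (dn e v : ℝ) * hh r) hl.1 (.c y)
      have h6 : ∑ e with IsQ e ∧ e ∉ insert (eQ x) (pl l),
          (dn e (.c y : Vx r s N P Ln) : ℝ) * hh r =
          ∑ e ∈ (pl l)ᶜ, (dn e (.c y : Vx r s N P Ln) : ℝ) * hh r := by
        refine sum_subset (fun e he => ?_) fun e he hn => ?_
        · simp only [mem_filter, mem_univ, true_and, mem_insert, not_or, mem_compl] at he ⊢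
          exact he.2.2
        · simp only [mem_filter, mem_univ, true_and, mem_insert, not_or, mem_compl] at he hn
          have : dn e (.c y : Vx r s N P Ln) = 0 := by_contra fun h =>
            hn ⟨dnQ_WN1 h2 h, fun h7 => h (h7 ▸ ds _ _ h3), he⟩
          simp [this]
      have h7 := sum_nonneg (s := (pl l)ᶜ) fun e _ => d0 e (.c y)
      rw [h6, max_eq_right (by linarith)]
      linarith
    rw [sum_congr rfl h1, sum_comm]
    refine (sum_le_sum fun e _ => sum_WN1 hO e _).trans (le_of_eq ?_)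
    rw [sum_const, nsmul_eq_mul, mul_comm]

lemma ind_WN1 (hO : Ok r s) (G : Play (ed D s) r (de r) ζ)
    (l : List (Ed r N P Ln × Finset (Vx r s N P Ln))) (hl : Valid (ed D s) r l) (hQ : HasQ l) :
    G.ν l ∅ CC ≤ de r * (#{e | IsQ e ∧ e ∉ pl l} : ℕ) + 2 * ζ * l.length := by
  induction l with
  | nil => obtain ⟨e, he, -⟩ := hQ; simp at he
  | cons p l ih =>
    have z0 := G.z0
    have l0 : 0 ≤ ζ * l.length := mul_nonneg z0.le (Nat.cast_nonneg _)
    rw [List.length_cons, pl_cons]
    push_cast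
    by_cases hp : IsQ p.1
    · obtain ⟨x, hx⟩ := isQ_WN1 hp
      have hC : ed D s p.1 ⊆ CC := hx ▸ ed_Q_sub hO D x
      have hk := hl.2 p List.mem_cons_self
      have c1 : #{e : Ed r N P Ln | IsQ e ∧ e ∉ pl l} =
          #{e : Ed r N P Ln | IsQ e ∧ e ∉ insert p.1 (pl l)} + 1 := by
        rw [← card_insert_of_notMem (a := p.1) (by simp)]
        refine congrArg card ?_
        ext e
        simp only [mem_filter, mem_univ, true_and, mem_insert, not_or]
        by_cases he : e = p.1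
        · simp [he, hp, notMem_pl hl]
        · simp [he]
      by_cases h0 : HasQ l
      · have a1 := ih hl.tail h0
        have a2 := G.cal.step p l ∅ CC hl
        have a3 := rest_WN1 hO G hl.tail x
        rw [union_eq_left.2 hC, union_eq_left.2 (hk.1.trans hC), empty_union] at a2
        rw [← hx] at a3
        rw [c1] at a1
        push_cast at a1
        have a4 : max (G.ν l ∅ CC - (de r - ζ)) (G.ν l (ed D s p.1) CC) ≤
            de r * (#{e : Ed r N P Ln | IsQ e ∧ e ∉ insert p.1 (pl l)} : ℕ) +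
              2 * ζ * l.length + ζ := max_le (by linarith) (by linarith)
        linarith
      · have a1 := G.cal.chain (p :: l) ∅ (ed D s p.1) CC
        have a2 := G.cal.stepU_UC1 ∅ _ p l hl le_rfl
        have a3 := G.cal.cap l ∅ p.2
        have a4 := G.cal.cap (p :: l) (∅ ∪ ed D s p.1) CC
        rw [union_eq_right.2 hC] at a1
        rw [sdiff_empty, hk.2] at a3
        have a5 : ((CC : Finset (Vx r s N P Ln)) \ (∅ ∪ ed D s p.1)).card + r =
            (CN : Finset (Vx r s N P Ln)).card := by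
          have b1 := card_sdiff_add_card_eq_card hC
          have b2 := hO.hs
          rw [card_ed hO, card_CC] at b1
          rw [empty_union]
          omega
        have a6 : #{e : Ed r N P Ln | IsQ e ∧ e ∉ pl l} = #{e : Ed r N P Ln | IsQ e} :=
          congrArg card (filter_congr fun e _ =>
            ⟨fun h => h.1, fun h => ⟨h, fun he => h0 ⟨e, he, h⟩⟩⟩)
        have a7 := card_WN1 (N := N) (P := P) (Ln := Ln) hO
        rw [← a6, c1, ← a5] at a7
        push_cast at a7
        have a8 : de r ≤ r := by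
          have b1 := (de_bd hO).2
          have b2 : (2 : ℝ) ≤ r := by exact_mod_cast hO.hr
          have b3 : 0 ≤ de r := z0.le.trans G.zd
          nlinarith
        have a9 : max (G.ν l ∅ p.2 - (de r - ζ)) 0 ≤ r - de r + ζ :=
          max_le (by linarith) (by linarith)
        linarith
    · have h0 : HasQ l := by
        obtain ⟨e, he, hq⟩ := hQ
        rw [pl_cons, mem_insert] at he
        exact ⟨e, he.resolve_left fun h => hp (h ▸ hq), hq⟩
      have c1 : #{e : Ed r N P Ln | IsQ e ∧ e ∉ insert p.1 (pl l)} =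
          #{e : Ed r N P Ln | IsQ e ∧ e ∉ pl l} :=
        congrArg card (filter_congr fun e _ => and_congr_right fun hq => by
          rw [mem_insert, not_or]
          exact ⟨fun h => h.2, fun h => ⟨fun h1 => hp (h1 ▸ hq), h⟩⟩)
      have a1 := ih hl.tail h0
      have a2 := G.cal.time p l ∅ CC
      rw [c1]
      linarith

theorem lemQ (hO : Ok r s) (G : Play (ed D s) r (de r) ζ)
    {l : List (Ed r N P Ln × Finset (Vx r s N P Ln))} (hl : l <:+ G.ps) (hQ : HasQ l) :
    G.ν l ∅ CC ≤ de r * (#{e | IsQ e ∧ e ∉ pl l} : ℕ) + 2 * er (Ed r N P Ln) ζ := by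
  have h1 := ind_WN1 hO G l (G.suf_valid hl) hQ
  have h2 := G.length_le hl
  linarith

end Pool.Agent.SemiRandom.Fix
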