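import Pool.Agent.P.MP_c53d0e_pr.WN0

set_option autoImplicit false
set_option linter.unusedSectionVars false

namespace Pool.Agent.SemiRandom.Fix

open Finset Und

variable {r s N : ℕ} {P Ln : Type} [NeZero r] [Fintype P] [DecidableEq P] [Fintype Ln]
  [DecidableEq Ln] {D : Dat r N P Ln} {ζ : ℝ}

/-- The constant that pays for an owned edge. -/
def row_WN2 : Ed r N P Ln → Vx r s N P Ln
  | .inr (.inl y) => cc 0 y.2 0
  | _ => .eta

lemma rows_WN2 (hO : Ok r s) (c : Vx r s N P Ln) : ∃ Ts : Finset (Fin (al r)),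
    al r ≤ Ts.card + 21 ∧ ∀ t ∈ Ts, 20 ≤ (t : ℕ) ∧ ∀ l < r, c ≠ cc 0 t l := by
  have h2 := hO.hr
  obtain ⟨t0, h0⟩ : ∃ t0 : ℕ, ∀ t ≤ al r, t ≠ t0 → ∀ l < r, c ≠ cc 0 t l := by
    by_cases h : ∃ t ≤ al r, ∃ l < r, c = cc 0 t l
    · obtain ⟨t, ht, l, hl, rfl⟩ := h
      exact ⟨t, fun t' ht' k l' hl' e =>
        k ((cc_inj hO ht ht' (by omega) (by omega)).1 e).2.1.symm⟩
    · exact ⟨0, fun t ht _ l hl e => h ⟨t, ht, l, hl, e⟩⟩
  refine ⟨univ.filter fun t => (t : ℕ) ∉ insert t0 (range 20), ?_, fun t ht => ?_⟩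
  · have h1 := card_filter_add_card_filter_not (s := (univ : Finset (Fin (al r))))
      fun t => (t : ℕ) ∈ insert t0 (range 20)
    have h3 : #{t : Fin (al r) | (t : ℕ) ∈ insert t0 (range 20)} ≤ #(insert t0 (range 20)) :=
      card_le_card_of_injOn (fun t => (t : ℕ)) (fun t ht => (mem_filter.1 ht).2)
        fun _ _ _ _ e => Fin.ext e
    have h4 := card_insert_le t0 (range 20)
    rw [card_range] at h4
    rw [card_univ, Fintype.card_fin] at h1
    omega
  · have h1 := (mem_filter.1 ht).2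
    rw [mem_insert, mem_range, not_or, not_lt] at h1
    exact ⟨h1.2, h0 t t.2.le h1.1⟩

lemma edges_WN2 (hO : Ok r s) (D : Dat r N P Ln) (F : FD N Ln) (c : Vx r s N P Ln) :
    ∃ Es : Finset (Ed r N P Ln), (r + 1) * al r ≤ Es.card + (r + 1) * 21 ∧
      (∀ e ∈ Es, ¬ IsQ e ∧ row_WN2 e ∈ ed D s e ∧ row_WN2 e ∈ CC.erase c \ ed D s (eF F) ∧
        ed D s e ⊆ ed D s (eF F) ∪ CC.erase c) ∧
      ∀ v : Vx r s N P Ln, #{e ∈ Es | v = row_WN2 e} ≤ r + 1 := by
  have h2 := hO.hr
  obtain ⟨Ts, h1, hT⟩ := rows_WN2 hO c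
  let Vs : Finset (NV r N P Ln) := insert (tgtv D F) (univ.image fun i => .cv (pay F i))
  have hV : Vs.card = r + 1 := by
    rw [card_insert_of_notMem, card_image_of_injective, card_univ, Fintype.card_fin]
    · exact fun i j e => pay_inj F (NV.cv.inj e)
    · intro k
      obtain ⟨i, -, e⟩ := mem_image.1 k
      exact tgt_ne_pay D F i e.symm
  refine ⟨(Vs ×ˢ Ts).image fun y => eO y.1 y.2, ?_, fun e he => ?_, fun v => ?_⟩
  · rw [card_image_of_injective _ fun y y' e => by simpa [Prod.ext_iff] using e, card_product, hV,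
      ← Nat.mul_add]
    exact Nat.mul_le_mul_left _ h1
  · obtain ⟨⟨w, t⟩, hy, rfl⟩ := mem_image.1 he
    obtain ⟨hw, ht⟩ := mem_product.1 hy
    obtain ⟨h3, h4⟩ := hT t ht
    have h5 : ∀ l < r, (cc 0 t l : Vx r s N P Ln) ∈ CC.erase c := fun l hl =>
      mem_erase.2 ⟨(h4 l hl).symm, mem_union_right _ (mem_insert_of_mem (cc_mem_CN _ _ _))⟩
    refine ⟨id, (mem_ed_O hO D w t _).2 (.inr (.inr (.inr
      ⟨0, by omega, fun _ => par_big _ _ h3, rfl⟩))), mem_sdiff.2 ⟨h5 0 (by omega), fun k => ?_⟩,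
      fun v hv => ?_⟩
    · simp [mem_ed_F, row_WN2, cc] at k
    · rcases (mem_ed_O hO D w t v).1 hv with k | rfl | ⟨π, k, -⟩ | ⟨l, hl, -, rfl⟩
      · exact mem_union_left _ (HH_sub_ed D _ k)
      · refine mem_union_left _ ((mem_ed_F D F _).2 (.inr ?_))
        rcases mem_insert.1 hw with k | k
        · exact .inl (congrArg _ k)
        · obtain ⟨i, -, k⟩ := mem_image.1 k
          exact .inr ⟨i, congrArg _ k.symm⟩
      · rw [par_big _ _ h3] at k
        exact absurd k (by simp)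
      · exact mem_union_right _ (h5 l hl)
  · rw [← hV, filter_image]
    refine card_image_le.trans (card_le_card_of_injOn Prod.fst
      (fun y hy => (mem_product.1 (mem_filter.1 hy).1).1) fun y hy y' hy' e => Prod.ext e ?_)
    have h3 := (mem_filter.1 hy).2.symm.trans (mem_filter.1 hy').2
    exact Fin.ext ((cc_inj hO y.2.2.le y'.2.2.le (by omega) (by omega)).1 h3).2.1

/-- Functional edges come after the first edge among constants. -/
theorem lemZ (hS : Sm D s ζ) (G : Play (ed D s) r (de r) ζ)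
    {l : List (Ed r N P Ln × Finset (Vx r s N P Ln))} (hl : l <:+ G.ps) {F : FD N Ln}
    (hF : eF F ∈ pl l) : HasQ l := by
  by_contra hq
  have hO := hS.ok
  obtain ⟨e, l0, he, h1, h2, h3⟩ := G.first IsQ hl (fun e he k => hq ⟨e, he, k⟩)
    ⟨eQ ⟨((0, 0, 0), 0), .inr rfl⟩, trivial⟩
  obtain ⟨x, rfl⟩ : ∃ x, e = eQ x := by
    rcases e with x | x
    · exact ⟨x, rfl⟩
    · exact he.elim
  obtain ⟨c, hc, hc'⟩ : ∃ c ∈ ed D s (eQ x) \ G.key (eQ x), c ∉ HH := by
    refine exists_mem_notMem_of_card_lt_card ?_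
    rw [card_HH, card_sdiff_of_subset (G.key_sub _), card_ed hO, G.key_card]
    have := hO.hs
    omega
  obtain ⟨hc1, hc2⟩ := mem_sdiff.1 hc
  have hcC := ed_Q_sub hO D x hc1
  obtain ⟨Es, e1, e2, e3⟩ := edges_WN2 hO D F c
  set l1 := (eQ x, G.key (eQ x)) :: l0 with hl1
  have hF1 : eF F ∈ pl l1 := by
    rw [pl_cons]
    exact mem_insert_of_mem (pl_mono h2 hF)
  obtain ⟨b1, b2⟩ := de_bd hO
  have b0 := hh_pos r
  have b3 : 0 < de r := by linarith
  have b4 : (2 : ℝ) ≤ r := by exact_mod_cast hO.hr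
  have n1 : G.ν l1 ∅ (ed D s (eF F)) ≤ r + er (Ed r N P Ln) ζ := by
    have k1 := G.cal.chain l1 ∅ (G.key (eF F)) (ed D s (eF F))
    have k2 := G.cal.cap l1 ∅ (G.key (eF F))
    have k3 := G.lemFD h1 hF1 (A := ∅ ∪ G.key (eF F)) (B := ed D s (eF F)) subset_union_right
      subset_union_right
    rw [sdiff_empty, G.key_card] at k2
    rw [union_eq_right.2 (G.key_sub _)] at k1
    linarith
  have n2 : G.ν l1 (∅ ∪ (ed D s (eF F) ∪ CC.erase c)) {c} ≤ er (Ed r N P Ln) ζ := by
    refine G.lemFD h1 (e := eQ x) (by rw [pl_cons]; exact mem_insert_self _ _) (fun v hv => ?_)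
      (singleton_subset_iff.2 (mem_union_right _ hc1))
    exact mem_union_right _ (mem_union_right _ (mem_erase.2
      ⟨fun k => hc2 (k ▸ hv), ed_Q_sub hO D x (G.key_sub _ hv)⟩))
  have n3 : G.ν l1 (∅ ∪ ed D s (eF F)) (CC.erase c) ≤
      (CN : Finset (Vx r s N P Ln)).card - de r * (Es ∩ pl l1).card + 2 * er (Ed r N P Ln) ζ := by
    rw [empty_union]
    refine (G.lemG h1 _ _ (fun e v => if e ∈ Es ∧ v = row_WN2 e then de r else 0)
      (fun e v => by positivity) (fun e v k => ?_) (fun e => ?_) fun e _ v _ k => ?_).trans ?_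
    · obtain ⟨k1, rfl⟩ := (ite_ne_right_iff.1 k).1
      exact (e2 e k1).2.1
    · by_cases k : e ∈ Es
      · simp only [k, true_and, sum_ite_eq']
        split_ifs
        exacts [le_rfl, b3.le]
      · simp [k, b3.le]
    · exact (G.key_sub e).trans (e2 e (ite_ne_right_iff.1 k).1.1).2.2.2
    · have k1 : ∀ v : Vx r s N P Ln,
          ∑ e ∈ pl l1, (if e ∈ Es ∧ v = row_WN2 e then de r else 0) ≤ 1 := fun v => by
        rw [← sum_filter, sum_const, nsmul_eq_mul]
        have k2 : #{e ∈ pl l1 | e ∈ Es ∧ v = row_WN2 e} ≤ r + 1 :=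
          (card_le_card fun e he => mem_filter.2 (mem_filter.1 he).2).trans (e3 v)
        have k3 : (#{e ∈ pl l1 | e ∈ Es ∧ v = row_WN2 e} : ℝ) ≤ r + 1 := by exact_mod_cast k2
        nlinarith
      have k2 : #(CC.erase c \ ed D s (eF F)) ≤ (CN : Finset (Vx r s N P Ln)).card := by
        have k3 : c ∈ insert Vx.eta CN := (mem_union.1 hcC).resolve_left hc'
        refine (card_le_card (t := (insert Vx.eta CN).erase c) fun v hv => ?_).trans ?_
        · obtain ⟨k4, k5⟩ := mem_sdiff.1 hv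
          exact mem_erase.2 ⟨(mem_erase.1 k4).1, (mem_union.1 (mem_erase.1 k4).2).resolve_left
            fun k => k5 (HH_sub_ed D _ k)⟩
        · rw [card_erase_of_mem k3]
          have := card_insert_le Vx.eta (CN : Finset (Vx r s N P Ln))
          omega
      have k3 : ∑ e ∈ pl l1, ∑ v ∈ CC.erase c \ ed D s (eF F),
          (if e ∈ Es ∧ v = row_WN2 e then de r else 0) = de r * (Es ∩ pl l1).card := by
        rw [sum_congr rfl (g := fun e => if e ∈ Es then de r else 0) fun e _ => ?_, sum_ite_mem,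
          sum_const, nsmul_eq_mul, mul_comm, inter_comm]
        by_cases k : e ∈ Es
        · simp only [k, true_and, sum_ite_eq', if_pos (e2 e k).2.2.1, if_true]
        · simp [k]
      rw [sum_congr rfl fun v _ => max_eq_right (sub_nonneg.2 (k1 v)), sum_sub_distrib, sum_comm,
        k3, sum_const, nsmul_eq_mul, mul_one]
      have k4 : (#(CC.erase c \ ed D s (eF F)) : ℝ) ≤ (CN : Finset (Vx r s N P Ln)).card := by
        exact_mod_cast k2
      linarith
  have n4 := G.nb l1 (ed D s (eF F) ∪ CC.erase c ∪ {c}) h1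
  have n5 := G.cal.chain l1 ∅ (ed D s (eF F) ∪ CC.erase c) {c}
  have n6 := G.cal.chain l1 ∅ (ed D s (eF F)) (CC.erase c)
  set U := #{e | e ∉ pl l1 ∧ G.key e ⊆ ed D s (eF F) ∪ CC.erase c ∪ {c}} with hU
  have u1 : U ≤ Fintype.card (Ed r N P Ln) := card_le_univ _
  have u2 : Fintype.card (QE r) + #(Es \ pl l1) ≤ U + 1 := by
    have k1 : #((univ.image eQ).erase (eQ x : Ed r N P Ln)) + 1 = Fintype.card (QE r) := by
      rw [card_erase_add_one (mem_image_of_mem _ (mem_univ x)),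
        card_image_of_injective _ Sum.inl_injective, card_univ]
    rw [← k1, add_right_comm, ← card_union_of_disjoint]
    · refine Nat.succ_le_succ (card_le_card fun e he => mem_filter.2 ⟨mem_univ _, ?_⟩)
      rcases mem_union.1 he with k | k
      · obtain ⟨k2, k3⟩ := mem_erase.1 k
        obtain ⟨y, -, rfl⟩ := mem_image.1 k3
        refine ⟨fun k4 => ?_, (G.key_sub _).trans ((ed_Q_sub hO D y).trans fun v hv => ?_)⟩
        · rw [pl_cons] at k4
          exact (mem_insert.1 k4).elim k2 fun k5 => h3 _ k5 trivial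
        · by_cases k4 : v = c
          · exact mem_union_right _ (mem_singleton.2 k4)
          · exact mem_union_left _ (mem_union_right _ (mem_erase.2 ⟨k4, hv⟩))
      · exact ⟨(mem_sdiff.1 k).2,
          (G.key_sub _).trans ((e2 e (mem_sdiff.1 k).1).2.2.2.trans subset_union_left)⟩
    · refine disjoint_left.2 fun e k1 k2 => ?_
      obtain ⟨y, -, rfl⟩ := mem_image.1 (mem_erase.1 k1).2
      exact (e2 _ (mem_sdiff.1 k2).1).1 trivial
  have u3 : ((r : ℝ) + 1) * al r ≤ #(Es \ pl l1) + #(Es ∩ pl l1) + (r + 1) * 21 := by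
    rw [← card_sdiff_add_card_inter Es (pl l1)] at e1
    exact_mod_cast e1
  have u4 : de r * Fintype.card (QE r) = (CN : Finset (Vx r s N P Ln)).card := by
    have k1 : (Fintype.card (QE r) : ℝ) * (8 * r) = (CN : Finset (Vx r s N P Ln)).card * qq r := by
      exact_mod_cast card_QE (N := N) (P := P) (Ln := Ln) hO
    rw [de, mul_right_comm, mul_comm (8 * (r : ℝ)), k1, mul_assoc, qq_hh, mul_one]
  have u5 : ζ * U + ζ ≤ er (Ed r N P Ln) ζ := by
    have k1 : (U : ℝ) ≤ Fintype.card (Ed r N P Ln) := by exact_mod_cast u1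
    have := mul_le_mul_of_nonneg_left k1 G.z0.le
    rw [er]
    linarith
  have u6 : (Fintype.card (QE r) : ℝ) + #(Es \ pl l1) ≤ U + 1 := by exact_mod_cast u2
  have u7 := mul_le_mul_of_nonneg_left u6 b3.le
  have u8 := mul_le_mul_of_nonneg_left u3 b3.le
  have u9 : de r * (((r : ℝ) + 1) * al r) = (r + 1) * (1 - hh r) := by
    rw [← al_de r]
    ring
  have v1 := mul_le_mul_of_nonneg_left b1 (show (0 : ℝ) ≤ r + 1 by linarith)
  have v2 := mul_le_mul_of_nonneg_right (show (3 : ℝ) ≤ r + 1 by linarith) b3.le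
  have v3 := hS.small
  nlinarith

/-- The time just before a functional edge. -/
theorem beforeF (hS : Sm D s ζ) (G : Play (ed D s) r (de r) ζ) (F : FD N Ln) :
    ∃ l, (eF F, G.key (eF F)) :: l <:+ G.ps ∧ l <:+ G.ps ∧ eF F ∉ pl l ∧ HasQ l := by
  obtain ⟨l, h1, h2, h3⟩ := G.before (eF F)
  obtain ⟨e, he, k⟩ := lemZ hS G h1 (F := F) (by rw [pl_cons]; exact mem_insert_self _ _)
  rw [pl_cons] at he
  refine ⟨l, h1, h2, h3, e, (mem_insert.1 he).resolve_left ?_, k⟩
  rintro rfl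
  exact k

end Pool.Agent.SemiRandom.Fix
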