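import Pool.Agent.P.MP_c53d0e_pr.WN1

set_option autoImplicit false
set_option linter.unusedSectionVars false

namespace Pool.Agent.SemiRandom.Fix

open Finset Und

variable {r s N : ℕ} {P Ln : Type} [NeZero r] [Fintype P] [DecidableEq P] [Fintype Ln]
  [DecidableEq Ln] {D : Dat r N P Ln} {ζ : ℝ}

lemma ne_WN3 {e : Ed r N P Ln} {v : Vx r s N P Ln} (h : (dn e v : ℝ) * hh r ≠ 0) :
    dn e v ≠ 0 := fun h' => h (by rw [h', Nat.cast_zero, zero_mul])

lemma ds_WN3 (hO : Ok r s) (D : Dat r N P Ln) (e : Ed r N P Ln) (v : Vx r s N P Ln)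
    (h : (dn e v : ℝ) * hh r ≠ 0) : v ∈ ed D s e :=
  key0_sub hO D e (dn_key0 hO D (ne_WN3 h))

lemma dt_WN3 (hO : Ok r s) (U : Finset (Vx r s N P Ln)) (e : Ed r N P Ln) :
    ∑ v ∈ U, (dn e v : ℝ) * hh r ≤ de r := by
  rw [← sum_mul, de]
  refine mul_le_mul_of_nonneg_right ?_ (hh_pos r).le
  exact_mod_cast dn_sum_le hO e U

lemma ld_WN3 (v : Vx r s N P Ln) :
    ∑ e : Ed r N P Ln, (dn e v : ℝ) * hh r = (ld v : ℝ) * hh r := by
  rw [← sum_mul, ld, Nat.cast_sum]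

/-- The master inequality for the designed duties. -/
theorem lemM (hO : Ok r s) (G : Play (ed D s) r (de r) ζ)
    {l : List (Ed r N P Ln × Finset (Vx r s N P Ln))} (hl : l <:+ G.ps) (hQ : HasQ l)
    (X : Finset (Cp r N Ln)) (A B : Finset P) (K : Finset (Vx r s N P Ln))
    (hX : ∀ z ∈ X, IsPay z) (hp : ∀ z ∈ X, ∀ p ∈ rpar D.I z, p ∈ A ∨ p ∈ B)
    {k0 k1 : ℝ} (h0 : G.ν l CC (pts B) ≤ k0) (h1 : G.ν l (CC ∪ pts B ∪ UU X A) K ≤ k1)
    (hk : ∀ F i, pay F i ∈ X → eF F ∈ pl l → G.key (eF F) ⊆ CC ∪ pts B ∪ UU X A)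
    (hk' : ∀ F i, pay F i ∈ X → eF F ∉ pl l → G.key (eF F) ⊆ CC ∪ pts B ∪ UU X A ∪ K)
    (E0 : Finset (Ed r N P Ln)) (g : ℕ)
    (hE : ∀ e ∈ E0, e ∉ pl l ∧ ¬ IsQ e ∧ G.key e ⊆ CC ∪ pts B ∪ UU X A ∪ K ∧
      ∑ v ∈ (UU X A : Finset (Vx r s N P Ln)), dn e v + g ≤ 8 * r) :
    (E0.card : ℝ) * g * hh r ≤ A.card * hh r + k0 + k1 + 5 * er (Ed r N P Ln) ζ := by
  have hsub : ∀ e v, v ∈ (UU X A : Finset (Vx r s N P Ln)) → (dn e v : ℝ) * hh r ≠ 0 →
      G.key e ⊆ CC ∪ pts B ∪ UU X A ∨ ∃ F i, e = eF F ∧ pay F i ∈ X := fun e v hv h => by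
    rcases dn_UU hv (ne_WN3 h) with ⟨w, t, rfl, hw⟩ | h'
    · exact Or.inl ((G.key_sub _).trans (ed_O_sub hO D hp hw t))
    · exact Or.inr h'
  have h := G.master hl IsQ CC (pts B) (UU X A) K
    (fun e he => by
      rcases e with x | y
      · exact ed_Q_sub hO D x
      · exact he.elim)
    (lemQ hO G hl hQ) h0 h1 (fun e v => (dn e v : ℝ) * hh r)
    (fun e v => mul_nonneg (Nat.cast_nonneg _) (hh_pos r).le) (ds_WN3 hO D) (dt_WN3 hO _)
    (fun v _ => by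
      rw [ld_WN3, ← qq_hh r]
      exact mul_le_mul_of_nonneg_right (Nat.cast_le.2 (ld_le hO v)) (hh_pos r).le)
    (fun e he v hv => by
      rcases e with x | y
      · by_contra h
        obtain ⟨c, rfl⟩ := (mem_CN v).1 (dn_Q (ne_WN3 h))
        simp [mem_UU] at hv
      · exact he.elim)
    (fun e he v hv h => by
      rcases hsub e v hv h with h' | ⟨F, i, rfl, h'⟩
      · exact h'
      · exact hk F i h' he)
    (fun e he v hv h => by
      rcases hsub e v hv h with h' | ⟨F, i, rfl, h'⟩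
      · exact h'.trans subset_union_left
      · exact hk' F i h' he)
    E0 fun e he => ⟨(hE e he).1, (hE e he).2.1, (hE e he).2.2.1⟩
  have a1 : ∑ v ∈ (UU X A : Finset (Vx r s N P Ln)),
      (1 - ∑ e : Ed r N P Ln, (dn e v : ℝ) * hh r) = A.card * hh r := by
    rw [← spare_UU hO hX A, Nat.cast_sum, sum_mul]
    refine sum_congr rfl fun v _ => ?_
    rw [ld_WN3, Nat.cast_sub (ld_le hO v), sub_mul, qq_hh]
  have a2 : (E0.card : ℝ) * g * hh r ≤
      ∑ e ∈ E0, (de r - ∑ v ∈ (UU X A : Finset (Vx r s N P Ln)), (dn e v : ℝ) * hh r) := by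
    rw [mul_assoc, ← nsmul_eq_mul]
    refine card_nsmul_le_sum _ _ _ fun e he => ?_
    have b1 : ((∑ v ∈ (UU X A : Finset (Vx r s N P Ln)), dn e v + g : ℕ) : ℝ) ≤ (8 * r : ℕ) :=
      Nat.cast_le.2 (hE e he).2.2.2
    have b2 := mul_le_mul_of_nonneg_right b1 (hh_pos r).le
    push_cast at b2
    rw [← sum_mul, de]
    linarith
  linarith

/-- A point whose edges are played has at most one unit left. -/
theorem low_of_own (hO : Ok r s) (G : Play (ed D s) r (de r) ζ)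
    {l : List (Ed r N P Ln × Finset (Vx r s N P Ln))} (hl : l <:+ G.ps) {p : P}
    (h : Own l (.pt p)) : G.ν l CC {.nv (.pt p)} ≤ hh r + 2 * er (Ed r N P Ln) ζ := by
  have h1 := G.lemV hl CC (.nv (.pt p)) (univ.image fun t => eO (.pt p) t) fun e he => by
    obtain ⟨t, -, rfl⟩ := mem_image.1 he
    refine ⟨(mem_ed_O hO D _ t _).2 (Or.inr (Or.inl rfl)), fun v hv => ?_⟩
    rcases (mem_ed_O hO D _ t _).1 hv with a | a | ⟨π, a, -⟩ | ⟨k, -, -, a⟩
    · exact mem_insert_of_mem (mem_union_left _ a)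
    · exact mem_insert.2 (Or.inl a)
    · simp at a
    · exact mem_insert_of_mem (mem_union_right _ (mem_insert_of_mem (a ▸ cc_mem_CN 0 t k)))
  rw [inter_eq_left.2 (fun e he => by
    obtain ⟨t, -, rfl⟩ := mem_image.1 he
    exact h t), card_image_of_injective _ (fun t t' a => by simpa using a), card_univ,
    Fintype.card_fin] at h1
  have h2 := al_de r
  have h3 : max 0 (1 - de r * (al r : ℝ)) ≤ hh r := max_le (hh_pos r).le (by linarith)
  linarith

/-- A point with little entropy has all its edges played. -/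
theorem own_of_low (hS : Sm D s ζ) (G : Play (ed D s) r (de r) ζ)
    {l : List (Ed r N P Ln × Finset (Vx r s N P Ln))} (hl : l <:+ G.ps) (hQ : HasQ l) {p : P}
    (h : G.ν l CC {.nv (.pt p)} ≤ 3 * hh r) : Own l (.pt p) := by
  intro t
  by_contra ht
  have e1 : (UU ∅ ∅ : Finset (Vx r s N P Ln)) = ∅ := by simp [UU, pts, cvs]
  have e2 : (pts ∅ : Finset (Vx r s N P Ln)) = ∅ := by simp [pts]
  have h1 := lemM hS.ok G hl hQ ∅ ∅ ∅ {.nv (.pt p)} (by simp) (by simp) (k0 := 0)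
    (k1 := 3 * hh r) ((G.cal.cap _ _ _).trans (by simp [pts]))
    (by rwa [e1, e2, union_empty, union_empty]) (by simp) (by simp) {eO (.pt p) t} 16
    fun e he => by
      rw [mem_singleton.1 he, e1, e2, union_empty, union_empty, sum_empty]
      refine ⟨ht, id, (G.key_sub _).trans fun v hv => ?_, by have := hS.ok.hr; omega⟩
      rcases (mem_ed_O hS.ok D _ t _).1 hv with a | a | ⟨π, a, -⟩ | ⟨k, -, -, a⟩
      · exact mem_union_left _ (mem_union_left _ a)
      · exact mem_union_right _ (mem_singleton.2 a)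
      · simp at a
      · exact mem_union_left _ (mem_union_right _ (mem_insert_of_mem (a ▸ cc_mem_CN 0 t k)))
  rw [card_singleton, card_empty] at h1
  push_cast at h1
  linarith [hS.small, hh_pos r]

/-- A finished line determines its target. -/
theorem line_fd (hO : Ok r s) (G : Play (ed D s) r (de r) ζ)
    {l : List (Ed r N P Ln × Finset (Vx r s N P Ln))} (hl : l <:+ G.ps) {e : Ln}
    (hR : Right G (.L e)) (he : eF (.L e) ∈ pl l) (h1 : ∀ i, Own l (.cv (.L e, i)))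
    (h2 : ∀ (i : Fin r) (k : Fin 15), (k : ℕ) < 7 → Own l (.tk (.L e, i) k)) :
    G.ν l (CC ∪ pts (Src D e)) {.nv (.pt (D.I.tgt e))} ≤ 3 * er (Ed r N P Ln) ζ := by
  set X : Finset (Cp r N Ln) := PY r (.L e) with hXd
  have hp : ∀ z ∈ X, ∀ p ∈ rpar D.I z, p ∈ (∅ : Finset P) ∨ p ∈ Src D e :=
    fun z hz p h => Or.inr (rpar_L D hz p h)
  have hc : (cvs X : Finset (Vx r s N P Ln)) ⊆ UU X ∅ := subset_union_right.trans subset_union_left
  have hown : ∀ w : NV r N P Ln, (Vx.nv w : Vx r s N P Ln) ∈ UU X ∅ → Own l w := fun w hw => by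
    rcases (mem_UU _ _ _).1 hw with ⟨p, a, -⟩ | ⟨z, a, b⟩ | ⟨z, a, k, b, c⟩
    · simp at a
    · obtain ⟨i, rfl⟩ := (mem_PY _ _).1 a
      rw [Vx.nv.inj b]
      exact h1 i
    · obtain ⟨i, rfl⟩ := (mem_PY _ _).1 a
      rw [Vx.nv.inj c]
      exact h2 i k b
  have g1 := G.lemG hl (CC ∪ pts (Src D e)) (UU X ∅) (fun e v => (dn e v : ℝ) * hh r)
    (fun e v => mul_nonneg (Nat.cast_nonneg _) (hh_pos r).le) (ds_WN3 hO D) (dt_WN3 hO _)
    fun e' _ v hv h => by
      rcases dn_UU hv (ne_WN3 h) with ⟨w, t, rfl, hw⟩ | ⟨F, i, rfl, h'⟩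
      · exact (G.key_sub _).trans (ed_O_sub hO D hp hw t)
      · rw [role_L h', hR]
        exact hc.trans subset_union_right
  have g2 : ∑ v ∈ (UU X ∅ : Finset (Vx r s N P Ln)) \ (CC ∪ pts (Src D e)),
      max 0 (1 - ∑ e' ∈ pl l, (dn e' v : ℝ) * hh r) = 0 := by
    refine sum_eq_zero fun v hv => ?_
    have hv' := (mem_sdiff.1 hv).1
    have b1 : ∑ e' ∈ pl l, (dn e' v : ℝ) * hh r = ∑ e' : Ed r N P Ln, (dn e' v : ℝ) * hh r := by
      refine sum_subset (subset_univ _) fun e' _ h => ?_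
      by_contra h'
      rcases dn_UU hv' (ne_WN3 h') with ⟨w, t, rfl, hw⟩ | ⟨F, i, rfl, h''⟩
      · exact h (hown w hw t)
      · exact h (role_L h'' ▸ he)
    have b2 : ld v = qq r := by
      rcases (mem_UU _ _ _).1 hv' with ⟨p, a, -⟩ | ⟨z, a, rfl⟩ | ⟨z, a, k, b, rfl⟩
      · simp at a
      · exact ld_cv hO ⟨_, (mem_PY _ _).1 a⟩
      · have := ld_tk hO (P := P) z k
        rwa [if_pos b, add_zero] at this
    rw [b1, ld_WN3, b2, qq_hh, sub_self, max_self]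
  have g3 := G.lemFD hl he (A := CC ∪ pts (Src D e) ∪ UU X ∅) (B := {.nv (.pt (D.I.tgt e))})
    (by rw [hR]; exact hc.trans subset_union_right)
    (singleton_subset_iff.2 (mem_union_right _ ((mem_ed_F D _ _).2 (Or.inr (Or.inl rfl)))))
  have g4 := G.cal.chain l (CC ∪ pts (Src D e)) (UU X ∅) {.nv (.pt (D.I.tgt e))}
  have g5 := G.cal.mono l (CC ∪ pts (Src D e)) _ {.nv (.pt (D.I.tgt e))}
    (UU X ∅ ∪ {.nv (.pt (D.I.tgt e))}) le_rfl (subset_union_right.trans subset_union_right)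
  linarith

end Pool.Agent.SemiRandom.Fix
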