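import Pool.Agent.P.MP_c53d0e_pr.WN2
import Pool.Agent.P.MP_c53d0e_pr.WN3

set_option autoImplicit false
set_option linter.unusedSectionVars false

namespace Pool.Agent.SemiRandom.Fix

open Finset Und

variable {r s N : ℕ} {P Ln : Type} [NeZero r] [Fintype P] [DecidableEq P] [Fintype Ln]
  [DecidableEq Ln] {D : Dat r N P Ln} {ζ : ℝ}

lemma exists_missing (G : Play (ed D s) r (de r) ζ) {F : FD N Ln} (h : ¬ Right G F) :
    ∃ i, (Vx.nv (.cv (pay F i)) : Vx r s N P Ln) ∉ G.key (eF F) := by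
  by_contra h'
  refine h (eq_of_subset_of_card_le (fun v hv => ?_) (by rw [G.key_card, card_cvs_PY])).symm
  obtain ⟨z, hz, rfl⟩ := (mem_cvs _ _).1 hv
  obtain ⟨i, rfl⟩ := (mem_PY _ _).1 hz
  exact by_contra fun k => h' ⟨i, k⟩

/-- A payer outside the random part is fatal. -/
theorem wrong_key (hS : Sm D s ζ) (G : Play (ed D s) r (de r) ζ) (F : FD N Ln) (i : Fin r)
    (hi : (Vx.nv (.cv (pay F i)) : Vx r s N P Ln) ∉ G.key (eF F))
    (X : Finset (Cp r N Ln)) (A : Finset P) (hA : A.card ≤ 7) (hX : ∀ z ∈ X, IsPay z)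
    (hp : ∀ z ∈ X, ∀ p ∈ rpar D.I z, p ∈ A) (h1 : pay F i ∉ X)
    (h2 : ∀ i', i' ≠ i → pay F i' ∈ X) (h3 : (Vx.nv (tgtv D F) : Vx r s N P Ln) ∈ UU X A)
    (h4 : ∀ F' i', pay F' i' ∈ X → F' ≠ F → G.key (eF F') ⊆ CC ∪ UU X A) : False := by
  obtain ⟨l, -, hl, hF, hQ⟩ := beforeF hS G F
  have k : ∀ F' i', pay F' i' ∈ X → G.key (eF F') ⊆ CC ∪ pts ∅ ∪ UU X A := fun F' i' h v hv => by
    have : v ∈ CC ∪ UU X A := by
      by_cases hF' : F' = F
      · subst hF'
        rcases (mem_ed_F D F' v).1 (G.key_sub _ hv) with a | rfl | ⟨j, rfl⟩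
        · exact mem_union_left _ (mem_union_left _ a)
        · exact mem_union_right _ h3
        · exact mem_union_right _ ((cv_mem_UU _ _ _).2 (h2 j fun a => hi (a ▸ hv)))
      · exact h4 F' i' h hF' hv
    simpa only [pts, image_empty, union_empty] using this
  obtain ⟨j, hj⟩ : ∃ j : Fin r, j ≠ i := by
    have : Nontrivial (Fin r) := Fin.nontrivial_iff_two_le.2 hS.ok.hr
    exact exists_ne i
  have h := lemM hS.ok G hl hQ X A ∅ ∅ hX (fun z hz p h => Or.inl (hp z hz p h)) (k0 := 0)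
    (k1 := 0) ((G.cal.cap _ _ _).trans (by simp [pts])) ((G.cal.cap _ _ _).trans (by simp))
    (fun F' i' h _ => k F' i' h) (fun F' i' h _ => (k F' i' h).trans subset_union_left)
    {eF F} 8 fun e he => by
      rw [mem_singleton.1 he]
      exact ⟨hF, id, (k F j (h2 j hj)).trans subset_union_left, gap_F hS.ok F X A h1⟩
  have a1 : (A.card : ℝ) ≤ 7 := by exact_mod_cast hA
  have a2 := mul_le_mul_of_nonneg_right a1 (hh_pos r).le
  rw [card_singleton] at h
  push_cast at h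
  linarith [hS.small, hh_pos r]

theorem right_L (hS : Sm D s ζ) (G : Play (ed D s) r (de r) ζ) (e : Ln) : Right G (.L e) := by
  by_contra h
  obtain ⟨i, hi⟩ := exists_missing G h
  refine wrong_key hS G (.L e) i hi ((PY r (.L e)).erase (pay (.L e) i))
    (insert (D.I.tgt e) (Src D e)) ((card_insert_le _ _).trans (by have := card_Src D e; omega))
    (fun z hz => ⟨_, (mem_PY _ _).1 (mem_of_mem_erase hz)⟩)
    (fun z hz p hp => mem_insert_of_mem (rpar_L D (mem_of_mem_erase hz) p hp)) (notMem_erase _ _)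
    (fun i' h' => mem_erase.2 ⟨fun a => h' (pay_inj _ a), (mem_PY _ _).2 ⟨i', rfl⟩⟩)
    ((pt_mem_UU _ _ _).2 (mem_insert_self _ _))
    fun F' i' h1 h2 => (h2 (role_L (mem_of_mem_erase h1))).elim

end Pool.Agent.SemiRandom.Fix
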