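import Pool.Agent.P.MP_c53d0e_pr.WN4

set_option autoImplicit false
set_option linter.unusedSectionVars false

namespace Pool.Agent.SemiRandom.Fix

open Finset Und

variable {r s N : ℕ} {P Ln : Type} [NeZero r] [Fintype P] [DecidableEq P] [Fintype Ln]
  [DecidableEq Ln] {D : Dat r N P Ln} {ζ : ℝ}

/-- Finished payers of earlier stages. -/
def Old_WN5 (G : Play (ed D s) r (de r) ζ) (k : ℕ) (T : Finset (Cp r N Ln)) (A : Finset P) :
    Prop := ∀ z ∈ T, IsPay z ∧ (∀ p ∈ rpar D.I z, p ∈ A) ∧ stF z.1 < k ∧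
      ∀ F i, z = pay F i → G.key (eF F) ⊆ cvs T

lemma UU_mono_WN5 {X X' : Finset (Cp r N Ln)} {A A' : Finset P} (h : X ⊆ X') (h' : A ⊆ A') :
    (UU X A : Finset (Vx r s N P Ln)) ⊆ UU X' A' := by
  intro v hv
  rw [mem_UU] at hv ⊢
  rcases hv with ⟨p, a, b⟩ | ⟨z, a, b⟩ | ⟨z, a, b⟩
  exacts [Or.inl ⟨p, h' a, b⟩, Or.inr (Or.inl ⟨z, h a, b⟩), Or.inr (Or.inr ⟨z, h a, b⟩)]

lemma cvs_sub_WN5 {X X' : Finset (Cp r N Ln)} (A : Finset P) (h : X ⊆ X') :
    (cvs X : Finset (Vx r s N P Ln)) ⊆ CC ∪ UU X' A := by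
  intro v hv
  obtain ⟨z, hz, rfl⟩ := (mem_cvs _ _).1 hv
  exact mem_union_right _ ((cv_mem_UU _ _ _).2 (h hz))

lemma oldD_WN5 (hS : Sm D s ζ) (G : Play (ed D s) r (de r) ζ) (j : Fin (N + 1)) :
    ∃ T A, A.card ≤ 7 ∧ Bas D ⊆ A ∧ Old_WN5 G (3 + j) T A ∧ ∀ j' : Fin N, j = j'.castSucc →
      (Vx.nv (tgtv D (.D j')) : Vx r s N P Ln) ∈ UU T A := by
  by_cases h : ∃ j' : Fin N, j = j'.castSucc
  · obtain ⟨j', rfl⟩ := h
    refine ⟨PY r (.L (D.tg j').1), Bas D ∪ Src D (D.tg j').1, (card_union_le _ _).trans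
      (by have := card_Bas D; have := card_Src D (D.tg j').1; omega), subset_union_left,
      fun z hz => ⟨⟨_, (mem_PY _ _).1 hz⟩, fun p hp => mem_union_right _ (rpar_L D hz p hp), ?_,
        fun F i e => ?_⟩, fun j'' e => ?_⟩
    · obtain ⟨i, rfl⟩ := (mem_PY _ _).1 hz
      rw [stF_pay]
      show 2 < _
      omega
    · subst e
      have c := role_L hz
      have c' := (right_L hS G (D.tg j').1).le
      rw [← c] at c' ⊢
      exact c' 
    · rw [← Fin.castSucc_injective _ e]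
      exact (cv_mem_UU _ _ _).2 ((mem_PY _ _).2 ⟨(D.tg j').2, rfl⟩)
  · exact ⟨∅, Bas D, (card_Bas D).trans (by omega), le_rfl, fun z hz => by simp at hz,
      fun j' e => (h ⟨j', e⟩).elim⟩

lemma oldE_WN5 (G : Play (ed D s) r (de r) ζ) (j : Fin (N + 1))
    (ih : ∀ j' : Fin N, j = j'.succ → Right G (.E j'.castSucc) ∧ Right G (.D j')) :
    ∃ T, Old_WN5 G (3 + j) T (Bas D) ∧
      (Vx.nv (tgtv D (.E j)) : Vx r s N P Ln) ∈ UU T (Bas D) := by
  induction j using Fin.cases with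
  | zero => exact ⟨∅, fun z hz => by simp at hz, (pt_mem_UU _ _ _).2 ((mem_Bas _ _).2 ⟨0, rfl⟩)⟩
  | succ j =>
    obtain ⟨h1, h2⟩ := ih j rfl
    refine ⟨Blk r j.castSucc, fun z hz => ⟨?_, rpar_Blk D hz, ?_, fun F i e => ?_⟩,
      (cv_mem_UU _ _ _).2 ((mem_Blk _ _).2 (Or.inl (aa_mem_E _)))⟩
    · rcases (mem_Blk _ _).1 hz with a | ⟨j', -, a⟩
      exacts [⟨_, (mem_PY _ _).1 a⟩, ⟨_, (mem_PY _ _).1 a⟩]
    · rw [stF_Blk hz, Fin.val_castSucc, Fin.val_succ]
      omega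
    · obtain ⟨a, b⟩ := role_Blk (e ▸ hz)
      have c : Right G F := by
        rcases a with rfl | ⟨j', a, rfl⟩
        exacts [h1, Fin.castSucc_injective _ a ▸ h2]
      rw [c]
      exact image_subset_image b

lemma shared_WN5 {j : Fin (N + 1)} {F F' : FD N Ln} {i i' : Fin r}
    (hF : F = .E j ∨ ∃ j' : Fin N, j = j'.castSucc ∧ F = .D j') (h : pay F' i' = pay F i)
    (hne : F' ≠ F) : pay F i = aa j := by
  rcases pay_eq h with a | ⟨j0, a, b⟩
  · exact (hne a).elim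
  · rw [← h, a]
    congr 1
    rcases b with ⟨-, rfl⟩ | ⟨-, rfl⟩ <;> rcases hF with c | ⟨j', c, c'⟩
    · exact FD.E.inj c
    · cases c'
    · cases c
    · rw [c, FD.D.inj c']

lemma right_blk_WN5 (hS : Sm D s ζ) (G : Play (ed D s) r (de r) ζ) (j : Fin (N + 1))
    (ih : ∀ j' : Fin N, j = j'.succ → Right G (.E j'.castSucc) ∧ Right G (.D j')) {F : FD N Ln}
    (hF : F = .E j ∨ ∃ j' : Fin N, j = j'.castSucc ∧ F = .D j') : Right G F := by
  by_contra h
  obtain ⟨i, hi⟩ := exists_missing G h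
  obtain ⟨T1, A, hA, hB, o1, t1⟩ := oldD_WN5 hS G j
  obtain ⟨T2, o2, t2⟩ := oldE_WN5 G j ih
  have hFB : PY r F ⊆ Blk r j := fun z hz => (mem_Blk _ _).2 (by
    rcases hF with rfl | ⟨j', a, rfl⟩
    exacts [Or.inl hz, Or.inr ⟨j', a, hz⟩])
  have tg : ∀ F' : FD N Ln, (F' = .E j ∨ ∃ j' : Fin N, j = j'.castSucc ∧ F' = .D j') →
      (Vx.nv (tgtv D F') : Vx r s N P Ln) ∈ UU (T1 ∪ T2) A := by
    rintro F' (rfl | ⟨j', a, rfl⟩)
    exacts [UU_mono_WN5 subset_union_right hB t2, UU_mono_WN5 subset_union_left le_rfl (t1 j' a)]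
  have main : ∀ Y, PY r F ⊆ Y → Y ⊆ Blk r j →
      (∀ F' i', pay F' i' ∈ Y.erase (pay F i) → F' ≠ F →
        G.key (eF F') ⊆ CC ∪ UU (Y.erase (pay F i) ∪ (T1 ∪ T2)) A) → False := by
    intro Y y1 y2 y3
    refine wrong_key hS G F i hi (Y.erase (pay F i) ∪ (T1 ∪ T2)) A hA (fun z hz => ?_)
      (fun z hz p hp => ?_) (fun hz => ?_)
      (fun i' h' => mem_union_left _ (mem_erase.2 ⟨fun a => h' (pay_inj _ a),
        y1 ((mem_PY _ _).2 ⟨i', rfl⟩)⟩))
      (UU_mono_WN5 subset_union_right le_rfl (tg F hF)) fun F' i' h1 h2 => ?_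
    · rcases mem_union.1 hz with a | a
      · rcases (mem_Blk _ _).1 (y2 (mem_of_mem_erase a)) with b | ⟨j', -, b⟩
        exacts [⟨_, (mem_PY _ _).1 b⟩, ⟨_, (mem_PY _ _).1 b⟩]
      · rcases mem_union.1 a with b | b
        exacts [(o1 z b).1, (o2 z b).1]
    · rcases mem_union.1 hz with a | a
      · exact hB (rpar_Blk D (y2 (mem_of_mem_erase a)) p hp)
      · rcases mem_union.1 a with b | b
        exacts [(o1 z b).2.1 p hp, hB ((o2 z b).2.1 p hp)]
    · have c := stF_Blk (hFB ((mem_PY _ _).2 ⟨i, rfl⟩))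
      rcases mem_union.1 hz with a | a
      · exact notMem_erase _ _ a
      · rcases mem_union.1 a with b | b
        exacts [(o1 _ b).2.2.1.ne c, (o2 _ b).2.2.1.ne c]
    · rcases mem_union.1 h1 with a | a
      · exact y3 F' i' a h2
      · rcases mem_union.1 a with b | b
        · exact ((o1 _ b).2.2.2 F' i' rfl).trans
            (cvs_sub_WN5 A (subset_union_left.trans subset_union_right))
        · exact ((o2 _ b).2.2.2 F' i' rfl).trans
            (cvs_sub_WN5 A (subset_union_right.trans subset_union_right))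
  by_cases ha : pay F i = aa j
  · refine main (PY r F) le_rfl hFB fun F' i' h1 h2 => ?_
    obtain ⟨a, b⟩ := mem_erase.1 h1
    obtain ⟨i'', c⟩ := (mem_PY _ _).1 b
    exact (a (c.trans ((shared_WN5 hF c h2).trans ha.symm))).elim
  · refine main (Blk r j) hFB le_rfl fun F' i' h1 h2 v hv => ?_
    obtain ⟨a, b⟩ := role_Blk (mem_of_mem_erase h1)
    rcases (mem_ed_F D F' v).1 (G.key_sub _ hv) with c | rfl | ⟨i'', rfl⟩
    · exact mem_union_left _ (mem_union_left _ c)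
    · exact mem_union_right _ (UU_mono_WN5 subset_union_right le_rfl (tg F' a))
    · exact mem_union_right _ ((cv_mem_UU _ _ _).2 (mem_union_left _ (mem_erase.2
        ⟨fun c => ha (shared_WN5 hF c h2), b ((mem_PY _ _).2 ⟨i'', rfl⟩)⟩)))

/-- One step of the induction along the chain. -/
theorem right_step (hS : Sm D s ζ) (G : Play (ed D s) r (de r) ζ) (j : Fin (N + 1))
    (ih : ∀ j' : Fin N, j = j'.succ → Right G (.E j'.castSucc) ∧ Right G (.D j')) :
    Right G (.E j) ∧ ∀ j' : Fin N, j = j'.castSucc → Right G (.D j') := by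
  exact ⟨right_blk_WN5 hS G j ih (Or.inl rfl),
    fun j' h => right_blk_WN5 hS G j ih (Or.inr ⟨j', h, rfl⟩)⟩

theorem right_all (hS : Sm D s ζ) (G : Play (ed D s) r (de r) ζ) (F : FD N Ln) : Right G F := by
  have key : ∀ j : Fin (N + 1),
      Right G (.E j) ∧ ∀ j' : Fin N, j = j'.castSucc → Right G (.D j') := by
    intro j
    induction j using Fin.induction with
    | zero => exact right_step hS G 0 fun j' h => (Fin.succ_ne_zero j' h.symm).elim
    | succ j ih =>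
      refine right_step hS G _ fun j' h => ?_
      rw [← Fin.succ_injective _ h]
      exact ⟨ih.1, ih.2 j rfl⟩
  cases F with
  | L e => exact right_L hS G e
  | D j => exact (key j.castSucc).2 j rfl
  | E j => exact (key j).1

end Pool.Agent.SemiRandom.Fix
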