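import Pool.Agent.P.MP_c53d0e_pr.WN4

set_option autoImplicit false
set_option linter.unusedSectionVars false

namespace Pool.Agent.SemiRandom.Fix

open Finset Und

variable {r s N : ℕ} {P Ln : Type} [NeZero r] [Fintype P] [DecidableEq P] [Fintype Ln]
  [DecidableEq Ln] {D : Dat r N P Ln} {ζ : ℝ}

lemma empty_WN6 (G : Play (ed D s) r (de r) ζ)
    (l : List (Ed r N P Ln × Finset (Vx r s N P Ln))) : G.ν l CC (pts ∅) ≤ 0 := by
  have h := G.cal.cap l CC (pts ∅)
  simpa [pts] using h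

lemma isPay_WN6 {j : Fin (N + 1)} {z : Cp r N Ln} (h : z ∈ Blk r j) : IsPay z := by
  rcases (mem_Blk j z).1 h with h | ⟨j', -, h⟩
  · obtain ⟨i, hi⟩ := (mem_PY _ _).1 h
    exact ⟨_, i, hi⟩
  · obtain ⟨i, hi⟩ := (mem_PY _ _).1 h
    exact ⟨_, i, hi⟩

lemma key_WN6 (G : Play (ed D s) r (de r) ζ) (hR : ∀ F, Right G F) {F : FD N Ln}
    {X : Finset (Cp r N Ln)} (A : Finset P) (h : PY r F ⊆ X) :
    G.key (eF F) ⊆ CC ∪ pts ∅ ∪ UU X A := by
  intro v hv
  rw [hR F] at hv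
  obtain ⟨z, hz, rfl⟩ := (mem_cvs _ _).1 hv
  exact mem_union_right _ ((cv_mem_UU _ _ _).2 (h hz))

lemma fd_WN6 (G : Play (ed D s) r (de r) ζ) (hR : ∀ F, Right G F)
    {l : List (Ed r N P Ln × Finset (Vx r s N P Ln))} (hl : l <:+ G.ps) {F : FD N Ln}
    (hk : eF F ∈ pl l) {X : Finset (Cp r N Ln)} (A : Finset P) (h : PY r F ⊆ X) :
    G.ν l (CC ∪ pts ∅ ∪ UU X A) {.nv (tgtv D F)} ≤ er (Ed r N P Ln) ζ := by
  refine G.lemFD hl hk (key_WN6 G hR A h) ?_
  intro v hv
  rw [mem_singleton] at hv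
  exact mem_union_right _ ((mem_ed_F D F v).2 (Or.inr (Or.inl hv)))

lemma parents_WN6 (D : Dat r N P Ln) (F : FD N Ln) :
    ∃ A : Finset P, A.card ≤ 6 ∧ Bas D ⊆ A ∧ ∀ z ∈ PY r F, ∀ p ∈ rpar D.I z, p ∈ A := by
  have hB := card_Bas D
  cases F with
  | L e =>
    have h1 := card_Src D e
    have h2 := card_union_le (Bas D) (Src D e)
    exact ⟨Bas D ∪ Src D e, by omega, subset_union_left,
      fun z hz p hp => mem_union_right _ (rpar_L D hz p hp)⟩
  | D j =>
    exact ⟨Bas D, by omega, Subset.refl _, fun z hz p hp =>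
      rpar_Blk D (j := j.castSucc) ((mem_Blk _ z).2 (Or.inr ⟨j, rfl, hz⟩)) p hp⟩
  | E j =>
    exact ⟨Bas D, by omega, Subset.refl _, fun z hz p hp =>
      rpar_Blk D (j := j) ((mem_Blk _ z).2 (Or.inl hz)) p hp⟩

/-- A target that pays in a block edge is the main vertex of that block. -/
lemma main_WN6 {Fk F : FD N Ln} {i : Fin r} (ht : tgtv D Fk = .cv (pay F i)) {j : Fin N}
    (hF : F = .D j ∨ F = .E j.castSucc) : pay F i = aa j.castSucc := by
  have h0 : (∃ e k, pay F i = (.L e, k)) ∨ ∃ j', pay F i = aa j' := by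
    cases Fk with
    | L e => simp [tgtv] at ht
    | D j1 =>
      simp only [tgtv, NV.cv.injEq] at ht
      exact Or.inl ⟨_, _, ht.symm⟩
    | E j1 =>
      induction j1 using Fin.cases with
      | zero => simp [tgtv] at ht
      | succ j2 =>
        simp only [tgtv, Fin.cases_succ, NV.cv.injEq] at ht
        exact Or.inr ⟨_, ht.symm⟩
  rcases hF with rfl | rfl
  · by_cases hi : (i : ℕ) = 0
    · have : i = 0 := Fin.ext (by simpa using hi)
      subst this
      simp [pay, aa]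
    · rcases h0 with ⟨e, k, h⟩ | ⟨j', h⟩ <;> simp [pay, aa, hi] at h
  · rcases h0 with ⟨e, k, h⟩ | ⟨j', h⟩
    · simp [pay] at h
    · simp only [pay, aa, Prod.mk.injEq] at h
      simp [pay, aa, h.2]

lemma only_WN6 {Fk F F' : FD N Ln} {i i' : Fin r} (ht : tgtv D Fk = .cv (pay F i))
    (h : pay F' i' ∈ (PY r F).erase (pay F i)) : F' = F := by
  obtain ⟨h1, h2⟩ := mem_erase.1 h
  obtain ⟨k, hk⟩ := (mem_PY _ _).1 h2
  rcases pay_eq hk with h3 | ⟨j, h3, h4⟩
  · exact h3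
  · exfalso
    apply h1
    rw [h3]
    rcases h4 with h4 | h4
    · exact (main_WN6 ht (Or.inr h4.2)).symm
    · exact (main_WN6 ht (Or.inl h4.2)).symm

/-- An edge cannot be played after one of its payers has been destroyed. -/
theorem role_before (hS : Sm D s ζ) (G : Play (ed D s) r (de r) ζ) (hR : ∀ F, Right G F)
    {l : List (Ed r N P Ln × Finset (Vx r s N P Ln))} (hl : l <:+ G.ps) {j : Fin (N + 1)}
    {Fk F : FD N Ln} (hk : eF Fk ∈ pl l) (hj : PY r Fk ⊆ Blk r j) {i : Fin r}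
    (ht : tgtv D Fk = .cv (pay F i)) (hF : stF F < 3 + j) : eF F ∈ pl l := by
  by_contra hn
  obtain ⟨A, hA, hB, hP⟩ := parents_WN6 D F
  have hz : pay F i ∉ Blk r j ∪ (PY r F).erase (pay F i) := by
    intro h
    rcases mem_union.1 h with h | h
    · have h1 := stF_Blk h
      rw [stF_pay] at h1
      omega
    · exact (mem_erase.1 h).1 rfl
  have hkey : G.key (eF F) ⊆ CC ∪ pts ∅ ∪ UU (Blk r j ∪ (PY r F).erase (pay F i)) A ∪
      {Vx.nv (.cv (pay F i))} := by
    intro v hv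
    rw [hR F] at hv
    obtain ⟨z, hz', rfl⟩ := (mem_cvs _ _).1 hv
    by_cases h : z = pay F i
    · exact mem_union_right _ (by rw [h]; exact mem_singleton_self _)
    · exact mem_union_left _ (mem_union_right _
        ((cv_mem_UU _ _ _).2 (mem_union_right _ (mem_erase.2 ⟨h, hz'⟩))))
  have h1 := fd_WN6 G hR hl hk A (hj.trans (subset_union_left (s₂ := (PY r F).erase (pay F i))))
  rw [ht] at h1
  have hM := lemM hS.ok G hl (lemZ hS G hl hk) (Blk r j ∪ (PY r F).erase (pay F i)) A ∅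
    {Vx.nv (.cv (pay F i))} ?_ ?_ (empty_WN6 G l) h1 ?_ ?_ {eF F} 8 ?_
  · have h2 := hS.small
    have h3 := hh_pos r
    have h4 : (A.card : ℝ) ≤ 6 := by exact_mod_cast hA
    have h5 := mul_le_mul_of_nonneg_right h4 h3.le
    simp only [card_singleton, Nat.cast_one, Nat.cast_ofNat] at hM
    linarith
  · intro z h
    rcases mem_union.1 h with h | h
    · exact isPay_WN6 h
    · obtain ⟨k, hk⟩ := (mem_PY _ _).1 (mem_erase.1 h).2
      exact ⟨F, k, hk⟩
  · intro z h p hp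
    rcases mem_union.1 h with h | h
    · exact Or.inl (hB (rpar_Blk D h p hp))
    · exact Or.inl (hP z (mem_erase.1 h).2 p hp)
  · intro F' i' h hpl
    rcases mem_union.1 h with h | h
    · exact key_WN6 G hR A ((role_Blk h).2.trans subset_union_left)
    · rw [only_WN6 ht h] at hpl
      exact absurd hpl hn
  · intro F' i' h _
    rcases mem_union.1 h with h | h
    · exact (key_WN6 G hR A ((role_Blk h).2.trans subset_union_left)).trans subset_union_left
    · rw [only_WN6 ht h]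
      exact hkey
  · intro e he
    rw [mem_singleton] at he
    subst he
    exact ⟨hn, fun h => h, hkey, gap_F hS.ok F _ A hz⟩

lemma zero_WN6 {X : Finset (Cp r N Ln)} {A : Finset P} {w : NV r N P Ln} (t : Fin (al r))
    (hw : (Vx.nv w : Vx r s N P Ln) ∉ UU X A) :
    ∑ v ∈ (UU X A : Finset (Vx r s N P Ln)), dn (eO w t : Ed r N P Ln) v = 0 := by
  refine sum_eq_zero fun v hv => ?_
  by_contra h
  rcases dn_O h with h | ⟨τ, h1, h2⟩
  · exact hw (h ▸ hv)
  · obtain ⟨z, i, rfl, rfl, -⟩ := ptk_cases h1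
    rw [h2, tk_mem_UU] at hv
    exact hw ((cv_mem_UU _ _ _).2 hv.1)

lemma edO_WN6 (hO : Ok r s) {w : NV r N P Ln} {t : Fin (al r)} {S : Finset (Vx r s N P Ln)}
    (hC : CC ⊆ S) (hw : Vx.nv w ∈ S) (hp : ∀ π, par D.I w t = some π → Vx.nv π ∈ S) :
    ed D s (eO w t) ⊆ S := by
  intro v hv
  rcases (mem_ed_O hO D w t v).1 hv with h | rfl | ⟨π, h, rfl⟩ | ⟨k, -, -, rfl⟩
  · exact hC (mem_union_left _ h)
  · exact hw
  · exact hp π h
  · exact hC (mem_union_right _ (mem_insert_of_mem (cc_mem_CN _ _ _)))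

/-- The master inequality for the block of a played destroyer. -/
lemma blk_WN6 (hS : Sm D s ζ) (G : Play (ed D s) r (de r) ζ) (hR : ∀ F, Right G F)
    {l : List (Ed r N P Ln × Finset (Vx r s N P Ln))} (hl : l <:+ G.ps) (hQ : HasQ l)
    (j : Fin (N + 1)) (K : Finset (Vx r s N P Ln)) {k1 : ℝ}
    (h1 : G.ν l (CC ∪ pts ∅ ∪ UU (Blk r j) (Bas D)) K ≤ k1) (E0 : Finset (Ed r N P Ln))
    (hE : ∀ e ∈ E0, e ∉ pl l ∧ ∃ w t, e = eO w t ∧
      (Vx.nv w : Vx r s N P Ln) ∉ UU (Blk r j) (Bas D) ∧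
      ed D s e ⊆ CC ∪ pts ∅ ∪ UU (Blk r j) (Bas D) ∪ K) :
    (E0.card : ℝ) * de r ≤ 4 * hh r + k1 + 5 * er (Ed r N P Ln) ζ := by
  have hM := lemM hS.ok G hl hQ (Blk r j) (Bas D) ∅ K (fun z h => isPay_WN6 h)
    (fun z h p hp => Or.inl (rpar_Blk D h p hp)) (empty_WN6 G l) h1
    (fun F i h _ => key_WN6 G hR _ (role_Blk h).2)
    (fun F i h _ => (key_WN6 G hR _ (role_Blk h).2).trans subset_union_left) E0 (8 * r) ?_
  · have h3 := hh_pos r
    have h4 : ((Bas D).card : ℝ) ≤ 4 := by exact_mod_cast card_Bas D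
    have h5 := mul_le_mul_of_nonneg_right h4 h3.le
    have h6 : (E0.card : ℝ) * ((8 * r : ℕ) : ℝ) * hh r = E0.card * de r := by
      rw [de]
      push_cast
      ring
    linarith
  · intro e he
    obtain ⟨h2, w, t, rfl, h3, h4⟩ := hE e he
    refine ⟨h2, fun h => h, (G.key_sub _).trans h4, ?_⟩
    rw [zero_WN6 t h3, zero_add]

lemma two_WN6 (hS : Sm D s ζ) (G : Play (ed D s) r (de r) ζ) (hR : ∀ F, Right G F)
    {l : List (Ed r N P Ln × Finset (Vx r s N P Ln))} (hl : l <:+ G.ps) (hQ : HasQ l)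
    (j : Fin (N + 1)) {z : Cp r N Ln} (hz : z ∉ Blk r j)
    (h1 : G.ν l (CC ∪ pts ∅ ∪ UU (Blk r j) (Bas D)) {.nv (.cv z)} ≤ er (Ed r N P Ln) ζ)
    {t : Fin (al r)} {τ : NV r N P Ln} (ht : par D.I (.cv z) t = some τ)
    (hτ : ∀ b, τ ≠ .pt (D.I.bas b)) : eO (.cv z) t ∈ pl l ∧ Own l τ := by
  have hO := hS.ok
  have hc : (∀ t' : ℕ, par D.I τ t' = none) ∧ τ ≠ .cv z ∧
      (Vx.nv τ : Vx r s N P Ln) ∉ UU (Blk r j) (Bas D) := by
    rcases par_cases ht with h | ⟨p, -, rfl⟩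
    · obtain ⟨z', i, h2, rfl, -⟩ := ptk_cases h
      obtain rfl : z = z' := NV.cv.inj h2
      exact ⟨fun t' => par_tk _ _ _ _, by simp, fun h3 => hz ((tk_mem_UU _ _ _ _).1 h3).1⟩
    · refine ⟨fun t' => par_pt _ _ _, by simp, fun h3 => ?_⟩
      obtain ⟨b, rfl⟩ := (mem_Bas _ _).1 ((pt_mem_UU _ _ _).1 h3)
      exact hτ b rfl
  obtain ⟨hc1, hc2, hc3⟩ := hc
  obtain ⟨S, hS'⟩ : ∃ S : Finset (Vx r s N P Ln), S = CC ∪ pts ∅ ∪ UU (Blk r j) (Bas D) :=
    ⟨_, rfl⟩
  have hCS : CC ⊆ S := by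
    rw [hS']
    exact subset_union_left.trans subset_union_left
  obtain ⟨Es, hEs⟩ : ∃ Es : Finset (Ed r N P Ln),
      Es = insert (eO (.cv z) t) (univ.image fun t' => eO τ t') := ⟨_, rfl⟩
  have hmem : ∀ e, e ∈ Es ↔ e = eO (.cv z) t ∨ ∃ t', e = eO τ t' := by
    intro e
    simp only [hEs, mem_insert, mem_image, mem_univ, true_and, eq_comm]
  have hcard : Es.card = al r + 1 := by
    rw [hEs, card_insert_of_notMem, card_image_of_injective, card_univ, Fintype.card_fin]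
    · intro a b h
      simpa using h
    · simp only [mem_image, mem_univ, true_and, not_exists]
      intro t' h
      simp only [Sum.inr.injEq, Sum.inl.injEq, Prod.mk.injEq] at h
      exact hc2 h.1
  have hed : ∀ e ∈ Es, Vx.nv τ ∈ ed D s e ∧
      ed D s e ⊆ insert (Vx.nv τ) (S ∪ {Vx.nv (.cv z)}) := by
    intro e he
    have hC : CC ⊆ insert (Vx.nv τ) (S ∪ {Vx.nv (.cv z)}) :=
      (hCS.trans subset_union_left).trans (subset_insert _ _)
    rcases (hmem e).1 he with rfl | ⟨t', rfl⟩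
    · refine ⟨(mem_ed_O hO D _ _ _).2 (Or.inr (Or.inr (Or.inl ⟨τ, ht, rfl⟩))),
        edO_WN6 hO hC (mem_insert_of_mem (mem_union_right _ (mem_singleton_self _))) ?_⟩
      intro π h
      rw [ht] at h
      obtain rfl := Option.some.inj h
      exact mem_insert_self _ _
    · refine ⟨(mem_ed_O hO D _ _ _).2 (Or.inr (Or.inl rfl)),
        edO_WN6 hO hC (mem_insert_self _ _) ?_⟩
      intro π h
      rw [hc1] at h
      exact absurd h (by simp)
  have hall : Es ⊆ pl l := by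
    by_contra hn
    have hk : (Es ∩ pl l).card ≤ al r := by
      have : (Es ∩ pl l).card < Es.card :=
        card_lt_card ⟨inter_subset_left, fun h => hn fun e he => (mem_inter.1 (h he)).2⟩
      omega
    have hs : (Es \ pl l).card + (Es ∩ pl l).card = al r + 1 := by
      rw [card_sdiff_add_card_inter, hcard]
    have hV := G.lemV hl (S ∪ {Vx.nv (.cv z)}) (Vx.nv τ) Es hed
    have hch := G.cal.chain l S {Vx.nv (.cv z)} {Vx.nv τ}
    rw [← hS'] at h1
    have hd := de_bd hO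
    have ha := al_de r
    have hp := hh_pos r
    have hsm := hS.small
    have hk' : ((Es ∩ pl l).card : ℝ) ≤ al r := by exact_mod_cast hk
    have hs' : ((Es \ pl l).card : ℝ) = al r + 1 - (Es ∩ pl l).card := by
      have : ((Es \ pl l).card : ℝ) + (Es ∩ pl l).card = al r + 1 := by exact_mod_cast hs
      linarith
    have hmul := mul_le_mul_of_nonneg_left hk' (show 0 ≤ de r by linarith [hd.1])
    rw [max_eq_right (by linarith)] at hV
    have hM := blk_WN6 hS G hR hl hQ j ({Vx.nv (.cv z)} ∪ {Vx.nv τ}) (le_refl _)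
      (Es \ pl l) ?_
    · rw [hs', ← hS'] at hM
      nlinarith [hd.1]
    · intro e he
      obtain ⟨he1, he2⟩ := mem_sdiff.1 he
      have h5 : ed D s e ⊆ CC ∪ pts ∅ ∪ UU (Blk r j) (Bas D) ∪
          ({Vx.nv (.cv z)} ∪ {Vx.nv τ}) := by
        rw [← hS']
        intro v hv
        have h6 := (hed e he1).2 hv
        simp only [mem_insert, mem_union, mem_singleton] at h6 ⊢
        tauto
      rcases (hmem e).1 he1 with rfl | ⟨t', rfl⟩
      · exact ⟨he2, _, _, rfl, fun h => hz ((cv_mem_UU _ _ _).1 h), h5⟩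
      · exact ⟨he2, _, _, rfl, hc3, h5⟩
  exact ⟨hall ((hmem _).2 (Or.inl rfl)), fun t' => hall ((hmem _).2 (Or.inr ⟨t', rfl⟩))⟩

/-- The edges of a destroyed line payer, of its tokens and of its parent are played. -/
theorem own_before (hS : Sm D s ζ) (G : Play (ed D s) r (de r) ζ) (hR : ∀ F, Right G F)
    {l : List (Ed r N P Ln × Finset (Vx r s N P Ln))} (hl : l <:+ G.ps) {j : Fin N}
    (hk : eF (.D j) ∈ pl l) :
    Own l (.cv (.L (D.tg j).1, (D.tg j).2)) ∧
      ∀ (t : Fin (al r)) (τ : NV r N P Ln), par D.I (.cv (.L (D.tg j).1, (D.tg j).2)) t = some τ →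
        (∀ b, τ ≠ .pt (D.I.bas b)) → Own l τ := by
  have hQ := lemZ hS G hl hk
  have hz : ((.L (D.tg j).1, (D.tg j).2) : Cp r N Ln) ∉ Blk r j.castSucc := by
    intro h
    have h1 := stF_Blk h
    simp only [stF] at h1
    omega
  have h1 : G.ν l (CC ∪ pts ∅ ∪ UU (Blk r j.castSucc) (Bas D))
      {.nv (.cv (.L (D.tg j).1, (D.tg j).2))} ≤ er (Ed r N P Ln) ζ :=
    fd_WN6 G hR hl hk (Bas D) fun z h => (mem_Blk _ z).2 (Or.inr ⟨j, rfl, h⟩)
  refine ⟨fun t => ?_, fun t τ ht hτ => (two_WN6 hS G hR hl hQ _ hz h1 ht hτ).2⟩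
  by_cases hc : ∃ τ : NV r N P Ln,
      par D.I (.cv (.L (D.tg j).1, (D.tg j).2)) t = some τ ∧ ∀ b, τ ≠ .pt (D.I.bas b)
  · obtain ⟨τ, ht, hτ⟩ := hc
    exact (two_WN6 hS G hR hl hQ _ hz h1 ht hτ).1
  · by_contra hn
    have hM := blk_WN6 hS G hR hl hQ _ _ h1 {eO (.cv (.L (D.tg j).1, (D.tg j).2)) t} ?_
    · have hd := (de_bd hS.ok).1
      have hp := hh_pos r
      have hsm := hS.small
      simp only [card_singleton, Nat.cast_one] at hM
      linarith
    · intro e he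
      rw [mem_singleton] at he
      subst he
      refine ⟨hn, _, _, rfl, fun h => hz ((cv_mem_UU _ _ _).1 h), edO_WN6 hS.ok
        ((subset_union_left.trans subset_union_left).trans subset_union_left)
        (mem_union_right _ (mem_singleton_self _)) fun π h => ?_⟩
      by_contra h2
      refine hc ⟨π, h, fun b hb => h2 ?_⟩
      rw [hb]
      exact mem_union_left _ (mem_union_right _
        ((pt_mem_UU _ _ _).2 ((mem_Bas _ _).2 ⟨b, rfl⟩)))

end Pool.Agent.SemiRandom.Fix
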