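import Pool.Agent.P.MP_c53d0e_pr.WN5
import Pool.Agent.P.MP_c53d0e_pr.WN6

set_option autoImplicit false
set_option linter.unusedSectionVars false

namespace Pool.Agent.SemiRandom.Fix

open Finset Und

variable {r s N : ℕ} {P Ln : Type} [NeZero r] [Fintype P] [DecidableEq P] [Fintype Ln]
  [DecidableEq Ln] {D : Dat r N P Ln} {ζ : ℝ}

lemma sub_Blk_WN7 (j : Fin (N + 1)) : PY r (.E j : FD N Ln) ⊆ Blk r j := fun z hz =>
  (mem_Blk j z).2 (Or.inl hz)

lemma tgt_succ_WN7 (D : Dat r N P Ln) (j : Fin N) :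
    tgtv D (.E j.succ) = .cv (aa j.castSucc) := by
  simp [tgtv]

/-- All destroyers come before the last chain edge. -/
lemma D_before_WN7 (hS : Sm D s ζ) (G : Play (ed D s) r (de r) ζ)
    {l : List (Ed r N P Ln × Finset (Vx r s N P Ln))}
    (hl : (eF (.E (Fin.last N)), G.key (eF (.E (Fin.last N)))) :: l <:+ G.ps) (j : Fin N) :
    eF (.D j) ∈ pl l := by
  have hR := right_all hS G
  have hE : ∀ j : Fin (N + 1), eF (.E j) ∈
      pl ((eF (.E (Fin.last N)), G.key (eF (.E (Fin.last N)))) :: l) := by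
    intro j
    induction j using Fin.reverseInduction with
    | last => simp
    | cast j ih =>
      refine role_before hS G hR hl (j := j.succ) (i := 0) ih (sub_Blk_WN7 _)
        (tgt_succ_WN7 D j) ?_
      simp [stF]
  have h1 : eF (.D j) ∈ pl ((eF (.E (Fin.last N)), G.key (eF (.E (Fin.last N)))) :: l) := by
    refine role_before hS G hR hl (j := j.succ) (i := 0) (hE j.succ) (sub_Blk_WN7 _) ?_ ?_
    · rw [tgt_succ_WN7]
      simp [pay, aa]
    · simp [stF]
  rw [pl_cons, mem_insert] at h1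
  rcases h1 with h1 | h1
  · simp at h1
  · exact h1

/-- Everything is played before the last chain edge. -/
theorem all_before (hS : Sm D s ζ) (hG : D.Good) (G : Play (ed D s) r (de r) ζ)
    {l : List (Ed r N P Ln × Finset (Vx r s N P Ln))}
    (hl : (eF (.E (Fin.last N)), G.key (eF (.E (Fin.last N)))) :: l <:+ G.ps) :
    (∀ e, eF (.L e) ∈ pl l) ∧ (∀ e i, Own l (.cv (.L e, i))) ∧
      (∀ e (i : Fin r) (k : Fin 15), (k : ℕ) < 7 → Own l (.tk (.L e, i) k)) ∧
      ∀ e i, (∀ b, D.I.src e i ≠ D.I.bas b) → Own l (.pt (D.I.src e i)) := by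
  have hR := right_all hS G
  have hl' : l <:+ G.ps := (List.suffix_cons _ _).trans hl
  have hD := D_before_WN7 hS G hl
  have hown : ∀ (e : Ln) (i : Fin r), Own l (.cv (.L e, i)) ∧
      ∀ (t : Fin (al r)) (τ : NV r N P Ln), par D.I (.cv (.L e, i)) t = some τ →
        (∀ b, τ ≠ .pt (D.I.bas b)) → Own l τ := by
    intro e i
    obtain ⟨j, hj⟩ := hG.surj (e, i)
    have h := own_before hS G hR hl' (hD j)
    rw [hj] at h
    exact h
  refine ⟨fun e => ?_, fun e i => (hown e i).1, fun e i k hk => ?_, fun e i hi => ?_⟩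
  · obtain ⟨j, hj⟩ := hG.surj (e, 0)
    refine role_before hS G hR hl' (j := j.castSucc) (i := 0) (hD j)
      (fun z hz => (mem_Blk _ z).2 (Or.inr ⟨j, rfl, hz⟩)) ?_ ?_
    · simp [tgtv, pay, hj]
    · simp only [stF]
      omega
  · obtain ⟨t, ht⟩ := exists_priv (P := P) ((.L e, i) : Cp r N Ln) k hk
    exact (hown e i).2 t _ (par_of_ptk D.I ht).1 fun b h => by cases h
  · obtain ⟨i', hi'⟩ := src_mem_rpar (N := N) hS.ok D.I e i
    obtain ⟨t, ht⟩ := exists_real D.I _ hi'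
    exact (hown e i').2 t _ (ppt_cases ht).2.1 fun b h => hi b (NV.pt.inj h)

/-- The target of a finished line with low sources is low. -/
lemma low_step_WN7 (hS : Sm D s ζ) (G : Play (ed D s) r (de r) ζ)
    {l : List (Ed r N P Ln × Finset (Vx r s N P Ln))} (hl : l <:+ G.ps) (hQ : HasQ l) {e : Ln}
    (hf : G.ν l (CC ∪ pts (Src D e)) {.nv (.pt (D.I.tgt e))} ≤ 3 * er (Ed r N P Ln) ζ)
    (hs : ∀ i, G.ν l CC {.nv (.pt (D.I.src e i))} ≤ hh r + 2 * er (Ed r N P Ln) ζ) :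
    G.ν l CC {.nv (.pt (D.I.tgt e))} ≤ hh r + 2 * er (Ed r N P Ln) ζ := by
  refine low_of_own hS.ok G hl (own_of_low hS G hl hQ ?_)
  have h1 := G.cal.mono l CC CC {.nv (.pt (D.I.tgt e))}
    (pts (Src D e) ∪ {.nv (.pt (D.I.tgt e))}) le_rfl
    (subset_union_right.trans subset_union_right)
  have h2 := G.cal.chain l CC (pts (Src D e)) {.nv (.pt (D.I.tgt e))}
  have h3 := G.sub2 l CC {.nv (.pt (D.I.src e 0))} {.nv (.pt (D.I.src e 1))}
  have h4 := G.cal.mono l CC CC (pts (Src D e))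
    ({.nv (.pt (D.I.src e 0))} ∪ {.nv (.pt (D.I.src e 1))}) le_rfl (by
      intro v hv
      obtain ⟨p, hp, rfl⟩ := (mem_pts _ _).1 hv
      obtain ⟨i, rfl⟩ := (mem_Src D e p).1 hp
      fin_cases i <;> simp)
  have h5 := hs 0
  have h6 := hs 1
  have h7 := hS.small
  have h8 := G.er_pos
  linarith

theorem no_play (hO : Ok r s) (hG : D.Good) {η : ℝ} (hη0 : 0 < η) (hη1 : η ≤ 1)
    (hζ : 100 * (Fintype.card Ln + 1) * er (Ed r N P Ln) ζ ≤ η * hh r)
    (G : Play (ed D s) r (de r) ζ) (hst : StatG D.I (fun p => Vx.nv (.pt p)) η G.ν) : False := by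
  have he := G.er_pos
  have hh0 := hh_pos r
  have hc : (0 : ℝ) ≤ Fintype.card Ln := Nat.cast_nonneg _
  have hce : 0 ≤ (Fintype.card Ln : ℝ) * er (Ed r N P Ln) ζ := mul_nonneg hc he.le
  have hS : Sm D s ζ := ⟨hO, by nlinarith⟩
  have hR := right_all hS G
  obtain ⟨l, hl1, hl, hn, hQ⟩ := beforeF hS G (.E (Fin.last N))
  obtain ⟨hL, hcv, htk, hsrc⟩ := all_before hS hG G hl1
  have hf : ∀ e, G.ν l (CC ∪ pts (Src D e)) {.nv (.pt (D.I.tgt e))} ≤ 3 * er (Ed r N P Ln) ζ :=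
    fun e => line_fd hO G hl (hR _) (hL e) (hcv e) (htk e)
  have s1 : ∀ b, G.ν l CC {.nv (.pt (D.I.bas b))} ≤ hh r + 2 * er (Ed r N P Ln) ζ := by
    intro b
    obtain ⟨e, he1, he2⟩ := hG.cov1 b
    rw [← he1]
    exact low_step_WN7 hS G hl hQ (hf e) fun i => low_of_own hO G hl (hsrc e i (he2 i))
  have s2 : ∀ p, G.ν l CC {.nv (.pt p)} ≤ hh r + 2 * er (Ed r N P Ln) ζ := by
    intro p
    rcases hG.cov2 p with ⟨b, rfl⟩ | ⟨e, rfl, he2⟩
    · exact s1 b
    · refine low_step_WN7 hS G hl hQ (hf e) fun i => ?_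
      obtain ⟨b, hb⟩ := he2 i
      rw [hb]
      exact s1 b
  have h1 := hst l CC (hh r + 2 * er (Ed r N P Ln) ζ) (3 * er (Ed r N P Ln) ζ) (by linarith)
    (by linarith) s2 (fun e => by
      have h := hf e
      rwa [pts, Src, image_image] at h)
  have h2 := G.cal.mono l CC CC (pts (Bas D)) (univ.image fun p => Vx.nv (.pt p)) le_rfl
    ((image_subset_image (subset_univ _)).trans subset_union_right)
  have h3 : G.ν l (CC ∪ pts (Bas D) ∪ UU (PY r (.E (Fin.last N))) ∅) ∅ ≤ 0 := by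
    simpa using G.cal.cap l (CC ∪ pts (Bas D) ∪ UU (PY r (.E (Fin.last N))) ∅) ∅
  have hkey : G.key (eF (.E (Fin.last N))) ⊆
      CC ∪ pts (Bas D) ∪ UU (PY r (.E (Fin.last N))) ∅ := by
    rw [hR (.E (Fin.last N))]
    intro v hv
    obtain ⟨z, hz, rfl⟩ := (mem_cvs _ _).1 hv
    exact mem_union_right _ ((cv_mem_UU _ _ _).2 hz)
  have hrole : ∀ (F : FD N Ln) (i : Fin r), pay F i ∈ PY r (.E (Fin.last N) : FD N Ln) →
      F = .E (Fin.last N) := by
    intro F i h
    rcases (role_Blk (sub_Blk_WN7 _ h)).1 with h | ⟨j, hj, -⟩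
    · exact h
    · exact absurd hj.symm (Fin.castSucc_lt_last j).ne
  have h4 := lemM hO G hl hQ (PY r (.E (Fin.last N))) ∅ (Bas D) ∅
    (fun z hz => ⟨_, (mem_PY _ z).1 hz⟩)
    (fun z hz p hp => Or.inr (rpar_Blk D (sub_Blk_WN7 _ hz) p hp)) (h2.trans h1) h3
    (fun F i h _ => by rw [hrole F i h]; exact hkey)
    (fun F i h _ => by rw [hrole F i h]; exact hkey.trans subset_union_left)
    {eF (.E (Fin.last N))} 4 (by
      intro e he
      rw [mem_singleton] at he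
      subst he
      refine ⟨hn, fun h => h, hkey.trans subset_union_left, ?_⟩
      have h5 := sum_lv (Ln := Ln) hO (.E (Fin.last N))
      rw [if_pos rfl] at h5
      rw [dn_F_UU, sum_congr rfl fun i _ => if_pos ((mem_PY _ _).2 ⟨i, rfl⟩)]
      exact h5.le)
  simp only [card_singleton, card_empty, Nat.cast_one, Nat.cast_zero, Nat.cast_ofNat] at h4
  have h6 : 0 ≤ η * er (Ed r N P Ln) ζ := mul_nonneg hη0.le he.le
  nlinarith

end Pool.Agent.SemiRandom.Fix
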