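import Pool.Agent.P.MP_c53d0e_pr.WN7
import Pool.Agent.P.MP_c53d0e_pr.WA3
import Pool.Agent.P.MP_c53d0e_pr.WG4

set_option autoImplicit false
set_option linter.unusedSectionVars false

namespace Pool.Agent.SemiRandom.Fix

open Finset Und

open Filter Topology

variable {r s N : ℕ} {P Ln : Type} [NeZero r] [Fintype P] [DecidableEq P] [Fintype Ln]
  [DecidableEq Ln] {D : Dat r N P Ln} {ζ : ℝ}

theorem no_lose (hO : Ok r s) (D : Dat r N P Ln) (hG : D.Good) (hN : D.I.No) :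
    ∃ δ : ℝ, δ < de r ∧ ∀ q : ℝ, 0 < q → ∀ᶠ n : ℕ in atTop,
      ∀ (S : Strategy (RSet n r) (Move n r s)) (T : ℕ),
        (T : ℝ) / n.choose r ≤ (n : ℝ) ^ (-δ) → Pr S T (ContainsV (ed D s)) < q := by
  obtain ⟨η, hη0, hη1, hb⟩ := hN
  have hh0 := hh_pos r
  have hc : (0 : ℝ) < 100 * (Fintype.card Ln + 1) * (Fintype.card (Ed r N P Ln) + 1) := by
    positivity
  have hc1 : (1 : ℝ) ≤ 100 * (Fintype.card Ln + 1) * (Fintype.card (Ed r N P Ln) + 1) := by
    have a : (0 : ℝ) ≤ Fintype.card Ln := Nat.cast_nonneg _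
    have b : (0 : ℝ) ≤ Fintype.card (Ed r N P Ln) := Nat.cast_nonneg _
    nlinarith [mul_nonneg a b]
  set ζ : ℝ := η * hh r / (100 * (Fintype.card Ln + 1) * (Fintype.card (Ed r N P Ln) + 1))
    with hζ
  have z0 : 0 < ζ := div_pos (mul_pos hη0 hh0) hc
  have z1 : ζ ≤ de r := by
    have a : ζ ≤ η * hh r := div_le_self (mul_pos hη0 hh0).le hc1
    have b := (de_bd hO).1
    nlinarith
  refine ⟨de r - ζ, by linarith, fun q hq => ?_⟩
  refine lose_of_no_play hO.hs (ed_inj hO D) (card_ed hO D) D.I (fun p => Vx.nv (.pt p)) hb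
    (by push_cast; linarith) z0 z1 (fun G hst => no_play hO hG hη0 (by linarith) ?_ G hst) q hq
  rw [er, hζ]
  exact le_of_eq (by field_simp)

end Pool.Agent.SemiRandom.Fix
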