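import Pool.Agent.P.MP_c53d0e_pr.WY0
import Pool.Agent.P.MP_c53d0e_pr.GC

set_option autoImplicit false
set_option linter.unusedSectionVars false

namespace Pool.Agent.SemiRandom.Fix

open Finset Und

lemma Reach.pad {α β : Type} [Fintype α] [Fintype β] [Nonempty α] [Nonempty β] {T T' : ℕ}
    {A B : List (α × β) → Prop} {ε ε' : ℝ} (H : Reach T A B ε)
    (hB : Mono B) (hT : T ≤ T') (hε : ε ≤ ε') : Reach T' A B ε' := by
  have h1 := H.trans (Reach.of_imp (T' - T) (sub_nonneg.2 hε) hB) (sub_nonneg.2 hε)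
  rwa [Nat.add_sub_cancel' hT, add_sub_cancel] at h1

variable {V : Type} [Fintype V] [DecidableEq V] {n m r s : ℕ} [Nonempty (RSet n r)]
  [Nonempty (Move n r s)]

/-- One phase. -/
theorem phaseU (κ : V × Fin m ↪ Fin n) {e u : Finset V} (he : e.card = s) (hu : u ⊆ e)
    (hur : u.card = r) (F : Finset (V → Fin m)) (hFD : Det F u e) {T : ℕ} {D L ε : ℝ}
    (ph : Ph (Fintype.card V) n m r T D L ε)
    (hfib : (cnt F u univ : ℝ) ≤ ε * Real.exp (-D) * F.card / 4) :
    Reach T (fun _ => True) (fun h : List (RSet n r × Move n r s) => ∃ F' ⊆ F,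
      (∀ ψ ∈ F', Pres κ h e ψ) ∧ ε * Real.exp (-D) * F.card / 4 ≤ F'.card ∧
        RuleU F F' u L (Real.exp (-D))) (2 * ε) := by
  refine phase_cnt κ he hu hur F hFD ph.e0 ?_ ph.t1 ph.t2 ph.hL ?_ hfib
  · have a : Real.exp (-D) ≤ 1 := Real.exp_le_one_iff.2 (by linarith [ph.d0])
    have b := Real.exp_pos (-D)
    nlinarith [ph.e0, ph.e1]
  · have a := ph.hU
    have b : (0 : ℝ) < (2 : ℝ) ^ L := by positivity
    rw [← mul_div_assoc, div_le_iff₀ b] at a
    rw [mul_pow]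
    linarith

end Pool.Agent.SemiRandom.Fix
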