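import Pool.Agent.P.MP_c53d0e_pr.WY0
import Pool.Agent.P.MP_c53d0e_pr.GC

set_option autoImplicit false
set_option linter.unusedSectionVars false

namespace Pool.Agent.SemiRandom.Fix

open Finset Und

variable {V W : Type} [Fintype V] [DecidableEq V] [Fintype W] [DecidableEq W] [Nonempty W]

lemma selectD (F : Finset (V → W)) (A B : Finset V) :
    ∃ F' ⊆ F, F.card ≤ cnt F A B * F'.card ∧ Det F' A B := Und.select F A B

lemma cnt_of_det {F : Finset (V → W)} {A B : Finset V} (h : Det F A B) : cnt F A B = 1 := by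
  refine le_antisymm (cnt_le le_rfl fun ρ => card_le_one.2 fun a ha b hb => ?_) (one_le_cnt _ _ _)
  obtain ⟨φ, hφ, rfl⟩ := mem_image.1 ha
  obtain ⟨ψ, hψ, rfl⟩ := mem_image.1 hb
  exact res_eq_iff.2 (h φ (mem_fib.1 hφ).1 ψ (mem_fib.1 hψ).1 fun v hv =>
    ((mem_fib.1 hφ).2 v hv).trans ((mem_fib.1 hψ).2 v hv).symm)

lemma cnt_single (F : Finset (V → W)) (A : Finset V) (v : V) (Z : Finset W)
    (hZ : ∀ ψ ∈ F, ψ v ∈ Z) : cnt F A {v} ≤ max 1 Z.card := by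
  refine cnt_le (le_max_left _ _) fun ρ => le_trans ?_ (le_max_right _ _)
  exact card_image_le_UD1 _ _ (fun ψ => ψ v) _ (fun ψ hψ => hZ ψ (mem_fib.1 hψ).1)
    fun φ _ ψ _ h => res_eq_iff.2 fun w hw => by rw [mem_singleton.1 hw]; exact h

/-- Many values at one vertex. -/
lemma card_le_vals (F : Finset (V → W)) (v : V) :
    F.card ≤ (F.image fun ψ => ψ v).card * cnt F {v} univ := by
  rw [mul_comm]
  refine card_le_mul_card_image F _ fun a ha => ?_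
  obtain ⟨ψ, -, rfl⟩ := mem_image.1 ha
  refine le_trans (card_le_card fun φ hφ => ?_) (card_le_cnt_univ F {v} ψ)
  exact mem_fib.2 ⟨(mem_filter.1 hφ).1, fun w hw => by
    rw [mem_singleton.1 hw]; exact (mem_filter.1 hφ).2⟩

lemma old_le_WY3 {ι : Type} {Ψ : ι → V → W} {New : Finset V} {F : Finset (V → W)} {S' : Finset ι}
    (hne : S'.Nonempty) (h : ∀ ψ ∈ F, ∃ x ∈ S', ∀ v ∉ New, ψ v = Ψ x v) :
    cnt F ∅ Newᶜ ≤ S'.card := by
  refine cnt_le (card_pos.2 hne) fun ρ => le_trans (card_le_card fun y hy => ?_)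
    (card_image_le (f := fun x => res Newᶜ (Ψ x)))
  obtain ⟨ψ, hψ, rfl⟩ := mem_image.1 hy
  obtain ⟨x, hx, hψx⟩ := h ψ (mem_fib.1 hψ).1
  exact mem_image.2 ⟨x, hx, res_eq_iff.2 fun v hv => (hψx v (mem_compl.1 hv)).symm⟩

lemma St_ext {ι : Type} (S : Finset ι) (Ψ : ι → V → W) (New : Finset V) (hS : S.Nonempty)
    (hinj : ∀ x ∈ S, ∀ x' ∈ S, (∀ v ∉ New, Ψ x v = Ψ x' v) → x = x') :
    St (ext S Ψ New) New (Real.log S.card) (fun _ => Real.log (Fintype.card W)) 0 := by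
  classical
  have hS0 : (0 : ℝ) < S.card := by exact_mod_cast card_pos.2 hS
  have hm0 : (0 : ℝ) < Fintype.card W := by exact_mod_cast Fintype.card_pos
  have ex : ∀ k : ℕ, Real.exp (k * Real.log (Fintype.card W)) = (Fintype.card W : ℝ) ^ k :=
    fun k => by rw [Real.exp_nat_mul, Real.exp_log hm0]
  refine ⟨?_, fun A _ => ?_, ?_⟩
  · rw [sub_zero, sum_const, nsmul_eq_mul, Real.exp_add, Real.exp_log hS0, ex]
    have key : (S ×ˢ (univ : Finset (New → W))).card ≤ (ext S Ψ New).card := by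
      refine card_le_card_of_injOn
        (fun a v => if h : v ∈ New then a.2 ⟨v, h⟩ else Ψ a.1 v) (fun a ha => ?_) ?_
      · exact mem_coe.2 (mem_ext.2 ⟨a.1, (mem_product.1 ha).1, fun v hv => dif_neg hv⟩)
      · intro a ha b hb hab
        refine Prod.ext (hinj _ (mem_product.1 ha).1 _ (mem_product.1 hb).1 fun v hv => ?_)
          (funext fun v => ?_)
        · simpa only [dif_neg hv] using congrFun hab v
        · simpa only [dif_pos v.2] using congrFun hab v.1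
    rw [card_product, card_univ, Fintype.card_fun, Fintype.card_coe] at key
    exact_mod_cast key
  · rw [zero_add, sum_const, nsmul_eq_mul, ex]
    exact_mod_cast cnt_cap (ext S Ψ New) A New
  · rw [Real.exp_log hS0]
    exact_mod_cast old_le_WY3 hS fun ψ hψ => mem_ext.1 hψ

lemma cleanup {ι : Type} (S : Finset ι) (Ψ : ι → V → W) (New : Finset V) (hS : S.Nonempty)
    {F : Finset (V → W)} (hF : F ⊆ ext S Ψ New) {ω : V → ℝ} {c : ℝ}
    (h : St F New (Real.log S.card) ω c) :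
    ∃ S' ⊆ S, ∃ Ψ' : ι → V → W, (∀ x ∈ S', Ψ' x ∈ F ∧ ∀ v ∉ New, Ψ' x v = Ψ x v) ∧
      Real.exp (-(2 * c)) * S.card ≤ S'.card := by
  classical
  have hS0 : (0 : ℝ) < S.card := by exact_mod_cast card_pos.2 hS
  have k : ∀ x, ∃ ψ : V → W, (∃ φ ∈ F, ∀ v ∉ New, φ v = Ψ x v) →
      ψ ∈ F ∧ ∀ v ∉ New, ψ v = Ψ x v := by
    intro x
    by_cases h : ∃ φ ∈ F, ∀ v ∉ New, φ v = Ψ x v
    · obtain ⟨φ, h1, h2⟩ := h
      exact ⟨φ, fun _ => ⟨h1, h2⟩⟩
    · exact ⟨Ψ x, fun h' => absurd h' h⟩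
  choose Ψ' hΨ' using k
  refine ⟨S.filter fun x => ∃ φ ∈ F, ∀ v ∉ New, φ v = Ψ x v, filter_subset _ _, Ψ',
    fun x hx => hΨ' x (mem_filter.1 hx).2, ?_⟩
  have g : ∀ ψ ∈ F, ∃ x ∈ S.filter fun x => ∃ φ ∈ F, ∀ v ∉ New, φ v = Ψ x v,
      ∀ v ∉ New, ψ v = Ψ x v := by
    intro ψ hψ
    obtain ⟨x, hx, h⟩ := mem_ext.1 (hF hψ)
    exact ⟨x, mem_filter.2 ⟨hx, ψ, hψ, h⟩, h⟩
  have F0 : (0 : ℝ) < F.card := (Real.exp_pos _).trans_le h.lo
  obtain ⟨ψ0, h0⟩ := card_pos.1 (by exact_mod_cast F0 : 0 < F.card)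
  obtain ⟨x0, hx0, -⟩ := g ψ0 h0
  have a1 := old_le_WY3 ⟨x0, hx0⟩ g
  have a2 := h.up Newᶜ le_rfl
  rw [sdiff_compl, inf_idem] at a2
  have a3 : F.card ≤ cnt F ∅ Newᶜ * cnt F Newᶜ New := by
    have b := cnt_chain F ∅ Newᶜ New
    rw [union_comm Newᶜ New, union_compl, empty_union] at b
    exact (card_le_cnt F).trans b
  have a3' : (F.card : ℝ) ≤ cnt F ∅ Newᶜ * cnt F Newᶜ New := by exact_mod_cast a3
  have a4 := h.lo.trans (a3'.trans
    (mul_le_mul (Nat.cast_le.2 a1) a2 (Nat.cast_nonneg _) (Nat.cast_nonneg _)))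
  rw [show Real.log S.card + ∑ v ∈ New, ω v - c =
    (-(2 * c) + Real.log S.card) + (c + ∑ v ∈ New, ω v) by ring, Real.exp_add, Real.exp_add,
    Real.exp_log hS0] at a4
  exact le_of_mul_le_mul_right a4 (Real.exp_pos _)

/-- Fibres over `u`, from a bound `Y` for the old vertices. -/
lemma St.fib {F : Finset (V → W)} {New : Finset V} {X c : ℝ} {ω : V → ℝ} (h : St F New X ω c)
    (u : Finset V) {Y : ℝ} (hY : (cnt F u Newᶜ : ℝ) ≤ Real.exp Y) :
    (cnt F u univ : ℝ) * Real.exp (X - Y + ∑ v ∈ New ∩ u, ω v - 2 * c) ≤ F.card := by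
  have a1 : cnt F u univ ≤ cnt F u Newᶜ * cnt F (u ∪ Newᶜ) New := by
    have := cnt_chain F u Newᶜ New
    rwa [union_comm Newᶜ New, union_compl] at this
  have a2 := h.up (u ∪ Newᶜ) subset_union_right
  have a3 : New \ (u ∪ Newᶜ) = New \ u := by
    ext v; simp only [mem_sdiff, mem_union, mem_compl]; tauto
  rw [a3] at a2
  have a4 : ∑ v ∈ New ∩ u, ω v + ∑ v ∈ New \ u, ω v = ∑ v ∈ New, ω v :=
    sum_inter_add_sum_sdiff _ _ _
  have a5 : (cnt F u univ : ℝ) ≤ Real.exp Y * Real.exp (c + ∑ v ∈ New \ u, ω v) :=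
    le_trans (by exact_mod_cast a1) (mul_le_mul hY a2 (Nat.cast_nonneg _) (Real.exp_pos _).le)
  refine (mul_le_mul_of_nonneg_right a5 (Real.exp_pos _).le).trans (le_trans (le_of_eq ?_) h.lo)
  rw [← Real.exp_add, ← Real.exp_add]
  congr 1
  linarith

end Pool.Agent.SemiRandom.Fix
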