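import Pool.Agent.P.MP_c53d0e_pr.WY2
import Pool.Agent.P.MP_c53d0e_pr.WY3

set_option autoImplicit false
set_option linter.unusedSectionVars false

namespace Pool.Agent.SemiRandom.Fix

open Finset Und

variable {V : Type} [Fintype V] [DecidableEq V] {n m r s : ℕ} [Nonempty (RSet n r)]
  [Nonempty (Move n r s)]

/-- One edge paid by new vertices. -/
theorem step (κ : V × Fin m ↪ Fin n) {e u B : Finset V} (he : e.card = s) (hu : u ⊆ e)
    (hur : u.card = r) {T : ℕ} {D L ε : ℝ} (ph : Ph (Fintype.card V) n m r T D L ε)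
    (F : Finset (V → Fin m)) (hFD : Det F u e) (New : Finset V) {X c ka : ℝ} {ω : V → ℝ}
    (hS : St F New X ω c) (d : V → ℝ) (d0 : ∀ v, 0 ≤ d v) (ds : ∀ v, d v ≠ 0 → v ∈ u)
    (dt : ∑ v ∈ New, d v = D) (hω : ∀ v ∈ New, d v + ka ≤ ω v) (hc : 0 ≤ c)
    (hka : 2 * c + lam L ε ≤ ka) (hB : B ⊆ u) (hBc : (cnt F ∅ B : ℝ) ≤ Real.exp D) :
    Reach T (fun _ => True) (fun h : List (RSet n r × Move n r s) => ∃ F' ⊆ F,
      (∀ ψ ∈ F', Pres κ h e ψ) ∧ St F' New X (fun v => ω v - d v) (c + 2 * lam L ε) ∧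
        Det F' (u \ B) B) (2 * ε) := by
  have : Nonempty (Fin m) := ⟨⟨0, ph.m1⟩⟩
  obtain ⟨l1, l2, l0⟩ := ph.lam_bd
  have e0 := ph.e0
  have L0 : 0 < L := by linarith [ph.hL]
  have eL : L ≤ Real.exp (lam L ε) := by
    rw [← Real.log_le_iff_le_exp L0, lam]; linarith
  have a6 : Real.exp (-lam L ε) ≤ ε / 4 := by
    rw [Real.exp_neg, inv_le_comm₀ (Real.exp_pos _) (by positivity), inv_div,
      ← Real.log_le_iff_le_exp (by positivity), lam]
    linarith
  have ka0 : 0 ≤ ka := by linarith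
  have g2 : ∑ v ∈ New ∩ u, d v = D := by
    rw [← dt]
    exact sum_subset inter_subset_left fun v hv hv' => by
      by_contra h
      exact hv' (mem_inter.2 ⟨hv, ds v h⟩)
  have g3 : (New ∩ u).Nonempty := by
    rw [nonempty_iff_ne_empty]
    intro h
    rw [h, sum_empty] at g2
    linarith [ph.d0]
  have g4 : D + ka ≤ ∑ v ∈ New ∩ u, ω v := by
    refine le_trans ?_ (sum_le_sum fun v hv => hω v (mem_inter.1 hv).1)
    rw [sum_add_distrib, g2, sum_const, nsmul_eq_mul]
    have : (1 : ℝ) ≤ (New ∩ u).card := by exact_mod_cast card_pos.2 g3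
    nlinarith
  have hfib : (cnt F u univ : ℝ) ≤ ε * Real.exp (-D) * F.card / 4 := by
    have b1 := hS.fib u (Y := X) (le_trans (Nat.cast_le.2
      (cnt_mono F (empty_subset u) subset_union_right)) hS.old)
    have b2 : (cnt F u univ : ℝ) * Real.exp (D + lam L ε) ≤ F.card :=
      le_trans (mul_le_mul_of_nonneg_left (Real.exp_le_exp.2 (by linarith)) (Nat.cast_nonneg _)) b1
    have b3 := mul_le_mul a6 (mul_le_mul_of_nonneg_left b2 (Real.exp_pos (-D)).le)
      (by positivity) (by positivity)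
    have b4 : Real.exp (-lam L ε) * (Real.exp (-D) * (cnt F u univ * Real.exp (D + lam L ε))) =
        cnt F u univ := by
      rw [Real.exp_add, Real.exp_neg, Real.exp_neg]
      field_simp
    rw [b4] at b3
    exact b3.trans (le_of_eq (by ring))
  refine Reach.imp (phaseU κ he hu hur F hFD ph hfib) ?_
  rintro h ⟨F', hF', hP, hb, hR⟩
  have S1 : St F' New X (fun v => ω v - d v) (c + lam L ε) := by
    refine ⟨le_trans ?_ hb, fun A hA => ?_,
      le_trans (Nat.cast_le.2 (cnt_mono_left hF' _ _)) hS.old⟩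
    · have a7 : Real.exp (-lam L ε) * (Real.exp (-D) * Real.exp (X + ∑ v ∈ New, ω v - c)) ≤
          ε / 4 * (Real.exp (-D) * F.card) :=
        mul_le_mul a6 (mul_le_mul_of_nonneg_left hS.lo (Real.exp_pos _).le) (by positivity)
          (by positivity)
      rw [← Real.exp_add, ← Real.exp_add] at a7
      rw [sum_sub_distrib, dt]
      exact le_trans (Real.exp_le_exp.2 (by linarith)) (a7.trans (le_of_eq (by ring)))
    · have b1 : (cnt F' A New : ℝ) ≤ cnt F' A (New ∪ u) :=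
        Nat.cast_le.2 (cnt_mono F' le_rfl (subset_union_left.trans subset_union_right))
      have b2 : (cnt F A (New ∪ u) : ℝ) ≤ cnt F A New := by
        refine Nat.cast_le.2 (cnt_mono F le_rfl fun v _ => ?_)
        by_cases hv : v ∈ New
        · exact mem_union_right _ hv
        · exact mem_union_left _ (hA (mem_compl.2 hv))
      have b3 : ∑ v ∈ New \ A, d v ≤ D :=
        (sum_le_sum_of_subset_of_nonneg sdiff_subset fun v _ _ => d0 v).trans dt.le
      have b4 : Real.exp (-D) * cnt F A (New ∪ u) ≤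
          Real.exp (c + ∑ v ∈ New \ A, (ω v - d v)) := by
        refine (mul_le_mul_of_nonneg_left (b2.trans (hS.up A hA)) (Real.exp_pos _).le).trans ?_
        rw [← Real.exp_add, sum_sub_distrib]
        exact Real.exp_le_exp.2 (by linarith)
      have b5 : (cnt F (A ∪ u) New : ℝ) ≤ Real.exp (c + ∑ v ∈ New \ A, (ω v - d v)) := by
        refine (hS.up _ (hA.trans subset_union_left)).trans (Real.exp_le_exp.2 ?_)
        have : ∑ v ∈ New \ (A ∪ u), ω v ≤ ∑ v ∈ New \ A, (ω v - d v) := by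
          refine le_trans (le_of_eq (sum_congr rfl fun v hv => ?_))
            (sum_le_sum_of_subset_of_nonneg (sdiff_subset_sdiff le_rfl subset_union_left)
              fun v hv _ => by linarith [hω v (mem_sdiff.1 hv).1])
          have : d v = 0 := by
            by_contra h
            exact (mem_sdiff.1 hv).2 (mem_union_right _ (ds v h))
          rw [this, sub_zero]
        linarith
      refine b1.trans ((hR A New).trans ?_)
      refine (mul_le_mul eL (max_le b4 b5) (le_max_of_le_right (Nat.cast_nonneg _))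
        (Real.exp_pos _).le).trans (le_of_eq ?_)
      rw [← Real.exp_add]
      congr 1
      ring
  obtain ⟨F'', h1, h2, h3⟩ := selectD F' (u \ B) B
  have b1 : (cnt F' (u \ B) B : ℝ) ≤ cnt F' (u \ B) (∅ ∪ u) :=
    Nat.cast_le.2 (cnt_mono F' le_rfl (hB.trans (subset_union_right.trans subset_union_right)))
  have b2 : (cnt F (u \ B) (∅ ∪ u) : ℝ) ≤ cnt F ∅ B := by
    refine Nat.cast_le.2 (cnt_mono F (empty_subset _) fun v hv => ?_)
    rw [empty_union] at hv
    by_cases h : v ∈ B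
    · exact mem_union_right _ h
    · exact mem_union_left _ (mem_sdiff.2 ⟨hv, h⟩)
  have b3 : Real.exp (-D) * cnt F (u \ B) (∅ ∪ u) ≤ 1 := by
    refine (mul_le_mul_of_nonneg_left (b2.trans hBc) (Real.exp_pos _).le).trans (le_of_eq ?_)
    rw [← Real.exp_add, neg_add_cancel, Real.exp_zero]
  have b4 : (cnt F (u \ B ∪ u) ∅ : ℝ) ≤ 1 := by
    rw [cnt_of_det fun _ _ _ _ _ v hv => absurd hv (notMem_empty v), Nat.cast_one]
  have b5 : (cnt F' (u \ B) B : ℝ) ≤ Real.exp (lam L ε) :=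
    b1.trans ((hR _ ∅).trans ((mul_le_of_le_one_right L0.le (max_le b3 b4)).trans eL))
  have b6 : (F'.card : ℝ) ≤ Real.exp (lam L ε) * F''.card :=
    le_trans (by exact_mod_cast h2) (mul_le_mul_of_nonneg_right b5 (Nat.cast_nonneg _))
  refine ⟨F'', h1.trans hF', fun ψ hψ => hP ψ (h1 hψ), ⟨?_, fun A hA => ?_,
    le_trans (Nat.cast_le.2 (cnt_mono_left h1 _ _)) S1.old⟩, h3⟩
  · have k := S1.lo.trans b6
    rw [show X + ∑ v ∈ New, (ω v - d v) - (c + lam L ε) =
      lam L ε + (X + ∑ v ∈ New, (ω v - d v) - (c + 2 * lam L ε)) by ring, Real.exp_add] at k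
    exact le_of_mul_le_mul_left k (Real.exp_pos _)
  · exact le_trans (Nat.cast_le.2 (cnt_mono_left h1 _ _))
      ((S1.up A hA).trans (Real.exp_le_exp.2 (by linarith)))

lemma St.congr_WY4 {F : Finset (V → Fin m)} {New : Finset V} {X c c' : ℝ} {ω ω' : V → ℝ}
    (H : St F New X ω c) (hc : c = c') (h : ∀ v, ω v = ω' v) : St F New X ω' c' := by
  rw [← hc, ← funext h]; exact H

/-- A set of edges paid by new vertices. -/
theorem run (κ : V × Fin m ↪ Fin n) {E : Type} (Es : Finset E) (ed key B : E → Finset V)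
    (he : ∀ e ∈ Es, (ed e).card = s ∧ key e ⊆ ed e ∧ (key e).card = r ∧ B e ⊆ key e)
    {T : ℕ} {D L ε : ℝ} (ph : Ph (Fintype.card V) n m r T D L ε) (New : Finset V)
    (d : E → V → ℝ) (d0 : ∀ e v, 0 ≤ d e v) (ds : ∀ e ∈ Es, ∀ v, d e v ≠ 0 → v ∈ key e)
    (dt : ∀ e ∈ Es, ∑ v ∈ New, d e v = D) {X ka : ℝ}
    (F : Finset (V → Fin m)) (hFD : ∀ e ∈ Es, Det F (key e) (ed e))
    (hBc : ∀ e ∈ Es, (cnt F ∅ (B e) : ℝ) ≤ Real.exp D) {ω : V → ℝ} {c : ℝ} (hS : St F New X ω c)
    (hω : ∀ v ∈ New, ∑ e ∈ Es, d e v + ka ≤ ω v) (hc : 0 ≤ c)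
    (hka : 2 * (c + 2 * lam L ε * Es.card) + lam L ε ≤ ka) :
    Reach (Es.card * T) (fun _ => True) (fun h : List (RSet n r × Move n r s) => ∃ F' ⊆ F,
      (∀ ψ ∈ F', ∀ e ∈ Es, Pres κ h (ed e) ψ) ∧
        St F' New X (fun v => ω v - ∑ e ∈ Es, d e v) (c + 2 * lam L ε * Es.card) ∧
        ∀ e ∈ Es, Det F' (key e \ B e) (B e)) (Es.card * (2 * ε)) := by
  classical
  have l0 := ph.lam_bd.2.2
  refine Reach.pre (Reach.finset Es (fun J (h : List (RSet n r × Move n r s)) => ∃ F' ⊆ F,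
      (∀ ψ ∈ F', ∀ e ∈ J, Pres κ h (ed e) ψ) ∧
      St F' New X (fun v => ω v - ∑ e ∈ J, d e v) (c + 2 * lam L ε * J.card) ∧
        ∀ e ∈ J, Det F' (key e \ B e) (B e)) (by linarith [ph.e0]) ?_) ?_
  · rintro J hJ a ha haJ h ⟨F', hF', hP, hS', hD⟩
    have hsub : insert a J ⊆ Es := insert_subset ha hJ
    have g1 : ∀ v ∈ New, d a v + ka ≤ ω v - ∑ e ∈ J, d e v := by
      intro v hv
      have k1 := hω v hv
      have k2 : ∑ e ∈ insert a J, d e v ≤ ∑ e ∈ Es, d e v :=
        sum_le_sum_of_subset_of_nonneg hsub fun e _ _ => d0 e v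
      rw [sum_insert haJ] at k2
      linarith
    have g5 : (J.card : ℝ) ≤ Es.card := by exact_mod_cast card_le_card hJ
    have g6 := mul_le_mul_of_nonneg_left g5 l0
    have st := step (s := s) (ka := ka) κ (he a ha).1 (he a ha).2.1 (he a ha).2.2.1 ph F'
      ((hFD a ha).mono hF') New hS' (d a) (d0 a) (ds a ha) (dt a ha) g1 (by positivity)
      (by linarith) (he a ha).2.2.2
      (le_trans (Nat.cast_le.2 (cnt_mono_left hF' _ _)) (hBc a ha))
    refine Reach.frame (A := fun h => ∀ ψ ∈ F', ∀ e ∈ J, Pres κ h (ed e) ψ) st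
      (fun h l hA ψ hψ e he => (hA ψ hψ e he).append l) ?_ h hP
    rintro l hA ⟨F'', h1, h2, h3, h4⟩
    refine ⟨F'', h1.trans hF', fun ψ hψ e he => ?_, h3.congr_WY4 ?_ fun v => ?_, fun e he => ?_⟩
    · rcases mem_insert.1 he with rfl | he
      exacts [h2 ψ hψ, hA ψ (h1 hψ) e he]
    · rw [card_insert_of_notMem haJ]; push_cast; ring
    · rw [sum_insert haJ]; ring
    · rcases mem_insert.1 he with rfl | he
      exacts [h4, (hD e he).mono h1]
  · intro h _
    exact ⟨F, le_rfl, by simp, hS.congr_WY4 (by simp) (by simp), by simp⟩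

end Pool.Agent.SemiRandom.Fix
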