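import Pool.Agent.P.MP_c53d0e_pr.WY4

set_option autoImplicit false
set_option linter.unusedSectionVars false

namespace Pool.Agent.SemiRandom.Fix

open Finset Und

variable {V : Type} [Fintype V] [DecidableEq V] {n m r s : ℕ} [Nonempty (RSet n r)]
  [Nonempty (Move n r s)]

/-- A stage: new vertices, their own edges `E1`, then edges `E2`, one placement per index. -/
theorem stage (κ : V × Fin m ↪ Fin n) {E : Type} [Fintype E] [DecidableEq E] (E1 E2 : Finset E)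
    (ed key B : E → Finset V)
    (he : ∀ e, (ed e).card = s ∧ key e ⊆ ed e ∧ (key e).card = r ∧ B e ⊆ key e)
    {T : ℕ} {D L ε ka : ℝ} (ph : Ph (Fintype.card V) n m r T D L ε) (New : Finset V)
    (d : E → V → ℝ) (d0 : ∀ e v, 0 ≤ d e v) (ds : ∀ e v, d e v ≠ 0 → v ∈ key e)
    (dt : ∀ e, e ∈ E1 ∨ e ∈ E2 → ∑ v ∈ New, d e v = D) (hd : Disjoint E1 E2)
    (hω : ∀ v ∈ New, ∑ e, d e v + ka ≤ Real.log m)
    (hka : 8 * lam L ε * Fintype.card E + lam L ε ≤ ka)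
    {ι : Type} (S : Finset ι) (Ψ : ι → V → Fin m) (hS : S.Nonempty)
    (hinj : ∀ x ∈ S, ∀ x' ∈ S, (∀ v ∉ New, Ψ x v = Ψ x' v) → x = x')
    (h1 : ∀ e ∈ E1, Det (ext S Ψ New) (key e) (ed e) ∧
      (cnt (ext S Ψ New) ∅ (B e) : ℝ) ≤ Real.exp D)
    (h2 : ∀ F ⊆ ext S Ψ New, (∀ e ∈ E1, Det F (key e \ B e) (B e)) →
      ∀ e ∈ E2, Det F (key e) (ed e)) :
    Reach (2 * Fintype.card E * T) (fun _ => True)
      (fun h : List (RSet n r × Move n r s) => ∃ S' ⊆ S, ∃ Ψ' : ι → V → Fin m,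
        (∀ x ∈ S', (∀ v ∉ New, Ψ' x v = Ψ x v) ∧
          ∀ e, e ∈ E1 ∨ e ∈ E2 → Pres κ h (ed e) (Ψ' x)) ∧
        Real.exp (-(8 * lam L ε * Fintype.card E)) * S.card ≤ S'.card)
      (4 * Fintype.card E * ε) := by
  haveI : Nonempty (Fin m) := ⟨⟨0, ph.m1⟩⟩
  have l0 := ph.lam_bd.2.2
  have e0 := ph.e0
  have n1 : E1.card ≤ Fintype.card E := card_le_univ _
  have n2 : E2.card ≤ Fintype.card E := card_le_univ _
  have c1 : lam L ε * E1.card ≤ lam L ε * Fintype.card E :=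
    mul_le_mul_of_nonneg_left (Nat.cast_le.2 n1) l0
  have c2 : lam L ε * E2.card ≤ lam L ε * Fintype.card E :=
    mul_le_mul_of_nonneg_left (Nat.cast_le.2 n2) l0
  have c3 : 0 ≤ lam L ε * E1.card := by positivity
  have c4 : 0 ≤ lam L ε * E2.card := by positivity
  have s1 : ∀ v, ∑ e ∈ E1, d e v + ∑ e ∈ E2, d e v ≤ ∑ e, d e v := fun v => by
    rw [← sum_union hd]
    exact sum_le_sum_of_subset_of_nonneg (subset_univ _) fun e _ _ => d0 e v
  have s2 : ∀ v, 0 ≤ ∑ e ∈ E2, d e v := fun v => sum_nonneg fun e _ => d0 e v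
  have t0 := St_ext S Ψ New hS hinj
  rw [Fintype.card_fin] at t0
  refine Reach.pad ((run κ E1 ed key B (fun e _ => he e) ph New d d0 (fun e _ => ds e)
    (fun e h => dt e (Or.inl h)) (ka := ka) _ (fun e h => (h1 e h).1) (fun e h => (h1 e h).2) t0
    (fun v hv => by linarith [hω v hv, s1 v, s2 v]) le_rfl (by linarith)).trans
    (T' := E2.card * T) (ε' := E2.card * (2 * ε)) ?_ (by positivity)) ?_ ?_ ?_
  · rintro h ⟨F, f1, f2, f3, f4⟩
    refine Und.Reach.frame (run κ E2 ed key (fun _ => ∅)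
      (fun e _ => ⟨(he e).1, (he e).2.1, (he e).2.2.1, empty_subset _⟩) ph New d d0
      (fun e _ => ds e) (fun e h => dt e (Or.inr h)) (ka := ka) F (h2 F f1 f4) (fun e _ => ?_) f3
      (fun v hv => by linarith [hω v hv, s1 v]) (by linarith) (by linarith))
      (A := fun h => ∀ ψ ∈ F, ∀ e ∈ E1, Pres κ h (ed e) ψ)
      (fun _ l H ψ a e b => (H ψ a e b).append l) ?_ h f2
    · rw [cnt_of_det fun _ _ _ _ a => a, Nat.cast_one]
      exact Real.one_le_exp ph.d0.le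
    · rintro l a1 ⟨G, g1, g2, g3, -⟩
      obtain ⟨S', k1, Ψ', k2, k3⟩ := cleanup S Ψ New hS (g1.trans f1) g3
      refine ⟨S', k1, Ψ', fun x hx => ⟨(k2 x hx).2, fun e a => a.elim
        (a1 _ (g1 (k2 x hx).1) e) (g2 _ (k2 x hx).1 e)⟩, le_trans ?_ k3⟩
      exact mul_le_mul_of_nonneg_right (Real.exp_le_exp.2 (by linarith)) (Nat.cast_nonneg _)
  · rintro h l ⟨S', k1, Ψ', k2, k3⟩
    exact ⟨S', k1, Ψ', fun x hx => ⟨(k2 x hx).1, fun e a => ((k2 x hx).2 e a).append l⟩, k3⟩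
  · rw [← add_mul]
    exact Nat.mul_le_mul_right _ (by omega)
  · have a1 : (E1.card : ℝ) ≤ Fintype.card E := Nat.cast_le.2 n1
    have a2 : (E2.card : ℝ) ≤ Fintype.card E := Nat.cast_le.2 n2
    nlinarith

end Pool.Agent.SemiRandom.Fix
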