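import Pool.Agent.P.MP_c53d0e_pr.WY5
import Pool.Agent.P.MP_c53d0e_pr.WA6

set_option autoImplicit false
set_option linter.unusedSectionVars false

namespace Pool.Agent.SemiRandom.Fix

open Finset Und

variable {r s N : ℕ} {P Ln : Type} [NeZero r] [Fintype P] [DecidableEq P] [Fintype Ln]
  [DecidableEq Ln] {n m w T sz : ℕ} {u L ε ka : ℝ} [Nonempty (RSet n r)] [Nonempty (Move n r s)]

lemma sum_d_WY6 (hO : Ok r s) {e : Ed r N P Ln} (he : e ≠ eF (.E (Fin.last N)))
    (New : Finset (Vx r s N P Ln)) (hNew : ∀ v, dn e v ≠ 0 → v ∈ New) (u : ℝ) :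
    ∑ v ∈ New, (dn e v : ℝ) * u = 8 * r * u := by
  have h1 := dn_sum (s := s) hO e
  rw [if_neg he, add_zero] at h1
  have h2 : ∑ v ∈ New, dn e v = ∑ v : Vx r s N P Ln, dn e v :=
    sum_subset (subset_univ _) fun v _ hv => by
      by_contra h
      exact hv (hNew v h)
  rw [← sum_mul, ← Nat.cast_sum, h2, h1]
  push_cast
  ring

lemma sum_ld_WY6 (Es : Finset (Ed r N P Ln)) (v : Vx r s N P Ln) {u : ℝ} (hu : 0 ≤ u) :
    ∑ e ∈ Es, (dn e v : ℝ) * u ≤ ld v * u := by
  rw [← sum_mul, ← Nat.cast_sum]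
  refine mul_le_mul_of_nonneg_right (Nat.cast_le.2 ?_) hu
  exact sum_le_sum_of_subset (subset_univ _)

lemma cnt_nil_WY6 {V W : Type} [Fintype V] [DecidableEq V] [Fintype W] [DecidableEq W]
    [Nonempty W] (F : Finset (V → W)) {D : ℝ} (hD : 0 < D) :
    (cnt F ∅ ∅ : ℝ) ≤ Real.exp D := by
  have h := cnt_cap F ∅ ∅
  rw [sdiff_self, bot_eq_empty, card_empty, pow_zero] at h
  have h2 : (cnt F ∅ ∅ : ℝ) ≤ 1 := by exact_mod_cast h
  exact h2.trans (Real.one_le_exp hD.le)

lemma ds_WY6 (hO : Ok r s) (D : Dat r N P Ln) (u : ℝ) (e : Ed r N P Ln) (v : Vx r s N P Ln)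
    (h : (dn e v : ℝ) * u ≠ 0) : v ∈ key0 D s e :=
  dn_key0 hO D fun h0 => h (by rw [h0, Nat.cast_zero, zero_mul])

lemma two_le_stF_WY6 (F : FD N Ln) : 2 ≤ stF F := by
  cases F <;> simp only [stF] <;> omega

lemma stE_one_WY6 {e : Ed r N P Ln} (he : stE e = 1) : ∃ p t, e = eO (.pt p) t := by
  rcases e with x | ⟨v, t⟩ | F
  · simp [stE] at he
  · cases v with
    | pt p => exact ⟨p, t, rfl⟩
    | cv z =>
      have := two_le_stF_WY6 z.1
      simp only [stE, stN] at he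
      omega
    | tk z i =>
      have := two_le_stF_WY6 z.1
      simp only [stE, stN] at he
      omega
  · have := two_le_stF_WY6 F
    simp only [stE] at he
    omega

lemma stE_zero_WY6 {e : Ed r N P Ln} (he : stE e = 0) : ∃ x, e = eQ x := by
  rcases e with x | ⟨v, t⟩ | F
  · exact ⟨x, rfl⟩
  · cases v with
    | pt p => simp [stE, stN] at he
    | cv z =>
      have := two_le_stF_WY6 z.1
      simp only [stE, stN] at he
      omega
    | tk z i =>
      have := two_le_stF_WY6 z.1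
      simp only [stE, stN] at he
      omega
  · have := two_le_stF_WY6 F
    simp only [stE] at he
    omega

lemma CC_off_WY6 {v : Vx r s N P Ln} (hv : v ∈ CC) : v ∉ Nw 1 := by
  rw [mem_Nw]
  rcases (mem_CC v).1 hv with ⟨j, rfl⟩ | rfl | ⟨x, rfl⟩ <;> simp [stV]

/-- Labels on the points, the base placement elsewhere. -/
def put_WY6 (ψ0 : Vx r s N P Ln → Fin m) (y : P → Fin m) : Vx r s N P Ln → Fin m
  | .nv (.pt p) => y p
  | v => ψ0 v

lemma put_CC_WY6 (ψ0 : Vx r s N P Ln → Fin m) (y : P → Fin m) {v : Vx r s N P Ln} (hv : v ∈ CC) :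
    put_WY6 ψ0 y v = ψ0 v := by
  rcases (mem_CC v).1 hv with ⟨j, rfl⟩ | rfl | ⟨x, rfl⟩ <;> rfl

/-- Many values at a new vertex. -/
lemma vals_WY6 {V W : Type} [Fintype V] [DecidableEq V] [Fintype W] [DecidableEq W] [Nonempty W]
    {F : Finset (V → W)} {New : Finset V} {X c : ℝ} {ω : V → ℝ} (h : St F New X ω c) {v : V}
    (hv : v ∈ New) : Real.exp (ω v - 2 * c) ≤ (F.image fun ψ => ψ v).card := by
  have h1 : (cnt F {v} Newᶜ : ℝ) ≤ Real.exp X :=
    le_trans (Nat.cast_le.2 (cnt_mono F (empty_subset _) subset_union_right)) h.old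
  have h2 := h.fib {v} h1
  rw [inter_singleton_of_mem hv, sum_singleton, sub_self, zero_add] at h2
  have h3 : (F.card : ℝ) ≤ (F.image fun ψ => ψ v).card * cnt F {v} univ := by
    exact_mod_cast card_le_vals F v
  have h4 : (0 : ℝ) < cnt F {v} univ := by exact_mod_cast one_le_cnt F {v} univ
  refine le_of_mul_le_mul_left ?_ h4
  rw [mul_comm _ ((F.image fun ψ => ψ v).card : ℝ)]
  exact h2.trans h3

theorem stage0 (hO : Ok r s) (D : Dat r N P Ln) (κ : Vx r s N P Ln × Fin m ↪ Fin n)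
    (hN : Nm (Fintype.card (Vx r s N P Ln)) (Fintype.card (Ed r N P Ln)) N n m r T w sz u L ε ka) :
    Reach (2 * Fintype.card (Ed r N P Ln) * T) (fun _ => True)
      (fun h : List (RSet n r × Move n r s) => ∃ ψ0, ∀ x, Pres κ h (ed D s (eQ x)) ψ0)
      (4 * Fintype.card (Ed r N P Ln) * ε) := by
  have : Nonempty (Fin m) := ⟨⟨0, hN.ph.m1⟩⟩
  have hQ : ∀ e : Ed r N P Ln, e ∈ univ.filter IsQ → ∃ x, e = eQ x := by
    intro e he
    rcases e with x | y
    · exact ⟨x, rfl⟩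
    · exact (mem_filter.1 he).2.elim
  have H := stage κ (univ.filter IsQ) ∅ (ed D s) (key0 D s) (fun _ => ∅)
    (fun e => ⟨card_ed hO D e, key0_sub hO D e, card_key0 hO D e, empty_subset _⟩) hN.ph CN
    (fun e v => (dn e v : ℝ) * u) (fun e v => mul_nonneg (Nat.cast_nonneg _) hN.u0.le)
    (ds_WY6 hO D u) ?_ (disjoint_empty_right _) (ka := ka) ?_ hN.hka ({()} : Finset Unit)
    (fun _ _ => (⟨0, hN.ph.m1⟩ : Fin m)) (singleton_nonempty _) (fun _ _ _ _ _ => rfl) ?_
    (fun _ _ _ e he => absurd he (notMem_empty e))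
  · refine Und.Reach.imp H ?_
    rintro l ⟨S', -, Ψ', h1, h2⟩
    have hne : S'.Nonempty := by
      rw [← card_pos]
      have a := Real.exp_pos (-(8 * lam L ε * Fintype.card (Ed r N P Ln)))
      rw [card_singleton, Nat.cast_one, mul_one] at h2
      exact_mod_cast a.trans_le h2
    obtain ⟨x, hx⟩ := hne
    exact ⟨Ψ' x, fun y => (h1 x hx).2 _ (Or.inl (mem_filter.2 ⟨mem_univ _, trivial⟩))⟩
  · rintro e (he | he)
    · obtain ⟨x, rfl⟩ := hQ e he
      exact sum_d_WY6 hO (by simp) CN (fun v hv => dn_Q hv) u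
    · exact absurd he (notMem_empty e)
  · intro v _
    have a := sum_ld_WY6 univ v hN.u0.le
    have b : (ld v : ℝ) * u ≤ qq r * u :=
      mul_le_mul_of_nonneg_right (Nat.cast_le.2 (ld_le hO v)) hN.u0.le
    have c := hN.hm
    linarith
  · intro e he
    obtain ⟨x, rfl⟩ := hQ e he
    refine ⟨fun ψ h1 ψ' h2 hk v hv => ?_, cnt_nil_WY6 _ hN.ph.d0⟩
    obtain ⟨_, -, a⟩ := mem_ext.1 h1
    obtain ⟨_, -, b⟩ := mem_ext.1 h2
    rcases ed_Q_key0 hO D x hv with h | h | h
    · exact hk v h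
    · obtain ⟨j, rfl⟩ := (mem_HH v).1 h
      rw [a _ (by simp), b _ (by simp)]
    · subst h
      rw [a _ (by simp), b _ (by simp)]

theorem stage1 (hO : Ok r s) (D : Dat r N P Ln) (κ : Vx r s N P Ln × Fin m ↪ Fin n)
    (hN : Nm (Fintype.card (Vx r s N P Ln)) (Fintype.card (Ed r N P Ln)) N n m r T w sz u L ε ka)
    (S : Finset (P → Fin w)) :
    Reach (2 * Fintype.card (Ed r N P Ln) * T)
      (fun h : List (RSet n r × Move n r s) => ∃ ψ0, ∀ x, Pres κ h (ed D s (eQ x)) ψ0)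
      (Stg D κ S S.card 2) (4 * Fintype.card (Ed r N P Ln) * ε) := by
  have : Nonempty (Fin m) := ⟨⟨0, hN.ph.m1⟩⟩
  refine Und.Reach.ex fun ψ0 => ?_
  obtain ⟨Es, hEs⟩ : ∃ Es : Finset (Ed r N P Ln), ∀ e, e ∈ Es ↔ stE e = 1 :=
    ⟨univ.filter fun e => stE e = 1, fun e => by simp⟩
  have hM : Es.card ≤ Fintype.card (Ed r N P Ln) := card_le_univ _
  have hM' : (Es.card : ℝ) ≤ Fintype.card (Ed r N P Ln) := Nat.cast_le.2 hM
  have hl := hN.ph.lam_bd.2.2
  have hlM : lam L ε * Es.card ≤ lam L ε * Fintype.card (Ed r N P Ln) :=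
    mul_le_mul_of_nonneg_left hM' hl
  have hl0 : 0 ≤ lam L ε * Es.card := mul_nonneg hl (Nat.cast_nonneg _)
  have hka := hN.hka
  have hm := hN.hm
  have hoff : ∀ ψ ∈ ext ({()} : Finset Unit) (fun _ => ψ0) (Nw 1), ∀ v ∈ CC, ψ v = ψ0 v := by
    intro ψ h v hv
    obtain ⟨_, -, a⟩ := mem_ext.1 h
    exact a v (CC_off_WY6 hv)
  have H := run κ Es (ed D s) (key0 D s) (fun _ => ∅)
    (fun e _ => ⟨card_ed hO D e, key0_sub hO D e, card_key0 hO D e, empty_subset _⟩) hN.ph (Nw 1)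
    (fun e v => (dn e v : ℝ) * u) (fun e v => mul_nonneg (Nat.cast_nonneg _) hN.u0.le)
    (fun e _ => ds_WY6 hO D u e) ?_ (ka := ka) (ext ({()} : Finset Unit) (fun _ => ψ0) (Nw 1)) ?_
    (fun e _ => cnt_nil_WY6 _ hN.ph.d0)
    (St_ext _ _ _ (singleton_nonempty _) fun _ _ _ _ _ => rfl) ?_ le_rfl (by linarith)
  · refine Fix.Reach.pad (Und.Reach.frame H (fun h l a x => (a x).append l) ?_) ?_
      (Nat.mul_le_mul_right _ (by omega)) ?_
    · rintro l hQ ⟨F, hF, hP, hS, -⟩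
      have hv : ∀ p : P, ∃ f : Fin w → Fin m, Function.Injective f ∧
          ∀ i, ∃ ψ ∈ F, ψ (.nv (.pt p)) = f i := by
        intro p
        have a := vals_WY6 hS (v := .nv (.pt p)) (mem_Nw.2 rfl)
        have b := sum_ld_WY6 Es (.nv (.pt p) : Vx r s N P Ln) hN.u0.le
        have c : ((ld (.nv (.pt p) : Vx r s N P Ln) : ℝ) + 1) * u = qq r * u := by
          rw [← ld_pt (N := N) (Ln := Ln) hO p]
          push_cast
          ring
        have w0 : (0 : ℝ) < w := by exact_mod_cast hN.w1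
        have d : (w : ℝ) ≤ (F.image fun ψ => ψ (.nv (.pt p))).card := by
          refine le_trans ?_ a
          rw [← Real.log_le_iff_le_exp w0, Fintype.card_fin]
          have := hN.hw
          linarith
        have e : Fintype.card (Fin w) ≤
            Fintype.card (F.image fun ψ => ψ (.nv (.pt p))) := by
          rw [Fintype.card_fin, Fintype.card_coe]
          exact_mod_cast d
        obtain ⟨f⟩ := Function.Embedding.nonempty_of_card_le e
        exact ⟨fun i => (f i).1, fun i j h => f.injective (Subtype.ext h),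
          fun i => mem_image.1 (f i).2⟩
      choose lab hinj hlab using hv
      refine ⟨ψ0, lab, S, fun x => put_WY6 ψ0 fun p => lab p (x p), Subset.rfl, le_rfl, hinj,
        fun x _ => ⟨fun v hv => put_CC_WY6 _ _ hv, fun p => rfl, fun e he => ?_⟩⟩
      rcases (by omega : stE e = 0 ∨ stE e = 1) with h | h
      · obtain ⟨y, rfl⟩ := stE_zero_WY6 h
        exact (hQ y).congr fun v hv => (put_CC_WY6 _ _ (ed_Q_sub hO D y hv)).symm
      · obtain ⟨p, t, rfl⟩ := stE_one_WY6 h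
        obtain ⟨ψ, hψ, hp⟩ := hlab p (x p)
        refine (hP ψ hψ _ ((hEs _).2 h)).congr fun v hv => ?_
        have hC : v ∈ CC → ψ v = put_WY6 ψ0 (fun p => lab p (x p)) v := fun hc =>
          (hoff ψ (hF hψ) v hc).trans (put_CC_WY6 _ _ hc).symm
        rcases (mem_ed_O hO D _ t v).1 hv with a | a | ⟨π, a, -⟩ | ⟨k, -, -, a⟩
        · exact hC (mem_union_left _ a)
        · subst a
          exact hp
        · rw [par_pt] at a
          exact absurd a (by simp)
        · exact hC (mem_union_right _ (mem_insert_of_mem (a ▸ cc_mem_CN 0 t k)))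
    · rintro h l ⟨a, b, c, d, h1, h2, h3⟩
      exact ⟨a, b, c, d, h1, h2, Inv_mono D κ a b c d 2 h l h3⟩
    · have := hN.ph.e0
      have : (0 : ℝ) ≤ Es.card := Nat.cast_nonneg _
      nlinarith
  · intro e he
    have h := (hEs e).1 he
    refine sum_d_WY6 hO ?_ _ (fun v hv => mem_Nw.2 ((stV_dn hv).trans h)) u
    obtain ⟨p, t, rfl⟩ := stE_one_WY6 h
    simp
  · intro e he ψ h1 ψ' h2 hk v hv
    obtain ⟨p, t, rfl⟩ := stE_one_WY6 ((hEs e).1 he)
    rcases ed_O_key0 hO D _ t hv with h | h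
    · exact hk v h
    · rw [hoff ψ h1 v h, hoff ψ' h2 v h]
  · intro v _
    have a := sum_ld_WY6 Es v hN.u0.le
    have b : (ld v : ℝ) * u ≤ qq r * u :=
      mul_le_mul_of_nonneg_right (Nat.cast_le.2 (ld_le hO v)) hN.u0.le
    rw [Fintype.card_fin]
    linarith

end Pool.Agent.SemiRandom.Fix
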