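import Pool.Agent.P.MP_c53d0e_pr.WY0
import Pool.Agent.P.MP_c53d0e_pr.WA1

set_option autoImplicit false
set_option linter.unusedSectionVars false

namespace Pool.Agent.SemiRandom.Fix

open Finset Und

open Filter Topology

lemma small_WYA {C c β : ℝ} (hC : 0 < C) (hβ : 0 < β) :
    ∀ᶠ n : ℕ in atTop, C * Real.log (Real.log n) + c ≤ β * Real.log n ∧ 1 ≤ Real.log n := by
  have ht : Tendsto (fun n : ℕ => Real.log n) atTop atTop :=
    Real.tendsto_log_atTop.comp tendsto_natCast_atTop_atTop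
  have h1 := ht.eventually (Real.isLittleO_log_id_atTop.bound (show 0 < β / (2 * C) by positivity))
  filter_upwards [h1, ht.eventually_ge_atTop (2 * c / β), ht.eventually_ge_atTop 1] with n a b d
  refine ⟨?_, d⟩
  rw [id, Real.norm_eq_abs, Real.norm_eq_abs, abs_of_nonneg (zero_le_one.trans d)] at a
  have e1 := mul_le_mul_of_nonneg_left ((le_abs_self _).trans a) hC.le
  have e2 : C * (β / (2 * C) * Real.log n) = β * Real.log n / 2 := by field_simp
  rw [div_le_iff₀ hβ] at b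
  linarith

/-- Choice of the parameters. -/
theorem params (cV M N r : ℕ) (hV : 1 ≤ cV) (hr : 1 ≤ r) {w sz : ℕ} (hw : 2 ≤ w) {ξ ε : ℝ}
    (hξ : 0 < ξ) (hξ1 : ξ ≤ 1) (hε : 0 < ε) (hε1 : ε ≤ 1)
    (hsz : (w : ℝ) ^ ((4 : ℝ) * (1 - ξ / 8)) ≤ sz) :
    ∀ᶠ n : ℕ in atTop, ∃ (k T : ℕ) (u L ka : ℝ),
      Nm cV M N n (n / cV) r T (w ^ k) (sz ^ k) u L ε ka ∧
        (T : ℝ) ≤ (n : ℝ) ^ ((r : ℝ) - 8 * r / (qq r + ξ)) := by
  have hq0 : (0 : ℝ) ≤ qq r := Nat.cast_nonneg _
  have hq : (0 : ℝ) < qq r + ξ := by linarith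
  have hw1 : (1 : ℝ) < w := by exact_mod_cast (by omega : 1 < w)
  have lw : 0 < Real.log w := Real.log_pos hw1
  have hV1 : (1 : ℝ) ≤ cV := by exact_mod_cast hV
  have hr1 : (1 : ℝ) ≤ r := by exact_mod_cast hr
  have hM : (0 : ℝ) ≤ M := Nat.cast_nonneg _
  have hN : (0 : ℝ) ≤ N := Nat.cast_nonneg _
  set c : ℝ := Real.log (3 * 4 ^ cV / ε) with hc
  have c0 : 0 ≤ c := Real.log_nonneg ((one_le_div hε).2 (by
    have : (1 : ℝ) ≤ 4 ^ cV := one_le_pow₀ (by norm_num)
    linarith))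
  set A : ℝ := 2 * (c + cV) with hA
  have A2 : 2 ≤ A := by linarith
  set C : ℝ := (N + 2) * (8 * M) + 1 with hC
  have C0 : 0 < C := by positivity
  have lV : 0 ≤ Real.log (2 * cV) := Real.log_nonneg (by linarith)
  filter_upwards [small_WYA (c := C * (Real.log A + Real.log (4 / ε)) + 4 * Real.log w +
    Real.log (2 * cV)) C0 (show 0 < ξ / (2 * (qq r + ξ)) by positivity), eventually_ge_atTop cV,
    eventually_ge_atTop r] with n ⟨h1, l1⟩ hn hnr
  have n0 : (0 : ℝ) < n := by exact_mod_cast (by omega : 0 < n)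
  set l : ℝ := Real.log n with hl
  set u : ℝ := l / (qq r + ξ) with hu
  have u0 : 0 < u := div_pos (by linarith) hq
  have hlu : l = (qq r + ξ) * u := by rw [hu]; field_simp
  have hcard : Fintype.card (RSet n r) = n.choose r := by
    rw [Fintype.card_finset_len, Fintype.card_fin]
  have cpos : (0 : ℝ) < Fintype.card (RSet n r) := by
    rw [hcard]; exact_mod_cast Nat.choose_pos hnr
  have m1 : 1 ≤ n / cV := Nat.div_pos hn hV
  have m1' : (1 : ℝ) ≤ (n / cV : ℕ) := by exact_mod_cast m1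
  have m2 : (n : ℝ) ≤ 2 * cV * (n / cV : ℕ) := by
    have a : n ≤ cV * (n / cV + 1) := (Nat.lt_mul_div_succ n hV).le
    have b : (n : ℝ) ≤ cV * ((n / cV : ℕ) + 1) := by exact_mod_cast a
    nlinarith
  have m3 : l ≤ Real.log (2 * cV) + Real.log (n / cV : ℕ) := by
    rw [← Real.log_mul (by linarith) (by linarith)]
    exact Real.log_le_log n0 m2
  have m4 : ((n / cV : ℕ) : ℝ) ≤ n := by exact_mod_cast Nat.div_le_self n cV
  have hlam : lam (A * l) ε = Real.log A + Real.log l + Real.log (4 / ε) := by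
    rw [lam, Real.log_mul (by linarith) (by linarith)]
  have hL : 2 ≤ A * l := by nlinarith
  have lam0 : 0 ≤ lam (A * l) ε := add_nonneg (Real.log_nonneg (by linarith))
    (Real.log_nonneg ((one_le_div hε).2 (by linarith)))
  have key : C * lam (A * l) ε + 4 * Real.log w + Real.log (2 * cV) ≤ ξ * u / 2 := by
    have e : ξ / (2 * (qq r + ξ)) * l = ξ * u / 2 := by rw [hu]; field_simp
    rw [hlam, ← e]
    linarith
  set k : ℕ := ⌊u / Real.log w⌋₊ with hk
  have k1 : (k : ℝ) * Real.log w ≤ u := (le_div_iff₀ lw).1 (Nat.floor_le (div_pos u0 lw).le)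
  have k2 : u ≤ (k + 1) * Real.log w := (div_le_iff₀ lw).1 (Nat.lt_floor_add_one _).le
  have hs1 : (1 : ℝ) ≤ sz := le_trans (Real.one_le_rpow hw1.le (by linarith)) hsz
  have hs2 : 4 * (1 - ξ / 8) * Real.log w ≤ Real.log sz := by
    rw [← Real.log_rpow (by linarith)]
    exact Real.log_le_log (by positivity) hsz
  set R : ℝ := Real.exp (-(8 * r * u)) * Fintype.card (RSet n r) with hR
  have R0 : 0 ≤ R := by positivity
  refine ⟨k, ⌊R⌋₊, u, A * l, Real.log (n / cV : ℕ) - qq r * u,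
    ⟨⟨by positivity, (div_le_iff₀ cpos).2 (Nat.floor_le R0), (Nat.lt_floor_add_one R).le, hL, hε,
      hε1, ?_, m1⟩, u0, Nat.one_le_pow _ _ (by omega), ?_, by linarith, ?_,
      Nat.one_le_pow _ _ (by exact_mod_cast hs1), ?_⟩, ?_⟩
  · have a1 : ((n / cV : ℕ) : ℝ) ^ cV ≤ Real.exp (cV * l) := by
      rw [Real.exp_nat_mul, hl, Real.exp_log n0]
      exact pow_le_pow_left₀ (by linarith) m4 _
    have a2 : Real.exp (c + cV * l) ≤ (2 : ℝ) ^ (A * l) := by
      rw [Real.rpow_def_of_pos two_pos]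
      refine Real.exp_le_exp.2 ?_
      have b1 := Real.log_two_gt_d9
      have b2 : 1 / 2 * (A * l) ≤ Real.log 2 * (A * l) :=
        mul_le_mul_of_nonneg_right (by linarith) (by linarith)
      have b3 : c ≤ c * l := le_mul_of_one_le_right c0 l1
      rw [hA] at b2 ⊢
      linarith
    rw [Real.exp_add, hc, Real.exp_log (by positivity)] at a2
    rw [← mul_div_assoc, div_le_iff₀ (by positivity)]
    have a3 := mul_le_mul_of_nonneg_left a2 hε.le
    have a4 : ε * (3 * 4 ^ cV / ε * Real.exp (cV * l)) = 4 ^ cV * Real.exp (cV * l) * 3 := by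
      field_simp
    have a5 : (4 : ℝ) ^ cV * ((n / cV : ℕ) : ℝ) ^ cV ≤ 4 ^ cV * Real.exp (cV * l) :=
      mul_le_mul_of_nonneg_left a1 (by positivity)
    linarith
  · push_cast
    rw [Real.log_pow]
    exact k1
  · have a1 : 8 * lam (A * l) ε * M + lam (A * l) ε ≤ C * lam (A * l) ε := by
      rw [hC]
      nlinarith [mul_nonneg (mul_nonneg hN hM) lam0, mul_nonneg hM lam0]
    have a2 : 0 < ξ * u := mul_pos hξ u0
    linarith
  · push_cast
    rw [Real.log_pow]
    have a1 : (N + 2) * (8 * lam (A * l) ε * M) + lam (A * l) ε = C * lam (A * l) ε := by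
      rw [hC]; ring
    have a2 := mul_le_mul_of_nonneg_left hs2 (Nat.cast_nonneg k)
    have a3 : 4 * (1 - ξ / 8) * (u - Real.log w) ≤ 4 * (1 - ξ / 8) * (k * Real.log w) :=
      mul_le_mul_of_nonneg_left (by linarith) (by linarith)
    have a4 : 0 < ξ * Real.log w := mul_pos hξ lw
    nlinarith
  · refine (Nat.floor_le R0).trans ?_
    have c1 : (Fintype.card (RSet n r) : ℝ) ≤ (n : ℝ) ^ (r : ℝ) := by
      rw [hcard, Real.rpow_natCast]; exact_mod_cast Nat.choose_le_pow n r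
    have c2 : Real.exp (-(8 * r * u)) = (n : ℝ) ^ (-(8 * r / (qq r + ξ))) := by
      rw [Real.rpow_def_of_pos n0, hu]
      congr 1
      ring
    rw [hR, c2, sub_eq_neg_add, Real.rpow_add n0]
    exact mul_le_mul_of_nonneg_left c1 (by positivity)

end Pool.Agent.SemiRandom.Fix
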