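import Pool.Agent.P.MP_c53d0e_pr.WY9
import Pool.Agent.P.MP_c53d0e_pr.WYA

set_option autoImplicit false
set_option linter.unusedSectionVars false

namespace Pool.Agent.SemiRandom.Fix

open Finset Und

open Filter Topology

variable {r s N : ℕ} {P Ln : Type} [NeZero r] [Fintype P] [DecidableEq P] [Fintype Ln]
  [DecidableEq Ln]

theorem yes_win (hO : Ok r s) (D : Dat r N P Ln) (hY : D.I.Yes) {θ : ℝ} (hθ : 0 < θ) (q : ℝ)
    (hq : q < 1) : ∃ c : ℝ, 0 < c ∧ ∀ᶠ n : ℕ in atTop,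
      ∃ (S : Strategy (RSet n r) (Move n r s)) (T : ℕ),
        q ≤ Pr S T (ContainsV (ed D s)) ∧ (T : ℝ) ≤ c * (n : ℝ) ^ ((r : ℝ) - de r + θ) := by
  have hr := hO.hr
  have r0 : (0 : ℝ) < r := by exact_mod_cast (by omega : 0 < r)
  have q1 : (1 : ℝ) ≤ qq r := by exact_mod_cast (by unfold qq; omega : 1 ≤ qq r)
  set ξ : ℝ := min 1 (θ / (8 * r)) with hξ
  have x0 : 0 < ξ := lt_min one_pos (by positivity)
  have x1 : ξ ≤ 1 := min_le_left _ _
  have x2 : 8 * r * ξ ≤ θ := by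
    have := min_le_right 1 (θ / (8 * r))
    rw [← hξ, le_div_iff₀ (by positivity)] at this
    linarith
  have x3 : de r - θ ≤ 8 * r / (qq r + ξ) := by
    have a : de r = 8 * r / qq r := by rw [de, hh, mul_one_div]
    have b : 8 * (r : ℝ) / qq r - 8 * r / (qq r + ξ) = 8 * r * ξ / (qq r * (qq r + ξ)) := by
      field_simp
      ring
    have c : 8 * (r : ℝ) * ξ / (qq r * (qq r + ξ)) ≤ 8 * r * ξ :=
      div_le_self (by positivity) (by nlinarith)
    linarith
  obtain ⟨w, S, hw, hE, hB, hS⟩ := hY (ξ / 8) (by positivity)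
  set cV := Fintype.card (Vx r s N P Ln) with hcV
  have cV0 : 0 < cV := Fintype.card_pos_iff.2 ⟨Vx.eta⟩
  set M := Fintype.card (Ed r N P Ln) with hM
  have M0 : 0 < M := Fintype.card_pos_iff.2 ⟨eF (.E 0)⟩
  have M1 : (1 : ℝ) ≤ M := by exact_mod_cast M0
  have N0 : (0 : ℝ) ≤ N := Nat.cast_nonneg _
  set ε : ℝ := min 1 ((1 - q) / ((N + 4) * (4 * M))) with hε
  have e0 : 0 < ε := lt_min one_pos (div_pos (by linarith) (by positivity))
  have e1 : (N + 4) * (4 * M * ε) ≤ 1 - q := by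
    have := min_le_right 1 ((1 - q) / ((N + 4) * (4 * M)))
    rw [← hε, le_div_iff₀ (by positivity)] at this
    linarith
  refine ⟨(N + 4) * (2 * M), by positivity, ?_⟩
  filter_upwards [params cV M N r cV0 (by omega) hw x0 x1 e0 (min_le_left _ _)
    (by exact_mod_cast hS), eventually_ge_atTop r] with n ⟨k, T, u, L, ka, hN, hT⟩ hrn
  have hcard : Fintype.card (RSet n r) = n.choose r := by
    rw [Fintype.card_finset_len, Fintype.card_fin]
  have : Nonempty (RSet n r) := Fintype.card_pos_iff.1 (by rw [hcard]; exact Nat.choose_pos hrn)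
  have : Nonempty (Move n r s) := ⟨Sym.replicate _ ⟨0, by omega⟩⟩
  have n1 : (1 : ℝ) ≤ n := by exact_mod_cast (by omega : 1 ≤ n)
  obtain ⟨S', hE', hB', hS'⟩ := powerG D.I S hE hB k
  rw [← hS'] at hN
  obtain ⟨St, hSt⟩ := stages hO D (Nat.mul_div_le n cV) S' hN hE' hB'
  refine ⟨St, _, le_trans (by linarith) hSt, ?_⟩
  have a : (T : ℝ) ≤ (n : ℝ) ^ ((r : ℝ) - de r + θ) :=
    hT.trans (Real.rpow_le_rpow_of_exponent_le n1 (by linarith))
  have b := mul_le_mul_of_nonneg_left a (by positivity : (0 : ℝ) ≤ (N + 4) * (2 * M))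
  push_cast
  linarith

end Pool.Agent.SemiRandom.Fix
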