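import Pool.Agent.P.MP_c53d0e_pr.WN8
import Pool.Agent.P.MP_c53d0e_pr.WYB
import Pool.Agent.P.MP_c53d0e_pr.WH2
import Pool.Agent.P.MP_c53d0e_pr.WH3
import Pool.Agent.P.MP_c53d0e_pr.UZ

set_option autoImplicit false
set_option linter.unusedSectionVars false

namespace Pool.Agent.SemiRandom.Fix

open Finset Und

open Filter Topology

theorem tau_dat {r s : ℕ} [NeZero r] (hO : Ok r s) (np : ℕ) (Ls : List Line)
    (hG : (datOf r np Ls).Good) :
    ((graphOf (kF r s np Ls.length) (edgeF r s np Ls)).Nonempty ∧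
      ∀ e ∈ graphOf (kF r s np Ls.length) (edgeF r s np Ls), e.card = s) ∧
    ((instOf 4 np Ls).Yes →
      tau (graphOf (kF r s np Ls.length) (edgeF r s np Ls)) r s ≤ ((r - de r : ℝ) : EReal)) ∧
    ((instOf 4 np Ls).No →
      ¬ tau (graphOf (kF r s np Ls.length) (edgeF r s np Ls)) r s ≤ ((r - de r : ℝ) : EReal)) := by
  obtain ⟨enc, henc⟩ := graphOf_edgeF hO np Ls
  rw [henc]
  have hw : ∀ n, kF r s np Ls.length ≤ n → ∀ (S : Strategy (RSet n r) (Move n r s)) (T : ℕ),
      winProb (univ.image fun e => (ed (datOf r np Ls) s e).map enc) S T =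
        Pr S T (ContainsV (ed (datOf r np Ls) s)) := by
    intro n hn S T
    rw [winProb_eq]
    congr 1
    funext h
    exact propext (contains_iff _ enc hn h)
  refine ⟨⟨⟨_, mem_image_of_mem _ (mem_univ (eF (.E 0)))⟩, fun e he => ?_⟩, fun hY => ?_,
    fun hN => ?_⟩
  · obtain ⟨d, -, rfl⟩ := mem_image.1 he
    rw [card_map, card_ed hO]
  · refine EReal.le_of_forall_lt_iff_le.1 fun x hx => ?_
    have hx' : (r - de r : ℝ) < x := EReal.coe_lt_coe_iff.1 hx
    refine tau_le _ _ _ x fun q hq => ?_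
    obtain ⟨c, hc, H⟩ := yes_win hO (datOf r np Ls) hY (θ := x - (r - de r)) (by linarith) q hq
    refine ⟨c, hc, ?_⟩
    filter_upwards [H, eventually_ge_atTop (kF r s np Ls.length)] with n ⟨S, T, h1, h2⟩ hn
    refine ⟨S, T, by rwa [hw n hn], ?_⟩
    rwa [show (r : ℝ) - de r + (x - (r - de r)) = x by ring] at h2
  · obtain ⟨δ, hδ, H⟩ := no_lose hO (datOf r np Ls) hG hN
    have := tau_ge (univ.image fun e => (ed (datOf r np Ls) s e).map enc) r s (δ := δ)
      (δ' := (δ + de r) / 2) (by linarith) fun q hq => by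
        filter_upwards [H q hq, eventually_ge_atTop (kF r s np Ls.length)] with n h1 hn S T hT
        rw [hw n hn]
        exact h1 S T hT
    intro h
    have h2 := EReal.coe_le_coe_iff.1 (this.trans h)
    linarith

theorem not_re_fixed (r s : ℕ) (hr : 2 ≤ r) (hs : r < s) :
    ¬ ∃ f : ℕ × List (List ℕ) → Prop, REPred f ∧ ∀ (k : ℕ) (L : List (List ℕ)),
      (graphOf k L).Nonempty → (∀ e ∈ graphOf k L, e.card = s) →
      (f (k, L) ↔ tau (graphOf k L) r s ≤ ((r - de r : ℝ) : EReal)) := by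
  rintro ⟨f, hf, H⟩
  have : NeZero r := ⟨by omega⟩
  have hO : Ok r s := ⟨hr, hs⟩
  let p : ℕ → Prop := fun n => (Nat.Partrec.Code.eval (Denumerable.ofNat _ n) 0).Dom
  have hp : REPred p := (ComputablePred.halting_problem_re 0).comp (Computable.ofNat _)
  obtain ⟨g0, R0, S0, y, a, b, x, hprs⟩ := exists_prs hp
  let π := prsOf g0 R0 S0 y a b x
  let red : ℕ → ℕ × List (List ℕ) := fun n =>
    (kF r s (npts 4 (π n)) (lines 4 (π n)).length, edgeF r s (npts 4 (π n)) (lines 4 (π n)))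
  have hred : Primrec red := (primrec_graphF r s).comp
    (((primrec_npts 4).comp (primrec_prsOf g0 R0 S0 y a b x)).pair
      ((primrec_lines 4).comp (primrec_prsOf g0 R0 S0 y a b x)))
  have key : ∀ n, f (red n) ↔ ¬ p n := by
    intro n
    obtain ⟨hW, hN, hY⟩ := hprs n
    obtain ⟨h1, h2, h3⟩ := tau_dat hO (npts 4 (π n)) (lines 4 (π n)) (good_datOf r hW)
    have h4 := H _ _ h1.1 h1.2
    exact ⟨fun h' h => h3 (no_of_N le_rfl hW (hN h)) (h4.1 h'),
      fun hn => h4.2 (h2 (yes_of_Y le_rfl hW (hY hn)))⟩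
  have h5 : REPred fun c : Nat.Partrec.Code => f (red (Encodable.encode c)) :=
    hf.comp (hred.to_comp.comp Computable.encode)
  refine ComputablePred.halting_problem_not_re 0 (h5.of_eq fun c => ?_)
  rw [key]
  simp [p]

theorem undecidable_fixed (r s : ℕ) (hr : 2 ≤ r) (hs : r < s) :
    ¬ ∃ f : ℕ × List (List ℕ) → Bool, Computable f ∧ ∀ (k : ℕ) (L : List (List ℕ)),
      (graphOf k L).Nonempty → (∀ e ∈ graphOf k L, e.card = s) →
      (f (k, L) = true ↔ tau (graphOf k L) r s ≤ ((r - de r : ℝ) : EReal)) :=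
  fun ⟨f, hf, H⟩ => not_re_fixed r s hr hs ⟨fun x => f x = true,
    (ComputablePred.computable_iff.2 ⟨f, hf, rfl⟩).to_re, H⟩

lemma de_eq (r : ℕ) : de r = 8 * r / (240 * r * (r + 1) + 1) := by
  unfold de hh qq al
  push_cast
  rw [mul_one_div]
  congr 1
  ring

theorem no_formula (r s : ℕ) (hr : 2 ≤ r) (hs : r < s) :
    ¬ ∃ g : ℕ × List (List ℕ) → ℕ × ℕ, Computable g ∧ ∀ (k : ℕ) (L : List (List ℕ)),
      (graphOf k L).Nonempty → (∀ e ∈ graphOf k L, e.card = s) →
      tau (graphOf k L) r s = ((((g (k, L)).1 : ℝ) / ((g (k, L)).2 : ℝ) : ℝ) : EReal) := by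
  rintro ⟨g, hg, H⟩
  have hp : PrimrecPred fun y : ℕ × ℕ => y.2 = 0 ∨ y.1 * qq r + y.2 * (8 * r) ≤ y.2 * (r * qq r) :=
    (Primrec.eq.comp Primrec.snd (Primrec.const 0)).or (Primrec.nat_le.comp
      (Primrec.nat_add.comp (Primrec.nat_mul.comp Primrec.fst (Primrec.const _))
        (Primrec.nat_mul.comp Primrec.snd (Primrec.const _)))
      (Primrec.nat_mul.comp Primrec.snd (Primrec.const _)))
  refine undecidable_fixed r s hr hs ⟨fun x => decide ((g x).2 = 0 ∨
    (g x).1 * qq r + (g x).2 * (8 * r) ≤ (g x).2 * (r * qq r)), hp.decide.to_comp.comp hg,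
    fun k L h1 h2 => ?_⟩
  rw [H k L h1 h2, EReal.coe_le_coe_iff, decide_eq_true_iff]
  generalize (g (k, L)).1 = a
  generalize (g (k, L)).2 = b
  have q8 : 8 ≤ qq r := by
    have : 1 * 8 ≤ al r * (8 * r) := Nat.mul_le_mul (by unfold al; omega) (by omega)
    unfold qq
    omega
  have q0 : (8 : ℝ) ≤ qq r := by exact_mod_cast q8
  have e : (r : ℝ) - de r = (r * qq r - 8 * r) / qq r := by
    rw [de, hh]
    field_simp
  have r0 : (0 : ℝ) ≤ r := Nat.cast_nonneg r
  rw [e]
  rcases Nat.eq_zero_or_pos b with rfl | hb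
  · simp only [true_or, Nat.cast_zero, div_zero, true_iff]
    exact div_nonneg (by nlinarith) (by linarith)
  · have b0 : (0 : ℝ) < b := by exact_mod_cast hb
    rw [div_le_div_iff₀ b0 (by linarith), or_iff_right hb.ne', ← Nat.cast_le (α := ℝ)]
    push_cast
    constructor <;> intro h <;> linarith

end Pool.Agent.SemiRandom.Fix
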